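import Pool.Agent.TH464.PO.Gap

set_option autoImplicit false

/-!
# The maximal inequality, and the density in all windows
-/

namespace Pool.Agent.TH464.PO

open Finset

open Classical in
/-- the left endpoints of heavy windows in `[a, W)` -/
noncomputable def MR (r : ℕ → ℝ) (τ : ℝ) (a W : ℕ) : Finset ℕ :=
  (Ico a W).filter (fun n => ∃ H : ℕ, 1 ≤ H ∧ n + H ≤ W ∧ τ * H < ∑ m ∈ Ico n (n + H), r m)

open Classical in
/-- the right endpoints of heavy windows in `[a, W)` -/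
noncomputable def ML (r : ℕ → ℝ) (τ : ℝ) (a W : ℕ) : Finset ℕ :=
  (Ico a W).filter (fun n => ∃ H : ℕ, 1 ≤ H ∧ a + H ≤ n + 1 ∧ τ * H < ∑ m ∈ Ico (n + 1 - H) (n + 1), r m)

lemma max_right (r : ℕ → ℝ) (hr : ∀ n, 0 ≤ r n) (τ : ℝ) (hτ : 0 < τ) (W d : ℕ) :
    ∀ a : ℕ, W - a = d → a ≤ W → τ * ((MR r τ a W).card : ℝ) ≤ ∑ m ∈ Ico a W, r m := by
  classical
  induction d using Nat.strong_induction_on with
  | _ d ih =>
    intro a hd haW
    rcases Nat.eq_or_lt_of_le haW with rfl | hlt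
    · simp [MR]
    by_cases hbad : ∃ H : ℕ, 1 ≤ H ∧ a + H ≤ W ∧ τ * H < ∑ m ∈ Ico a (a + H), r m
    · obtain ⟨H, hH1, hHW, hH⟩ := hbad
      have h1 := ih (W - (a + H)) (by omega) (a + H) rfl hHW
      have h2 : MR r τ a W ⊆ Ico a (a + H) ∪ MR r τ (a + H) W := by
        intro n hn
        unfold MR at hn ⊢
        rw [mem_filter, mem_Ico] at hn
        rw [mem_union, mem_Ico, mem_filter, mem_Ico]
        rcases Nat.lt_or_ge n (a + H) with h | h
        · exact Or.inl ⟨hn.1.1, h⟩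
        · exact Or.inr ⟨⟨h, hn.1.2⟩, hn.2⟩
      have h3 := (card_le_card h2).trans (card_union_le _ _)
      rw [Nat.card_Ico, Nat.add_sub_cancel_left] at h3
      have h4 : ((MR r τ a W).card : ℝ) ≤ H + (MR r τ (a + H) W).card := by exact_mod_cast h3
      have h5 := Finset.sum_Ico_consecutive r (show a ≤ a + H by omega) hHW
      calc τ * ((MR r τ a W).card : ℝ) ≤ τ * (H + (MR r τ (a + H) W).card) := by gcongr
        _ = τ * H + τ * (MR r τ (a + H) W).card := by ring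
        _ ≤ ∑ m ∈ Ico a (a + H), r m + ∑ m ∈ Ico (a + H) W, r m := by linarith
        _ = _ := h5
    · have h1 := ih (W - (a + 1)) (by omega) (a + 1) rfl hlt
      have h2 : MR r τ a W ⊆ MR r τ (a + 1) W := by
        intro n hn
        unfold MR at hn ⊢
        rw [mem_filter, mem_Ico] at hn ⊢
        refine ⟨⟨?_, hn.1.2⟩, hn.2⟩
        rcases Nat.eq_or_lt_of_le hn.1.1 with h | h
        · subst h
          exact absurd hn.2 hbad
        · exact h
      have h3 : ((MR r τ a W).card : ℝ) ≤ (MR r τ (a + 1) W).card := by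
        exact_mod_cast card_le_card h2
      have h4 : ∑ m ∈ Ico (a + 1) W, r m ≤ ∑ m ∈ Ico a W, r m :=
        Finset.sum_le_sum_of_subset_of_nonneg (Ico_subset_Ico_left (by omega))
          (fun i _ _ => hr i)
      calc τ * ((MR r τ a W).card : ℝ) ≤ τ * (MR r τ (a + 1) W).card := by gcongr
        _ ≤ _ := h1.trans h4

lemma max_left (r : ℕ → ℝ) (hr : ∀ n, 0 ≤ r n) (τ : ℝ) (hτ : 0 < τ) (a d : ℕ) :
    ∀ W : ℕ, W - a = d → a ≤ W → τ * ((ML r τ a W).card : ℝ) ≤ ∑ m ∈ Ico a W, r m := by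
  classical
  induction d using Nat.strong_induction_on with
  | _ d ih =>
    intro W hd haW
    rcases Nat.eq_or_lt_of_le haW with rfl | hlt
    · simp [ML]
    obtain ⟨W', rfl⟩ : ∃ W', W = W' + 1 := ⟨W - 1, by omega⟩
    by_cases hbad : ∃ H : ℕ, 1 ≤ H ∧ a + H ≤ W' + 1 ∧ τ * H < ∑ m ∈ Ico (W' + 1 - H) (W' + 1), r m
    · obtain ⟨H, hH1, hHW, hH⟩ := hbad
      have h1 := ih (W' + 1 - H - a) (by omega) (W' + 1 - H) rfl (by omega)
      have h2 : ML r τ a (W' + 1) ⊆ Ico (W' + 1 - H) (W' + 1) ∪ ML r τ a (W' + 1 - H) := by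
        intro n hn
        unfold ML at hn ⊢
        rw [mem_filter, mem_Ico] at hn
        rw [mem_union, mem_Ico, mem_filter, mem_Ico]
        rcases Nat.lt_or_ge n (W' + 1 - H) with h | h
        · exact Or.inr ⟨⟨hn.1.1, h⟩, hn.2⟩
        · exact Or.inl ⟨h, hn.1.2⟩
      have h3 := (card_le_card h2).trans (card_union_le _ _)
      rw [Nat.card_Ico, show W' + 1 - (W' + 1 - H) = H by omega] at h3
      have h4 : ((ML r τ a (W' + 1)).card : ℝ) ≤ H + (ML r τ a (W' + 1 - H)).card := by exact_mod_cast h3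
      have h5 := Finset.sum_Ico_consecutive r (show a ≤ W' + 1 - H by omega)
        (show W' + 1 - H ≤ W' + 1 by omega)
      calc τ * ((ML r τ a (W' + 1)).card : ℝ) ≤ τ * (H + (ML r τ a (W' + 1 - H)).card) := by gcongr
        _ = τ * (ML r τ a (W' + 1 - H)).card + τ * H := by ring
        _ ≤ ∑ m ∈ Ico a (W' + 1 - H), r m + ∑ m ∈ Ico (W' + 1 - H) (W' + 1), r m := by linarith
        _ = _ := h5
    · have h1 := ih (W' - a) (by omega) W' rfl (by omega)
      have h2 : ML r τ a (W' + 1) ⊆ ML r τ a W' := by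
        intro n hn
        unfold ML at hn ⊢
        rw [mem_filter, mem_Ico] at hn ⊢
        refine ⟨⟨hn.1.1, ?_⟩, hn.2⟩
        rcases Nat.eq_or_lt_of_le (Nat.lt_succ_iff.1 hn.1.2) with h | h
        · subst h
          exact absurd hn.2 hbad
        · exact h
      have h3 : ((ML r τ a (W' + 1)).card : ℝ) ≤ (ML r τ a W').card := by
        exact_mod_cast card_le_card h2
      have h4 : ∑ m ∈ Ico a W', r m ≤ ∑ m ∈ Ico a (W' + 1), r m :=
        Finset.sum_le_sum_of_subset_of_nonneg (Ico_subset_Ico_right (by omega))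
          (fun i _ _ => hr i)
      calc τ * ((ML r τ a (W' + 1)).card : ℝ) ≤ τ * (ML r τ a W').card := by gcongr
        _ ≤ _ := h1.trans h4

open Classical in
/-- the points of heavy windows in `[a, W)` -/
noncomputable def MX (r : ℕ → ℝ) (τ : ℝ) (a W : ℕ) : Finset ℕ :=
  (Ico a W).filter (fun n => ∃ c d : ℕ, a ≤ c ∧ c ≤ n ∧ n < d ∧ d ≤ W ∧ τ * (d - c) < ∑ m ∈ Ico c d, r m)

/-- **The maximal inequality.** -/
theorem max_both (r : ℕ → ℝ) (hr : ∀ n, 0 ≤ r n) (τ : ℝ) (hτ : 0 < τ) (a W : ℕ) (haW : a ≤ W) :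
    τ * ((MX r τ a W).card : ℝ) ≤ 4 * ∑ m ∈ Ico a W, r m := by
  classical
  have h1 := max_right r hr (τ / 2) (by positivity) W _ a rfl haW
  have h2 := max_left r hr (τ / 2) (by positivity) a _ W rfl haW
  have hsub : MX r τ a W ⊆ MR r (τ / 2) a W ∪ ML r (τ / 2) a W := by
    intro n hn
    unfold MX at hn
    rw [mem_filter, mem_Ico] at hn
    obtain ⟨⟨hna, hnW⟩, c, d, hac, hcn, hnd, hdW, hs⟩ := hn
    rw [mem_union]
    unfold MR ML
    rw [mem_filter, mem_filter, mem_Ico]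
    by_cases hR : τ / 2 * ((d - n : ℕ) : ℝ) < ∑ m ∈ Ico n (n + (d - n)), r m
    · left
      exact ⟨⟨hna, hnW⟩, d - n, by omega, by omega, hR⟩
    · right
      refine ⟨⟨hna, hnW⟩, n + 1 - c, by omega, by omega, ?_⟩
      rw [show n + 1 - (n + 1 - c) = c by omega]
      rw [not_lt, show n + (d - n) = d by omega] at hR
      have h3 := Finset.sum_Ico_consecutive r hcn hnd.le
      have h4 : ∑ m ∈ Ico c (n + 1), r m = ∑ m ∈ Ico c n, r m + r n := by
        rw [Finset.sum_Ico_succ_top hcn]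
      have h5 : 0 ≤ r n := hr n
      rw [Nat.cast_sub hnd.le] at hR
      rw [Nat.cast_sub (by omega : c ≤ n + 1)]
      push_cast
      rw [h4]
      rw [← h3] at hs
      have h6 : (1 : ℝ) ≤ d - c := by
        have : c + 1 ≤ d := by omega
        have h7 : ((c + 1 : ℕ) : ℝ) ≤ d := by exact_mod_cast this
        push_cast at h7
        linarith
      nlinarith
  have h3 := (card_le_card hsub).trans (card_union_le _ _)
  have h4 : ((MX r τ a W).card : ℝ) ≤ (MR r (τ / 2) a W).card + (ML r (τ / 2) a W).card := by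
    exact_mod_cast h3
  nlinarith

/-! ### Windows -/

variable (g : ℕ → Prop)

open Classical in
/-- the number of elements of `(u, v]` -/
noncomputable def Cc (u v : ℕ) : ℕ := ((Ioc u v).filter g).card

open Classical in
lemma Wc_sum (T a b : ℕ) : ∑ m ∈ Ico a b, Wc g m T =
    ∑ c ∈ (Ioc a (b + T)).filter g, ((Ico a b).filter (fun m => m < c ∧ c ≤ m + T)).card := by
  have h1 : ∀ m ∈ Ico a b, Wc g m T = ∑ c ∈ (Ioc a (b + T)).filter g, if m < c ∧ c ≤ m + T then 1 else 0 := by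
    intro m hm
    rw [mem_Ico] at hm
    rw [← Finset.card_filter]
    unfold Wc
    congr 1
    ext c
    simp only [mem_filter, mem_Ioc]
    constructor
    · rintro ⟨⟨h1, h2⟩, h3⟩
      exact ⟨⟨⟨by omega, by omega⟩, h3⟩, h1, h2⟩
    · rintro ⟨⟨_, h3⟩, h1, h2⟩
      exact ⟨⟨h1, h2⟩, h3⟩
  rw [Finset.sum_congr rfl h1, Finset.sum_comm]
  apply Finset.sum_congr rfl
  intro c _
  rw [Finset.card_filter]

/-- the windows inside `(u, v]` -/
lemma Wc_lower (T u v : ℕ) (huv : u + T ≤ v) :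
    ∑ m ∈ Ico u (v - T + 1), Wc g m T ≤ T * Cc g u v := by
  classical
  rw [Wc_sum]
  have h1 : ∀ c ∈ (Ioc u (v - T + 1 + T)).filter g,
      ((Ico u (v - T + 1)).filter (fun m => m < c ∧ c ≤ m + T)).card ≤
        if c ≤ v then T else 0 := by
    intro c hc
    rw [mem_filter, mem_Ioc] at hc
    split_ifs with h
    · have : (Ico u (v - T + 1)).filter (fun m => m < c ∧ c ≤ m + T) ⊆ Ico (c - T) c := by
        intro m hm
        rw [mem_filter, mem_Ico] at hm
        rw [mem_Ico]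
        omega
      refine (card_le_card this).trans ?_
      rw [Nat.card_Ico]
      omega
    · rw [Nat.le_zero, Finset.card_eq_zero, Finset.filter_eq_empty_iff]
      intro m hm
      rw [mem_Ico] at hm
      omega
  refine (Finset.sum_le_sum h1).trans ?_
  rw [← Finset.sum_filter, Finset.sum_const, smul_eq_mul, mul_comm]
  apply Nat.mul_le_mul_left
  unfold Cc
  apply card_le_card
  intro c hc
  rw [mem_filter, mem_filter, mem_Ioc] at hc
  rw [mem_filter, mem_Ioc]
  exact ⟨⟨hc.1.1.1, hc.2⟩, hc.1.2⟩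

/-- the windows meeting `(u, v]` -/
lemma Wc_upper (T u v : ℕ) (hT : T ≤ u + 1) : T * Cc g u v ≤ ∑ m ∈ Ico (u + 1 - T) (v + 1), Wc g m T := by
  classical
  rw [Wc_sum]
  have hsub : (Ioc u v).filter g ⊆ (Ioc (u + 1 - T) (v + 1 + T)).filter g ∪
      ((Ioc u v).filter (fun c => T = 0)) := by
    intro c hc
    rw [mem_filter, mem_Ioc] at hc
    rw [mem_union, mem_filter, mem_filter, mem_Ioc, mem_Ioc]
    by_cases h0 : T = 0
    · exact Or.inr ⟨hc.1, h0⟩
    · left
      exact ⟨by omega, hc.2⟩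
  by_cases hT0 : T = 0
  · simp [hT0]
  have hsub' : (Ioc u v).filter g ⊆ (Ioc (u + 1 - T) (v + 1 + T)).filter g := by
    intro c hc
    rw [mem_filter, mem_Ioc] at hc ⊢
    exact ⟨by omega, hc.2⟩
  refine le_trans ?_ (Finset.sum_le_sum_of_subset hsub')
  unfold Cc
  rw [mul_comm, ← smul_eq_mul]
  apply Finset.card_nsmul_le_sum
  intro c hc
  rw [mem_filter, mem_Ioc] at hc
  have h2 : Ico (c - T) c ⊆ (Ico (u + 1 - T) (v + 1)).filter (fun m => m < c ∧ c ≤ m + T) := by
    intro m hm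
    rw [mem_Ico] at hm
    rw [mem_filter, mem_Ico]
    omega
  have h3 := card_le_card h2
  rw [Nat.card_Ico] at h3
  omega

/-- the deviations -/
noncomputable def dv (T : ℕ) (x : ℝ) (m : ℕ) : ℝ := |(Wc g m T : ℝ) - x|

open Classical in
/-- **Density in all windows**: away from the points of heavy windows. -/
theorem windows (T : ℕ) (V δ : ℝ) (hT : 1 ≤ T) (hV : 0 < V) (hδ : 0 < δ) (hδ1 : δ ≤ 1) (Z Y : ℕ)
    (hZ : T ≤ Z) (n : ℕ) (hn : ¬ ∃ c d : ℕ, Z + 1 - T ≤ c ∧ c ≤ n ∧ n < d ∧ d ≤ Z + Y + 1 ∧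
      (T : ℝ) ≤ d - c ∧ δ * (T * V) * (d - c) < ∑ m ∈ Ico c d, dv g T (T * V) m)
    (u v : ℕ) (hu : Z ≤ u) (hun : u < n) (hnv : n ≤ v) (hv : v ≤ Z + Y)
    (hlong : (T : ℝ) ≤ δ * ((v : ℝ) - u)) :
    |(Cc g u v : ℝ) - (v - u) * V| ≤ 5 * δ * ((v - u) * V) := by
  have hTr : (1 : ℝ) ≤ T := by exact_mod_cast hT
  have hTpos : (0 : ℝ) < T := by linarith
  have hTV : 0 < T * V := by positivity
  have huv : u < v := by omega
  have huvr : (0 : ℝ) < (v : ℝ) - u := by
    have : (u : ℝ) < v := by exact_mod_cast huv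
    linarith
  have hTvu : (T : ℝ) ≤ v - u := hlong.trans (by nlinarith)
  have hTvu' : u + T ≤ v := by
    have : ((u + T : ℕ) : ℝ) ≤ v := by
      push_cast
      linarith
    exact_mod_cast this
  obtain ⟨S, hS⟩ : ∃ S, S = ∑ m ∈ Ico (u + 1 - T) (v + 1), dv g T (T * V) m := ⟨_, rfl⟩
  have hS0 : 0 ≤ S := by
    rw [hS]
    exact Finset.sum_nonneg fun m _ => abs_nonneg _
  have hSle : S ≤ δ * (T * V) * ((v : ℝ) - u + T) := by
    by_contra hcon
    rw [not_le] at hcon
    apply hn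
    refine ⟨u + 1 - T, v + 1, by omega, by omega, by omega, by omega, ?_, ?_⟩
    · rw [Nat.cast_sub (by omega : T ≤ u + 1)]
      push_cast
      linarith
    · rw [← hS]
      refine lt_of_eq_of_lt ?_ hcon
      rw [Nat.cast_sub (by omega : T ≤ u + 1)]
      push_cast
      ring
  -- upper bound
  have hup : (T : ℝ) * Cc g u v ≤ ((v : ℝ) - u + T) * (T * V) + S := by
    have h1 : (T : ℝ) * Cc g u v ≤ ∑ m ∈ Ico (u + 1 - T) (v + 1), (Wc g m T : ℝ) := by
      exact_mod_cast Wc_upper g T u v (by omega)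
    have h2 : ∑ m ∈ Ico (u + 1 - T) (v + 1), (Wc g m T : ℝ) ≤
        ∑ m ∈ Ico (u + 1 - T) (v + 1), (T * V + dv g T (T * V) m) := by
      apply Finset.sum_le_sum
      intro m _
      have := le_abs_self ((Wc g m T : ℝ) - T * V)
      unfold dv
      linarith
    rw [Finset.sum_add_distrib, ← hS, Finset.sum_const, Nat.card_Ico, nsmul_eq_mul] at h2
    rw [Nat.cast_sub (by omega : u + 1 - T ≤ v + 1), Nat.cast_sub (by omega : T ≤ u + 1)] at h2
    push_cast at h2
    have e : ((v : ℝ) + 1 - (u + 1 - T)) = v - u + T := by ring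
    rw [e] at h2
    linarith
  -- lower bound
  have hlow : ((v : ℝ) - u - T + 1) * (T * V) - S ≤ T * Cc g u v := by
    have h1 : ∑ m ∈ Ico u (v - T + 1), (Wc g m T : ℝ) ≤ (T : ℝ) * Cc g u v := by
      exact_mod_cast Wc_lower g T u v hTvu'
    have h2 : ∑ m ∈ Ico u (v - T + 1), (T * V - dv g T (T * V) m) ≤
        ∑ m ∈ Ico u (v - T + 1), (Wc g m T : ℝ) := by
      apply Finset.sum_le_sum
      intro m _
      have := neg_abs_le ((Wc g m T : ℝ) - T * V)
      unfold dv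
      linarith
    have h3 : ∑ m ∈ Ico u (v - T + 1), dv g T (T * V) m ≤ S := by
      rw [hS]
      apply Finset.sum_le_sum_of_subset_of_nonneg
      · intro m hm
        rw [mem_Ico] at hm ⊢
        omega
      · intro m _ _
        exact abs_nonneg _
    rw [Finset.sum_sub_distrib, Finset.sum_const, Nat.card_Ico, nsmul_eq_mul] at h2
    rw [Nat.cast_sub (by omega : u ≤ v - T + 1)] at h2
    push_cast at h2
    rw [Nat.cast_sub (by omega : T ≤ v)] at h2
    have e : ((v : ℝ) - T + 1 - u) = v - u - T + 1 := by ring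
    rw [e] at h2
    linarith
  obtain ⟨h, hh⟩ : ∃ h : ℝ, h = (v : ℝ) - u := ⟨_, rfl⟩
  rw [← hh] at hup hlow hSle hlong hTvu huvr ⊢
  have hhV : 0 < h * V := by positivity
  have hkey : δ * (T * V) * (h + T) ≤ 2 * δ * (T * (h * V)) := by
    have : h + T ≤ 2 * h := by linarith
    calc δ * (T * V) * (h + T) ≤ δ * (T * V) * (2 * h) := by gcongr
      _ = 2 * δ * (T * (h * V)) := by ring
  have hkey2 : (T : ℝ) * (T * V) ≤ δ * (T * (h * V)) := by
    calc (T : ℝ) * (T * V) ≤ δ * h * (T * V) := by gcongr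
      _ = δ * (T * (h * V)) := by ring
  have e1 : h * (T * V) = T * (h * V) := by ring
  rw [abs_le]
  constructor
  · apply le_of_mul_le_mul_left _ hTpos
    have h4 : (h - T + 1) * (T * V) = T * (h * V) - T * (T * V) + T * V := by ring
    rw [h4] at hlow
    have h5 : 0 ≤ δ * (T * (h * V)) := by positivity
    nlinarith
  · apply le_of_mul_le_mul_left _ hTpos
    have h4 : (h + T) * (T * V) = T * (h * V) + T * (T * V) := by ring
    rw [h4] at hup
    have h5 : 0 ≤ δ * (T * (h * V)) := by positivity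
    nlinarith

/-- the number of exceptional integers -/
theorem exc_card (T : ℕ) (V δ : ℝ) (hT : 1 ≤ T) (hV : 0 < V) (hδ : 0 < δ) (Z Y : ℕ) (hZ : T ≤ Z) (B : ℝ)
    (hB : ∑ m ∈ Ico (Z + 1 - T) (Z + Y + 1), dv g T (T * V) m ≤ B * (T * V)) :
    ((MX (dv g T (T * V)) (δ * (T * V)) (Z + 1 - T) (Z + Y + 1)).card : ℝ) ≤ 4 * B / δ := by
  have hTpos : (0 : ℝ) < T := by exact_mod_cast hT
  have hTV : 0 < T * V := by positivity
  have h1 := max_both (dv g T (T * V)) (fun _ => abs_nonneg _) (δ * (T * V)) (by positivity)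
    (Z + 1 - T) (Z + Y + 1) (by omega)
  rw [le_div_iff₀ hδ]
  apply le_of_mul_le_mul_right _ hTV
  linarith

open Classical in
/-- the number of exceptional elements -/
theorem exc_elem (T : ℕ) (V δ : ℝ) (hT : 1 ≤ T) (hV : 0 < V) (hδ : 0 < δ) (Z Y : ℕ)
    (hZ : T ≤ Z) (B : ℝ)
    (hB : ∑ m ∈ Ico (Z + 1 - T) (Z + Y + 1), dv g T (T * V) m ≤ B * (T * V)) :
    (((Ioc Z (Z + Y)).filter (fun b => g b ∧ ∃ c d : ℕ, Z + 1 - T ≤ c ∧ c ≤ b ∧ b < d ∧ d ≤ Z + Y + 1 ∧
      (T : ℝ) ≤ d - c ∧ δ * (T * V) * (d - c) < ∑ m ∈ Ico c d, dv g T (T * V) m)).card : ℝ) ≤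
      9 * B / δ * V + B * V := by
  have hTpos : (0 : ℝ) < T := by exact_mod_cast hT
  have hTV : 0 < T * V := by positivity
  obtain ⟨F, hF⟩ : ∃ F, F = (Ioc Z (Z + Y)).filter (fun b => g b ∧ ∃ c d : ℕ, Z + 1 - T ≤ c ∧ c ≤ b ∧
    b < d ∧ d ≤ Z + Y + 1 ∧ (T : ℝ) ≤ d - c ∧
      δ * (T * V) * (d - c) < ∑ m ∈ Ico c d, dv g T (T * V) m) := ⟨_, rfl⟩
  obtain ⟨E, hE⟩ : ∃ E, E = MX (dv g T (T * V)) (δ / 2 * (T * V)) (Z + 1 - T) (Z + Y + 1) := ⟨_, rfl⟩
  have hEcard : (E.card : ℝ) ≤ 4 * B / (δ / 2) := by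
    rw [hE]
    exact exc_card g T V (δ / 2) hT hV (by positivity) Z Y hZ B hB
  have hB0 : 0 ≤ B := by
    have h1 : 0 ≤ ∑ m ∈ Ico (Z + 1 - T) (Z + Y + 1), dv g T (T * V) m :=
      Finset.sum_nonneg fun m _ => abs_nonneg _
    have h2 := h1.trans hB
    by_contra hcon
    rw [not_le] at hcon
    nlinarith
  -- the windows before an element of `F` start in `E`
  have hdc : T * F.card ≤ ∑ m ∈ E, Wc g m T := by
    have h1 : ∀ m ∈ E, ((F.filter (fun b => m < b ∧ b ≤ m + T)).card) ≤ Wc g m T := by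
      intro m _
      unfold Wc
      apply card_le_card
      intro b hb
      rw [mem_filter, hF, mem_filter] at hb
      rw [mem_filter, mem_Ioc]
      exact ⟨hb.2, hb.1.2.1⟩
    refine le_trans ?_ (Finset.sum_le_sum h1)
    have h2 : ∀ m ∈ E, (F.filter (fun b => m < b ∧ b ≤ m + T)).card =
        ∑ b ∈ F, if m < b ∧ b ≤ m + T then 1 else 0 := by
      intro m _
      rw [Finset.card_filter]
    rw [Finset.sum_congr rfl h2, Finset.sum_comm, mul_comm, ← smul_eq_mul]
    apply Finset.card_nsmul_le_sum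
    intro b hb
    rw [← Finset.card_filter]
    have h3 : Ico (b - T) b ⊆ E.filter (fun m => m < b ∧ b ≤ m + T) := by
      intro m hm
      rw [mem_Ico] at hm
      rw [hF, mem_filter, mem_Ioc] at hb
      obtain ⟨⟨hb1, hb2⟩, _, c, d, hc1, hc2, hd1, hd2, hcd, hs⟩ := hb
      rw [mem_filter]
      refine ⟨?_, by omega, by omega⟩
      rw [hE]
      unfold MX
      rw [mem_filter, mem_Ico]
      refine ⟨⟨by omega, by omega⟩, min c m, d, by omega, by omega, by omega, hd2, ?_⟩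
      have h5 : ∑ m ∈ Ico c d, dv g T (T * V) m ≤ ∑ m ∈ Ico (min c m) d, dv g T (T * V) m := by
        apply Finset.sum_le_sum_of_subset_of_nonneg
        · intro i hi
          rw [mem_Ico] at hi ⊢
          omega
        · intro i _ _
          exact abs_nonneg _
      refine lt_of_le_of_lt ?_ (lt_of_lt_of_le hs h5)
      have h6 : (d : ℝ) - ((min c m : ℕ) : ℝ) ≤ 2 * (d - c) := by
        have h7 : c ≤ min c m + T := by omega
        have h8 : (c : ℝ) ≤ ((min c m : ℕ) : ℝ) + T := by exact_mod_cast h7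
        linarith
      have h9 : 0 ≤ δ / 2 * (T * V) := by positivity
      calc δ / 2 * (T * V) * ((d : ℝ) - ((min c m : ℕ) : ℝ)) ≤ δ / 2 * (T * V) * (2 * (d - c)) := by
            gcongr
        _ = δ * (T * V) * (d - c) := by ring
    have h4 := card_le_card h3
    rw [Nat.card_Ico] at h4
    have h5 : T ≤ b := by
      rw [hF, mem_filter, mem_Ioc] at hb
      omega
    omega
  have h1 : (T : ℝ) * F.card ≤ ∑ m ∈ E, (Wc g m T : ℝ) := by exact_mod_cast hdc
  have h2 : ∑ m ∈ E, (Wc g m T : ℝ) ≤ ∑ m ∈ E, (T * V + dv g T (T * V) m) := by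
    apply Finset.sum_le_sum
    intro m _
    have := le_abs_self ((Wc g m T : ℝ) - T * V)
    unfold dv
    linarith
  rw [Finset.sum_add_distrib, Finset.sum_const, nsmul_eq_mul] at h2
  have h3 : ∑ m ∈ E, dv g T (T * V) m ≤ B * (T * V) := by
    refine le_trans ?_ hB
    apply Finset.sum_le_sum_of_subset_of_nonneg
    · rw [hE]
      unfold MX
      exact filter_subset _ _
    · intro m _ _
      exact abs_nonneg _
  rw [← hF]
  apply le_of_mul_le_mul_left _ hTpos
  have h4 : (E.card : ℝ) * (T * V) ≤ 4 * B / (δ / 2) * (T * V) :=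
    mul_le_mul_of_nonneg_right hEcard hTV.le
  have h5 : 4 * B / (δ / 2) = 8 * B / δ := by
    field_simp
    ring
  rw [h5] at h4
  have h6 : 8 * B / δ * (T * V) ≤ 9 * B / δ * (T * V) := by
    apply mul_le_mul_of_nonneg_right _ hTV.le
    apply div_le_div_of_nonneg_right _ hδ.le
    linarith
  calc (T : ℝ) * F.card ≤ 9 * B / δ * (T * V) + B * (T * V) := by linarith
    _ = T * (9 * B / δ * V + B * V) := by ring

end Pool.Agent.TH464.PO
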