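import Pool.Agent.TH464.PO.Law
import Pool.Agent.TH464.PW.Input

set_option autoImplicit false

/-!
# The Poisson law for the almost prime values of a system of polynomials
-/

namespace Pool.Agent.TH464.PO

open Polynomial Finset Filter
open Pool.Agent.W123.RP Pool.Agent.H373R2.T7 Pool.Agent.W123.RU Pool.Agent.W123.RU.Poly
open Pool.Agent.TH464.PW

variable {ι : Type} [Fintype ι]

/-- no polynomial of the system is a translate of itself or of another one -/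
def NoTr (f : ι → ℤ[X]) : Prop := ∀ (i j : ι) (t : ℕ), 1 ≤ t → f i ≠ (f j).comp (X + C (t : ℤ))

lemma noTr_single (f : ℤ[X]) (hf : 0 < f.natDegree) : NoTr (fun _ : Fin 1 => f) := by
  intro _ _ t ht h
  apply Pool.Agent.H474R2.PG.ncol_not_periodic (f.map (Int.castRingHom ℚ)) _ (t : ℚ)
    (by exact_mod_cast (by omega : t ≠ 0))
  · have := congrArg (Polynomial.map (Int.castRingHom ℚ)) h
    rw [Polynomial.map_comp] at this
    simpa using this.symm
  · rw [natDegree_map_eq_of_injective (RingHom.injective_int _)]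
    exact hf

open Classical in
/-- very few large primes divide a collision -/
lemma large_small (f : ι → ℤ[X]) (hf : Sys f) (hT : NoTr f) (η : ℝ) (hη : 0 < η) :
    ∃ T1 : ℕ, ∀ T : ℕ, T1 ≤ T → ∀ y : ℕ, ∀ t ∈ Icc 1 T,
      ((((pz y).filter (fun p : ℕ => T < p ∧ CoG (Q f) p t)).card : ℕ) : ℝ) ≤ η * T := by
  choose R hR1 hR2 using fun i j : ι => ncolR (f i) (f j) (hf.irr i) (hf.irr j) (hf.deg i) (hf.deg j)
    (hf.lead i) (hf.lead j)
  obtain ⟨S, hS⟩ : ∃ S : ℤ[X], S = ∏ i, ∏ j, R i j := ⟨_, rfl⟩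
  obtain ⟨K, D, hKD⟩ := eval_bound S
  obtain ⟨T2, hT2⟩ : ∃ T2 : ℕ, ((D : ℝ) + 1) / η ≤ T2 := exists_nat_ge _
  refine ⟨max T2 ((K + 1) * 2 ^ D + 2), ?_⟩
  intro T hTT y t ht
  have h2 : T2 ≤ T := (le_max_left _ _).trans hTT
  have h3 : (K + 1) * 2 ^ D + 2 ≤ T := (le_max_right _ _).trans hTT
  rw [mem_Icc] at ht
  have hne : S.eval (t : ℤ) ≠ 0 := by
    rw [hS, eval_prod, Finset.prod_ne_zero_iff]
    intro i _
    rw [eval_prod, Finset.prod_ne_zero_iff]
    intro j _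
    exact hR1 i j t (hT i j t ht.1)
  obtain ⟨F, hF⟩ : ∃ F, F = (pz y).filter (fun p : ℕ => T < p ∧ CoG (Q f) p t) := ⟨_, rfl⟩
  rw [← hF]
  have hpow := pow_card_le F (S.eval (t : ℤ)).natAbs (Int.natAbs_ne_zero.2 hne) (fun p hp => by
    rw [hF, mem_filter] at hp
    obtain ⟨hp1, hp2, m, ⟨i, hi⟩, ⟨j, hj⟩⟩ := hp
    refine ⟨(mem_pz.1 hp1).2, ?_⟩
    push_cast at hj
    have h4 := hR2 i j t m p hi hj
    rw [← Int.natCast_dvd, hS, eval_prod]
    refine h4.trans ((?_ : _ ∣ (∏ j, R i j).eval (t : ℤ)).trans (Finset.dvd_prod_of_mem _ (mem_univ i)))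
    rw [eval_prod]
    exact Finset.dvd_prod_of_mem _ (mem_univ j)) (T : ℝ) (Nat.cast_nonneg _) (fun p hp => by
      rw [hF, mem_filter] at hp
      exact_mod_cast hp.2.1.le)
  have hTr : (2 : ℝ) ≤ T := by exact_mod_cast (by omega : 2 ≤ T)
  have hT0 : (0 : ℝ) < T := by linarith
  have htr : (t : ℝ) ≤ T := by exact_mod_cast ht.2
  have ht0 : (0 : ℝ) ≤ t := Nat.cast_nonneg t
  have hbound : (((S.eval (t : ℤ)).natAbs : ℕ) : ℝ) ≤ K * (2 * T) ^ D := by
    have e1 : (((S.eval (t : ℤ)).natAbs : ℕ) : ℝ) = |((S.eval (t : ℤ) : ℤ) : ℝ)| := by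
      rw [Nat.cast_natAbs, Int.cast_abs]
    rw [e1]
    refine (hKD t).trans ?_
    have e2 : |((t : ℤ) : ℝ)| = (t : ℝ) := by
      rw [Int.cast_natCast, abs_of_nonneg ht0]
    rw [e2]
    gcongr
    linarith
  have hFD : F.card ≤ D + 1 := by
    by_contra hcon
    rw [not_le] at hcon
    have h5 : (T : ℝ) ^ (D + 2) ≤ K * (2 * T) ^ D :=
      (pow_le_pow_right₀ (by linarith) (by omega)).trans (hpow.trans hbound)
    have h6 : K * (2 * (T : ℝ)) ^ D = (K * 2 ^ D) * (T : ℝ) ^ D := by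
      rw [mul_pow]
      ring
    rw [h6, pow_add, mul_comm ((T : ℝ) ^ D)] at h5
    have h7 := le_of_mul_le_mul_right h5 (by positivity)
    have h8 : ((((K + 1) * 2 ^ D + 2 : ℕ)) : ℝ) ≤ T := by exact_mod_cast h3
    push_cast at h8
    have h9 : (0 : ℝ) < 2 ^ D := by positivity
    nlinarith
  have hFr : (F.card : ℝ) ≤ D + 1 := by exact_mod_cast hFD
  have h4 : ((D : ℝ) + 1) / η ≤ T := hT2.trans (by exact_mod_cast h2)
  rw [div_le_iff₀ hη] at h4
  linarith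

lemma sf_Qs (f : ι → ℤ[X]) (s y m : ℕ) : Sf (Qs f s) y m ↔ Sf (Q f) y (m + s) := Iff.rfl

open Classical in
/-- the number of the `m` in `(n, n + T]` for which no `f i m` has a prime factor `≤ y` -/
noncomputable def Np (f : ι → ℤ[X]) (y T n : ℕ) : ℕ :=
  ((Finset.Ioc n (n + T)).filter (fun m => Sf (Q f) y m)).card

open Classical in
lemma Nw_Qs (f : ι → ℤ[X]) (y T s n : ℕ) : Nw (Qs f s) y T n = Np f y T (n + s) := by
  unfold Nw Np
  apply Finset.card_bij (fun h _ => n + s + h)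
  · intro h hh
    rw [mem_filter, mem_Icc] at hh
    rw [mem_filter, mem_Ioc]
    refine ⟨by omega, ?_⟩
    have := (sf_Qs f s y (n + h)).1 hh.2
    rwa [show n + h + s = n + s + h by ring] at this
  · intro a _ b _ hab
    omega
  · intro m hm
    rw [mem_filter, mem_Ioc] at hm
    refine ⟨m - (n + s), ?_, by omega⟩
    rw [mem_filter, mem_Icc]
    refine ⟨by omega, ?_⟩
    rw [sf_Qs]
    rw [show n + (m - (n + s)) + s = m by omega]
    exact hm.2

open Classical in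
/-- **The Poisson law** for systems of polynomials. -/
theorem poisson [Nonempty ι] (f : ι → ℤ[X]) (hf : Sys f) (hT : NoTr f) (θ : ℝ) (hθ : 0 < θ)
    (x0 ε : ℝ) (hx0 : 0 ≤ x0) (hε : 0 < ε) :
    ∃ r0 : ℕ, ∀ r : ℕ, r0 ≤ r → ∀ x1 : ℝ, 0 < x1 → ∀ᶠ X : ℕ in atTop, ∀ Y : ℕ, (X : ℝ) ^ θ ≤ Y →
      ∀ T : ℕ, x1 ≤ T * Vq (Q f) ⌊(X : ℝ) ^ (1 / (r : ℝ))⌋₊ →
        T * Vq (Q f) ⌊(X : ℝ) ^ (1 / (r : ℝ))⌋₊ ≤ x0 → ∀ A : Finset ℕ,
        |(((Finset.Ioc X (X + Y)).filter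
            (fun n => Np f ⌊(X : ℝ) ^ (1 / (r : ℝ))⌋₊ T n ∈ A)).card : ℝ) -
          Y * ∑ j ∈ A, Real.exp (-(T * Vq (Q f) ⌊(X : ℝ) ^ (1 / (r : ℝ))⌋₊)) *
            (T * Vq (Q f) ⌊(X : ℝ) ^ (1 / (r : ℝ))⌋₊) ^ j / j.factorial| ≤ ε * Y := by
  obtain ⟨k, hk⟩ : ∃ k, k = Fintype.card ι := ⟨_, rfl⟩
  have hk1 : 1 ≤ k := by rw [hk]; exact Fintype.card_pos
  obtain ⟨c, hc, hQ⟩ := exists_c f hf
  obtain ⟨v, Cv, hv, hCv, hV⟩ := V_bounds f hf
  rw [← hk] at hV
  obtain ⟨K0, y0, T0, R0, η', hη', hlaw⟩ := law c hc x0 ε hx0 hε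
  obtain ⟨T1, hT1⟩ := large_small f hf hT η' hη'
  obtain ⟨R1, hR1⟩ : ∃ R1 : ℕ, (K0 : ℝ) / θ ≤ R1 := exists_nat_ge _
  refine ⟨max R1 2, ?_⟩
  intro r hr x1 hx1
  have hr2 : 2 ≤ r := (le_max_right _ _).trans hr
  have hrr : (2 : ℝ) ≤ r := by exact_mod_cast hr2
  have hrpos : (0 : ℝ) < r := by linarith
  have hrK : (K0 : ℝ) ≤ θ * r := by
    have h1 : (K0 : ℝ) / θ ≤ r := hR1.trans (by exact_mod_cast (le_max_left _ _).trans hr)
    rw [div_le_iff₀ hθ] at h1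
    linarith
  have hXr : Tendsto (fun X : ℕ => (X : ℝ)) atTop atTop := tendsto_natCast_atTop_atTop
  have hpow2 : Tendsto (fun X : ℕ => (X : ℝ) ^ (1 / (2 * r : ℝ))) atTop atTop :=
    (tendsto_rpow_atTop (by positivity)).comp hXr
  have hlogX : Tendsto (fun X : ℕ => Real.log (X : ℝ)) atTop atTop :=
    Real.tendsto_log_atTop.comp hXr
  have hpos : 0 < (x0 / v) ^ R0 + 1 := by
    have : 0 ≤ (x0 / v) ^ R0 := pow_nonneg (div_nonneg hx0 hv.le) _
    linarith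
  filter_upwards [hpow2.eventually_ge_atTop ((y0 : ℝ) + 3), eventually_ge_atTop 16,
    hlogX.eventually_ge_atTop (2 * r * (1 + Cv * ((T0 : ℝ) + T1 + 1) / x1)),
    logpow_rpow (k * R0) ((x0 / v) ^ R0 + 1) θ hpos hθ] with X hX1 hX16 hX3 hX4
  intro Y hXY T hTlo hTup A
  have hX16r : (16 : ℝ) ≤ X := by exact_mod_cast hX16
  have hXpos : (0 : ℝ) < X := by linarith
  have hXone : (1 : ℝ) ≤ X := by linarith
  have hy0r : (0 : ℝ) ≤ y0 := Nat.cast_nonneg _
  obtain ⟨hy1, hy2, hy3, hy4⟩ := level_low r hr2 X (by omega) (by linarith)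
  obtain ⟨y, hy⟩ : ∃ y, y = ⌊(X : ℝ) ^ (1 / (r : ℝ))⌋₊ := ⟨_, rfl⟩
  rw [← hy] at hy1 hy2 hy3 hy4 hTlo hTup ⊢
  have hyr : (y0 : ℝ) + 3 ≤ y := hX1.trans hy1
  have hyy0 : y0 ≤ y := by
    have : (y0 : ℝ) ≤ y := by linarith
    exact_mod_cast this
  have hy3' : 3 ≤ y := by
    have : (3 : ℝ) ≤ y := by linarith
    exact_mod_cast this
  obtain ⟨hVlo, hVup⟩ := hV y hy3'
  have hlX0 : 0 < Real.log X := Real.log_pos (by linarith)
  have hlogy : 0 < Real.log y := lt_of_lt_of_le (by positivity) hy2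
  have hT0r : (0 : ℝ) ≤ T0 := Nat.cast_nonneg _
  have hT1r : (0 : ℝ) ≤ T1 := Nat.cast_nonneg _
  have hTr0 : (0 : ℝ) ≤ T := Nat.cast_nonneg _
  have hq : 0 ≤ Cv * ((T0 : ℝ) + T1 + 1) / x1 := by positivity
  have hlogX1 : 1 + Cv * ((T0 : ℝ) + T1 + 1) / x1 ≤ Real.log y := by
    refine le_trans ?_ hy2
    rw [le_div_iff₀ (by positivity)]
    linarith
  have hlogy1 : 1 ≤ Real.log y := by linarith
  have hlogyk : Real.log y ≤ Real.log y ^ k := by
    calc Real.log y = Real.log y ^ 1 := (pow_one _).symm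
      _ ≤ Real.log y ^ k := pow_le_pow_right₀ hlogy1 hk1
  have hlogyk0 : 0 < Real.log y ^ k := by positivity
  -- T is large
  have hTbig : (T0 : ℝ) + T1 + 1 ≤ T := by
    have h1 : x1 ≤ T * (Cv / Real.log y ^ k) := hTlo.trans (mul_le_mul_of_nonneg_left hVup hTr0)
    have h2 : x1 * Real.log y ^ k ≤ T * Cv := by
      have := mul_le_mul_of_nonneg_right h1 hlogyk0.le
      calc x1 * Real.log y ^ k ≤ T * (Cv / Real.log y ^ k) * Real.log y ^ k := this
        _ = T * Cv := by field_simp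
    have h3 : x1 * (Cv * ((T0 : ℝ) + T1 + 1) / x1) ≤ x1 * Real.log y ^ k := by
      apply mul_le_mul_of_nonneg_left _ hx1.le
      linarith
    have h4 : x1 * (Cv * ((T0 : ℝ) + T1 + 1) / x1) = Cv * ((T0 : ℝ) + T1 + 1) := by field_simp
    rw [h4] at h3
    have h5 : Cv * ((T0 : ℝ) + T1 + 1) ≤ Cv * T := by linarith
    exact le_of_mul_le_mul_left h5 hCv
  have hTT0 : T0 ≤ T := by
    have : (T0 : ℝ) ≤ T := by linarith
    exact_mod_cast this
  have hTT1 : T1 ≤ T := by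
    have : (T1 : ℝ) ≤ T := by linarith
    exact_mod_cast this
  -- T is small
  have hTR : T ^ R0 ≤ Y := by
    have h1 : (T : ℝ) * (v / Real.log y ^ k) ≤ x0 := (mul_le_mul_of_nonneg_left hVlo hTr0).trans hTup
    have h2 : (T : ℝ) ≤ x0 / v * Real.log X ^ k := by
      have h3 : (T : ℝ) * v ≤ x0 * Real.log y ^ k := by
        calc (T : ℝ) * v = T * (v / Real.log y ^ k) * Real.log y ^ k := by field_simp
          _ ≤ x0 * Real.log y ^ k := mul_le_mul_of_nonneg_right h1 hlogyk0.le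
      rw [div_mul_eq_mul_div, le_div_iff₀ hv]
      refine h3.trans ?_
      gcongr
    have hlogX0 : 0 ≤ Real.log X := by linarith
    have h3 : ((T ^ R0 : ℕ) : ℝ) ≤ Y := by
      push_cast
      calc (T : ℝ) ^ R0 ≤ (x0 / v * Real.log X ^ k) ^ R0 := pow_le_pow_left₀ hTr0 h2 _
        _ = (x0 / v) ^ R0 * Real.log X ^ (k * R0) := by rw [mul_pow, pow_mul]
        _ ≤ ((x0 / v) ^ R0 + 1) * Real.log X ^ (k * R0) := by
          gcongr
          linarith
        _ ≤ (X : ℝ) ^ θ := hX4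
        _ ≤ Y := hXY
    exact_mod_cast h3
  have hyK : y ^ K0 ≤ Y := by
    have h3 : ((y ^ K0 : ℕ) : ℝ) ≤ Y := by
      push_cast
      calc (y : ℝ) ^ K0 ≤ ((X : ℝ) ^ (1 / (r : ℝ))) ^ K0 := by
            apply pow_le_pow_left₀ (Nat.cast_nonneg _)
            rw [hy]
            exact Nat.floor_le (by positivity)
        _ = (X : ℝ) ^ (1 / (r : ℝ) * K0) := by
            rw [Real.rpow_mul hXpos.le, Real.rpow_natCast]
        _ ≤ (X : ℝ) ^ θ := by
            apply Real.rpow_le_rpow_of_exponent_le hXone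
            rw [one_div, inv_mul_eq_div, div_le_iff₀ hrpos]
            exact hrK
        _ ≤ Y := hXY
    exact_mod_cast h3
  have hVs := Vq_Qs f c hQ X y
  have hmain := hlaw Y y T hyy0 hyK hTT0 hTR (Qs f X) (perB_Qs f c hQ X) (fun p hp => by
    rw [nuB_Qs f c hQ]
    exact Poly.adm f hf p hp) (by rw [hVs]; exact hTup) (fun t ht => by
      refine le_trans ?_ (hT1 T hTT1 y t ht)
      have : ((pz y).filter (fun p : ℕ => T < p ∧ CoG (Qs f X) p t)).card ≤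
          ((pz y).filter (fun p : ℕ => T < p ∧ CoG (Q f) p t)).card := by
        apply card_le_card
        intro p hp
        rw [mem_filter] at hp ⊢
        obtain ⟨h1, h2, m, h3, h4⟩ := hp
        refine ⟨h1, h2, m + X, h3, ?_⟩
        unfold Qs at h4
        rwa [show m + t + X = m + X + t by ring] at h4
      exact_mod_cast this) A
  rw [hVs] at hmain
  have hcount : ((Finset.Ioc X (X + Y)).filter (fun n => Np f y T n ∈ A)).card =
      ((Icc 1 Y).filter (fun n => Nw (Qs f X) y T n ∈ A)).card := by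
    symm
    apply Finset.card_bij (fun n _ => n + X)
    · intro n hn
      rw [mem_filter, mem_Icc, Nw_Qs] at hn
      rw [mem_filter, mem_Ioc]
      exact ⟨by omega, hn.2⟩
    · intro a _ b _ hab
      omega
    · intro n hn
      rw [mem_filter, mem_Ioc] at hn
      refine ⟨n - X, ?_, by omega⟩
      rw [mem_filter, mem_Icc, Nw_Qs, show n - X + X = n by omega]
      exact ⟨by omega, hn.2⟩
  rw [hcount]
  exact hmain

end Pool.Agent.TH464.PO
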