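import Pool.Agent.TH464.PO.Mom2
import Pool.Agent.TH464.PO.Poly

set_option autoImplicit false

/-!
# Exact density in all windows for the almost prime values of polynomials
-/

namespace Pool.Agent.TH464.PO

open Polynomial Finset Filter
open Pool.Agent.W123.RP Pool.Agent.H373R2.T7 Pool.Agent.W123.RU Pool.Agent.W123.RU.Poly
open Pool.Agent.TH464.PW

variable {ι : Type} [Fintype ι]

open Classical in
/-- the sizes -/
lemma poly_sizes [Nonempty ι] (f : ι → ℤ[X]) (hf : Sys f) (hT : NoTr f) (θ : ℝ) (hθ : 0 < θ)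
    (K y0 T0 R0 : ℕ) (η x1 x2 : ℝ) (hη : 0 < η) (hx1 : 0 < x1) (hx2 : 0 ≤ x2) :
    ∃ r0 : ℕ, ∀ r : ℕ, r0 ≤ r → ∀ᶠ X : ℕ in atTop, ∀ Y : ℕ, (X : ℝ) ^ θ ≤ Y →
      ∀ y : ℕ, y = ⌊(X : ℝ) ^ (1 / (r : ℝ))⌋₊ →
      y0 ≤ y ∧ y ^ K ≤ Y ∧ ∀ T : ℕ, x1 ≤ T * Vq (Q f) y → T * Vq (Q f) y ≤ x2 → T0 ≤ T ∧ T ^ R0 ≤ Y ∧
        ∀ t ∈ Icc 1 T, ((((pz y).filter (fun p : ℕ => T < p ∧ CoG (Q f) p t)).card : ℕ) : ℝ) ≤ η * T := by
  obtain ⟨k, hk⟩ : ∃ k, k = Fintype.card ι := ⟨_, rfl⟩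
  have hk1 : 1 ≤ k := by rw [hk]; exact Fintype.card_pos
  obtain ⟨v, Cv, hv, hCv, hV⟩ := V_bounds f hf
  rw [← hk] at hV
  obtain ⟨T1, hT1⟩ := large_small f hf hT η hη
  obtain ⟨R1, hR1⟩ : ∃ R1 : ℕ, (K : ℝ) / θ ≤ R1 := exists_nat_ge _
  refine ⟨max R1 2, ?_⟩
  intro r hr
  have hr2 : 2 ≤ r := (le_max_right _ _).trans hr
  have hrr : (2 : ℝ) ≤ r := by exact_mod_cast hr2
  have hrpos : (0 : ℝ) < r := by linarith
  have hrK : (K : ℝ) ≤ θ * r := by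
    have h1 : (K : ℝ) / θ ≤ r := hR1.trans (by exact_mod_cast (le_max_left _ _).trans hr)
    rw [div_le_iff₀ hθ] at h1
    linarith
  have hXr : Tendsto (fun X : ℕ => (X : ℝ)) atTop atTop := tendsto_natCast_atTop_atTop
  have hpow2 : Tendsto (fun X : ℕ => (X : ℝ) ^ (1 / (2 * r : ℝ))) atTop atTop :=
    (tendsto_rpow_atTop (by positivity)).comp hXr
  have hlogX : Tendsto (fun X : ℕ => Real.log (X : ℝ)) atTop atTop :=
    Real.tendsto_log_atTop.comp hXr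
  have hpos : 0 < (x2 / v) ^ R0 + 1 := by
    have : 0 ≤ (x2 / v) ^ R0 := pow_nonneg (div_nonneg hx2 hv.le) _
    linarith
  filter_upwards [hpow2.eventually_ge_atTop ((y0 : ℝ) + 3), eventually_ge_atTop 16,
    hlogX.eventually_ge_atTop (2 * r * (1 + Cv * ((T0 : ℝ) + T1 + 1) / x1)),
    logpow_rpow (k * R0) ((x2 / v) ^ R0 + 1) θ hpos hθ] with X hX1 hX16 hX3 hX4
  intro Y hXY y hy
  have hX16r : (16 : ℝ) ≤ X := by exact_mod_cast hX16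
  have hXpos : (0 : ℝ) < X := by linarith
  have hXone : (1 : ℝ) ≤ X := by linarith
  have hy0r : (0 : ℝ) ≤ y0 := Nat.cast_nonneg _
  obtain ⟨hy1, hy2, hy3, hy4⟩ := level_low r hr2 X (by omega) (by linarith)
  rw [← hy] at hy1 hy2 hy3 hy4
  have hyr : (y0 : ℝ) + 3 ≤ y := hX1.trans hy1
  have hyy0 : y0 ≤ y := by
    have : (y0 : ℝ) ≤ y := by linarith
    exact_mod_cast this
  have hy3' : 3 ≤ y := by
    have : (3 : ℝ) ≤ y := by linarith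
    exact_mod_cast this
  obtain ⟨hVlo, hVup⟩ := hV y hy3'
  have hlX0 : 0 < Real.log X := Real.log_pos (by linarith)
  have hlogy : 0 < Real.log y := lt_of_lt_of_le (by positivity) hy2
  have hT0r : (0 : ℝ) ≤ T0 := Nat.cast_nonneg _
  have hT1r : (0 : ℝ) ≤ T1 := Nat.cast_nonneg _
  have hq : 0 ≤ Cv * ((T0 : ℝ) + T1 + 1) / x1 := by positivity
  have hlogX1 : 1 + Cv * ((T0 : ℝ) + T1 + 1) / x1 ≤ Real.log y := by
    refine le_trans ?_ hy2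
    rw [le_div_iff₀ (by positivity)]
    linarith
  have hlogy1 : 1 ≤ Real.log y := by linarith
  have hlogyk : Real.log y ≤ Real.log y ^ k := by
    calc Real.log y = Real.log y ^ 1 := (pow_one _).symm
      _ ≤ Real.log y ^ k := pow_le_pow_right₀ hlogy1 hk1
  have hlogyk0 : 0 < Real.log y ^ k := by positivity
  have hyK : y ^ K ≤ Y := by
    have h3 : ((y ^ K : ℕ) : ℝ) ≤ Y := by
      push_cast
      calc (y : ℝ) ^ K ≤ ((X : ℝ) ^ (1 / (r : ℝ))) ^ K := by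
            apply pow_le_pow_left₀ (Nat.cast_nonneg _)
            rw [hy]
            exact Nat.floor_le (by positivity)
        _ = (X : ℝ) ^ (1 / (r : ℝ) * K) := by
            rw [Real.rpow_mul hXpos.le, Real.rpow_natCast]
        _ ≤ (X : ℝ) ^ θ := by
            apply Real.rpow_le_rpow_of_exponent_le hXone
            rw [one_div, inv_mul_eq_div, div_le_iff₀ hrpos]
            exact hrK
        _ ≤ Y := hXY
    exact_mod_cast h3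
  refine ⟨hyy0, hyK, ?_⟩
  intro T hTlo hTup
  have hTr0 : (0 : ℝ) ≤ T := Nat.cast_nonneg _
  -- T is large
  have hTbig : (T0 : ℝ) + T1 + 1 ≤ T := by
    have h1 : x1 ≤ T * (Cv / Real.log y ^ k) := hTlo.trans (mul_le_mul_of_nonneg_left hVup hTr0)
    have h2 : x1 * Real.log y ^ k ≤ T * Cv := by
      have := mul_le_mul_of_nonneg_right h1 hlogyk0.le
      calc x1 * Real.log y ^ k ≤ T * (Cv / Real.log y ^ k) * Real.log y ^ k := this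
        _ = T * Cv := by field_simp
    have h3 : x1 * (Cv * ((T0 : ℝ) + T1 + 1) / x1) ≤ x1 * Real.log y ^ k := by
      apply mul_le_mul_of_nonneg_left _ hx1.le
      linarith
    have h4 : x1 * (Cv * ((T0 : ℝ) + T1 + 1) / x1) = Cv * ((T0 : ℝ) + T1 + 1) := by field_simp
    rw [h4] at h3
    have h5 : Cv * ((T0 : ℝ) + T1 + 1) ≤ Cv * T := by linarith
    exact le_of_mul_le_mul_left h5 hCv
  have hTT0 : T0 ≤ T := by
    have : (T0 : ℝ) ≤ T := by linarith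
    exact_mod_cast this
  have hTT1 : T1 ≤ T := by
    have : (T1 : ℝ) ≤ T := by linarith
    exact_mod_cast this
  -- T is small
  have hTR : T ^ R0 ≤ Y := by
    have h1 : (T : ℝ) * (v / Real.log y ^ k) ≤ x2 := (mul_le_mul_of_nonneg_left hVlo hTr0).trans hTup
    have h2 : (T : ℝ) ≤ x2 / v * Real.log X ^ k := by
      have h3 : (T : ℝ) * v ≤ x2 * Real.log y ^ k := by
        calc (T : ℝ) * v = T * (v / Real.log y ^ k) * Real.log y ^ k := by field_simp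
          _ ≤ x2 * Real.log y ^ k := mul_le_mul_of_nonneg_right h1 hlogyk0.le
      rw [div_mul_eq_mul_div, le_div_iff₀ hv]
      refine h3.trans ?_
      gcongr
    have hlogX0 : 0 ≤ Real.log X := by linarith
    have h3 : ((T ^ R0 : ℕ) : ℝ) ≤ Y := by
      push_cast
      calc (T : ℝ) ^ R0 ≤ (x2 / v * Real.log X ^ k) ^ R0 := pow_le_pow_left₀ hTr0 h2 _
        _ = (x2 / v) ^ R0 * Real.log X ^ (k * R0) := by rw [mul_pow, pow_mul]
        _ ≤ ((x2 / v) ^ R0 + 1) * Real.log X ^ (k * R0) := by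
          gcongr
          linarith
        _ ≤ (X : ℝ) ^ θ := hX4
        _ ≤ Y := hXY
    exact_mod_cast h3
  exact ⟨hTT0, hTR, fun t ht => hT1 T hTT1 y t ht⟩

open Classical in
/-- **Exact density in all windows**, for systems of polynomials. -/
theorem exact_poly [Nonempty ι] (f : ι → ℤ[X]) (hf : Sys f) (hT : NoTr f) (θ : ℝ) (hθ : 0 < θ)
    (ε : ℝ) (hε : 0 < ε) :
    ∃ (K : ℝ) (r0 : ℕ), 0 < K ∧ ∀ r : ℕ, r0 ≤ r → ∀ᶠ X : ℕ in atTop, ∀ Y : ℕ, (X : ℝ) ^ θ ≤ Y → Y ≤ X →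
      (((Ioc X (X + Y)).filter (fun n => ¬ Exact (Sf (Q f) ⌊(X : ℝ) ^ (1 / (r : ℝ))⌋₊)
        (Vq (Q f) ⌊(X : ℝ) ^ (1 / (r : ℝ))⌋₊) K ε X Y n)).card : ℝ) ≤ ε * Y ∧
      (((Ioc X (X + Y)).filter (fun n => Sf (Q f) ⌊(X : ℝ) ^ (1 / (r : ℝ))⌋₊ n ∧
        ¬ Exact (Sf (Q f) ⌊(X : ℝ) ^ (1 / (r : ℝ))⌋₊)
        (Vq (Q f) ⌊(X : ℝ) ^ (1 / (r : ℝ))⌋₊) K ε X Y n)).card : ℝ) ≤
          ε * (Y * Vq (Q f) ⌊(X : ℝ) ^ (1 / (r : ℝ))⌋₊) := by
  obtain ⟨c, hc, hQ⟩ := exists_c f hf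
  obtain ⟨K0, y0, T0, η', κ, x1, K, hη', hκ, hx1, hK, hex⟩ := gen_exact c hc ε hε
  obtain ⟨T2, hT2⟩ : ∃ T2 : ℕ, 1 / κ ^ 2 ≤ T2 := exists_nat_ge _
  obtain ⟨r0, h0⟩ := poly_sizes f hf hT θ hθ K0 y0 (T0 + T2 + 1) 5 η' x1 (2 * x1) hη' (by linarith)
    (by linarith)
  refine ⟨K, r0, hK, ?_⟩
  intro r hr
  filter_upwards [h0 r hr] with X hX
  intro Y hXY hYX
  obtain ⟨y, hy⟩ : ∃ y, y = ⌊(X : ℝ) ^ (1 / (r : ℝ))⌋₊ := ⟨_, rfl⟩
  obtain ⟨a1, a2, a3⟩ := hX Y hXY y hy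
  rw [← hy]
  refine hex (Q f) X Y y a1 a2 hQ (fun p hp => Poly.adm f hf p hp) (Vq_le_one _ _) ?_
  intro T h1 h2
  obtain ⟨b1, b2, b3⟩ := a3 T h1 h2
  have hT1 : 1 ≤ T := by omega
  have hTr1 : (1 : ℝ) ≤ T := by exact_mod_cast hT1
  have hTY : T ≤ Y := by
    calc T = T ^ 1 := (pow_one T).symm
      _ ≤ T ^ 5 := Nat.pow_le_pow_right hT1 (by norm_num)
      _ ≤ Y := b2
  refine ⟨by omega, hTY.trans hYX, hTY, ?_, b3⟩
  have hκT : 1 ≤ T * κ ^ 2 := by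
    have : 1 / κ ^ 2 ≤ T := hT2.trans (by exact_mod_cast (by omega : T2 ≤ T))
    rwa [div_le_iff₀ (by positivity)] at this
  have h3 : ((T : ℝ) ^ 2 / κ) ^ 2 ≤ Y := by
    have h4 : ((T : ℝ) ^ 2 / κ) ^ 2 ≤ (T : ℝ) ^ 5 := by
      rw [div_pow, div_le_iff₀ (by positivity)]
      calc ((T : ℝ) ^ 2) ^ 2 = T ^ 4 * 1 := by ring
        _ ≤ T ^ 4 * (T * κ ^ 2) := by gcongr
        _ = (T : ℝ) ^ 5 * κ ^ 2 := by ring
    refine h4.trans ?_
    exact_mod_cast b2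
  have h4 := Real.le_sqrt_of_sq_le h3
  rw [div_le_iff₀ hκ] at h4
  linarith

end Pool.Agent.TH464.PO
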