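import Pool.Agent.TH464.PO.ShiftJoint

set_option autoImplicit false

/-!
# All mixed binomial moments of the counts in several windows
-/

namespace Pool.Agent.TH464.PO

open Polynomial Finset Filter
open Pool.Agent.W123.RP Pool.Agent.H373R2.T7 Pool.Agent.W123.RU Pool.Agent.W123.RU.Poly
open Pool.Agent.TH464.PW

/-- The mixed binomial moments for `t` windows, as a property of `g`. -/
def MMo {t : ℕ} (k : Fin t → ℕ) (g : ℕ → Prop) (Z Y : ℕ) (V x0 ε : ℝ) : Prop :=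
  ∀ a b : Fin t → ℕ, (∀ i, a i ≤ b i) →
  (∀ i, b i * V ≤ x0) → (∀ i j, i ≠ j → b i ≤ a j ∨ b j ≤ a i) →
    |∑ n ∈ Ioc Z (Z + Y), ∏ i, ((Cc g (n + a i) (n + b i)).choose (k i) : ℝ) -
      Y * ∏ i, ((((b i : ℝ) - a i) * V) ^ (k i) / (k i).factorial)| ≤ ε * Y

lemma exists_T (x0 V : ℝ) (hV0 : 0 < V) (hV1 : V ≤ 1) : ∃ T : ℕ, 1 ≤ T ∧ |x0| + 1 ≤ T * V ∧
    T * V ≤ |x0| + 2 ∧ ∀ b : ℕ, b * V ≤ x0 → b ≤ T := by
  have hxa := abs_nonneg x0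
  have hT1 : |x0| + 1 ≤ (⌈(|x0| + 1) / V⌉₊ : ℕ) * V := by
    have := Nat.le_ceil ((|x0| + 1) / V)
    rw [div_le_iff₀ hV0] at this
    exact this
  refine ⟨⌈(|x0| + 1) / V⌉₊, ?_, hT1, ?_, ?_⟩
  · rcases Nat.eq_zero_or_pos ⌈(|x0| + 1) / V⌉₊ with h0 | h0
    · rw [h0] at hT1
      push_cast at hT1
      linarith
    · exact h0
  · have := (Nat.ceil_lt_add_one (by positivity : 0 ≤ (|x0| + 1) / V)).le
    calc (⌈(|x0| + 1) / V⌉₊ : ℕ) * V ≤ ((|x0| + 1) / V + 1) * V :=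
          mul_le_mul_of_nonneg_right this hV0.le
      _ = |x0| + 1 + V := by field_simp
      _ ≤ |x0| + 2 := by linarith
  · intro b hb
    have h1 : (b : ℝ) * V ≤ (⌈(|x0| + 1) / V⌉₊ : ℕ) * V := by
      have := le_abs_self x0
      linarith
    exact_mod_cast le_of_mul_le_mul_right h1 hV0

lemma sum_Na (t : ℕ) (k : Fin t → ℕ) (Q : ℕ → ℕ → Prop) (y Z Y : ℕ) (a b : Fin t → ℕ) :
    ∑ n ∈ Icc 1 Y, ∏ i, ((Na (Qt Q Z) y (a i) (b i) n).choose (k i) : ℝ) =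
      ∑ n ∈ Ioc Z (Z + Y), ∏ i, ((Cc (Sf Q y) (n + a i) (n + b i)).choose (k i) : ℝ) := by
  classical
  apply Finset.sum_bij (fun n _ => n + Z)
  · intro n hn
    rw [mem_Icc] at hn
    rw [mem_Ioc]
    omega
  · intro a _ b _ hab
    omega
  · intro n hn
    rw [mem_Ioc] at hn
    exact ⟨n - Z, by rw [mem_Icc]; omega, by omega⟩
  · intro n _
    apply Finset.prod_congr rfl
    intro i _
    rw [Na_Qt]
    rfl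

open Classical in
/-- **Mixed binomial moments**, in all intervals. -/
theorem mom_law {t : ℕ} (k : Fin t → ℕ) (c : ℕ) (hc : 1 ≤ c) (x0 ε : ℝ) (hε : 0 < ε) :
    ∃ (K0 y0 T0 R0 : ℕ) (η' : ℝ), 0 < η' ∧
      ∀ (Q : ℕ → ℕ → Prop) (Z Y y : ℕ), PerB Q c → (∀ p : ℕ, p.Prime → nuB Q p < p) → y0 ≤ y →
      y ^ K0 ≤ Y →
      (∀ T : ℕ, 1 ≤ T * Vq Q y → T * Vq Q y ≤ |x0| + 2 → T0 ≤ T ∧ T ^ R0 ≤ Y ∧ ∀ t ∈ Icc 1 T,
        ((((pz y).filter (fun p : ℕ => T < p ∧ CoG Q p t)).card : ℕ) : ℝ) ≤ η' * T) →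
      MMo k (Sf Q y) Z Y (Vq Q y) x0 ε := by
  have hx02 : (1 : ℝ) ≤ |x0| + 2 := by
    have := abs_nonneg x0
    linarith
  obtain ⟨K0, y0, T0, R0, η', hη', hm⟩ := moment_multi c hc k (|x0| + 2) ε hx02 hε
  refine ⟨K0, y0, T0, R0, η', hη', ?_⟩
  intro Q Z Y y hQ hadm hy hyY hT a b hab hb hdis
  have hV0 : 0 < Vq Q y := Vq_pos Q hadm y
  obtain ⟨T, h1, h2, h3, h4⟩ := exists_T x0 (Vq Q y) hV0 (Vq_le_one Q y)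
  have hxa := abs_nonneg x0
  obtain ⟨hT0, hTR, hlarge⟩ := hT T (by linarith) h3
  have hkm := hm Y y T hy hyY hT0 hTR (Qt Q Z) (perB_Qt Q c hQ Z) (fun p hp => by
    rw [nuB_Qt Q c hQ]
    exact hadm p hp) (by rw [Vq_Qt Q c hQ]; exact h3) (fun t ht => by
    refine le_trans ?_ (hlarge t ht)
    have : ((pz y).filter (fun p : ℕ => T < p ∧ CoG (Qt Q Z) p t)).card ≤
        ((pz y).filter (fun p : ℕ => T < p ∧ CoG Q p t)).card := by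
      apply card_le_card
      intro p hp
      rw [mem_filter] at hp ⊢
      obtain ⟨h1, h2, m, h3, h4⟩ := hp
      refine ⟨h1, h2, m + Z, h3, ?_⟩
      unfold Qt at h4
      rwa [show m + t + Z = m + Z + t by ring] at h4
    exact_mod_cast this) a b hab (fun i => h4 _ (hb i)) (win_disj a b hdis)
  rw [Vq_Qt Q c hQ, sum_Na] at hkm
  exact hkm

open Classical in
/-- **Mixed binomial moments**, in all intervals, from the singular averages. -/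
theorem mom_law_SB {t : ℕ} (k : Fin t → ℕ) (c : ℕ) (hc : 1 ≤ c) (x0 ε : ℝ) (hε : 0 < ε) :
    ∃ (K0 y0 T0 R0 R : ℕ) (η' : ℝ), 0 < η' ∧
      ∀ (Q : ℕ → ℕ → Prop) (Z Y y : ℕ), PerB Q c → (∀ p : ℕ, p.Prime → nuB Q p < p) → y0 ≤ y →
      y ^ K0 ≤ Y →
      (∀ T : ℕ, 1 ≤ T * Vq Q y → T * Vq Q y ≤ |x0| + 2 → T0 ≤ T ∧ T ^ R0 ≤ Y ∧
        ∀ j < R, SB Q y T j η') →
      MMo k (Sf Q y) Z Y (Vq Q y) x0 ε := by
  have hx02 : (1 : ℝ) ≤ |x0| + 2 := by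
    have := abs_nonneg x0
    linarith
  obtain ⟨K0, y0, T0, R0, R, η', hη', hm⟩ := moment_multi_SB c hc k (|x0| + 2) ε hx02 hε
  refine ⟨K0, y0, T0, R0, R, η', hη', ?_⟩
  intro Q Z Y y hQ hadm hy hyY hT a b hab hb hdis
  have hV0 : 0 < Vq Q y := Vq_pos Q hadm y
  obtain ⟨T, h1, h2, h3, h4⟩ := exists_T x0 (Vq Q y) hV0 (Vq_le_one Q y)
  have hxa := abs_nonneg x0
  obtain ⟨hT0, hTR, hSB⟩ := hT T (by linarith) h3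
  have hkm := hm Y y T hy hyY hT0 hTR (Qt Q Z) (perB_Qt Q c hQ Z) (fun p hp => by
    rw [nuB_Qt Q c hQ]
    exact hadm p hp) (by rw [Vq_Qt Q c hQ]; exact h3)
    (fun j hj => SB_Qt Q c hQ Z y T j η' (hSB j hj)) a b hab (fun i => h4 _ (hb i))
    (win_disj a b hdis)
  rw [Vq_Qt Q c hQ, sum_Na] at hkm
  exact hkm

variable {ι : Type} [Fintype ι]

/-- mixed moments for systems of polynomials -/
theorem mom_poly [Nonempty ι] (f : ι → ℤ[X]) (hf : Sys f) (hT : NoTr f) (θ : ℝ) (hθ : 0 < θ)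
    {s : ℕ} (k : Fin s → ℕ) (x0 ε : ℝ) (hε : 0 < ε) :
    ∃ r0 : ℕ, ∀ r : ℕ, r0 ≤ r → ∀ᶠ X : ℕ in atTop, ∀ Y : ℕ, (X : ℝ) ^ θ ≤ Y →
      MMo k (Sf (Q f) ⌊(X : ℝ) ^ (1 / (r : ℝ))⌋₊) X Y (Vq (Q f) ⌊(X : ℝ) ^ (1 / (r : ℝ))⌋₊) x0 ε := by
  obtain ⟨c, hc, hQ⟩ := exists_c f hf
  obtain ⟨K0, y0, T0, R0, η', hη', hlaw⟩ := mom_law k c hc x0 ε hε
  obtain ⟨r0, h0⟩ := poly_sizes f hf hT θ hθ K0 y0 T0 R0 η' 1 (|x0| + 2) hη' one_pos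
    (by positivity)
  refine ⟨r0, ?_⟩
  intro r hr
  filter_upwards [h0 r hr] with X hX
  intro Y hXY
  obtain ⟨y, hy⟩ : ∃ y, y = ⌊(X : ℝ) ^ (1 / (r : ℝ))⌋₊ := ⟨_, rfl⟩
  obtain ⟨a1, a2, a3⟩ := hX Y hXY y hy
  rw [← hy]
  exact hlaw (Q f) X Y y hQ (fun p hp => Poly.adm f hf p hp) a1 a2 a3

/-- mixed moments for linear forms -/
theorem lin_mom (K A : ℕ) (hK : 1 ≤ K) (θ : ℝ) (hθ : 0 < θ) {s : ℕ} (k : Fin s → ℕ) (x0 ε : ℝ)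
    (hε : 0 < ε) :
    ∃ r0 : ℕ, ∀ r : ℕ, r0 ≤ r → ∀ᶠ X : ℕ in atTop, ∀ u v : Fin K → ℤ,
      LF K u v (X ^ A) (Real.log X ^ (K + 1)) → ∀ Z Y : ℕ, (X : ℝ) ^ θ ≤ Y →
      MMo k (Sf (QL u v) ⌊(X : ℝ) ^ (1 / (r : ℝ))⌋₊) Z Y
        (Vq (QL u v) ⌊(X : ℝ) ^ (1 / (r : ℝ))⌋₊) x0 ε := by
  obtain ⟨K0, y0, T0, R0, η', hη', hlaw⟩ := mom_law k K hK x0 ε hε
  obtain ⟨r0, h0⟩ := lin_sizes K A θ hθ K0 y0 T0 R0 η' 1 (|x0| + 2) hη' one_pos (by positivity)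
  refine ⟨r0, ?_⟩
  intro r hr
  filter_upwards [h0 r hr] with X hX
  intro u v hLF Z Y hXY
  obtain ⟨y, hy⟩ : ∃ y, y = ⌊(X : ℝ) ^ (1 / (r : ℝ))⌋₊ := ⟨_, rfl⟩
  obtain ⟨a1, a2, a3, a4, a5, a6⟩ := hX u v hLF Y hXY y hy
  rw [← hy]
  exact hlaw (QL u v) Z Y y (lf_perB hLF) (fun p hp => lf_adm hLF p hp) a1 a2 a6

/-- mixed moments for patterns of shifts -/
theorem shift_mom (K A : ℕ) (hK : 2 ≤ K) (θ : ℝ) (hθ : 0 < θ) {s : ℕ} (k : Fin s → ℕ) (x0 ε : ℝ)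
    (hε : 0 < ε) :
    ∃ r0 : ℕ, ∀ r : ℕ, r0 ≤ r → ∀ᶠ X : ℕ in atTop, ∀ P : Finset ℕ, P.card = K →
      (∀ a ∈ P, a ≤ X ^ A) → AdP P → ∀ Z Y : ℕ, (X : ℝ) ^ θ ≤ Y →
      MMo k (Sf (QS P) ⌊(X : ℝ) ^ (1 / (r : ℝ))⌋₊) Z Y
        (Vq (QS P) ⌊(X : ℝ) ^ (1 / (r : ℝ))⌋₊) x0 ε := by
  obtain ⟨K0, y0, T0, R0, R, η', hη', hlaw⟩ := mom_law_SB k K (by omega) x0 ε hε
  obtain ⟨r0, h0⟩ := shift_SB K A R hK θ hθ K0 y0 T0 R0 (min η' 1) 1 (|x0| + 2) (by positivity)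
    (min_le_right _ _) one_pos (by positivity)
  refine ⟨r0, ?_⟩
  intro r hr
  filter_upwards [h0 r hr] with X hX
  intro P hPK hPX hPad Z Y hXY
  obtain ⟨y, hy⟩ : ∃ y, y = ⌊(X : ℝ) ^ (1 / (r : ℝ))⌋₊ := ⟨_, rfl⟩
  obtain ⟨a1, a2, a3, a4, a5, a6⟩ := hX P hPK hPX hPad Y hXY y hy
  rw [← hy]
  exact hlaw (QS P) Z Y y (qs_per P K hPK) (fun p hp => qs_adm P hPad p hp) a1 a2
    (fun T h1 h2 => ⟨(a6 T h1 h2).1, (a6 T h1 h2).2.1, fun j hj =>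
      SB_mono _ _ _ _ _ _ (min_le_left _ _) ((a6 T h1 h2).2.2 j hj)⟩)

open Classical in
/-- passing to an equivalent condition -/
lemma MMo_congr {t : ℕ} (k : Fin t → ℕ) (g g' : ℕ → Prop) (Z Y M : ℕ) (V x0 ε : ℝ)
    (h : MMo k g Z Y V x0 ε) (hg : ∀ m ≤ M, (g m ↔ g' m)) (hM : ∀ b : ℕ, b * V ≤ x0 → Z + Y + b ≤ M) :
    ∀ a b : Fin t → ℕ, (∀ i, a i ≤ b i) → (∀ i, b i * V ≤ x0) →
      (∀ i j, i ≠ j → b i ≤ a j ∨ b j ≤ a i) →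
      |∑ n ∈ Ioc Z (Z + Y), ∏ i, ((((Ioc (n + a i) (n + b i)).filter
          (fun m => g' m)).card.choose (k i) : ℕ) : ℝ) -
        Y * ∏ i, ((((b i : ℝ) - a i) * V) ^ (k i) / (k i).factorial)| ≤ ε * Y := by
  intro a b hab hb hdis
  refine le_trans (le_of_eq ?_) (h a b hab hb hdis)
  congr 2
  apply Finset.sum_congr rfl
  intro n hn
  rw [mem_Ioc] at hn
  apply Finset.prod_congr rfl
  intro i _
  congr 2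
  rw [Cc_eq]
  congr 1
  apply Finset.filter_congr
  intro m hm
  rw [mem_Ioc] at hm
  have := hM (b i) (hb i)
  exact (hg m (by omega)).symm

open Classical in
/-- mixed moments, packaged -/
theorem pack_mom [Nonempty ι] (f : ι → ℤ[X]) (AP : ℕ → ℕ → ℕ → Prop) (V : ℕ → ℕ → ℝ)
    (hf : Sys f) (hT : NoTr f)
    (hAP : ∀ r : ℕ, 1 ≤ r → ∀ᶠ X : ℕ in atTop, ∀ m : ℕ, m ≤ 3 * X →
      (Sf (Q f) ⌊(X : ℝ) ^ (1 / (r : ℝ))⌋₊ m ↔ AP r X m))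
    (hV : ∀ r X : ℕ, Vq (Q f) ⌊(X : ℝ) ^ (1 / (r : ℝ))⌋₊ = V r X)
    (θ : ℝ) (hθ : 0 < θ) {s : ℕ} (k : Fin s → ℕ) (x ε : ℝ) (hε : 0 < ε) :
    ∃ r0 : ℕ, ∀ r : ℕ, r0 ≤ r → ∀ᶠ X : ℕ in atTop, ∀ Y : ℕ, (X : ℝ) ^ θ ≤ Y → Y ≤ X →
      ∀ a b : Fin s → ℕ, (∀ i, a i ≤ b i) → (∀ i, b i * V r X ≤ x) →
      (∀ i j, i ≠ j → b i ≤ a j ∨ b j ≤ a i) →
        |∑ n ∈ Finset.Ioc X (X + Y), ∏ i, ((((Finset.Ioc (n + a i) (n + b i)).filter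
            (fun m => AP r X m)).card.choose (k i) : ℕ) : ℝ) -
          Y * ∏ i, ((((b i : ℝ) - a i) * V r X) ^ (k i) / (k i).factorial)| ≤ ε * Y := by
  obtain ⟨r0, h0⟩ := mom_poly f hf hT θ hθ k x ε hε
  refine ⟨max r0 2, ?_⟩
  intro r hr
  have hr2 : 2 ≤ r := (le_max_right _ _).trans hr
  filter_upwards [h0 r ((le_max_left _ _).trans hr), hAP r (by omega), short_sys f hf x r hr2]
    with X hX hap hs
  intro Y hXY hYX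
  have h1 := hX Y hXY
  rw [hV] at h1
  exact MMo_congr k _ _ X Y (3 * X) (V r X) x ε h1 hap (fun b hb => by
    have := hs b (by rw [hV]; exact hb)
    omega)

open Classical in
/-- mixed moments, packaged -/
theorem sh_mom (K : ℕ) (hK : 2 ≤ K) (θ : ℝ) (hθ : 0 < θ) {s : ℕ} (k : Fin s → ℕ) (x ε : ℝ)
    (hε : 0 < ε) :
    ∃ r0 : ℕ, ∀ r : ℕ, r0 ≤ r → ∀ᶠ X : ℕ in atTop, ∀ P : Finset ℕ, P.card = K →
      (∀ a ∈ P, a ≤ X) → AdP P → ∀ (g : ℕ → Prop) (v : ℝ),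
      (∀ m, (∀ s ∈ P, APn r ((X : ℝ) ^ (1 / (r : ℝ))) (m + s)) ↔ g m) →
      Vq (QS P) ⌊(X : ℝ) ^ (1 / (r : ℝ))⌋₊ = v →
      ∀ Z Y : ℕ, (X : ℝ) ^ θ ≤ Y → Z + Y ≤ 2 * X →
      ∀ a b : Fin s → ℕ, (∀ i, a i ≤ b i) → (∀ i, b i * v ≤ x) →
      (∀ i j, i ≠ j → b i ≤ a j ∨ b j ≤ a i) →
        |∑ n ∈ Ioc Z (Z + Y), ∏ i, ((((Ioc (n + a i) (n + b i)).filter
            (fun m => g m)).card.choose (k i) : ℕ) : ℝ) -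
          Y * ∏ i, ((((b i : ℝ) - a i) * v) ^ (k i) / (k i).factorial)| ≤ ε * Y := by
  obtain ⟨r0, h0⟩ := shift_mom K 1 hK θ hθ k x ε hε
  refine ⟨max r0 2, ?_⟩
  intro r hr
  have hr2 : 2 ≤ r := (le_max_right _ _).trans hr
  filter_upwards [h0 r ((le_max_left _ _).trans hr), sf_shift r (by omega), shift_short K x r hr2]
    with X hX hap hs
  intro P hPK hPX hPad g v hg hv Z Y hXY hZY
  subst hv
  exact MMo_congr k _ _ Z Y (3 * X) _ x ε (hX P hPK (by simpa using hPX) hPad Z Y hXY)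
    (fun m hm => (hap P hPX m hm).trans (hg m)) (fun b hb => by
    have := hs P hPK hPad b hb
    omega)

open Classical in
/-- mixed moments, packaged: the condition agrees with `g` up to `M`. -/
theorem lp_mom (K A : ℕ) (hK : 1 ≤ K) (θ : ℝ) (hθ : 0 < θ) {s : ℕ} (k : Fin s → ℕ) (x ε : ℝ)
    (hε : 0 < ε) :
    ∃ r0 : ℕ, ∀ r : ℕ, r0 ≤ r → ∀ᶠ X : ℕ in atTop, ∀ u v : Fin K → ℤ,
      LF K u v (X ^ A) (Real.log X ^ (K + 1)) → ∀ (g : ℕ → Prop) (V : ℝ) (M : ℕ),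
      (∀ m ≤ M, Sf (QL u v) ⌊(X : ℝ) ^ (1 / (r : ℝ))⌋₊ m ↔ g m) →
      Vq (QL u v) ⌊(X : ℝ) ^ (1 / (r : ℝ))⌋₊ = V →
      ∀ Z Y : ℕ, (X : ℝ) ^ θ ≤ Y → (∀ b : ℕ, b * V ≤ x → Z + Y + b ≤ M) →
      ∀ a b : Fin s → ℕ, (∀ i, a i ≤ b i) → (∀ i, b i * V ≤ x) →
      (∀ i j, i ≠ j → b i ≤ a j ∨ b j ≤ a i) →
        |∑ n ∈ Ioc Z (Z + Y), ∏ i, ((((Ioc (n + a i) (n + b i)).filter
            (fun m => g m)).card.choose (k i) : ℕ) : ℝ) -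
          Y * ∏ i, ((((b i : ℝ) - a i) * V) ^ (k i) / (k i).factorial)| ≤ ε * Y := by
  obtain ⟨r0, h0⟩ := lin_mom K A hK θ hθ k x ε hε
  refine ⟨r0, ?_⟩
  intro r hr
  filter_upwards [h0 r hr] with X hX
  intro u v hLF g V M hg hv Z Y hXY hM
  subst hv
  exact MMo_congr k _ _ Z Y M _ x ε (hX u v hLF Z Y hXY) hg hM

end Pool.Agent.TH464.PO
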