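import Pool.Agent.TH464.PO.Ext
import Pool.Agent.TH464.PW.Quad

set_option autoImplicit false

/-!
# Quadratic polynomials
-/

namespace Pool.Agent.TH464.PO

open Polynomial Finset Filter
open Pool.Agent.W123.RP Pool.Agent.H373R2.T7 Pool.Agent.W123.RU Pool.Agent.W123.RU.Poly
open Pool.Agent.TH464.PW

/-- the system -/
noncomputable def qs (a b c : ℤ) : Fin 1 → ℤ[X] := fun _ => quad a b c

lemma qs_sys (a b c : ℤ) (ha : 0 < a)
    (hg : ∀ p : ℕ, p.Prime → ¬ ((p : ℤ) ∣ a ∧ (p : ℤ) ∣ b ∧ (p : ℤ) ∣ c))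
    (hpar : ¬ (Even (a + b) ∧ Even c)) (hD : ¬ IsSquare (b ^ 2 - 4 * a * c)) : Sys (qs a b c) :=
  ⟨fun _ => quad_irr a b c ha.ne' hg hD,
    fun _ => by unfold qs; rw [quad_deg a b c ha.ne']; norm_num,
    fun _ => by unfold qs; rw [quad_lead a b c ha.ne']; exact ha,
    fun _ _ _ => Subsingleton.elim _ _,
    fun p hp => by
      obtain ⟨m, hm⟩ := quad_adm a b c hg hpar p hp
      exact ⟨m, fun _ => hm⟩⟩

lemma qs_noTr (a b c : ℤ) (ha : 0 < a) : NoTr (qs a b c) := noTr_single (quad a b c) (by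
  rw [quad_deg a b c ha.ne']; norm_num)

lemma qs_Q (a b c : ℤ) (p m : ℕ) : Q (qs a b c) p m ↔ (p : ℤ) ∣ a * (m : ℤ) ^ 2 + b * m + c := by
  unfold Q qs
  rw [exists_const, quad_eval]

open Classical in
lemma qs_V (a b c : ℤ) (y : ℕ) : Vq (Q (qs a b c)) y = ∏ p ∈ (Finset.range (y + 1)).filter Nat.Prime,
    (1 - (((Finset.range p).filter
      (fun m : ℕ => (p : ℤ) ∣ a * (m : ℤ) ^ 2 + b * m + c)).card : ℝ) / p) := by
  unfold Vq
  apply Finset.prod_congr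
  · unfold pz
    ext p
    simp only [mem_filter, mem_Icc, mem_range]
    constructor
    · rintro ⟨h1, h2⟩
      exact ⟨by omega, h2⟩
    · rintro ⟨h1, h2⟩
      exact ⟨⟨h2.one_lt.le, by omega⟩, h2⟩
  · intro p _
    unfold nuB
    simp only [qs_Q]

/-- the condition -/
def APq (a b c : ℤ) (r X m : ℕ) : Prop :=
  (a * (m : ℤ) ^ 2 + b * m + c).natAbs.primeFactorsList.length ≤ 2 * r ∧
    ∀ p : ℕ, p.Prime → (p : ℤ) ∣ a * (m : ℤ) ^ 2 + b * m + c → (X : ℝ) ^ (1 / (r : ℝ)) < (p : ℝ)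

lemma sf_APq (a b c : ℤ) (r : ℕ) (hr : 1 ≤ r) : ∀ᶠ X : ℕ in atTop, ∀ m : ℕ, m ≤ 3 * X →
    (Sf (Q (qs a b c)) ⌊(X : ℝ) ^ (1 / (r : ℝ))⌋₊ m ↔ APq a b c r X m) := by
  have hr0 : (r : ℝ) ≠ 0 := by exact_mod_cast (by omega : r ≠ 0)
  have hrpos : (0 : ℝ) < r := by exact_mod_cast (by omega : 0 < r)
  have hpow1 : Tendsto (fun X : ℕ => (X : ℝ) ^ (1 / (r : ℝ))) atTop atTop :=
    (tendsto_rpow_atTop (by positivity)).comp tendsto_natCast_atTop_atTop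
  filter_upwards [hpow1.eventually_ge_atTop (9 * |(a : ℝ)| + 3 * |(b : ℝ)| + |(c : ℝ)| + 2),
    eventually_ge_atTop 2] with X hX hX2
  intro m hm
  have hX0 : (0 : ℝ) < X := by exact_mod_cast (by omega : 0 < X)
  have hX1 : (1 : ℝ) ≤ X := by exact_mod_cast (by omega : 1 ≤ X)
  have ha0 := abs_nonneg (a : ℝ)
  have hb0 := abs_nonneg (b : ℝ)
  have hc0 := abs_nonneg (c : ℝ)
  have h2 : (2 : ℝ) ≤ (X : ℝ) ^ (1 / (r : ℝ)) := by linarith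
  have h2mem : 2 ∈ pz ⌊(X : ℝ) ^ (1 / (r : ℝ))⌋₊ := by
    rw [mem_pz]
    exact ⟨Nat.le_floor (by exact_mod_cast h2), Nat.prime_two⟩
  constructor
  · intro h
    have h3 : ∀ p : ℕ, p.Prime → (p : ℤ) ∣ a * (m : ℤ) ^ 2 + b * m + c →
        (X : ℝ) ^ (1 / (r : ℝ)) < (p : ℝ) := by
      intro p hp hd
      apply not_mem_pz hp
      intro hmem
      exact h p hmem ((qs_Q a b c p m).2 hd)
    have hne : a * (m : ℤ) ^ 2 + b * m + c ≠ 0 := by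
      intro h0
      apply h 2 h2mem
      rw [qs_Q, h0]
      exact dvd_zero _
    refine ⟨?_, h3⟩
    apply length_le _ (2 * r) (Int.natAbs_ne_zero.2 hne) _ (fun p hp hd => h3 p hp (Int.natCast_dvd.2 hd))
      _ (by linarith)
    have e1 : ((X : ℝ) ^ (1 / (r : ℝ))) ^ (2 * r + 1) = X ^ 2 * (X : ℝ) ^ (1 / (r : ℝ)) := by
      rw [pow_succ]
      congr 1
      rw [← Real.rpow_natCast, ← Real.rpow_mul hX0.le]
      have : (1 / (r : ℝ)) * ((2 * r : ℕ) : ℝ) = ((2 : ℕ) : ℝ) := by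
        push_cast
        field_simp
      rw [this, Real.rpow_natCast]
    rw [e1]
    have e2 : (((a * (m : ℤ) ^ 2 + b * m + c).natAbs : ℕ) : ℝ) = |(a : ℝ) * m ^ 2 + b * m + c| := by
      rw [Nat.cast_natAbs, Int.cast_abs]
      push_cast
      rfl
    rw [e2]
    have hm' : (m : ℝ) ≤ 3 * X := by exact_mod_cast hm
    have hm0 : (0 : ℝ) ≤ m := Nat.cast_nonneg m
    have hm2 : (m : ℝ) ^ 2 ≤ 9 * (X : ℝ) ^ 2 := by
      calc (m : ℝ) ^ 2 ≤ (3 * (X : ℝ)) ^ 2 := pow_le_pow_left₀ hm0 hm' 2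
        _ = 9 * (X : ℝ) ^ 2 := by ring
    have hXX : (X : ℝ) ≤ (X : ℝ) ^ 2 := by nlinarith
    have hX1' : (1 : ℝ) ≤ (X : ℝ) ^ 2 := one_le_pow₀ hX1
    calc |(a : ℝ) * m ^ 2 + b * m + c| ≤ |(a : ℝ) * m ^ 2| + |(b : ℝ) * m| + |(c : ℝ)| :=
          abs_add_three _ _ _
      _ = |(a : ℝ)| * m ^ 2 + |(b : ℝ)| * m + |(c : ℝ)| := by
          rw [abs_mul, abs_mul, abs_of_nonneg hm0, abs_of_nonneg (by positivity : (0 : ℝ) ≤ (m : ℝ) ^ 2)]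
      _ ≤ |(a : ℝ)| * (9 * (X : ℝ) ^ 2) + |(b : ℝ)| * (3 * (X : ℝ) ^ 2) + |(c : ℝ)| * (X : ℝ) ^ 2 := by
          have t1 : |(a : ℝ)| * m ^ 2 ≤ |(a : ℝ)| * (9 * (X : ℝ) ^ 2) := by gcongr
          have t2 : |(b : ℝ)| * m ≤ |(b : ℝ)| * (3 * (X : ℝ) ^ 2) := by
            apply mul_le_mul_of_nonneg_left _ hb0
            linarith
          have t3 : |(c : ℝ)| ≤ |(c : ℝ)| * (X : ℝ) ^ 2 := le_mul_of_one_le_right hc0 hX1'
          linarith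
      _ = (X : ℝ) ^ 2 * (9 * |(a : ℝ)| + 3 * |(b : ℝ)| + |(c : ℝ)|) := by ring
      _ ≤ (X : ℝ) ^ 2 * (X : ℝ) ^ (1 / (r : ℝ)) := by
          apply mul_le_mul_of_nonneg_left _ (by positivity)
          linarith
  · intro h p hp hq
    have h1 := h.2 p (mem_pz.1 hp).2 ((qs_Q a b c p m).1 hq)
    have h2 := mem_pz' (by positivity) hp
    linarith

end Pool.Agent.TH464.PO
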