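import Pool.Agent.TH464.PO.ApLaw

set_option autoImplicit false

/-!
# Arithmetic progressions, uniformly in the modulus: the instance
-/

namespace Pool.Agent.TH464.PO

open Finset Filter
open Pool.Agent.W123.RP Pool.Agent.H373R2.T7 Pool.Agent.W123.RU
open Pool.Agent.TH464.PW

open Classical in
/-- the density of a progression -/
lemma V_ap (q a : ℕ) (hco : Nat.Coprime a q) (y : ℕ) :
    Vq (QL (fun _ : Fin 1 => (q : ℤ)) (fun _ => (a : ℤ))) y =
      ∏ p ∈ (Finset.range (y + 1)).filter (fun p => p.Prime ∧ ¬ p ∣ q), (1 - 1 / (p : ℝ)) := by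
  rw [V_nat (fun _ : Fin 1 => q) (fun _ => a) (fun p m => p ∣ q * m + a)
    (fun p m => ⟨fun h => h.choose_spec, fun h => ⟨0, h⟩⟩) y, ← Finset.filter_filter,
    Finset.prod_filter (fun p => ¬ p ∣ q)]
  apply Finset.prod_congr rfl
  intro p hp
  rw [mem_filter] at hp
  by_cases hq : p ∣ q
  · rw [if_neg (not_not.2 hq)]
    have h1 : (Finset.range p).filter (fun m => p ∣ q * m + a) = ∅ := by
      apply Finset.filter_eq_empty_iff.2
      intro m _ hd
      have h2 : p ∣ a := (Nat.dvd_add_right (hq.mul_right m)).1 hd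
      have h3 : p ∣ Nat.gcd a q := Nat.dvd_gcd h2 hq
      rw [hco] at h3
      exact hp.2.one_lt.ne' (Nat.dvd_one.1 h3)
    rw [h1, card_empty]
    norm_num
  · rw [if_pos hq]
    have h1 : ((Finset.range p).filter (fun m => p ∣ q * m + a)).card = 1 := by
      apply le_antisymm
      · rw [Finset.card_le_one]
        intro m hm n hn
        rw [mem_filter, mem_range] at hm hn
        have h2 : q * m + a ≡ q * n + a [MOD p] :=
          ((Nat.modEq_zero_iff_dvd.2 hm.2).trans (Nat.modEq_zero_iff_dvd.2 hn.2).symm)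
        have h3 : q * m ≡ q * n [MOD p] := Nat.ModEq.add_right_cancel' a h2
        have h4 : m ≡ n [MOD p] := Nat.ModEq.cancel_left_of_coprime
          ((Nat.Prime.coprime_iff_not_dvd hp.2).2 hq) h3
        have h5 : m % p = n % p := h4
        rwa [Nat.mod_eq_of_lt hm.1, Nat.mod_eq_of_lt hn.1] at h5
      · rw [Nat.succ_le_iff, card_pos]
        obtain ⟨m, hm, hd⟩ := exists_root p hp.2 (q : ℤ) (a : ℤ) (by
          rw [Int.natCast_dvd_natCast]
          exact hq)
        refine ⟨m, mem_filter.2 ⟨mem_range.2 hm, ?_⟩⟩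
        exact_mod_cast hd
    rw [h1, Nat.cast_one]

/-- the family of all progressions -/
lemma ap_fam (D r : ℕ) (hr : 1 ≤ r) : ∀ᶠ X : ℕ in atTop, ∀ q a : ℕ, 1 ≤ q → q ≤ X ^ D →
    a ≤ X ^ (D + 1) → Nat.Coprime a q →
    AF (fun _ => (q : ℤ)) (fun _ => (a : ℤ)) (X ^ D) ∧
    ∀ m ≤ 3 * X, (Sf (QL (fun _ : Fin 1 => (q : ℤ)) (fun _ => (a : ℤ)))
      ⌊(X : ℝ) ^ (1 / (r : ℝ))⌋₊ m ↔
        APn ((D + 1) * r) ((X : ℝ) ^ (1 / (r : ℝ))) (q * m + a)) := by
  filter_upwards [ev_z r hr 2, ev_z r hr 4, eventually_ge_atTop 1] with X h2 h4 hX1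
  intro q a hq hqX haX hco
  refine ⟨⟨fun _ => by exact_mod_cast (by omega : q ≠ 0), fun _ => ?_, fun p hp => ?_⟩,
    fun m hm => ?_⟩
  · rw [abs_of_nonneg (by positivity)]
    exact_mod_cast hqX
  · by_cases ha : p ∣ a
    · refine ⟨1, fun _ h => ?_⟩
      rw [Nat.cast_one, mul_one] at h
      have h1 : p ∣ q + a := by exact_mod_cast h
      have h2 : p ∣ q := (Nat.dvd_add_left ha).1 h1
      have h3 : p ∣ Nat.gcd a q := Nat.dvd_gcd ha h2
      rw [hco] at h3
      exact hp.one_lt.ne' (Nat.dvd_one.1 h3)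
    · refine ⟨0, fun _ h => ?_⟩
      rw [Nat.cast_zero, mul_zero, zero_add] at h
      exact ha (by exact_mod_cast h)
  · have h5 := sf_nat (fun _ : Fin 1 => q) (fun _ => a) _ (fun _ => (D + 1) * r) h2 m (fun i => by
      apply size_z (D + 1) r hr X hX1 4 h4 (q * m + a)
      have h6 : q * m + a ≤ 4 * X ^ (D + 1) := by
        calc q * m + a ≤ X ^ D * (3 * X) + X ^ (D + 1) :=
              Nat.add_le_add (Nat.mul_le_mul hqX hm) haX
          _ = 4 * X ^ (D + 1) := by ring
      exact_mod_cast h6)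
    exact h5.trans ⟨fun h => h 0, fun h _ => h⟩

end Pool.Agent.TH464.PO
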