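import Pool.Agent.TH464.PO.Palm3

set_option autoImplicit false

/-!
# The joint law around the elements: systems of polynomials and linear forms
-/

namespace Pool.Agent.TH464.PO

open Polynomial Finset Filter
open Pool.Agent.W123.RP Pool.Agent.H373R2.T7 Pool.Agent.W123.RU Pool.Agent.W123.RU.Poly
open Pool.Agent.TH464.PW

open Classical in
lemma JL_of (t : ℕ) (g : ℕ → Prop) (Z Y : ℕ) (V x0 ε : ℝ)
    (h : ∀ a b : Fin t → ℕ, (∀ i, a i ≤ b i) → (∀ i, b i * V ≤ x0) →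
      (∀ i j, i ≠ j → b i ≤ a j ∨ b j ≤ a i) → ∀ A : Fin t → Finset ℕ,
        |(((Ioc Z (Z + Y)).filter (fun n => ∀ i, ((Ioc (n + a i) (n + b i)).filter
          (fun m => g m)).card ∈ A i)).card : ℝ) -
          Y * ∏ i, pois (((b i : ℝ) - a i) * V) (A i)| ≤ ε * Y) : JL t g Z Y V x0 ε := by
  intro a b hab hb hdis A
  have h1 := h a b hab hb hdis A
  refine le_trans (le_of_eq ?_) h1
  congr 2
  rw [Finset.card_filter]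
  push_cast
  apply Finset.sum_congr rfl
  intro n _
  have hiff : (∀ i, Cc g (n + a i) (n + b i) ∈ A i) ↔
      (∀ i, ((Ioc (n + a i) (n + b i)).filter (fun m => g m)).card ∈ A i) := Iff.rfl
  by_cases hh : ∀ i, Cc g (n + a i) (n + b i) ∈ A i
  · rw [if_pos hh, if_pos (hiff.1 hh)]
  · rw [if_neg hh, if_neg (fun h => hh (hiff.2 h))]

lemma Cc_card (P Q : ℕ → Prop) (inst : DecidablePred Q) (u v : ℕ) (h : ∀ m ∈ Ioc u v, (Q m ↔ P m)) :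
    ((Ioc u v).filter Q).card = Cc P u v := by
  classical
  rw [Cc_eq]
  congr 1
  ext m
  rw [mem_filter, mem_filter]
  constructor
  · rintro ⟨h1, h2⟩
    exact ⟨h1, (h m h1).1 h2⟩
  · rintro ⟨h1, h2⟩
    exact ⟨h1, (h m h1).2 h2⟩

variable {ι : Type} [Fintype ι]

/-- **The joint law around the elements** for systems of polynomials. -/
theorem palm_poly [Nonempty ι] (f : ι → ℤ[X]) (hf : Sys f) (hT : NoTr f) (θ : ℝ) (hθ : 0 < θ)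
    (s : ℕ) (x0 ε : ℝ) (hx0 : 0 ≤ x0) (hε : 0 < ε) :
    ∃ r0 : ℕ, ∀ r : ℕ, r0 ≤ r → ∀ᶠ X : ℕ in atTop, ∀ Y : ℕ, (X : ℝ) ^ θ ≤ Y →
      ∀ (c : ℕ) (a b : Fin s → ℕ), c * Vq (Q f) ⌊(X : ℝ) ^ (1 / (r : ℝ))⌋₊ ≤ x0 →
      (∀ i, a i ≤ b i) →
      (∀ i, b i * Vq (Q f) ⌊(X : ℝ) ^ (1 / (r : ℝ))⌋₊ ≤ x0) → (∀ i, b i < c ∨ c ≤ a i) →
      (∀ i j, i ≠ j → b i ≤ a j ∨ b j ≤ a i) → ∀ A : Fin s → Finset ℕ,
        |(Cc (fun m => Sf (Q f) ⌊(X : ℝ) ^ (1 / (r : ℝ))⌋₊ m ∧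
            Fw (Sf (Q f) ⌊(X : ℝ) ^ (1 / (r : ℝ))⌋₊) c a b A m) X (X + Y) : ℝ) -
          Y * Vq (Q f) ⌊(X : ℝ) ^ (1 / (r : ℝ))⌋₊ *
            ∏ i, pois (((b i : ℝ) - a i) * Vq (Q f) ⌊(X : ℝ) ^ (1 / (r : ℝ))⌋₊) (A i)| ≤
              ε * (Y * Vq (Q f) ⌊(X : ℝ) ^ (1 / (r : ℝ))⌋₊) := by
  classical
  obtain ⟨δ, ε', hδ, hε', hp⟩ := palm s x0 ε hx0 hε
  obtain ⟨r1, h1⟩ := joint_poly f hf hT θ hθ (s + 1) (x0 + 8) ε' hε'
  obtain ⟨r2, h2⟩ := total f hf θ hθ (min ε' (x0 + 8)⁻¹) (by positivity)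
  refine ⟨max (max r1 r2) 2, ?_⟩
  intro r hr
  have hr1 : r1 ≤ r := by omega
  have hr2 : r2 ≤ r := by omega
  have hr3 : 2 ≤ r := by omega
  filter_upwards [h1 r hr1, h2 r hr2, V_small f hf r hr3 δ hδ] with X hX1 hX2 hX3
  intro Y hXY c a b hcV hab hbV hc hdis A
  obtain ⟨ha, hb⟩ := hX2 Y hXY
  have hV0 : 0 < Vq (Q f) ⌊(X : ℝ) ^ (1 / (r : ℝ))⌋₊ :=
    Vq_pos (Q f) (fun p hp => Poly.adm f hf p hp) _
  have hYV : 0 ≤ Y * Vq (Q f) ⌊(X : ℝ) ^ (1 / (r : ℝ))⌋₊ := by positivity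
  have hm : min ε' (x0 + 8)⁻¹ ≤ ε' := min_le_left _ _
  have hm2 : min ε' (x0 + 8)⁻¹ ≤ (x0 + 8)⁻¹ := min_le_right _ _
  have hm0 : 0 < min ε' (x0 + 8)⁻¹ := by positivity
  refine hp (Sf (Q f) ⌊(X : ℝ) ^ (1 / (r : ℝ))⌋₊) X Y _ hV0 hX3
    (JL_of _ _ _ _ _ _ _ (fun a b hab hb hdis A => hX1 Y hXY a b hab hb hdis A))
    (ha.trans ?_) ((hb (x0 + 8) ?_).trans ?_) c a b hcV hab hbV hc hdis A
  · apply mul_le_mul_of_nonneg_right _ hYV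
    linarith
  · rw [le_inv_comm₀ (by positivity) hm0]
    exact hm2
  · exact mul_le_mul_of_nonneg_right hm hYV

section
variable (f : ι → ℤ[X]) (AP : ℕ → ℕ → ℕ → Prop) (V : ℕ → ℕ → ℝ)

open Classical in
/-- the joint law around the elements, packaged -/
theorem pack_palm [Nonempty ι] (hf : Sys f) (hT : NoTr f)
    (hAP : ∀ r : ℕ, 1 ≤ r → ∀ᶠ X : ℕ in atTop, ∀ m : ℕ, m ≤ 3 * X →
      (Sf (Q f) ⌊(X : ℝ) ^ (1 / (r : ℝ))⌋₊ m ↔ AP r X m))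
    (hV : ∀ r X : ℕ, Vq (Q f) ⌊(X : ℝ) ^ (1 / (r : ℝ))⌋₊ = V r X)
    (θ : ℝ) (hθ : 0 < θ) (s : ℕ) (x ε : ℝ) (hε : 0 < ε) :
    ∃ r0 : ℕ, ∀ r : ℕ, r0 ≤ r → ∀ᶠ X : ℕ in atTop, ∀ Y : ℕ, (X : ℝ) ^ θ ≤ Y → Y ≤ X →
      ∀ (c : ℕ) (a b : Fin s → ℕ), c * V r X ≤ x → (∀ i, a i ≤ b i) → (∀ i, b i * V r X ≤ x) →
      (∀ i, b i < c ∨ c ≤ a i) → (∀ i j, i ≠ j → b i ≤ a j ∨ b j ≤ a i) →
      ∀ A : Fin s → Finset ℕ,
        |(((Finset.Ioc X (X + Y)).filter (fun m => AP r X m ∧ ∀ i,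
          ((Finset.Ioc (m + a i - c) (m + b i - c)).filter
            (fun k => AP r X k)).card ∈ A i)).card : ℝ) -
          Y * V r X * ∏ i, ∑ j ∈ A i, Real.exp (-(((b i : ℝ) - a i) * V r X)) *
            (((b i : ℝ) - a i) * V r X) ^ j / j.factorial| ≤ ε * (Y * V r X) := by
  obtain ⟨r0, h0⟩ := palm_poly f hf hT θ hθ s |x| ε (abs_nonneg x) hε
  refine ⟨max r0 2, ?_⟩
  intro r hr
  have hr2 : 2 ≤ r := (le_max_right _ _).trans hr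
  filter_upwards [h0 r ((le_max_left _ _).trans hr), hAP r (by omega), short_sys f hf x r hr2]
    with X hX hap hs
  intro Y hXY hYX c a b hcV hab hb hc hdis A
  have hbX : ∀ i, b i ≤ X := fun i => hs (b i) (by rw [hV]; exact hb i)
  have hmain := hX Y hXY c a b (by
    rw [hV]
    exact hcV.trans (le_abs_self x)) hab (by
    intro i
    rw [hV]
    exact (hb i).trans (le_abs_self x)) hc hdis A
  rw [hV] at hmain
  have hcount : ((Finset.Ioc X (X + Y)).filter (fun m => AP r X m ∧ ∀ i,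
      ((Finset.Ioc (m + a i - c) (m + b i - c)).filter (fun k => AP r X k)).card ∈ A i)).card =
      Cc (fun m => Sf (Q f) ⌊(X : ℝ) ^ (1 / (r : ℝ))⌋₊ m ∧
            Fw (Sf (Q f) ⌊(X : ℝ) ^ (1 / (r : ℝ))⌋₊) c a b A m) X (X + Y) := by
    apply Cc_card
    intro m h1
    have h1' := mem_Ioc.1 h1
    constructor
    · rintro ⟨h2, h3⟩
      refine ⟨(hap m (by omega)).2 h2, ?_⟩
      intro i
      have h4 := h3 i
      rw [Cc_eq]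
      have e : (Finset.Ioc (m + a i - c) (m + b i - c)).filter
          (Sf (Q f) ⌊(X : ℝ) ^ (1 / (r : ℝ))⌋₊) =
          (Finset.Ioc (m + a i - c) (m + b i - c)).filter (fun k => AP r X k) := by
        apply Finset.filter_congr
        intro k hk
        rw [mem_Ioc] at hk
        have := hbX i
        exact hap k (by omega)
      rw [e]
      exact h4
    · rintro ⟨h2, h3⟩
      refine ⟨(hap m (by omega)).1 h2, ?_⟩
      intro i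
      have h4 := h3 i
      rw [Cc_eq] at h4
      have e : (Finset.Ioc (m + a i - c) (m + b i - c)).filter
          (Sf (Q f) ⌊(X : ℝ) ^ (1 / (r : ℝ))⌋₊) =
          (Finset.Ioc (m + a i - c) (m + b i - c)).filter (fun k => AP r X k) := by
        apply Finset.filter_congr
        intro k hk
        rw [mem_Ioc] at hk
        have := hbX i
        exact hap k (by omega)
      rw [e] at h4
      exact h4
  rw [hcount]
  exact hmain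

end

/-- the count, for linear forms -/
lemma lin_total (K A : ℕ) (hK : 1 ≤ K) (θ : ℝ) (hθ : 0 < θ) (ε : ℝ) (hε : 0 < ε) :
    ∃ r0 : ℕ, ∀ r : ℕ, r0 ≤ r → ∀ᶠ X : ℕ in atTop, ∀ u v : Fin K → ℤ,
      LF K u v (X ^ A) (Real.log X ^ (K + 1)) → ∀ Z Y : ℕ, (X : ℝ) ^ θ ≤ Y →
      (Cc (Sf (QL u v) ⌊(X : ℝ) ^ (1 / (r : ℝ))⌋₊) Z (Z + Y) : ℝ) ≤
        (1 + ε) * (Y * Vq (QL u v) ⌊(X : ℝ) ^ (1 / (r : ℝ))⌋₊) := by
  classical
  obtain ⟨r0, h0⟩ := lin K A hK θ hθ 1 0 ε hε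
  refine ⟨r0, ?_⟩
  intro r hr
  filter_upwards [h0 r hr] with X hX
  intro u v hLF Z Y hXY
  have h1 := (hX u v hLF Z Y hXY).2 1 0 (Or.inl le_rfl)
  have e1 : Pk (Sf (QL u v) ⌊(X : ℝ) ^ (1 / (r : ℝ))⌋₊) 1 0 Z Y =
      Cc (Sf (QL u v) ⌊(X : ℝ) ^ (1 / (r : ℝ))⌋₊) Z (Z + Y) := by
    unfold Pk
    rw [Cc_eq]
    congr 1
    apply Finset.filter_congr
    intro b _
    constructor
    · exact fun h => h.1
    · intro h
      refine ⟨h, ?_⟩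
      rw [Nat.sub_zero, Finset.Ico_self, Finset.filter_empty, card_empty]
      exact Nat.one_pos
  have e2 : Ck 1 (((0 : ℕ) : ℝ) * Vq (QL u v) ⌊(X : ℝ) ^ (1 / (r : ℝ))⌋₊) = 1 := by
    simp [Ck, pw]
  rw [e1, e2] at h1
  have := (abs_le.1 h1).2
  linarith

/-- **The joint law around the elements** for linear forms. -/
theorem lin_palm (K A : ℕ) (hK : 1 ≤ K) (θ : ℝ) (hθ : 0 < θ) (s : ℕ) (x0 ε : ℝ) (hx0 : 0 ≤ x0)
    (hε : 0 < ε) :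
    ∃ r0 : ℕ, ∀ r : ℕ, r0 ≤ r → ∀ᶠ X : ℕ in atTop, ∀ u v : Fin K → ℤ,
      LF K u v (X ^ A) (Real.log X ^ (K + 1)) → ∀ Z Y : ℕ, (X : ℝ) ^ θ ≤ Y →
      ∀ (c : ℕ) (a b : Fin s → ℕ), c * Vq (QL u v) ⌊(X : ℝ) ^ (1 / (r : ℝ))⌋₊ ≤ x0 →
      (∀ i, a i ≤ b i) →
      (∀ i, b i * Vq (QL u v) ⌊(X : ℝ) ^ (1 / (r : ℝ))⌋₊ ≤ x0) → (∀ i, b i < c ∨ c ≤ a i) →
      (∀ i j, i ≠ j → b i ≤ a j ∨ b j ≤ a i) → ∀ E : Fin s → Finset ℕ,
        |(Cc (fun m => Sf (QL u v) ⌊(X : ℝ) ^ (1 / (r : ℝ))⌋₊ m ∧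
            Fw (Sf (QL u v) ⌊(X : ℝ) ^ (1 / (r : ℝ))⌋₊) c a b E m) Z (Z + Y) : ℝ) -
          Y * Vq (QL u v) ⌊(X : ℝ) ^ (1 / (r : ℝ))⌋₊ *
            ∏ i, pois (((b i : ℝ) - a i) * Vq (QL u v) ⌊(X : ℝ) ^ (1 / (r : ℝ))⌋₊) (E i)| ≤
              ε * (Y * Vq (QL u v) ⌊(X : ℝ) ^ (1 / (r : ℝ))⌋₊) := by
  classical
  obtain ⟨δ, ε', hδ, hε', hp⟩ := palm s x0 ε hx0 hε
  obtain ⟨r1, h1⟩ := lin_joint K A hK θ hθ (s + 1) (x0 + 8) ε' hε'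
  obtain ⟨r2, h2⟩ := lin_total K A hK θ hθ ε' hε'
  obtain ⟨r3, h3⟩ := lin_sizes K A θ hθ 1 1 1 1 1 (min δ ε') (x0 + 8) one_pos (by positivity)
    (by positivity)
  refine ⟨max (max r1 r2) r3, ?_⟩
  intro r hr
  have hr1 : r1 ≤ r := by omega
  have hr2 : r2 ≤ r := by omega
  have hr3 : r3 ≤ r := by omega
  filter_upwards [h1 r hr1, h2 r hr2, h3 r hr3] with X hX1 hX2 hX3
  intro u v hLF Z Y hXY c a b hcV hab hbV hc hdis E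
  obtain ⟨q1, q2, q3, q4, q5, q6⟩ := hX3 u v hLF Y hXY _ rfl
  have hV0 : 0 < Vq (QL u v) ⌊(X : ℝ) ^ (1 / (r : ℝ))⌋₊ :=
    Vq_pos (QL u v) (fun p hp => lf_adm hLF p hp) _
  have hYV : 0 ≤ Y * Vq (QL u v) ⌊(X : ℝ) ^ (1 / (r : ℝ))⌋₊ := by positivity
  exact hp (Sf (QL u v) ⌊(X : ℝ) ^ (1 / (r : ℝ))⌋₊) Z Y _ hV0 (q3.trans (min_le_left _ _))
    (JL_of _ _ _ _ _ _ _ (fun a b hab hb hdis A => hX1 u v hLF Z Y hXY a b hab hb hdis A))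
    (hX2 u v hLF Z Y hXY)
    (q5.trans (mul_le_mul_of_nonneg_right (min_le_right _ _) hYV)) c a b hcV hab hbV hc hdis E

open Classical in
/-- the joint law around the elements, packaged -/
theorem lp_palm (K A : ℕ) (hK : 1 ≤ K) (θ : ℝ) (hθ : 0 < θ) (s : ℕ) (x ε : ℝ) (hε : 0 < ε) :
    ∃ r0 : ℕ, ∀ r : ℕ, r0 ≤ r → ∀ᶠ X : ℕ in atTop, ∀ u v : Fin K → ℤ,
      LF K u v (X ^ A) (Real.log X ^ (K + 1)) → ∀ (g : ℕ → Prop) (V : ℝ) (M : ℕ),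
      (∀ m ≤ M, Sf (QL u v) ⌊(X : ℝ) ^ (1 / (r : ℝ))⌋₊ m ↔ g m) →
      Vq (QL u v) ⌊(X : ℝ) ^ (1 / (r : ℝ))⌋₊ = V →
      ∀ Z Y : ℕ, (X : ℝ) ^ θ ≤ Y → Z + Y ≤ M →
      ∀ (c : ℕ) (a b : Fin s → ℕ), c * V ≤ x → (∀ i, a i ≤ b i) → (∀ i, b i * V ≤ x) →
      (∀ i, Z + Y + b i ≤ M) →
      (∀ i, b i < c ∨ c ≤ a i) → (∀ i j, i ≠ j → b i ≤ a j ∨ b j ≤ a i) → ∀ E : Fin s → Finset ℕ,
        |(((Ioc Z (Z + Y)).filter (fun m => g m ∧ ∀ i,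
          ((Ioc (m + a i - c) (m + b i - c)).filter (fun k => g k)).card ∈ E i)).card : ℝ) -
          Y * V * ∏ i, ∑ j ∈ E i, Real.exp (-(((b i : ℝ) - a i) * V)) *
            (((b i : ℝ) - a i) * V) ^ j / j.factorial| ≤ ε * (Y * V) := by
  obtain ⟨r0, h0⟩ := lin_palm K A hK θ hθ s |x| ε (abs_nonneg x) hε
  refine ⟨r0, ?_⟩
  intro r hr
  filter_upwards [h0 r hr] with X hX
  intro u v hLF g V M hg hv Z Y hXY hZM c a b hcV hab hb hM hc hdis E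
  subst hv
  have hmain := hX u v hLF Z Y hXY c a b (hcV.trans (le_abs_self x)) hab
    (fun i => (hb i).trans (le_abs_self x)) hc hdis E
  have hcount : ((Ioc Z (Z + Y)).filter (fun m => g m ∧ ∀ i,
      ((Ioc (m + a i - c) (m + b i - c)).filter (fun k => g k)).card ∈ E i)).card =
      Cc (fun m => Sf (QL u v) ⌊(X : ℝ) ^ (1 / (r : ℝ))⌋₊ m ∧
            Fw (Sf (QL u v) ⌊(X : ℝ) ^ (1 / (r : ℝ))⌋₊) c a b E m) Z (Z + Y) := by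
    apply Cc_card
    intro m h1
    have h1' := mem_Ioc.1 h1
    have key : ∀ i, m ∈ Ioc Z (Z + Y) → (Ioc (m + a i - c) (m + b i - c)).filter
          (Sf (QL u v) ⌊(X : ℝ) ^ (1 / (r : ℝ))⌋₊) =
          (Ioc (m + a i - c) (m + b i - c)).filter (fun k => g k) := by
      intro i h1
      rw [mem_Ioc] at h1
      apply Finset.filter_congr
      intro k hk
      rw [mem_Ioc] at hk
      have := hM i
      exact hg k (by omega)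
    constructor
    · rintro ⟨h2, h3⟩
      refine ⟨(hg m (by omega)).2 h2, ?_⟩
      intro i
      have h4 := h3 i
      rw [Cc_eq, key i h1]
      exact h4
    · rintro ⟨h2, h3⟩
      refine ⟨(hg m (by omega)).1 h2, ?_⟩
      intro i
      have h4 := h3 i
      rw [Cc_eq, key i h1] at h4
      exact h4
  rw [hcount]
  exact hmain

end Pool.Agent.TH464.PO
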