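import Pool.Agent.TH464.PO.Pack

set_option autoImplicit false

/-!
# Single polynomials and pairs of polynomials
-/

namespace Pool.Agent.TH464.PO

open Polynomial Finset Filter
open Pool.Agent.W123.RP Pool.Agent.H373R2.T7 Pool.Agent.W123.RU Pool.Agent.W123.RU.Poly
open Pool.Agent.TH464.PW

lemma V_gen {ι : Type} [Fintype ι] (f : ι → ℤ[X]) (R : ℕ → ℕ → Prop)
    {inst : ∀ p, DecidablePred (R p)} (h : ∀ p m : ℕ, Q f p m ↔ R p m) (y : ℕ) :
    Vq (Q f) y = ∏ p ∈ (Finset.range (y + 1)).filter Nat.Prime,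
      (1 - (((Finset.range p).filter (R p)).card : ℝ) / p) := by
  classical
  unfold Vq
  apply Finset.prod_congr
  · unfold pz
    ext p
    simp only [mem_filter, mem_Icc, mem_range]
    constructor
    · rintro ⟨h1, h2⟩
      exact ⟨by omega, h2⟩
    · rintro ⟨h1, h2⟩
      exact ⟨⟨h2.one_lt.le, by omega⟩, h2⟩
  · intro p _
    have : nuB (Q f) p = ((Finset.range p).filter (R p)).card := by
      unfold nuB
      congr 1
      ext a
      rw [mem_filter, mem_filter, h]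
    rw [this]

lemma nsq8 : ¬ IsSquare ((0 : ℤ) ^ 2 - 4 * 1 * (-2)) := by
  rintro ⟨x, hx⟩
  have h1 : x ≤ 3 := by nlinarith
  have h2 : -3 ≤ x := by nlinarith
  interval_cases x <;> omega

lemma nsq5 : ¬ IsSquare ((3 : ℤ) ^ 2 - 4 * 1 * 1) := by
  rintro ⟨x, hx⟩
  have h1 : x ≤ 3 := by nlinarith
  have h2 : -3 ≤ x := by nlinarith
  interval_cases x <;> omega

/-- almost prime -/
def APn (B : ℕ) (z : ℝ) (N : ℕ) : Prop :=
  N.primeFactorsList.length ≤ B ∧ ∀ p : ℕ, p.Prime → p ∣ N → z < (p : ℝ)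

lemma apn_iff (B : ℕ) (z : ℝ) (e : ℤ) :
    (e.natAbs.primeFactorsList.length ≤ B ∧ ∀ p : ℕ, p.Prime → (p : ℤ) ∣ e → z < (p : ℝ)) ↔
      APn B z e.natAbs := by
  unfold APn
  simp only [Int.natCast_dvd]

lemma sf_one (f : ℤ[X]) (a : ℕ) (hf : f.natDegree ≤ a) (r : ℕ) (hr : 1 ≤ r) :
    ∀ᶠ X : ℕ in atTop, ∀ m : ℕ, m ≤ 3 * X →
      (Sf (Q (fun _ : Fin 1 => f)) ⌊(X : ℝ) ^ (1 / (r : ℝ))⌋₊ m ↔
        APn (a * r) ((X : ℝ) ^ (1 / (r : ℝ))) (f.eval (m : ℤ)).natAbs) := by
  filter_upwards [sf_sys (fun _ : Fin 1 => f) (fun _ => a) (fun _ => hf) r hr] with X hX m hm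
  rw [hX m hm]
  simp only [apn_iff, forall_const]

lemma sf_two (f g : ℤ[X]) (a b : ℕ) (hf : f.natDegree ≤ a) (hg : g.natDegree ≤ b) (r : ℕ)
    (hr : 1 ≤ r) :
    ∀ᶠ X : ℕ in atTop, ∀ m : ℕ, m ≤ 3 * X →
      (Sf (Q ![f, g]) ⌊(X : ℝ) ^ (1 / (r : ℝ))⌋₊ m ↔
        APn (a * r) ((X : ℝ) ^ (1 / (r : ℝ))) (f.eval (m : ℤ)).natAbs ∧
        APn (b * r) ((X : ℝ) ^ (1 / (r : ℝ))) (g.eval (m : ℤ)).natAbs) := by
  filter_upwards [sf_sys ![f, g] ![a, b] (by
    rw [Fin.forall_fin_two]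
    exact ⟨hf, hg⟩) r hr] with X hX m hm
  rw [hX m hm, Fin.forall_fin_two]
  simp only [apn_iff]
  rfl

lemma Q_one (f : ℤ[X]) (p m : ℕ) : Q (fun _ : Fin 1 => f) p m ↔ (p : ℤ) ∣ f.eval (m : ℤ) := by
  unfold Q
  rw [exists_const]

lemma Q_two (f g : ℤ[X]) (p m : ℕ) :
    Q ![f, g] p m ↔ (p : ℤ) ∣ f.eval (m : ℤ) ∨ (p : ℤ) ∣ g.eval (m : ℤ) := by
  unfold Q
  rw [Fin.exists_fin_two]
  rfl

lemma sys_two (f g : ℤ[X]) (hf : Irreducible f) (hg : Irreducible g) (hfd : 0 < f.natDegree)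
    (hgd : 0 < g.natDegree) (hfl : 0 < f.leadingCoeff) (hgl : 0 < g.leadingCoeff) (hfg : f ≠ g)
    (hadm : ∀ p : ℕ, p.Prime → ∃ m : ℕ, ¬ (p : ℤ) ∣ f.eval (m : ℤ) ∧ ¬ (p : ℤ) ∣ g.eval (m : ℤ)) :
    Sys ![f, g] :=
  ⟨by rw [Fin.forall_fin_two]; exact ⟨hf, hg⟩, by rw [Fin.forall_fin_two]; exact ⟨hfd, hgd⟩,
    by rw [Fin.forall_fin_two]; exact ⟨hfl, hgl⟩, by
      intro i j hij
      fin_cases i <;> fin_cases j
      · rfl
      · exact absurd hij hfg
      · exact absurd hij.symm hfg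
      · rfl, by
      intro p hp
      obtain ⟨m, h1, h2⟩ := hadm p hp
      exact ⟨m, by rw [Fin.forall_fin_two]; exact ⟨h1, h2⟩⟩⟩

lemma noTr_two (f g : ℤ[X]) (hfd : 0 < f.natDegree) (hgd : 0 < g.natDegree)
    (h1 : ∀ t : ℕ, 1 ≤ t → f ≠ g.comp (X + C (t : ℤ)))
    (h2 : ∀ t : ℕ, 1 ≤ t → g ≠ f.comp (X + C (t : ℤ))) : NoTr ![f, g] := by
  intro i j t ht
  fin_cases i <;> fin_cases j
  · exact noTr_single f hfd 0 0 t ht
  · exact h1 t ht
  · exact h2 t ht
  · exact noTr_single g hgd 0 0 t ht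

lemma ne_comp (f g : ℤ[X]) (t : ℕ) (s : ℤ) (h : f.eval s ≠ g.eval (s + t)) :
    f ≠ g.comp (X + C (t : ℤ)) := by
  intro h0
  apply h
  have := congrArg (Polynomial.eval s) h0
  rw [eval_comp] at this
  simpa using this

/-! ### Linear polynomials -/

/-- `a X + b` -/
noncomputable def ln (a b : ℤ) : ℤ[X] := C a * X + C b

lemma ln_eval (a b m : ℤ) : (ln a b).eval m = a * m + b := by
  unfold ln
  simp

lemma ln_irr (a b : ℤ) (ha : a ≠ 0) (h : IsCoprime a b) : Irreducible (ln a b) :=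
  irreducible_C_mul_X_add_C ha h.isRelPrime

lemma ln_deg (a b : ℤ) (ha : a ≠ 0) : (ln a b).natDegree = 1 := natDegree_linear ha

lemma ln_lead (a b : ℤ) (ha : a ≠ 0) : (ln a b).leadingCoeff = a := leadingCoeff_linear ha

/-! ### Cubes plus a constant -/

/-- `X ^ 3 + k` -/
noncomputable def cub (k : ℤ) : ℤ[X] := X ^ 3 + C k

lemma cub_eval (k m : ℤ) : (cub k).eval m = m ^ 3 + k := by
  unfold cub
  simp

lemma cub_monic (k : ℤ) : (cub k).Monic := monic_X_pow_add_C k (by norm_num)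

lemma cub_deg (k : ℤ) : (cub k).natDegree = 3 := natDegree_X_pow_add_C

lemma cub_irr (k : ℤ) (hk : ¬ ∃ a : ℤ, k = a ^ 3) : Irreducible (cub k) := by
  rw [Polynomial.IsPrimitive.Int.irreducible_iff_irreducible_map_cast (cub_monic k).isPrimitive]
  have hmap : (cub k).map (Int.castRingHom ℚ) = X ^ 3 + C (k : ℚ) := by
    unfold cub
    simp
  rw [hmap]
  apply Polynomial.irreducible_of_degree_le_three_of_not_isRoot
  · rw [natDegree_X_pow_add_C]
    decide
  · intro x hx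
    rw [IsRoot.def] at hx
    simp only [eval_add, eval_pow, eval_X, eval_C] at hx
    have h1 : x ^ 3 = ((-k : ℤ) : ℚ) := by
      push_cast
      linarith
    obtain ⟨y, hy⟩ := IsIntegrallyClosed.exists_algebraMap_eq_of_isIntegral_pow (R := ℤ)
      (x := x) (n := 3) (by norm_num) (by
        rw [h1]
        exact isIntegral_algebraMap (R := ℤ) (A := ℚ) (x := -k))
    apply hk
    refine ⟨-y, ?_⟩
    have h2 : ((y ^ 3 : ℤ) : ℚ) = ((-k : ℤ) : ℚ) := by
      rw [← h1, ← hy]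
      push_cast
      rfl
    have h3 : y ^ 3 = -k := by exact_mod_cast h2
    have : (-y) ^ 3 = -(y ^ 3) := by ring
    rw [this, h3, neg_neg]

lemma cub_sys (k : ℤ) (hk : ¬ ∃ a : ℤ, k = a ^ 3) : Sys (fun _ : Fin 1 => cub k) :=
  ⟨fun _ => cub_irr k hk, fun _ => by rw [cub_deg]; norm_num,
    fun _ => by rw [(cub_monic k).leadingCoeff]; norm_num, fun _ _ _ => Subsingleton.elim _ _,
    fun p hp => by
      by_cases h0 : (p : ℤ) ∣ k
      · refine ⟨1, fun _ h1 => ?_⟩
        rw [cub_eval] at h1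
        have h2 : (p : ℤ) ∣ ((1 : ℕ) : ℤ) := by
          have := dvd_sub h1 h0
          have e : (((1 : ℕ) : ℤ)) ^ 3 + k - k = ((1 : ℕ) : ℤ) := by push_cast; ring
          rw [e] at this
          exact this
        exact hp.one_lt.ne' (Nat.dvd_one.1 (Int.natCast_dvd_natCast.1 h2))
      · refine ⟨0, fun _ h1 => h0 ?_⟩
        rw [cub_eval] at h1
        simpa using h1⟩

lemma cub_noTr (k : ℤ) : NoTr (fun _ : Fin 1 => cub k) :=
  noTr_single (cub k) (by rw [cub_deg]; norm_num)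

/-! ### The pairs -/

/-- a prime does not divide small numbers -/
lemma not_dvd_one (p : ℕ) (hp : p.Prime) : ¬ (p : ℤ) ∣ 1 := by
  intro h
  have h1 : p ∣ 1 := by exact_mod_cast h
  exact hp.one_lt.ne' (Nat.dvd_one.1 h1)

/-- `m ^ 2 + 1`, `m ^ 2 + 3` -/
noncomputable def f13 : Fin 2 → ℤ[X] := ![quad 1 0 1, quad 1 0 3]

lemma f13_sys : Sys f13 := by
  apply sys_two _ _ (quad_irr 1 0 1 one_ne_zero (fun p hp h => not_dvd_one p hp h.1) (by decide +revert))
    (quad_irr 1 0 3 one_ne_zero (fun p hp h => not_dvd_one p hp h.1) (by decide +revert))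
  · rw [quad_deg 1 0 1 one_ne_zero]; norm_num
  · rw [quad_deg 1 0 3 one_ne_zero]; norm_num
  · rw [quad_lead 1 0 1 one_ne_zero]; norm_num
  · rw [quad_lead 1 0 3 one_ne_zero]; norm_num
  · intro h
    have := congrArg (Polynomial.eval 0) h
    rw [quad_eval, quad_eval] at this
    norm_num at this
  · intro p hp
    by_cases h3 : p = 3
    · refine ⟨1, ?_, ?_⟩ <;> rw [quad_eval, h3] <;> norm_num
    · refine ⟨0, ?_, ?_⟩ <;> rw [quad_eval]
      · simpa using not_dvd_one p hp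
      · intro h
        apply h3
        have h1 : (p : ℤ) ∣ ((3 : ℕ) : ℤ) := by simpa using h
        have h2 : p ∣ 3 := by exact_mod_cast h1
        exact (Nat.prime_dvd_prime_iff_eq hp Nat.prime_three).1 h2

lemma f13_noTr : NoTr f13 := by
  apply noTr_two
  · rw [quad_deg 1 0 1 one_ne_zero]; norm_num
  · rw [quad_deg 1 0 3 one_ne_zero]; norm_num
  · intro t ht
    apply ne_comp _ _ t 0
    rw [quad_eval, quad_eval]
    have : (1 : ℤ) ≤ t := by exact_mod_cast ht
    nlinarith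
  · intro t ht
    apply ne_comp _ _ t 0
    rw [quad_eval, quad_eval]
    intro h
    have h1 : (t : ℤ) * t = 2 := by linarith
    have h2 : t * t = 2 := by exact_mod_cast h1
    have h3 : t ≤ 1 := by nlinarith
    interval_cases t
    omega

/-- `m`, `m ^ 2 + m + 1` -/
noncomputable def f111 : Fin 2 → ℤ[X] := ![ln 1 0, quad 1 1 1]

lemma f111_sys : Sys f111 := by
  apply sys_two _ _ (ln_irr 1 0 one_ne_zero isCoprime_one_left)
    (quad_irr 1 1 1 one_ne_zero (fun p hp h => not_dvd_one p hp h.1) (by decide +revert))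
  · rw [ln_deg 1 0 one_ne_zero]; norm_num
  · rw [quad_deg 1 1 1 one_ne_zero]; norm_num
  · rw [ln_lead 1 0 one_ne_zero]; norm_num
  · rw [quad_lead 1 1 1 one_ne_zero]; norm_num
  · intro h
    have := congrArg (Polynomial.eval 0) h
    rw [ln_eval, quad_eval] at this
    norm_num at this
  · intro p hp
    by_cases h3 : p = 3
    · refine ⟨2, ?_, ?_⟩
      · rw [ln_eval, h3]; norm_num
      · rw [quad_eval, h3]; norm_num
    · refine ⟨1, ?_, ?_⟩
      · rw [ln_eval]
        simpa using not_dvd_one p hp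
      · rw [quad_eval]
        intro h
        apply h3
        have h1 : (p : ℤ) ∣ ((3 : ℕ) : ℤ) := by
          have e : (1 : ℤ) * ((1 : ℕ) : ℤ) ^ 2 + 1 * ((1 : ℕ) : ℤ) + 1 = ((3 : ℕ) : ℤ) := by norm_num
          rw [e] at h
          exact h
        have h2 : p ∣ 3 := by exact_mod_cast h1
        exact (Nat.prime_dvd_prime_iff_eq hp Nat.prime_three).1 h2

lemma f111_noTr : NoTr f111 := by
  apply noTr_two
  · rw [ln_deg 1 0 one_ne_zero]; norm_num
  · rw [quad_deg 1 1 1 one_ne_zero]; norm_num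
  · intro t ht
    apply ne_comp _ _ t 0
    rw [quad_eval, ln_eval]
    have : (1 : ℤ) ≤ t := by exact_mod_cast ht
    nlinarith
  · intro t ht h0
    have e0 := congrArg (Polynomial.eval 0) h0
    have e1 := congrArg (Polynomial.eval 1) h0
    rw [eval_comp, quad_eval, ln_eval] at e0 e1
    simp only [eval_add, eval_X, eval_C] at e0 e1
    linarith

/-- `m`, `8 m ^ 2 - 1` -/
noncomputable def f8 : Fin 2 → ℤ[X] := ![ln 1 0, quad 8 0 (-1)]

lemma f8_sys : Sys f8 := by
  apply sys_two _ _ (ln_irr 1 0 one_ne_zero isCoprime_one_left)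
    (quad_irr 8 0 (-1) (by norm_num) (fun p hp h => not_dvd_one p hp (by simpa using h.2.2)) (by
      rintro ⟨x, hx⟩
      have h1 : x ≤ 5 := by nlinarith
      have h2 : -5 ≤ x := by nlinarith
      interval_cases x <;> omega))
  · rw [ln_deg 1 0 one_ne_zero]; norm_num
  · rw [quad_deg 8 0 (-1) (by norm_num)]; norm_num
  · rw [ln_lead 1 0 one_ne_zero]; norm_num
  · rw [quad_lead 8 0 (-1) (by norm_num)]; norm_num
  · intro h
    have := congrArg (Polynomial.eval 0) h
    rw [ln_eval, quad_eval] at this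
    norm_num at this
  · intro p hp
    by_cases h3 : p = 7
    · refine ⟨2, ?_, ?_⟩
      · rw [ln_eval, h3]; norm_num
      · rw [quad_eval, h3]; norm_num
    · refine ⟨1, ?_, ?_⟩
      · rw [ln_eval]
        simpa using not_dvd_one p hp
      · rw [quad_eval]
        intro h
        apply h3
        have h1 : (p : ℤ) ∣ ((7 : ℕ) : ℤ) := by
          have e : (8 : ℤ) * ((1 : ℕ) : ℤ) ^ 2 + 0 * ((1 : ℕ) : ℤ) + (-1) = ((7 : ℕ) : ℤ) := by norm_num
          rw [e] at h
          exact h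
        have h2 : p ∣ 7 := by exact_mod_cast h1
        exact (Nat.prime_dvd_prime_iff_eq hp (by norm_num)).1 h2

lemma f8_noTr : NoTr f8 := by
  apply noTr_two
  · rw [ln_deg 1 0 one_ne_zero]; norm_num
  · rw [quad_deg 8 0 (-1) (by norm_num)]; norm_num
  · intro t ht
    apply ne_comp _ _ t 0
    rw [quad_eval, ln_eval]
    have : (1 : ℤ) ≤ t := by exact_mod_cast ht
    nlinarith
  · intro t ht
    apply ne_comp _ _ t 0
    rw [quad_eval, ln_eval]
    have : (1 : ℤ) ≤ t := by exact_mod_cast ht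
    intro h
    linarith

/-- `m`, `2 m - 1` -/
noncomputable def f21 : Fin 2 → ℤ[X] := ![ln 1 0, ln 2 (-1)]

lemma f21_sys : Sys f21 := by
  apply sys_two _ _ (ln_irr 1 0 one_ne_zero isCoprime_one_left)
    (ln_irr 2 (-1) (by norm_num) (by norm_num))
  · rw [ln_deg 1 0 one_ne_zero]; norm_num
  · rw [ln_deg 2 (-1) (by norm_num)]; norm_num
  · rw [ln_lead 1 0 one_ne_zero]; norm_num
  · rw [ln_lead 2 (-1) (by norm_num)]; norm_num
  · intro h
    have := congrArg (Polynomial.eval 0) h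
    rw [ln_eval, ln_eval] at this
    norm_num at this
  · intro p hp
    refine ⟨1, ?_, ?_⟩
    · rw [ln_eval]
      simpa using not_dvd_one p hp
    · rw [ln_eval]
      intro h
      apply not_dvd_one p hp
      have e : (2 : ℤ) * ((1 : ℕ) : ℤ) + (-1) = 1 := by norm_num
      rw [e] at h
      exact h

lemma f21_noTr : NoTr f21 := by
  apply noTr_two
  · rw [ln_deg 1 0 one_ne_zero]; norm_num
  · rw [ln_deg 2 (-1) (by norm_num)]; norm_num
  · intro t ht
    apply ne_comp _ _ t 0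
    rw [ln_eval, ln_eval]
    intro h
    omega
  · intro t ht
    apply ne_comp _ _ t 0
    rw [ln_eval, ln_eval]
    intro h
    omega

/-- `m`, `4 m + 1` -/
noncomputable def f41 : Fin 2 → ℤ[X] := ![ln 1 0, ln 4 1]

lemma f41_sys : Sys f41 := by
  apply sys_two _ _ (ln_irr 1 0 one_ne_zero isCoprime_one_left)
    (ln_irr 4 1 (by norm_num) (by norm_num))
  · rw [ln_deg 1 0 one_ne_zero]; norm_num
  · rw [ln_deg 4 1 (by norm_num)]; norm_num
  · rw [ln_lead 1 0 one_ne_zero]; norm_num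
  · rw [ln_lead 4 1 (by norm_num)]; norm_num
  · intro h
    have := congrArg (Polynomial.eval 0) h
    rw [ln_eval, ln_eval] at this
    norm_num at this
  · intro p hp
    by_cases h3 : p = 5
    · refine ⟨2, ?_, ?_⟩
      · rw [ln_eval, h3]; norm_num
      · rw [ln_eval, h3]; norm_num
    · refine ⟨1, ?_, ?_⟩
      · rw [ln_eval]
        simpa using not_dvd_one p hp
      · rw [ln_eval]
        intro h
        apply h3
        have h1 : (p : ℤ) ∣ ((5 : ℕ) : ℤ) := by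
          have e : (4 : ℤ) * ((1 : ℕ) : ℤ) + 1 = ((5 : ℕ) : ℤ) := by norm_num
          rw [e] at h
          exact h
        have h2 : p ∣ 5 := by exact_mod_cast h1
        exact (Nat.prime_dvd_prime_iff_eq hp (by norm_num)).1 h2

lemma f41_noTr : NoTr f41 := by
  apply noTr_two
  · rw [ln_deg 1 0 one_ne_zero]; norm_num
  · rw [ln_deg 4 1 (by norm_num)]; norm_num
  · intro t ht
    apply ne_comp _ _ t 0
    rw [ln_eval, ln_eval]
    intro h
    omega
  · intro t ht h0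
    have e0 := congrArg (Polynomial.eval 0) h0
    have e1 := congrArg (Polynomial.eval 1) h0
    rw [eval_comp, ln_eval, ln_eval] at e0 e1
    simp only [eval_add, eval_X, eval_C] at e0 e1
    linarith

end Pool.Agent.TH464.PO
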