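import Pool.Agent.TH464.PO.ExactE
import Pool.Agent.TH464.PO.Two

set_option autoImplicit false

/-!
# The laws for patterns of shifts, packaged
-/

namespace Pool.Agent.TH464.PO

open Finset Filter
open Pool.Agent.W123.RP Pool.Agent.H373R2.T7 Pool.Agent.W123.RU
open Pool.Agent.TH464.PW

lemma V_gen' (Q R : ℕ → ℕ → Prop)
    {inst : ∀ p, DecidablePred (R p)} (h : ∀ p m : ℕ, Q p m ↔ R p m) (y : ℕ) :
    Vq Q y = ∏ p ∈ (Finset.range (y + 1)).filter Nat.Prime,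
      (1 - (((Finset.range p).filter (R p)).card : ℝ) / p) := by
  classical
  unfold Vq
  apply Finset.prod_congr
  · unfold pz
    ext p
    simp only [mem_filter, mem_Icc, mem_range]
    constructor
    · rintro ⟨h1, h2⟩
      exact ⟨by omega, h2⟩
    · rintro ⟨h1, h2⟩
      exact ⟨⟨h2.one_lt.le, by omega⟩, h2⟩
  · intro p _
    have : nuB Q p = ((Finset.range p).filter (R p)).card := by
      unfold nuB
      congr 1
      ext a
      rw [mem_filter, mem_filter, h]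
    rw [this]

/-- sifted = almost prime -/
lemma sf_shift (r : ℕ) (hr : 1 ≤ r) : ∀ᶠ X : ℕ in atTop, ∀ P : Finset ℕ, (∀ a ∈ P, a ≤ X) →
    ∀ m : ℕ, m ≤ 3 * X → (Sf (QS P) ⌊(X : ℝ) ^ (1 / (r : ℝ))⌋₊ m ↔
      ∀ s ∈ P, APn r ((X : ℝ) ^ (1 / (r : ℝ))) (m + s)) := by
  have hr0 : (0 : ℝ) < r := by exact_mod_cast hr
  have hpow1 : Tendsto (fun X : ℕ => (X : ℝ) ^ (1 / (r : ℝ))) atTop atTop :=
    (tendsto_rpow_atTop (by positivity)).comp tendsto_natCast_atTop_atTop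
  filter_upwards [hpow1.eventually_ge_atTop 4, eventually_ge_atTop 2] with X hX hX2
  intro P hP m hm
  have hX0 : (0 : ℝ) < X := by exact_mod_cast (by omega : 0 < X)
  have h2mem : 2 ∈ pz ⌊(X : ℝ) ^ (1 / (r : ℝ))⌋₊ := by
    rw [mem_pz]
    refine ⟨Nat.le_floor ?_, Nat.prime_two⟩
    push_cast
    linarith
  constructor
  · intro h s hs
    have h3 : ∀ p : ℕ, p.Prime → p ∣ m + s → (X : ℝ) ^ (1 / (r : ℝ)) < (p : ℝ) := by
      intro p hp hd
      apply not_mem_pz hp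
      intro hmem
      exact h p hmem ⟨s, hs, hd⟩
    have hne : m + s ≠ 0 := by
      intro h0
      apply h 2 h2mem
      exact ⟨s, hs, by rw [h0]; exact dvd_zero _⟩
    refine ⟨?_, h3⟩
    apply length_le _ r hne _ h3 _ (by linarith)
    have e1 : ((X : ℝ) ^ (1 / (r : ℝ))) ^ (r + 1) = X * (X : ℝ) ^ (1 / (r : ℝ)) := by
      rw [pow_succ]
      congr 1
      rw [← Real.rpow_natCast, ← Real.rpow_mul hX0.le]
      have : (1 / (r : ℝ)) * (r : ℝ) = 1 := by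
        field_simp
      rw [this, Real.rpow_one]
    rw [e1]
    have h4 : m + s ≤ 4 * X := by
      have := hP s hs
      omega
    have h5 : ((m + s : ℕ) : ℝ) ≤ 4 * X := by exact_mod_cast h4
    calc ((m + s : ℕ) : ℝ) ≤ 4 * X := h5
      _ = X * 4 := by ring
      _ ≤ X * (X : ℝ) ^ (1 / (r : ℝ)) := by gcongr
  · intro h p hp hq
    obtain ⟨s, hs, hd⟩ := hq
    have h1 := (h s hs).2 p (mem_pz.1 hp).2 hd
    have h2 := mem_pz' (by positivity) hp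
    linarith

/-- the windows are short -/
lemma shift_short (K : ℕ) (x : ℝ) (r : ℕ) (hr : 2 ≤ r) : ∀ᶠ X : ℕ in atTop, ∀ P : Finset ℕ,
    P.card = K → AdP P → ∀ T : ℕ, T * Vq (QS P) ⌊(X : ℝ) ^ (1 / (r : ℝ))⌋₊ ≤ x → T ≤ X := by
  obtain ⟨v, hv, hVlow⟩ := V_lower_unif K
  have hrr : (2 : ℝ) ≤ r := by exact_mod_cast hr
  have hpow2 : Tendsto (fun X : ℕ => (X : ℝ) ^ (1 / (2 * r : ℝ))) atTop atTop :=
    (tendsto_rpow_atTop (by positivity)).comp tendsto_natCast_atTop_atTop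
  filter_upwards [hpow2.eventually_ge_atTop 3, eventually_ge_atTop 16,
    logpow_rpow K (|x| / v + 1) 1 (by positivity) one_pos] with X hX1 hX16 hlp
  intro P hPK hPad T hT
  have hper : PerB (QS P) K := by
    have := qs_perB P
    rwa [hPK] at this
  obtain ⟨hy1, hy2, hy3, hy4⟩ := level_low r hr X (by omega) (by linarith)
  obtain ⟨y, hy⟩ : ∃ y, y = ⌊(X : ℝ) ^ (1 / (r : ℝ))⌋₊ := ⟨_, rfl⟩
  rw [← hy] at hy1 hy2 hy3 hy4 hT
  have hVlo := hVlow (QS P) hper (fun p hp => qs_adm P hPad p hp) y hy4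
  have hlogy : 0 < Real.log y := Real.log_pos (by exact_mod_cast (by omega : 1 < y))
  have hT0 : (0 : ℝ) ≤ T := Nat.cast_nonneg T
  rw [Real.rpow_one] at hlp
  have h3 : (T : ℝ) * (v / Real.log y ^ K) ≤ |x| :=
    (mul_le_mul_of_nonneg_left hVlo hT0).trans (hT.trans (le_abs_self x))
  have h4 : (T : ℝ) ≤ |x| / v * Real.log y ^ K := by
    rw [div_mul_eq_mul_div, le_div_iff₀ hv]
    calc (T : ℝ) * v = T * (v / Real.log y ^ K) * Real.log y ^ K := by field_simp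
      _ ≤ |x| * Real.log y ^ K := by gcongr
  have h5 : Real.log y ^ K ≤ Real.log X ^ K := pow_le_pow_left₀ hlogy.le hy3 K
  have h6 : 0 ≤ Real.log X ^ K := (pow_nonneg hlogy.le K).trans h5
  have h7 : (T : ℝ) ≤ X := by
    calc (T : ℝ) ≤ |x| / v * Real.log y ^ K := h4
      _ ≤ |x| / v * Real.log X ^ K := by gcongr
      _ ≤ (|x| / v + 1) * Real.log X ^ K := by nlinarith
      _ ≤ X := hlp
  exact_mod_cast h7

open Classical in
/-- Poisson -/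
theorem sh_pois (K : ℕ) (hK : 2 ≤ K) (θ : ℝ) (hθ : 0 < θ) (x ε : ℝ) (hε : 0 < ε) :
    ∃ r0 : ℕ, ∀ r : ℕ, r0 ≤ r → ∀ᶠ X : ℕ in atTop, ∀ P : Finset ℕ, P.card = K →
      (∀ a ∈ P, a ≤ X) → AdP P → ∀ (g : ℕ → Prop) (v : ℝ),
      (∀ m, (∀ s ∈ P, APn r ((X : ℝ) ^ (1 / (r : ℝ))) (m + s)) ↔ g m) →
      Vq (QS P) ⌊(X : ℝ) ^ (1 / (r : ℝ))⌋₊ = v →
      ∀ Z Y : ℕ, (X : ℝ) ^ θ ≤ Y → Z + Y ≤ 2 * X →
      ∀ T : ℕ, T * v ≤ x → ∀ E : Finset ℕ,
        |(((Ioc Z (Z + Y)).filter (fun n => ((Ioc n (n + T)).filter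
          (fun m => g m)).card ∈ E)).card : ℝ) -
          Y * ∑ j ∈ E, Real.exp (-(T * v)) * (T * v) ^ j / j.factorial| ≤ ε * Y := by
  obtain ⟨r0, h0⟩ := shift K 1 hK θ hθ 0 x ε hε
  refine ⟨max r0 2, ?_⟩
  intro r hr
  have hr2 : 2 ≤ r := (le_max_right _ _).trans hr
  filter_upwards [h0 r ((le_max_left _ _).trans hr), sf_shift r (by omega), shift_short K x r hr2]
    with X hX hap hs
  intro P hPK hPX hPad g v hg hv Z Y hXY hZY T hT2 E
  subst hv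
  have hTX : T ≤ X := hs P hPK hPad T hT2
  have hmain := (hX P hPK (by simpa using hPX) hPad Z Y hXY).1 T hT2 E
  have hcount : ((Ioc Z (Z + Y)).filter (fun n => ((Ioc n (n + T)).filter
      (fun m => g m)).card ∈ E)).card =
      ((Ioc Z (Z + Y)).filter
        (fun n => Wc (Sf (QS P) ⌊(X : ℝ) ^ (1 / (r : ℝ))⌋₊) n T ∈ E)).card := by
    congr 1
    apply Finset.filter_congr
    intro n hn
    rw [mem_Ioc] at hn
    have e : ((Ioc n (n + T)).filter (fun m => g m)).card =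
        Wc (Sf (QS P) ⌊(X : ℝ) ^ (1 / (r : ℝ))⌋₊) n T := by
      unfold Wc
      congr 1
      apply Finset.filter_congr
      intro m hm
      rw [mem_Ioc] at hm
      exact ((hap P hPX m (by omega)).trans (hg m)).symm
    rw [e]
  rw [hcount]
  exact hmain

open Classical in
/-- the gaps -/
theorem sh_gaps (K : ℕ) (hK : 2 ≤ K) (θ : ℝ) (hθ : 0 < θ) (k0 : ℕ) (x ε : ℝ) (hε : 0 < ε) :
    ∃ r0 : ℕ, ∀ r : ℕ, r0 ≤ r → ∀ᶠ X : ℕ in atTop, ∀ P : Finset ℕ, P.card = K →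
      (∀ a ∈ P, a ≤ X) → AdP P → ∀ (g : ℕ → Prop) (v : ℝ),
      (∀ m, (∀ s ∈ P, APn r ((X : ℝ) ^ (1 / (r : ℝ))) (m + s)) ↔ g m) →
      Vq (QS P) ⌊(X : ℝ) ^ (1 / (r : ℝ))⌋₊ = v →
      ∀ Z Y : ℕ, (X : ℝ) ^ θ ≤ Y → Z + Y ≤ 2 * X →
      ∀ k T : ℕ, (k ≤ k0 ∨ T * v ≤ x) →
        |(((Ioc Z (Z + Y)).filter (fun b => g b ∧
          ((Ico (b - T) b).filter (fun m => g m)).card < k)).card : ℝ) - Y * v *
          ∑ j ∈ Finset.range k, Real.exp (-(T * v)) * (T * v) ^ j / j.factorial| ≤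
            ε * (Y * v) := by
  obtain ⟨r0, h0⟩ := shift K 1 hK θ hθ k0 x ε hε
  refine ⟨max r0 2, ?_⟩
  intro r hr
  have hr2 : 2 ≤ r := (le_max_right _ _).trans hr
  filter_upwards [h0 r ((le_max_left _ _).trans hr), sf_shift r (by omega)] with X hX hap
  intro P hPK hPX hPad g v hg hv Z Y hXY hZY k T hkT
  subst hv
  have hmain := (hX P hPK (by simpa using hPX) hPad Z Y hXY).2 k T hkT
  have hcount : ((Ioc Z (Z + Y)).filter (fun b => g b ∧
      ((Ico (b - T) b).filter (fun m => g m)).card < k)).card =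
      Pk (Sf (QS P) ⌊(X : ℝ) ^ (1 / (r : ℝ))⌋₊) k T Z Y := by
    unfold Pk
    congr 1
    apply Finset.filter_congr
    intro b hb
    rw [mem_Ioc] at hb
    rw [← (hap P hPX b (by omega)).trans (hg b)]
    apply and_congr Iff.rfl
    have e : (Ico (b - T) b).filter (fun m => g m) =
        (Ico (b - T) b).filter (Sf (QS P) ⌊(X : ℝ) ^ (1 / (r : ℝ))⌋₊) := by
      apply Finset.filter_congr
      intro m hm
      rw [mem_Ico] at hm
      exact ((hap P hPX m (by omega)).trans (hg m)).symm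
    rw [e]
  rw [hcount]
  exact hmain

open Classical in
/-- exact density -/
theorem sh_ex (K : ℕ) (hK : 2 ≤ K) (θ : ℝ) (hθ : 0 < θ) (ε : ℝ) (hε : 0 < ε) :
    ∃ (κ : ℝ) (r0 : ℕ), 0 < κ ∧ ∀ r : ℕ, r0 ≤ r → ∀ᶠ X : ℕ in atTop, ∀ P : Finset ℕ, P.card = K →
      (∀ a ∈ P, a ≤ X) → AdP P → ∀ (g : ℕ → Prop) (V : ℝ),
      (∀ m, (∀ s ∈ P, APn r ((X : ℝ) ^ (1 / (r : ℝ))) (m + s)) ↔ g m) →
      Vq (QS P) ⌊(X : ℝ) ^ (1 / (r : ℝ))⌋₊ = V →
      ∀ Z Y : ℕ, (X : ℝ) ^ θ ≤ Z → (X : ℝ) ^ θ ≤ Y → Z + Y ≤ 2 * X →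
      (((Ioc Z (Z + Y)).filter (fun n => ¬ ∀ u v : ℕ, Z ≤ u → u < n → n ≤ v → v ≤ Z + Y →
        κ ≤ ((v : ℝ) - u) * V →
        |(((Ioc u v).filter (fun m => g m)).card : ℝ) - (v - u) * V| ≤
          ε * ((v - u) * V))).card : ℝ) ≤ ε * Y ∧
      (((Ioc Z (Z + Y)).filter (fun n => g n ∧
        ¬ ∀ u v : ℕ, Z ≤ u → u < n → n ≤ v → v ≤ Z + Y →
        κ ≤ ((v : ℝ) - u) * V →
        |(((Ioc u v).filter (fun m => g m)).card : ℝ) - (v - u) * V| ≤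
          ε * ((v - u) * V))).card : ℝ) ≤ ε * (Y * V) := by
  obtain ⟨κ, r0, hκ, h0⟩ := shift_exact K 1 hK θ hθ ε hε
  refine ⟨κ, max r0 1, hκ, ?_⟩
  intro r hr
  have hr1 : 1 ≤ r := (le_max_right _ _).trans hr
  filter_upwards [h0 r ((le_max_left _ _).trans hr), sf_shift r hr1] with X hX hap
  intro P hPK hPX hPad g V hg hV Z Y hXZ hXY hZY
  have hmain := hX P hPK (by simpa using hPX) hPad Z Y hXZ hXY
  rw [hV] at hmain
  have key : ∀ n ∈ Ioc Z (Z + Y),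
      Exact (Sf (QS P) ⌊(X : ℝ) ^ (1 / (r : ℝ))⌋₊) V κ ε Z Y n →
      ∀ u v : ℕ, Z ≤ u → u < n → n ≤ v → v ≤ Z + Y → κ ≤ ((v : ℝ) - u) * V →
        |(((Ioc u v).filter (fun m => g m)).card : ℝ) - (v - u) * V| ≤ ε * ((v - u) * V) := by
    intro n hn hex u v hu hun hnv hv hKV
    have h1 := hex u v hu hun hnv hv hKV
    have hN : ((Ioc u v).filter (fun m => g m)).card =
        Cc (Sf (QS P) ⌊(X : ℝ) ^ (1 / (r : ℝ))⌋₊) u v := by
      unfold Cc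
      congr 1
      apply Finset.filter_congr
      intro m hm
      rw [mem_Ioc] at hm
      exact ((hap P hPX m (by omega)).trans (hg m)).symm
    rw [hN]
    exact h1
  constructor
  · refine le_trans ?_ hmain.1
    have : ((Ioc Z (Z + Y)).filter (fun n => ¬ ∀ u v : ℕ, Z ≤ u → u < n → n ≤ v → v ≤ Z + Y →
        κ ≤ ((v : ℝ) - u) * V →
        |(((Ioc u v).filter (fun m => g m)).card : ℝ) -
          (v - u) * V| ≤ ε * ((v - u) * V))).card ≤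
        ((Ioc Z (Z + Y)).filter (fun n => ¬ Exact (Sf (QS P) ⌊(X : ℝ) ^ (1 / (r : ℝ))⌋₊)
          V κ ε Z Y n)).card := by
      apply card_le_card
      intro n hn
      rw [mem_filter] at hn ⊢
      exact ⟨hn.1, fun hex => hn.2 (key n hn.1 hex)⟩
    exact_mod_cast this
  · refine le_trans ?_ hmain.2
    have : ((Ioc Z (Z + Y)).filter (fun n => g n ∧
        ¬ ∀ u v : ℕ, Z ≤ u → u < n → n ≤ v → v ≤ Z + Y → κ ≤ ((v : ℝ) - u) * V →
        |(((Ioc u v).filter (fun m => g m)).card : ℝ) -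
          (v - u) * V| ≤ ε * ((v - u) * V))).card ≤
        ((Ioc Z (Z + Y)).filter (fun n => Sf (QS P) ⌊(X : ℝ) ^ (1 / (r : ℝ))⌋₊ n ∧
          ¬ Exact (Sf (QS P) ⌊(X : ℝ) ^ (1 / (r : ℝ))⌋₊) V κ ε Z Y n)).card := by
      apply card_le_card
      intro n hn
      rw [mem_filter] at hn ⊢
      have hn1 := mem_Ioc.1 hn.1
      exact ⟨hn.1, ((hap P hPX n (by omega)).trans (hg n)).2 hn.2.1,
        fun hex => hn.2.2 (key n hn.1 hex)⟩
    exact_mod_cast this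

end Pool.Agent.TH464.PO
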