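import Pool.Agent.TH464.PO.JointSB
import Pool.Agent.TH464.PO.PalmPoly
import Pool.Agent.TH464.PO.ShiftPack

set_option autoImplicit false

/-!
# Patterns of shifts: the joint laws
-/

namespace Pool.Agent.TH464.PO

open Finset Filter
open Pool.Agent.W123.RP Pool.Agent.H373R2.T7 Pool.Agent.W123.RU
open Pool.Agent.TH464.PW

lemma qs_per (P : Finset ℕ) (K : ℕ) (h : P.card = K) : PerB (QS P) K := by
  have := qs_perB P
  rwa [h] at this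

open Classical in
/-- **The joint law** for patterns of shifts, uniformly in the pattern. -/
theorem shift_joint (K A : ℕ) (hK : 2 ≤ K) (θ : ℝ) (hθ : 0 < θ) (s : ℕ) (x0 ε : ℝ) (hε : 0 < ε) :
    ∃ r0 : ℕ, ∀ r : ℕ, r0 ≤ r → ∀ᶠ X : ℕ in atTop, ∀ P : Finset ℕ, P.card = K →
      (∀ a ∈ P, a ≤ X ^ A) → AdP P → ∀ Z Y : ℕ, (X : ℝ) ^ θ ≤ Y →
      ∀ a b : Fin s → ℕ, (∀ i, a i ≤ b i) →
      (∀ i, b i * Vq (QS P) ⌊(X : ℝ) ^ (1 / (r : ℝ))⌋₊ ≤ x0) →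
      (∀ i j, i ≠ j → b i ≤ a j ∨ b j ≤ a i) → ∀ E : Fin s → Finset ℕ,
        |(((Ioc Z (Z + Y)).filter (fun n => ∀ i, ((Ioc (n + a i) (n + b i)).filter
          (fun m => Sf (QS P) ⌊(X : ℝ) ^ (1 / (r : ℝ))⌋₊ m)).card ∈ E i)).card : ℝ) -
          Y * ∏ i, pois (((b i : ℝ) - a i) * Vq (QS P) ⌊(X : ℝ) ^ (1 / (r : ℝ))⌋₊) (E i)| ≤
            ε * Y := by
  obtain ⟨K0, y0, T0, R0, R, η', hη', hlaw⟩ := joint_law_SB s K (by omega) x0 ε hε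
  obtain ⟨r0, h0⟩ := shift_SB K A R hK θ hθ K0 y0 T0 R0 (min η' 1) 1 (|x0| + 2) (by positivity)
    (min_le_right _ _) one_pos (by positivity)
  refine ⟨r0, ?_⟩
  intro r hr
  filter_upwards [h0 r hr] with X hX
  intro P hPK hPX hPad Z Y hXY a b hab hb hdis E
  obtain ⟨y, hy⟩ : ∃ y, y = ⌊(X : ℝ) ^ (1 / (r : ℝ))⌋₊ := ⟨_, rfl⟩
  obtain ⟨a1, a2, a3, a4, a5, a6⟩ := hX P hPK hPX hPad Y hXY y hy
  rw [← hy] at hb ⊢
  exact hlaw (QS P) Z Y y (qs_per P K hPK) (fun p hp => qs_adm P hPad p hp) a1 a2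
    (fun T h1 h2 => ⟨(a6 T h1 h2).1, (a6 T h1 h2).2.1, fun j hj =>
      SB_mono _ _ _ _ _ _ (min_le_left _ _) ((a6 T h1 h2).2.2 j hj)⟩) a b hab hb
    (win_disj a b hdis) E

/-- the count -/
lemma shift_total (K A : ℕ) (hK : 2 ≤ K) (θ : ℝ) (hθ : 0 < θ) (ε : ℝ) (hε : 0 < ε) :
    ∃ r0 : ℕ, ∀ r : ℕ, r0 ≤ r → ∀ᶠ X : ℕ in atTop, ∀ P : Finset ℕ, P.card = K →
      (∀ a ∈ P, a ≤ X ^ A) → AdP P → ∀ Z Y : ℕ, (X : ℝ) ^ θ ≤ Y →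
      (Cc (Sf (QS P) ⌊(X : ℝ) ^ (1 / (r : ℝ))⌋₊) Z (Z + Y) : ℝ) ≤
        (1 + ε) * (Y * Vq (QS P) ⌊(X : ℝ) ^ (1 / (r : ℝ))⌋₊) := by
  classical
  obtain ⟨r0, h0⟩ := shift K A hK θ hθ 1 0 ε hε
  refine ⟨r0, ?_⟩
  intro r hr
  filter_upwards [h0 r hr] with X hX
  intro P hPK hPX hPad Z Y hXY
  have h1 := (hX P hPK hPX hPad Z Y hXY).2 1 0 (Or.inl le_rfl)
  have e1 : Pk (Sf (QS P) ⌊(X : ℝ) ^ (1 / (r : ℝ))⌋₊) 1 0 Z Y =
      Cc (Sf (QS P) ⌊(X : ℝ) ^ (1 / (r : ℝ))⌋₊) Z (Z + Y) := by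
    unfold Pk
    rw [Cc_eq]
    congr 1
    apply Finset.filter_congr
    intro b _
    constructor
    · exact fun h => h.1
    · intro h
      refine ⟨h, ?_⟩
      rw [Nat.sub_zero, Finset.Ico_self, Finset.filter_empty, card_empty]
      exact Nat.one_pos
  have e2 : Ck 1 (((0 : ℕ) : ℝ) * Vq (QS P) ⌊(X : ℝ) ^ (1 / (r : ℝ))⌋₊) = 1 := by
    simp [Ck, pw]
  rw [e1, e2] at h1
  have := (abs_le.1 h1).2
  linarith

/-- **The joint law around the elements** for patterns of shifts. -/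
theorem shift_palm (K A : ℕ) (hK : 2 ≤ K) (θ : ℝ) (hθ : 0 < θ) (s : ℕ) (x0 ε : ℝ) (hx0 : 0 ≤ x0)
    (hε : 0 < ε) :
    ∃ r0 : ℕ, ∀ r : ℕ, r0 ≤ r → ∀ᶠ X : ℕ in atTop, ∀ P : Finset ℕ, P.card = K →
      (∀ a ∈ P, a ≤ X ^ A) → AdP P → ∀ Z Y : ℕ, (X : ℝ) ^ θ ≤ Y →
      ∀ (c : ℕ) (a b : Fin s → ℕ), c * Vq (QS P) ⌊(X : ℝ) ^ (1 / (r : ℝ))⌋₊ ≤ x0 →
      (∀ i, a i ≤ b i) →
      (∀ i, b i * Vq (QS P) ⌊(X : ℝ) ^ (1 / (r : ℝ))⌋₊ ≤ x0) → (∀ i, b i < c ∨ c ≤ a i) →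
      (∀ i j, i ≠ j → b i ≤ a j ∨ b j ≤ a i) → ∀ E : Fin s → Finset ℕ,
        |(Cc (fun m => Sf (QS P) ⌊(X : ℝ) ^ (1 / (r : ℝ))⌋₊ m ∧
            Fw (Sf (QS P) ⌊(X : ℝ) ^ (1 / (r : ℝ))⌋₊) c a b E m) Z (Z + Y) : ℝ) -
          Y * Vq (QS P) ⌊(X : ℝ) ^ (1 / (r : ℝ))⌋₊ *
            ∏ i, pois (((b i : ℝ) - a i) * Vq (QS P) ⌊(X : ℝ) ^ (1 / (r : ℝ))⌋₊) (E i)| ≤
              ε * (Y * Vq (QS P) ⌊(X : ℝ) ^ (1 / (r : ℝ))⌋₊) := by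
  classical
  obtain ⟨δ, ε', hδ, hε', hp⟩ := palm s x0 ε hx0 hε
  obtain ⟨r1, h1⟩ := shift_joint K A hK θ hθ (s + 1) (x0 + 8) ε' hε'
  obtain ⟨r2, h2⟩ := shift_total K A hK θ hθ ε' hε'
  obtain ⟨r3, h3⟩ := shift_SB K A 0 hK θ hθ 1 1 1 1 1 (min δ ε') (x0 + 8) one_pos le_rfl
    (by positivity) (by positivity)
  refine ⟨max (max r1 r2) r3, ?_⟩
  intro r hr
  have hr1 : r1 ≤ r := by omega
  have hr2 : r2 ≤ r := by omega
  have hr3 : r3 ≤ r := by omega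
  filter_upwards [h1 r hr1, h2 r hr2, h3 r hr3] with X hX1 hX2 hX3
  intro P hPK hPX hPad Z Y hXY c a b hcV hab hbV hc hdis E
  obtain ⟨q1, q2, q3, q4, q5, q6⟩ := hX3 P hPK hPX hPad Y hXY _ rfl
  have hV0 : 0 < Vq (QS P) ⌊(X : ℝ) ^ (1 / (r : ℝ))⌋₊ :=
    Vq_pos (QS P) (fun p hp => qs_adm P hPad p hp) _
  have hYV : 0 ≤ Y * Vq (QS P) ⌊(X : ℝ) ^ (1 / (r : ℝ))⌋₊ := by positivity
  exact hp (Sf (QS P) ⌊(X : ℝ) ^ (1 / (r : ℝ))⌋₊) Z Y _ hV0 (q3.trans (min_le_left _ _))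
    (JL_of _ _ _ _ _ _ _ (fun a b hab hb hdis A => hX1 P hPK hPX hPad Z Y hXY a b hab hb hdis A))
    (hX2 P hPK hPX hPad Z Y hXY)
    (q5.trans (mul_le_mul_of_nonneg_right (min_le_right _ _) hYV)) c a b hcV hab hbV hc hdis E

open Classical in
/-- the joint law, packaged -/
theorem sh_joint (K : ℕ) (hK : 2 ≤ K) (θ : ℝ) (hθ : 0 < θ) (s : ℕ) (x ε : ℝ) (hε : 0 < ε) :
    ∃ r0 : ℕ, ∀ r : ℕ, r0 ≤ r → ∀ᶠ X : ℕ in atTop, ∀ P : Finset ℕ, P.card = K →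
      (∀ a ∈ P, a ≤ X) → AdP P → ∀ (g : ℕ → Prop) (v : ℝ),
      (∀ m, (∀ s ∈ P, APn r ((X : ℝ) ^ (1 / (r : ℝ))) (m + s)) ↔ g m) →
      Vq (QS P) ⌊(X : ℝ) ^ (1 / (r : ℝ))⌋₊ = v →
      ∀ Z Y : ℕ, (X : ℝ) ^ θ ≤ Y → Z + Y ≤ 2 * X →
      ∀ a b : Fin s → ℕ, (∀ i, a i ≤ b i) → (∀ i, b i * v ≤ x) →
      (∀ i j, i ≠ j → b i ≤ a j ∨ b j ≤ a i) → ∀ E : Fin s → Finset ℕ,
        |(((Ioc Z (Z + Y)).filter (fun n => ∀ i, ((Ioc (n + a i) (n + b i)).filter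
          (fun m => g m)).card ∈ E i)).card : ℝ) -
          Y * ∏ i, ∑ j ∈ E i, Real.exp (-(((b i : ℝ) - a i) * v)) *
            (((b i : ℝ) - a i) * v) ^ j / j.factorial| ≤ ε * Y := by
  obtain ⟨r0, h0⟩ := shift_joint K 1 hK θ hθ s x ε hε
  refine ⟨max r0 2, ?_⟩
  intro r hr
  have hr2 : 2 ≤ r := (le_max_right _ _).trans hr
  filter_upwards [h0 r ((le_max_left _ _).trans hr), sf_shift r (by omega), shift_short K x r hr2]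
    with X hX hap hs
  intro P hPK hPX hPad g v hg hv Z Y hXY hZY a b hab hb hdis E
  subst hv
  have hbX : ∀ i, b i ≤ X := fun i => hs P hPK hPad (b i) (hb i)
  have hmain := hX P hPK (by simpa using hPX) hPad Z Y hXY a b hab hb hdis E
  have hcount : ((Ioc Z (Z + Y)).filter (fun n => ∀ i, ((Ioc (n + a i) (n + b i)).filter
      (fun m => g m)).card ∈ E i)).card =
      ((Ioc Z (Z + Y)).filter (fun n => ∀ i, ((Ioc (n + a i) (n + b i)).filter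
          (fun m => Sf (QS P) ⌊(X : ℝ) ^ (1 / (r : ℝ))⌋₊ m)).card ∈ E i)).card := by
    congr 1
    apply Finset.filter_congr
    intro n hn
    rw [mem_Ioc] at hn
    apply forall_congr'
    intro i
    have e : ((Ioc (n + a i) (n + b i)).filter (fun m => g m)).card =
        ((Ioc (n + a i) (n + b i)).filter
          (fun m => Sf (QS P) ⌊(X : ℝ) ^ (1 / (r : ℝ))⌋₊ m)).card := by
      congr 1
      apply Finset.filter_congr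
      intro m hm
      rw [mem_Ioc] at hm
      have := hbX i
      exact ((hap P hPX m (by omega)).trans (hg m)).symm
    rw [e]
  rw [hcount]
  exact hmain

open Classical in
/-- the joint law around the elements, packaged -/
theorem sh_palm (K : ℕ) (hK : 2 ≤ K) (θ : ℝ) (hθ : 0 < θ) (s : ℕ) (x ε : ℝ) (hε : 0 < ε) :
    ∃ r0 : ℕ, ∀ r : ℕ, r0 ≤ r → ∀ᶠ X : ℕ in atTop, ∀ P : Finset ℕ, P.card = K →
      (∀ a ∈ P, a ≤ X) → AdP P → ∀ (g : ℕ → Prop) (v : ℝ),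
      (∀ m, (∀ s ∈ P, APn r ((X : ℝ) ^ (1 / (r : ℝ))) (m + s)) ↔ g m) →
      Vq (QS P) ⌊(X : ℝ) ^ (1 / (r : ℝ))⌋₊ = v →
      ∀ Z Y : ℕ, (X : ℝ) ^ θ ≤ Y → Z + Y ≤ 2 * X →
      ∀ (c : ℕ) (a b : Fin s → ℕ), c * v ≤ x → (∀ i, a i ≤ b i) → (∀ i, b i * v ≤ x) →
      (∀ i, b i < c ∨ c ≤ a i) → (∀ i j, i ≠ j → b i ≤ a j ∨ b j ≤ a i) → ∀ E : Fin s → Finset ℕ,
        |(((Ioc Z (Z + Y)).filter (fun m => g m ∧ ∀ i,
          ((Ioc (m + a i - c) (m + b i - c)).filter (fun k => g k)).card ∈ E i)).card : ℝ) -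
          Y * v * ∏ i, ∑ j ∈ E i, Real.exp (-(((b i : ℝ) - a i) * v)) *
            (((b i : ℝ) - a i) * v) ^ j / j.factorial| ≤ ε * (Y * v) := by
  obtain ⟨r0, h0⟩ := shift_palm K 1 hK θ hθ s |x| ε (abs_nonneg x) hε
  refine ⟨max r0 2, ?_⟩
  intro r hr
  have hr2 : 2 ≤ r := (le_max_right _ _).trans hr
  filter_upwards [h0 r ((le_max_left _ _).trans hr), sf_shift r (by omega), shift_short K x r hr2]
    with X hX hap hs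
  intro P hPK hPX hPad g v hg hv Z Y hXY hZY c a b hcV hab hb hc hdis E
  subst hv
  have hbX : ∀ i, b i ≤ X := fun i => hs P hPK hPad (b i) (hb i)
  have hmain := hX P hPK (by simpa using hPX) hPad Z Y hXY c a b (hcV.trans (le_abs_self x)) hab
    (fun i => (hb i).trans (le_abs_self x)) hc hdis E
  have hcount : ((Ioc Z (Z + Y)).filter (fun m => g m ∧ ∀ i,
      ((Ioc (m + a i - c) (m + b i - c)).filter (fun k => g k)).card ∈ E i)).card =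
      Cc (fun m => Sf (QS P) ⌊(X : ℝ) ^ (1 / (r : ℝ))⌋₊ m ∧
            Fw (Sf (QS P) ⌊(X : ℝ) ^ (1 / (r : ℝ))⌋₊) c a b E m) Z (Z + Y) := by
    apply Cc_card
    intro m h1
    have h1' := mem_Ioc.1 h1
    have key : ∀ i, m ∈ Ioc Z (Z + Y) → (Ioc (m + a i - c) (m + b i - c)).filter
          (Sf (QS P) ⌊(X : ℝ) ^ (1 / (r : ℝ))⌋₊) =
          (Ioc (m + a i - c) (m + b i - c)).filter (fun k => g k) := by
      intro i h1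
      rw [mem_Ioc] at h1
      apply Finset.filter_congr
      intro k hk
      rw [mem_Ioc] at hk
      have := hbX i
      exact (hap P hPX k (by omega)).trans (hg k)
    constructor
    · rintro ⟨h2, h3⟩
      refine ⟨((hap P hPX m (by omega)).trans (hg m)).2 h2, ?_⟩
      intro i
      have h4 := h3 i
      rw [Cc_eq, key i h1]
      exact h4
    · rintro ⟨h2, h3⟩
      refine ⟨((hap P hPX m (by omega)).trans (hg m)).1 h2, ?_⟩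
      intro i
      have h4 := h3 i
      rw [Cc_eq, key i h1] at h4
      exact h4
  rw [hcount]
  exact hmain

end Pool.Agent.TH464.PO
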