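import Pool.Agent.TH464.PO.GapI
import Pool.Agent.TH464.PO.ApInst
import Pool.Agent.TH464.PO.ShiftJoint

set_option autoImplicit false

/-!
# The joint law of consecutive gaps: progressions, linear forms, shifts, Goldbach
-/

namespace Pool.Agent.TH464.PO

open Finset Filter
open Pool.Agent.W123.RP Pool.Agent.H373R2.T7 Pool.Agent.W123.RU
open Pool.Agent.TH464.PW

open Classical in
/-- consecutive gaps in progressions -/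
theorem af_igap {ι : Type*} (A : ℕ) (Ad : ℕ → ι → Prop) (g : ℕ → ℕ → ι → ℕ → Prop)
    (V : ℕ → ℕ → ι → ℝ)
    (hfam : ∀ r : ℕ, 1 ≤ r → ∀ᶠ X : ℕ in atTop, ∀ i : ι, Ad X i → ∃ u v : Fin 1 → ℤ,
      AF u v (X ^ A) ∧
      (∀ m ≤ 3 * X, Sf (QL u v) ⌊(X : ℝ) ^ (1 / (r : ℝ))⌋₊ m ↔ g r X i m) ∧
      Vq (QL u v) ⌊(X : ℝ) ^ (1 / (r : ℝ))⌋₊ = V r X i)
    (θ : ℝ) (hθ : 0 < θ) (s : ℕ) (ε : ℝ) (hε : 0 < ε) :
    ∃ r0 : ℕ, ∀ r : ℕ, r0 ≤ r → ∀ᶠ X : ℕ in atTop, ∀ i : ι, Ad X i →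
      ∀ Z Y : ℕ, (X : ℝ) ^ θ ≤ Y → Z + Y ≤ 2 * X → ∀ t : Fin s → ℕ,
        |(((Ioc Z (Z + Y)).filter (fun b => g r X i b ∧ ∀ j : Fin s,
            t j < (nx (g r X i))^[(j : ℕ) + 1] b - (nx (g r X i))^[(j : ℕ)] b)).card : ℝ) -
          Y * V r X i * ∏ j, Real.exp (-(t j * V r X i))| ≤ ε * (Y * V r X i) := by
  obtain ⟨δ, x', ε', hδ, hε', hx', hmain⟩ := gaps_joint s ε hε
  obtain ⟨r1, h1⟩ := af_palm A Ad g V hfam θ hθ (s + s) x' ε' hε'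
  obtain ⟨r2, h2⟩ := af_sizes A θ hθ 1 1 1 1 1 δ 1 one_pos hδ one_pos
  refine ⟨max (max r1 r2) 1, ?_⟩
  intro r hr
  have hr1 : r1 ≤ r := by omega
  have hr2 : r2 ≤ r := by omega
  filter_upwards [h1 r hr1, h2 r hr2, hfam r (by omega)] with X hX1 hX2 hF
  intro i hi Z Y hXY hZY t
  obtain ⟨u, v, hLF, hg, hV⟩ := hF i hi
  have hV0 : 0 < V r X i := by
    rw [← hV]
    exact Vq_pos (QL u v) (fun p hp => af_adm hLF p hp) _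
  have hVδ : V r X i ≤ δ := by
    rw [← hV]
    exact (hX2 u v hLF Y hXY _ rfl).2.2.1
  refine hmain (g r X i) Z Y (V r X i) hV0 hVδ (fun a b hab hb hdis E => ?_) t
  exact hX1 i hi Z Y hXY hZY 0 a b (by rw [Nat.cast_zero, zero_mul]; exact hx') hab hb
    (fun _ => Or.inr (Nat.zero_le _)) hdis E

open Classical in
/-- consecutive gaps for families of systems of linear forms -/
theorem fam_igap {ι : Type*} (K A : ℕ) (hK : 1 ≤ K) (Ad : ℕ → ι → Prop) (g : ℕ → ℕ → ι → ℕ → Prop)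
    (V : ℕ → ℕ → ι → ℝ)
    (hfam : ∀ r : ℕ, 1 ≤ r → ∀ᶠ X : ℕ in atTop, ∀ i : ι, Ad X i → ∃ u v : Fin K → ℤ,
      LF K u v (X ^ A) (Real.log X ^ (K + 1)) ∧
      (∀ m ≤ 3 * X, Sf (QL u v) ⌊(X : ℝ) ^ (1 / (r : ℝ))⌋₊ m ↔ g r X i m) ∧
      Vq (QL u v) ⌊(X : ℝ) ^ (1 / (r : ℝ))⌋₊ = V r X i)
    (θ : ℝ) (hθ : 0 < θ) (s : ℕ) (ε : ℝ) (hε : 0 < ε) :
    ∃ r0 : ℕ, ∀ r : ℕ, r0 ≤ r → ∀ᶠ X : ℕ in atTop, ∀ i : ι, Ad X i →
      ∀ Z Y : ℕ, (X : ℝ) ^ θ ≤ Y → Z + Y ≤ 2 * X → ∀ t : Fin s → ℕ,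
        |(((Ioc Z (Z + Y)).filter (fun b => g r X i b ∧ ∀ j : Fin s,
            t j < (nx (g r X i))^[(j : ℕ) + 1] b - (nx (g r X i))^[(j : ℕ)] b)).card : ℝ) -
          Y * V r X i * ∏ j, Real.exp (-(t j * V r X i))| ≤ ε * (Y * V r X i) := by
  obtain ⟨δ, x', ε', hδ, hε', hx', hmain⟩ := gaps_joint s ε hε
  obtain ⟨r1, h1⟩ := fam_palm K A hK Ad g V hfam θ hθ (s + s) x' ε' hε'
  obtain ⟨r2, h2⟩ := lin_sizes K A θ hθ 1 1 1 1 1 δ 1 one_pos hδ one_pos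
  refine ⟨max (max r1 r2) 1, ?_⟩
  intro r hr
  have hr1 : r1 ≤ r := by omega
  have hr2 : r2 ≤ r := by omega
  filter_upwards [h1 r hr1, h2 r hr2, hfam r (by omega)] with X hX1 hX2 hF
  intro i hi Z Y hXY hZY t
  obtain ⟨u, v, hLF, hg, hV⟩ := hF i hi
  have hV0 : 0 < V r X i := by
    rw [← hV]
    exact Vq_pos (QL u v) (fun p hp => lf_adm hLF p hp) _
  have hVδ : V r X i ≤ δ := by
    rw [← hV]
    exact (hX2 u v hLF Y hXY _ rfl).2.2.1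
  refine hmain (g r X i) Z Y (V r X i) hV0 hVδ (fun a b hab hb hdis E => ?_) t
  exact hX1 i hi Z Y hXY hZY 0 a b (by rw [Nat.cast_zero, zero_mul]; exact hx') hab hb
    (fun _ => Or.inr (Nat.zero_le _)) hdis E

open Classical in
/-- consecutive gaps for patterns of shifts -/
theorem sh_igap (K : ℕ) (hK : 2 ≤ K) (θ : ℝ) (hθ : 0 < θ) (s : ℕ) (ε : ℝ) (hε : 0 < ε) :
    ∃ r0 : ℕ, ∀ r : ℕ, r0 ≤ r → ∀ᶠ X : ℕ in atTop, ∀ P : Finset ℕ, P.card = K →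
      (∀ a ∈ P, a ≤ X) → AdP P → ∀ (g : ℕ → Prop) (v : ℝ),
      (∀ m, (∀ s ∈ P, APn r ((X : ℝ) ^ (1 / (r : ℝ))) (m + s)) ↔ g m) →
      Vq (QS P) ⌊(X : ℝ) ^ (1 / (r : ℝ))⌋₊ = v →
      ∀ Z Y : ℕ, (X : ℝ) ^ θ ≤ Y → Z + Y ≤ 2 * X → ∀ t : Fin s → ℕ,
        |(((Ioc Z (Z + Y)).filter (fun b => g b ∧ ∀ j : Fin s,
            t j < (nx g)^[(j : ℕ) + 1] b - (nx g)^[(j : ℕ)] b)).card : ℝ) -
          Y * v * ∏ j, Real.exp (-(t j * v))| ≤ ε * (Y * v) := by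
  obtain ⟨δ, x', ε', hδ, hε', hx', hmain⟩ := gaps_joint s ε hε
  obtain ⟨r1, h1⟩ := sh_palm K hK θ hθ (s + s) x' ε' hε'
  obtain ⟨r2, h2⟩ := shift_SB K 1 0 hK θ hθ 1 1 1 1 1 δ 1 one_pos le_rfl hδ one_pos
  refine ⟨max r1 r2, ?_⟩
  intro r hr
  filter_upwards [h1 r ((le_max_left _ _).trans hr), h2 r ((le_max_right _ _).trans hr)]
    with X hX1 hX2
  intro P hPK hPX hPad g v hg hv Z Y hXY hZY t
  have hv0 : 0 < v := by
    rw [← hv]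
    exact Vq_pos (QS P) (fun p hp => qs_adm P hPad p hp) _
  have hvδ : v ≤ δ := by
    rw [← hv]
    exact (hX2 P hPK (by simpa using hPX) hPad Y hXY _ rfl).2.2.1
  refine hmain g Z Y v hv0 hvδ (fun a b hab hb hdis E => ?_) t
  exact hX1 P hPK hPX hPad g v hg hv Z Y hXY hZY 0 a b
    (by rw [Nat.cast_zero, zero_mul]; exact hx') hab hb (fun _ => Or.inr (Nat.zero_le _)) hdis E

open Classical in
/-- consecutive gaps of the almost prime Goldbach representations -/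
theorem gold_igap (θ : ℝ) (hθ : 0 < θ) (s : ℕ) (ε : ℝ) (hε : 0 < ε) :
    ∃ r0 : ℕ, ∀ r : ℕ, r0 ≤ r → ∀ᶠ N : ℕ in atTop, 2 ∣ N →
      ∀ (g : ℕ → Prop) (V : ℝ), (∀ m ≤ N, GP r N m ↔ g m) →
      Vq (QL gu (gv N)) ⌊(N : ℝ) ^ (1 / (r : ℝ))⌋₊ = V →
      ∀ Z Y : ℕ, (N : ℝ) ^ θ ≤ Y → Z + 2 * Y ≤ N → ∀ t : Fin s → ℕ,
        |(((Ioc Z (Z + Y)).filter (fun b => g b ∧ ∀ j : Fin s,
            t j < (nx g)^[(j : ℕ) + 1] b - (nx g)^[(j : ℕ)] b)).card : ℝ) -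
          Y * V * ∏ j, Real.exp (-(t j * V))| ≤ ε * (Y * V) := by
  obtain ⟨δ, x', ε', hδ, hε', hx', hmain⟩ := gaps_joint s ε hε
  obtain ⟨r1, h1⟩ := gold_palm θ hθ (s + s) x' ε' hε'
  obtain ⟨r2, h2⟩ := lin_sizes 2 1 θ hθ 1 1 1 1 1 (min δ 1) (max x' 1) one_pos
    (by positivity) (by positivity)
  refine ⟨max r1 r2, ?_⟩
  intro r hr
  filter_upwards [h1 r ((le_max_left _ _).trans hr), h2 r ((le_max_right _ _).trans hr), log3_lt,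
    eventually_ge_atTop 3] with N hX1 hX2 hRN h3
  intro hN g V hg hV Z Y hXY hZY t
  have hLF := gLF N hN h3 _ hRN
  obtain ⟨-, -, q3, -, q5, -⟩ := hX2 gu (gv N) hLF Y hXY _ rfl
  rw [hV] at q3 q5
  have hV0 : 0 < V := by
    rw [← hV]
    exact Vq_pos (QL gu (gv N)) (fun p hp => lf_adm hLF p hp) _
  refine hmain g Z Y V hV0 (q3.trans (min_le_left _ _)) (fun a b hab hb hdis E => ?_) t
  refine hX1 hN g V hg hV Z Y hXY (by omega) 0 a b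
    (by rw [Nat.cast_zero, zero_mul]; exact hx') hab hb (fun i => ?_)
    (fun _ => Or.inr (Nat.zero_le _)) hdis E
  have h4 : (b i : ℝ) ≤ x' / V := by
    rw [le_div_iff₀ hV0]
    exact hb i
  have h5 : x' / V ≤ max x' 1 / V := div_le_div_of_nonneg_right (le_max_left _ _) hV0.le
  have h6 : min δ 1 * (Y * V) ≤ Y := by
    have h7 : min δ 1 ≤ 1 := min_le_right _ _
    have h8 : V ≤ 1 := q3.trans h7
    have h9 : (0 : ℝ) ≤ Y := Nat.cast_nonneg Y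
    have h10 : 0 ≤ min δ 1 := by positivity
    calc min δ 1 * (Y * V) ≤ 1 * (Y * 1) := by gcongr
      _ = Y := by ring
  have h7 : b i ≤ Y := by
    have : (b i : ℝ) ≤ Y := h4.trans (h5.trans (q5.trans h6))
    exact_mod_cast this
  omega

end Pool.Agent.TH464.PO
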