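import Pool.Agent.TH464.PO.Ext
import Pool.Agent.TH464.PW.Quad

set_option autoImplicit false

/-!
# The system `n ^ 2 + 1`
-/

namespace Pool.Agent.TH464.PO

open Polynomial Finset Filter
open Pool.Agent.W123.RP Pool.Agent.H373R2.T7 Pool.Agent.W123.RU Pool.Agent.W123.RU.Poly
open Pool.Agent.TH464.PW

/-- the system -/
noncomputable def sq : Fin 1 → ℤ[X] := fun _ => quad 1 0 1

lemma sq_sys : Sys sq :=
  ⟨fun _ => quad_irr 1 0 1 one_ne_zero (fun p hp h => by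
      have h1 : p ∣ 1 := by exact_mod_cast h.1
      exact hp.one_lt.ne' (Nat.dvd_one.1 h1)) (by
      rintro ⟨x, hx⟩
      nlinarith [mul_self_nonneg x]),
    fun _ => by unfold sq; rw [quad_deg 1 0 1 one_ne_zero]; norm_num,
    fun _ => by unfold sq; rw [quad_lead 1 0 1 one_ne_zero]; norm_num,
    fun _ _ _ => Subsingleton.elim _ _,
    fun p hp => ⟨0, fun _ h => by
      unfold sq at h
      rw [quad_eval] at h
      have h1 : p ∣ 1 := by
        have h2 : (p : ℤ) ∣ ((1 : ℕ) : ℤ) := by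
          simpa using h
        exact_mod_cast h2
      exact hp.one_lt.ne' (Nat.dvd_one.1 h1)⟩⟩

lemma sq_noTr : NoTr sq := noTr_single (quad 1 0 1) (by
  rw [quad_deg 1 0 1 one_ne_zero]; norm_num)

lemma sq_Q (p m : ℕ) : Q sq p m ↔ p ∣ m ^ 2 + 1 := by
  have e : (quad 1 0 1).eval (m : ℤ) = ((m ^ 2 + 1 : ℕ) : ℤ) := by
    rw [quad_eval]
    push_cast
    ring
  unfold Q sq
  rw [exists_const, e, Int.natCast_dvd_natCast]

open Classical in
lemma sq_V (y : ℕ) : Vq (Q sq) y = ∏ p ∈ (Finset.range (y + 1)).filter Nat.Prime,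
    (1 - (((Finset.range p).filter (fun a => p ∣ a ^ 2 + 1)).card : ℝ) / p) := by
  unfold Vq
  apply Finset.prod_congr
  · unfold pz
    ext p
    simp only [mem_filter, mem_Icc, mem_range]
    constructor
    · rintro ⟨h1, h2⟩
      exact ⟨by omega, h2⟩
    · rintro ⟨h1, h2⟩
      exact ⟨⟨h2.one_lt.le, by omega⟩, h2⟩
  · intro p _
    unfold nuB
    simp only [sq_Q]

/-- the condition -/
def AP (r X m : ℕ) : Prop :=
  (m ^ 2 + 1).primeFactorsList.length ≤ 2 * r ∧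
    ∀ p : ℕ, p.Prime → p ∣ m ^ 2 + 1 → (X : ℝ) ^ (1 / (r : ℝ)) < (p : ℝ)

lemma sf_AP (r : ℕ) (hr : 1 ≤ r) (X : ℕ) (hX : 1 ≤ X) (h10 : (10 : ℝ) ≤ (X : ℝ) ^ (1 / (r : ℝ))) (m : ℕ)
    (hm : m ≤ 3 * X) : Sf (Q sq) ⌊(X : ℝ) ^ (1 / (r : ℝ))⌋₊ m ↔ AP r X m := by
  have hX0 : (0 : ℝ) < X := by exact_mod_cast hX
  constructor
  · intro h
    have h2 : ∀ p : ℕ, p.Prime → p ∣ m ^ 2 + 1 → (X : ℝ) ^ (1 / (r : ℝ)) < (p : ℝ) := by
      intro p hp hd
      apply not_mem_pz hp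
      intro hmem
      exact h p hmem ((sq_Q p m).2 hd)
    refine ⟨?_, h2⟩
    apply length_le _ (2 * r) (by positivity) _ h2 _ (by linarith)
    have e1 : ((X : ℝ) ^ (1 / (r : ℝ))) ^ (2 * r + 1) = X ^ 2 * (X : ℝ) ^ (1 / (r : ℝ)) := by
      rw [pow_succ]
      congr 1
      rw [← Real.rpow_natCast, ← Real.rpow_mul hX0.le]
      have : (1 / (r : ℝ)) * ((2 * r : ℕ) : ℝ) = ((2 : ℕ) : ℝ) := by
        push_cast
        have hr0 : (r : ℝ) ≠ 0 := by exact_mod_cast (by omega : r ≠ 0)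
        field_simp
      rw [this, Real.rpow_natCast]
    rw [e1]
    have hm' : (m : ℝ) ≤ 3 * X := by exact_mod_cast hm
    have hX1 : (1 : ℝ) ≤ X := by exact_mod_cast hX
    have hm0 : (0 : ℝ) ≤ m := Nat.cast_nonneg m
    push_cast
    calc (m : ℝ) ^ 2 + 1 ≤ (3 * (X : ℝ)) ^ 2 + (X : ℝ) ^ 2 := by
          have h3 : (m : ℝ) ^ 2 ≤ (3 * (X : ℝ)) ^ 2 := pow_le_pow_left₀ hm0 hm' 2
          have h4 : (1 : ℝ) ≤ (X : ℝ) ^ 2 := one_le_pow₀ hX1
          linarith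
      _ = (X : ℝ) ^ 2 * 10 := by ring
      _ ≤ (X : ℝ) ^ 2 * (X : ℝ) ^ (1 / (r : ℝ)) := by gcongr
  · intro h p hp hq
    have h1 := h.2 p (mem_pz.1 hp).2 ((sq_Q p m).1 hq)
    have h2 := mem_pz' (by positivity) hp
    linarith

/-- the order of the sieve density -/
lemma sq_order : ∃ v Cv : ℝ, 0 < v ∧ 0 < Cv ∧ ∀ r : ℕ, 2 ≤ r → ∀ᶠ X : ℕ in atTop,
    v * r / Real.log X ≤ Vq (Q sq) ⌊(X : ℝ) ^ (1 / (r : ℝ))⌋₊ ∧
      Vq (Q sq) ⌊(X : ℝ) ^ (1 / (r : ℝ))⌋₊ ≤ Cv * r / Real.log X := by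
  obtain ⟨v, Cv, hv, hCv, hV⟩ := V_bounds sq sq_sys
  simp only [Fintype.card_fin, pow_one] at hV
  refine ⟨v, 2 * Cv, hv, by positivity, ?_⟩
  intro r hr
  have hrr : (2 : ℝ) ≤ r := by exact_mod_cast hr
  have hpow2 : Tendsto (fun X : ℕ => (X : ℝ) ^ (1 / (2 * r : ℝ))) atTop atTop :=
    (tendsto_rpow_atTop (by positivity)).comp tendsto_natCast_atTop_atTop
  filter_upwards [hpow2.eventually_ge_atTop 3, eventually_ge_atTop 16] with X hX1 hX16
  obtain ⟨hy1, hy2, hy3, hy4⟩ := level_low r hr X (by omega) (by linarith)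
  have hX16r : (16 : ℝ) ≤ X := by exact_mod_cast hX16
  have hXpos : (0 : ℝ) < X := by linarith
  obtain ⟨y, hy⟩ : ∃ y, y = ⌊(X : ℝ) ^ (1 / (r : ℝ))⌋₊ := ⟨_, rfl⟩
  rw [← hy] at hy1 hy2 hy3 hy4 ⊢
  have hy3' : 3 ≤ y := by
    have : (3 : ℝ) ≤ y := by linarith
    exact_mod_cast this
  obtain ⟨hVlo, hVup⟩ := hV y hy3'
  have hlX0 : 0 < Real.log X := Real.log_pos (by linarith)
  have hlogy : 0 < Real.log y := lt_of_lt_of_le (by positivity) hy2
  have hup : Real.log y ≤ Real.log X / r := by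
    have h1 : (y : ℝ) ≤ (X : ℝ) ^ (1 / (r : ℝ)) := by
      rw [hy]
      exact Nat.floor_le (by positivity)
    have h2 := Real.log_le_log (by positivity) h1
    rw [Real.log_rpow hXpos] at h2
    calc Real.log y ≤ 1 / r * Real.log X := h2
      _ = Real.log X / r := by ring
  constructor
  · refine le_trans ?_ hVlo
    rw [div_le_div_iff₀ hlX0 hlogy]
    calc v * r * Real.log y ≤ v * r * (Real.log X / r) := by gcongr
      _ = v * Real.log X := by field_simp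
  · refine hVup.trans ?_
    rw [div_le_div_iff₀ hlogy hlX0]
    calc Cv * Real.log X = 2 * Cv * r * (Real.log X / (2 * r)) := by field_simp
      _ ≤ 2 * Cv * r * Real.log y := by gcongr

/-- the windows are short -/
lemma sq_short (x : ℝ) : ∀ᶠ X : ℕ in atTop, ∀ r : ℕ, 2 ≤ r → ∀ T : ℕ,
    2 ≤ (X : ℝ) ^ (1 / (2 * r : ℝ)) →
    3 ≤ ⌊(X : ℝ) ^ (1 / (r : ℝ))⌋₊ →
    T * Vq (Q sq) ⌊(X : ℝ) ^ (1 / (r : ℝ))⌋₊ ≤ x → T ≤ X := by
  obtain ⟨v, Cv, hv, hCv, hV⟩ := V_bounds sq sq_sys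
  simp only [Fintype.card_fin, pow_one] at hV
  have hl : Tendsto (fun X : ℕ => (X : ℝ) / Real.log X) atTop atTop := by
    have h1 : Tendsto (fun x : ℝ => x / Real.log x) atTop atTop := by
      have h2 : Tendsto (fun x : ℝ => Real.log x / x) atTop (nhdsWithin 0 (Set.Ioi 0)) := by
        apply tendsto_nhdsWithin_of_tendsto_nhds_of_eventually_within
        · have := Real.isLittleO_log_id_atTop.tendsto_div_nhds_zero
          exact this
        · filter_upwards [eventually_gt_atTop 1] with x hx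
          exact div_pos (Real.log_pos hx) (by linarith)
      have h3 := h2.inv_tendsto_nhdsGT_zero
      refine h3.congr ?_
      intro x
      rw [Pi.inv_apply, inv_div]
    exact h1.comp tendsto_natCast_atTop_atTop
  filter_upwards [hl.eventually_ge_atTop (x / v), eventually_ge_atTop 16] with X hX hX16
  intro r hr T h2 hy3 hT
  obtain ⟨hy1, hy2, hy3', hy4⟩ := level_low r hr X (by omega) h2
  have hX16r : (16 : ℝ) ≤ X := by exact_mod_cast hX16
  have hlX0 : 0 < Real.log X := Real.log_pos (by linarith)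
  obtain ⟨hVlo, hVup⟩ := hV _ hy3
  obtain ⟨y, hy⟩ : ∃ y, y = ⌊(X : ℝ) ^ (1 / (r : ℝ))⌋₊ := ⟨_, rfl⟩
  rw [← hy] at hy1 hy2 hy3' hy4 hy3 hVlo hT
  have hlogy : 0 < Real.log y := Real.log_pos (by exact_mod_cast (by omega : 1 < y))
  have hT0 : (0 : ℝ) ≤ T := Nat.cast_nonneg T
  have h3 : (T : ℝ) * (v / Real.log y) ≤ x := (mul_le_mul_of_nonneg_left hVlo hT0).trans hT
  have h4 : (T : ℝ) * (v / Real.log X) ≤ x := by
    refine le_trans ?_ h3
    gcongr
  rw [div_le_div_iff₀ hv hlX0] at hX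
  have h5 : (T : ℝ) * v ≤ x * Real.log X := by
    rw [← mul_div_assoc, div_le_iff₀ hlX0] at h4
    exact h4
  have h6 : (T : ℝ) ≤ X := le_of_mul_le_mul_right (h5.trans hX) hv
  exact_mod_cast h6

end Pool.Agent.TH464.PO
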