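import Pool.Agent.TH464.PO.GapLaw

set_option autoImplicit false

/-!
# The gap laws for systems of polynomials
-/

namespace Pool.Agent.TH464.PO

open Polynomial Finset Filter
open Pool.Agent.W123.RP Pool.Agent.H373R2.T7 Pool.Agent.W123.RU Pool.Agent.W123.RU.Poly
open Pool.Agent.TH464.PW

variable {ι : Type} [Fintype ι]

lemma Np_eq_Wc (f : ι → ℤ[X]) (y T n : ℕ) : Np f y T n = Wc (Sf (Q f) y) n T := rfl

open Classical in
/-- the number of elements of an interval -/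
lemma total [Nonempty ι] (f : ι → ℤ[X]) (hf : Sys f) (θ : ℝ) (hθ : 0 < θ) (ε : ℝ) (hε : 0 < ε) :
    ∃ r0 : ℕ, ∀ r : ℕ, r0 ≤ r → ∀ᶠ X : ℕ in atTop, ∀ Y : ℕ, (X : ℝ) ^ θ ≤ Y →
      (((Finset.Ioc X (X + Y)).filter (Sf (Q f) ⌊(X : ℝ) ^ (1 / (r : ℝ))⌋₊)).card : ℝ) ≤
        (1 + ε) * (Y * Vq (Q f) ⌊(X : ℝ) ^ (1 / (r : ℝ))⌋₊) ∧
      ∀ x1 : ℝ, x1 ≤ ε⁻¹ → x1 / Vq (Q f) ⌊(X : ℝ) ^ (1 / (r : ℝ))⌋₊ ≤
        ε * (Y * Vq (Q f) ⌊(X : ℝ) ^ (1 / (r : ℝ))⌋₊) := by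
  obtain ⟨k, hk⟩ : ∃ k, k = Fintype.card ι := ⟨_, rfl⟩
  have hk1 : 1 ≤ k := by rw [hk]; exact Fintype.card_pos
  obtain ⟨c, hc, hQ⟩ := exists_c f hf
  obtain ⟨v, Cv, hv, hCv, hV⟩ := V_bounds f hf
  rw [← hk] at hV
  obtain ⟨K0, y0, hK0, hfund⟩ := sys_fund c hc (ε / 2) (by positivity)
  obtain ⟨R1, hR1⟩ : ∃ R1 : ℕ, (K0 : ℝ) / θ ≤ R1 := exists_nat_ge _
  refine ⟨max R1 2, ?_⟩
  intro r hr
  have hr2 : 2 ≤ r := (le_max_right _ _).trans hr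
  have hrr : (2 : ℝ) ≤ r := by exact_mod_cast hr2
  have hrpos : (0 : ℝ) < r := by linarith
  have hrK : (K0 : ℝ) ≤ θ * r := by
    have h1 : (K0 : ℝ) / θ ≤ r := hR1.trans (by exact_mod_cast (le_max_left _ _).trans hr)
    rw [div_le_iff₀ hθ] at h1
    linarith
  have hpow2 : Tendsto (fun X : ℕ => (X : ℝ) ^ (1 / (2 * r : ℝ))) atTop atTop :=
    (tendsto_rpow_atTop (by positivity)).comp tendsto_natCast_atTop_atTop
  have hM : 0 < (2 / (ε * v)) ^ 2 + 1 / (ε ^ 2 * v ^ 2) := by positivity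
  filter_upwards [hpow2.eventually_ge_atTop ((y0 : ℝ) + 3), eventually_ge_atTop 16,
    logpow_rpow (2 * k) ((2 / (ε * v)) ^ 2 + 1 / (ε ^ 2 * v ^ 2)) θ hM hθ] with X hX1 hX16 hX4
  intro Y hXY
  have hX16r : (16 : ℝ) ≤ X := by exact_mod_cast hX16
  have hXpos : (0 : ℝ) < X := by linarith
  have hXone : (1 : ℝ) ≤ X := by linarith
  have hy0r : (0 : ℝ) ≤ y0 := Nat.cast_nonneg _
  obtain ⟨hy1, hy2, hy3, hy4⟩ := level_low r hr2 X (by omega) (by linarith)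
  obtain ⟨y, hy⟩ : ∃ y, y = ⌊(X : ℝ) ^ (1 / (r : ℝ))⌋₊ := ⟨_, rfl⟩
  rw [← hy] at hy1 hy2 hy3 hy4 ⊢
  have hyr : (y0 : ℝ) + 3 ≤ y := hX1.trans hy1
  have hyy0 : y0 ≤ y := by
    have : (y0 : ℝ) ≤ y := by linarith
    exact_mod_cast this
  have hy3' : 3 ≤ y := by
    have : (3 : ℝ) ≤ y := by linarith
    exact_mod_cast this
  obtain ⟨hVlo, hVup⟩ := hV y hy3'
  have hlX0 : 0 < Real.log X := Real.log_pos (by linarith)
  have hlogy : 0 < Real.log y := lt_of_lt_of_le (by positivity) hy2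
  have hY0 : (0 : ℝ) ≤ Y := Nat.cast_nonneg Y
  have hV0 : 0 < Vq (Q f) y := Vq_pos (Q f) (fun p hp => Poly.adm f hf p hp) y
  have hyK : y ^ K0 ≤ Y := by
    have h3 : ((y ^ K0 : ℕ) : ℝ) ≤ Y := by
      push_cast
      calc (y : ℝ) ^ K0 ≤ ((X : ℝ) ^ (1 / (r : ℝ))) ^ K0 := by
            apply pow_le_pow_left₀ (Nat.cast_nonneg _)
            rw [hy]
            exact Nat.floor_le (by positivity)
        _ = (X : ℝ) ^ (1 / (r : ℝ) * K0) := by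
            rw [Real.rpow_mul hXpos.le, Real.rpow_natCast]
        _ ≤ (X : ℝ) ^ θ := by
            apply Real.rpow_le_rpow_of_exponent_le hXone
            rw [one_div, inv_mul_eq_div, div_le_iff₀ hrpos]
            exact hrK
        _ ≤ Y := hXY
    exact_mod_cast h3
  -- the size of the main term
  have hVX : v / Real.log X ^ k ≤ Vq (Q f) y := by
    refine le_trans ?_ hVlo
    gcongr
  have hLk : 0 < Real.log X ^ k := by positivity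
  have hsq : (v / Real.log X ^ k) ^ 2 ≤ Vq (Q f) y ^ 2 := pow_le_pow_left₀ (by positivity) hVX 2
  have hYbig : ((2 / (ε * v)) ^ 2 + 1 / (ε ^ 2 * v ^ 2)) * Real.log X ^ (2 * k) ≤ Y := hX4.trans hXY
  have hYa : (2 / (ε * v)) ^ 2 * Real.log X ^ (2 * k) ≤ Y := by
    refine le_trans ?_ hYbig
    gcongr
    have : 0 < 1 / (ε ^ 2 * v ^ 2) := by positivity
    linarith
  have hYb : 1 / (ε ^ 2 * v ^ 2) * Real.log X ^ (2 * k) ≤ Y := by
    refine le_trans ?_ hYbig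
    gcongr
    have : 0 < (2 / (ε * v)) ^ 2 := by positivity
    linarith
  have hpw : Real.log X ^ (2 * k) = (Real.log X ^ k) ^ 2 := by rw [mul_comm, pow_mul]
  constructor
  · have h1 := hfund Y y hyy0 hyK (Qs f X) (perB_Qs f c hQ X) Y
    have e1 : ∏ p ∈ pz y, (1 - (nuB (Qs f X) p : ℝ) / p) = Vq (Q f) y := Vq_Qs f c hQ X y
    rw [e1] at h1
    have h2 := (abs_le.1 h1).2
    have hcount : ((Finset.Ioc X (X + Y)).filter (Sf (Q f) y)).card =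
        ((Icc 1 Y).filter (fun n : ℕ => ∀ p ∈ pz y, ¬ Qs f X p n)).card := by
      symm
      apply Finset.card_bij (fun n _ => n + X)
      · intro n hn
        rw [mem_filter, mem_Icc] at hn
        rw [mem_filter, mem_Ioc]
        exact ⟨by omega, hn.2⟩
      · intro a _ b _ hab
        omega
      · intro n hn
        rw [mem_filter, mem_Ioc] at hn
        refine ⟨n - X, ?_, by omega⟩
        rw [mem_filter, mem_Icc]
        refine ⟨by omega, ?_⟩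
        intro p hp
        have := hn.2 p hp
        unfold Qs
        rwa [show n - X + X = n by omega]
    rw [hcount]
    have hs : √(Y : ℝ) ≤ ε / 2 * (Y * Vq (Q f) y) := by
      have h3 : 2 / (ε * v) * Real.log X ^ k ≤ √(Y : ℝ) := by
        apply Real.le_sqrt_of_sq_le
        rw [mul_pow, ← hpw]
        exact hYa
      have h4 : √(Y : ℝ) * √(Y : ℝ) = Y := Real.mul_self_sqrt hY0
      calc √(Y : ℝ) = ε / 2 * (√(Y : ℝ) * (2 / (ε * v) * Real.log X ^ k) * (v / Real.log X ^ k)) := by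
            field_simp
        _ ≤ ε / 2 * (√(Y : ℝ) * √(Y : ℝ) * Vq (Q f) y) := by gcongr
        _ = ε / 2 * (Y * Vq (Q f) y) := by rw [h4]
    have h5 : 0 ≤ Y * Vq (Q f) y := by positivity
    linarith
  · intro x1 hx1
    rw [div_le_iff₀ hV0]
    refine hx1.trans ?_
    have h3 : 1 / (ε ^ 2 * v ^ 2) * (Real.log X ^ k) ^ 2 ≤ Y := by rw [← hpw]; exact hYb
    calc ε⁻¹ = ε * (1 / (ε ^ 2 * v ^ 2) * (Real.log X ^ k) ^ 2 * (v / Real.log X ^ k) ^ 2) := by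
          field_simp
      _ ≤ ε * (Y * Vq (Q f) y ^ 2) := by gcongr
      _ = ε * (Y * Vq (Q f) y) * Vq (Q f) y := by ring

open Classical in
/-- **The gap laws** for systems of polynomials. -/
theorem gaps [Nonempty ι] (f : ι → ℤ[X]) (hf : Sys f) (hT : NoTr f) (θ : ℝ) (hθ : 0 < θ)
    (k0 : ℕ) (x0 ε : ℝ) (hε : 0 < ε) :
    ∃ r0 : ℕ, ∀ r : ℕ, r0 ≤ r → ∀ᶠ X : ℕ in atTop, ∀ Y : ℕ, (X : ℝ) ^ θ ≤ Y →
      ∀ k T : ℕ, (k ≤ k0 ∨ T * Vq (Q f) ⌊(X : ℝ) ^ (1 / (r : ℝ))⌋₊ ≤ x0) →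
        |(Pk (Sf (Q f) ⌊(X : ℝ) ^ (1 / (r : ℝ))⌋₊) k T X Y : ℝ) -
          Y * Vq (Q f) ⌊(X : ℝ) ^ (1 / (r : ℝ))⌋₊ * Ck k (T * Vq (Q f) ⌊(X : ℝ) ^ (1 / (r : ℝ))⌋₊)| ≤
            ε * (Y * Vq (Q f) ⌊(X : ℝ) ^ (1 / (r : ℝ))⌋₊) := by
  obtain ⟨x1, η, hx1, hη, hgap⟩ := gap_all k0 x0 ε hε
  obtain ⟨r1, h1⟩ := poisson_all f hf hT θ hθ x1 η hη
  obtain ⟨r2, h2⟩ := total f hf θ hθ (min η x1⁻¹) (by positivity)
  refine ⟨max (max r1 r2) 2, ?_⟩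
  intro r hr
  have hr1 : r1 ≤ r := by omega
  have hr2 : r2 ≤ r := by omega
  have hr3 : 2 ≤ r := by omega
  filter_upwards [h1 r hr1, h2 r hr2, V_small f hf r hr3 η hη] with X hX1 hX2 hX3
  intro Y hXY
  obtain ⟨y, hy⟩ : ∃ y, y = ⌊(X : ℝ) ^ (1 / (r : ℝ))⌋₊ := ⟨_, rfl⟩
  rw [← hy] at hX1 hX2 hX3 ⊢
  obtain ⟨ha, hb⟩ := hX2 Y hXY
  have hV0 : 0 < Vq (Q f) y := Vq_pos (Q f) (fun p hp => Poly.adm f hf p hp) y
  have hYV : 0 ≤ Y * Vq (Q f) y := by positivity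
  have hm : min η x1⁻¹ ≤ η := min_le_left _ _
  have hm2 : min η x1⁻¹ ≤ x1⁻¹ := min_le_right _ _
  have hm0 : 0 < min η x1⁻¹ := by positivity
  refine hgap (Sf (Q f) y) X Y (Vq (Q f) y) hV0 hX3 ?_ (ha.trans ?_) ((hb x1 ?_).trans ?_)
  · intro T hT' A
    exact hX1 Y hXY T hT' A
  · apply mul_le_mul_of_nonneg_right _ hYV
    linarith
  · rw [le_inv_comm₀ hx1 hm0]
    exact hm2
  · exact mul_le_mul_of_nonneg_right hm hYV

end Pool.Agent.TH464.PO
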