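import Pool.Agent.TH464.PO.LinLaw

set_option autoImplicit false

/-!
# The binary Goldbach problem with almost primes
-/

namespace Pool.Agent.TH464.PO

open Finset Filter
open Pool.Agent.W123.RP Pool.Agent.H373R2.T7 Pool.Agent.W123.RU

/-- the forms `m` and `N - m` -/
def gu : Fin 2 → ℤ := ![1, -1]

/-- the forms `m` and `N - m` -/
def gv (N : ℕ) : Fin 2 → ℤ := ![0, (N : ℤ)]

/-- the condition -/
def GP (r N m : ℕ) : Prop :=
  m < N ∧ (m.primeFactorsList.length < r ∧
    ∀ p : ℕ, p.Prime → p ∣ m → (N : ℝ) ^ (1 / (r : ℝ)) < (p : ℝ)) ∧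
  ((N - m).primeFactorsList.length < r ∧
    ∀ p : ℕ, p.Prime → p ∣ N - m → (N : ℝ) ^ (1 / (r : ℝ)) < (p : ℝ))

lemma gQ (N p m : ℕ) (hm : m ≤ N) : QL gu (gv N) p m ↔ p ∣ m ∨ p ∣ N - m := by
  unfold QL gu gv
  rw [Fin.exists_fin_two]
  simp only [Matrix.cons_val_zero, Matrix.cons_val_one]
  apply or_congr
  · rw [one_mul, add_zero]
    exact Int.natCast_dvd_natCast
  · rw [← Int.natCast_dvd_natCast, Nat.cast_sub hm]
    have e : (-1 : ℤ) * m + N = N - m := by ring
    rw [e]

lemma gLF (N : ℕ) (hN : 2 ∣ N) (hN3 : 3 ≤ N) (R : ℝ) (hR : R < N) : LF 2 gu (gv N) (N ^ 1) R where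
  ne := fun i => by
    fin_cases i <;> simp [gu]
  bu := fun i => by
    have h1 : (1 : ℤ) ≤ N := by exact_mod_cast (by omega : 1 ≤ N)
    fin_cases i <;> simp [gu] <;> exact_mod_cast h1
  bv := fun i => by
    fin_cases i <;> simp [gv]
  adm := fun p hp => by
    by_cases h2 : p = 2
    · subst h2
      refine ⟨1, fun i => ?_⟩
      fin_cases i
      · simp only [gu, gv]
        norm_num
      · simp only [gu, gv]
        norm_num
        omega
    · have h3 : 3 ≤ p := by
        have := hp.two_le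
        omega
      by_cases hd : (p : ℤ) ∣ (N : ℤ) - 1
      · refine ⟨2, fun i => ?_⟩
        fin_cases i
        · simp only [gu, gv]
          norm_num
          intro h
          have h4 : p ∣ 2 := by exact_mod_cast h
          have := Nat.le_of_dvd (by norm_num) h4
          omega
        · simp only [gu, gv]
          norm_num
          intro h
          have h4 : (p : ℤ) ∣ 1 := by
            have := dvd_sub hd h
            have e : (N : ℤ) - 1 - (-2 + N) = 1 := by ring
            rwa [e] at this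
          have h5 : p ∣ 1 := by exact_mod_cast h4
          have := Nat.le_of_dvd (by norm_num) h5
          omega
      · refine ⟨1, fun i => ?_⟩
        fin_cases i
        · simp only [gu, gv]
          norm_num
          intro h
          have h5 : p ∣ 1 := by exact_mod_cast h
          have := Nat.le_of_dvd (by norm_num) h5
          omega
        · simp only [gu, gv]
          norm_num
          intro h
          apply hd
          have e : (N : ℤ) - 1 = -1 + N := by ring
          rw [e]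
          exact h
  two := ⟨0, 1, by
    simp only [gu, gv]
    norm_num
    omega⟩
  nres := fun i j hij t ht htR => by
    have htN : (t : ℝ) < N := lt_of_le_of_lt htR hR
    have htN' : (t : ℤ) < N := by exact_mod_cast htN
    have ht1 : (1 : ℤ) ≤ t := by exact_mod_cast ht
    fin_cases i <;> fin_cases j
    · exact absurd rfl hij
    · simp only [gu, gv]
      norm_num
      omega
    · simp only [gu, gv]
      norm_num
      omega
    · exact absurd rfl hij

lemma sf_GP (r N : ℕ) (hr : 1 ≤ r) (hN : 2 ≤ N) (h2 : (2 : ℝ) ≤ (N : ℝ) ^ (1 / (r : ℝ))) (m : ℕ)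
    (hm : m ≤ N) : Sf (QL gu (gv N)) ⌊(N : ℝ) ^ (1 / (r : ℝ))⌋₊ m ↔ GP r N m := by
  have hN0 : (0 : ℝ) < N := by exact_mod_cast (by omega : 0 < N)
  have hr0 : (r : ℝ) ≠ 0 := by exact_mod_cast (by omega : r ≠ 0)
  have h2mem : 2 ∈ pz ⌊(N : ℝ) ^ (1 / (r : ℝ))⌋₊ := by
    rw [mem_pz]
    exact ⟨Nat.le_floor (by exact_mod_cast h2), Nat.prime_two⟩
  have hpow : ((N : ℝ) ^ (1 / (r : ℝ))) ^ r = N := by
    rw [← Real.rpow_natCast, ← Real.rpow_mul hN0.le]
    rw [one_div, inv_mul_cancel₀ hr0, Real.rpow_one]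
  have hz1 : 1 ≤ (N : ℝ) ^ (1 / (r : ℝ)) := by linarith
  have key : ∀ a : ℕ, a ≠ 0 → a ≤ N →
      (∀ p : ℕ, p.Prime → p ∣ a → (N : ℝ) ^ (1 / (r : ℝ)) < (p : ℝ)) →
      a.primeFactorsList.length < r := by
    intro a ha haN h
    obtain ⟨s, hs⟩ : ∃ s, r = s + 1 := ⟨r - 1, by omega⟩
    have := length_le a s ha _ h (by
      rw [← hs, hpow]
      exact_mod_cast haN) hz1
    omega
  constructor
  · intro h
    have hm0 : m ≠ 0 := by
      rintro rfl
      exact h 2 h2mem ((gQ N 2 0 (by omega)).2 (Or.inl (dvd_zero _)))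
    have hmN : m ≠ N := by
      rintro rfl
      exact h 2 h2mem ((gQ m 2 m le_rfl).2 (Or.inr (by simp)))
    have ha : ∀ p : ℕ, p.Prime → p ∣ m → (N : ℝ) ^ (1 / (r : ℝ)) < (p : ℝ) := by
      intro p hp hd
      apply not_mem_pz hp
      intro hmem
      exact h p hmem ((gQ N p m hm).2 (Or.inl hd))
    have hb : ∀ p : ℕ, p.Prime → p ∣ N - m → (N : ℝ) ^ (1 / (r : ℝ)) < (p : ℝ) := by
      intro p hp hd
      apply not_mem_pz hp
      intro hmem
      exact h p hmem ((gQ N p m hm).2 (Or.inr hd))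
    exact ⟨by omega, ⟨key m hm0 hm ha, ha⟩, ⟨key (N - m) (by omega) (by omega) hb, hb⟩⟩
  · intro h p hp hq
    have h3 := mem_pz' (by positivity) hp
    rcases (gQ N p m hm).1 hq with h1 | h1
    · have := h.2.1.2 p (mem_pz.1 hp).2 h1
      linarith
    · have := h.2.2.2 p (mem_pz.1 hp).2 h1
      linarith

lemma nu_gold (N p : ℕ) (hp : p.Prime) : nuB (QL gu (gv N)) p = if p ∣ N then 1 else 2 := by
  classical
  have hQ : ∀ m : ℕ, QL gu (gv N) p m ↔ (p : ℤ) ∣ (m : ℤ) ∨ (p : ℤ) ∣ (N : ℤ) - m := by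
    intro m
    unfold QL gu gv
    rw [Fin.exists_fin_two]
    simp only [Matrix.cons_val_zero, Matrix.cons_val_one]
    have e : (-1 : ℤ) * m + N = N - m := by ring
    rw [e, one_mul, add_zero]
  have hmod : ∀ r < p, ((p : ℤ) ∣ (N : ℤ) - r ↔ r = N % p) := by
    intro r hr
    constructor
    · intro h
      have h1 : r ≡ N [MOD p] := by
        rw [← Int.natCast_modEq_iff]
        exact (Int.modEq_iff_dvd).2 h
      have h2 : r % p = N % p := h1
      rwa [Nat.mod_eq_of_lt hr] at h2
    · rintro rfl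
      exact mod_dvd' p N
  have hset : (range p).filter (fun r => QL gu (gv N) p r) = {0, N % p} := by
    ext r
    rw [mem_filter, mem_range, mem_insert, mem_singleton, hQ]
    constructor
    · rintro ⟨h1, h2 | h2⟩
      · left
        have h3 : p ∣ r := by exact_mod_cast h2
        exact Nat.eq_zero_of_dvd_of_lt h3 h1
      · right
        exact (hmod r h1).1 h2
    · rintro (h | h)
      · rw [h]
        exact ⟨hp.pos, Or.inl (by simp)⟩
      · have h1 : r < p := by
          rw [h]
          exact Nat.mod_lt _ hp.pos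
        exact ⟨h1, Or.inr ((hmod r h1).2 h)⟩
  unfold nuB
  rw [hset]
  split_ifs with h
  · rw [Nat.mod_eq_zero_of_dvd h]
    simp
  · rw [card_pair]
    intro h0
    exact h (Nat.dvd_of_mod_eq_zero h0.symm)

open Classical in
lemma gold_V (N y : ℕ) : Vq (QL gu (gv N)) y =
    ∏ p ∈ (Finset.range (y + 1)).filter Nat.Prime, (1 - (if p ∣ N then 1 else 2) / (p : ℝ)) := by
  unfold Vq
  apply Finset.prod_congr
  · unfold pz
    ext p
    simp only [mem_filter, mem_Icc, mem_range]
    constructor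
    · rintro ⟨h1, h2⟩
      exact ⟨by omega, h2⟩
    · rintro ⟨h1, h2⟩
      exact ⟨⟨h2.one_lt.le, by omega⟩, h2⟩
  · intro p hp
    rw [mem_filter] at hp
    rw [nu_gold N p hp.2]
    split_ifs <;> simp

end Pool.Agent.TH464.PO
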