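import Pool.Agent.TH464.PO.LinExact
import Pool.Agent.TH464.PO.Gold

set_option autoImplicit false

/-!
# Goldbach with almost primes: exact density, packaged
-/

namespace Pool.Agent.TH464.PO

open Finset Filter
open Pool.Agent.W123.RP Pool.Agent.H373R2.T7 Pool.Agent.W123.RU

lemma log3_lt : ∀ᶠ X : ℕ in atTop, Real.log X ^ (2 + 1) < X := by
  filter_upwards [Pool.Agent.TH464.PW.logpow_rpow 3 2 1 (by norm_num) one_pos,
    eventually_ge_atTop 3] with X hX hX3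
  rw [Real.rpow_one] at hX
  have h1 : 0 < Real.log (X : ℝ) ^ 3 := by
    apply pow_pos
    exact Real.log_pos (by exact_mod_cast (by omega : 1 < X))
  have e : (2 + 1 : ℕ) = 3 := rfl
  rw [e]
  linarith

open Classical in
/-- exact density for the almost prime Goldbach representations -/
theorem gold_ex (θ : ℝ) (hθ : 0 < θ) (ε : ℝ) (hε : 0 < ε) :
    ∃ (κ : ℝ) (r0 : ℕ), 0 < κ ∧ ∀ r : ℕ, r0 ≤ r → ∀ᶠ N : ℕ in atTop, 2 ∣ N →
      ∀ (g : ℕ → Prop) (V : ℝ), (∀ m ≤ N, GP r N m ↔ g m) →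
      Vq (QL gu (gv N)) ⌊(N : ℝ) ^ (1 / (r : ℝ))⌋₊ = V →
      ∀ Z Y : ℕ, (N : ℝ) ^ θ ≤ Z → (N : ℝ) ^ θ ≤ Y → Z + Y ≤ N →
      (((Ioc Z (Z + Y)).filter (fun n => ¬ ∀ a b : ℕ, Z ≤ a → a < n → n ≤ b → b ≤ Z + Y →
        κ ≤ ((b : ℝ) - a) * V →
        |(((Ioc a b).filter (fun m => g m)).card : ℝ) - (b - a) * V| ≤
          ε * ((b - a) * V))).card : ℝ) ≤ ε * Y ∧
      (((Ioc Z (Z + Y)).filter (fun n => g n ∧
        ¬ ∀ a b : ℕ, Z ≤ a → a < n → n ≤ b → b ≤ Z + Y →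
        κ ≤ ((b : ℝ) - a) * V →
        |(((Ioc a b).filter (fun m => g m)).card : ℝ) - (b - a) * V| ≤
          ε * ((b - a) * V))).card : ℝ) ≤ ε * (Y * V) := by
  obtain ⟨κ, r0, hκ, h0⟩ := lp_ex 2 1 (by norm_num) θ hθ ε hε
  refine ⟨κ, max r0 1, hκ, ?_⟩
  intro r hr
  have hr1 : 1 ≤ r := (le_max_right _ _).trans hr
  have hrr : (1 : ℝ) ≤ r := by exact_mod_cast hr1
  have hpow1 : Tendsto (fun X : ℕ => (X : ℝ) ^ (1 / (r : ℝ))) atTop atTop :=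
    (tendsto_rpow_atTop (by positivity)).comp tendsto_natCast_atTop_atTop
  filter_upwards [h0 r ((le_max_left _ _).trans hr), hpow1.eventually_ge_atTop 2, log3_lt,
    eventually_ge_atTop 3] with N hX h2 hRN h3
  intro hN g V hg hV Z Y hZ hY hZY
  exact hX gu (gv N) (gLF N hN h3 _ hRN) g V N
    (fun m hm => (sf_GP r N hr1 (by omega) h2 m hm).trans (hg m hm)) hV Z Y hZ hY hZY

end Pool.Agent.TH464.PO
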