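import Pool.Agent.TH464.PO.LinExact
import Pool.Agent.TH464.PO.Two
import Pool.Agent.TH464.PO.ShiftPack

set_option autoImplicit false

/-!
# Instances of the laws for linear forms
-/

namespace Pool.Agent.TH464.PO

open Finset Filter
open Pool.Agent.W123.RP Pool.Agent.H373R2.T7 Pool.Agent.W123.RU

lemma QL_nat {K : ℕ} (a b : Fin K → ℕ) (p m : ℕ) :
    QL (fun i => (a i : ℤ)) (fun i => (b i : ℤ)) p m ↔ ∃ i, p ∣ a i * m + b i := by
  unfold QL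
  apply exists_congr
  intro i
  rw [← Int.natCast_dvd_natCast]
  push_cast
  exact Iff.rfl

/-- sifted = almost prime -/
lemma sf_nat {K : ℕ} (a b : Fin K → ℕ) (z : ℝ) (B : Fin K → ℕ) (hz : 2 ≤ z) (m : ℕ)
    (hB : ∀ i, ((a i * m + b i : ℕ) : ℝ) ≤ z ^ (B i + 1)) :
    Sf (QL (fun i => (a i : ℤ)) (fun i => (b i : ℤ))) ⌊z⌋₊ m ↔ ∀ i, APn (B i) z (a i * m + b i) := by
  have h2mem : 2 ∈ pz ⌊z⌋₊ := by
    rw [mem_pz]
    refine ⟨Nat.le_floor ?_, Nat.prime_two⟩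
    push_cast
    linarith
  constructor
  · intro h i
    have h3 : ∀ p : ℕ, p.Prime → p ∣ a i * m + b i → z < (p : ℝ) := by
      intro p hp hd
      apply not_mem_pz hp
      intro hmem
      exact h p hmem ((QL_nat a b p m).2 ⟨i, hd⟩)
    have hne : a i * m + b i ≠ 0 := by
      intro h0
      apply h 2 h2mem
      exact (QL_nat a b 2 m).2 ⟨i, by rw [h0]; exact dvd_zero _⟩
    refine ⟨?_, h3⟩
    exact length_le _ (B i) hne _ h3 (hB i) (by linarith)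
  · intro h p hp hq
    obtain ⟨i, hd⟩ := (QL_nat a b p m).1 hq
    have h1 := (h i).2 p (mem_pz.1 hp).2 hd
    have h2 := mem_pz' (by linarith) hp
    linarith

/-- size: forms at most `X ^ D` times a constant -/
lemma size_z (D r : ℕ) (hr : 1 ≤ r) (X : ℕ) (hX : 1 ≤ X) (c : ℝ) (hc : c ≤ (X : ℝ) ^ (1 / (r : ℝ)))
    (N : ℕ) (hN : (N : ℝ) ≤ c * (X : ℝ) ^ D) :
    (N : ℝ) ≤ ((X : ℝ) ^ (1 / (r : ℝ))) ^ (D * r + 1) := by
  have hX0 : (0 : ℝ) < X := by exact_mod_cast hX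
  have hr0 : (r : ℝ) ≠ 0 := by exact_mod_cast (by omega : r ≠ 0)
  have e : ((X : ℝ) ^ (1 / (r : ℝ))) ^ (D * r + 1) = (X : ℝ) ^ D * (X : ℝ) ^ (1 / (r : ℝ)) := by
    rw [pow_succ]
    congr 1
    rw [← Real.rpow_natCast, ← Real.rpow_mul hX0.le]
    have : (1 / (r : ℝ)) * ((D * r : ℕ) : ℝ) = (D : ℝ) := by
      push_cast
      field_simp
    rw [this, Real.rpow_natCast]
  rw [e]
  calc (N : ℝ) ≤ c * (X : ℝ) ^ D := hN
    _ ≤ (X : ℝ) ^ (1 / (r : ℝ)) * (X : ℝ) ^ D := by gcongr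
    _ = _ := mul_comm _ _

/-- the density of natural forms -/
lemma V_nat {K : ℕ} (a b : Fin K → ℕ) (R : ℕ → ℕ → Prop) {inst : ∀ p, DecidablePred (R p)}
    (h : ∀ p m : ℕ, (∃ i, p ∣ a i * m + b i) ↔ R p m) (y : ℕ) :
    Vq (QL (fun i => (a i : ℤ)) (fun i => (b i : ℤ))) y =
      ∏ p ∈ (Finset.range (y + 1)).filter Nat.Prime,
        (1 - (((Finset.range p).filter (R p)).card : ℝ) / p) :=
  V_gen' _ R (fun p m => (QL_nat a b p m).trans (h p m)) y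

/-! ### forms `a i m + 1` with distinct `a i` -/

lemma LF_one {K : ℕ} (hK : 2 ≤ K) (a : Fin K → ℕ) (B : ℕ) (R : ℝ) (h1 : ∀ i, 1 ≤ a i)
    (hB : ∀ i, a i ≤ B) (hinj : Function.Injective a)
    (hadm : ∀ p : ℕ, p.Prime → ∃ m : ℕ, ∀ i, ¬ p ∣ a i * m + 1) :
    LF K (fun i => (a i : ℤ)) (fun _ => ((1 : ℕ) : ℤ)) B R where
  ne := fun i => by
    have := h1 i
    exact_mod_cast (by omega : a i ≠ 0)
  bu := fun i => by
    rw [Nat.abs_cast]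
    exact_mod_cast hB i
  bv := fun i => by
    have h := h1 i
    have h' := hB i
    rw [Nat.abs_cast]
    exact_mod_cast h.trans h'
  adm := fun p hp => by
    obtain ⟨m, hm⟩ := hadm p hp
    refine ⟨m, fun i hd => hm i ?_⟩
    exact_mod_cast hd
  two := by
    refine ⟨⟨0, by omega⟩, ⟨1, by omega⟩, ?_⟩
    intro he
    have h2 : a ⟨0, by omega⟩ = a ⟨1, by omega⟩ := by
      have : (a ⟨0, by omega⟩ : ℤ) = a ⟨1, by omega⟩ := by
        simpa using he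
      exact_mod_cast this
    have h3 := hinj h2
    simp at h3
  nres := fun i j hij t ht _ he => by
    have h2 : (1 : ℤ) ≤ a i := by exact_mod_cast h1 i
    have h3 : (1 : ℤ) ≤ a j := by exact_mod_cast h1 j
    have h4 : (1 : ℤ) ≤ t := by exact_mod_cast ht
    have h5 : (a j : ℤ) ≤ a i * a j * t := by
      calc (a j : ℤ) = 1 * a j * 1 := by ring
        _ ≤ a i * a j * t := by gcongr
    push_cast at he
    linarith

/-! ### `m` and `a i m + 1` -/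

/-- the leading coefficients -/
def lu {s : ℕ} (a : Fin s → ℕ) : Fin (s + 1) → ℕ := Fin.cons 1 a

/-- the constant coefficients -/
def lv (s : ℕ) : Fin (s + 1) → ℕ := Fin.cons 0 (fun _ => 1)

lemma l_iff {s : ℕ} (a : Fin s → ℕ) (P : ℕ → Prop) (m : ℕ) :
    (∀ i, P (lu a i * m + lv s i)) ↔ P m ∧ ∀ i, P (a i * m + 1) := by
  unfold lu lv
  rw [Fin.forall_fin_succ]
  simp only [Fin.cons_zero, Fin.cons_succ, one_mul, add_zero]

lemma l_ex {s : ℕ} (a : Fin s → ℕ) (P : ℕ → Prop) (m : ℕ) :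
    (∃ i, P (lu a i * m + lv s i)) ↔ P m ∨ ∃ i, P (a i * m + 1) := by
  unfold lu lv
  rw [Fin.exists_fin_succ]
  simp only [Fin.cons_zero, Fin.cons_succ, one_mul, add_zero]

lemma l_even {s : ℕ} (a : Fin s → ℕ)
    (hadm : ∀ p : ℕ, p.Prime → ∃ m : ℕ, ¬ p ∣ m ∧ ∀ i, ¬ p ∣ a i * m + 1) (i : Fin s) : 2 ∣ a i := by
  obtain ⟨m, h1, h2⟩ := hadm 2 Nat.prime_two
  have h3 := h2 i
  have h4 : 2 ∣ a i * m := by omega
  exact ((Nat.Prime.dvd_mul Nat.prime_two).1 h4).resolve_right h1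

lemma LF_ladder {s : ℕ} (hs : 1 ≤ s) (a : Fin s → ℕ) (B : ℕ) (R : ℝ) (h1 : ∀ i, 1 ≤ a i)
    (hB : ∀ i, a i ≤ B)
    (hadm : ∀ p : ℕ, p.Prime → ∃ m : ℕ, ¬ p ∣ m ∧ ∀ i, ¬ p ∣ a i * m + 1) :
    LF (s + 1) (fun i => (lu a i : ℤ)) (fun i => (lv s i : ℤ)) B R where
  ne := fun i => by
    refine Fin.cases ?_ (fun j => ?_) i
    · simp [lu]
    · have := h1 j
      simp only [lu, Fin.cons_succ]
      exact_mod_cast (by omega : a j ≠ 0)
  bu := fun i => by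
    rw [Nat.abs_cast]
    have hB1 : 1 ≤ B := (h1 ⟨0, by omega⟩).trans (hB _)
    refine Fin.cases ?_ (fun j => ?_) i
    · simp only [lu, Fin.cons_zero]
      exact_mod_cast hB1
    · simp only [lu, Fin.cons_succ]
      exact_mod_cast hB j
  bv := fun i => by
    rw [Nat.abs_cast]
    have hB1 : 1 ≤ B := (h1 ⟨0, by omega⟩).trans (hB _)
    refine Fin.cases ?_ (fun j => ?_) i
    · simp [lv]
    · simp only [lv, Fin.cons_succ]
      exact_mod_cast hB1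
  adm := fun p hp => by
    obtain ⟨m, hm0, hm⟩ := hadm p hp
    refine ⟨m, fun i => ?_⟩
    have h2 := (l_iff a (fun N => ¬ p ∣ N) m).2 ⟨hm0, hm⟩ i
    intro hd
    apply h2
    exact_mod_cast hd
  two := by
    refine ⟨0, 1, ?_⟩
    have h2 : (1 : Fin (s + 1)) = Fin.succ ⟨0, by omega⟩ := by
      ext
      simp [Fin.val_one', Nat.mod_eq_of_lt (by omega : 1 < s + 1)]
    rw [h2]
    simp only [lu, lv, Fin.cons_zero, Fin.cons_succ]
    norm_num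
  nres := fun i j hij t ht _ => by
    have h4 : (1 : ℤ) ≤ t := by exact_mod_cast ht
    have ha2 : ∀ i, (2 : ℤ) ≤ a i := by
      intro i
      have h5 := Nat.le_of_dvd (h1 i) (l_even a hadm i)
      exact_mod_cast h5
    revert hij
    refine Fin.cases ?_ (fun i' => ?_) i
    · refine Fin.cases ?_ (fun j' => ?_) j
      · intro h
        exact absurd rfl h
      · intro _ he
        simp only [lu, lv, Fin.cons_zero, Fin.cons_succ] at he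
        have h6 := ha2 j'
        have h7 : (0 : ℤ) < a j' * t := by positivity
        push_cast at he
        linarith
    · refine Fin.cases ?_ (fun j' => ?_) j
      · intro _ he
        simp only [lu, lv, Fin.cons_zero, Fin.cons_succ] at he
        have h6 := ha2 i'
        have h7 : (2 : ℤ) * 1 ≤ a i' * t := by gcongr
        push_cast at he
        linarith
      · intro hne he
        simp only [lu, lv, Fin.cons_succ] at he
        have h2 := ha2 i'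
        have h3 := ha2 j'
        have h5 : (a j' : ℤ) ≤ a i' * a j' * t := by
          calc (a j' : ℤ) = 1 * a j' * 1 := by ring
            _ ≤ a i' * a j' * t := by
              gcongr
              linarith
        push_cast at he
        linarith

/-! ### Cunningham chains -/

/-- the coefficients of the first kind -/
def c1u (k : ℕ) : Fin k → ℕ := fun i => 2 ^ (i : ℕ)

/-- the coefficients of the first kind -/
def c1v (k : ℕ) : Fin k → ℕ := fun i => 2 ^ (i : ℕ) - 1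

lemma c1_eq (k m : ℕ) (i : Fin k) : c1u k i * m + c1v k i = 2 ^ (i : ℕ) * (m + 1) - 1 := by
  unfold c1u c1v
  have : 1 ≤ 2 ^ (i : ℕ) := Nat.one_le_two_pow
  rw [mul_add, mul_one]
  omega

lemma c1_fin (k : ℕ) (P : ℕ → Prop) (m : ℕ) :
    (∀ i : Fin k, P (c1u k i * m + c1v k i)) ↔ ∀ i < k, P (2 ^ i * (m + 1) - 1) := by
  constructor
  · intro h i hi
    have := h ⟨i, hi⟩
    rwa [c1_eq] at this
  · intro h i
    rw [c1_eq]
    exact h i i.2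

lemma c1_ex (k : ℕ) (P : ℕ → Prop) (m : ℕ) :
    (∃ i : Fin k, P (c1u k i * m + c1v k i)) ↔ ∃ i < k, P (2 ^ i * (m + 1) - 1) := by
  constructor
  · rintro ⟨i, hi⟩
    rw [c1_eq] at hi
    exact ⟨i, i.2, hi⟩
  · rintro ⟨i, hi, h⟩
    refine ⟨⟨i, hi⟩, ?_⟩
    rwa [c1_eq]

lemma LF_c1 (k : ℕ) (hk : 2 ≤ k) (B : ℕ) (R : ℝ) (hB : 2 ^ k ≤ B) :
    LF k (fun i => (c1u k i : ℤ)) (fun i => (c1v k i : ℤ)) B R where
  ne := fun i => by
    unfold c1u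
    exact_mod_cast (by positivity : (2 : ℕ) ^ (i : ℕ) ≠ 0)
  bu := fun i => by
    rw [Nat.abs_cast]
    unfold c1u
    exact_mod_cast (Nat.pow_le_pow_right (by norm_num) i.2.le).trans hB
  bv := fun i => by
    rw [Nat.abs_cast]
    unfold c1v
    have h1 := (Nat.pow_le_pow_right (n := 2) (by norm_num) i.2.le).trans hB
    exact_mod_cast (by omega : 2 ^ (i : ℕ) - 1 ≤ B)
  adm := fun p hp => by
    refine ⟨p - 1, fun i hd => ?_⟩
    have h1 : p ∣ c1u k i * (p - 1) + c1v k i := by exact_mod_cast hd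
    rw [c1_eq, Nat.sub_add_cancel hp.one_lt.le] at h1
    have h2 : p ∣ 2 ^ (i : ℕ) * p := dvd_mul_left _ _
    have h3 : 1 ≤ 2 ^ (i : ℕ) * p := Nat.mul_pos (by positivity) hp.pos
    have h4 := (Nat.dvd_sub h2 h1)
    have e : 2 ^ (i : ℕ) * p - (2 ^ (i : ℕ) * p - 1) = 1 := by omega
    rw [e] at h4
    exact hp.one_lt.ne' (Nat.dvd_one.1 h4)
  two := by
    refine ⟨⟨0, by omega⟩, ⟨1, by omega⟩, ?_⟩
    simp [c1u, c1v]
  nres := fun i j hij t ht _ he => by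
    unfold c1u c1v at he
    have hi1 : 1 ≤ 2 ^ (i : ℕ) := Nat.one_le_two_pow
    have hj1 : 1 ≤ 2 ^ (j : ℕ) := Nat.one_le_two_pow
    rw [Nat.cast_sub hi1, Nat.cast_sub hj1] at he
    push_cast at he
    have h4 : (1 : ℤ) ≤ t := by exact_mod_cast ht
    have h2 : (1 : ℤ) ≤ 2 ^ (i : ℕ) := by exact_mod_cast hi1
    have h3 : (1 : ℤ) ≤ 2 ^ (j : ℕ) := by exact_mod_cast hj1
    have h5 : (2 : ℤ) ^ (i : ℕ) ≤ 2 ^ (i : ℕ) * 2 ^ (j : ℕ) * t := by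
      calc (2 : ℤ) ^ (i : ℕ) = 2 ^ (i : ℕ) * 1 * 1 := by ring
        _ ≤ 2 ^ (i : ℕ) * 2 ^ (j : ℕ) * t := by gcongr
    have e : (2 : ℤ) ^ (j : ℕ) * (2 ^ (i : ℕ) - 1) - 2 ^ (i : ℕ) * (2 ^ (j : ℕ) - 1) =
        2 ^ (i : ℕ) - 2 ^ (j : ℕ) := by ring
    rw [e] at he
    linarith

/-- the coefficients of the second kind -/
def c2u (k : ℕ) : Fin k → ℕ := fun i => 2 ^ (i : ℕ)

lemma c2_fin (k : ℕ) (P : ℕ → Prop) (m : ℕ) :
    (∀ i : Fin k, P (c2u k i * m + 1)) ↔ ∀ i < k, P (2 ^ i * m + 1) := by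
  constructor
  · intro h i hi
    exact h ⟨i, hi⟩
  · intro h i
    exact h i i.2

lemma c2_ex (k : ℕ) (P : ℕ → Prop) (m : ℕ) :
    (∃ i : Fin k, P (c2u k i * m + 1)) ↔ ∃ i < k, P (2 ^ i * m + 1) := by
  constructor
  · rintro ⟨i, hi⟩
    exact ⟨i, i.2, hi⟩
  · rintro ⟨i, hi, h⟩
    exact ⟨⟨i, hi⟩, h⟩

lemma LF_c2 (k : ℕ) (hk : 2 ≤ k) (B : ℕ) (R : ℝ) (hB : 2 ^ k ≤ B) :
    LF k (fun i => (c2u k i : ℤ)) (fun _ => ((1 : ℕ) : ℤ)) B R := by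
  apply LF_one hk (c2u k) B R
  · intro i
    exact Nat.one_le_two_pow
  · intro i
    exact (Nat.pow_le_pow_right (by norm_num) i.2.le).trans hB
  · intro i j h
    ext
    exact Nat.pow_right_injective le_rfl h
  · intro p hp
    refine ⟨0, fun i hd => ?_⟩
    rw [mul_zero, zero_add] at hd
    exact hp.one_lt.ne' (Nat.dvd_one.1 hd)

/-! ### families -/

open Classical in
/-- Poisson for a family of systems -/
theorem fam_pois {ι : Type*} (K A : ℕ) (hK : 1 ≤ K) (Ad : ℕ → ι → Prop) (g : ℕ → ℕ → ι → ℕ → Prop)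
    (V : ℕ → ℕ → ι → ℝ)
    (hfam : ∀ r : ℕ, 1 ≤ r → ∀ᶠ X : ℕ in atTop, ∀ i : ι, Ad X i → ∃ u v : Fin K → ℤ,
      LF K u v (X ^ A) (Real.log X ^ (K + 1)) ∧
      (∀ m ≤ 3 * X, Sf (QL u v) ⌊(X : ℝ) ^ (1 / (r : ℝ))⌋₊ m ↔ g r X i m) ∧
      Vq (QL u v) ⌊(X : ℝ) ^ (1 / (r : ℝ))⌋₊ = V r X i)
    (θ : ℝ) (hθ : 0 < θ) (x ε : ℝ) (hε : 0 < ε) :
    ∃ r0 : ℕ, ∀ r : ℕ, r0 ≤ r → ∀ᶠ X : ℕ in atTop, ∀ i : ι, Ad X i →
      ∀ Z Y : ℕ, (X : ℝ) ^ θ ≤ Y → Z + Y ≤ 2 * X → ∀ T : ℕ, T * V r X i ≤ x → ∀ E : Finset ℕ,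
        |(((Ioc Z (Z + Y)).filter (fun n => ((Ioc n (n + T)).filter
          (fun m => g r X i m)).card ∈ E)).card : ℝ) -
          Y * ∑ j ∈ E, Real.exp (-(T * V r X i)) * (T * V r X i) ^ j / j.factorial| ≤ ε * Y := by
  obtain ⟨r0, h0⟩ := lp_pois K A hK θ hθ x ε hε
  refine ⟨max r0 2, ?_⟩
  intro r hr
  have hr2 : 2 ≤ r := (le_max_right _ _).trans hr
  filter_upwards [h0 r ((le_max_left _ _).trans hr), hfam r (by omega), lin_short K A x r hr2]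
    with X hX hF hs
  intro i hi Z Y hXY hZY T hT E
  obtain ⟨u, v, hLF, hg, hV⟩ := hF i hi
  have hTX := hs u v hLF T (by rw [hV]; exact hT)
  exact hX u v hLF (g r X i) (V r X i) (3 * X) hg hV Z Y hXY T (by omega) hT E

open Classical in
/-- gaps for a family of systems -/
theorem fam_gaps {ι : Type*} (K A : ℕ) (hK : 1 ≤ K) (Ad : ℕ → ι → Prop) (g : ℕ → ℕ → ι → ℕ → Prop)
    (V : ℕ → ℕ → ι → ℝ)
    (hfam : ∀ r : ℕ, 1 ≤ r → ∀ᶠ X : ℕ in atTop, ∀ i : ι, Ad X i → ∃ u v : Fin K → ℤ,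
      LF K u v (X ^ A) (Real.log X ^ (K + 1)) ∧
      (∀ m ≤ 3 * X, Sf (QL u v) ⌊(X : ℝ) ^ (1 / (r : ℝ))⌋₊ m ↔ g r X i m) ∧
      Vq (QL u v) ⌊(X : ℝ) ^ (1 / (r : ℝ))⌋₊ = V r X i)
    (θ : ℝ) (hθ : 0 < θ) (k0 : ℕ) (x ε : ℝ) (hε : 0 < ε) :
    ∃ r0 : ℕ, ∀ r : ℕ, r0 ≤ r → ∀ᶠ X : ℕ in atTop, ∀ i : ι, Ad X i →
      ∀ Z Y : ℕ, (X : ℝ) ^ θ ≤ Y → Z + Y ≤ 2 * X → ∀ k T : ℕ, (k ≤ k0 ∨ T * V r X i ≤ x) →
        |(((Ioc Z (Z + Y)).filter (fun b => g r X i b ∧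
          ((Ico (b - T) b).filter (fun m => g r X i m)).card < k)).card : ℝ) - Y * V r X i *
          ∑ j ∈ Finset.range k, Real.exp (-(T * V r X i)) * (T * V r X i) ^ j / j.factorial| ≤
            ε * (Y * V r X i) := by
  obtain ⟨r0, h0⟩ := lp_gaps K A hK θ hθ k0 x ε hε
  refine ⟨max r0 1, ?_⟩
  intro r hr
  filter_upwards [h0 r ((le_max_left _ _).trans hr), hfam r ((le_max_right _ _).trans hr)]
    with X hX hF
  intro i hi Z Y hXY hZY k T hT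
  obtain ⟨u, v, hLF, hg, hV⟩ := hF i hi
  exact hX u v hLF (g r X i) (V r X i) (3 * X) hg hV Z Y hXY (by omega) k T hT

open Classical in
/-- exact density for a family of systems -/
theorem fam_ex {ι : Type*} (K A : ℕ) (hK : 1 ≤ K) (Ad : ℕ → ι → Prop) (g : ℕ → ℕ → ι → ℕ → Prop)
    (V : ℕ → ℕ → ι → ℝ)
    (hfam : ∀ r : ℕ, 1 ≤ r → ∀ᶠ X : ℕ in atTop, ∀ i : ι, Ad X i → ∃ u v : Fin K → ℤ,
      LF K u v (X ^ A) (Real.log X ^ (K + 1)) ∧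
      (∀ m ≤ 3 * X, Sf (QL u v) ⌊(X : ℝ) ^ (1 / (r : ℝ))⌋₊ m ↔ g r X i m) ∧
      Vq (QL u v) ⌊(X : ℝ) ^ (1 / (r : ℝ))⌋₊ = V r X i)
    (θ : ℝ) (hθ : 0 < θ) (ε : ℝ) (hε : 0 < ε) :
    ∃ (κ : ℝ) (r0 : ℕ), 0 < κ ∧ ∀ r : ℕ, r0 ≤ r → ∀ᶠ X : ℕ in atTop, ∀ i : ι, Ad X i →
      ∀ Z Y : ℕ, (X : ℝ) ^ θ ≤ Z → (X : ℝ) ^ θ ≤ Y → Z + Y ≤ 2 * X →
      (((Ioc Z (Z + Y)).filter (fun n => ¬ ∀ a b : ℕ, Z ≤ a → a < n → n ≤ b → b ≤ Z + Y →
        κ ≤ ((b : ℝ) - a) * V r X i →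
        |(((Ioc a b).filter (fun m => g r X i m)).card : ℝ) - (b - a) * V r X i| ≤
          ε * ((b - a) * V r X i))).card : ℝ) ≤ ε * Y ∧
      (((Ioc Z (Z + Y)).filter (fun n => g r X i n ∧
        ¬ ∀ a b : ℕ, Z ≤ a → a < n → n ≤ b → b ≤ Z + Y →
        κ ≤ ((b : ℝ) - a) * V r X i →
        |(((Ioc a b).filter (fun m => g r X i m)).card : ℝ) - (b - a) * V r X i| ≤
          ε * ((b - a) * V r X i))).card : ℝ) ≤ ε * (Y * V r X i) := by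
  obtain ⟨κ, r0, hκ, h0⟩ := lp_ex K A hK θ hθ ε hε
  refine ⟨κ, max r0 1, hκ, ?_⟩
  intro r hr
  filter_upwards [h0 r ((le_max_left _ _).trans hr), hfam r ((le_max_right _ _).trans hr)]
    with X hX hF
  intro i hi Z Y hXZ hXY hZY
  obtain ⟨u, v, hLF, hg, hV⟩ := hF i hi
  exact hX u v hLF (g r X i) (V r X i) (3 * X) hg hV Z Y hXZ hXY (by omega)

/-! ### the families of the problems -/

/-- large `X` -/
lemma ev_z (r : ℕ) (hr : 1 ≤ r) (c : ℝ) : ∀ᶠ X : ℕ in atTop, c ≤ (X : ℝ) ^ (1 / (r : ℝ)) := by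
  have hr0 : (0 : ℝ) < r := by exact_mod_cast hr
  exact ((tendsto_rpow_atTop (by positivity)).comp tendsto_natCast_atTop_atTop).eventually_ge_atTop c

/-- chains of the first kind -/
lemma c1_fam (k : ℕ) (hk : 2 ≤ k) (r : ℕ) (hr : 1 ≤ r) : ∀ᶠ X : ℕ in atTop,
    LF k (fun i => (c1u k i : ℤ)) (fun i => (c1v k i : ℤ)) (X ^ 1) (Real.log X ^ (k + 1)) ∧
    ∀ m ≤ 3 * X, (Sf (QL (fun i => (c1u k i : ℤ)) (fun i => (c1v k i : ℤ)))
      ⌊(X : ℝ) ^ (1 / (r : ℝ))⌋₊ m ↔ ∀ i < k, APn r ((X : ℝ) ^ (1 / (r : ℝ))) (2 ^ i * (m + 1) - 1)) := by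
  filter_upwards [ev_z r hr 2, ev_z r hr (2 ^ k * 4), eventually_ge_atTop (2 ^ k),
    eventually_ge_atTop 1] with X h2 h4 hXk hX1
  refine ⟨LF_c1 k hk _ _ (by rwa [pow_one]), fun m hm => ?_⟩
  rw [sf_nat (c1u k) (c1v k) _ (fun _ => r) h2 m, c1_fin k (fun N => APn r _ N) m]
  intro i
  have h5 := size_z 1 r hr X hX1 (2 ^ k * 4) h4 (c1u k i * m + c1v k i) (by
    rw [c1_eq, pow_one]
    have h6 : 2 ^ (i : ℕ) * (m + 1) - 1 ≤ 2 ^ k * (4 * X) := by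
      refine (Nat.sub_le _ _).trans ?_
      exact Nat.mul_le_mul (Nat.pow_le_pow_right (by norm_num) i.2.le) (by omega)
    calc ((2 ^ (i : ℕ) * (m + 1) - 1 : ℕ) : ℝ) ≤ ((2 ^ k * (4 * X) : ℕ) : ℝ) := by exact_mod_cast h6
      _ = 2 ^ k * 4 * X := by push_cast; ring)
  rwa [one_mul] at h5

/-- chains of the second kind -/
lemma c2_fam (k : ℕ) (hk : 2 ≤ k) (r : ℕ) (hr : 1 ≤ r) : ∀ᶠ X : ℕ in atTop,
    LF k (fun i => (c2u k i : ℤ)) (fun _ => ((1 : ℕ) : ℤ)) (X ^ 1) (Real.log X ^ (k + 1)) ∧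
    ∀ m ≤ 3 * X, (Sf (QL (fun i => (c2u k i : ℤ)) (fun _ => ((1 : ℕ) : ℤ)))
      ⌊(X : ℝ) ^ (1 / (r : ℝ))⌋₊ m ↔ ∀ i < k, APn r ((X : ℝ) ^ (1 / (r : ℝ))) (2 ^ i * m + 1)) := by
  filter_upwards [ev_z r hr 2, ev_z r hr (2 ^ k * 4), eventually_ge_atTop (2 ^ k),
    eventually_ge_atTop 1] with X h2 h4 hXk hX1
  refine ⟨LF_c2 k hk _ _ (by rwa [pow_one]), fun m hm => ?_⟩
  rw [sf_nat (c2u k) (fun _ => 1) _ (fun _ => r) h2 m, c2_fin k (fun N => APn r _ N) m]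
  intro i
  have h5 := size_z 1 r hr X hX1 (2 ^ k * 4) h4 (c2u k i * m + 1) (by
    unfold c2u
    rw [pow_one]
    have h6 : 2 ^ (i : ℕ) * m + 1 ≤ 2 ^ k * (4 * X) := by
      calc 2 ^ (i : ℕ) * m + 1 ≤ 2 ^ k * m + 2 ^ k * 1 := by
            apply Nat.add_le_add
            · exact Nat.mul_le_mul_right _ (Nat.pow_le_pow_right (by norm_num) i.2.le)
            · rw [mul_one]
              exact Nat.one_le_two_pow
        _ = 2 ^ k * (m + 1) := by ring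
        _ ≤ 2 ^ k * (4 * X) := Nat.mul_le_mul_left _ (by omega)
    calc ((2 ^ (i : ℕ) * m + 1 : ℕ) : ℝ) ≤ ((2 ^ k * (4 * X) : ℕ) : ℝ) := by exact_mod_cast h6
      _ = 2 ^ k * 4 * X := by push_cast; ring)
  rwa [one_mul] at h5

/-- `a i m + 1` -/
lemma one_fam (K D : ℕ) (hK : 2 ≤ K) (r : ℕ) (hr : 1 ≤ r) : ∀ᶠ X : ℕ in atTop, ∀ a : Fin K → ℕ,
    (∀ i, 1 ≤ a i) → (∀ i, a i ≤ X ^ D) → Function.Injective a →
    (∀ p : ℕ, p.Prime → ∃ m : ℕ, ∀ i, ¬ p ∣ a i * m + 1) →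
    LF K (fun i => (a i : ℤ)) (fun _ => ((1 : ℕ) : ℤ)) (X ^ D) (Real.log X ^ (K + 1)) ∧
    ∀ m ≤ 3 * X, (Sf (QL (fun i => (a i : ℤ)) (fun _ => ((1 : ℕ) : ℤ)))
      ⌊(X : ℝ) ^ (1 / (r : ℝ))⌋₊ m ↔
        ∀ i, APn ((D + 1) * r) ((X : ℝ) ^ (1 / (r : ℝ))) (a i * m + 1)) := by
  filter_upwards [ev_z r hr 2, ev_z r hr 4, eventually_ge_atTop 1] with X h2 h4 hX1
  intro a h1 hB hinj hadm
  refine ⟨LF_one hK a _ _ h1 hB hinj hadm, fun m hm => ?_⟩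
  rw [sf_nat a (fun _ => 1) _ (fun _ => (D + 1) * r) h2 m]
  intro i
  apply size_z (D + 1) r hr X hX1 4 h4 (a i * m + 1)
  have hXD : 1 ≤ X ^ D := Nat.pos_of_ne_zero (pow_pos hX1 D).ne'
  have h6 : a i * m + 1 ≤ 4 * X ^ (D + 1) := by
    calc a i * m + 1 ≤ X ^ D * (3 * X) + X ^ D * X := by
          apply Nat.add_le_add
          · exact Nat.mul_le_mul (hB i) hm
          · exact Nat.mul_pos hXD hX1
      _ = 4 * X ^ (D + 1) := by ring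
  exact_mod_cast h6

/-- `m` and `a i m + 1` -/
lemma ladder_fam (s D : ℕ) (hs : 1 ≤ s) (r : ℕ) (hr : 1 ≤ r) : ∀ᶠ X : ℕ in atTop, ∀ a : Fin s → ℕ,
    (∀ i, 1 ≤ a i) → (∀ i, a i ≤ X ^ D) →
    (∀ p : ℕ, p.Prime → ∃ m : ℕ, ¬ p ∣ m ∧ ∀ i, ¬ p ∣ a i * m + 1) →
    LF (s + 1) (fun i => (lu a i : ℤ)) (fun i => (lv s i : ℤ)) (X ^ D) (Real.log X ^ (s + 1 + 1)) ∧
    ∀ m ≤ 3 * X, (Sf (QL (fun i => (lu a i : ℤ)) (fun i => (lv s i : ℤ)))
      ⌊(X : ℝ) ^ (1 / (r : ℝ))⌋₊ m ↔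
        APn r ((X : ℝ) ^ (1 / (r : ℝ))) m ∧
        ∀ i, APn ((D + 1) * r) ((X : ℝ) ^ (1 / (r : ℝ))) (a i * m + 1)) := by
  filter_upwards [ev_z r hr 2, ev_z r hr 4, eventually_ge_atTop 1] with X h2 h4 hX1
  intro a h1 hB hadm
  refine ⟨LF_ladder hs a _ _ h1 hB hadm, fun m hm => ?_⟩
  rw [sf_nat (lu a) (lv s) _ (Fin.cons r (fun _ => (D + 1) * r)) h2 m]
  · rw [Fin.forall_fin_succ]
    simp only [lu, lv, Fin.cons_zero, Fin.cons_succ, one_mul, add_zero]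
  · have hXD : 1 ≤ X ^ D := Nat.pos_of_ne_zero (pow_pos hX1 D).ne'
    intro i
    refine Fin.cases ?_ (fun j => ?_) i
    · simp only [lu, lv, Fin.cons_zero, one_mul, add_zero]
      have h5 := size_z 1 r hr X hX1 4 h4 m (by
        rw [pow_one]
        have : m ≤ 4 * X := by omega
        exact_mod_cast this)
      rwa [one_mul] at h5
    · simp only [lu, lv, Fin.cons_succ]
      apply size_z (D + 1) r hr X hX1 4 h4 (a j * m + 1)
      have h6 : a j * m + 1 ≤ 4 * X ^ (D + 1) := by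
        calc a j * m + 1 ≤ X ^ D * (3 * X) + X ^ D * X := by
              apply Nat.add_le_add
              · exact Nat.mul_le_mul (hB j) hm
              · exact Nat.mul_pos hXD hX1
          _ = 4 * X ^ (D + 1) := by ring
      exact_mod_cast h6

end Pool.Agent.TH464.PO
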