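import Pool.Agent.TH464.PO.MomLaw
import Pool.Agent.TH464.PO.LinInst
import Pool.Agent.TH464.PO.GoldPack

set_option autoImplicit false

/-!
# Families of linear forms: the joint laws and the mixed moments
-/

namespace Pool.Agent.TH464.PO

open Finset Filter
open Pool.Agent.W123.RP Pool.Agent.H373R2.T7 Pool.Agent.W123.RU
open Pool.Agent.TH464.PW

open Classical in
/-- the joint law for a family of systems -/
theorem fam_joint {ι : Type*} (K A : ℕ) (hK : 1 ≤ K) (Ad : ℕ → ι → Prop) (g : ℕ → ℕ → ι → ℕ → Prop)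
    (V : ℕ → ℕ → ι → ℝ)
    (hfam : ∀ r : ℕ, 1 ≤ r → ∀ᶠ X : ℕ in atTop, ∀ i : ι, Ad X i → ∃ u v : Fin K → ℤ,
      LF K u v (X ^ A) (Real.log X ^ (K + 1)) ∧
      (∀ m ≤ 3 * X, Sf (QL u v) ⌊(X : ℝ) ^ (1 / (r : ℝ))⌋₊ m ↔ g r X i m) ∧
      Vq (QL u v) ⌊(X : ℝ) ^ (1 / (r : ℝ))⌋₊ = V r X i)
    (θ : ℝ) (hθ : 0 < θ) (s : ℕ) (x ε : ℝ) (hε : 0 < ε) :
    ∃ r0 : ℕ, ∀ r : ℕ, r0 ≤ r → ∀ᶠ X : ℕ in atTop, ∀ i : ι, Ad X i →
      ∀ Z Y : ℕ, (X : ℝ) ^ θ ≤ Y → Z + Y ≤ 2 * X →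
      ∀ a b : Fin s → ℕ, (∀ i, a i ≤ b i) → (∀ j, b j * V r X i ≤ x) →
      (∀ i j, i ≠ j → b i ≤ a j ∨ b j ≤ a i) → ∀ E : Fin s → Finset ℕ,
        |(((Ioc Z (Z + Y)).filter (fun n => ∀ j, ((Ioc (n + a j) (n + b j)).filter
          (fun m => g r X i m)).card ∈ E j)).card : ℝ) -
          Y * ∏ j, ∑ l ∈ E j, Real.exp (-(((b j : ℝ) - a j) * V r X i)) *
            (((b j : ℝ) - a j) * V r X i) ^ l / l.factorial| ≤ ε * Y := by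
  obtain ⟨r0, h0⟩ := lp_joint K A hK θ hθ s x ε hε
  refine ⟨max r0 2, ?_⟩
  intro r hr
  have hr2 : 2 ≤ r := (le_max_right _ _).trans hr
  filter_upwards [h0 r ((le_max_left _ _).trans hr), hfam r (by omega), lin_short K A x r hr2]
    with X hX hF hs
  intro i hi Z Y hXY hZY a b hab hb hdis E
  obtain ⟨u, v, hLF, hg, hV⟩ := hF i hi
  exact hX u v hLF (g r X i) (V r X i) (3 * X) hg hV Z Y hXY a b hab hb (fun j => by
    have := hs u v hLF (b j) (by rw [hV]; exact hb j)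
    omega) hdis E

open Classical in
/-- the joint law around the elements, for a family of systems -/
theorem fam_palm {ι : Type*} (K A : ℕ) (hK : 1 ≤ K) (Ad : ℕ → ι → Prop) (g : ℕ → ℕ → ι → ℕ → Prop)
    (V : ℕ → ℕ → ι → ℝ)
    (hfam : ∀ r : ℕ, 1 ≤ r → ∀ᶠ X : ℕ in atTop, ∀ i : ι, Ad X i → ∃ u v : Fin K → ℤ,
      LF K u v (X ^ A) (Real.log X ^ (K + 1)) ∧
      (∀ m ≤ 3 * X, Sf (QL u v) ⌊(X : ℝ) ^ (1 / (r : ℝ))⌋₊ m ↔ g r X i m) ∧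
      Vq (QL u v) ⌊(X : ℝ) ^ (1 / (r : ℝ))⌋₊ = V r X i)
    (θ : ℝ) (hθ : 0 < θ) (s : ℕ) (x ε : ℝ) (hε : 0 < ε) :
    ∃ r0 : ℕ, ∀ r : ℕ, r0 ≤ r → ∀ᶠ X : ℕ in atTop, ∀ i : ι, Ad X i →
      ∀ Z Y : ℕ, (X : ℝ) ^ θ ≤ Y → Z + Y ≤ 2 * X →
      ∀ (c : ℕ) (a b : Fin s → ℕ), c * V r X i ≤ x → (∀ i, a i ≤ b i) → (∀ j, b j * V r X i ≤ x) →
      (∀ i, b i < c ∨ c ≤ a i) → (∀ i j, i ≠ j → b i ≤ a j ∨ b j ≤ a i) → ∀ E : Fin s → Finset ℕ,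
        |(((Ioc Z (Z + Y)).filter (fun m => g r X i m ∧ ∀ j,
          ((Ioc (m + a j - c) (m + b j - c)).filter (fun k => g r X i k)).card ∈ E j)).card : ℝ) -
          Y * V r X i * ∏ j, ∑ l ∈ E j, Real.exp (-(((b j : ℝ) - a j) * V r X i)) *
            (((b j : ℝ) - a j) * V r X i) ^ l / l.factorial| ≤ ε * (Y * V r X i) := by
  obtain ⟨r0, h0⟩ := lp_palm K A hK θ hθ s x ε hε
  refine ⟨max r0 2, ?_⟩
  intro r hr
  have hr2 : 2 ≤ r := (le_max_right _ _).trans hr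
  filter_upwards [h0 r ((le_max_left _ _).trans hr), hfam r (by omega), lin_short K A x r hr2]
    with X hX hF hs
  intro i hi Z Y hXY hZY c a b hcV hab hb hc hdis E
  obtain ⟨u, v, hLF, hg, hV⟩ := hF i hi
  exact hX u v hLF (g r X i) (V r X i) (3 * X) hg hV Z Y hXY (by omega) c a b hcV hab hb (fun j => by
    have := hs u v hLF (b j) (by rw [hV]; exact hb j)
    omega) hc hdis E

open Classical in
/-- the mixed moments for a family of systems -/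
theorem fam_mom {ι : Type*} (K A : ℕ) (hK : 1 ≤ K) (Ad : ℕ → ι → Prop) (g : ℕ → ℕ → ι → ℕ → Prop)
    (V : ℕ → ℕ → ι → ℝ)
    (hfam : ∀ r : ℕ, 1 ≤ r → ∀ᶠ X : ℕ in atTop, ∀ i : ι, Ad X i → ∃ u v : Fin K → ℤ,
      LF K u v (X ^ A) (Real.log X ^ (K + 1)) ∧
      (∀ m ≤ 3 * X, Sf (QL u v) ⌊(X : ℝ) ^ (1 / (r : ℝ))⌋₊ m ↔ g r X i m) ∧
      Vq (QL u v) ⌊(X : ℝ) ^ (1 / (r : ℝ))⌋₊ = V r X i)
    (θ : ℝ) (hθ : 0 < θ) {s : ℕ} (k : Fin s → ℕ) (x ε : ℝ) (hε : 0 < ε) :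
    ∃ r0 : ℕ, ∀ r : ℕ, r0 ≤ r → ∀ᶠ X : ℕ in atTop, ∀ i : ι, Ad X i →
      ∀ Z Y : ℕ, (X : ℝ) ^ θ ≤ Y → Z + Y ≤ 2 * X →
      ∀ a b : Fin s → ℕ, (∀ i, a i ≤ b i) → (∀ j, b j * V r X i ≤ x) →
      (∀ i j, i ≠ j → b i ≤ a j ∨ b j ≤ a i) →
        |∑ n ∈ Ioc Z (Z + Y), ∏ j, ((((Ioc (n + a j) (n + b j)).filter
            (fun m => g r X i m)).card.choose (k j) : ℕ) : ℝ) -
          Y * ∏ j, ((((b j : ℝ) - a j) * V r X i) ^ (k j) / (k j).factorial)| ≤ ε * Y := by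
  obtain ⟨r0, h0⟩ := lp_mom K A hK θ hθ k x ε hε
  refine ⟨max r0 2, ?_⟩
  intro r hr
  have hr2 : 2 ≤ r := (le_max_right _ _).trans hr
  filter_upwards [h0 r ((le_max_left _ _).trans hr), hfam r (by omega), lin_short K A x r hr2]
    with X hX hF hs
  intro i hi Z Y hXY hZY
  obtain ⟨u, v, hLF, hg, hV⟩ := hF i hi
  exact hX u v hLF (g r X i) (V r X i) (3 * X) hg hV Z Y hXY (fun b hb => by
    have := hs u v hLF b (by rw [hV]; exact hb)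
    omega)

/-! ### Goldbach -/

open Classical in
/-- the joint law for the almost prime Goldbach representations -/
theorem gold_joint (θ : ℝ) (hθ : 0 < θ) (s : ℕ) (x ε : ℝ) (hε : 0 < ε) :
    ∃ r0 : ℕ, ∀ r : ℕ, r0 ≤ r → ∀ᶠ N : ℕ in atTop, 2 ∣ N →
      ∀ (g : ℕ → Prop) (V : ℝ), (∀ m ≤ N, GP r N m ↔ g m) →
      Vq (QL gu (gv N)) ⌊(N : ℝ) ^ (1 / (r : ℝ))⌋₊ = V →
      ∀ Z Y : ℕ, (N : ℝ) ^ θ ≤ Y → ∀ a b : Fin s → ℕ, (∀ i, a i ≤ b i) → (∀ i, b i * V ≤ x) →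
      (∀ i, Z + Y + b i ≤ N) → (∀ i j, i ≠ j → b i ≤ a j ∨ b j ≤ a i) → ∀ E : Fin s → Finset ℕ,
        |(((Ioc Z (Z + Y)).filter (fun n => ∀ i, ((Ioc (n + a i) (n + b i)).filter
          (fun m => g m)).card ∈ E i)).card : ℝ) -
          Y * ∏ i, ∑ j ∈ E i, Real.exp (-(((b i : ℝ) - a i) * V)) *
            (((b i : ℝ) - a i) * V) ^ j / j.factorial| ≤ ε * Y := by
  obtain ⟨r0, h0⟩ := lp_joint 2 1 (by norm_num) θ hθ s x ε hε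
  refine ⟨max r0 1, ?_⟩
  intro r hr
  have hr1 : 1 ≤ r := (le_max_right _ _).trans hr
  have hrr : (1 : ℝ) ≤ r := by exact_mod_cast hr1
  have hpow1 : Tendsto (fun X : ℕ => (X : ℝ) ^ (1 / (r : ℝ))) atTop atTop :=
    (tendsto_rpow_atTop (by positivity)).comp tendsto_natCast_atTop_atTop
  filter_upwards [h0 r ((le_max_left _ _).trans hr), hpow1.eventually_ge_atTop 2, log3_lt,
    eventually_ge_atTop 3] with N hX h2 hRN h3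
  intro hN g V hg hV Z Y hY a b hab hb hM hdis E
  exact hX gu (gv N) (gLF N hN h3 _ hRN) g V N
    (fun m hm => (sf_GP r N hr1 (by omega) h2 m hm).trans (hg m hm)) hV Z Y hY a b hab hb hM hdis E

open Classical in
/-- the joint law around the almost prime Goldbach representations -/
theorem gold_palm (θ : ℝ) (hθ : 0 < θ) (s : ℕ) (x ε : ℝ) (hε : 0 < ε) :
    ∃ r0 : ℕ, ∀ r : ℕ, r0 ≤ r → ∀ᶠ N : ℕ in atTop, 2 ∣ N →
      ∀ (g : ℕ → Prop) (V : ℝ), (∀ m ≤ N, GP r N m ↔ g m) →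
      Vq (QL gu (gv N)) ⌊(N : ℝ) ^ (1 / (r : ℝ))⌋₊ = V →
      ∀ Z Y : ℕ, (N : ℝ) ^ θ ≤ Y → Z + Y ≤ N →
      ∀ (c : ℕ) (a b : Fin s → ℕ), c * V ≤ x → (∀ i, a i ≤ b i) → (∀ i, b i * V ≤ x) →
      (∀ i, Z + Y + b i ≤ N) →
      (∀ i, b i < c ∨ c ≤ a i) → (∀ i j, i ≠ j → b i ≤ a j ∨ b j ≤ a i) → ∀ E : Fin s → Finset ℕ,
        |(((Ioc Z (Z + Y)).filter (fun m => g m ∧ ∀ i,
          ((Ioc (m + a i - c) (m + b i - c)).filter (fun k => g k)).card ∈ E i)).card : ℝ) -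
          Y * V * ∏ i, ∑ j ∈ E i, Real.exp (-(((b i : ℝ) - a i) * V)) *
            (((b i : ℝ) - a i) * V) ^ j / j.factorial| ≤ ε * (Y * V) := by
  obtain ⟨r0, h0⟩ := lp_palm 2 1 (by norm_num) θ hθ s x ε hε
  refine ⟨max r0 1, ?_⟩
  intro r hr
  have hr1 : 1 ≤ r := (le_max_right _ _).trans hr
  have hrr : (1 : ℝ) ≤ r := by exact_mod_cast hr1
  have hpow1 : Tendsto (fun X : ℕ => (X : ℝ) ^ (1 / (r : ℝ))) atTop atTop :=
    (tendsto_rpow_atTop (by positivity)).comp tendsto_natCast_atTop_atTop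
  filter_upwards [h0 r ((le_max_left _ _).trans hr), hpow1.eventually_ge_atTop 2, log3_lt,
    eventually_ge_atTop 3] with N hX h2 hRN h3
  intro hN g V hg hV Z Y hY hZY c a b hcV hab hb hM hc hdis E
  exact hX gu (gv N) (gLF N hN h3 _ hRN) g V N
    (fun m hm => (sf_GP r N hr1 (by omega) h2 m hm).trans (hg m hm)) hV Z Y hY hZY c a b hcV hab hb
    hM hc hdis E

open Classical in
/-- the mixed moments for the almost prime Goldbach representations -/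
theorem gold_mom (θ : ℝ) (hθ : 0 < θ) {s : ℕ} (k : Fin s → ℕ) (x ε : ℝ) (hε : 0 < ε) :
    ∃ r0 : ℕ, ∀ r : ℕ, r0 ≤ r → ∀ᶠ N : ℕ in atTop, 2 ∣ N →
      ∀ (g : ℕ → Prop) (V : ℝ), (∀ m ≤ N, GP r N m ↔ g m) →
      Vq (QL gu (gv N)) ⌊(N : ℝ) ^ (1 / (r : ℝ))⌋₊ = V →
      ∀ Z Y : ℕ, (N : ℝ) ^ θ ≤ Y → (∀ b : ℕ, b * V ≤ x → Z + Y + b ≤ N) →
      ∀ a b : Fin s → ℕ, (∀ i, a i ≤ b i) → (∀ i, b i * V ≤ x) →
      (∀ i j, i ≠ j → b i ≤ a j ∨ b j ≤ a i) →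
        |∑ n ∈ Ioc Z (Z + Y), ∏ i, ((((Ioc (n + a i) (n + b i)).filter
            (fun m => g m)).card.choose (k i) : ℕ) : ℝ) -
          Y * ∏ i, ((((b i : ℝ) - a i) * V) ^ (k i) / (k i).factorial)| ≤ ε * Y := by
  obtain ⟨r0, h0⟩ := lp_mom 2 1 (by norm_num) θ hθ k x ε hε
  refine ⟨max r0 1, ?_⟩
  intro r hr
  have hr1 : 1 ≤ r := (le_max_right _ _).trans hr
  have hrr : (1 : ℝ) ≤ r := by exact_mod_cast hr1
  have hpow1 : Tendsto (fun X : ℕ => (X : ℝ) ^ (1 / (r : ℝ))) atTop atTop :=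
    (tendsto_rpow_atTop (by positivity)).comp tendsto_natCast_atTop_atTop
  filter_upwards [h0 r ((le_max_left _ _).trans hr), hpow1.eventually_ge_atTop 2, log3_lt,
    eventually_ge_atTop 3] with N hX h2 hRN h3
  intro hN g V hg hV Z Y hY hM
  exact hX gu (gv N) (gLF N hN h3 _ hRN) g V N
    (fun m hm => (sf_GP r N hr1 (by omega) h2 m hm).trans (hg m hm)) hV Z Y hY hM

end Pool.Agent.TH464.PO
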