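import Pool.Agent.TH464.PO.ApSizes
import Pool.Agent.TH464.PO.LinJoint

set_option autoImplicit false

/-!
# Arithmetic progressions, uniformly in the modulus: the laws
-/

namespace Pool.Agent.TH464.PO

open Finset Filter
open Pool.Agent.W123.RP Pool.Agent.H373R2.T7 Pool.Agent.W123.RU
open Pool.Agent.TH464.PW

open Classical in
/-- **The Poisson law and the gap laws** for linear forms, uniformly in the coefficients. -/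
theorem ap_main (A : ℕ) (θ : ℝ) (hθ : 0 < θ) (k0 : ℕ) (x0 ε : ℝ) (hε : 0 < ε) :
    ∃ s0 : ℕ, ∀ s : ℕ, s0 ≤ s → ∀ᶠ X : ℕ in atTop, ∀ u v : Fin 1 → ℤ,
      AF u v (X ^ A) → ∀ Z Y : ℕ, (X : ℝ) ^ θ ≤ Y →
      (∀ T : ℕ, T * Vq (QL u v) ⌊(X : ℝ) ^ (1 / (s : ℝ))⌋₊ ≤ x0 → ∀ E : Finset ℕ,
        |(((Ioc Z (Z + Y)).filter
            (fun n => Wc (Sf (QL u v) ⌊(X : ℝ) ^ (1 / (s : ℝ))⌋₊) n T ∈ E)).card : ℝ) -
          Y * ∑ j ∈ E, Real.exp (-(T * Vq (QL u v) ⌊(X : ℝ) ^ (1 / (s : ℝ))⌋₊)) *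
            (T * Vq (QL u v) ⌊(X : ℝ) ^ (1 / (s : ℝ))⌋₊) ^ j / j.factorial| ≤ ε * Y) ∧
      (∀ l T : ℕ, (l ≤ k0 ∨ T * Vq (QL u v) ⌊(X : ℝ) ^ (1 / (s : ℝ))⌋₊ ≤ x0) →
        |(Pk (Sf (QL u v) ⌊(X : ℝ) ^ (1 / (s : ℝ))⌋₊) l T Z Y : ℝ) -
          Y * Vq (QL u v) ⌊(X : ℝ) ^ (1 / (s : ℝ))⌋₊ *
            Ck l (T * Vq (QL u v) ⌊(X : ℝ) ^ (1 / (s : ℝ))⌋₊)| ≤
              ε * (Y * Vq (QL u v) ⌊(X : ℝ) ^ (1 / (s : ℝ))⌋₊)) := by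
  obtain ⟨K0, y0, T0, R0, η', κ, hη', hκ, hκ2, hlaw⟩ := gen_law 1 le_rfl x0 ε hε
  obtain ⟨K1, y1, T1, R1, η1, κ1, x1, hη1, hκ1, hx1, hgap⟩ := gen_gap 1 le_rfl k0 x0 ε hε
  obtain ⟨s0, h0⟩ := af_sizes A θ hθ K0 y0 T0 R0 η' κ (max x0 1) hη' hκ (by positivity)
  obtain ⟨s1, h1⟩ := af_sizes A θ hθ K1 y1 T1 R1 η1 κ1 x1 hη1 hκ1 hx1
  refine ⟨max s0 s1, ?_⟩
  intro s hs
  filter_upwards [h0 s ((le_max_left _ _).trans hs), h1 s ((le_max_right _ _).trans hs)] with X hX0 hX1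
  intro u v hLF Z Y hXY
  obtain ⟨y, hy⟩ : ∃ y, y = ⌊(X : ℝ) ^ (1 / (s : ℝ))⌋₊ := ⟨_, rfl⟩
  rw [← hy]
  constructor
  · obtain ⟨a1, a2, a3, a4, a5, a6⟩ := hX0 u v hLF Y hXY y hy
    exact hlaw (QL u v) Z Y y (af_perB hLF) (fun p hp => af_adm hLF p hp) a1 a2 a3 a6
  · obtain ⟨a1, a2, a3, a4, a5, a6⟩ := hX1 u v hLF Y hXY y hy
    exact hgap (QL u v) Z Y y (af_perB hLF) (fun p hp => af_adm hLF p hp) a1 a2 a3 a4 a5 a6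

open Classical in
/-- **Exact density in all windows** for linear forms, uniformly in the forms. -/
theorem ap_exact (A : ℕ) (θ : ℝ) (hθ : 0 < θ) (ε : ℝ) (hε : 0 < ε) :
    ∃ (κ : ℝ) (s0 : ℕ), 0 < κ ∧ ∀ s : ℕ, s0 ≤ s → ∀ᶠ X : ℕ in atTop, ∀ u v : Fin 1 → ℤ,
      AF u v (X ^ A) → ∀ Z Y : ℕ, (X : ℝ) ^ θ ≤ Z → (X : ℝ) ^ θ ≤ Y →
      (((Ioc Z (Z + Y)).filter (fun n => ¬ Exact (Sf (QL u v) ⌊(X : ℝ) ^ (1 / (s : ℝ))⌋₊)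
        (Vq (QL u v) ⌊(X : ℝ) ^ (1 / (s : ℝ))⌋₊) κ ε Z Y n)).card : ℝ) ≤ ε * Y ∧
      (((Ioc Z (Z + Y)).filter (fun n => Sf (QL u v) ⌊(X : ℝ) ^ (1 / (s : ℝ))⌋₊ n ∧
        ¬ Exact (Sf (QL u v) ⌊(X : ℝ) ^ (1 / (s : ℝ))⌋₊)
        (Vq (QL u v) ⌊(X : ℝ) ^ (1 / (s : ℝ))⌋₊) κ ε Z Y n)).card : ℝ) ≤
          ε * (Y * Vq (QL u v) ⌊(X : ℝ) ^ (1 / (s : ℝ))⌋₊) := by
  obtain ⟨K0, y0, T0, η1, κ, x1, K', hη1, hκ, hx1, hK', hex⟩ := gen_exact 1 le_rfl ε hε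
  obtain ⟨T2, hT2⟩ : ∃ T2 : ℕ, 1 / κ ^ 2 ≤ T2 := exists_nat_ge _
  obtain ⟨s0, h0⟩ := af_sizes A θ hθ K0 y0 (T0 + T2 + 1) 5 η1 1 (2 * x1) hη1
    one_pos (by linarith)
  refine ⟨K', s0, hK', ?_⟩
  intro s hs
  filter_upwards [h0 s hs] with X hX
  intro u v hLF Z Y hXZ hXY
  obtain ⟨y, hy⟩ : ∃ y, y = ⌊(X : ℝ) ^ (1 / (s : ℝ))⌋₊ := ⟨_, rfl⟩
  rw [← hy]
  obtain ⟨a1, a2, a3, a4, a5, a6⟩ := hX u v hLF Y hXY y hy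
  obtain ⟨b1, b2, b3, b4, b5, b6⟩ := hX u v hLF Z hXZ y hy
  refine hex (QL u v) Z Y y a1 a2 (af_perB hLF) (fun p hp => af_adm hLF p hp) (Vq_le_one _ _) ?_
  intro T h1 h2
  obtain ⟨c1, c2, c3⟩ := a6 T (hx1.trans h1) h2
  obtain ⟨d1, d2, d3⟩ := b6 T (hx1.trans h1) h2
  have hT1 : 1 ≤ T := by omega
  have hTr1 : (1 : ℝ) ≤ T := by exact_mod_cast hT1
  have hT5 : T ≤ T ^ 5 := by
    calc T = T ^ 1 := (pow_one T).symm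
      _ ≤ T ^ 5 := Nat.pow_le_pow_right hT1 (by norm_num)
  refine ⟨by omega, hT5.trans d2, hT5.trans c2, ?_, c3⟩
  have hκT : 1 ≤ T * κ ^ 2 := by
    have : 1 / κ ^ 2 ≤ T := hT2.trans (by exact_mod_cast (by omega : T2 ≤ T))
    rwa [div_le_iff₀ (by positivity)] at this
  have h3 : ((T : ℝ) ^ 2 / κ) ^ 2 ≤ Y := by
    have h4 : ((T : ℝ) ^ 2 / κ) ^ 2 ≤ (T : ℝ) ^ 5 := by
      rw [div_pow, div_le_iff₀ (by positivity)]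
      calc ((T : ℝ) ^ 2) ^ 2 = T ^ 4 * 1 := by ring
        _ ≤ T ^ 4 * (T * κ ^ 2) := by gcongr
        _ = (T : ℝ) ^ 5 * κ ^ 2 := by ring
    refine h4.trans ?_
    exact_mod_cast c2
  have h4 := Real.le_sqrt_of_sq_le h3
  rw [div_le_iff₀ hκ] at h4
  linarith

/-- the windows are short -/
lemma ap_short (A : ℕ) (x : ℝ) (r : ℕ) (hr : 2 ≤ r) : ∀ᶠ X : ℕ in atTop, ∀ u v : Fin 1 → ℤ,
    AF u v (X ^ A) →
    ∀ T : ℕ, T * Vq (QL u v) ⌊(X : ℝ) ^ (1 / (r : ℝ))⌋₊ ≤ x → T ≤ X := by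
  obtain ⟨v0, hv, hVlow⟩ := V_lower_unif 1
  have hrr : (2 : ℝ) ≤ r := by exact_mod_cast hr
  have hpow2 : Tendsto (fun X : ℕ => (X : ℝ) ^ (1 / (2 * r : ℝ))) atTop atTop :=
    (tendsto_rpow_atTop (by positivity)).comp tendsto_natCast_atTop_atTop
  filter_upwards [hpow2.eventually_ge_atTop 3, eventually_ge_atTop 16,
    logpow_rpow 1 (|x| / v0 + 1) 1 (by positivity) one_pos] with X hX1 hX16 hlp
  intro u v hLF T hT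
  obtain ⟨hy1, hy2, hy3, hy4⟩ := level_low r hr X (by omega) (by linarith)
  obtain ⟨y, hy⟩ : ∃ y, y = ⌊(X : ℝ) ^ (1 / (r : ℝ))⌋₊ := ⟨_, rfl⟩
  rw [← hy] at hy1 hy2 hy3 hy4 hT
  have hVlo := hVlow (QL u v) (af_perB hLF) (fun p hp => af_adm hLF p hp) y hy4
  have hlogy : 0 < Real.log y := Real.log_pos (by exact_mod_cast (by omega : 1 < y))
  have hT0 : (0 : ℝ) ≤ T := Nat.cast_nonneg T
  rw [Real.rpow_one] at hlp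
  have h3 : (T : ℝ) * (v0 / Real.log y ^ 1) ≤ |x| :=
    (mul_le_mul_of_nonneg_left hVlo hT0).trans (hT.trans (le_abs_self x))
  have h4 : (T : ℝ) ≤ |x| / v0 * Real.log y ^ 1 := by
    rw [div_mul_eq_mul_div, le_div_iff₀ hv]
    calc (T : ℝ) * v0 = T * (v0 / Real.log y ^ 1) * Real.log y ^ 1 := by field_simp
      _ ≤ |x| * Real.log y ^ 1 := by gcongr
  have h5 : Real.log y ^ 1 ≤ Real.log X ^ 1 := pow_le_pow_left₀ hlogy.le hy3 1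
  have h6 : 0 ≤ Real.log X ^ 1 := (pow_nonneg hlogy.le 1).trans h5
  have h7 : (T : ℝ) ≤ X := by
    calc (T : ℝ) ≤ |x| / v0 * Real.log y ^ 1 := h4
      _ ≤ |x| / v0 * Real.log X ^ 1 := by gcongr
      _ ≤ (|x| / v0 + 1) * Real.log X ^ 1 := by nlinarith
      _ ≤ X := hlp
  exact_mod_cast h7

open Classical in
/-- Poisson, packaged: the condition agrees with `g` up to `M`. -/
theorem aq_pois (A : ℕ) (θ : ℝ) (hθ : 0 < θ) (x ε : ℝ) (hε : 0 < ε) :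
    ∃ r0 : ℕ, ∀ r : ℕ, r0 ≤ r → ∀ᶠ X : ℕ in atTop, ∀ u v : Fin 1 → ℤ,
      AF u v (X ^ A) → ∀ (g : ℕ → Prop) (V : ℝ) (M : ℕ),
      (∀ m ≤ M, Sf (QL u v) ⌊(X : ℝ) ^ (1 / (r : ℝ))⌋₊ m ↔ g m) →
      Vq (QL u v) ⌊(X : ℝ) ^ (1 / (r : ℝ))⌋₊ = V →
      ∀ Z Y : ℕ, (X : ℝ) ^ θ ≤ Y →
      ∀ T : ℕ, Z + Y + T ≤ M → T * V ≤ x → ∀ E : Finset ℕ,
        |(((Ioc Z (Z + Y)).filter (fun n => ((Ioc n (n + T)).filter
          (fun m => g m)).card ∈ E)).card : ℝ) -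
          Y * ∑ j ∈ E, Real.exp (-(T * V)) * (T * V) ^ j / j.factorial| ≤ ε * Y := by
  obtain ⟨r0, h0⟩ := ap_main A θ hθ 0 x ε hε
  refine ⟨r0, ?_⟩
  intro r hr
  filter_upwards [h0 r hr] with X hX
  intro u v hLF g V M hg hv Z Y hXY T hM hT2 E
  subst hv
  have hmain := (hX u v hLF Z Y hXY).1 T hT2 E
  have hcount : ((Ioc Z (Z + Y)).filter (fun n => ((Ioc n (n + T)).filter
      (fun m => g m)).card ∈ E)).card =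
      ((Ioc Z (Z + Y)).filter
        (fun n => Wc (Sf (QL u v) ⌊(X : ℝ) ^ (1 / (r : ℝ))⌋₊) n T ∈ E)).card := by
    congr 1
    apply Finset.filter_congr
    intro n hn
    rw [mem_Ioc] at hn
    have e : ((Ioc n (n + T)).filter (fun m => g m)).card =
        Wc (Sf (QL u v) ⌊(X : ℝ) ^ (1 / (r : ℝ))⌋₊) n T := by
      unfold Wc
      congr 1
      apply Finset.filter_congr
      intro m hm
      rw [mem_Ioc] at hm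
      exact (hg m (by omega)).symm
    rw [e]
  rw [hcount]
  exact hmain

open Classical in
/-- the gaps, packaged -/
theorem aq_gaps (A : ℕ) (θ : ℝ) (hθ : 0 < θ) (k0 : ℕ) (x ε : ℝ) (hε : 0 < ε) :
    ∃ r0 : ℕ, ∀ r : ℕ, r0 ≤ r → ∀ᶠ X : ℕ in atTop, ∀ u v : Fin 1 → ℤ,
      AF u v (X ^ A) → ∀ (g : ℕ → Prop) (V : ℝ) (M : ℕ),
      (∀ m ≤ M, Sf (QL u v) ⌊(X : ℝ) ^ (1 / (r : ℝ))⌋₊ m ↔ g m) →
      Vq (QL u v) ⌊(X : ℝ) ^ (1 / (r : ℝ))⌋₊ = V →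
      ∀ Z Y : ℕ, (X : ℝ) ^ θ ≤ Y → Z + Y ≤ M →
      ∀ k T : ℕ, (k ≤ k0 ∨ T * V ≤ x) →
        |(((Ioc Z (Z + Y)).filter (fun b => g b ∧
          ((Ico (b - T) b).filter (fun m => g m)).card < k)).card : ℝ) - Y * V *
          ∑ j ∈ Finset.range k, Real.exp (-(T * V)) * (T * V) ^ j / j.factorial| ≤
            ε * (Y * V) := by
  obtain ⟨r0, h0⟩ := ap_main A θ hθ k0 x ε hε
  refine ⟨r0, ?_⟩
  intro r hr
  filter_upwards [h0 r hr] with X hX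
  intro u v hLF g V M hg hv Z Y hXY hM k T hkT
  subst hv
  have hmain := (hX u v hLF Z Y hXY).2 k T hkT
  have hcount : ((Ioc Z (Z + Y)).filter (fun b => g b ∧
      ((Ico (b - T) b).filter (fun m => g m)).card < k)).card =
      Pk (Sf (QL u v) ⌊(X : ℝ) ^ (1 / (r : ℝ))⌋₊) k T Z Y := by
    unfold Pk
    congr 1
    apply Finset.filter_congr
    intro b hb
    rw [mem_Ioc] at hb
    rw [← hg b (by omega)]
    apply and_congr Iff.rfl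
    have e : (Ico (b - T) b).filter (fun m => g m) =
        (Ico (b - T) b).filter (Sf (QL u v) ⌊(X : ℝ) ^ (1 / (r : ℝ))⌋₊) := by
      apply Finset.filter_congr
      intro m hm
      rw [mem_Ico] at hm
      exact (hg m (by omega)).symm
    rw [e]
  rw [hcount]
  exact hmain

open Classical in
/-- exact density, packaged -/
theorem aq_ex (A : ℕ) (θ : ℝ) (hθ : 0 < θ) (ε : ℝ) (hε : 0 < ε) :
    ∃ (κ : ℝ) (r0 : ℕ), 0 < κ ∧ ∀ r : ℕ, r0 ≤ r → ∀ᶠ X : ℕ in atTop, ∀ u v : Fin 1 → ℤ,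
      AF u v (X ^ A) → ∀ (g : ℕ → Prop) (V : ℝ) (M : ℕ),
      (∀ m ≤ M, Sf (QL u v) ⌊(X : ℝ) ^ (1 / (r : ℝ))⌋₊ m ↔ g m) →
      Vq (QL u v) ⌊(X : ℝ) ^ (1 / (r : ℝ))⌋₊ = V →
      ∀ Z Y : ℕ, (X : ℝ) ^ θ ≤ Z → (X : ℝ) ^ θ ≤ Y → Z + Y ≤ M →
      (((Ioc Z (Z + Y)).filter (fun n => ¬ ∀ a b : ℕ, Z ≤ a → a < n → n ≤ b → b ≤ Z + Y →
        κ ≤ ((b : ℝ) - a) * V →
        |(((Ioc a b).filter (fun m => g m)).card : ℝ) - (b - a) * V| ≤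
          ε * ((b - a) * V))).card : ℝ) ≤ ε * Y ∧
      (((Ioc Z (Z + Y)).filter (fun n => g n ∧
        ¬ ∀ a b : ℕ, Z ≤ a → a < n → n ≤ b → b ≤ Z + Y →
        κ ≤ ((b : ℝ) - a) * V →
        |(((Ioc a b).filter (fun m => g m)).card : ℝ) - (b - a) * V| ≤
          ε * ((b - a) * V))).card : ℝ) ≤ ε * (Y * V) := by
  obtain ⟨κ, r0, hκ, h0⟩ := ap_exact A θ hθ ε hε
  refine ⟨κ, r0, hκ, ?_⟩
  intro r hr
  filter_upwards [h0 r hr] with X hX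
  intro u v hLF g V M hg hV Z Y hXZ hXY hM
  have hmain := hX u v hLF Z Y hXZ hXY
  rw [hV] at hmain
  have key : ∀ n ∈ Ioc Z (Z + Y),
      Exact (Sf (QL u v) ⌊(X : ℝ) ^ (1 / (r : ℝ))⌋₊) V κ ε Z Y n →
      ∀ a b : ℕ, Z ≤ a → a < n → n ≤ b → b ≤ Z + Y → κ ≤ ((b : ℝ) - a) * V →
        |(((Ioc a b).filter (fun m => g m)).card : ℝ) - (b - a) * V| ≤ ε * ((b - a) * V) := by
    intro n hn hex a b hu hun hnv hv hKV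
    have h1 := hex a b hu hun hnv hv hKV
    have hN : ((Ioc a b).filter (fun m => g m)).card =
        Cc (Sf (QL u v) ⌊(X : ℝ) ^ (1 / (r : ℝ))⌋₊) a b := by
      unfold Cc
      congr 1
      apply Finset.filter_congr
      intro m hm
      rw [mem_Ioc] at hm
      exact (hg m (by omega)).symm
    rw [hN]
    exact h1
  constructor
  · refine le_trans ?_ hmain.1
    have : ((Ioc Z (Z + Y)).filter (fun n => ¬ ∀ a b : ℕ, Z ≤ a → a < n → n ≤ b → b ≤ Z + Y →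
        κ ≤ ((b : ℝ) - a) * V →
        |(((Ioc a b).filter (fun m => g m)).card : ℝ) -
          (b - a) * V| ≤ ε * ((b - a) * V))).card ≤
        ((Ioc Z (Z + Y)).filter (fun n => ¬ Exact (Sf (QL u v) ⌊(X : ℝ) ^ (1 / (r : ℝ))⌋₊)
          V κ ε Z Y n)).card := by
      apply card_le_card
      intro n hn
      rw [mem_filter] at hn ⊢
      exact ⟨hn.1, fun hex => hn.2 (key n hn.1 hex)⟩
    exact_mod_cast this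
  · refine le_trans ?_ hmain.2
    have : ((Ioc Z (Z + Y)).filter (fun n => g n ∧
        ¬ ∀ a b : ℕ, Z ≤ a → a < n → n ≤ b → b ≤ Z + Y → κ ≤ ((b : ℝ) - a) * V →
        |(((Ioc a b).filter (fun m => g m)).card : ℝ) -
          (b - a) * V| ≤ ε * ((b - a) * V))).card ≤
        ((Ioc Z (Z + Y)).filter (fun n => Sf (QL u v) ⌊(X : ℝ) ^ (1 / (r : ℝ))⌋₊ n ∧
          ¬ Exact (Sf (QL u v) ⌊(X : ℝ) ^ (1 / (r : ℝ))⌋₊) V κ ε Z Y n)).card := by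
      apply card_le_card
      intro n hn
      rw [mem_filter] at hn ⊢
      have hn1 := mem_Ioc.1 hn.1
      exact ⟨hn.1, (hg n (by omega)).2 hn.2.1,
        fun hex => hn.2.2 (key n hn.1 hex)⟩
    exact_mod_cast this

open Classical in
/-- **The joint law** for linear forms, uniformly in the forms. -/
theorem ap_joint (A : ℕ) (θ : ℝ) (hθ : 0 < θ) (s : ℕ) (x0 ε : ℝ) (hε : 0 < ε) :
    ∃ r0 : ℕ, ∀ r : ℕ, r0 ≤ r → ∀ᶠ X : ℕ in atTop, ∀ u v : Fin 1 → ℤ,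
      AF u v (X ^ A) → ∀ Z Y : ℕ, (X : ℝ) ^ θ ≤ Y →
      ∀ a b : Fin s → ℕ, (∀ i, a i ≤ b i) →
      (∀ i, b i * Vq (QL u v) ⌊(X : ℝ) ^ (1 / (r : ℝ))⌋₊ ≤ x0) →
      (∀ i j, i ≠ j → b i ≤ a j ∨ b j ≤ a i) → ∀ E : Fin s → Finset ℕ,
        |(((Ioc Z (Z + Y)).filter (fun n => ∀ i, ((Ioc (n + a i) (n + b i)).filter
          (fun m => Sf (QL u v) ⌊(X : ℝ) ^ (1 / (r : ℝ))⌋₊ m)).card ∈ E i)).card : ℝ) -
          Y * ∏ i, pois (((b i : ℝ) - a i) * Vq (QL u v) ⌊(X : ℝ) ^ (1 / (r : ℝ))⌋₊) (E i)| ≤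
            ε * Y := by
  obtain ⟨K0, y0, T0, R0, η', hη', hlaw⟩ := joint_law s 1 le_rfl x0 ε hε
  obtain ⟨r0, h0⟩ := af_sizes A θ hθ K0 y0 T0 R0 η' 1 (|x0| + 2) hη' one_pos (by positivity)
  refine ⟨r0, ?_⟩
  intro r hr
  filter_upwards [h0 r hr] with X hX
  intro u v hLF Z Y hXY a b hab hb hdis E
  obtain ⟨y, hy⟩ : ∃ y, y = ⌊(X : ℝ) ^ (1 / (r : ℝ))⌋₊ := ⟨_, rfl⟩
  obtain ⟨a1, a2, a3, a4, a5, a6⟩ := hX u v hLF Y hXY y hy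
  rw [← hy] at hb ⊢
  exact hlaw (QL u v) Z Y y (af_perB hLF) (fun p hp => af_adm hLF p hp) a1 a2 a6 a b hab hb
    (win_disj a b hdis) E

open Classical in
/-- the joint law, packaged: the condition agrees with `g` up to `M`. -/
theorem aq_joint (A : ℕ) (θ : ℝ) (hθ : 0 < θ) (s : ℕ) (x ε : ℝ) (hε : 0 < ε) :
    ∃ r0 : ℕ, ∀ r : ℕ, r0 ≤ r → ∀ᶠ X : ℕ in atTop, ∀ u v : Fin 1 → ℤ,
      AF u v (X ^ A) → ∀ (g : ℕ → Prop) (V : ℝ) (M : ℕ),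
      (∀ m ≤ M, Sf (QL u v) ⌊(X : ℝ) ^ (1 / (r : ℝ))⌋₊ m ↔ g m) →
      Vq (QL u v) ⌊(X : ℝ) ^ (1 / (r : ℝ))⌋₊ = V →
      ∀ Z Y : ℕ, (X : ℝ) ^ θ ≤ Y →
      ∀ a b : Fin s → ℕ, (∀ i, a i ≤ b i) → (∀ i, b i * V ≤ x) → (∀ i, Z + Y + b i ≤ M) →
      (∀ i j, i ≠ j → b i ≤ a j ∨ b j ≤ a i) → ∀ E : Fin s → Finset ℕ,
        |(((Ioc Z (Z + Y)).filter (fun n => ∀ i, ((Ioc (n + a i) (n + b i)).filter
          (fun m => g m)).card ∈ E i)).card : ℝ) -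
          Y * ∏ i, ∑ j ∈ E i, Real.exp (-(((b i : ℝ) - a i) * V)) *
            (((b i : ℝ) - a i) * V) ^ j / j.factorial| ≤ ε * Y := by
  obtain ⟨r0, h0⟩ := ap_joint A θ hθ s x ε hε
  refine ⟨r0, ?_⟩
  intro r hr
  filter_upwards [h0 r hr] with X hX
  intro u v hLF g V M hg hv Z Y hXY a b hab hb hM hdis E
  subst hv
  have hmain := hX u v hLF Z Y hXY a b hab hb hdis E
  have hcount : ((Ioc Z (Z + Y)).filter (fun n => ∀ i, ((Ioc (n + a i) (n + b i)).filter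
      (fun m => g m)).card ∈ E i)).card =
      ((Ioc Z (Z + Y)).filter (fun n => ∀ i, ((Ioc (n + a i) (n + b i)).filter
          (fun m => Sf (QL u v) ⌊(X : ℝ) ^ (1 / (r : ℝ))⌋₊ m)).card ∈ E i)).card := by
    congr 1
    apply Finset.filter_congr
    intro n hn
    rw [mem_Ioc] at hn
    apply forall_congr'
    intro i
    have e : ((Ioc (n + a i) (n + b i)).filter (fun m => g m)).card =
        ((Ioc (n + a i) (n + b i)).filter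
          (fun m => Sf (QL u v) ⌊(X : ℝ) ^ (1 / (r : ℝ))⌋₊ m)).card := by
      congr 1
      apply Finset.filter_congr
      intro m hm
      rw [mem_Ioc] at hm
      have := hM i
      exact (hg m (by omega)).symm
    rw [e]
  rw [hcount]
  exact hmain

/-- the count, for linear forms -/
lemma ap_total (A : ℕ) (θ : ℝ) (hθ : 0 < θ) (ε : ℝ) (hε : 0 < ε) :
    ∃ r0 : ℕ, ∀ r : ℕ, r0 ≤ r → ∀ᶠ X : ℕ in atTop, ∀ u v : Fin 1 → ℤ,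
      AF u v (X ^ A) → ∀ Z Y : ℕ, (X : ℝ) ^ θ ≤ Y →
      (Cc (Sf (QL u v) ⌊(X : ℝ) ^ (1 / (r : ℝ))⌋₊) Z (Z + Y) : ℝ) ≤
        (1 + ε) * (Y * Vq (QL u v) ⌊(X : ℝ) ^ (1 / (r : ℝ))⌋₊) := by
  classical
  obtain ⟨r0, h0⟩ := ap_main A θ hθ 1 0 ε hε
  refine ⟨r0, ?_⟩
  intro r hr
  filter_upwards [h0 r hr] with X hX
  intro u v hLF Z Y hXY
  have h1 := (hX u v hLF Z Y hXY).2 1 0 (Or.inl le_rfl)
  have e1 : Pk (Sf (QL u v) ⌊(X : ℝ) ^ (1 / (r : ℝ))⌋₊) 1 0 Z Y =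
      Cc (Sf (QL u v) ⌊(X : ℝ) ^ (1 / (r : ℝ))⌋₊) Z (Z + Y) := by
    unfold Pk
    rw [Cc_eq]
    congr 1
    apply Finset.filter_congr
    intro b _
    constructor
    · exact fun h => h.1
    · intro h
      refine ⟨h, ?_⟩
      rw [Nat.sub_zero, Finset.Ico_self, Finset.filter_empty, card_empty]
      exact Nat.one_pos
  have e2 : Ck 1 (((0 : ℕ) : ℝ) * Vq (QL u v) ⌊(X : ℝ) ^ (1 / (r : ℝ))⌋₊) = 1 := by
    simp [Ck, pw]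
  rw [e1, e2] at h1
  have := (abs_le.1 h1).2
  linarith

/-- **The joint law around the elements** for linear forms. -/
theorem ap_palm (A : ℕ) (θ : ℝ) (hθ : 0 < θ) (s : ℕ) (x0 ε : ℝ) (hx0 : 0 ≤ x0)
    (hε : 0 < ε) :
    ∃ r0 : ℕ, ∀ r : ℕ, r0 ≤ r → ∀ᶠ X : ℕ in atTop, ∀ u v : Fin 1 → ℤ,
      AF u v (X ^ A) → ∀ Z Y : ℕ, (X : ℝ) ^ θ ≤ Y →
      ∀ (c : ℕ) (a b : Fin s → ℕ), c * Vq (QL u v) ⌊(X : ℝ) ^ (1 / (r : ℝ))⌋₊ ≤ x0 →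
      (∀ i, a i ≤ b i) →
      (∀ i, b i * Vq (QL u v) ⌊(X : ℝ) ^ (1 / (r : ℝ))⌋₊ ≤ x0) → (∀ i, b i < c ∨ c ≤ a i) →
      (∀ i j, i ≠ j → b i ≤ a j ∨ b j ≤ a i) → ∀ E : Fin s → Finset ℕ,
        |(Cc (fun m => Sf (QL u v) ⌊(X : ℝ) ^ (1 / (r : ℝ))⌋₊ m ∧
            Fw (Sf (QL u v) ⌊(X : ℝ) ^ (1 / (r : ℝ))⌋₊) c a b E m) Z (Z + Y) : ℝ) -
          Y * Vq (QL u v) ⌊(X : ℝ) ^ (1 / (r : ℝ))⌋₊ *
            ∏ i, pois (((b i : ℝ) - a i) * Vq (QL u v) ⌊(X : ℝ) ^ (1 / (r : ℝ))⌋₊) (E i)| ≤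
              ε * (Y * Vq (QL u v) ⌊(X : ℝ) ^ (1 / (r : ℝ))⌋₊) := by
  classical
  obtain ⟨δ, ε', hδ, hε', hp⟩ := palm s x0 ε hx0 hε
  obtain ⟨r1, h1⟩ := ap_joint A θ hθ (s + 1) (x0 + 8) ε' hε'
  obtain ⟨r2, h2⟩ := ap_total A θ hθ ε' hε'
  obtain ⟨r3, h3⟩ := af_sizes A θ hθ 1 1 1 1 1 (min δ ε') (x0 + 8) one_pos (by positivity)
    (by positivity)
  refine ⟨max (max r1 r2) r3, ?_⟩
  intro r hr
  have hr1 : r1 ≤ r := by omega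
  have hr2 : r2 ≤ r := by omega
  have hr3 : r3 ≤ r := by omega
  filter_upwards [h1 r hr1, h2 r hr2, h3 r hr3] with X hX1 hX2 hX3
  intro u v hLF Z Y hXY c a b hcV hab hbV hc hdis E
  obtain ⟨q1, q2, q3, q4, q5, q6⟩ := hX3 u v hLF Y hXY _ rfl
  have hV0 : 0 < Vq (QL u v) ⌊(X : ℝ) ^ (1 / (r : ℝ))⌋₊ :=
    Vq_pos (QL u v) (fun p hp => af_adm hLF p hp) _
  have hYV : 0 ≤ Y * Vq (QL u v) ⌊(X : ℝ) ^ (1 / (r : ℝ))⌋₊ := by positivity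
  exact hp (Sf (QL u v) ⌊(X : ℝ) ^ (1 / (r : ℝ))⌋₊) Z Y _ hV0 (q3.trans (min_le_left _ _))
    (JL_of _ _ _ _ _ _ _ (fun a b hab hb hdis A => hX1 u v hLF Z Y hXY a b hab hb hdis A))
    (hX2 u v hLF Z Y hXY)
    (q5.trans (mul_le_mul_of_nonneg_right (min_le_right _ _) hYV)) c a b hcV hab hbV hc hdis E

open Classical in
/-- the joint law around the elements, packaged -/
theorem aq_palm (A : ℕ) (θ : ℝ) (hθ : 0 < θ) (s : ℕ) (x ε : ℝ) (hε : 0 < ε) :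
    ∃ r0 : ℕ, ∀ r : ℕ, r0 ≤ r → ∀ᶠ X : ℕ in atTop, ∀ u v : Fin 1 → ℤ,
      AF u v (X ^ A) → ∀ (g : ℕ → Prop) (V : ℝ) (M : ℕ),
      (∀ m ≤ M, Sf (QL u v) ⌊(X : ℝ) ^ (1 / (r : ℝ))⌋₊ m ↔ g m) →
      Vq (QL u v) ⌊(X : ℝ) ^ (1 / (r : ℝ))⌋₊ = V →
      ∀ Z Y : ℕ, (X : ℝ) ^ θ ≤ Y → Z + Y ≤ M →
      ∀ (c : ℕ) (a b : Fin s → ℕ), c * V ≤ x → (∀ i, a i ≤ b i) → (∀ i, b i * V ≤ x) →
      (∀ i, Z + Y + b i ≤ M) →
      (∀ i, b i < c ∨ c ≤ a i) → (∀ i j, i ≠ j → b i ≤ a j ∨ b j ≤ a i) → ∀ E : Fin s → Finset ℕ,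
        |(((Ioc Z (Z + Y)).filter (fun m => g m ∧ ∀ i,
          ((Ioc (m + a i - c) (m + b i - c)).filter (fun k => g k)).card ∈ E i)).card : ℝ) -
          Y * V * ∏ i, ∑ j ∈ E i, Real.exp (-(((b i : ℝ) - a i) * V)) *
            (((b i : ℝ) - a i) * V) ^ j / j.factorial| ≤ ε * (Y * V) := by
  obtain ⟨r0, h0⟩ := ap_palm A θ hθ s |x| ε (abs_nonneg x) hε
  refine ⟨r0, ?_⟩
  intro r hr
  filter_upwards [h0 r hr] with X hX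
  intro u v hLF g V M hg hv Z Y hXY hZM c a b hcV hab hb hM hc hdis E
  subst hv
  have hmain := hX u v hLF Z Y hXY c a b (hcV.trans (le_abs_self x)) hab
    (fun i => (hb i).trans (le_abs_self x)) hc hdis E
  have hcount : ((Ioc Z (Z + Y)).filter (fun m => g m ∧ ∀ i,
      ((Ioc (m + a i - c) (m + b i - c)).filter (fun k => g k)).card ∈ E i)).card =
      Cc (fun m => Sf (QL u v) ⌊(X : ℝ) ^ (1 / (r : ℝ))⌋₊ m ∧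
            Fw (Sf (QL u v) ⌊(X : ℝ) ^ (1 / (r : ℝ))⌋₊) c a b E m) Z (Z + Y) := by
    apply Cc_card
    intro m h1
    have h1' := mem_Ioc.1 h1
    have key : ∀ i, m ∈ Ioc Z (Z + Y) → (Ioc (m + a i - c) (m + b i - c)).filter
          (Sf (QL u v) ⌊(X : ℝ) ^ (1 / (r : ℝ))⌋₊) =
          (Ioc (m + a i - c) (m + b i - c)).filter (fun k => g k) := by
      intro i h1
      rw [mem_Ioc] at h1
      apply Finset.filter_congr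
      intro k hk
      rw [mem_Ioc] at hk
      have := hM i
      exact hg k (by omega)
    constructor
    · rintro ⟨h2, h3⟩
      refine ⟨(hg m (by omega)).2 h2, ?_⟩
      intro i
      have h4 := h3 i
      rw [Cc_eq, key i h1]
      exact h4
    · rintro ⟨h2, h3⟩
      refine ⟨(hg m (by omega)).1 h2, ?_⟩
      intro i
      have h4 := h3 i
      rw [Cc_eq, key i h1] at h4
      exact h4
  rw [hcount]
  exact hmain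

/-- mixed moments for linear forms -/
theorem ap_mom (A : ℕ) (θ : ℝ) (hθ : 0 < θ) {s : ℕ} (k : Fin s → ℕ) (x0 ε : ℝ)
    (hε : 0 < ε) :
    ∃ r0 : ℕ, ∀ r : ℕ, r0 ≤ r → ∀ᶠ X : ℕ in atTop, ∀ u v : Fin 1 → ℤ,
      AF u v (X ^ A) → ∀ Z Y : ℕ, (X : ℝ) ^ θ ≤ Y →
      MMo k (Sf (QL u v) ⌊(X : ℝ) ^ (1 / (r : ℝ))⌋₊) Z Y
        (Vq (QL u v) ⌊(X : ℝ) ^ (1 / (r : ℝ))⌋₊) x0 ε := by
  obtain ⟨K0, y0, T0, R0, η', hη', hlaw⟩ := mom_law k 1 le_rfl x0 ε hε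
  obtain ⟨r0, h0⟩ := af_sizes A θ hθ K0 y0 T0 R0 η' 1 (|x0| + 2) hη' one_pos (by positivity)
  refine ⟨r0, ?_⟩
  intro r hr
  filter_upwards [h0 r hr] with X hX
  intro u v hLF Z Y hXY
  obtain ⟨y, hy⟩ : ∃ y, y = ⌊(X : ℝ) ^ (1 / (r : ℝ))⌋₊ := ⟨_, rfl⟩
  obtain ⟨a1, a2, a3, a4, a5, a6⟩ := hX u v hLF Y hXY y hy
  rw [← hy]
  exact hlaw (QL u v) Z Y y (af_perB hLF) (fun p hp => af_adm hLF p hp) a1 a2 a6

open Classical in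
/-- mixed moments, packaged: the condition agrees with `g` up to `M`. -/
theorem aq_mom (A : ℕ) (θ : ℝ) (hθ : 0 < θ) {s : ℕ} (k : Fin s → ℕ) (x ε : ℝ)
    (hε : 0 < ε) :
    ∃ r0 : ℕ, ∀ r : ℕ, r0 ≤ r → ∀ᶠ X : ℕ in atTop, ∀ u v : Fin 1 → ℤ,
      AF u v (X ^ A) → ∀ (g : ℕ → Prop) (V : ℝ) (M : ℕ),
      (∀ m ≤ M, Sf (QL u v) ⌊(X : ℝ) ^ (1 / (r : ℝ))⌋₊ m ↔ g m) →
      Vq (QL u v) ⌊(X : ℝ) ^ (1 / (r : ℝ))⌋₊ = V →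
      ∀ Z Y : ℕ, (X : ℝ) ^ θ ≤ Y → (∀ b : ℕ, b * V ≤ x → Z + Y + b ≤ M) →
      ∀ a b : Fin s → ℕ, (∀ i, a i ≤ b i) → (∀ i, b i * V ≤ x) →
      (∀ i j, i ≠ j → b i ≤ a j ∨ b j ≤ a i) →
        |∑ n ∈ Ioc Z (Z + Y), ∏ i, ((((Ioc (n + a i) (n + b i)).filter
            (fun m => g m)).card.choose (k i) : ℕ) : ℝ) -
          Y * ∏ i, ((((b i : ℝ) - a i) * V) ^ (k i) / (k i).factorial)| ≤ ε * Y := by
  obtain ⟨r0, h0⟩ := ap_mom A θ hθ k x ε hε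
  refine ⟨r0, ?_⟩
  intro r hr
  filter_upwards [h0 r hr] with X hX
  intro u v hLF g V M hg hv Z Y hXY hM
  subst hv
  exact MMo_congr k _ _ Z Y M _ x ε (hX u v hLF Z Y hXY) hg hM

open Classical in
/-- Poisson for a family of systems -/
theorem af_pois {ι : Type*} (A : ℕ) (Ad : ℕ → ι → Prop) (g : ℕ → ℕ → ι → ℕ → Prop)
    (V : ℕ → ℕ → ι → ℝ)
    (hfam : ∀ r : ℕ, 1 ≤ r → ∀ᶠ X : ℕ in atTop, ∀ i : ι, Ad X i → ∃ u v : Fin 1 → ℤ,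
      AF u v (X ^ A) ∧
      (∀ m ≤ 3 * X, Sf (QL u v) ⌊(X : ℝ) ^ (1 / (r : ℝ))⌋₊ m ↔ g r X i m) ∧
      Vq (QL u v) ⌊(X : ℝ) ^ (1 / (r : ℝ))⌋₊ = V r X i)
    (θ : ℝ) (hθ : 0 < θ) (x ε : ℝ) (hε : 0 < ε) :
    ∃ r0 : ℕ, ∀ r : ℕ, r0 ≤ r → ∀ᶠ X : ℕ in atTop, ∀ i : ι, Ad X i →
      ∀ Z Y : ℕ, (X : ℝ) ^ θ ≤ Y → Z + Y ≤ 2 * X → ∀ T : ℕ, T * V r X i ≤ x → ∀ E : Finset ℕ,
        |(((Ioc Z (Z + Y)).filter (fun n => ((Ioc n (n + T)).filter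
          (fun m => g r X i m)).card ∈ E)).card : ℝ) -
          Y * ∑ j ∈ E, Real.exp (-(T * V r X i)) * (T * V r X i) ^ j / j.factorial| ≤ ε * Y := by
  obtain ⟨r0, h0⟩ := aq_pois A θ hθ x ε hε
  refine ⟨max r0 2, ?_⟩
  intro r hr
  have hr2 : 2 ≤ r := (le_max_right _ _).trans hr
  filter_upwards [h0 r ((le_max_left _ _).trans hr), hfam r (by omega), ap_short A x r hr2]
    with X hX hF hs
  intro i hi Z Y hXY hZY T hT E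
  obtain ⟨u, v, hLF, hg, hV⟩ := hF i hi
  have hTX := hs u v hLF T (by rw [hV]; exact hT)
  exact hX u v hLF (g r X i) (V r X i) (3 * X) hg hV Z Y hXY T (by omega) hT E

open Classical in
/-- gaps for a family of systems -/
theorem af_gaps {ι : Type*} (A : ℕ) (Ad : ℕ → ι → Prop) (g : ℕ → ℕ → ι → ℕ → Prop)
    (V : ℕ → ℕ → ι → ℝ)
    (hfam : ∀ r : ℕ, 1 ≤ r → ∀ᶠ X : ℕ in atTop, ∀ i : ι, Ad X i → ∃ u v : Fin 1 → ℤ,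
      AF u v (X ^ A) ∧
      (∀ m ≤ 3 * X, Sf (QL u v) ⌊(X : ℝ) ^ (1 / (r : ℝ))⌋₊ m ↔ g r X i m) ∧
      Vq (QL u v) ⌊(X : ℝ) ^ (1 / (r : ℝ))⌋₊ = V r X i)
    (θ : ℝ) (hθ : 0 < θ) (k0 : ℕ) (x ε : ℝ) (hε : 0 < ε) :
    ∃ r0 : ℕ, ∀ r : ℕ, r0 ≤ r → ∀ᶠ X : ℕ in atTop, ∀ i : ι, Ad X i →
      ∀ Z Y : ℕ, (X : ℝ) ^ θ ≤ Y → Z + Y ≤ 2 * X → ∀ k T : ℕ, (k ≤ k0 ∨ T * V r X i ≤ x) →
        |(((Ioc Z (Z + Y)).filter (fun b => g r X i b ∧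
          ((Ico (b - T) b).filter (fun m => g r X i m)).card < k)).card : ℝ) - Y * V r X i *
          ∑ j ∈ Finset.range k, Real.exp (-(T * V r X i)) * (T * V r X i) ^ j / j.factorial| ≤
            ε * (Y * V r X i) := by
  obtain ⟨r0, h0⟩ := aq_gaps A θ hθ k0 x ε hε
  refine ⟨max r0 1, ?_⟩
  intro r hr
  filter_upwards [h0 r ((le_max_left _ _).trans hr), hfam r ((le_max_right _ _).trans hr)]
    with X hX hF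
  intro i hi Z Y hXY hZY k T hT
  obtain ⟨u, v, hLF, hg, hV⟩ := hF i hi
  exact hX u v hLF (g r X i) (V r X i) (3 * X) hg hV Z Y hXY (by omega) k T hT

open Classical in
/-- exact density for a family of systems -/
theorem af_ex {ι : Type*} (A : ℕ) (Ad : ℕ → ι → Prop) (g : ℕ → ℕ → ι → ℕ → Prop)
    (V : ℕ → ℕ → ι → ℝ)
    (hfam : ∀ r : ℕ, 1 ≤ r → ∀ᶠ X : ℕ in atTop, ∀ i : ι, Ad X i → ∃ u v : Fin 1 → ℤ,
      AF u v (X ^ A) ∧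
      (∀ m ≤ 3 * X, Sf (QL u v) ⌊(X : ℝ) ^ (1 / (r : ℝ))⌋₊ m ↔ g r X i m) ∧
      Vq (QL u v) ⌊(X : ℝ) ^ (1 / (r : ℝ))⌋₊ = V r X i)
    (θ : ℝ) (hθ : 0 < θ) (ε : ℝ) (hε : 0 < ε) :
    ∃ (κ : ℝ) (r0 : ℕ), 0 < κ ∧ ∀ r : ℕ, r0 ≤ r → ∀ᶠ X : ℕ in atTop, ∀ i : ι, Ad X i →
      ∀ Z Y : ℕ, (X : ℝ) ^ θ ≤ Z → (X : ℝ) ^ θ ≤ Y → Z + Y ≤ 2 * X →
      (((Ioc Z (Z + Y)).filter (fun n => ¬ ∀ a b : ℕ, Z ≤ a → a < n → n ≤ b → b ≤ Z + Y →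
        κ ≤ ((b : ℝ) - a) * V r X i →
        |(((Ioc a b).filter (fun m => g r X i m)).card : ℝ) - (b - a) * V r X i| ≤
          ε * ((b - a) * V r X i))).card : ℝ) ≤ ε * Y ∧
      (((Ioc Z (Z + Y)).filter (fun n => g r X i n ∧
        ¬ ∀ a b : ℕ, Z ≤ a → a < n → n ≤ b → b ≤ Z + Y →
        κ ≤ ((b : ℝ) - a) * V r X i →
        |(((Ioc a b).filter (fun m => g r X i m)).card : ℝ) - (b - a) * V r X i| ≤
          ε * ((b - a) * V r X i))).card : ℝ) ≤ ε * (Y * V r X i) := by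
  obtain ⟨κ, r0, hκ, h0⟩ := aq_ex A θ hθ ε hε
  refine ⟨κ, max r0 1, hκ, ?_⟩
  intro r hr
  filter_upwards [h0 r ((le_max_left _ _).trans hr), hfam r ((le_max_right _ _).trans hr)]
    with X hX hF
  intro i hi Z Y hXZ hXY hZY
  obtain ⟨u, v, hLF, hg, hV⟩ := hF i hi
  exact hX u v hLF (g r X i) (V r X i) (3 * X) hg hV Z Y hXZ hXY (by omega)

open Classical in
/-- the joint law for a family of systems -/
theorem af_joint {ι : Type*} (A : ℕ) (Ad : ℕ → ι → Prop) (g : ℕ → ℕ → ι → ℕ → Prop)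
    (V : ℕ → ℕ → ι → ℝ)
    (hfam : ∀ r : ℕ, 1 ≤ r → ∀ᶠ X : ℕ in atTop, ∀ i : ι, Ad X i → ∃ u v : Fin 1 → ℤ,
      AF u v (X ^ A) ∧
      (∀ m ≤ 3 * X, Sf (QL u v) ⌊(X : ℝ) ^ (1 / (r : ℝ))⌋₊ m ↔ g r X i m) ∧
      Vq (QL u v) ⌊(X : ℝ) ^ (1 / (r : ℝ))⌋₊ = V r X i)
    (θ : ℝ) (hθ : 0 < θ) (s : ℕ) (x ε : ℝ) (hε : 0 < ε) :
    ∃ r0 : ℕ, ∀ r : ℕ, r0 ≤ r → ∀ᶠ X : ℕ in atTop, ∀ i : ι, Ad X i →
      ∀ Z Y : ℕ, (X : ℝ) ^ θ ≤ Y → Z + Y ≤ 2 * X →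
      ∀ a b : Fin s → ℕ, (∀ i, a i ≤ b i) → (∀ j, b j * V r X i ≤ x) →
      (∀ i j, i ≠ j → b i ≤ a j ∨ b j ≤ a i) → ∀ E : Fin s → Finset ℕ,
        |(((Ioc Z (Z + Y)).filter (fun n => ∀ j, ((Ioc (n + a j) (n + b j)).filter
          (fun m => g r X i m)).card ∈ E j)).card : ℝ) -
          Y * ∏ j, ∑ l ∈ E j, Real.exp (-(((b j : ℝ) - a j) * V r X i)) *
            (((b j : ℝ) - a j) * V r X i) ^ l / l.factorial| ≤ ε * Y := by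
  obtain ⟨r0, h0⟩ := aq_joint A θ hθ s x ε hε
  refine ⟨max r0 2, ?_⟩
  intro r hr
  have hr2 : 2 ≤ r := (le_max_right _ _).trans hr
  filter_upwards [h0 r ((le_max_left _ _).trans hr), hfam r (by omega), ap_short A x r hr2]
    with X hX hF hs
  intro i hi Z Y hXY hZY a b hab hb hdis E
  obtain ⟨u, v, hLF, hg, hV⟩ := hF i hi
  exact hX u v hLF (g r X i) (V r X i) (3 * X) hg hV Z Y hXY a b hab hb (fun j => by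
    have := hs u v hLF (b j) (by rw [hV]; exact hb j)
    omega) hdis E

open Classical in
/-- the joint law around the elements, for a family of systems -/
theorem af_palm {ι : Type*} (A : ℕ) (Ad : ℕ → ι → Prop) (g : ℕ → ℕ → ι → ℕ → Prop)
    (V : ℕ → ℕ → ι → ℝ)
    (hfam : ∀ r : ℕ, 1 ≤ r → ∀ᶠ X : ℕ in atTop, ∀ i : ι, Ad X i → ∃ u v : Fin 1 → ℤ,
      AF u v (X ^ A) ∧
      (∀ m ≤ 3 * X, Sf (QL u v) ⌊(X : ℝ) ^ (1 / (r : ℝ))⌋₊ m ↔ g r X i m) ∧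
      Vq (QL u v) ⌊(X : ℝ) ^ (1 / (r : ℝ))⌋₊ = V r X i)
    (θ : ℝ) (hθ : 0 < θ) (s : ℕ) (x ε : ℝ) (hε : 0 < ε) :
    ∃ r0 : ℕ, ∀ r : ℕ, r0 ≤ r → ∀ᶠ X : ℕ in atTop, ∀ i : ι, Ad X i →
      ∀ Z Y : ℕ, (X : ℝ) ^ θ ≤ Y → Z + Y ≤ 2 * X →
      ∀ (c : ℕ) (a b : Fin s → ℕ), c * V r X i ≤ x → (∀ i, a i ≤ b i) → (∀ j, b j * V r X i ≤ x) →
      (∀ i, b i < c ∨ c ≤ a i) → (∀ i j, i ≠ j → b i ≤ a j ∨ b j ≤ a i) → ∀ E : Fin s → Finset ℕ,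
        |(((Ioc Z (Z + Y)).filter (fun m => g r X i m ∧ ∀ j,
          ((Ioc (m + a j - c) (m + b j - c)).filter (fun k => g r X i k)).card ∈ E j)).card : ℝ) -
          Y * V r X i * ∏ j, ∑ l ∈ E j, Real.exp (-(((b j : ℝ) - a j) * V r X i)) *
            (((b j : ℝ) - a j) * V r X i) ^ l / l.factorial| ≤ ε * (Y * V r X i) := by
  obtain ⟨r0, h0⟩ := aq_palm A θ hθ s x ε hε
  refine ⟨max r0 2, ?_⟩
  intro r hr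
  have hr2 : 2 ≤ r := (le_max_right _ _).trans hr
  filter_upwards [h0 r ((le_max_left _ _).trans hr), hfam r (by omega), ap_short A x r hr2]
    with X hX hF hs
  intro i hi Z Y hXY hZY c a b hcV hab hb hc hdis E
  obtain ⟨u, v, hLF, hg, hV⟩ := hF i hi
  exact hX u v hLF (g r X i) (V r X i) (3 * X) hg hV Z Y hXY (by omega) c a b hcV hab hb (fun j => by
    have := hs u v hLF (b j) (by rw [hV]; exact hb j)
    omega) hc hdis E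

open Classical in
/-- the mixed moments for a family of systems -/
theorem af_mom {ι : Type*} (A : ℕ) (Ad : ℕ → ι → Prop) (g : ℕ → ℕ → ι → ℕ → Prop)
    (V : ℕ → ℕ → ι → ℝ)
    (hfam : ∀ r : ℕ, 1 ≤ r → ∀ᶠ X : ℕ in atTop, ∀ i : ι, Ad X i → ∃ u v : Fin 1 → ℤ,
      AF u v (X ^ A) ∧
      (∀ m ≤ 3 * X, Sf (QL u v) ⌊(X : ℝ) ^ (1 / (r : ℝ))⌋₊ m ↔ g r X i m) ∧
      Vq (QL u v) ⌊(X : ℝ) ^ (1 / (r : ℝ))⌋₊ = V r X i)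
    (θ : ℝ) (hθ : 0 < θ) {s : ℕ} (k : Fin s → ℕ) (x ε : ℝ) (hε : 0 < ε) :
    ∃ r0 : ℕ, ∀ r : ℕ, r0 ≤ r → ∀ᶠ X : ℕ in atTop, ∀ i : ι, Ad X i →
      ∀ Z Y : ℕ, (X : ℝ) ^ θ ≤ Y → Z + Y ≤ 2 * X →
      ∀ a b : Fin s → ℕ, (∀ i, a i ≤ b i) → (∀ j, b j * V r X i ≤ x) →
      (∀ i j, i ≠ j → b i ≤ a j ∨ b j ≤ a i) →
        |∑ n ∈ Ioc Z (Z + Y), ∏ j, ((((Ioc (n + a j) (n + b j)).filter
            (fun m => g r X i m)).card.choose (k j) : ℕ) : ℝ) -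
          Y * ∏ j, ((((b j : ℝ) - a j) * V r X i) ^ (k j) / (k j).factorial)| ≤ ε * Y := by
  obtain ⟨r0, h0⟩ := aq_mom A θ hθ k x ε hε
  refine ⟨max r0 2, ?_⟩
  intro r hr
  have hr2 : 2 ≤ r := (le_max_right _ _).trans hr
  filter_upwards [h0 r ((le_max_left _ _).trans hr), hfam r (by omega), ap_short A x r hr2]
    with X hX hF hs
  intro i hi Z Y hXY hZY
  obtain ⟨u, v, hLF, hg, hV⟩ := hF i hi
  exact hX u v hLF (g r X i) (V r X i) (3 * X) hg hV Z Y hXY (fun b hb => by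
    have := hs u v hLF b (by rw [hV]; exact hb)
    omega)

end Pool.Agent.TH464.PO
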