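import Pool.Agent.TH464.PO.LinLaw

set_option autoImplicit false

/-!
# Arithmetic progressions, uniformly in the modulus: the sizes
-/

namespace Pool.Agent.TH464.PO

open Finset Filter
open Pool.Agent.W123.RP Pool.Agent.H373R2.T7 Pool.Agent.W123.RU
open Pool.Agent.TH464.PW

/-- the upper bound for dimension one -/
theorem V_upper1 : ∃ C : ℝ, 0 < C ∧ ∀ Q : ℕ → ℕ → Prop, ∀ D : ℕ, D ≠ 0 →
    (∀ p : ℕ, p.Prime → nuB Q p < p) →
    (∀ p : ℕ, p.Prime → ¬ p ∣ D → 1 ≤ nuB Q p) → ∀ z y : ℕ, 2 ≤ z → z ≤ y → Real.log D ≤ z →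
    Vq Q y ≤ C * (Real.log z / Real.log y) := by
  obtain ⟨c, C, hc, hC, hV⟩ := Vz_bounds
  refine ⟨Real.exp 4 * (C / c), by positivity, ?_⟩
  intro Q D hD hadm h2 z y hz hzy hDz
  have hz0 : (0 : ℝ) < z := by exact_mod_cast (by omega : 0 < z)
  have hfac : ∀ p ∈ pz y, (0 : ℝ) < 1 - 1 / (p : ℝ) := by
    intro p hp
    have : (2 : ℝ) ≤ p := by exact_mod_cast (mem_pz.1 hp).2.two_le
    rw [sub_pos, div_lt_one (by linarith)]
    linarith
  obtain ⟨E, hE⟩ : ∃ E : ℝ, E = ∏ p ∈ (pz y).filter (fun p => z < p ∧ p ∣ D), (1 - 1 / (p : ℝ)) :=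
    ⟨_, rfl⟩
  -- the factors
  have hprod : Vq Q y * (Vz z * E) ≤ Vz y := by
    have e1 : Vz z = ∏ p ∈ (pz y).filter (fun p => p ≤ z), (1 - 1 / (p : ℝ)) := by
      unfold Vz
      apply Finset.prod_congr _ (fun _ _ => rfl)
      ext p
      rw [mem_filter, mem_pz, mem_pz]
      constructor
      · rintro ⟨h1, h2⟩
        exact ⟨⟨by omega, h2⟩, h1⟩
      · rintro ⟨⟨_, h2⟩, h1⟩
        exact ⟨h1, h2⟩
    rw [e1, hE, Finset.prod_filter, Finset.prod_filter, ← Finset.prod_mul_distrib]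
    unfold Vq Vz
    rw [← Finset.prod_mul_distrib]
    apply Finset.prod_le_prod
    · intro p hp
      have h3 := one_sub_nonneg Q p (mem_pz.1 hp).2
      have h4 := hfac p hp
      apply mul_nonneg h3
      split_ifs <;> positivity
    · intro p hp
      have hpp := (mem_pz.1 hp).2
      have h3 := one_sub_nonneg Q p hpp
      have h4 := hfac p hp
      have h5 : 1 - (nuB Q p : ℝ) / p ≤ 1 := by
        have : 0 ≤ (nuB Q p : ℝ) / p := by positivity
        linarith
      by_cases ha : p ≤ z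
      · rw [if_pos ha, if_neg (by omega), mul_one]
        nlinarith
      · rw [if_neg ha]
        by_cases hb : p ∣ D
        · rw [if_pos ⟨by omega, hb⟩, one_mul]
          nlinarith
        · rw [if_neg (fun h => hb h.2), mul_one, mul_one]
          have h6 : (1 : ℝ) ≤ nuB Q p := by exact_mod_cast h2 p hpp hb
          have hp0 : (0 : ℝ) < p := by exact_mod_cast hpp.pos
          have h7 : 1 / (p : ℝ) ≤ (nuB Q p : ℝ) / p := by gcongr
          linarith
  have hEpos : 0 < E := by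
    rw [hE]
    exact Finset.prod_pos fun p hp => hfac p (mem_filter.1 hp).1
  have hElow : Real.exp (-4) ≤ E := by
    have hcard : (((pz y).filter (fun p => z < p ∧ p ∣ D)).card : ℝ) ≤ 2 * z := by
      have h3 := card_le_log ((pz y).filter (fun p => z < p ∧ p ∣ D)) D hD (fun p hp => by
        rw [mem_filter, mem_pz] at hp
        exact ⟨hp.1.2, hp.2.2⟩)
      have h4 := Real.log_two_gt_d9
      have h5 : (0 : ℝ) ≤ (((pz y).filter (fun p => z < p ∧ p ∣ D)).card : ℝ) := Nat.cast_nonneg _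
      nlinarith
    calc Real.exp (-4) ≤ Real.exp (-(2 / z)) ^ ((pz y).filter (fun p => z < p ∧ p ∣ D)).card := by
          rw [← Real.exp_nat_mul]
          apply Real.exp_le_exp.2
          have : (((pz y).filter (fun p => z < p ∧ p ∣ D)).card : ℝ) * (2 / z) ≤ 4 := by
            rw [← mul_div_assoc, div_le_iff₀ hz0]
            linarith
          linarith
      _ = ∏ p ∈ (pz y).filter (fun p => z < p ∧ p ∣ D), Real.exp (-(2 / z)) := by
          rw [Finset.prod_const]
      _ ≤ E := by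
          rw [hE]
          apply Finset.prod_le_prod
          · intro p _
            exact (Real.exp_pos _).le
          · intro p hp
            rw [mem_filter] at hp
            have h3 := hfac p hp.1
            have hp2 : (2 : ℝ) ≤ p := by exact_mod_cast (mem_pz.1 hp.1).2.two_le
            have hzp : (z : ℝ) ≤ p := by exact_mod_cast hp.2.1.le
            have hp0 : (0 : ℝ) < p := by linarith
            have h4 : 1 + 2 / (p : ℝ) ≤ Real.exp (2 / p) := by
              have := Real.add_one_le_exp (2 / (p : ℝ))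
              linarith
            have h5 : 1 ≤ (1 - 1 / (p : ℝ)) * Real.exp (2 / p) := by
              have h6 : 1 ≤ (1 - 1 / (p : ℝ)) * (1 + 2 / p) := by
                have e : (1 - 1 / (p : ℝ)) * (1 + 2 / p) = 1 + (p - 2) / p ^ 2 := by
                  field_simp
                  ring
                rw [e]
                have : 0 ≤ ((p : ℝ) - 2) / p ^ 2 := div_nonneg (by linarith) (by positivity)
                linarith
              exact h6.trans (mul_le_mul_of_nonneg_left h4 h3.le)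
            have h6 : Real.exp (-(2 / p)) ≤ 1 - 1 / (p : ℝ) := by
              rw [Real.exp_neg, inv_eq_one_div, div_le_iff₀ (Real.exp_pos _)]
              exact h5
            refine le_trans ?_ h6
            apply Real.exp_le_exp.2
            apply neg_le_neg
            gcongr
  have hlz : 0 < Real.log z := Real.log_pos (by exact_mod_cast (by omega : 1 < z))
  have hly : 0 < Real.log y := Real.log_pos (by exact_mod_cast (by omega : 1 < y))
  have hz1 := (hV z hz).1
  have hy1 := (hV y (by omega)).2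
  have hVq0 : 0 ≤ Vq Q y := Vq_nonneg Q y
  have h3 : Vq Q y * ((c / Real.log z) * Real.exp (-4)) ≤ C / Real.log y := by
    calc Vq Q y * ((c / Real.log z) * Real.exp (-4)) ≤ Vq Q y * (Vz z * E) := by
          have h4 : 0 ≤ c / Real.log z := by positivity
          have h5 : 0 ≤ Vz z := h4.trans hz1
          gcongr
      _ ≤ Vz y := hprod
      _ ≤ C / Real.log y := hy1
  have he : Real.exp (-4) * Real.exp 4 = 1 := by rw [← Real.exp_add]; simp
  have e5 : Vq Q y = Vq Q y * ((c / Real.log z) * Real.exp (-4)) *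
      (Real.exp 4 * (Real.log z / c)) := by
    have : (c / Real.log z) * Real.exp (-4) * (Real.exp 4 * (Real.log z / c)) =
        (Real.exp (-4) * Real.exp 4) * ((c / Real.log z) * (Real.log z / c)) := by ring
    rw [mul_assoc, this, he]
    field_simp
  rw [e5]
  calc _ ≤ (C / Real.log y) * (Real.exp 4 * (Real.log z / c)) := by gcongr
    _ = _ := by
      field_simp

/-- one admissible linear form with bounded slope -/
structure AF (u v : Fin 1 → ℤ) (B : ℕ) : Prop where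
  ne : ∀ i, u i ≠ 0
  bu : ∀ i, |u i| ≤ B
  adm : ∀ p : ℕ, p.Prime → ∃ m : ℕ, ∀ i, ¬ (p : ℤ) ∣ u i * m + v i

variable {u v : Fin 1 → ℤ} {B : ℕ}

lemma af_not_dvd (h : AF u v B) (p : ℕ) (hp : p.Prime) (i : Fin 1) (m : ℕ)
    (hm : (p : ℤ) ∣ u i * m + v i) : ¬ (p : ℤ) ∣ u i := by
  intro hu
  obtain ⟨n, hn⟩ := h.adm p hp
  have hv : (p : ℤ) ∣ v i := by
    have := dvd_sub hm (hu.mul_right (m : ℤ))
    rwa [add_sub_cancel_left] at this
  exact hn i (dvd_add (hu.mul_right _) hv)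

lemma af_perB (h : AF u v B) : PerB (QL u v) 1 := by
  classical
  refine ⟨fun p n => ?_, fun p hp => ?_⟩
  · unfold QL
    exact exists_congr fun i => per1' (u i) (v i) p n
  · unfold nuB
    rw [Finset.card_le_one]
    intro a ha b hb
    rw [mem_filter, mem_range] at ha hb
    obtain ⟨ha1, i, hai⟩ := ha
    obtain ⟨hb1, j, hbj⟩ := hb
    obtain rfl : i = j := Subsingleton.elim _ _
    have hu := af_not_dvd h p hp i a hai
    have h1 : (p : ℤ) ∣ u i * ((a : ℤ) - b) := by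
      have := dvd_sub hai hbj
      have e : u i * (a : ℤ) + v i - (u i * b + v i) = u i * ((a : ℤ) - b) := by ring
      rwa [e] at this
    have h2 : (p : ℤ) ∣ (a : ℤ) - b := by
      rcases (Nat.prime_iff_prime_int.1 hp).dvd_or_dvd h1 with h3 | h3
      · exact absurd h3 hu
      · exact h3
    have h3 : (b : ℕ) ≡ a [MOD p] := by
      rw [← Int.natCast_modEq_iff]
      exact (Int.modEq_iff_dvd).2 h2
    have h4 : b % p = a % p := h3
    rw [Nat.mod_eq_of_lt ha1, Nat.mod_eq_of_lt hb1] at h4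
    exact h4.symm

lemma af_adm (h : AF u v B) (p : ℕ) (hp : p.Prime) : nuB (QL u v) p < p := by
  classical
  obtain ⟨m, hm⟩ := h.adm p hp
  unfold nuB
  have hlt : (range p).filter (fun r => QL u v p r) ⊂ range p := by
    rw [Finset.ssubset_iff_of_subset (filter_subset _ _)]
    refine ⟨m % p, mem_range.2 (Nat.mod_lt _ hp.pos), ?_⟩
    rw [mem_filter, not_and]
    rintro - ⟨i, hi⟩
    exact hm i ((per1' (u i) (v i) p m).2 hi)
  have := card_lt_card hlt
  rwa [card_range] at this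

lemma af_one (p : ℕ) (hp : p.Prime) (hD : ¬ p ∣ (u 0).natAbs) : 1 ≤ nuB (QL u v) p := by
  classical
  rw [← Int.natCast_dvd] at hD
  obtain ⟨a, ha1, ha2⟩ := exists_root p hp (u 0) (v 0) hD
  unfold nuB
  rw [Nat.succ_le_iff, card_pos]
  exact ⟨a, mem_filter.2 ⟨mem_range.2 ha1, 0, ha2⟩⟩

open Classical in
/-- no large primes divide a collision -/
lemma af_large (h : AF u v B) (T y t : ℕ) (ht : 1 ≤ t) (htT : t ≤ T) :
    ((((pz y).filter (fun p : ℕ => T < p ∧ CoG (QL u v) p t)).card : ℕ) : ℝ) = 0 := by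
  rw [Nat.cast_eq_zero, Finset.card_eq_zero, Finset.filter_eq_empty_iff]
  rintro p hp ⟨hp2, m, ⟨i, hi⟩, ⟨j, hj⟩⟩
  have hpp := (mem_pz.1 hp).2
  obtain rfl : i = j := Subsingleton.elim _ _
  have hu := af_not_dvd h p hpp i m hi
  have h1 : (p : ℤ) ∣ u i * t := by
    have := dvd_sub hj hi
    have e : u i * ((m + t : ℕ) : ℤ) + v i - (u i * m + v i) = u i * t := by
      push_cast
      ring
    rwa [e] at this
  rcases (Nat.prime_iff_prime_int.1 hpp).dvd_or_dvd h1 with h3 | h3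
  · exact hu h3
  · have h4 : p ∣ t := by exact_mod_cast h3
    have := Nat.le_of_dvd ht h4
    omega

open Classical in
/-- everything needed about the sizes, for one progression -/
lemma af_sizes (A : ℕ) (θ : ℝ) (hθ : 0 < θ) (K y0 T0 R0 : ℕ) (η κ x2 : ℝ) (hη : 0 < η)
    (hκ : 0 < κ) (hx2 : 0 < x2) :
    ∃ s0 : ℕ, ∀ s : ℕ, s0 ≤ s → ∀ᶠ X : ℕ in atTop, ∀ u v : Fin 1 → ℤ,
      AF u v (X ^ A) → ∀ Y : ℕ, (X : ℝ) ^ θ ≤ Y →
      ∀ y : ℕ, y = ⌊(X : ℝ) ^ (1 / (s : ℝ))⌋₊ →
      y0 ≤ y ∧ y ^ K ≤ Y ∧ Vq (QL u v) y ≤ κ ∧ √(Y : ℝ) ≤ κ * (Y * Vq (QL u v) y) ∧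
      x2 / Vq (QL u v) y ≤ κ * (Y * Vq (QL u v) y) ∧
      ∀ T : ℕ, κ ≤ T * Vq (QL u v) y → T * Vq (QL u v) y ≤ x2 → T0 ≤ T ∧ T ^ R0 ≤ Y ∧
        ∀ t ∈ Icc 1 T, ((((pz y).filter (fun p : ℕ => T < p ∧ CoG (QL u v) p t)).card : ℕ) : ℝ) ≤
          η * T := by
  obtain ⟨v0, hv0, hVlow⟩ := V_lower_unif 1
  obtain ⟨C, hC, hVup⟩ := V_upper1
  obtain ⟨R1, hR1⟩ : ∃ R1 : ℕ, (K : ℝ) / θ ≤ R1 := exists_nat_ge _
  refine ⟨max R1 2, ?_⟩
  intro s hs
  have hs2 : 2 ≤ s := (le_max_right _ _).trans hs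
  have hss : (2 : ℝ) ≤ s := by exact_mod_cast hs2
  have hspos : (0 : ℝ) < s := by linarith
  have hsK : (K : ℝ) ≤ θ * s := by
    have h1 : (K : ℝ) / θ ≤ s := hR1.trans (by exact_mod_cast (le_max_left _ _).trans hs)
    rw [div_le_iff₀ hθ] at h1
    linarith
  obtain ⟨M, hM⟩ : ∃ M : ℝ, M = T0 / κ + 1 / κ + 1 := ⟨_, rfl⟩
  have hM1b : 0 ≤ (T0 : ℝ) / κ := by positivity
  have hM1c : 0 ≤ 1 / κ := by positivity
  have hMpos : 0 < M := by linarith
  have hM1 : 1 ≤ M := by linarith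
  have hM3 : (T0 : ℝ) ≤ M * κ := by
    have : (T0 : ℝ) / κ ≤ M := by linarith
    rwa [div_le_iff₀ hκ] at this
  have hM4 : 1 ≤ M * κ := by
    have : 1 / κ ≤ M := by linarith
    rwa [div_le_iff₀ hκ] at this
  have hXr : Tendsto (fun X : ℕ => (X : ℝ)) atTop atTop := tendsto_natCast_atTop_atTop
  have hpow2 : Tendsto (fun X : ℕ => (X : ℝ) ^ (1 / (2 * s : ℝ))) atTop atTop :=
    (tendsto_rpow_atTop (by positivity)).comp hXr
  have hlogX : Tendsto (fun X : ℕ => Real.log (X : ℝ)) atTop atTop :=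
    Real.tendsto_log_atTop.comp hXr
  have hll : ∀ᶠ L : ℝ in atTop, C * (4 * s) * M * Real.log L ≤ L := by
    have h1 : 0 < 1 / (C * (4 * s) * M) := by positivity
    have h := (Real.isLittleO_log_id_atTop).bound h1
    filter_upwards [h, eventually_ge_atTop 1] with L h2 hL
    rw [Real.norm_of_nonneg (Real.log_nonneg hL), id, Real.norm_of_nonneg (by linarith)] at h2
    have h3 := mul_le_mul_of_nonneg_left h2 (show 0 ≤ C * (4 * (s : ℝ)) * M by positivity)
    calc C * (4 * (s : ℝ)) * M * Real.log L ≤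
        C * (4 * (s : ℝ)) * M * (1 / (C * (4 * s) * M) * L) := h3
      _ = L := by field_simp
  have hMb : 0 < (1 / (κ * v0)) ^ 2 + x2 / (κ * v0 ^ 2) := by positivity
  filter_upwards [hpow2.eventually_ge_atTop ((y0 : ℝ) + 3), eventually_ge_atTop 16,
    logpow_rpow 2 1 (1 / (2 * s)) one_pos (by positivity), hlogX.eventually hll,
    hlogX.eventually_ge_atTop (4 * A + 4), hlogX.eventually_ge_atTop (x2 / v0),
    logpow_rpow (2 * R0) 1 θ one_pos hθ,
    logpow_rpow (2 * 1) ((1 / (κ * v0)) ^ 2 + x2 / (κ * v0 ^ 2)) θ hMb hθ] with X hX1 hX16 hX2 hX3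
      hX5 hX6 hX7 hX8
  intro u v hLF Y hXY y hy
  have hX16r : (16 : ℝ) ≤ X := by exact_mod_cast hX16
  have hXpos : (0 : ℝ) < X := by linarith
  have hXone : (1 : ℝ) ≤ X := by linarith
  have hy0r : (0 : ℝ) ≤ y0 := Nat.cast_nonneg _
  have hA0 : (0 : ℝ) ≤ A := Nat.cast_nonneg _
  obtain ⟨hy1, hy2, hy3, hy4⟩ := level_low s hs2 X (by omega) (by linarith)
  rw [← hy] at hy1 hy2 hy3 hy4
  obtain ⟨L, hL⟩ : ∃ L, L = Real.log X := ⟨_, rfl⟩
  rw [← hL] at hX2 hX3 hX5 hX6 hX7 hX8 hy2 hy3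
  have hL4 : 4 ≤ L := by linarith
  have hLpos : 0 < L := by linarith
  have hyr : (y0 : ℝ) + 3 ≤ y := hX1.trans hy1
  have hyy0 : y0 ≤ y := by
    have : (y0 : ℝ) ≤ y := by linarith
    exact_mod_cast this
  have hlogy : 0 < Real.log y := lt_of_lt_of_le (by positivity) hy2
  have hY0 : (0 : ℝ) ≤ Y := Nat.cast_nonneg Y
  have hV0 : 0 < Vq (QL u v) y := Vq_pos (QL u v) (fun p hp => af_adm hLF p hp) y
  have hVlo := hVlow (QL u v) (af_perB hLF) (fun p hp => af_adm hLF p hp) y hy4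
  rw [pow_one] at hVlo
  have hVX : v0 / L ≤ Vq (QL u v) y := by
    refine le_trans ?_ hVlo
    gcongr
  -- the upper bound for the density
  have hVM : Vq (QL u v) y * M ≤ 1 := by
    obtain ⟨z, hz⟩ : ∃ z, z = ⌊L ^ 2⌋₊ := ⟨_, rfl⟩
    have hz1 : (z : ℝ) ≤ L ^ 2 := by
      rw [hz]
      exact Nat.floor_le (by positivity)
    have hz2 : L ^ 2 - 1 ≤ z := by
      have := Nat.lt_floor_add_one (L ^ 2)
      rw [← hz] at this
      linarith
    have hz3 : (4 * A + 2) * L ≤ z := by nlinarith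
    have hz4 : (2 : ℝ) ≤ z := by nlinarith
    have hzy : (z : ℝ) ≤ y := by
      refine hz1.trans (le_trans ?_ (hX2.trans hy1))
      rw [one_mul]
    have hD : (u 0).natAbs ≠ 0 := Int.natAbs_ne_zero.2 (hLF.ne 0)
    have hlogD : Real.log (((u 0).natAbs : ℕ) : ℝ) ≤ z := by
      refine le_trans ?_ hz3
      have h2 : (u 0).natAbs ≤ X ^ A := by
        have h1 := hLF.bu 0
        rw [Int.abs_eq_natAbs] at h1
        exact_mod_cast h1
      have h3 : (((u 0).natAbs : ℕ) : ℝ) ≤ (X : ℝ) ^ A := by exact_mod_cast h2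
      have h4 : (0 : ℝ) < (((u 0).natAbs : ℕ) : ℝ) := by exact_mod_cast Nat.pos_of_ne_zero hD
      calc Real.log (((u 0).natAbs : ℕ) : ℝ) ≤ Real.log ((X : ℝ) ^ A) := Real.log_le_log h4 h3
        _ = A * L := by rw [Real.log_pow, ← hL]
        _ ≤ (4 * A + 2) * L := by nlinarith
    have h1 := hVup (QL u v) _ hD (fun p hp => af_adm hLF p hp)
      (fun p hp hd => af_one p hp hd) z y (by exact_mod_cast hz4) (by exact_mod_cast hzy) hlogD
    have hlz : Real.log z ≤ 2 * Real.log L := by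
      have := Real.log_le_log (by linarith) hz1
      rw [Real.log_pow] at this
      exact_mod_cast this
    have hlz0 : 0 ≤ Real.log z := Real.log_nonneg (by linarith)
    have h2 : Real.log z / Real.log y ≤ 2 * Real.log L / (L / (2 * s)) := by
      have hl0 : 0 ≤ 2 * Real.log L := hlz0.trans hlz
      gcongr
    calc Vq (QL u v) y * M ≤ (C * (2 * Real.log L / (L / (2 * s)))) * M := by
          gcongr
          exact h1.trans (mul_le_mul_of_nonneg_left h2 hC.le)
      _ = (C * (4 * s) * M * Real.log L) / L := by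
          field_simp
          ring
      _ ≤ 1 := by
          rw [div_le_one hLpos]
          exact hX3
  have hyK : y ^ K ≤ Y := by
    have h3 : ((y ^ K : ℕ) : ℝ) ≤ Y := by
      push_cast
      calc (y : ℝ) ^ K ≤ ((X : ℝ) ^ (1 / (s : ℝ))) ^ K := by
            apply pow_le_pow_left₀ (Nat.cast_nonneg _)
            rw [hy]
            exact Nat.floor_le (by positivity)
        _ = (X : ℝ) ^ (1 / (s : ℝ) * K) := by
            rw [Real.rpow_mul hXpos.le, Real.rpow_natCast]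
        _ ≤ (X : ℝ) ^ θ := by
            apply Real.rpow_le_rpow_of_exponent_le hXone
            rw [one_div, inv_mul_eq_div, div_le_iff₀ hspos]
            exact hsK
        _ ≤ Y := hXY
    exact_mod_cast h3
  have hYbig : ((1 / (κ * v0)) ^ 2 + x2 / (κ * v0 ^ 2)) * L ^ (2 * 1) ≤ Y := hX8.trans hXY
  rw [mul_one] at hYbig
  have hYa : (1 / (κ * v0)) ^ 2 * L ^ 2 ≤ Y := by
    refine le_trans ?_ hYbig
    gcongr
    have : 0 < x2 / (κ * v0 ^ 2) := by positivity
    linarith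
  have hYb : x2 / (κ * v0 ^ 2) * L ^ 2 ≤ Y := by
    refine le_trans ?_ hYbig
    gcongr
    have : 0 < (1 / (κ * v0)) ^ 2 := by positivity
    linarith
  refine ⟨hyy0, hyK, ?_, ?_, ?_, ?_⟩
  · -- V is small
    calc Vq (QL u v) y = Vq (QL u v) y * 1 := (mul_one _).symm
      _ ≤ Vq (QL u v) y * (M * κ) := by gcongr
      _ = Vq (QL u v) y * M * κ := by ring
      _ ≤ 1 * κ := by gcongr
      _ = κ := one_mul κ
  · have h3 : 1 / (κ * v0) * L ≤ √(Y : ℝ) := by
      apply Real.le_sqrt_of_sq_le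
      rw [mul_pow]
      exact hYa
    have h4 : √(Y : ℝ) * √(Y : ℝ) = Y := Real.mul_self_sqrt hY0
    calc √(Y : ℝ) = κ * (√(Y : ℝ) * (1 / (κ * v0) * L) * (v0 / L)) := by
          field_simp
      _ ≤ κ * (√(Y : ℝ) * √(Y : ℝ) * Vq (QL u v) y) := by gcongr
      _ = κ * (Y * Vq (QL u v) y) := by rw [h4]
  · rw [div_le_iff₀ hV0]
    have hsq : (v0 / L) ^ 2 ≤ Vq (QL u v) y ^ 2 := pow_le_pow_left₀ (by positivity) hVX 2
    calc x2 = κ * (x2 / (κ * v0 ^ 2) * L ^ 2 * (v0 / L) ^ 2) := by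
          field_simp
      _ ≤ κ * (Y * Vq (QL u v) y ^ 2) := by gcongr
      _ = κ * (Y * Vq (QL u v) y) * Vq (QL u v) y := by ring
  · intro T hT1 hT2
    have hT0r : (0 : ℝ) ≤ T := Nat.cast_nonneg T
    -- lower bound for `T`
    have hTlow : κ * M ≤ T := by
      calc κ * M ≤ T * Vq (QL u v) y * M := by gcongr
        _ = T * (Vq (QL u v) y * M) := by ring
        _ ≤ T * 1 := by gcongr
        _ = T := mul_one _
    have hTup : (T : ℝ) ≤ L ^ 2 := by
      have h1 : (T : ℝ) * (v0 / L) ≤ x2 := (mul_le_mul_of_nonneg_left hVX hT0r).trans hT2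
      have h2 : (T : ℝ) * v0 ≤ x2 * L := by
        calc (T : ℝ) * v0 = T * (v0 / L) * L := by field_simp
          _ ≤ x2 * L := mul_le_mul_of_nonneg_right h1 hLpos.le
      rw [div_le_iff₀ hv0] at hX6
      have h3 : (T : ℝ) * v0 ≤ L ^ 2 * v0 := by
        calc (T : ℝ) * v0 ≤ x2 * L := h2
          _ ≤ L * v0 * L := by gcongr
          _ = L ^ 2 * v0 := by ring
      exact le_of_mul_le_mul_right h3 hv0
    refine ⟨?_, ?_, ?_⟩
    · have : (T0 : ℝ) ≤ T := by
        refine le_trans ?_ hTlow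
        rw [mul_comm]
        exact hM3
      exact_mod_cast this
    · have h3 : ((T ^ R0 : ℕ) : ℝ) ≤ Y := by
        push_cast
        calc (T : ℝ) ^ R0 ≤ (L ^ 2) ^ R0 := pow_le_pow_left₀ hT0r hTup _
          _ = 1 * L ^ (2 * R0) := by rw [one_mul, pow_mul]
          _ ≤ (X : ℝ) ^ θ := hX7
          _ ≤ Y := hXY
      exact_mod_cast h3
    · intro t ht
      rw [mem_Icc] at ht
      rw [af_large hLF T y t ht.1 ht.2]
      positivity

end Pool.Agent.TH464.PO
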