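import Pool.Agent.TH464.PO.BaseGap

set_option autoImplicit false

/-!
# Exact gaps and patterns: progressions, linear forms, Goldbach
-/

namespace Pool.Agent.TH464.PO

open Finset Filter
open Pool.Agent.W123.RP Pool.Agent.H373R2.T7 Pool.Agent.W123.RU
open Pool.Agent.TH464.PW

open Classical in
/-- gaps of prescribed exact lengths in progressions -/
theorem af_exact {ι : Type*} (A : ℕ) (Ad : ℕ → ι → Prop) (g : ℕ → ℕ → ι → ℕ → Prop)
    (V : ℕ → ℕ → ι → ℝ) (VB : ℕ → ℕ → ι → Finset ℕ → ℝ)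
    (hfam : ∀ r : ℕ, 1 ≤ r → ∀ᶠ X : ℕ in atTop, ∀ i : ι, Ad X i → ∃ u v : Fin 1 → ℤ,
      AF u v (X ^ A) ∧
      (∀ m ≤ 3 * X, Sf (QL u v) ⌊(X : ℝ) ^ (1 / (r : ℝ))⌋₊ m ↔ g r X i m) ∧
      Vq (QL u v) ⌊(X : ℝ) ^ (1 / (r : ℝ))⌋₊ = V r X i ∧
      ∀ B, Vq (QH (QL u v) B) ⌊(X : ℝ) ^ (1 / (r : ℝ))⌋₊ = VB r X i B)
    (θ : ℝ) (hθ : 0 < θ) (s : ℕ) (x ε : ℝ) (hε : 0 < ε) :
    ∃ r0 : ℕ, ∀ r : ℕ, r0 ≤ r → ∀ᶠ X : ℕ in atTop, ∀ i : ι, Ad X i →
      ∀ Z Y : ℕ, (X : ℝ) ^ θ ≤ Y → Z + Y ≤ 2 * X → ∀ d : Fin s → ℕ, (∀ j, 1 ≤ d j) →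
        ps d s * V r X i ≤ x →
        |(((Ioc Z (Z + Y)).filter (fun b => g r X i b ∧ ∀ j : Fin s,
            (nx (g r X i))^[(j : ℕ) + 1] b - (nx (g r X i))^[(j : ℕ)] b = d j)).card : ℝ) -
          Y * VB r X i (Bs d) * Real.exp (-(ps d s * V r X i))| ≤ ε * (Y * VB r X i (Bs d)) := by
  obtain ⟨K0, y0, T0, R0, η', δ, hη', hδ, hlaw⟩ := exact_core s 1 le_rfl x ε hε
  obtain ⟨r0, h0⟩ := af_sizes A θ hθ K0 y0 T0 R0 η' (min δ 1) (|x| + 2) hη' (by positivity)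
    (by positivity)
  refine ⟨max r0 2, ?_⟩
  intro r hr
  have hr2 : 2 ≤ r := (le_max_right _ _).trans hr
  filter_upwards [h0 r ((le_max_left _ _).trans hr), hfam r (by omega), ap_short A x r hr2]
    with X hX hF hs
  intro i hi Z Y hXY hZY d hd hdx
  obtain ⟨u, v, hAF, hg, hV, hVB⟩ := hF i hi
  obtain ⟨a1, a2, a3, a4, a5, a6⟩ := hX u v hAF Y hXY _ rfl
  have hM : ps d s ≤ X := hs u v hAF _ (by rw [hV]; exact hdx)
  rw [← hV, ← hVB (Bs d)]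
  exact hlaw (QL u v) Z Y _ (af_perB hAF) (fun p hp => af_adm hAF p hp) a1 a2
    (a3.trans (min_le_left _ _)) (fun T t1 t2 => a6 T ((min_le_right _ _).trans t1) t2)
    (g r X i) (3 * X) hg d hd (by rw [hV]; exact hdx) (by omega)

open Classical in
/-- patterns with prescribed surroundings in progressions -/
theorem af_base {ι : Type*} (A : ℕ) (Ad : ℕ → ι → Prop) (g : ℕ → ℕ → ι → ℕ → Prop)
    (V : ℕ → ℕ → ι → ℝ) (VB : ℕ → ℕ → ι → Finset ℕ → ℝ)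
    (hfam : ∀ r : ℕ, 1 ≤ r → ∀ᶠ X : ℕ in atTop, ∀ i : ι, Ad X i → ∃ u v : Fin 1 → ℤ,
      AF u v (X ^ A) ∧
      (∀ m ≤ 3 * X, Sf (QL u v) ⌊(X : ℝ) ^ (1 / (r : ℝ))⌋₊ m ↔ g r X i m) ∧
      Vq (QL u v) ⌊(X : ℝ) ^ (1 / (r : ℝ))⌋₊ = V r X i ∧
      ∀ B, Vq (QH (QL u v) B) ⌊(X : ℝ) ^ (1 / (r : ℝ))⌋₊ = VB r X i B)
    (θ : ℝ) (hθ : 0 < θ) (β s : ℕ) (x ε : ℝ) (hε : 0 < ε) :
    ∃ r0 : ℕ, ∀ r : ℕ, r0 ≤ r → ∀ᶠ X : ℕ in atTop, ∀ i : ι, Ad X i →
      ∀ Z Y : ℕ, (X : ℝ) ^ θ ≤ Y → Z + Y ≤ 2 * X → ∀ B : Finset ℕ, B.card ≤ β →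
      (∀ h ∈ B, h * V r X i ≤ x) →
      ∀ a b : Fin s → ℕ, (∀ i, a i ≤ b i) → (∀ j, b j * V r X i ≤ x) →
      (∀ i j, i ≠ j → b i ≤ a j ∨ b j ≤ a i) → (∀ i, ∀ h ∈ B, h ≤ a i ∨ b i < h) →
      ∀ E : Fin s → Finset ℕ,
        |(((Ioc Z (Z + Y)).filter (fun n => (∀ h ∈ B, g r X i (n + h)) ∧ ∀ j,
            ((Ioc (n + a j) (n + b j)).filter (fun m => g r X i m)).card ∈ E j)).card : ℝ) -
          Y * VB r X i B * ∏ j, ∑ l ∈ E j, Real.exp (-(((b j : ℝ) - a j) * V r X i)) *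
            (((b j : ℝ) - a j) * V r X i) ^ l / l.factorial| ≤ ε * (Y * VB r X i B) := by
  obtain ⟨K0, y0, T0, R0, η', hη', hlaw⟩ := base_core s 1 le_rfl β x ε hε
  obtain ⟨r0, h0⟩ := af_sizes A θ hθ K0 y0 T0 R0 η' 1 (|x| + 2) hη' one_pos (by positivity)
  refine ⟨max r0 2, ?_⟩
  intro r hr
  have hr2 : 2 ≤ r := (le_max_right _ _).trans hr
  filter_upwards [h0 r ((le_max_left _ _).trans hr), hfam r (by omega), ap_short A x r hr2]
    with X hX hF hs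
  intro i hi Z Y hXY hZY B hBβ hBx a b hab hb hdis hBd E
  obtain ⟨u, v, hAF, hg, hV, hVB⟩ := hF i hi
  obtain ⟨a1, a2, a3, a4, a5, a6⟩ := hX u v hAF Y hXY _ rfl
  rw [← hV] at hBx hb ⊢
  rw [← hVB B]
  exact hlaw (QL u v) Z Y _ (af_perB hAF) (fun p hp => af_adm hAF p hp) a1 a2 a6
    (g r X i) (3 * X) hg B hBβ hBx (fun h hh => by
      have := hs u v hAF _ (hBx h hh)
      omega) a b hab hb (fun j => by
      have := hs u v hAF _ (hb j)
      omega) hdis hBd E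

open Classical in
/-- gaps of prescribed exact lengths for families of systems of linear forms -/
theorem fam_exact {ι : Type*} (K A : ℕ) (hK : 1 ≤ K) (Ad : ℕ → ι → Prop) (g : ℕ → ℕ → ι → ℕ → Prop)
    (V : ℕ → ℕ → ι → ℝ) (VB : ℕ → ℕ → ι → Finset ℕ → ℝ)
    (hfam : ∀ r : ℕ, 1 ≤ r → ∀ᶠ X : ℕ in atTop, ∀ i : ι, Ad X i → ∃ u v : Fin K → ℤ,
      LF K u v (X ^ A) (Real.log X ^ (K + 1)) ∧
      (∀ m ≤ 3 * X, Sf (QL u v) ⌊(X : ℝ) ^ (1 / (r : ℝ))⌋₊ m ↔ g r X i m) ∧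
      Vq (QL u v) ⌊(X : ℝ) ^ (1 / (r : ℝ))⌋₊ = V r X i ∧
      ∀ B, Vq (QH (QL u v) B) ⌊(X : ℝ) ^ (1 / (r : ℝ))⌋₊ = VB r X i B)
    (θ : ℝ) (hθ : 0 < θ) (s : ℕ) (x ε : ℝ) (hε : 0 < ε) :
    ∃ r0 : ℕ, ∀ r : ℕ, r0 ≤ r → ∀ᶠ X : ℕ in atTop, ∀ i : ι, Ad X i →
      ∀ Z Y : ℕ, (X : ℝ) ^ θ ≤ Y → Z + Y ≤ 2 * X → ∀ d : Fin s → ℕ, (∀ j, 1 ≤ d j) →
        ps d s * V r X i ≤ x →
        |(((Ioc Z (Z + Y)).filter (fun b => g r X i b ∧ ∀ j : Fin s,
            (nx (g r X i))^[(j : ℕ) + 1] b - (nx (g r X i))^[(j : ℕ)] b = d j)).card : ℝ) -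
          Y * VB r X i (Bs d) * Real.exp (-(ps d s * V r X i))| ≤ ε * (Y * VB r X i (Bs d)) := by
  obtain ⟨K0, y0, T0, R0, η', δ, hη', hδ, hlaw⟩ := exact_core s K hK x ε hε
  obtain ⟨r0, h0⟩ := lin_sizes K A θ hθ K0 y0 T0 R0 η' (min δ 1) (|x| + 2) hη' (by positivity)
    (by positivity)
  refine ⟨max r0 2, ?_⟩
  intro r hr
  have hr2 : 2 ≤ r := (le_max_right _ _).trans hr
  filter_upwards [h0 r ((le_max_left _ _).trans hr), hfam r (by omega), lin_short K A x r hr2]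
    with X hX hF hs
  intro i hi Z Y hXY hZY d hd hdx
  obtain ⟨u, v, hAF, hg, hV, hVB⟩ := hF i hi
  obtain ⟨a1, a2, a3, a4, a5, a6⟩ := hX u v hAF Y hXY _ rfl
  have hM : ps d s ≤ X := hs u v hAF _ (by rw [hV]; exact hdx)
  rw [← hV, ← hVB (Bs d)]
  exact hlaw (QL u v) Z Y _ (lf_perB hAF) (fun p hp => lf_adm hAF p hp) a1 a2
    (a3.trans (min_le_left _ _)) (fun T t1 t2 => a6 T ((min_le_right _ _).trans t1) t2)
    (g r X i) (3 * X) hg d hd (by rw [hV]; exact hdx) (by omega)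

open Classical in
/-- gaps of prescribed exact lengths between almost prime Goldbach representations -/
theorem gold_exact (θ : ℝ) (hθ : 0 < θ) (s : ℕ) (x ε : ℝ) (hε : 0 < ε) :
    ∃ r0 : ℕ, ∀ r : ℕ, r0 ≤ r → ∀ᶠ N : ℕ in atTop, 2 ∣ N →
      ∀ (g : ℕ → Prop) (V : ℝ) (VB : Finset ℕ → ℝ), (∀ m ≤ N, GP r N m ↔ g m) →
      Vq (QL gu (gv N)) ⌊(N : ℝ) ^ (1 / (r : ℝ))⌋₊ = V →
      (∀ B, Vq (QH (QL gu (gv N)) B) ⌊(N : ℝ) ^ (1 / (r : ℝ))⌋₊ = VB B) →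
      ∀ Z Y : ℕ, (N : ℝ) ^ θ ≤ Y → Z + 2 * Y ≤ N → ∀ d : Fin s → ℕ, (∀ j, 1 ≤ d j) →
        ps d s * V ≤ x →
        |(((Ioc Z (Z + Y)).filter (fun b => g b ∧ ∀ j : Fin s,
            (nx g)^[(j : ℕ) + 1] b - (nx g)^[(j : ℕ)] b = d j)).card : ℝ) -
          Y * VB (Bs d) * Real.exp (-(ps d s * V))| ≤ ε * (Y * VB (Bs d)) := by
  obtain ⟨K0, y0, T0, R0, η', δ, hη', hδ, hlaw⟩ := exact_core s 2 (by norm_num) x ε hε
  obtain ⟨r0, h0⟩ := lin_sizes 2 1 θ hθ K0 y0 T0 R0 η' (min δ 1) (|x| + 2) hη' (by positivity)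
    (by positivity)
  refine ⟨max r0 2, ?_⟩
  intro r hr
  have hr2 : 2 ≤ r := (le_max_right _ _).trans hr
  have hrr : (1 : ℝ) ≤ r := by exact_mod_cast (by omega : 1 ≤ r)
  have hpow1 : Tendsto (fun X : ℕ => (X : ℝ) ^ (1 / (r : ℝ))) atTop atTop :=
    (tendsto_rpow_atTop (by positivity)).comp tendsto_natCast_atTop_atTop
  filter_upwards [h0 r ((le_max_left _ _).trans hr), hpow1.eventually_ge_atTop 2, log3_lt,
    eventually_ge_atTop 3] with N hX h2 hRN h3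
  intro hN g V VB hg hV hVB Z Y hXY hZY d hd hdx
  have hLF := gLF N hN h3 _ hRN
  obtain ⟨a1, a2, a3, a4, a5, a6⟩ := hX gu (gv N) hLF Y hXY _ rfl
  rw [hV] at a5
  have hV0 : 0 < V := by
    rw [← hV]
    exact Vq_pos (QL gu (gv N)) (fun p hp => lf_adm hLF p hp) _
  have hM : ps d s ≤ Y := by
    have hV1 : V ≤ 1 := by
      rw [← hV]
      exact Vq_le_one _ _
    have h4 : (ps d s : ℝ) ≤ x / V := by
      rw [le_div_iff₀ hV0]
      exact hdx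
    have h5 : x / V ≤ (|x| + 2) / V :=
      div_le_div_of_nonneg_right ((le_abs_self x).trans (by linarith)) hV0.le
    have h6 : min δ 1 * (Y * V) ≤ Y := by
      have h7 : min δ 1 ≤ 1 := min_le_right _ _
      have h9 : (0 : ℝ) ≤ Y := Nat.cast_nonneg Y
      have h10 : 0 ≤ min δ 1 := by positivity
      calc min δ 1 * (Y * V) ≤ 1 * (Y * 1) := by gcongr
        _ = Y := by ring
    have : (ps d s : ℝ) ≤ Y := h4.trans (h5.trans (a5.trans h6))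
    exact_mod_cast this
  rw [← hV, ← hVB (Bs d)]
  exact hlaw (QL gu (gv N)) Z Y _ (lf_perB hLF) (fun p hp => lf_adm hLF p hp) a1 a2
    (a3.trans (min_le_left _ _)) (fun T t1 t2 => a6 T ((min_le_right _ _).trans t1) t2)
    g N (fun m hm => (sf_GP r N (by omega) (by omega) h2 m hm).trans (hg m hm)) d hd
    (by rw [hV]; exact hdx) (by omega)

/-! ### densities -/

/-- the density of a pattern, natural forms -/
lemma V_natB {K : ℕ} (a b : Fin K → ℕ) (B : Finset ℕ) (R : ℕ → ℕ → Prop)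
    {inst : ∀ p, DecidablePred (R p)}
    (h : ∀ p m : ℕ, (∃ t ∈ B, ∃ i, p ∣ a i * (m + t) + b i) ↔ R p m) (y : ℕ) :
    Vq (QH (QL (fun i => (a i : ℤ)) (fun i => (b i : ℤ))) B) y =
      ∏ p ∈ (Finset.range (y + 1)).filter Nat.Prime,
        (1 - (((Finset.range p).filter (R p)).card : ℝ) / p) := by
  refine V_gen' _ R (fun p m => ?_) y
  rw [← h p m]
  unfold QH
  apply exists_congr
  intro t
  apply and_congr_right
  intro _
  exact QL_nat a b p (m + t)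

/-- the density of a pattern in a progression: the number of the residues -/
lemma V_apB (q a : ℕ) (hco : Nat.Coprime a q) (B : Finset ℕ) (y : ℕ) :
    Vq (QH (QL (fun _ : Fin 1 => (q : ℤ)) (fun _ => (a : ℤ))) B) y =
      ∏ p ∈ (Finset.range (y + 1)).filter (fun p => p.Prime ∧ ¬ p ∣ q),
        (1 - ((B.image (fun h => h % p)).card : ℝ) / p) := by
  classical
  rw [V_natB (fun _ : Fin 1 => q) (fun _ => a) B (fun p m => ∃ t ∈ B, p ∣ q * (m + t) + a)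
    (fun p m => by
      apply exists_congr
      intro t
      apply and_congr_right
      intro _
      exact ⟨fun h => h.choose_spec, fun h => ⟨0, h⟩⟩) y, ← Finset.filter_filter,
    Finset.prod_filter (fun p => ¬ p ∣ q)]
  apply Finset.prod_congr rfl
  intro p hp
  rw [mem_filter] at hp
  have hpp := hp.2
  by_cases hq : p ∣ q
  · rw [if_neg (not_not.2 hq)]
    have h1 : (Finset.range p).filter (fun m => ∃ t ∈ B, p ∣ q * (m + t) + a) = ∅ := by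
      apply Finset.filter_eq_empty_iff.2
      rintro m _ ⟨t, _, hd⟩
      have h2 : p ∣ a := (Nat.dvd_add_right (hq.mul_right (m + t))).1 hd
      have h3 : p ∣ Nat.gcd a q := Nat.dvd_gcd h2 hq
      rw [hco] at h3
      exact hpp.one_lt.ne' (Nat.dvd_one.1 h3)
    rw [h1, card_empty]
    norm_num
  · rw [if_pos hq]
    have hq' : ¬ (p : ℤ) ∣ (q : ℤ) := by
      rw [Int.natCast_dvd_natCast]
      exact hq
    have hcop : Nat.Coprime p q := (Nat.Prime.coprime_iff_not_dvd hpp).2 hq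
    have hex : ∀ t : ℕ, ∃ m, m < p ∧ p ∣ q * (m + t) + a := by
      intro t
      obtain ⟨m, hm, hd⟩ := exists_root p hpp (q : ℤ) (q * t + a) hq'
      refine ⟨m, hm, ?_⟩
      rw [← Int.natCast_dvd_natCast]
      have e : ((q * (m + t) + a : ℕ) : ℤ) = q * m + (q * t + a) := by
        push_cast
        ring
      rw [e]
      exact hd
    choose φ hφ1 hφ2 using hex
    have huniq : ∀ m m' t t' : ℕ, p ∣ q * (m + t) + a → p ∣ q * (m' + t') + a →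
        m + t ≡ m' + t' [MOD p] := by
      intro m m' t t' h1 h2
      have h3 : q * (m + t) + a ≡ q * (m' + t') + a [MOD p] :=
        (Nat.modEq_zero_iff_dvd.2 h1).trans (Nat.modEq_zero_iff_dvd.2 h2).symm
      exact Nat.ModEq.cancel_left_of_coprime hcop (Nat.ModEq.add_right_cancel' a h3)
    have hset : (Finset.range p).filter (fun m => ∃ t ∈ B, p ∣ q * (m + t) + a) =
        (B.image (fun h => h % p)).image φ := by
      ext m
      rw [mem_filter, mem_range, mem_image]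
      constructor
      · rintro ⟨hm, t, ht, hd⟩
        refine ⟨t % p, mem_image_of_mem _ ht, ?_⟩
        have h1 := huniq (φ (t % p)) m (t % p) t (hφ2 _) hd
        have h2 : φ (t % p) + t ≡ m + t [MOD p] :=
          (Nat.ModEq.add_left _ (Nat.mod_modEq t p)).symm.trans h1
        have h3 : φ (t % p) % p = m % p := Nat.ModEq.add_right_cancel' t h2
        rwa [Nat.mod_eq_of_lt (hφ1 _), Nat.mod_eq_of_lt hm] at h3
      · rintro ⟨r, hr, rfl⟩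
        rw [mem_image] at hr
        obtain ⟨t, ht, rfl⟩ := hr
        refine ⟨hφ1 _, t, ht, ?_⟩
        have h1 : q * (φ (t % p) + t) + a ≡ q * (φ (t % p) + t % p) + a [MOD p] :=
          Nat.ModEq.add_right _ (Nat.ModEq.mul_left _ (Nat.ModEq.add_left _ (Nat.mod_modEq t p).symm))
        exact Nat.modEq_zero_iff_dvd.1 (h1.trans (Nat.modEq_zero_iff_dvd.2 (hφ2 _)))
    have hcard : ((B.image (fun h => h % p)).image φ).card = (B.image (fun h => h % p)).card := by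
      apply card_image_of_injOn
      intro r hr r' hr' h
      rw [Finset.mem_coe, mem_image] at hr hr'
      obtain ⟨t, _, rfl⟩ := hr
      obtain ⟨t', _, rfl⟩ := hr'
      have h1 := huniq _ _ _ _ (hφ2 (t % p)) (hφ2 (t' % p))
      rw [h] at h1
      have h2 : t % p % p = t' % p % p := Nat.ModEq.add_left_cancel' _ h1
      rwa [Nat.mod_mod, Nat.mod_mod] at h2
    rw [hset, hcard]

/-- the density of a pattern, Goldbach -/
lemma gold_VB (N : ℕ) (B : Finset ℕ)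
    {inst : ∀ p, DecidablePred (fun m : ℕ => ∃ t ∈ B, p ∣ m + t ∨ m + t ≡ N [MOD p])} (y : ℕ) :
    Vq (QH (QL gu (gv N)) B) y =
    ∏ p ∈ (Finset.range (y + 1)).filter Nat.Prime, (1 - ((((Finset.range p).filter
      (fun m => ∃ t ∈ B, p ∣ m + t ∨ m + t ≡ N [MOD p])).card : ℕ) : ℝ) / p) := by
  refine V_gen' (QH (QL gu (gv N)) B) (fun p m => ∃ t ∈ B, p ∣ m + t ∨ m + t ≡ N [MOD p])
    (inst := inst) (fun p m => ?_) y
  unfold QH
  apply exists_congr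
  intro t
  apply and_congr_right
  intro _
  unfold QL gu gv
  rw [Fin.exists_fin_two]
  simp only [Matrix.cons_val_zero, Matrix.cons_val_one]
  apply or_congr
  · rw [one_mul, add_zero, Int.natCast_dvd_natCast]
  · rw [← Int.natCast_modEq_iff, Int.modEq_iff_dvd]
    have e : (-1 : ℤ) * ((m + t : ℕ) : ℤ) + N = (N : ℤ) - ((m + t : ℕ) : ℤ) := by ring
    rw [e]

end Pool.Agent.TH464.PO
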