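import Pool.Agent.TH464.PO.BaseFam

set_option autoImplicit false

/-!
# Patterns with prescribed surroundings: linear forms, Goldbach
-/

namespace Pool.Agent.TH464.PO

open Finset Filter
open Pool.Agent.W123.RP Pool.Agent.H373R2.T7 Pool.Agent.W123.RU
open Pool.Agent.TH464.PW

open Classical in
/-- patterns with prescribed surroundings for families of systems of linear forms -/
theorem fam_base {ι : Type*} (K A : ℕ) (hK : 1 ≤ K) (Ad : ℕ → ι → Prop) (g : ℕ → ℕ → ι → ℕ → Prop)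
    (V : ℕ → ℕ → ι → ℝ) (VB : ℕ → ℕ → ι → Finset ℕ → ℝ)
    (hfam : ∀ r : ℕ, 1 ≤ r → ∀ᶠ X : ℕ in atTop, ∀ i : ι, Ad X i → ∃ u v : Fin K → ℤ,
      LF K u v (X ^ A) (Real.log X ^ (K + 1)) ∧
      (∀ m ≤ 3 * X, Sf (QL u v) ⌊(X : ℝ) ^ (1 / (r : ℝ))⌋₊ m ↔ g r X i m) ∧
      Vq (QL u v) ⌊(X : ℝ) ^ (1 / (r : ℝ))⌋₊ = V r X i ∧
      ∀ B, Vq (QH (QL u v) B) ⌊(X : ℝ) ^ (1 / (r : ℝ))⌋₊ = VB r X i B)
    (θ : ℝ) (hθ : 0 < θ) (β s : ℕ) (x ε : ℝ) (hε : 0 < ε) :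
    ∃ r0 : ℕ, ∀ r : ℕ, r0 ≤ r → ∀ᶠ X : ℕ in atTop, ∀ i : ι, Ad X i →
      ∀ Z Y : ℕ, (X : ℝ) ^ θ ≤ Y → Z + Y ≤ 2 * X → ∀ B : Finset ℕ, B.card ≤ β →
      (∀ h ∈ B, h * V r X i ≤ x) →
      ∀ a b : Fin s → ℕ, (∀ i, a i ≤ b i) → (∀ j, b j * V r X i ≤ x) →
      (∀ i j, i ≠ j → b i ≤ a j ∨ b j ≤ a i) → (∀ i, ∀ h ∈ B, h ≤ a i ∨ b i < h) →
      ∀ E : Fin s → Finset ℕ,
        |(((Ioc Z (Z + Y)).filter (fun n => (∀ h ∈ B, g r X i (n + h)) ∧ ∀ j,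
            ((Ioc (n + a j) (n + b j)).filter (fun m => g r X i m)).card ∈ E j)).card : ℝ) -
          Y * VB r X i B * ∏ j, ∑ l ∈ E j, Real.exp (-(((b j : ℝ) - a j) * V r X i)) *
            (((b j : ℝ) - a j) * V r X i) ^ l / l.factorial| ≤ ε * (Y * VB r X i B) := by
  obtain ⟨K0, y0, T0, R0, η', hη', hlaw⟩ := base_core s K hK β x ε hε
  obtain ⟨r0, h0⟩ := lin_sizes K A θ hθ K0 y0 T0 R0 η' 1 (|x| + 2) hη' one_pos (by positivity)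
  refine ⟨max r0 2, ?_⟩
  intro r hr
  have hr2 : 2 ≤ r := (le_max_right _ _).trans hr
  filter_upwards [h0 r ((le_max_left _ _).trans hr), hfam r (by omega), lin_short K A x r hr2]
    with X hX hF hs
  intro i hi Z Y hXY hZY B hBβ hBx a b hab hb hdis hBd E
  obtain ⟨u, v, hAF, hg, hV, hVB⟩ := hF i hi
  obtain ⟨a1, a2, a3, a4, a5, a6⟩ := hX u v hAF Y hXY _ rfl
  rw [← hV] at hBx hb ⊢
  rw [← hVB B]
  exact hlaw (QL u v) Z Y _ (lf_perB hAF) (fun p hp => lf_adm hAF p hp) a1 a2 a6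
    (g r X i) (3 * X) hg B hBβ hBx (fun h hh => by
      have := hs u v hAF _ (hBx h hh)
      omega) a b hab hb (fun j => by
      have := hs u v hAF _ (hb j)
      omega) hdis hBd E

open Classical in
/-- patterns with prescribed surroundings of almost prime Goldbach representations -/
theorem gold_base (θ : ℝ) (hθ : 0 < θ) (β s : ℕ) (x ε : ℝ) (hε : 0 < ε) :
    ∃ r0 : ℕ, ∀ r : ℕ, r0 ≤ r → ∀ᶠ N : ℕ in atTop, 2 ∣ N →
      ∀ (g : ℕ → Prop) (V : ℝ) (VB : Finset ℕ → ℝ), (∀ m ≤ N, GP r N m ↔ g m) →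
      Vq (QL gu (gv N)) ⌊(N : ℝ) ^ (1 / (r : ℝ))⌋₊ = V →
      (∀ B, Vq (QH (QL gu (gv N)) B) ⌊(N : ℝ) ^ (1 / (r : ℝ))⌋₊ = VB B) →
      ∀ Z Y : ℕ, (N : ℝ) ^ θ ≤ Y → Z + 2 * Y ≤ N → ∀ B : Finset ℕ, B.card ≤ β →
      (∀ h ∈ B, h * V ≤ x) →
      ∀ a b : Fin s → ℕ, (∀ i, a i ≤ b i) → (∀ j, b j * V ≤ x) →
      (∀ i j, i ≠ j → b i ≤ a j ∨ b j ≤ a i) → (∀ i, ∀ h ∈ B, h ≤ a i ∨ b i < h) →
      ∀ E : Fin s → Finset ℕ,
        |(((Ioc Z (Z + Y)).filter (fun n => (∀ h ∈ B, g (n + h)) ∧ ∀ j,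
            ((Ioc (n + a j) (n + b j)).filter (fun m => g m)).card ∈ E j)).card : ℝ) -
          Y * VB B * ∏ j, ∑ l ∈ E j, Real.exp (-(((b j : ℝ) - a j) * V)) *
            (((b j : ℝ) - a j) * V) ^ l / l.factorial| ≤ ε * (Y * VB B) := by
  obtain ⟨K0, y0, T0, R0, η', hη', hlaw⟩ := base_core s 2 (by norm_num) β x ε hε
  obtain ⟨r0, h0⟩ := lin_sizes 2 1 θ hθ K0 y0 T0 R0 η' 1 (|x| + 2) hη' one_pos (by positivity)
  refine ⟨max r0 2, ?_⟩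
  intro r hr
  have hr2 : 2 ≤ r := (le_max_right _ _).trans hr
  have hrr : (1 : ℝ) ≤ r := by exact_mod_cast (by omega : 1 ≤ r)
  have hpow1 : Tendsto (fun X : ℕ => (X : ℝ) ^ (1 / (r : ℝ))) atTop atTop :=
    (tendsto_rpow_atTop (by positivity)).comp tendsto_natCast_atTop_atTop
  filter_upwards [h0 r ((le_max_left _ _).trans hr), hpow1.eventually_ge_atTop 2, log3_lt,
    eventually_ge_atTop 3] with N hX h2 hRN h3
  intro hN g V VB hg hV hVB Z Y hXY hZY B hBβ hBx a b hab hb hdis hBd E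
  have hLF := gLF N hN h3 _ hRN
  obtain ⟨a1, a2, a3, a4, a5, a6⟩ := hX gu (gv N) hLF Y hXY _ rfl
  rw [hV] at a5
  have hV0 : 0 < V := by
    rw [← hV]
    exact Vq_pos (QL gu (gv N)) (fun p hp => lf_adm hLF p hp) _
  have hV1 : V ≤ 1 := by
    rw [← hV]
    exact Vq_le_one _ _
  have hM : ∀ h : ℕ, h * V ≤ x → h ≤ Y := by
    intro h hh
    have h4 : (h : ℝ) ≤ x / V := by
      rw [le_div_iff₀ hV0]
      exact hh
    have h5 : x / V ≤ (|x| + 2) / V :=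
      div_le_div_of_nonneg_right ((le_abs_self x).trans (by linarith)) hV0.le
    have h6 : 1 * (Y * V) ≤ Y := by
      have h9 : (0 : ℝ) ≤ Y := Nat.cast_nonneg Y
      nlinarith
    have : (h : ℝ) ≤ Y := h4.trans (h5.trans (a5.trans h6))
    exact_mod_cast this
  have hBM : ∀ h ∈ B, Z + Y + h ≤ N := fun h hh => by
    have := hM h (hBx h hh)
    omega
  have hbM : ∀ j, Z + Y + b j ≤ N := fun j => by
    have := hM _ (hb j)
    omega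
  rw [← hV] at hBx hb ⊢
  rw [← hVB B]
  exact hlaw (QL gu (gv N)) Z Y _ (lf_perB hLF) (fun p hp => lf_adm hLF p hp) a1 a2 a6
    g N (fun m hm => (sf_GP r N (by omega) (by omega) h2 m hm).trans (hg m hm))
    B hBβ hBx hBM a b hab hb hbM hdis hBd E

end Pool.Agent.TH464.PO
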