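import Pool.Agent.TH464.PO.BaseFam2
import Pool.Agent.TH464.PO.Forms2
import Pool.Agent.TH464.PO.PalmPoly
import Pool.Agent.TH464.PO.QuadAP

set_option autoImplicit false

/-!
# Exact gaps: systems of linear forms, polynomials
-/

namespace Pool.Agent.TH464.PO

open Finset Filter
open Pool.Agent.W123.RP Pool.Agent.H373R2.T7 Pool.Agent.W123.RU
open Pool.Agent.TH464.PW

open Classical in
/-- gaps of prescribed exact lengths for systems of linear forms, far away -/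
theorem lf_exact (K A : ℕ) (hK : 1 ≤ K) (θ : ℝ) (hθ : 0 < θ) (s : ℕ) (x ε : ℝ) (hε : 0 < ε) :
    ∃ r0 : ℕ, ∀ r : ℕ, r0 ≤ r → ∀ᶠ X : ℕ in atTop, ∀ u v : Fin K → ℤ,
      LF K u v (X ^ A) (Real.log X ^ (K + 1)) →
      ∀ (g : ℕ → Prop) (V : ℝ) (VB : Finset ℕ → ℝ) (M : ℕ),
      (∀ m ≤ M, Sf (QL u v) ⌊(X : ℝ) ^ (1 / (r : ℝ))⌋₊ m ↔ g m) →
      Vq (QL u v) ⌊(X : ℝ) ^ (1 / (r : ℝ))⌋₊ = V →
      (∀ B, Vq (QH (QL u v) B) ⌊(X : ℝ) ^ (1 / (r : ℝ))⌋₊ = VB B) →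
      ∀ Z Y : ℕ, (X : ℝ) ^ θ ≤ Y → Z + 2 * Y ≤ M → ∀ d : Fin s → ℕ, (∀ j, 1 ≤ d j) →
        ps d s * V ≤ x →
        |(((Ioc Z (Z + Y)).filter (fun b => g b ∧ ∀ j : Fin s,
            (nx g)^[(j : ℕ) + 1] b - (nx g)^[(j : ℕ)] b = d j)).card : ℝ) -
          Y * VB (Bs d) * Real.exp (-(ps d s * V))| ≤ ε * (Y * VB (Bs d)) := by
  obtain ⟨K0, y0, T0, R0, η', δ, hη', hδ, hlaw⟩ := exact_core s K hK x ε hε
  obtain ⟨r0, h0⟩ := lin_sizes K A θ hθ K0 y0 T0 R0 η' (min δ 1) (|x| + 2) hη' (by positivity)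
    (by positivity)
  refine ⟨r0, ?_⟩
  intro r hr
  filter_upwards [h0 r hr] with X hX
  intro u v hLF g V VB M hg hV hVB Z Y hXY hZY d hd hdx
  obtain ⟨a1, a2, a3, a4, a5, a6⟩ := hX u v hLF Y hXY _ rfl
  rw [hV] at a5
  have hV0 : 0 < V := by
    rw [← hV]
    exact Vq_pos (QL u v) (fun p hp => lf_adm hLF p hp) _
  have hM : ps d s ≤ Y := by
    have hV1 : V ≤ 1 := by
      rw [← hV]
      exact Vq_le_one _ _
    have h4 : (ps d s : ℝ) ≤ x / V := by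
      rw [le_div_iff₀ hV0]
      exact hdx
    have h5 : x / V ≤ (|x| + 2) / V :=
      div_le_div_of_nonneg_right ((le_abs_self x).trans (by linarith)) hV0.le
    have h6 : min δ 1 * (Y * V) ≤ Y := by
      have h7 : min δ 1 ≤ 1 := min_le_right _ _
      have h9 : (0 : ℝ) ≤ Y := Nat.cast_nonneg Y
      have h10 : 0 ≤ min δ 1 := by positivity
      calc min δ 1 * (Y * V) ≤ 1 * (Y * 1) := by gcongr
        _ = Y := by ring
    have : (ps d s : ℝ) ≤ Y := h4.trans (h5.trans (a5.trans h6))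
    exact_mod_cast this
  rw [← hV, ← hVB (Bs d)]
  exact hlaw (QL u v) Z Y _ (lf_perB hLF) (fun p hp => lf_adm hLF p hp) a1 a2
    (a3.trans (min_le_left _ _)) (fun T t1 t2 => a6 T ((min_le_right _ _).trans t1) t2)
    g M hg d hd (by rw [hV]; exact hdx) (by omega)

section
open Polynomial Pool.Agent.W123.RU.Poly

variable {ι : Type} [Fintype ι]

open Classical in
/-- gaps of prescribed exact lengths for systems of polynomials -/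
theorem poly_exactg [Nonempty ι] (f : ι → ℤ[X]) (hf : Sys f) (hT : NoTr f) (θ : ℝ) (hθ : 0 < θ)
    (s : ℕ) (x ε : ℝ) (hε : 0 < ε) :
    ∃ r0 : ℕ, ∀ r : ℕ, r0 ≤ r → ∀ᶠ X : ℕ in atTop, ∀ (g : ℕ → Prop) (V : ℝ) (VB : Finset ℕ → ℝ),
      (∀ m ≤ 3 * X, Sf (Q f) ⌊(X : ℝ) ^ (1 / (r : ℝ))⌋₊ m ↔ g m) →
      Vq (Q f) ⌊(X : ℝ) ^ (1 / (r : ℝ))⌋₊ = V →
      (∀ B, Vq (QH (Q f) B) ⌊(X : ℝ) ^ (1 / (r : ℝ))⌋₊ = VB B) →
      ∀ Z Y : ℕ, (X : ℝ) ^ θ ≤ Y → Z + Y ≤ 2 * X → ∀ d : Fin s → ℕ, (∀ j, 1 ≤ d j) →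
        ps d s * V ≤ x →
        |(((Ioc Z (Z + Y)).filter (fun b => g b ∧ ∀ j : Fin s,
            (nx g)^[(j : ℕ) + 1] b - (nx g)^[(j : ℕ)] b = d j)).card : ℝ) -
          Y * VB (Bs d) * Real.exp (-(ps d s * V))| ≤ ε * (Y * VB (Bs d)) := by
  obtain ⟨c, hc, hQ⟩ := exists_c f hf
  obtain ⟨K0, y0, T0, R0, η', δ, hη', hδ, hlaw⟩ := exact_core s c hc x ε hε
  obtain ⟨r0, h0⟩ := poly_sizes f hf hT θ hθ K0 y0 T0 R0 η' 1 (|x| + 2) hη' one_pos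
    (by positivity)
  refine ⟨max r0 2, ?_⟩
  intro r hr
  have hr2 : 2 ≤ r := (le_max_right _ _).trans hr
  filter_upwards [h0 r ((le_max_left _ _).trans hr), V_small f hf r hr2 δ hδ,
    short_sys f hf x r hr2] with X hX hVδ hs
  intro g V VB hg hV hVB Z Y hXY hZY d hd hdx
  obtain ⟨a1, a2, a3⟩ := hX Y hXY _ rfl
  have hM : ps d s ≤ X := hs _ (by rw [hV]; exact hdx)
  rw [← hV, ← hVB (Bs d)]
  exact hlaw (Q f) Z Y _ hQ (fun p hp => Poly.adm f hf p hp) a1 a2 hVδ a3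
    g (3 * X) hg d hd (by rw [hV]; exact hdx) (by omega)

end

end Pool.Agent.TH464.PO
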