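import Pool.Agent.TH464.PO.BaseLaw
import Pool.Agent.TH464.PO.ApInst
import Pool.Agent.TH464.PO.LinJoint

set_option autoImplicit false

/-!
# Gaps of prescribed exact lengths
-/

namespace Pool.Agent.TH464.PO

open Finset Filter
open Pool.Agent.W123.RP Pool.Agent.H373R2.T7 Pool.Agent.W123.RU
open Pool.Agent.TH464.PW

variable {s : ℕ}

/-- the set of the partial sums -/
def Bs (d : Fin s → ℕ) : Finset ℕ := (range (s + 1)).image (ps d)

lemma Bs_card (d : Fin s → ℕ) : (Bs d).card ≤ s + 1 := by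
  unfold Bs
  exact card_image_le.trans (le_of_eq (card_range _))

lemma mem_Bs (d : Fin s → ℕ) (i : ℕ) (hi : i ≤ s) : ps d i ∈ Bs d := by
  unfold Bs
  exact mem_image_of_mem _ (mem_range.2 (by omega))

lemma ps_step (d : Fin s → ℕ) (hd : ∀ i, 1 ≤ d i) (i j : ℕ) (h : i < j) (hj : j ≤ s) :
    ps d i < ps d j := by
  have h1 := ps_succ d ⟨i, by omega⟩
  have h2 := hd ⟨i, by omega⟩
  have h3 : ps d (i + 1) ≤ ps d j := ps_mono d (by omega)
  simp only at h1
  omega

open Classical in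
lemma exact_iff (g : ℕ → Prop) (d : Fin s → ℕ) (hd : ∀ i, 1 ≤ d i) (n : ℕ) :
    ((∀ h ∈ Bs d, g (n + h)) ∧ ∀ i : Fin s, ((Ioc (n + ps d i) (n + (ps d i + (d i - 1)))).filter
      (fun m => g m)).card ∈ ({0} : Finset ℕ)) ↔
    (g n ∧ ∀ i : Fin s, (nx g)^[(i : ℕ) + 1] n - (nx g)^[(i : ℕ)] n = d i) := by
  constructor
  · rintro ⟨h1, h2⟩
    have key : ∀ i : ℕ, i ≤ s → (nx g)^[i] n = n + ps d i := by
      intro i
      induction i with
      | zero => intro _; rw [ps_zero]; rfl
      | succ i ih =>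
        intro hi
        rw [Function.iterate_succ_apply', ih (by omega)]
        have e : ps d (i + 1) = ps d i + d ⟨i, by omega⟩ := ps_succ d ⟨i, by omega⟩
        have hdi := hd ⟨i, by omega⟩
        have hg := h1 _ (mem_Bs d (i + 1) hi)
        have h3 := h2 ⟨i, by omega⟩
        rw [mem_singleton, Finset.card_eq_zero, Finset.filter_eq_empty_iff] at h3
        simp only at h3
        unfold nx
        apply le_antisymm
        · exact Nat.sInf_le ⟨by omega, hg⟩
        · have hne : {m | n + ps d i < m ∧ g m}.Nonempty := ⟨n + ps d (i + 1), by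
            change n + ps d i < n + ps d (i + 1)
            omega, hg⟩
          apply le_csInf hne
          rintro x ⟨hx1, hx2⟩
          by_contra hlt
          rw [not_le] at hlt
          have hmem : x ∈ Ioc (n + ps d i) (n + (ps d i + (d ⟨i, by omega⟩ - 1))) := by
            rw [mem_Ioc]
            omega
          exact h3 hmem hx2
    refine ⟨?_, fun i => ?_⟩
    · have := h1 _ (mem_Bs d 0 (Nat.zero_le _))
      rwa [ps_zero] at this
    · rw [key _ i.2, key _ i.2.le, ps_succ]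
      omega
  · rintro ⟨h1, h2⟩
    have step : ∀ b e : ℕ, 1 ≤ e → nx g b - b = e → g (b + e) ∧ ∀ x, b < x → x < b + e → ¬ g x := by
      intro b e he hbe
      have hne : {m | b < m ∧ g m}.Nonempty := by
        by_contra hcon
        rw [Set.not_nonempty_iff_eq_empty] at hcon
        unfold nx at hbe
        rw [hcon, Nat.sInf_empty] at hbe
        omega
      have hmem : b < nx g b ∧ g (nx g b) := Nat.sInf_mem hne
      have e1 : nx g b = b + e := by omega
      refine ⟨e1 ▸ hmem.2, fun x hx1 hx2 hx3 => ?_⟩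
      have : nx g b ≤ x := Nat.sInf_le ⟨hx1, hx3⟩
      omega
    have key : ∀ i : ℕ, i ≤ s → (nx g)^[i] n = n + ps d i ∧ g (n + ps d i) := by
      intro i
      induction i with
      | zero => intro _; rw [ps_zero]; exact ⟨rfl, h1⟩
      | succ i ih =>
        intro hi
        obtain ⟨i1, i2⟩ := ih (by omega)
        have h3 := h2 ⟨i, by omega⟩
        simp only at h3
        rw [Function.iterate_succ_apply', i1] at h3
        have e : ps d (i + 1) = ps d i + d ⟨i, by omega⟩ := ps_succ d ⟨i, by omega⟩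
        have hdi := hd ⟨i, by omega⟩
        obtain ⟨j1, _⟩ := step _ _ hdi h3
        rw [Function.iterate_succ_apply', i1, e, ← add_assoc]
        exact ⟨by omega, j1⟩
    refine ⟨?_, fun i => ?_⟩
    · intro h hh
      unfold Bs at hh
      rw [mem_image] at hh
      obtain ⟨j, hj, rfl⟩ := hh
      rw [mem_range] at hj
      exact (key j (by omega)).2
    · have h3 := h2 i
      rw [Function.iterate_succ_apply', (key _ i.2.le).1] at h3
      obtain ⟨_, j2⟩ := step _ _ (hd i) h3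
      rw [mem_singleton, Finset.card_eq_zero, Finset.filter_eq_empty_iff]
      intro x hx
      rw [mem_Ioc] at hx
      have := hd i
      exact j2 x hx.1 (by omega)

open Classical in
/-- the law around a base set, for a condition which agrees with `g` up to `M` -/
theorem base_core (s c : ℕ) (hc : 1 ≤ c) (β : ℕ) (x0 ε : ℝ) (hε : 0 < ε) :
    ∃ (K0 y0 T0 R0 : ℕ) (η' : ℝ), 0 < η' ∧
      ∀ (Q : ℕ → ℕ → Prop) (Z Y y : ℕ), PerB Q c → (∀ p : ℕ, p.Prime → nuB Q p < p) → y0 ≤ y →
      y ^ K0 ≤ Y →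
      (∀ T : ℕ, 1 ≤ T * Vq Q y → T * Vq Q y ≤ |x0| + 2 → T0 ≤ T ∧ T ^ R0 ≤ Y ∧ ∀ t ∈ Icc 1 T,
        ((((pz y).filter (fun p : ℕ => T < p ∧ CoG Q p t)).card : ℕ) : ℝ) ≤ η' * T) →
      ∀ (g : ℕ → Prop) (M : ℕ), (∀ m ≤ M, Sf Q y m ↔ g m) →
      ∀ B : Finset ℕ, B.card ≤ β → (∀ h ∈ B, h * Vq Q y ≤ x0) → (∀ h ∈ B, Z + Y + h ≤ M) →
      ∀ a b : Fin s → ℕ, (∀ i, a i ≤ b i) → (∀ i, b i * Vq Q y ≤ x0) → (∀ i, Z + Y + b i ≤ M) →
      (∀ i j, i ≠ j → b i ≤ a j ∨ b j ≤ a i) → (∀ i, ∀ h ∈ B, h ≤ a i ∨ b i < h) →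
      ∀ E : Fin s → Finset ℕ,
        |(((Ioc Z (Z + Y)).filter (fun n => (∀ h ∈ B, g (n + h)) ∧ ∀ i,
            ((Ioc (n + a i) (n + b i)).filter (fun m => g m)).card ∈ E i)).card : ℝ) -
          (Y * Vq (QH Q B) y) * ∏ i, pois (((b i : ℝ) - a i) * Vq Q y) (E i)| ≤
          ε * (Y * Vq (QH Q B) y) := by
  obtain ⟨K0, y0, T0, R0, η', hη', hlaw⟩ := base_law s c hc β x0 ε hε
  refine ⟨K0, y0, T0, R0, η', hη', ?_⟩
  intro Q Z Y y hQ hadm hy hyY hT g M hg B hBβ hBx hBM a b hab hb hbM hdis hBd E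
  have h := hlaw Q Z Y y hQ hadm hy hyY hT B hBβ hBx a b hab hb hdis hBd E
  have e : (Ioc Z (Z + Y)).filter (fun n => (∀ h ∈ B, g (n + h)) ∧ ∀ i,
      ((Ioc (n + a i) (n + b i)).filter (fun m => g m)).card ∈ E i) =
      (Ioc Z (Z + Y)).filter (fun n => (∀ h ∈ B, Sf Q y (n + h)) ∧ ∀ i,
      ((Ioc (n + a i) (n + b i)).filter (fun m => Sf Q y m)).card ∈ E i) := by
    ext n
    simp only [mem_filter]
    apply and_congr_right
    intro hn
    rw [mem_Ioc] at hn
    apply and_congr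
    · apply forall_congr'
      intro h
      apply forall_congr'
      intro hh
      have := hBM h hh
      exact (hg _ (by omega)).symm
    · apply forall_congr'
      intro i
      have e1 : (Ioc (n + a i) (n + b i)).filter (fun m => g m) =
          (Ioc (n + a i) (n + b i)).filter (fun m => Sf Q y m) := by
        apply Finset.filter_congr
        intro m hm
        rw [mem_Ioc] at hm
        have := hbM i
        exact (hg m (by omega)).symm
      rw [e1]
  rw [e]
  exact h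

open Classical in
/-- **Consecutive gaps of prescribed exact lengths.** -/
theorem exact_core (s c : ℕ) (hc : 1 ≤ c) (x0 ε : ℝ) (hε : 0 < ε) :
    ∃ (K0 y0 T0 R0 : ℕ) (η' δ : ℝ), 0 < η' ∧ 0 < δ ∧
      ∀ (Q : ℕ → ℕ → Prop) (Z Y y : ℕ), PerB Q c → (∀ p : ℕ, p.Prime → nuB Q p < p) → y0 ≤ y →
      y ^ K0 ≤ Y → Vq Q y ≤ δ →
      (∀ T : ℕ, 1 ≤ T * Vq Q y → T * Vq Q y ≤ |x0| + 2 → T0 ≤ T ∧ T ^ R0 ≤ Y ∧ ∀ t ∈ Icc 1 T,
        ((((pz y).filter (fun p : ℕ => T < p ∧ CoG Q p t)).card : ℕ) : ℝ) ≤ η' * T) →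
      ∀ (g : ℕ → Prop) (M : ℕ), (∀ m ≤ M, Sf Q y m ↔ g m) →
      ∀ d : Fin s → ℕ, (∀ i, 1 ≤ d i) → ps d s * Vq Q y ≤ x0 → Z + Y + ps d s ≤ M →
        |(((Ioc Z (Z + Y)).filter (fun n => g n ∧ ∀ i : Fin s,
            (nx g)^[(i : ℕ) + 1] n - (nx g)^[(i : ℕ)] n = d i)).card : ℝ) -
          Y * Vq (QH Q (Bs d)) y * Real.exp (-(ps d s * Vq Q y))| ≤
          ε * (Y * Vq (QH Q (Bs d)) y) := by
  obtain ⟨K0, y0, T0, R0, η', hη', hlaw⟩ := base_core s c hc (s + 1) x0 (ε / 2) (by positivity)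
  refine ⟨K0, y0, T0, R0, η', ε / (2 * (s + 1)), hη', by positivity, ?_⟩
  intro Q Z Y y hQ hadm hy hyY hVδ hT g M hg d hd hdx hdM
  have hV0 : 0 < Vq Q y := Vq_pos Q hadm y
  have hW0 : 0 ≤ Y * Vq (QH Q (Bs d)) y := mul_nonneg (Nat.cast_nonneg _) (Vq_nonneg _ y)
  have hle : ∀ i, i ≤ s → (ps d i : ℝ) * Vq Q y ≤ x0 := by
    intro i hi
    refine le_trans ?_ hdx
    apply mul_le_mul_of_nonneg_right _ hV0.le
    exact_mod_cast ps_mono d hi
  have hb : ∀ i : Fin s, ps d i + (d i - 1) ≤ ps d ((i : ℕ) + 1) := by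
    intro i
    rw [ps_succ]
    omega
  have h := hlaw Q Z Y y hQ hadm hy hyY hT g M hg (Bs d) (Bs_card d) (fun h hh => by
      unfold Bs at hh
      rw [mem_image] at hh
      obtain ⟨j, hj, rfl⟩ := hh
      rw [mem_range] at hj
      exact hle j (by omega)) (fun h hh => by
      unfold Bs at hh
      rw [mem_image] at hh
      obtain ⟨j, hj, rfl⟩ := hh
      rw [mem_range] at hj
      have := ps_mono d (by omega : j ≤ s)
      omega) (fun i => ps d i) (fun i => ps d i + (d i - 1)) (fun i => by omega) (fun i => by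
      refine le_trans ?_ (hle ((i : ℕ) + 1) i.2)
      apply mul_le_mul_of_nonneg_right _ hV0.le
      exact_mod_cast hb i) (fun i => by
      have := hb i
      have := ps_mono d (show (i : ℕ) + 1 ≤ s from i.2)
      omega) (fun i j hij => by
      have h1 := hb i
      have h2 := hb j
      rcases Nat.lt_or_gt_of_ne (fun e => hij (Fin.ext e)) with h3 | h3
      · left
        have := ps_mono d (show (i : ℕ) + 1 ≤ j from h3)
        omega
      · right
        have := ps_mono d (show (j : ℕ) + 1 ≤ i from h3)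
        omega) (fun i h hh => by
      unfold Bs at hh
      rw [mem_image] at hh
      obtain ⟨j, hj, rfl⟩ := hh
      rw [mem_range] at hj
      rcases Nat.lt_or_ge (i : ℕ) j with h3 | h3
      · right
        have h4 := ps_mono d (show (i : ℕ) + 1 ≤ j from h3)
        have h5 := ps_succ d i
        have h6 := hd i
        omega
      · left
        exact ps_mono d h3) (fun _ => {0})
  have e : (Ioc Z (Z + Y)).filter (fun n => g n ∧ ∀ i : Fin s,
      (nx g)^[(i : ℕ) + 1] n - (nx g)^[(i : ℕ)] n = d i) =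
      (Ioc Z (Z + Y)).filter (fun n => (∀ h ∈ Bs d, g (n + h)) ∧ ∀ i : Fin s,
        ((Ioc (n + ps d i) (n + (ps d i + (d i - 1)))).filter
          (fun m => g m)).card ∈ ({0} : Finset ℕ)) := by
    ext n
    simp only [mem_filter]
    apply and_congr_right
    intro _
    exact (exact_iff g d hd n).symm
  rw [e]
  have hprod : ∏ i : Fin s, pois ((((ps d i + (d i - 1) : ℕ) : ℝ) - ps d i) * Vq Q y) {0} =
      Real.exp (-(((ps d s : ℝ) - s) * Vq Q y)) := by
    have e1 : ∀ i : Fin s, pois ((((ps d i + (d i - 1) : ℕ) : ℝ) - ps d i) * Vq Q y) {0} =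
        Real.exp (-(((d i : ℝ) - 1) * Vq Q y)) := by
      intro i
      rw [pois_zero]
      congr 2
      rw [Nat.cast_add, Nat.cast_sub (hd i), Nat.cast_one]
      ring
    rw [Finset.prod_congr rfl fun i _ => e1 i, ← Real.exp_sum]
    congr 1
    rw [Finset.sum_neg_distrib, ← Finset.sum_mul, Finset.sum_sub_distrib]
    have e2 : (ps d s : ℝ) = ∑ i, (d i : ℝ) := by
      unfold ps
      rw [Finset.sum_range]
      push_cast
      apply Finset.sum_congr rfl
      intro i _
      rw [dif_pos i.2]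
    rw [e2]
    simp
  rw [hprod] at h
  have hs : (s : ℝ) ≤ ps d s := by
    have : ∀ i, i ≤ s → i ≤ ps d i := by
      intro i
      induction i with
      | zero => intro _; exact Nat.zero_le _
      | succ i ih =>
        intro hi
        have := ih (by omega)
        have := ps_step d hd i (i + 1) (Nat.lt_succ_self i) hi
        omega
    exact_mod_cast this s le_rfl
  have hexp : |Real.exp (-(((ps d s : ℝ) - s) * Vq Q y)) - Real.exp (-(ps d s * Vq Q y))| ≤ ε / 2 := by
    refine (exp_lip _ _ (s * Vq Q y) (mul_nonneg (by linarith) hV0.le) (by positivity) ?_).trans ?_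
    · have e3 : ((ps d s : ℝ) - s) * Vq Q y - ps d s * Vq Q y = -(s * Vq Q y) := by ring
      rw [e3, abs_neg, abs_of_nonneg (by positivity)]
    · have h1 : (s : ℝ) * Vq Q y ≤ s * (ε / (2 * (s + 1))) :=
        mul_le_mul_of_nonneg_left hVδ (Nat.cast_nonneg _)
      refine h1.trans ?_
      rw [mul_div_assoc', div_le_div_iff₀ (by positivity) (by norm_num)]
      nlinarith
  refine (abs_sub_le _ (Y * Vq (QH Q (Bs d)) y * Real.exp (-(((ps d s : ℝ) - s) * Vq Q y))) _).trans ?_
  have h2 : |Y * Vq (QH Q (Bs d)) y * Real.exp (-(((ps d s : ℝ) - s) * Vq Q y)) -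
      Y * Vq (QH Q (Bs d)) y * Real.exp (-(ps d s * Vq Q y))| ≤
      ε / 2 * (Y * Vq (QH Q (Bs d)) y) := by
    rw [← mul_sub, abs_mul, abs_of_nonneg hW0, mul_comm (ε / 2)]
    exact mul_le_mul_of_nonneg_left hexp hW0
  linarith

end Pool.Agent.TH464.PO
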