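import Pool.Agent.TH464.PO.BaseMom
import Pool.Agent.TH464.PO.MomLaw

set_option autoImplicit false

/-!
# The law of the counts around a fixed base set
-/

namespace Pool.Agent.TH464.PO

open Finset Filter
open Pool.Agent.W123.RP Pool.Agent.H373R2.T7 Pool.Agent.W123.RU
open Pool.Agent.TH464.PW

variable {s : ℕ}

lemma QH_Qt' (Q : ℕ → ℕ → Prop) (Z : ℕ) (B : Finset ℕ) : QH (Qt Q Z) B = Qt (QH Q B) Z := by
  funext p n
  unfold QH Qt
  apply propext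
  apply exists_congr
  intro h
  rw [show n + h + Z = n + Z + h by ring]

open Classical in
/-- mixed moments around a base set, in all intervals -/
theorem base_mom_law (c : ℕ) (hc : 1 ≤ c) (β : ℕ) (k : Fin s → ℕ) (x0 ε : ℝ) (hε : 0 < ε) :
    ∃ (K0 y0 T0 R0 : ℕ) (η' : ℝ), 0 < η' ∧
      ∀ (Q : ℕ → ℕ → Prop) (Z Y y : ℕ), PerB Q c → (∀ p : ℕ, p.Prime → nuB Q p < p) → y0 ≤ y →
      y ^ K0 ≤ Y →
      (∀ T : ℕ, 1 ≤ T * Vq Q y → T * Vq Q y ≤ |x0| + 2 → T0 ≤ T ∧ T ^ R0 ≤ Y ∧ ∀ t ∈ Icc 1 T,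
        ((((pz y).filter (fun p : ℕ => T < p ∧ CoG Q p t)).card : ℕ) : ℝ) ≤ η' * T) →
      ∀ B : Finset ℕ, B.card ≤ β → (∀ h ∈ B, h * Vq Q y ≤ x0) →
      ∀ a b : Fin s → ℕ, (∀ i, a i ≤ b i) → (∀ i, b i * Vq Q y ≤ x0) →
      (∀ i j, i ≠ j → b i ≤ a j ∨ b j ≤ a i) → (∀ i, ∀ h ∈ B, h ≤ a i ∨ b i < h) →
        |∑ n ∈ (Ioc Z (Z + Y)).filter (fun n => ∀ h ∈ B, Sf Q y (n + h)),
            ∏ i, ((((Ioc (n + a i) (n + b i)).filter (fun m => Sf Q y m)).card.choose (k i) : ℕ) : ℝ) -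
          (Y * Vq (QH Q B) y) * ∏ i, ((((b i : ℝ) - a i) * Vq Q y) ^ (k i) / (k i).factorial)| ≤
          ε * (Y * Vq (QH Q B) y) := by
  have hx02 : (1 : ℝ) ≤ |x0| + 2 := by
    have := abs_nonneg x0
    linarith
  obtain ⟨K0, y0, T0, R0, η', hη', hm⟩ := base_moment c hc β k (|x0| + 2) ε hx02 hε
  refine ⟨K0, y0, T0, R0, η', hη', ?_⟩
  intro Q Z Y y hQ hadm hy hyY hT B hBβ hBx a b hab hb hdis hBd
  have hV0 : 0 < Vq Q y := Vq_pos Q hadm y
  obtain ⟨T, h1, h2, h3, h4⟩ := exists_T x0 (Vq Q y) hV0 (Vq_le_one Q y)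
  have hxa := abs_nonneg x0
  obtain ⟨hT0, hTR, hlarge⟩ := hT T (by linarith) h3
  have hkm := hm Y y T hy hyY hT0 hTR (Qt Q Z) (perB_Qt Q c hQ Z) (fun p hp => by
    rw [nuB_Qt Q c hQ]
    exact hadm p hp) (by rw [Vq_Qt Q c hQ]; exact h3) (fun t ht => by
    refine le_trans ?_ (hlarge t ht)
    have : ((pz y).filter (fun p : ℕ => T < p ∧ CoG (Qt Q Z) p t)).card ≤
        ((pz y).filter (fun p : ℕ => T < p ∧ CoG Q p t)).card := by
      apply card_le_card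
      intro p hp
      rw [mem_filter] at hp ⊢
      obtain ⟨h1, h2, m, h3, h4⟩ := hp
      refine ⟨h1, h2, m + Z, h3, ?_⟩
      unfold Qt at h4
      rwa [show m + t + Z = m + Z + t by ring] at h4
    exact_mod_cast this) B hBβ (fun h hh => h4 _ (hBx h hh)) a b hab (fun i => h4 _ (hb i))
    (win_disj a b hdis) (fun i => by
      rw [Finset.disjoint_left]
      intro h hh hh'
      rw [mem_Ioc] at hh'
      have := hBd i h hh
      omega)
  rw [QH_Qt', Vq_Qt (QH Q B) _ (perB_QH Q c hQ B), Vq_Qt Q c hQ] at hkm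
  have e : ∑ n ∈ (Icc 1 Y).filter (fun n => Sf (Qt (QH Q B) Z) y n),
      ∏ i, ((Na (Qt Q Z) y (a i) (b i) n).choose (k i) : ℝ) =
      ∑ n ∈ (Ioc Z (Z + Y)).filter (fun n => ∀ h ∈ B, Sf Q y (n + h)),
        ∏ i, ((((Ioc (n + a i) (n + b i)).filter (fun m => Sf Q y m)).card.choose (k i) : ℕ) : ℝ) := by
    have e0 := shift_sum (fun n => ∀ h ∈ B, Sf Q y (n + h)) (fun n =>
      ∏ i, ((((Ioc (n + a i) (n + b i)).filter (fun m => Sf Q y m)).card.choose (k i) : ℕ) : ℝ)) Z Y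
    refine Eq.trans ?_ (e0.trans ?_)
    · apply Finset.sum_congr
      · ext n
        simp only [mem_filter]
        rw [sf_Qt, sf_QH]
      · intro n _
        apply Finset.prod_congr rfl
        intro i _
        rw [Na_Qt]
    · apply Finset.sum_congr _ (fun _ _ => rfl)
      ext n
      simp only [mem_filter]
  rw [e] at hkm
  exact hkm

open Classical in
/-- **The law of the counts around a base set.** -/
theorem base_law (s c : ℕ) (hc : 1 ≤ c) (β : ℕ) (x0 ε : ℝ) (hε : 0 < ε) :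
    ∃ (K0 y0 T0 R0 : ℕ) (η' : ℝ), 0 < η' ∧
      ∀ (Q : ℕ → ℕ → Prop) (Z Y y : ℕ), PerB Q c → (∀ p : ℕ, p.Prime → nuB Q p < p) → y0 ≤ y →
      y ^ K0 ≤ Y →
      (∀ T : ℕ, 1 ≤ T * Vq Q y → T * Vq Q y ≤ |x0| + 2 → T0 ≤ T ∧ T ^ R0 ≤ Y ∧ ∀ t ∈ Icc 1 T,
        ((((pz y).filter (fun p : ℕ => T < p ∧ CoG Q p t)).card : ℕ) : ℝ) ≤ η' * T) →
      ∀ B : Finset ℕ, B.card ≤ β → (∀ h ∈ B, h * Vq Q y ≤ x0) →
      ∀ a b : Fin s → ℕ, (∀ i, a i ≤ b i) → (∀ i, b i * Vq Q y ≤ x0) →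
      (∀ i j, i ≠ j → b i ≤ a j ∨ b j ≤ a i) → (∀ i, ∀ h ∈ B, h ≤ a i ∨ b i < h) →
      ∀ E : Fin s → Finset ℕ,
        |(((Ioc Z (Z + Y)).filter (fun n => (∀ h ∈ B, Sf Q y (n + h)) ∧ ∀ i,
            ((Ioc (n + a i) (n + b i)).filter (fun m => Sf Q y m)).card ∈ E i)).card : ℝ) -
          (Y * Vq (QH Q B) y) * ∏ i, pois (((b i : ℝ) - a i) * Vq Q y) (E i)| ≤
          ε * (Y * Vq (QH Q B) y) := by
  obtain ⟨R, η, hη, h⟩ := joint_tv s 1 (|x0| + 2) ε zero_le_one (by positivity) hε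
  choose K1 y1 T1 R1 e1 he1 hm using fun k : Fin s → ℕ => base_mom_law c hc β k x0 η hη
  obtain ⟨I, hI⟩ : ∃ I, I = Fintype.piFinset (fun _ : Fin s => range (R + 1)) := ⟨_, rfl⟩
  obtain ⟨η', hη', hη'2⟩ := exists_lower_fin I e1 he1
  refine ⟨∑ k ∈ I, K1 k, ∑ k ∈ I, y1 k + 1, ∑ k ∈ I, T1 k + 1, ∑ k ∈ I, R1 k, η', hη', ?_⟩
  intro Q Z Y y hQ hadm hy hyY hT B hBβ hBx a b hab hb hdis hBd E
  have hV0 : 0 < Vq Q y := Vq_pos Q hadm y
  have hy1 : 1 ≤ y := by omega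
  have hYW : 0 ≤ Y * Vq (QH Q B) y := mul_nonneg (Nat.cast_nonneg _) (Vq_nonneg _ y)
  have hx0 : ∀ i, 0 ≤ ((b i : ℝ) - a i) * Vq Q y := by
    intro i
    have : (a i : ℝ) ≤ b i := by exact_mod_cast hab i
    exact mul_nonneg (by linarith) hV0.le
  have hxx : ∀ i, ((b i : ℝ) - a i) * Vq Q y ≤ |x0| + 2 := by
    intro i
    have h1 : (0 : ℝ) ≤ a i * Vq Q y := by positivity
    have := hb i
    have := le_abs_self x0
    linarith
  have key : ∀ F : ℕ → ℝ, ∑ n ∈ Ioc Z (Z + Y),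
      ((if (∀ h ∈ B, Sf Q y (n + h)) then (1 : ℕ) else 0 : ℕ) : ℝ) * F n =
      ∑ n ∈ (Ioc Z (Z + Y)).filter (fun n => ∀ h ∈ B, Sf Q y (n + h)), F n := by
    intro F
    rw [Finset.sum_filter]
    apply Finset.sum_congr rfl
    intro n _
    split_ifs
    · rw [Nat.cast_one, one_mul]
    · rw [Nat.cast_zero, zero_mul]
  have hmain := h (Ioc Z (Z + Y)) (fun n => if (∀ h ∈ B, Sf Q y (n + h)) then 1 else 0)
    (fun i n => ((Ioc (n + a i) (n + b i)).filter (fun m => Sf Q y m)).card)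
    (fun i => ((b i : ℝ) - a i) * Vq Q y) (Y * Vq (QH Q B) y) (Y * Vq (QH Q B) y) hx0 hxx hYW hYW
    (by rw [one_mul]) (by
      intro k hk
      have hkI : k ∈ I := by
        rw [hI, Fintype.mem_piFinset]
        intro i
        rw [mem_range]
        have := hk i
        omega
      have hs1 : K1 k ≤ ∑ k ∈ I, K1 k := Finset.single_le_sum (fun _ _ => Nat.zero_le _) hkI
      have hs2 : y1 k ≤ ∑ k ∈ I, y1 k := Finset.single_le_sum (fun _ _ => Nat.zero_le _) hkI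
      have hs3 : T1 k ≤ ∑ k ∈ I, T1 k := Finset.single_le_sum (fun _ _ => Nat.zero_le _) hkI
      have hs4 : R1 k ≤ ∑ k ∈ I, R1 k := Finset.single_le_sum (fun _ _ => Nat.zero_le _) hkI
      rw [key]
      exact hm k Q Z Y y hQ hadm (by omega) ((Nat.pow_le_pow_right hy1 hs1).trans hyY)
        (fun T t1 t2 => by
          obtain ⟨c1, c2, c3⟩ := hT T t1 t2
          refine ⟨by omega, (Nat.pow_le_pow_right (by omega) hs4).trans c2, fun t ht => ?_⟩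
          exact (c3 t ht).trans (mul_le_mul_of_nonneg_right (hη'2 k hkI) (Nat.cast_nonneg _)))
        B hBβ hBx a b hab hb hdis hBd) E
  rw [key] at hmain
  refine le_trans (le_of_eq ?_) hmain
  congr 2
  rw [← Finset.sum_filter, Finset.filter_filter, Finset.sum_const, nsmul_eq_mul, mul_one]

end Pool.Agent.TH464.PO
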