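import Pool.Agent.TH464.PO.ResMom

set_option autoImplicit false

/-!
# The residue classes as the variable: the laws
-/

namespace Pool.Agent.TH464.PO

open Finset Filter
open Pool.Agent.W123.RP Pool.Agent.H373R2.T7 Pool.Agent.W123.RU
open Pool.Agent.TH464.PW

variable {s : ℕ}

open Classical in
lemma shift_sum (P : ℕ → Prop) (F : ℕ → ℝ) (Z Y : ℕ) :
    ∑ n ∈ (Icc 1 Y).filter (fun n => P (n + Z)), F (n + Z) = ∑ n ∈ (Ioc Z (Z + Y)).filter P, F n := by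
  apply Finset.sum_bij (fun n _ => n + Z)
  · intro n hn
    rw [mem_filter, mem_Icc] at hn
    rw [mem_filter, mem_Ioc]
    exact ⟨by omega, hn.2⟩
  · intro a _ b _ hab
    omega
  · intro n hn
    rw [mem_filter, mem_Ioc] at hn
    refine ⟨n - Z, ?_, by omega⟩
    rw [mem_filter, mem_Icc]
    refine ⟨by omega, ?_⟩
    rw [show n - Z + Z = n by omega]
    exact hn.2
  · intro n _
    rfl

open Classical in
/-- mixed moments over the residue classes, in all intervals -/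
theorem res_mom_law (k : Fin s → ℕ) (x0 ε : ℝ) (hε : 0 < ε) :
    ∃ K0 y0 T0 R0 : ℕ, ∀ q Z Y y : ℕ, y0 ≤ y → y ^ K0 ≤ Y →
      (∀ T : ℕ, 1 ≤ T * Vq (Qo q) y → T * Vq (Qo q) y ≤ |x0| + 2 → T0 ≤ T ∧ T ^ R0 ≤ Y) →
      ∀ a b : Fin s → ℕ, (∀ i, a i ≤ b i) → (∀ i, b i * Vq (Qo q) y ≤ x0) →
      (∀ i j, i ≠ j → b i ≤ a j ∨ b j ≤ a i) →
        |∑ n ∈ (Ioc Z (Z + Y)).filter (fun n => Cp q y n),
            ∏ i, ((Nr q y (a i) (b i) n).choose (k i) : ℝ) -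
          (Y * Wq q y) * ∏ i, ((((b i : ℝ) - a i) * Vq (Qo q) y) ^ (k i) / (k i).factorial)| ≤
            ε * (Y * Wq q y) := by
  have hx02 : (1 : ℝ) ≤ |x0| + 2 := by
    have := abs_nonneg x0
    linarith
  obtain ⟨K0, y0, T0, R0, hm⟩ := res_moment k (|x0| + 2) ε hx02 hε
  refine ⟨K0, y0, T0, R0, ?_⟩
  intro q Z Y y hy hyY hT a b hab hb hdis
  have hV0 : 0 < Vq (Qo q) y := Vq_pos (Qo q) (fun p hp => qo_adm q p hp) y
  obtain ⟨T, h1, h2, h3, h4⟩ := exists_T x0 (Vq (Qo q) y) hV0 (Vq_le_one _ y)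
  have hxa := abs_nonneg x0
  obtain ⟨hT0, hTR⟩ := hT T (by linarith) h3
  have hkm := hm Y y T hy hyY hT0 hTR q Z h3 a b hab (fun i => h4 _ (hb i)) (win_disj a b hdis)
  rw [← shift_sum (fun n => Cp q y n) (fun n => ∏ i, ((Nr q y (a i) (b i) n).choose (k i) : ℝ)) Z Y]
  exact hkm

open Classical in
/-- **The joint law over the residue classes.** -/
theorem res_law (s : ℕ) (x0 ε : ℝ) (hε : 0 < ε) :
    ∃ K0 y0 T0 R0 : ℕ, ∀ q Z Y y : ℕ, y0 ≤ y → y ^ K0 ≤ Y →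
      (∀ T : ℕ, 1 ≤ T * Vq (Qo q) y → T * Vq (Qo q) y ≤ |x0| + 2 → T0 ≤ T ∧ T ^ R0 ≤ Y) →
      ∀ a b : Fin s → ℕ, (∀ i, a i ≤ b i) → (∀ i, b i * Vq (Qo q) y ≤ x0) →
      (∀ i j, i ≠ j → b i ≤ a j ∨ b j ≤ a i) → ∀ E : Fin s → Finset ℕ,
        |∑ n ∈ (Ioc Z (Z + Y)).filter (fun n => Cp q y n),
            (if ∀ i, Nr q y (a i) (b i) n ∈ E i then (1 : ℝ) else 0) -
          (Y * Wq q y) * ∏ i, pois (((b i : ℝ) - a i) * Vq (Qo q) y) (E i)| ≤
            ε * (Y * Wq q y) := by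
  obtain ⟨R, η, hη, h⟩ := joint_tv s 1 (|x0| + 2) ε zero_le_one (by positivity) hε
  choose K1 y1 T1 R1 hm using fun k : Fin s → ℕ => res_mom_law k x0 η hη
  obtain ⟨I, hI⟩ : ∃ I, I = Fintype.piFinset (fun _ : Fin s => range (R + 1)) := ⟨_, rfl⟩
  refine ⟨∑ k ∈ I, K1 k, ∑ k ∈ I, y1 k + 1, ∑ k ∈ I, T1 k + 1, ∑ k ∈ I, R1 k, ?_⟩
  intro q Z Y y hy hyY hT a b hab hb hdis E
  have hV0 : 0 < Vq (Qo q) y := Vq_pos (Qo q) (fun p hp => qo_adm q p hp) y
  have hy1 : 1 ≤ y := by omega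
  have hYW : 0 ≤ Y * Wq q y := mul_nonneg (Nat.cast_nonneg _) (Wq_pos q y).le
  have hx0 : ∀ i, 0 ≤ ((b i : ℝ) - a i) * Vq (Qo q) y := by
    intro i
    have : (a i : ℝ) ≤ b i := by exact_mod_cast hab i
    exact mul_nonneg (by linarith) hV0.le
  have hxx : ∀ i, ((b i : ℝ) - a i) * Vq (Qo q) y ≤ |x0| + 2 := by
    intro i
    have h1 : (0 : ℝ) ≤ a i * Vq (Qo q) y := by positivity
    have := hb i
    have := le_abs_self x0
    linarith
  have key : ∀ F : ℕ → ℝ, ∑ n ∈ Ioc Z (Z + Y), ((if Cp q y n then (1 : ℕ) else 0 : ℕ) : ℝ) * F n =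
      ∑ n ∈ (Ioc Z (Z + Y)).filter (fun n => Cp q y n), F n := by
    intro F
    rw [Finset.sum_filter]
    apply Finset.sum_congr rfl
    intro n _
    split_ifs
    · rw [Nat.cast_one, one_mul]
    · rw [Nat.cast_zero, zero_mul]
  have hmain := h (Ioc Z (Z + Y)) (fun n => if Cp q y n then 1 else 0)
    (fun i n => Nr q y (a i) (b i) n)
    (fun i => ((b i : ℝ) - a i) * Vq (Qo q) y) (Y * Wq q y) (Y * Wq q y) hx0 hxx hYW hYW
    (by rw [one_mul]) (by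
      intro k hk
      have hkI : k ∈ I := by
        rw [hI, Fintype.mem_piFinset]
        intro i
        rw [mem_range]
        have := hk i
        omega
      have hs1 : K1 k ≤ ∑ k ∈ I, K1 k := Finset.single_le_sum (fun _ _ => Nat.zero_le _) hkI
      have hs2 : y1 k ≤ ∑ k ∈ I, y1 k := Finset.single_le_sum (fun _ _ => Nat.zero_le _) hkI
      have hs3 : T1 k ≤ ∑ k ∈ I, T1 k := Finset.single_le_sum (fun _ _ => Nat.zero_le _) hkI
      have hs4 : R1 k ≤ ∑ k ∈ I, R1 k := Finset.single_le_sum (fun _ _ => Nat.zero_le _) hkI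
      rw [key]
      exact hm k q Z Y y (by omega) ((Nat.pow_le_pow_right hy1 hs1).trans hyY) (fun T t1 t2 => by
        obtain ⟨c1, c2⟩ := hT T t1 t2
        exact ⟨by omega, (Nat.pow_le_pow_right (by omega) hs4).trans c2⟩) a b hab hb hdis) E
  rw [key] at hmain
  exact hmain

/-! ### From weak to full coprimality -/

open Classical in
lemma card_mult (p Z Y : ℕ) (hp : 0 < p) : ((Ioc Z (Z + Y)).filter (fun n => p ∣ n)).card ≤ Y / p + 1 := by
  have h1 : (Ioc Z (Z + Y)).filter (fun n => p ∣ n) ⊆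
      (Ioc (Z / p) ((Z + Y) / p)).image (fun k => p * k) := by
    intro n hn
    rw [mem_filter, mem_Ioc] at hn
    obtain ⟨⟨h1, h2⟩, k, rfl⟩ := hn
    rw [mem_image]
    refine ⟨k, ?_, rfl⟩
    rw [mem_Ioc]
    exact ⟨Nat.div_lt_of_lt_mul h1, (Nat.le_div_iff_mul_le hp).2 (by rw [mul_comm]; exact h2)⟩
  refine (card_le_card h1).trans (card_image_le.trans ?_)
  rw [Nat.card_Ioc]
  have h2 : (Z + Y) / p ≤ Z / p + Y / p + 1 := by
    rw [← Nat.lt_succ_iff]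
    apply Nat.div_lt_of_lt_mul
    have a1 := Nat.lt_mul_div_succ Z hp
    have a2 := Nat.lt_mul_div_succ Y hp
    have e : p * (Z / p + Y / p + 1).succ = p * (Z / p + 1) + p * (Y / p + 1) := by
      rw [Nat.succ_eq_add_one]
      ring
    rw [e]
    omega
  generalize (Z + Y) / p = A at h2 ⊢
  generalize Z / p = B at h2 ⊢
  generalize Y / p = C at h2 ⊢
  omega

open Classical in
lemma cop_diff (q y Z Y : ℕ) (hq : 1 ≤ q) (hy : 1 ≤ y) (F : ℕ → ℝ) (M : ℝ) (hM : 0 ≤ M)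
    (hF0 : ∀ n, 0 ≤ F n) (hFM : ∀ n, F n ≤ M) :
    |∑ n ∈ (Ioc Z (Z + Y)).filter (fun n => Nat.Coprime n q), F n -
      ∑ n ∈ (Ioc Z (Z + Y)).filter (fun n => Cp q y n), F n| ≤
      M * (Real.log q / Real.log 2 * ((Y : ℝ) / y + 1)) := by
  have hsub : (Ioc Z (Z + Y)).filter (fun n => Nat.Coprime n q) ⊆
      (Ioc Z (Z + Y)).filter (fun n => Cp q y n) := by
    intro n hn
    rw [mem_filter] at hn ⊢
    refine ⟨hn.1, fun p hp h1 h2 => ?_⟩
    have h3 : p ∣ Nat.gcd n q := Nat.dvd_gcd h2 h1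
    rw [hn.2] at h3
    exact (mem_pz.1 hp).2.one_lt.ne' (Nat.dvd_one.1 h3)
  rw [← Finset.sum_sdiff hsub, abs_sub_comm, add_sub_cancel_right,
    abs_of_nonneg (Finset.sum_nonneg fun n _ => hF0 n)]
  obtain ⟨PF, hPF⟩ : ∃ PF, PF = q.primeFactors.filter (fun p => y < p) := ⟨_, rfl⟩
  have hcard : ((((Ioc Z (Z + Y)).filter (fun n => Cp q y n)) \
      ((Ioc Z (Z + Y)).filter (fun n => Nat.Coprime n q))).card : ℝ) ≤
      Real.log q / Real.log 2 * ((Y : ℝ) / y + 1) := by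
    have h1 : ((Ioc Z (Z + Y)).filter (fun n => Cp q y n)) \
        ((Ioc Z (Z + Y)).filter (fun n => Nat.Coprime n q)) ⊆
        PF.biUnion (fun p => (Ioc Z (Z + Y)).filter (fun n => p ∣ n)) := by
      intro n hn
      have hn' := Finset.mem_sdiff.1 hn
      rw [mem_filter, mem_filter, not_and] at hn'
      obtain ⟨⟨h1, h2⟩, h3⟩ := hn'
      obtain ⟨p, hp, h4, h5⟩ := Nat.Prime.not_coprime_iff_dvd.1 (h3 h1)
      rw [mem_biUnion]
      refine ⟨p, ?_, mem_filter.2 ⟨h1, h4⟩⟩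
      rw [hPF, mem_filter, Nat.mem_primeFactors]
      refine ⟨⟨hp, h5, by omega⟩, ?_⟩
      by_contra hcon
      exact h2 p (mem_pz.2 ⟨by omega, hp⟩) h5 h4
    have h2 : (((((Ioc Z (Z + Y)).filter (fun n => Cp q y n)) \
        ((Ioc Z (Z + Y)).filter (fun n => Nat.Coprime n q))).card : ℕ) : ℝ) ≤
        ∑ p ∈ PF, ((((Ioc Z (Z + Y)).filter (fun n => p ∣ n)).card : ℕ) : ℝ) := by
      exact_mod_cast (card_le_card h1).trans card_biUnion_le
    have hy0 : (0 : ℝ) < y := by exact_mod_cast hy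
    have h3 : ∀ p ∈ PF, ((((Ioc Z (Z + Y)).filter (fun n => p ∣ n)).card : ℕ) : ℝ) ≤ (Y : ℝ) / y + 1 := by
      intro p hp
      rw [hPF, mem_filter, Nat.mem_primeFactors] at hp
      have h4 := card_mult p Z Y hp.1.1.pos
      have h5 : ((((Ioc Z (Z + Y)).filter (fun n => p ∣ n)).card : ℕ) : ℝ) ≤ ((Y / p + 1 : ℕ) : ℝ) := by
        exact_mod_cast h4
      refine h5.trans ?_
      rw [Nat.cast_add, Nat.cast_one]
      have h6 : ((Y / p : ℕ) : ℝ) ≤ (Y : ℝ) / p := Nat.cast_div_le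
      have h7 : (Y : ℝ) / p ≤ (Y : ℝ) / y :=
        div_le_div_of_nonneg_left (Nat.cast_nonneg _) hy0 (by exact_mod_cast hp.2.le)
      linarith
    have h4 : (PF.card : ℝ) ≤ Real.log q / Real.log 2 := by
      have h5 := card_le_log PF q (by omega) (fun p hp => by
        rw [hPF, mem_filter, Nat.mem_primeFactors] at hp
        exact ⟨hp.1.1, hp.1.2.1⟩)
      rwa [le_div_iff₀ (Real.log_pos one_lt_two)]
    refine h2.trans ((Finset.sum_le_card_nsmul _ _ _ h3).trans ?_)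
    rw [nsmul_eq_mul]
    exact mul_le_mul_of_nonneg_right h4 (by positivity)
  refine (Finset.sum_le_card_nsmul _ _ M fun n _ => hFM n).trans ?_
  rw [nsmul_eq_mul, mul_comm]
  exact mul_le_mul_of_nonneg_left hcard hM

/-- the difference is small -/
lemma cop_small (D g : ℕ) (θ ε : ℝ) (hθ : 0 < θ) (hε : 0 < ε) (r : ℕ) (hr : 2 ≤ r) :
    ∀ᶠ X : ℕ in atTop, ∀ q : ℕ, 1 ≤ q → q ≤ X ^ D → ∀ Y : ℕ, (X : ℝ) ^ θ ≤ Y →
      Real.log X ^ g * (Real.log q / Real.log 2 * ((Y : ℝ) / ⌊(X : ℝ) ^ (1 / (r : ℝ))⌋₊ + 1)) ≤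
        ε * (Y * Wq q ⌊(X : ℝ) ^ (1 / (r : ℝ))⌋₊) := by
  obtain ⟨c, C, hc, _, hVz⟩ := Vz_bounds
  have hrr : (2 : ℝ) ≤ r := by exact_mod_cast hr
  obtain ⟨C1, hC1⟩ : ∃ C1 : ℝ, C1 = 4 * D / (ε * c) + 1 := ⟨_, rfl⟩
  have hC1pos : 0 < C1 := by rw [hC1]; positivity
  have hC1D : 4 * (D : ℝ) ≤ C1 * (ε * c) := by
    have : 4 * (D : ℝ) / (ε * c) ≤ C1 := by rw [hC1]; linarith
    rwa [div_le_iff₀ (by positivity)] at this
  have hpow2 : Tendsto (fun X : ℕ => (X : ℝ) ^ (1 / (2 * r : ℝ))) atTop atTop :=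
    (tendsto_rpow_atTop (by positivity)).comp tendsto_natCast_atTop_atTop
  filter_upwards [hpow2.eventually_ge_atTop 2, eventually_ge_atTop 16,
    logpow_rpow (g + 2) C1 (1 / (2 * r)) hC1pos (by positivity),
    logpow_rpow (g + 2) C1 θ hC1pos hθ] with X hX1 hX16 hX2 hX3
  intro q hq hqX Y hXY
  obtain ⟨hy1, hy2, hy3, hy4⟩ := level_low r hr X (by omega) hX1
  obtain ⟨y, hy⟩ : ∃ y, y = ⌊(X : ℝ) ^ (1 / (r : ℝ))⌋₊ := ⟨_, rfl⟩
  rw [← hy] at hy1 hy2 hy3 hy4 ⊢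
  obtain ⟨L, hL⟩ : ∃ L, L = Real.log X := ⟨_, rfl⟩
  rw [← hL] at hX2 hX3 hy2 hy3 ⊢
  have hX16r : (16 : ℝ) ≤ X := by exact_mod_cast hX16
  have hlogy : 0 < Real.log y := Real.log_pos (by exact_mod_cast (by omega : 1 < y))
  have hLpos : 0 < L := lt_of_lt_of_le hlogy hy3
  have hypos : (0 : ℝ) < y := by exact_mod_cast (by omega : 0 < y)
  have hY0 : (0 : ℝ) ≤ Y := Nat.cast_nonneg Y
  have hW : c / L ≤ Wq q y := by
    have h1 := ((hVz y (by omega)).1).trans (Wq_low q y)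
    refine le_trans ?_ h1
    gcongr
  have hlq : Real.log q / Real.log 2 ≤ 2 * D * L := by
    have h1 : Real.log q ≤ D * L := by
      have h2 : (q : ℝ) ≤ (X : ℝ) ^ D := by exact_mod_cast hqX
      have h3 := Real.log_le_log (by exact_mod_cast hq : (0 : ℝ) < q) h2
      rwa [Real.log_pow, ← hL] at h3
    rw [div_le_iff₀ (Real.log_pos one_lt_two)]
    have h2 := Real.log_two_gt_d9
    have h3 : 0 ≤ (D : ℝ) * L := by positivity
    nlinarith
  have e1 : C1 * L ^ (g + 2) ≤ y := hX2.trans hy1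
  have e2 : C1 * L ^ (g + 2) ≤ Y := hX3.trans hXY
  have hLg : 0 < L ^ (g + 2) := by positivity
  have h5 : C1 * (L ^ (g + 2) * ((Y : ℝ) / y + 1)) ≤ 2 * Y := by
    have h6 : C1 * L ^ (g + 2) * ((Y : ℝ) / y) ≤ y * ((Y : ℝ) / y) :=
      mul_le_mul_of_nonneg_right e1 (by positivity)
    have h7 : (y : ℝ) * ((Y : ℝ) / y) = Y := by field_simp
    rw [h7] at h6
    calc C1 * (L ^ (g + 2) * ((Y : ℝ) / y + 1)) =
        C1 * L ^ (g + 2) * ((Y : ℝ) / y) + C1 * L ^ (g + 2) := by ring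
      _ ≤ Y + Y := by linarith
      _ = 2 * Y := by ring
  have h8 : L ^ g * (2 * D * L * ((Y : ℝ) / y + 1)) ≤ ε * (Y * (c / L)) := by
    have h9 : L ^ (g + 2) * ((Y : ℝ) / y + 1) * (4 * D) ≤ 2 * Y * (ε * c) := by
      calc L ^ (g + 2) * ((Y : ℝ) / y + 1) * (4 * D) ≤
          L ^ (g + 2) * ((Y : ℝ) / y + 1) * (C1 * (ε * c)) := by gcongr
        _ = C1 * (L ^ (g + 2) * ((Y : ℝ) / y + 1)) * (ε * c) := by ring
        _ ≤ 2 * Y * (ε * c) := by gcongr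
    have e3 : ε * (Y * (c / L)) = (2 * Y * (ε * c)) / (2 * L) := by field_simp
    rw [e3, le_div_iff₀ (by positivity)]
    calc L ^ g * (2 * D * L * ((Y : ℝ) / y + 1)) * (2 * L) =
        L ^ (g + 2) * ((Y : ℝ) / y + 1) * (4 * D) := by ring
      _ ≤ 2 * Y * (ε * c) := h9
  calc L ^ g * (Real.log q / Real.log 2 * ((Y : ℝ) / y + 1)) ≤
      L ^ g * (2 * D * L * ((Y : ℝ) / y + 1)) := by gcongr
    _ ≤ ε * (Y * (c / L)) := h8
    _ ≤ ε * (Y * Wq q y) := by gcongr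

/-! ### The packages -/

/-- the share, as a product -/
lemma Wq_form (q y : ℕ) : Wq q y =
    ∏ p ∈ (Finset.range (y + 1)).filter (fun p => p.Prime ∧ p ∣ q), (1 - 1 / (p : ℝ)) := by
  classical
  rw [← Finset.filter_filter, Finset.prod_filter (fun p => p ∣ q)]
  unfold Wq
  apply Finset.prod_congr
  · unfold pz
    ext p
    simp only [mem_filter, mem_Icc, mem_range]
    constructor
    · rintro ⟨h1, h2⟩
      exact ⟨by omega, h2⟩
    · rintro ⟨h1, h2⟩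
      exact ⟨⟨h2.pos, by omega⟩, h2⟩
  · intro p _
    rfl

/-- the density agrees with the one of the progression -/
lemma V_Qo_eq (q y : ℕ) :
    Vq (QL (fun _ : Fin 1 => (q : ℤ)) (fun _ => ((1 : ℕ) : ℤ))) y = Vq (Qo q) y := by
  rw [V_ap q 1 (Nat.coprime_one_left q) y, V_Qo]

/-- almost primes in the progression -/
lemma fr_iff (D r : ℕ) (hr : 1 ≤ r) : ∀ᶠ X : ℕ in atTop, ∀ q n t : ℕ, q ≤ X ^ D →
    n ≤ X ^ (D + 1) → t ≤ X → (Fr q ⌊(X : ℝ) ^ (1 / (r : ℝ))⌋₊ n t ↔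
      APn ((D + 1) * r) ((X : ℝ) ^ (1 / (r : ℝ))) (q * t + n)) := by
  filter_upwards [ev_z r hr 2, ev_z r hr 4, eventually_ge_atTop 1] with X h2 h4 hX1
  intro q n t hq hn ht
  have h5 := sf_nat (fun _ : Fin 1 => q) (fun _ => n) _ (fun _ => (D + 1) * r) h2 t (fun i => by
    apply size_z (D + 1) r hr X hX1 4 h4 (q * t + n)
    have h6 : q * t + n ≤ 4 * X ^ (D + 1) := by
      calc q * t + n ≤ X ^ D * X + X ^ (D + 1) := Nat.add_le_add (Nat.mul_le_mul hq ht) hn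
        _ = 2 * X ^ (D + 1) := by ring
        _ ≤ 4 * X ^ (D + 1) := Nat.mul_le_mul_right _ (by norm_num)
    exact_mod_cast h6)
  constructor
  · intro h
    refine h5.1 ?_ 0
    intro p hp hQ
    obtain ⟨_, h6⟩ := (QL_nat (fun _ : Fin 1 => q) (fun _ => n) p t).1 hQ
    exact h p hp (by rw [add_comm]; exact h6)
  · intro h p hp h6
    refine h5.2 (fun _ => h) p hp ?_
    exact (QL_nat (fun _ : Fin 1 => q) (fun _ => n) p t).2 ⟨0, by rw [add_comm]; exact h6⟩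

open Classical in
/-- **The joint law over the residue classes**, packaged -/
theorem res_joint (D : ℕ) (θ : ℝ) (hθ : 0 < θ) (s : ℕ) (x ε : ℝ) (hε : 0 < ε) :
    ∃ r0 : ℕ, ∀ r : ℕ, r0 ≤ r → ∀ᶠ X : ℕ in atTop, ∀ q : ℕ, 1 ≤ q → q ≤ X ^ D →
      ∀ (G : ℕ → ℕ → Prop) (V W : ℝ),
      (∀ n t, G n t ↔ APn ((D + 1) * r) ((X : ℝ) ^ (1 / (r : ℝ))) (q * t + n)) →
      Vq (Qo q) ⌊(X : ℝ) ^ (1 / (r : ℝ))⌋₊ = V → Wq q ⌊(X : ℝ) ^ (1 / (r : ℝ))⌋₊ = W →
      ∀ Z Y : ℕ, (X : ℝ) ^ θ ≤ Y → Z + Y ≤ X ^ (D + 1) →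
      ∀ a b : Fin s → ℕ, (∀ i, a i ≤ b i) → (∀ i, b i * V ≤ x) →
      (∀ i j, i ≠ j → b i ≤ a j ∨ b j ≤ a i) → ∀ E : Fin s → Finset ℕ,
        |(((Ioc Z (Z + Y)).filter (fun n => Nat.Coprime n q ∧ ∀ i,
          ((Ioc (a i) (b i)).filter (fun t => G n t)).card ∈ E i)).card : ℝ) -
          Y * W * ∏ i, ∑ j ∈ E i, Real.exp (-(((b i : ℝ) - a i) * V)) *
            (((b i : ℝ) - a i) * V) ^ j / j.factorial| ≤ ε * (Y * W) := by
  obtain ⟨K0, y0, T0, R0, hlaw⟩ := res_law s x (ε / 2) (by positivity)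
  obtain ⟨s0, h0⟩ := af_sizes D θ hθ K0 y0 T0 R0 1 1 (|x| + 2) one_pos one_pos (by positivity)
  refine ⟨max s0 2, ?_⟩
  intro r hr
  have hr2 : 2 ≤ r := (le_max_right _ _).trans hr
  filter_upwards [h0 r ((le_max_left _ _).trans hr), ap_fam D r (by omega), ap_short D x r hr2,
    fr_iff D r (by omega), cop_small D 0 θ (ε / 2) hθ (by positivity) r hr2,
    eventually_ge_atTop 1, ev_z r (by omega) 2] with X hX hfam hs hfr hcs hX1 hz2
  intro q hq hqX G V W hG hV hW Z Y hXY hZY a b hab hb hdis E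
  subst hV hW
  obtain ⟨y, hy⟩ : ∃ y, y = ⌊(X : ℝ) ^ (1 / (r : ℝ))⌋₊ := ⟨_, rfl⟩
  have hy1 : 1 ≤ y := by
    rw [hy]
    apply Nat.le_floor
    push_cast
    linarith
  have hAF := (hfam q 1 hq hqX (Nat.one_le_pow _ _ hX1) (Nat.coprime_one_left q)).1
  obtain ⟨a1, a2, a3, a4, a5, a6⟩ := hX _ _ hAF Y hXY y hy
  rw [V_Qo_eq] at a3 a4 a5
  have hbX : ∀ i, b i ≤ X := fun i => hs _ _ hAF (b i) (by rw [V_Qo_eq]; exact hb i)
  have hcs' := hcs q hq hqX Y hXY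
  rw [← hy] at hb hcs' hfr ⊢
  have hm := hlaw q Z Y y a1 a2 (fun T t1 t2 => by
    have := a6 T (by rw [V_Qo_eq]; exact t1) (by rw [V_Qo_eq]; exact t2)
    exact ⟨this.1, this.2.1⟩) a b hab hb hdis E
  have hd := cop_diff q y Z Y hq hy1
    (fun n => if ∀ i, Nr q y (a i) (b i) n ∈ E i then (1 : ℝ) else 0) 1 zero_le_one
    (fun n => by split_ifs <;> norm_num) (fun n => by split_ifs <;> norm_num)
  rw [pow_zero] at hcs'
  have hcount : (((Ioc Z (Z + Y)).filter (fun n => Nat.Coprime n q ∧ ∀ i,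
      ((Ioc (a i) (b i)).filter (fun t => G n t)).card ∈ E i)).card : ℝ) =
      ∑ n ∈ (Ioc Z (Z + Y)).filter (fun n => Nat.Coprime n q),
        if ∀ i, Nr q y (a i) (b i) n ∈ E i then (1 : ℝ) else 0 := by
    rw [← Finset.sum_filter, Finset.filter_filter, Finset.sum_const, nsmul_eq_mul, mul_one]
    congr 2
    apply Finset.filter_congr
    intro n hn
    rw [mem_Ioc] at hn
    apply and_congr Iff.rfl
    apply forall_congr'
    intro i
    have e : (Ioc (a i) (b i)).filter (fun t => G n t) =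
        (Ioc (a i) (b i)).filter (fun t => Fr q y n t) := by
      apply Finset.filter_congr
      intro t ht
      rw [mem_Ioc] at ht
      rw [hG n t]
      exact (hfr q n t hqX (by omega) (ht.2.trans (hbX i))).symm
    rw [e]
    rfl
  rw [hcount]
  have h1 := abs_sub_le
    (∑ n ∈ (Ioc Z (Z + Y)).filter (fun n => Nat.Coprime n q),
        if ∀ i, Nr q y (a i) (b i) n ∈ E i then (1 : ℝ) else 0)
    (∑ n ∈ (Ioc Z (Z + Y)).filter (fun n => Cp q y n),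
        if ∀ i, Nr q y (a i) (b i) n ∈ E i then (1 : ℝ) else 0)
    ((Y * Wq q y) * ∏ i, pois (((b i : ℝ) - a i) * Vq (Qo q) y) (E i))
  refine (le_trans (le_of_eq ?_) h1).trans ?_
  · rfl
  · linarith

open Classical in
/-- **The mixed moments over the residue classes**, packaged -/
theorem res_mom (D : ℕ) (θ : ℝ) (hθ : 0 < θ) {s : ℕ} (k : Fin s → ℕ) (x ε : ℝ) (hε : 0 < ε) :
    ∃ r0 : ℕ, ∀ r : ℕ, r0 ≤ r → ∀ᶠ X : ℕ in atTop, ∀ q : ℕ, 1 ≤ q → q ≤ X ^ D →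
      ∀ (G : ℕ → ℕ → Prop) (V W : ℝ),
      (∀ n t, G n t ↔ APn ((D + 1) * r) ((X : ℝ) ^ (1 / (r : ℝ))) (q * t + n)) →
      Vq (Qo q) ⌊(X : ℝ) ^ (1 / (r : ℝ))⌋₊ = V → Wq q ⌊(X : ℝ) ^ (1 / (r : ℝ))⌋₊ = W →
      ∀ Z Y : ℕ, (X : ℝ) ^ θ ≤ Y → Z + Y ≤ X ^ (D + 1) →
      ∀ a b : Fin s → ℕ, (∀ i, a i ≤ b i) → (∀ i, b i * V ≤ x) →
      (∀ i j, i ≠ j → b i ≤ a j ∨ b j ≤ a i) →
        |∑ n ∈ (Ioc Z (Z + Y)).filter (fun n => Nat.Coprime n q),
          ∏ i, ((((Ioc (a i) (b i)).filter (fun t => G n t)).card.choose (k i) : ℕ) : ℝ) -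
          Y * W * ∏ i, ((((b i : ℝ) - a i) * V) ^ (k i) / (k i).factorial)| ≤ ε * (Y * W) := by
  obtain ⟨v0, hv, hVlow⟩ := V_lower_unif 1
  obtain ⟨K0, y0, T0, R0, hlaw⟩ := res_mom_law k x (ε / 2) (by positivity)
  obtain ⟨s0, h0⟩ := af_sizes D θ hθ K0 y0 T0 R0 1 1 (|x| + 2) one_pos one_pos (by positivity)
  refine ⟨max s0 2, ?_⟩
  intro r hr
  have hr2 : 2 ≤ r := (le_max_right _ _).trans hr
  have hrr : (2 : ℝ) ≤ r := by exact_mod_cast hr2
  have hpow2 : Tendsto (fun X : ℕ => (X : ℝ) ^ (1 / (2 * r : ℝ))) atTop atTop :=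
    (tendsto_rpow_atTop (by positivity)).comp tendsto_natCast_atTop_atTop
  have hlogX : Tendsto (fun X : ℕ => Real.log (X : ℝ)) atTop atTop :=
    Real.tendsto_log_atTop.comp tendsto_natCast_atTop_atTop
  filter_upwards [h0 r ((le_max_left _ _).trans hr), ap_fam D r (by omega), ap_short D x r hr2,
    fr_iff D r (by omega), cop_small D (2 * ∑ i, k i) θ (ε / 2) hθ (by positivity) r hr2,
    eventually_ge_atTop 1, ev_z r (by omega) 2, hlogX.eventually_ge_atTop (|x| / v0 + 1),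
    hpow2.eventually_ge_atTop 2] with X hX hfam hs hfr hcs hX1 hz2 hLx hX22
  intro q hq hqX G V W hG hV hW Z Y hXY hZY a b hab hb hdis
  subst hV hW
  obtain ⟨hy1', hy2, hy3, hy4⟩ := level_low r hr2 X (by omega) hX22
  obtain ⟨y, hy⟩ : ∃ y, y = ⌊(X : ℝ) ^ (1 / (r : ℝ))⌋₊ := ⟨_, rfl⟩
  have hy1 : 1 ≤ y := by
    rw [hy]
    omega
  have hAF := (hfam q 1 hq hqX (Nat.one_le_pow _ _ hX1) (Nat.coprime_one_left q)).1
  obtain ⟨a1, a2, a3, a4, a5, a6⟩ := hX _ _ hAF Y hXY y hy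
  rw [V_Qo_eq] at a3 a4 a5
  have hbX : ∀ i, b i ≤ X := fun i => hs _ _ hAF (b i) (by rw [V_Qo_eq]; exact hb i)
  have hcs' := hcs q hq hqX Y hXY
  rw [← hy] at hb hcs' hfr hy1' hy2 hy3 hy4 ⊢
  have hm := hlaw q Z Y y a1 a2 (fun T t1 t2 => by
    have := a6 T (by rw [V_Qo_eq]; exact t1) (by rw [V_Qo_eq]; exact t2)
    exact ⟨this.1, this.2.1⟩) a b hab hb hdis
  obtain ⟨L, hL⟩ : ∃ L, L = Real.log X := ⟨_, rfl⟩
  rw [← hL] at hcs' hLx hy3
  have hlogy : 0 < Real.log y := Real.log_pos (by exact_mod_cast (by omega : 1 < y))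
  have hL1 : 1 ≤ L := by
    have : 0 ≤ |x| / v0 := by positivity
    linarith
  have hbL : ∀ i, (b i : ℝ) ≤ L ^ 2 := by
    intro i
    have h1 := hVlow (Qo q) (qo_per q) (fun p hp => qo_adm q p hp) y hy4
    rw [pow_one] at h1
    have h2 : (b i : ℝ) * (v0 / Real.log y) ≤ |x| :=
      (mul_le_mul_of_nonneg_left h1 (Nat.cast_nonneg _)).trans ((hb i).trans (le_abs_self x))
    have h3 : (b i : ℝ) ≤ |x| / v0 * Real.log y := by
      rw [div_mul_eq_mul_div, le_div_iff₀ hv]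
      calc (b i : ℝ) * v0 = b i * (v0 / Real.log y) * Real.log y := by field_simp
        _ ≤ |x| * Real.log y := by gcongr
    calc (b i : ℝ) ≤ |x| / v0 * Real.log y := h3
      _ ≤ L * L := by
        apply mul_le_mul (by linarith) hy3 hlogy.le (by linarith)
      _ = L ^ 2 := by ring
  have hd := cop_diff q y Z Y hq hy1
    (fun n => ∏ i, ((Nr q y (a i) (b i) n).choose (k i) : ℝ)) (L ^ (2 * ∑ i, k i)) (by positivity)
    (fun n => Finset.prod_nonneg fun i _ => Nat.cast_nonneg _) (fun n => by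
      rw [Finset.mul_sum, ← Finset.prod_pow_eq_pow_sum]
      apply Finset.prod_le_prod
      · intro i _
        exact Nat.cast_nonneg _
      · intro i _
        have h1 : (Nr q y (a i) (b i) n).choose (k i) ≤ (b i) ^ (k i) := by
          refine (Nat.choose_le_pow _ _).trans (Nat.pow_le_pow_left ?_ _)
          unfold Nr
          refine (card_filter_le _ _).trans ?_
          rw [Nat.card_Ioc]
          omega
        calc ((Nr q y (a i) (b i) n).choose (k i) : ℝ) ≤ (b i : ℝ) ^ (k i) := by exact_mod_cast h1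
          _ ≤ (L ^ 2) ^ (k i) := pow_le_pow_left₀ (Nat.cast_nonneg _) (hbL i) _
          _ = L ^ (2 * k i) := by rw [pow_mul])
  have hcount : ∑ n ∈ (Ioc Z (Z + Y)).filter (fun n => Nat.Coprime n q),
          ∏ i, ((((Ioc (a i) (b i)).filter (fun t => G n t)).card.choose (k i) : ℕ) : ℝ) =
      ∑ n ∈ (Ioc Z (Z + Y)).filter (fun n => Nat.Coprime n q),
        ∏ i, ((Nr q y (a i) (b i) n).choose (k i) : ℝ) := by
    apply Finset.sum_congr rfl
    intro n hn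
    rw [mem_filter, mem_Ioc] at hn
    apply Finset.prod_congr rfl
    intro i _
    have e : (Ioc (a i) (b i)).filter (fun t => G n t) =
        (Ioc (a i) (b i)).filter (fun t => Fr q y n t) := by
      apply Finset.filter_congr
      intro t ht
      rw [mem_Ioc] at ht
      rw [hG n t]
      exact (hfr q n t hqX (by omega) (ht.2.trans (hbX i))).symm
    rw [e]
    rfl
  rw [hcount]
  have h1 := abs_sub_le
    (∑ n ∈ (Ioc Z (Z + Y)).filter (fun n => Nat.Coprime n q),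
        ∏ i, ((Nr q y (a i) (b i) n).choose (k i) : ℝ))
    (∑ n ∈ (Ioc Z (Z + Y)).filter (fun n => Cp q y n),
        ∏ i, ((Nr q y (a i) (b i) n).choose (k i) : ℝ))
    ((Y * Wq q y) * ∏ i, ((((b i : ℝ) - a i) * Vq (Qo q) y) ^ (k i) / (k i).factorial))
  refine h1.trans ?_
  linarith

end Pool.Agent.TH464.PO
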