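import Pool.Agent.TH464.PO.GapI
import Pool.Agent.TH464.PO.ResLaw

set_option autoImplicit false

/-!
# The joint law of the waiting times over samples; residue classes
-/

namespace Pool.Agent.TH464.PO

open Finset Filter
open Pool.Agent.W123.RP Pool.Agent.H373R2.T7 Pool.Agent.W123.RU
open Pool.Agent.TH464.PW

variable {s : ℕ}

open Classical in
/-- cells with prescribed contents -/
lemma count_cellsS (S : Finset ℕ) (g : ℕ → ℕ → Prop) (W : ℝ) (hW : 0 ≤ W) (L D : ℕ) (V x' ε' : ℝ)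
    (hε' : 0 ≤ ε') (hV : 0 < V)
    (hx' : ((s * D * L : ℕ) : ℝ) * V ≤ x')
    (hP : ∀ a b : Fin (s + s) → ℕ, (∀ i, a i ≤ b i) → (∀ j, b j * V ≤ x') →
      (∀ i j, i ≠ j → b i ≤ a j ∨ b j ≤ a i) → ∀ E : Fin (s + s) → Finset ℕ,
      |((S.filter
          (fun n => ∀ j, ((Ioc (0 + a j) (0 + b j)).filter (g n)).card ∈ E j)).card : ℝ) -
        W * ∏ j, pois (((b j : ℝ) - a j) * V) (E j)| ≤ ε' * W)
    (a : Fin s → ℕ) (ha : ∀ i, 1 ≤ a i) :
    |∑ d ∈ Fintype.piFinset (fun i => Icc (a i) D),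
        ((S.filter (fun n => Ev (g n) L d 0)).card : ℝ) -
      W * ∏ i, Gs (L * V) (a i) D| ≤ D ^ s * (ε' * W) := by
  have e1 : ∏ i, Gs (L * V) (a i) D =
      ∑ d ∈ Fintype.piFinset (fun i => Icc (a i) D), ∏ i, (L * V) * Real.exp (-((L * V) * d i)) := by
    unfold Gs
    rw [Finset.prod_univ_sum]
  rw [e1, Finset.mul_sum, ← Finset.sum_sub_distrib]
  refine (Finset.abs_sum_le_sum_abs _ _).trans ?_
  have hterm : ∀ d ∈ Fintype.piFinset (fun i => Icc (a i) D),
      |((S.filter (fun n => Ev (g n) L d 0)).card : ℝ) -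
        W * ∏ i, (L * V) * Real.exp (-((L * V) * d i))| ≤ ε' * W := by
    intro d hd
    rw [Fintype.mem_piFinset] at hd
    have hd1 : ∀ i, 1 ≤ d i := fun i => (ha i).trans (mem_Icc.1 (hd i)).1
    have hdD : ∀ i, d i ≤ D := fun i => (mem_Icc.1 (hd i)).2
    have h := hP (wa L d) (wb L d) (w_le L d) (fun j => by
      refine le_trans ?_ hx'
      apply mul_le_mul_of_nonneg_right _ hV.le
      exact_mod_cast w_bd L d D hdD j) (w_dis L d) (we s)
    rw [w_prob L d hd1 V] at h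
    have e2 : S.filter (fun n =>
        ∀ j, ((Ioc (0 + wa L d j) (0 + wb L d j)).filter (g n)).card ∈ we s j) =
        S.filter (fun n => Ev (g n) L d 0) := by
      apply Finset.filter_congr
      intro m _
      rw [w_ev]
    rw [e2] at h
    exact h
  refine (Finset.sum_le_card_nsmul _ _ _ hterm).trans ?_
  rw [nsmul_eq_mul]
  apply mul_le_mul_of_nonneg_right _ (by positivity)
  have hc : (Fintype.piFinset (fun i : Fin s => Icc (a i) D)).card ≤ D ^ s := by
    rw [Fintype.card_piFinset]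
    refine (Finset.prod_le_pow_card _ _ D fun i _ => ?_).trans ?_
    · rw [Nat.card_Icc]
      have := ha i
      omega
    · rw [card_univ, Fintype.card_fin]
  exact_mod_cast hc

open Classical in
/-- **The joint law of the waiting times, samples.** -/
theorem gaps_jointS (s : ℕ) (ε : ℝ) (hε : 0 < ε) : ∃ (δ x' ε' : ℝ), 0 < δ ∧ 0 < ε' ∧ 0 ≤ x' ∧
    ∀ (S : Finset ℕ) (g : ℕ → ℕ → Prop) (W V : ℝ), 0 ≤ W → 0 < V → V ≤ δ →
    (∀ a b : Fin (s + s) → ℕ, (∀ i, a i ≤ b i) → (∀ j, b j * V ≤ x') →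
      (∀ i j, i ≠ j → b i ≤ a j ∨ b j ≤ a i) → ∀ E : Fin (s + s) → Finset ℕ,
      |((S.filter
          (fun n => ∀ j, ((Ioc (0 + a j) (0 + b j)).filter (g n)).card ∈ E j)).card : ℝ) -
        W * ∏ j, pois (((b j : ℝ) - a j) * V) (E j)| ≤ ε' * W) →
    ∀ t : Fin s → ℕ,
      |((S.filter (fun n => ∀ j : Fin s,
          t j < (nx (g n))^[(j : ℕ) + 1] 0 - (nx (g n))^[(j : ℕ)] 0)).card : ℝ) -
        W * ∏ j, Real.exp (-(t j * V))| ≤ ε * W := by
  obtain ⟨δ0, hδ0⟩ : ∃ δ0 : ℝ, δ0 = ε / (24 * (s + 1)) := ⟨_, rfl⟩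
  have hs0 : (0 : ℝ) ≤ s := Nat.cast_nonneg s
  have hδpos : 0 < δ0 := by rw [hδ0]; positivity
  obtain ⟨R, hR⟩ : ∃ R : ℝ, R = 8 * (s + 1) / ε := ⟨_, rfl⟩
  have hRpos : 0 < R := by rw [hR]; positivity
  have hRe : Real.exp (-R) ≤ ε / (8 * (s + 1)) := by
    have h1 := Real.add_one_le_exp R
    have h2 : Real.exp R * Real.exp (-R) = 1 := by rw [← Real.exp_add]; simp
    have h3 : R * Real.exp (-R) ≤ 1 := by
      rw [← h2]
      exact mul_le_mul_of_nonneg_right (by linarith) (Real.exp_pos _).le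
    have e : ε / (8 * (s + 1)) = 1 / R := by rw [hR, one_div_div]
    rw [e, le_div_iff₀ hRpos, mul_comm]
    exact h3
  obtain ⟨D, hD⟩ : ∃ D : ℕ, 2 * R / δ0 ≤ D := exists_nat_ge _
  refine ⟨δ0 / 2, s * D * δ0, ε / (4 * (2 * D ^ s + 1)), by positivity, by positivity,
    by positivity, ?_⟩
  intro S g W V hW0 hV hVδ hP t
  obtain ⟨ε', hε'⟩ : ∃ ε' : ℝ, ε' = ε / (4 * (2 * D ^ s + 1)) := ⟨_, rfl⟩
  have hε'0 : 0 < ε' := by rw [hε']; positivity
  rw [← hε'] at hP
  obtain ⟨L, hLd⟩ : ∃ L : ℕ, L = ⌊δ0 / V⌋₊ := ⟨_, rfl⟩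
  have hL2 : (2 : ℝ) ≤ δ0 / V := by
    rw [le_div_iff₀ hV]
    linarith
  have hL : 1 ≤ L := by
    rw [hLd]
    apply Nat.le_floor
    push_cast
    linarith
  obtain ⟨lam, hlam⟩ : ∃ lam : ℝ, lam = L * V := ⟨_, rfl⟩
  have hlamδ : lam ≤ δ0 := by
    have h1 : (L : ℝ) ≤ δ0 / V := by
      rw [hLd]
      exact Nat.floor_le (by positivity)
    rw [le_div_iff₀ hV] at h1
    rw [hlam]
    exact h1
  have hlamlow : δ0 / 2 ≤ lam := by
    have h1 : δ0 / V < L + 1 := by
      rw [hLd]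
      exact Nat.lt_floor_add_one _
    rw [div_lt_iff₀ hV] at h1
    rw [hlam]
    linarith
  have hlam0 : 0 < lam := by linarith
  have hlamD : R ≤ lam * D := by
    rw [div_le_iff₀ hδpos] at hD
    have h1 : δ0 / 2 * D ≤ lam * D := mul_le_mul_of_nonneg_right hlamlow (Nat.cast_nonneg D)
    linarith
  have hx' : ((s * D * L : ℕ) : ℝ) * V ≤ s * D * δ0 := by
    have h1 : (s : ℝ) * D * lam ≤ s * D * δ0 := mul_le_mul_of_nonneg_left hlamδ (by positivity)
    have e : ((s * D * L : ℕ) : ℝ) * V = s * D * lam := by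
      rw [hlam]
      push_cast
      ring
    rw [e]
    exact h1
  -- the total number
  have htot : |(S.card : ℝ) - W| ≤ ε' * W := by
    have h := hP (fun _ => 0) (fun _ => 0) (fun _ => le_rfl) (fun _ => by
      rw [Nat.cast_zero, zero_mul]
      positivity) (fun _ _ _ => Or.inl le_rfl) (fun _ => {0})
    have e1 : S.filter (fun n =>
        ∀ _ : Fin (s + s), ((Ioc (0 + 0) (0 + 0)).filter (g n)).card ∈ ({0} : Finset ℕ)) =
        S := by
      apply Finset.filter_true_of_mem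
      intro m _
      simp
    rw [e1] at h
    have e2 : ∏ _j : Fin (s + s), pois ((((0 : ℕ) : ℝ) - ((0 : ℕ) : ℝ)) * V) {0} = 1 := by
      apply Finset.prod_eq_one
      intro j _
      rw [pois_zero]
      simp
    rw [e2, mul_one] at h
    exact h
  -- the cells
  have hcell := fun (a : Fin s → ℕ) (ha : ∀ i, 1 ≤ a i) =>
    count_cellsS S g W hW0 L D V _ ε' hε'0.le hV hx' hP a ha
  rw [← hlam] at hcell
  obtain ⟨kk, hk1, hk2⟩ : ∃ kk : Fin s → ℕ, (∀ i, kk i * L ≤ t i) ∧ ∀ i, t i < (kk i + 1) * L :=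
    ⟨fun i => t i / L, fun i => Nat.div_mul_le_self _ _, fun i => by
      have := Nat.lt_div_mul_add (a := t i) (b := L) hL
      rw [add_mul, one_mul]
      exact this⟩
  have hlo := hcell (fun i => kk i + 2) (fun i => by omega)
  have hhi := hcell (fun i => max 1 (kk i)) (fun i => le_max_left _ _)
  have hall := hcell (fun _ => 1) (fun _ => le_rfl)
  obtain ⟨A, hA⟩ : ∃ A : Finset ℕ, A = S.filter (fun n => ∀ j : Fin s,
          t j < (nx (g n))^[(j : ℕ) + 1] 0 - (nx (g n))^[(j : ℕ)] 0) := ⟨_, rfl⟩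
  obtain ⟨C, hC⟩ : ∃ C : (Fin s → ℕ) → Finset ℕ, C = fun d =>
    S.filter (fun n => Ev (g n) L d 0) := ⟨_, rfl⟩
  have hdisj : ∀ S' : Finset (Fin s → ℕ), (∀ d ∈ S', ∀ i, 1 ≤ d i) →
      (S' : Set (Fin s → ℕ)).PairwiseDisjoint C := by
    intro S' hS d hd d' hd' hne
    rw [Function.onFun, Finset.disjoint_left, hC]
    intro m h1 h2
    rw [mem_filter] at h1 h2
    exact hne (ev_inj (g m) L hL d d' (hS d hd) (hS d' hd') 0 h1.2 h2.2)
  have hlow : ∑ d ∈ Fintype.piFinset (fun i => Icc (kk i + 2) D), (C d).card ≤ A.card := by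
    have hS : ∀ d ∈ Fintype.piFinset (fun i => Icc (kk i + 2) D), ∀ i, 1 ≤ d i := by
      intro d hd i
      have := (mem_Icc.1 (Fintype.mem_piFinset.1 hd i)).1
      omega
    rw [← Finset.card_biUnion (fun d hd d' hd' hne => hdisj _ hS hd hd' hne)]
    apply card_le_card
    intro m hm
    rw [mem_biUnion] at hm
    obtain ⟨d, hd, hm⟩ := hm
    rw [hC, mem_filter] at hm
    rw [hA, mem_filter]
    refine ⟨hm.1, fun i => ?_⟩
    have h1 := (gap_bounds (g m) L hL d (hS d hd) 0 hm.2 i).1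
    have h2 := (mem_Icc.1 (Fintype.mem_piFinset.1 hd i)).1
    have h3 := hk2 i
    have h4 : (kk i + 1) * L ≤ (d i - 1) * L := Nat.mul_le_mul_right L (by omega)
    omega
  have hupp : A.card + ∑ d ∈ Fintype.piFinset (fun _ : Fin s => Icc 1 D), (C d).card ≤
      S.card +
        ∑ d ∈ Fintype.piFinset (fun i => Icc (max 1 (kk i)) D), (C d).card := by
    have hsub : Fintype.piFinset (fun i => Icc (max 1 (kk i)) D) ⊆
        Fintype.piFinset (fun _ : Fin s => Icc 1 D) := by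
      apply Fintype.piFinset_subset
      intro i
      exact Finset.Icc_subset_Icc (le_max_left _ _) le_rfl
    rw [← Finset.sum_sdiff hsub, ← add_assoc]
    apply Nat.add_le_add_right
    have hS : ∀ d ∈ Fintype.piFinset (fun _ : Fin s => Icc 1 D) \
        Fintype.piFinset (fun i => Icc (max 1 (kk i)) D), ∀ i, 1 ≤ d i := by
      intro d hd i
      rw [Finset.mem_sdiff] at hd
      exact (mem_Icc.1 (Fintype.mem_piFinset.1 hd.1 i)).1
    rw [← Finset.card_biUnion (fun d hd d' hd' hne => hdisj _ hS hd hd' hne),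
      ← Finset.card_union_of_disjoint]
    · apply card_le_card
      intro m hm
      rw [mem_union, mem_biUnion] at hm
      rcases hm with hm | ⟨d, hd, hm⟩
      · rw [hA, mem_filter] at hm
        exact hm.1
      · rw [hC, mem_filter] at hm
        exact hm.1
    · rw [Finset.disjoint_left]
      intro m hm1 hm2
      rw [mem_biUnion] at hm2
      obtain ⟨d, hd, hm2⟩ := hm2
      rw [hC, mem_filter] at hm2
      rw [hA, mem_filter] at hm1
      have hd' := hd
      rw [Finset.mem_sdiff, Fintype.mem_piFinset, Fintype.mem_piFinset, not_forall] at hd'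
      obtain ⟨h1, i, h2⟩ := hd'
      have h3 := mem_Icc.1 (h1 i)
      rw [mem_Icc, not_and_or] at h2
      have h4 : d i + 1 ≤ kk i := by
        rcases h2 with h2 | h2
        · have h5 : ¬ (1 ≤ d i ∧ kk i ≤ d i) := fun h => h2 (max_le h.1 h.2)
          omega
        · exact absurd h3.2 h2
      have h5 := (gap_bounds (g m) L hL d (hS d hd) 0 hm2.2 i).2
      have h6 := hm1.2 i
      have h7 : (d i + 1) * L ≤ t i := (Nat.mul_le_mul_right L h4).trans (hk1 i)
      omega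
  have hlowR : ∑ d ∈ Fintype.piFinset (fun i => Icc (kk i + 2) D), ((C d).card : ℝ) ≤ A.card := by
    exact_mod_cast hlow
  have huppR : (A.card : ℝ) + ∑ d ∈ Fintype.piFinset (fun _ : Fin s => Icc 1 D), ((C d).card : ℝ) ≤
      (S.card : ℝ) +
        ∑ d ∈ Fintype.piFinset (fun i => Icc (max 1 (kk i)) D), ((C d).card : ℝ) := by
    exact_mod_cast hupp
  rw [hC] at hlowR huppR
  rw [← hA]
  obtain ⟨P0, hP0⟩ : ∃ P0 : ℝ, P0 = ∏ j : Fin s, Real.exp (-(t j * V)) := ⟨_, rfl⟩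
  rw [← hP0]
  obtain ⟨η, hη⟩ : ∃ η : ℝ, η = 3 * lam + Real.exp (-(lam * D)) := ⟨_, rfl⟩
  have hLr : (1 : ℝ) ≤ L := by exact_mod_cast hL
  have hexp01 : ∀ j : Fin s, 0 ≤ Real.exp (-(t j * V)) ∧ Real.exp (-(t j * V)) ≤ 1 := fun j =>
    ⟨(Real.exp_pos _).le, Real.exp_le_one_iff.2 (by
      have : 0 ≤ (t j : ℝ) * V := by positivity
      linarith)⟩
  have hdiv : ∀ i, (kk i : ℝ) * L ≤ t i ∧ (t i : ℝ) ≤ (kk i : ℝ) * L + L := by
    intro i
    have h1 := hk1 i
    have h2 := (hk2 i).le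
    rw [add_mul, one_mul] at h2
    constructor
    · exact_mod_cast h1
    · exact_mod_cast h2
  have k1 : |∏ i, Gs lam (kk i + 2) D - P0| ≤ s * η := by
    have h := prod_diff Finset.univ (fun i : Fin s => Gs lam (kk i + 2) D)
      (fun j => Real.exp (-(t j * V))) (fun i => (Gs_bd lam hlam0 _ D (by omega)).1)
      (fun i => (Gs_bd lam hlam0 _ D (by omega)).2.1) (fun j => (hexp01 j).1) (fun j => (hexp01 j).2)
      η (fun i => by
        rw [hη]
        apply Gs_close lam V hV.le L D (t i) _ hlam hlam0 (by omega)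
        · have := (hdiv i).1
          push_cast
          linarith
        · have := (hdiv i).2
          push_cast
          linarith)
    rw [card_univ, Fintype.card_fin, ← hP0] at h
    exact h
  have k2 : |∏ i, Gs lam (max 1 (kk i)) D - P0| ≤ s * η := by
    have h := prod_diff Finset.univ (fun i : Fin s => Gs lam (max 1 (kk i)) D)
      (fun j => Real.exp (-(t j * V))) (fun i => (Gs_bd lam hlam0 _ D (le_max_left _ _)).1)
      (fun i => (Gs_bd lam hlam0 _ D (le_max_left _ _)).2.1) (fun j => (hexp01 j).1)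
      (fun j => (hexp01 j).2) η (fun i => by
        rw [hη]
        apply Gs_close lam V hV.le L D (t i) _ hlam hlam0 (le_max_left _ _)
        · have h1 := (hdiv i).1
          have h2 : ((max 1 (kk i) : ℕ) : ℝ) ≤ (kk i : ℝ) + 1 := by
            exact_mod_cast max_le (by omega) (by omega)
          have h3 := mul_le_mul_of_nonneg_right h2 (by linarith : (0 : ℝ) ≤ L)
          linarith
        · have h1 := (hdiv i).2
          have h2 : (kk i : ℝ) ≤ ((max 1 (kk i) : ℕ) : ℝ) := by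
            exact_mod_cast le_max_right _ _
          have h3 := mul_le_mul_of_nonneg_right h2 (by linarith : (0 : ℝ) ≤ L)
          linarith)
    rw [card_univ, Fintype.card_fin, ← hP0] at h
    exact h
  have k3 : |∏ _i : Fin s, Gs lam 1 D - 1| ≤ s * η := by
    have h := prod_diff Finset.univ (fun _ : Fin s => Gs lam 1 D)
      (fun _ => (1 : ℝ)) (fun i => (Gs_bd lam hlam0 _ D le_rfl).1)
      (fun i => (Gs_bd lam hlam0 _ D le_rfl).2.1) (fun _ => zero_le_one) (fun _ => le_rfl) η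
      (fun i => by
        rw [hη]
        have h2 := Gs_close lam V hV.le L D 0 1 hlam hlam0 le_rfl (by push_cast; linarith)
          (by push_cast; linarith)
        rw [Nat.cast_zero, zero_mul, neg_zero, Real.exp_zero] at h2
        exact h2)
    rw [card_univ, Fintype.card_fin, Finset.prod_const_one] at h
    exact h
  have hηε : 2 * (s * η) + (2 * (D : ℝ) ^ s + 1) * ε' ≤ ε := by
    have h1 : (2 * (D : ℝ) ^ s + 1) * ε' = ε / 4 := by
      rw [hε']
      field_simp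
    have h2 : Real.exp (-(lam * D)) ≤ ε / (8 * (s + 1)) :=
      (Real.exp_le_exp.2 (by linarith)).trans hRe
    have h3 : (s : ℝ) * (ε / (8 * (s + 1))) ≤ ε / 8 := by
      rw [mul_div_assoc', div_le_div_iff₀ (by positivity) (by norm_num)]
      nlinarith
    have h4 : (s : ℝ) * δ0 ≤ ε / 24 := by
      rw [hδ0, mul_div_assoc', div_le_div_iff₀ (by positivity) (by norm_num)]
      nlinarith
    have h5 : (s : ℝ) * η ≤ 3 * (s * δ0) + s * (ε / (8 * (s + 1))) := by
      rw [hη]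
      have h6 : (s : ℝ) * lam ≤ s * δ0 := mul_le_mul_of_nonneg_left hlamδ hs0
      have h7 : (s : ℝ) * Real.exp (-(lam * D)) ≤ s * (ε / (8 * (s + 1))) :=
        mul_le_mul_of_nonneg_left h2 hs0
      linarith
    rw [h1]
    linarith
  have hfin := mul_le_mul_of_nonneg_right hηε hW0
  obtain ⟨l1, l2⟩ := abs_le.1 hlo
  obtain ⟨u1, u2⟩ := abs_le.1 hhi
  obtain ⟨a1, a2⟩ := abs_le.1 hall
  obtain ⟨t1, t2⟩ := abs_le.1 htot
  obtain ⟨m1, m2⟩ := abs_le.1 k1
  obtain ⟨n1, n2⟩ := abs_le.1 k2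
  obtain ⟨o1, o2⟩ := abs_le.1 k3
  have m1' := mul_le_mul_of_nonneg_left m1 hW0
  have n2' := mul_le_mul_of_nonneg_left n2 hW0
  have o1' := mul_le_mul_of_nonneg_left o1 hW0
  have hDs : 0 ≤ (D : ℝ) ^ s * (ε' * W) := by positivity
  have hsη : 0 ≤ (s : ℝ) * η * W := by
    have : 0 < η := by rw [hη]; positivity
    positivity
  have hεW : 0 ≤ ε' * W := by positivity
  rw [abs_le]
  constructor
  · nlinarith
  · nlinarith


open Classical in
/-- **The waiting times over the residue classes** -/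
theorem res_wait (D : ℕ) (θ : ℝ) (hθ : 0 < θ) (s : ℕ) (ε : ℝ) (hε : 0 < ε) :
    ∃ r0 : ℕ, ∀ r : ℕ, r0 ≤ r → ∀ᶠ X : ℕ in atTop, ∀ q : ℕ, 1 ≤ q → q ≤ X ^ D →
      ∀ (G : ℕ → ℕ → Prop) (V W : ℝ),
      (∀ n t, G n t ↔ APn ((D + 1) * r) ((X : ℝ) ^ (1 / (r : ℝ))) (q * t + n)) →
      Vq (Qo q) ⌊(X : ℝ) ^ (1 / (r : ℝ))⌋₊ = V → Wq q ⌊(X : ℝ) ^ (1 / (r : ℝ))⌋₊ = W →
      ∀ Z Y : ℕ, (X : ℝ) ^ θ ≤ Y → Z + Y ≤ X ^ (D + 1) → ∀ t : Fin s → ℕ,
        |(((Ioc Z (Z + Y)).filter (fun n => Nat.Coprime n q ∧ ∀ j : Fin s,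
          t j < (nx (G n))^[(j : ℕ) + 1] 0 - (nx (G n))^[(j : ℕ)] 0)).card : ℝ) -
          Y * W * ∏ j, Real.exp (-(t j * V))| ≤ ε * (Y * W) := by
  obtain ⟨δ, x', ε', hδ, hε', hx', hmain⟩ := gaps_jointS s ε hε
  obtain ⟨r1, h1⟩ := res_joint D θ hθ (s + s) x' ε' hε'
  obtain ⟨r2, h2⟩ := af_sizes D θ hθ 1 1 1 1 1 δ 1 one_pos hδ one_pos
  refine ⟨max (max r1 r2) 1, ?_⟩
  intro r hr
  have hr1 : r1 ≤ r := by omega
  have hr2 : r2 ≤ r := by omega
  filter_upwards [h1 r hr1, h2 r hr2, ap_fam D r (by omega), eventually_ge_atTop 1]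
    with X hX1 hX2 hfam hX0
  intro q hq hqX G V W hG hV hW Z Y hXY hZY t
  have hAF := (hfam q 1 hq hqX (Nat.one_le_pow _ _ hX0) (Nat.coprime_one_left q)).1
  have hV0 : 0 < V := by
    rw [← hV]
    exact Vq_pos (Qo q) (fun p hp => qo_adm q p hp) _
  have hVδ : V ≤ δ := by
    rw [← hV, ← V_Qo_eq]
    exact (hX2 _ _ hAF Y hXY _ rfl).2.2.1
  have hW0 : 0 ≤ W := by
    rw [← hW]
    exact (Wq_pos q _).le
  have h := hmain ((Ioc Z (Z + Y)).filter (fun n => Nat.Coprime n q)) G (Y * W) V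
    (by positivity) hV0 hVδ (fun a b hab hb hdis E => by
      have h3 := hX1 q hq hqX G V W hG hV hW Z Y hXY hZY a b hab hb hdis E
      rw [Finset.filter_filter]
      simp only [zero_add]
      exact h3) t
  rw [Finset.filter_filter] at h
  exact h

end Pool.Agent.TH464.PO
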