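import Mathlib

set_option autoImplicit false

/-!
# From binomial moments to the Poisson law
-/

namespace Pool.Agent.TH464.PO

open Finset

/-- Bonferroni for one number -/
lemma bonf (M m : ℕ) : |(if M = 0 then (1 : ℝ) else 0) -
    ∑ i ∈ range (m + 1), (-1) ^ i * (M.choose i : ℝ)| ≤ (M.choose (m + 1) : ℝ) := by
  rcases M with _ | M
  · have h1 : ∑ i ∈ range (m + 1), (-1 : ℝ) ^ i * ((0 : ℕ).choose i : ℝ) = 1 := by
      rw [Finset.sum_eq_single 0]
      · simp
      · intro b _ hb
        rw [Nat.choose_eq_zero_of_lt (Nat.pos_of_ne_zero hb)]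
        simp
      · intro h
        simp at h
    rw [h1]
    simp
  · have h1 := Int.alternating_sum_range_choose_eq_choose (n := M) (m := m)
    have h2 : ∑ i ∈ range (m + 1), (-1 : ℝ) ^ i * ((M + 1).choose i : ℝ) = (-1) ^ m * (M.choose m : ℝ) := by
      exact_mod_cast h1
    rw [h2, if_neg (by omega), zero_sub, abs_neg, abs_mul, abs_pow, abs_neg, abs_one, one_pow, one_mul,
      Nat.abs_cast]
    rw [Nat.choose_succ_succ]
    push_cast
    have : (0 : ℝ) ≤ (M.choose (m + 1) : ℝ) := Nat.cast_nonneg _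
    linarith

/-- Bonferroni for the event `N = j` -/
lemma bonf_eq (N j m : ℕ) : |(if N = j then (1 : ℝ) else 0) -
    ∑ i ∈ range (m + 1), (-1) ^ i * (((i + j).choose j : ℝ) * (N.choose (i + j) : ℝ))| ≤
      ((m + 1 + j).choose j : ℝ) * (N.choose (m + 1 + j) : ℝ) := by
  have hc : ∀ i : ℕ, ((i + j).choose j : ℝ) * (N.choose (i + j) : ℝ) =
      (N.choose j : ℝ) * ((N - j).choose i : ℝ) := by
    intro i
    have h := Nat.choose_mul (n := N) (k := i + j) (s := j) (by omega)
    have e : i + j - j = i := by omega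
    rw [e] at h
    have h' : ((N.choose (i + j) : ℕ) : ℝ) * ((i + j).choose j : ℝ) =
      (N.choose j : ℝ) * ((N - j).choose i : ℝ) := by exact_mod_cast h
    linarith
  simp_rw [hc]
  have h1 : ∑ i ∈ range (m + 1), (-1 : ℝ) ^ i * ((N.choose j : ℝ) * ((N - j).choose i : ℝ)) =
      (N.choose j : ℝ) * ∑ i ∈ range (m + 1), (-1 : ℝ) ^ i * ((N - j).choose i : ℝ) := by
    rw [Finset.mul_sum]
    apply Finset.sum_congr rfl
    intros
    ring
  have h2 : (if N = j then (1 : ℝ) else 0) = (N.choose j : ℝ) * (if N - j = 0 then (1 : ℝ) else 0) := by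
    rcases lt_trichotomy N j with h | h | h
    · rw [if_neg (by omega), Nat.choose_eq_zero_of_lt h]
      simp
    · rw [if_pos h, if_pos (by omega), h]
      simp
    · rw [if_neg (by omega), if_neg (by omega)]
      simp
  rw [h1, h2, ← mul_sub, abs_mul, Nat.abs_cast]
  exact mul_le_mul_of_nonneg_left (bonf (N - j) m) (Nat.cast_nonneg _)

/-- tail of the exponential series -/
lemma exp_tail (x : ℝ) (hx : 0 ≤ x) (n : ℕ) :
    Real.exp x - ∑ i ∈ range n, x ^ i / i.factorial ≤ x ^ n / n.factorial * Real.exp x := by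
  have hs : HasSum (fun i : ℕ => x ^ i / (i.factorial : ℝ)) (Real.exp x) := by
    have := NormedSpace.expSeries_div_hasSum_exp (x : ℝ)
    rwa [← Real.exp_eq_exp_ℝ] at this
  have h1 := hs.summable.sum_add_tsum_nat_add n
  rw [hs.tsum_eq] at h1
  have h2 : ∑' i : ℕ, x ^ (i + n) / ((i + n).factorial : ℝ) ≤
      ∑' i : ℕ, x ^ n / n.factorial * (x ^ i / i.factorial) := by
    apply Summable.tsum_le_tsum
    · intro i
      rw [div_mul_div_comm, ← pow_add, add_comm n i]
      apply div_le_div_of_nonneg_left (by positivity) (by positivity)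
      have h3 : n.factorial * i.factorial ≤ (i + n).factorial := by
        have := Nat.factorial_mul_factorial_dvd_factorial_add i n
        rw [mul_comm]
        exact Nat.le_of_dvd (Nat.factorial_pos _) this
      exact_mod_cast h3
    · exact (summable_nat_add_iff n).2 hs.summable
    · exact hs.summable.mul_left _
  rw [tsum_mul_left, hs.tsum_eq] at h2
  linarith

lemma exp_neg_tail (x : ℝ) (hx : 0 ≤ x) (n : ℕ) :
    |Real.exp (-x) - ∑ i ∈ range n, (-x) ^ i / i.factorial| ≤ x ^ n / n.factorial * Real.exp x := by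
  have h := Complex.norm_exp_sub_sum_le_exp_norm_sub_sum ((-x : ℝ) : ℂ) n
  rw [Complex.norm_real, Real.norm_eq_abs, abs_neg, abs_of_nonneg hx] at h
  have e : Complex.exp ((-x : ℝ) : ℂ) - ∑ m ∈ range n, ((-x : ℝ) : ℂ) ^ m / (m.factorial : ℂ) =
      ((Real.exp (-x) - ∑ i ∈ range n, (-x) ^ i / i.factorial : ℝ) : ℂ) := by
    push_cast
    rfl
  rw [e, Complex.norm_real, Real.norm_eq_abs] at h
  exact h.trans (exp_tail x hx n)

/-- Bonferroni for the Poisson law -/
lemma bonf_poisson (x : ℝ) (hx : 0 ≤ x) (j m : ℕ) : |Real.exp (-x) * x ^ j / j.factorial -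
    ∑ i ∈ range (m + 1), (-1) ^ i * (((i + j).choose j : ℝ) * (x ^ (i + j) / (i + j).factorial))| ≤
      ((m + 1 + j).choose j : ℝ) * (x ^ (m + 1 + j) / (m + 1 + j).factorial) * Real.exp x := by
  have hc : ∀ i : ℕ, ((i + j).choose j : ℝ) * (x ^ (i + j) / (i + j).factorial) =
      x ^ j / j.factorial * (x ^ i / i.factorial) := by
    intro i
    have h := Nat.add_choose_mul_factorial_mul_factorial i j
    have h' : ((i + j).choose j : ℝ) * i.factorial * j.factorial = (i + j).factorial := by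
      exact_mod_cast h
    rw [← h']
    have h1 : ((i + j).choose j : ℝ) ≠ 0 := by
      have : 0 < (i + j).choose j := Nat.choose_pos (by omega)
      positivity
    rw [pow_add]
    field_simp
  simp_rw [hc]
  have h1 : ∑ i ∈ range (m + 1), (-1 : ℝ) ^ i * (x ^ j / j.factorial * (x ^ i / i.factorial)) =
      x ^ j / j.factorial * ∑ i ∈ range (m + 1), (-x) ^ i / i.factorial := by
    rw [Finset.mul_sum]
    apply Finset.sum_congr rfl
    intro i _
    rw [neg_pow x i]
    ring
  have h2 : Real.exp (-x) * x ^ j / j.factorial = x ^ j / j.factorial * Real.exp (-x) := by ring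
  have h3 : 0 ≤ x ^ j / (j.factorial : ℝ) := by positivity
  rw [h1, h2, ← mul_sub, abs_mul, abs_of_nonneg h3, mul_assoc]
  exact mul_le_mul_of_nonneg_left (exp_neg_tail x hx (m + 1)) h3

/-- **From moments to the law**, one value. -/
lemma law_one (Om : Finset ℕ) (N : ℕ → ℕ) (x η : ℝ) (hx : 0 ≤ x) (j m : ℕ)
    (h : ∀ k ≤ m + 1 + j, |∑ n ∈ Om, ((N n).choose k : ℝ) - Om.card * (x ^ k / k.factorial)| ≤
      η * Om.card) :
    |((Om.filter (fun n => N n = j)).card : ℝ) - Om.card * (Real.exp (-x) * x ^ j / j.factorial)| ≤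
      (((m + 1 + j).choose j : ℝ) * (x ^ (m + 1 + j) / (m + 1 + j).factorial) * (1 + Real.exp x) +
        η * ∑ i ∈ range (m + 2), ((i + j).choose j : ℝ)) * Om.card := by
  have hcard : (0 : ℝ) ≤ Om.card := Nat.cast_nonneg _
  have h1 : ((Om.filter (fun n => N n = j)).card : ℝ) = ∑ n ∈ Om, (if N n = j then (1 : ℝ) else 0) := by
    rw [Finset.sum_ite, Finset.sum_const_zero, add_zero, Finset.sum_const, nsmul_eq_mul, mul_one]
  obtain ⟨S, hS⟩ : ∃ S : ℝ, S = ∑ i ∈ range (m + 1), (-1) ^ i * (((i + j).choose j : ℝ) *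
      ∑ n ∈ Om, ((N n).choose (i + j) : ℝ)) := ⟨_, rfl⟩
  have h2 : |((Om.filter (fun n => N n = j)).card : ℝ) - S| ≤
      ((m + 1 + j).choose j : ℝ) * ∑ n ∈ Om, ((N n).choose (m + 1 + j) : ℝ) := by
    have e : S = ∑ n ∈ Om, ∑ i ∈ range (m + 1), (-1) ^ i * (((i + j).choose j : ℝ) *
        ((N n).choose (i + j) : ℝ)) := by
      rw [hS, Finset.sum_comm]
      apply Finset.sum_congr rfl
      intro i _
      rw [Finset.mul_sum, Finset.mul_sum]
    rw [h1, e, ← Finset.sum_sub_distrib]
    refine (Finset.abs_sum_le_sum_abs _ _).trans ?_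
    rw [Finset.mul_sum]
    exact Finset.sum_le_sum fun n _ => bonf_eq (N n) j m
  obtain ⟨P, hP⟩ : ∃ P : ℝ, P = ∑ i ∈ range (m + 1), (-1) ^ i * (((i + j).choose j : ℝ) *
      (x ^ (i + j) / (i + j).factorial)) := ⟨_, rfl⟩
  have h3 := bonf_poisson x hx j m
  rw [← hP] at h3
  have h4 : |S - Om.card * P| ≤ η * Om.card * ∑ i ∈ range (m + 1), ((i + j).choose j : ℝ) := by
    rw [hS, hP, Finset.mul_sum, ← Finset.sum_sub_distrib]
    refine (Finset.abs_sum_le_sum_abs _ _).trans ?_
    rw [Finset.mul_sum]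
    apply Finset.sum_le_sum
    intro i hi
    rw [mem_range] at hi
    have h5 := h (i + j) (by omega)
    have e : (-1 : ℝ) ^ i * (((i + j).choose j : ℝ) * ∑ n ∈ Om, ((N n).choose (i + j) : ℝ)) -
        Om.card * ((-1) ^ i * (((i + j).choose j : ℝ) * (x ^ (i + j) / (i + j).factorial))) =
        (-1) ^ i * (((i + j).choose j : ℝ) * (∑ n ∈ Om, ((N n).choose (i + j) : ℝ) -
          Om.card * (x ^ (i + j) / (i + j).factorial))) := by ring
    rw [e, abs_mul, abs_pow, abs_neg, abs_one, one_pow, one_mul, abs_mul, Nat.abs_cast, mul_comm]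
    exact mul_le_mul_of_nonneg_right h5 (Nat.cast_nonneg _)
  have h5 : ∑ n ∈ Om, ((N n).choose (m + 1 + j) : ℝ) ≤
      (x ^ (m + 1 + j) / (m + 1 + j).factorial + η) * Om.card := by
    have := (abs_le.1 (h (m + 1 + j) le_rfl)).2
    linarith
  have h6 := mul_le_mul_of_nonneg_left h5 (Nat.cast_nonneg ((m + 1 + j).choose j) : (0 : ℝ) ≤ _)
  have h7 : |Om.card * P - Om.card * (Real.exp (-x) * x ^ j / j.factorial)| ≤ Om.card *
      (((m + 1 + j).choose j : ℝ) * (x ^ (m + 1 + j) / (m + 1 + j).factorial) * Real.exp x) := by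
    rw [← mul_sub, abs_mul, Nat.abs_cast, abs_sub_comm]
    exact mul_le_mul_of_nonneg_left h3 hcard
  have h8 : ((Om.filter (fun n => N n = j)).card : ℝ) - Om.card * (Real.exp (-x) * x ^ j / j.factorial) =
      (((Om.filter (fun n => N n = j)).card : ℝ) - S) + (S - Om.card * P) +
        (Om.card * P - Om.card * (Real.exp (-x) * x ^ j / j.factorial)) := by ring
  rw [h8, Finset.sum_range_succ _ (m + 1)]
  refine (abs_add_three _ _ _).trans ?_
  nlinarith [h2, h4, h7, h6]

lemma exists_small (x C ε : ℝ) (hε : 0 < ε) : ∃ m0 : ℕ, ∀ m : ℕ, m0 ≤ m →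
    C * (x ^ m / (m.factorial : ℝ)) ≤ ε := by
  have h := (FloorSemiring.tendsto_pow_div_factorial_atTop x).const_mul C
  rw [mul_zero] at h
  exact Filter.eventually_atTop.1 (h.eventually (ge_mem_nhds hε))

/-- the number of large values -/
lemma markov (Om : Finset ℕ) (N : ℕ → ℕ) (J : ℕ) (B : ℝ) (h : ∑ n ∈ Om, (N n : ℝ) ≤ B) :
    ((Om.filter (fun n => J ≤ N n)).card : ℝ) * J ≤ B := by
  refine le_trans ?_ h
  rw [← nsmul_eq_mul]
  calc ((Om.filter (fun n => J ≤ N n)).card) • (J : ℝ) ≤ ∑ n ∈ Om.filter (fun n => J ≤ N n), (N n : ℝ) := by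
        apply Finset.card_nsmul_le_sum
        intro n hn
        rw [mem_filter] at hn
        exact_mod_cast hn.2
    _ ≤ _ := Finset.sum_le_sum_of_subset_of_nonneg (filter_subset _ _) (fun _ _ _ => Nat.cast_nonneg _)

/-- the tail of the Poisson law -/
lemma poisson_tail (x : ℝ) (hx : 0 ≤ x) (J : ℕ) (A : Finset ℕ) (hA : ∀ j ∈ A, J ≤ j) :
    ∑ j ∈ A, Real.exp (-x) * x ^ j / j.factorial ≤ x ^ J / J.factorial := by
  have hs : HasSum (fun i : ℕ => x ^ i / (i.factorial : ℝ)) (Real.exp x) := by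
    have := NormedSpace.expSeries_div_hasSum_exp (x : ℝ)
    rwa [← Real.exp_eq_exp_ℝ] at this
  have h1 : ∑ i ∈ range J, x ^ i / (i.factorial : ℝ) + ∑ j ∈ A, x ^ j / (j.factorial : ℝ) ≤ Real.exp x := by
    rw [← Finset.sum_union]
    · exact sum_le_hasSum _ (fun i _ => by positivity) hs
    · rw [Finset.disjoint_left]
      intro i hi hi'
      rw [mem_range] at hi
      have := hA i hi'
      omega
  have h2 := exp_tail x hx J
  have h3 : ∑ j ∈ A, Real.exp (-x) * x ^ j / j.factorial =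
      Real.exp (-x) * ∑ j ∈ A, x ^ j / (j.factorial : ℝ) := by
    rw [Finset.mul_sum]
    apply Finset.sum_congr rfl
    intros
    ring
  rw [h3]
  calc Real.exp (-x) * ∑ j ∈ A, x ^ j / (j.factorial : ℝ) ≤
      Real.exp (-x) * (x ^ J / J.factorial * Real.exp x) := by
        apply mul_le_mul_of_nonneg_left _ (Real.exp_pos _).le
        linarith
    _ = x ^ J / J.factorial * (Real.exp (-x) * Real.exp x) := by ring
    _ = _ := by rw [← Real.exp_add]; simp

/-- **From moments to the law**: total variation distance. -/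
theorem law_tv (x0 ε : ℝ) (hx0 : 0 ≤ x0) (hε : 0 < ε) : ∃ (R : ℕ) (η : ℝ), 0 < η ∧
    ∀ (Om : Finset ℕ) (N : ℕ → ℕ) (x : ℝ), 0 ≤ x → x ≤ x0 →
    (∀ k ≤ R, |∑ n ∈ Om, ((N n).choose k : ℝ) - Om.card * (x ^ k / k.factorial)| ≤ η * Om.card) →
    ∀ A : Finset ℕ, |((Om.filter (fun n => N n ∈ A)).card : ℝ) -
      Om.card * ∑ j ∈ A, Real.exp (-x) * x ^ j / j.factorial| ≤ ε * Om.card := by
  obtain ⟨J1, hJ1⟩ := exists_small x0 1 (ε / 4) (by positivity)
  obtain ⟨J2, hJ2⟩ : ∃ J : ℕ, (x0 + 1) / (ε / 4) ≤ J := exists_nat_ge _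
  obtain ⟨J, hJ⟩ : ∃ J : ℕ, J = max (max J1 J2) 1 := ⟨_, rfl⟩
  have hJJ1 : J1 ≤ J := by omega
  have hJJ2 : J2 ≤ J := by omega
  have hJ0 : 1 ≤ J := by omega
  have hJr : (0 : ℝ) < J := by exact_mod_cast hJ0
  have hJr2 : (x0 + 1) / (ε / 4) ≤ J := hJ2.trans (by exact_mod_cast hJJ2)
  obtain ⟨y, hy⟩ : ∃ y : ℝ, y = max x0 1 := ⟨_, rfl⟩
  have hy1 : 1 ≤ y := by rw [hy]; exact le_max_right _ _
  have hyx : x0 ≤ y := by rw [hy]; exact le_max_left _ _
  obtain ⟨m, hm⟩ := exists_small y (y ^ J * (1 + Real.exp x0)) (ε / (4 * J)) (by positivity)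
  have hm' := hm (m + 1) (by omega)
  obtain ⟨Cs, hCs⟩ : ∃ C : ℝ, C = ∑ j ∈ range J, ∑ i ∈ range (m + 2), ((i + j).choose j : ℝ) := ⟨_, rfl⟩
  have hCs0 : 0 ≤ Cs := by
    rw [hCs]
    exact Finset.sum_nonneg fun _ _ => Finset.sum_nonneg fun _ _ => Nat.cast_nonneg _
  obtain ⟨η, hη⟩ : ∃ η : ℝ, η = min 1 (ε / (4 * (Cs + 1))) := ⟨_, rfl⟩
  have hη0 : 0 < η := by rw [hη]; positivity
  have hη1 : η ≤ 1 := by rw [hη]; exact min_le_left _ _
  have hη2 : η * Cs ≤ ε / 4 := by
    have : η ≤ ε / (4 * (Cs + 1)) := by rw [hη]; exact min_le_right _ _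
    rw [le_div_iff₀ (by positivity)] at this
    nlinarith
  refine ⟨m + 1 + J, η, hη0, ?_⟩
  intro Om N x hx hxx h A
  have hcard : (0 : ℝ) ≤ Om.card := Nat.cast_nonneg _
  -- small values
  obtain ⟨A1, hA1⟩ : ∃ A1, A1 = A.filter (fun j => j < J) := ⟨_, rfl⟩
  obtain ⟨A2, hA2⟩ : ∃ A2, A2 = A.filter (fun j => ¬ j < J) := ⟨_, rfl⟩
  have hA1sub : A1 ⊆ range J := by
    intro j hj
    rw [hA1, mem_filter] at hj
    exact mem_range.2 hj.2
  have hone : ∀ j ∈ A1, |((Om.filter (fun n => N n = j)).card : ℝ) -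
      Om.card * (Real.exp (-x) * x ^ j / j.factorial)| ≤
      (ε / (4 * J) + η * ∑ i ∈ range (m + 2), ((i + j).choose j : ℝ)) * Om.card := by
    intro j hj
    have hjJ : j < J := mem_range.1 (hA1sub hj)
    have h1 := law_one Om N x η hx j m (fun k hk => h k (by omega))
    refine h1.trans ?_
    apply mul_le_mul_of_nonneg_right _ hcard
    have h2 : ((m + 1 + j).choose j : ℝ) * (x ^ (m + 1 + j) / (m + 1 + j).factorial) * (1 + Real.exp x) ≤
        ε / (4 * J) := by
      refine le_trans ?_ hm'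
      have h3 := Nat.add_choose_mul_factorial_mul_factorial (m + 1) j
      have h3' : ((m + 1 + j).choose j : ℝ) * (m + 1).factorial * j.factorial = (m + 1 + j).factorial := by
        exact_mod_cast h3
      have h4 : ((m + 1 + j).choose j : ℝ) ≠ 0 := by
        have : 0 < (m + 1 + j).choose j := Nat.choose_pos (by omega)
        positivity
      have h5 : ((m + 1 + j).choose j : ℝ) * (x ^ (m + 1 + j) / (m + 1 + j).factorial) =
          x ^ (m + 1 + j) / ((m + 1).factorial * j.factorial) := by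
        rw [← h3']
        field_simp
      rw [h5]
      have h6 : x ^ (m + 1 + j) / ((m + 1).factorial * j.factorial) ≤ y ^ (m + 1 + J) / (m + 1).factorial := by
        have hf1 : (1 : ℝ) ≤ j.factorial := by exact_mod_cast Nat.factorial_pos j
        have hf2 : (0 : ℝ) < (m + 1).factorial := by exact_mod_cast Nat.factorial_pos (m + 1)
        apply div_le_div₀ (by positivity) _ hf2 (by nlinarith)
        calc x ^ (m + 1 + j) ≤ y ^ (m + 1 + j) := pow_le_pow_left₀ hx (hxx.trans hyx) _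
          _ ≤ y ^ (m + 1 + J) := pow_le_pow_right₀ hy1 (by omega)
      have h7 : 1 + Real.exp x ≤ 1 + Real.exp x0 := by
        have := Real.exp_le_exp.2 hxx
        linarith
      calc x ^ (m + 1 + j) / ((m + 1).factorial * j.factorial) * (1 + Real.exp x) ≤
          y ^ (m + 1 + J) / (m + 1).factorial * (1 + Real.exp x0) := by
            apply mul_le_mul h6 h7 (by positivity) (by positivity)
        _ = _ := by
          rw [pow_add]
          ring
    linarith
  have hsmall : |((Om.filter (fun n => N n ∈ A1)).card : ℝ) -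
      Om.card * ∑ j ∈ A1, Real.exp (-x) * x ^ j / j.factorial| ≤ (ε / 2) * Om.card := by
    have e1 : ((Om.filter (fun n => N n ∈ A1)).card : ℝ) =
        ∑ j ∈ A1, ((Om.filter (fun n => N n = j)).card : ℝ) := by
      have : (Om.filter (fun n => N n ∈ A1)).card = ∑ j ∈ A1, (Om.filter (fun n => N n = j)).card := by
        rw [Finset.card_eq_sum_card_fiberwise (f := N) (t := A1)]
        · apply Finset.sum_congr rfl
          intro j hj
          congr 1
          ext n
          rw [mem_filter, mem_filter, mem_filter]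
          constructor
          · rintro ⟨⟨a1, _⟩, a3⟩
            exact ⟨a1, a3⟩
          · rintro ⟨a1, a3⟩
            exact ⟨⟨a1, by rw [a3]; exact hj⟩, a3⟩
        · intro n hn
          rw [Finset.mem_coe, mem_filter] at hn
          exact hn.2
      rw [this]
      push_cast
      rfl
    rw [e1, Finset.mul_sum, ← Finset.sum_sub_distrib]
    refine (Finset.abs_sum_le_sum_abs _ _).trans ((Finset.sum_le_sum hone).trans ?_)
    rw [← Finset.sum_mul, Finset.sum_add_distrib, Finset.sum_const, nsmul_eq_mul, ← Finset.mul_sum]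
    apply mul_le_mul_of_nonneg_right _ hcard
    have h2 : (A1.card : ℝ) ≤ J := by
      have := card_le_card hA1sub
      rw [card_range] at this
      exact_mod_cast this
    have h3 : ∑ j ∈ A1, ∑ i ∈ range (m + 2), ((i + j).choose j : ℝ) ≤ Cs := by
      rw [hCs]
      apply Finset.sum_le_sum_of_subset_of_nonneg hA1sub
      intros
      exact Finset.sum_nonneg fun _ _ => Nat.cast_nonneg _
    have h4 : (A1.card : ℝ) * (ε / (4 * J)) ≤ ε / 4 := by
      calc (A1.card : ℝ) * (ε / (4 * J)) ≤ J * (ε / (4 * J)) := by gcongr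
        _ = ε / 4 := by field_simp
    have h5 := mul_le_mul_of_nonneg_left h3 hη0.le
    linarith
  -- large values
  have hlarge : ((Om.filter (fun n => N n ∈ A2)).card : ℝ) ≤ ε / 4 * Om.card := by
    have h1 : ((Om.filter (fun n => N n ∈ A2)).card : ℝ) ≤ ((Om.filter (fun n => J ≤ N n)).card : ℝ) := by
      have : (Om.filter (fun n => N n ∈ A2)).card ≤ (Om.filter (fun n => J ≤ N n)).card := by
        apply card_le_card
        intro n hn
        rw [mem_filter] at hn ⊢
        refine ⟨hn.1, ?_⟩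
        rw [hA2, mem_filter] at hn
        omega
      exact_mod_cast this
    refine h1.trans ?_
    have h2 : ∑ n ∈ Om, (N n : ℝ) ≤ (x0 + 1) * Om.card := by
      have h3 := (abs_le.1 (h 1 (by omega))).2
      simp only [Nat.choose_one_right, pow_one, Nat.factorial_one, Nat.cast_one, div_one] at h3
      nlinarith
    have h3 := markov Om N J _ h2
    rw [div_le_iff₀ (by positivity)] at hJr2
    have h4 : ((Om.filter (fun n => J ≤ N n)).card : ℝ) * J ≤ (ε / 4 * Om.card) * J := by
      refine h3.trans ?_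
      calc (x0 + 1) * Om.card ≤ (J * (ε / 4)) * Om.card := by gcongr
        _ = _ := by ring
    exact le_of_mul_le_mul_right h4 hJr
  have hlarge2 : ∑ j ∈ A2, Real.exp (-x) * x ^ j / j.factorial ≤ ε / 4 := by
    refine (poisson_tail x hx J A2 (fun j hj => by
      rw [hA2, mem_filter] at hj
      omega)).trans ?_
    have h1 := hJ1 J hJJ1
    rw [one_mul] at h1
    refine le_trans ?_ h1
    gcongr
  have hlarge20 : 0 ≤ ∑ j ∈ A2, Real.exp (-x) * x ^ j / j.factorial :=
    Finset.sum_nonneg fun j _ => by positivity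
  have hsplit1 : ((Om.filter (fun n => N n ∈ A)).card : ℝ) =
      ((Om.filter (fun n => N n ∈ A1)).card : ℝ) + ((Om.filter (fun n => N n ∈ A2)).card : ℝ) := by
    have : (Om.filter (fun n => N n ∈ A)).card =
      (Om.filter (fun n => N n ∈ A1)).card + (Om.filter (fun n => N n ∈ A2)).card := by
      rw [← card_union_of_disjoint]
      · congr 1
        ext n
        rw [mem_union, mem_filter, mem_filter, mem_filter, hA1, hA2, mem_filter, mem_filter]
        tauto
      · rw [Finset.disjoint_left]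
        intro n hn hn'
        rw [mem_filter, hA1, mem_filter] at hn
        rw [mem_filter, hA2, mem_filter] at hn'
        exact hn'.2.2 hn.2.2
    exact_mod_cast this
  have hsplit2 : ∑ j ∈ A, Real.exp (-x) * x ^ j / (j.factorial : ℝ) =
      ∑ j ∈ A1, Real.exp (-x) * x ^ j / (j.factorial : ℝ) +
        ∑ j ∈ A2, Real.exp (-x) * x ^ j / (j.factorial : ℝ) := by
    rw [hA1, hA2]
    exact (Finset.sum_filter_add_sum_filter_not _ _ _).symm
  rw [hsplit1, hsplit2, abs_le]
  obtain ⟨a1, a2⟩ := abs_le.1 hsmall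
  have hl0 : (0 : ℝ) ≤ ((Om.filter (fun n => N n ∈ A2)).card : ℝ) := Nat.cast_nonneg _
  have h9 := mul_le_mul_of_nonneg_left hlarge2 hcard
  have h10 := mul_nonneg hcard hlarge20
  constructor <;> nlinarith

end Pool.Agent.TH464.PO
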