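import Pool.Agent.TH464.PO.ShiftLaw
import Pool.Agent.TH464.PO.Mom2

set_option autoImplicit false

/-!
# The density in all windows, from the singular averages; patterns of shifts
-/

namespace Pool.Agent.TH464.PO

open Finset Filter
open Pool.Agent.W123.RP Pool.Agent.H373R2.T7 Pool.Agent.W123.RU

open Classical in
/-- **The variance of the counts.** -/
theorem variance_SB (c : ℕ) (hc : 1 ≤ c) (η : ℝ) (hη : 0 < η) (hη1 : η ≤ 1) :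
    ∃ (K0 y0 : ℕ), ∀ (Q : ℕ → ℕ → Prop) (Z Y y T : ℕ), y0 ≤ y → y ^ K0 ≤ Y →
      PerB Q c → 1 ≤ T * Vq Q y → (T : ℝ) ^ 2 ≤ η * √(Y : ℝ) →
      SB Q y T 0 (η / 4) → SB Q y T 1 (η / 4) →
      ∑ n ∈ Ioc Z (Z + Y), ((Wc (Sf Q y) n T : ℝ) - T * Vq Q y) ^ 2 ≤
        Y * (9 * η * (T * Vq Q y) ^ 2 + 2 * (T * Vq Q y)) := by
  obtain ⟨K1, y1, h1⟩ := moment_SB c 0 hc η hη hη1
  obtain ⟨K2, y2, h2⟩ := moment_SB c 1 hc η hη hη1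
  refine ⟨K1 + K2, y1 + y2 + 1, ?_⟩
  intro Q Z Y y T hy hyY hQ hx1 hTY hSB0 hSB1
  have hy1 : 1 ≤ y := by omega
  have m1 := h1 Y y T (by omega) ((Nat.pow_le_pow_right hy1 (by omega)).trans hyY)
    (Qt Q Z) (perB_Qt Q c hQ Z) (SB_Qt Q c hQ Z y T 0 (η / 4) hSB0)
  have m2 := h2 Y y T (by omega) ((Nat.pow_le_pow_right hy1 (by omega)).trans hyY)
    (Qt Q Z) (perB_Qt Q c hQ Z) (SB_Qt Q c hQ Z y T 1 (η / 4) hSB1)
  rw [Vq_Qt Q c hQ] at m1 m2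
  obtain ⟨x, hx⟩ : ∃ x, x = T * Vq Q y := ⟨_, rfl⟩
  rw [← hx] at m1 m2 hx1 ⊢
  have hx0 : 0 < x := by linarith
  have hY0 : (0 : ℝ) ≤ Y := Nat.cast_nonneg Y
  have hcount : ∑ n ∈ Ioc Z (Z + Y), ((Wc (Sf Q y) n T : ℝ) - x) ^ 2 =
      ∑ n ∈ Icc 1 Y, ((Nw (Qt Q Z) y T n : ℝ) - x) ^ 2 := by
    symm
    apply Finset.sum_bij (fun n _ => n + Z)
    · intro n hn
      rw [mem_Icc] at hn
      rw [mem_Ioc]
      omega
    · intro a _ b _ hab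
      omega
    · intro n hn
      rw [mem_Ioc] at hn
      exact ⟨n - Z, by rw [mem_Icc]; omega, by omega⟩
    · intro n _
      rw [Nw_Qt]
  rw [hcount]
  have hexp : ∑ n ∈ Icc 1 Y, ((Nw (Qt Q Z) y T n : ℝ) - x) ^ 2 =
      2 * ∑ n ∈ Icc 1 Y, ((Nw (Qt Q Z) y T n).choose 2 : ℝ) +
        (1 - 2 * x) * ∑ n ∈ Icc 1 Y, ((Nw (Qt Q Z) y T n).choose 1 : ℝ) + Y * x ^ 2 := by
    rw [Finset.mul_sum, Finset.mul_sum, ← Finset.sum_add_distrib]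
    have : ∑ n ∈ Icc 1 Y, x ^ 2 = Y * x ^ 2 := by
      rw [Finset.sum_const, Nat.card_Icc, Nat.add_sub_cancel, nsmul_eq_mul]
    rw [← this, ← Finset.sum_add_distrib]
    exact Finset.sum_congr rfl fun n _ => two_choose _ x
  rw [hexp]
  simp only [zero_add, pow_one, Nat.factorial_one, Nat.cast_one, div_one, Nat.reduceAdd,
    Nat.factorial_two, Nat.cast_ofNat] at m1 m2
  obtain ⟨S1, hS1⟩ : ∃ S1, S1 = ∑ n ∈ Icc 1 Y, ((Nw (Qt Q Z) y T n).choose 1 : ℝ) := ⟨_, rfl⟩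
  obtain ⟨S2, hS2⟩ : ∃ S2, S2 = ∑ n ∈ Icc 1 Y, ((Nw (Qt Q Z) y T n).choose 2 : ℝ) := ⟨_, rfl⟩
  rw [← hS1] at m1 ⊢
  rw [← hS2] at m2 ⊢
  have m1a := (abs_le.1 m1).1
  have m2b := (abs_le.1 m2).2
  have hs : √(Y : ℝ) * √(Y : ℝ) = Y := Real.mul_self_sqrt hY0
  have hsq0 : 0 ≤ √(Y : ℝ) := Real.sqrt_nonneg _
  have hT0 : (0 : ℝ) ≤ T := Nat.cast_nonneg T
  have hxT : x ≤ T := by
    rw [hx]
    have := Vq_le_one Q y
    nlinarith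
  have hT1 : 1 ≤ (T : ℝ) := by linarith
  have hTT : (T : ℝ) ≤ T ^ 2 := by nlinarith
  have hTY2 : (T : ℝ) ^ 2 * √(Y : ℝ) ≤ η * Y := by
    calc (T : ℝ) ^ 2 * √(Y : ℝ) ≤ η * √(Y : ℝ) * √(Y : ℝ) := by gcongr
      _ = η * Y := by rw [mul_assoc, hs]
  have hTY1 : (T : ℝ) * √(Y : ℝ) ≤ η * Y := by
    refine le_trans ?_ hTY2
    gcongr
  have hYx : (Y : ℝ) ≤ Y * x ^ 2 := by
    have : 1 ≤ x ^ 2 := one_le_pow₀ hx1
    nlinarith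
  have hYx' : (Y : ℝ) * x ≤ Y * x ^ 2 := by
    have : x ≤ x ^ 2 := by nlinarith
    exact mul_le_mul_of_nonneg_left this hY0
  have hYηx : 0 ≤ η * (Y * x ^ 2) := by positivity
  have hS1low : Y * x - η * (Y * x) - η * Y ≤ S1 := by
    have : η * Y * x = η * (Y * x) := by ring
    linarith
  have h2x : (2 * x - 1) * (Y * x - η * (Y * x) - η * Y) ≤ (2 * x - 1) * S1 := by
    apply mul_le_mul_of_nonneg_left hS1low
    linarith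
  have hS2up : 2 * S2 ≤ Y * x ^ 2 + η * (Y * x ^ 2) + 2 * (η * Y) := by
    linarith
  have hηY : η * Y ≤ η * (Y * x ^ 2) := mul_le_mul_of_nonneg_left hYx hη.le
  have hηYx : η * (Y * x) ≤ η * (Y * x ^ 2) := mul_le_mul_of_nonneg_left hYx' hη.le
  have e1 : (2 * x - 1) * (Y * x - η * (Y * x) - η * Y) =
      2 * (Y * x ^ 2) - 2 * (η * (Y * x ^ 2)) - 2 * (η * (Y * x)) - Y * x + η * (Y * x) + η * Y := by
    ring
  rw [e1] at h2x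
  have hYx0 : 0 ≤ Y * x := by positivity
  have hηY0 : 0 ≤ η * Y := by positivity
  have e2 : (Y : ℝ) * (9 * η * x ^ 2 + 2 * x) = 9 * (η * (Y * x ^ 2)) + 2 * (Y * x) := by ring
  rw [e2]
  nlinarith

open Classical in
/-- **The density in all windows**, around almost all integers and around almost all elements. -/
theorem gen_exact_SB (c : ℕ) (hc : 1 ≤ c) (ε : ℝ) (hε : 0 < ε) :
    ∃ (K0 y0 : ℕ) (η1 κ x1 K : ℝ), 0 < η1 ∧ η1 ≤ 1 ∧ 0 < κ ∧ 1 ≤ x1 ∧ 0 < K ∧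
      ∀ (Q : ℕ → ℕ → Prop) (Z Y y : ℕ), y0 ≤ y → y ^ K0 ≤ Y → PerB Q c →
      (∀ p : ℕ, p.Prime → nuB Q p < p) → Vq Q y ≤ 1 →
      (∀ T : ℕ, x1 ≤ T * Vq Q y → T * Vq Q y ≤ 2 * x1 → T ≤ Z ∧ T ≤ Y ∧
        (T : ℝ) ^ 2 ≤ κ * √(Y : ℝ) ∧ SB Q y T 0 η1 ∧ SB Q y T 1 η1) →
      (((Ioc Z (Z + Y)).filter (fun n => ¬ Exact (Sf Q y) (Vq Q y) K ε Z Y n)).card : ℝ) ≤ ε * Y ∧
      (((Ioc Z (Z + Y)).filter (fun n => Sf Q y n ∧ ¬ Exact (Sf Q y) (Vq Q y) K ε Z Y n)).card : ℝ) ≤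
        ε * (Y * Vq Q y) := by
  obtain ⟨δ, hδ⟩ : ∃ δ : ℝ, δ = min (ε / 5) 1 := ⟨_, rfl⟩
  have hδ0 : 0 < δ := by rw [hδ]; positivity
  have hδ1 : δ ≤ 1 := by rw [hδ]; exact min_le_right _ _
  have hδε : 5 * δ ≤ ε := by
    have : δ ≤ ε / 5 := by rw [hδ]; exact min_le_left _ _
    linarith
  obtain ⟨β, hβ⟩ : ∃ β : ℝ, β = ε * δ / 20 := ⟨_, rfl⟩
  have hβ0 : 0 < β := by rw [hβ]; positivity
  obtain ⟨η, hη⟩ : ∃ η : ℝ, η = min (β ^ 2 / 18) 1 := ⟨_, rfl⟩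
  have hη0 : 0 < η := by rw [hη]; positivity
  have hη1 : η ≤ 1 := by rw [hη]; exact min_le_right _ _
  have hηβ : 9 * η ≤ β ^ 2 / 2 := by
    have : η ≤ β ^ 2 / 18 := by rw [hη]; exact min_le_left _ _
    linarith
  obtain ⟨x1, hx1⟩ : ∃ x1 : ℝ, x1 = max (4 / β ^ 2) 1 := ⟨_, rfl⟩
  have hx11 : 1 ≤ x1 := by rw [hx1]; exact le_max_right _ _
  have hx1β : 2 ≤ β ^ 2 / 2 * x1 := by
    have : 4 / β ^ 2 ≤ x1 := by rw [hx1]; exact le_max_left _ _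
    rw [div_le_iff₀ (by positivity)] at this
    linarith
  obtain ⟨K0, y0, hvar⟩ := variance_SB c hc η hη0 hη1
  refine ⟨K0, y0, η / 4, η, x1, 2 * x1 / δ, by positivity, by linarith, hη0, hx11, by positivity, ?_⟩
  intro Q Z Y y hy hyY hQ hadm hV1 hT
  have hV0 : 0 < Vq Q y := Vq_pos Q hadm y
  obtain ⟨T, hTa, hTb, -⟩ := exists_window (Vq Q y) x1 hV0 (hV1.trans hx11)
  obtain ⟨hTZ, hTY, hTsq, hSB0, hSB1⟩ := hT T hTa hTb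
  obtain ⟨V, hV⟩ : ∃ V, V = Vq Q y := ⟨_, rfl⟩
  have hY0 : (0 : ℝ) ≤ Y := Nat.cast_nonneg Y
  have hTpos : (0 : ℝ) < T := by
    by_contra hcon
    rw [not_lt] at hcon
    nlinarith
  have hT1 : 1 ≤ T := by exact_mod_cast hTpos
  have hvar2 := hvar Q (Z - T) (Y + T) y T hy (hyY.trans (by omega)) hQ (hx11.trans hTa)
    (by
      refine hTsq.trans ?_
      gcongr
      exact_mod_cast (by omega : Y ≤ Y + T)) hSB0 hSB1
  rw [show Z - T + (Y + T) = Z + Y by omega] at hvar2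
  rw [← hV] at hvar2 hV0 hV1 hTa hTb ⊢
  obtain ⟨x, hx⟩ : ∃ x, x = T * V := ⟨_, rfl⟩
  rw [← hx] at hvar2 hTa hTb
  have hx0 : 0 < x := by linarith
  have hYT : ((Y + T : ℕ) : ℝ) ≤ 2 * Y := by
    have : Y + T ≤ 2 * Y := by omega
    exact_mod_cast this
  have hbound : ((Y + T : ℕ) : ℝ) * (9 * η * x ^ 2 + 2 * x) ≤ 2 * Y * (β ^ 2 * x ^ 2) := by
    have h1 : 9 * η * x ^ 2 + 2 * x ≤ β ^ 2 * x ^ 2 := by
      have h2 : 9 * η * x ^ 2 ≤ β ^ 2 / 2 * x ^ 2 := by gcongr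
      have h3 : 2 * x ≤ β ^ 2 / 2 * x ^ 2 := by
        have h4 : 2 ≤ β ^ 2 / 2 * x := hx1β.trans (by gcongr)
        nlinarith
      linarith
    apply mul_le_mul hYT h1 (by positivity) (by positivity)
  have hB : ∑ m ∈ Ico (Z + 1 - T) (Z + Y + 1), dv (Sf Q y) T (T * V) m ≤ 2 * β * Y * (T * V) := by
    have hset : Ico (Z + 1 - T) (Z + Y + 1) = Ioc (Z - T) (Z + Y) := by
      ext m
      rw [mem_Ico, mem_Ioc]
      omega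
    rw [hset, ← hx]
    have h1 : (∑ m ∈ Ioc (Z - T) (Z + Y), dv (Sf Q y) T x m) ^ 2 ≤
        ((Ioc (Z - T) (Z + Y)).card : ℝ) * ∑ m ∈ Ioc (Z - T) (Z + Y), dv (Sf Q y) T x m ^ 2 :=
      sq_sum_le_card_mul_sum_sq
    have h2 : ∑ m ∈ Ioc (Z - T) (Z + Y), dv (Sf Q y) T x m ^ 2 =
        ∑ m ∈ Ioc (Z - T) (Z + Y), ((Wc (Sf Q y) m T : ℝ) - x) ^ 2 := by
      apply Finset.sum_congr rfl
      intro m _
      unfold dv
      rw [sq_abs]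
    have h3 : ((Ioc (Z - T) (Z + Y)).card : ℝ) ≤ 2 * Y := by
      rw [Nat.card_Ioc, show Z + Y - (Z - T) = Y + T by omega]
      exact hYT
    rw [h2] at h1
    have h4 : (∑ m ∈ Ioc (Z - T) (Z + Y), dv (Sf Q y) T x m) ^ 2 ≤ (2 * β * Y * x) ^ 2 := by
      refine h1.trans ?_
      calc ((Ioc (Z - T) (Z + Y)).card : ℝ) *
            ∑ m ∈ Ioc (Z - T) (Z + Y), ((Wc (Sf Q y) m T : ℝ) - x) ^ 2 ≤
            2 * Y * (2 * Y * (β ^ 2 * x ^ 2)) := by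
              apply mul_le_mul h3 (hvar2.trans hbound) (Finset.sum_nonneg fun m _ => sq_nonneg _)
                (by positivity)
        _ = (2 * β * Y * x) ^ 2 := by ring
    exact abs_le_of_sq_le_sq' h4 (by positivity) |>.2
  have hwin : ∀ n : ℕ, n ∈ Ioc Z (Z + Y) → (¬ ∃ c d : ℕ, Z + 1 - T ≤ c ∧ c ≤ n ∧ n < d ∧ d ≤ Z + Y + 1 ∧
      (T : ℝ) ≤ d - c ∧ δ * (T * V) * (d - c) < ∑ m ∈ Ico c d, dv (Sf Q y) T (T * V) m) →
      Exact (Sf Q y) V (2 * x1 / δ) ε Z Y n := by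
    intro n _ hn u v hu hun hnv hv hK
    have hlong : (T : ℝ) ≤ δ * ((v : ℝ) - u) := by
      rw [div_le_iff₀ hδ0] at hK
      apply le_of_mul_le_mul_right _ hV0
      calc (T : ℝ) * V = x := hx.symm
        _ ≤ 2 * x1 := hTb
        _ ≤ ((v : ℝ) - u) * V * δ := hK
        _ = δ * ((v : ℝ) - u) * V := by ring
    have h1 := windows (Sf Q y) T V δ hT1 hV0 hδ0 hδ1 Z Y hTZ n hn u v hu hun hnv hv hlong
    refine h1.trans ?_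
    have huv : (u : ℝ) < v := by exact_mod_cast (by omega : u < v)
    have h2 : 0 ≤ ((v : ℝ) - u) * V := mul_nonneg (by linarith) hV0.le
    exact mul_le_mul_of_nonneg_right hδε h2
  have hβδ : β / δ = ε / 20 := by
    rw [hβ]
    field_simp
  constructor
  · have h1 := exc_card (Sf Q y) T V δ hT1 hV0 hδ0 Z Y hTZ (2 * β * Y) hB
    have h2 : ((Ioc Z (Z + Y)).filter (fun n => ¬ Exact (Sf Q y) V (2 * x1 / δ) ε Z Y n)).card ≤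
        (MX (dv (Sf Q y) T (T * V)) (δ * (T * V)) (Z + 1 - T) (Z + Y + 1)).card := by
      apply card_le_card
      intro n hn
      rw [mem_filter] at hn
      by_contra hnot
      apply hn.2
      apply hwin n hn.1
      rintro ⟨c, d, hc1, hc2, hd1, hd2, _, hs⟩
      apply hnot
      unfold MX
      rw [mem_filter, mem_Ico]
      have := mem_Ioc.1 hn.1
      exact ⟨⟨by omega, by omega⟩, c, d, hc1, hc2, hd1, hd2, hs⟩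
    have h3 : (((Ioc Z (Z + Y)).filter (fun n => ¬ Exact (Sf Q y) V (2 * x1 / δ) ε Z Y n)).card : ℝ) ≤
        4 * (2 * β * Y) / δ := (by exact_mod_cast h2 : _ ≤ _).trans h1
    refine h3.trans ?_
    have e : 4 * (2 * β * Y) / δ = 8 * (β / δ) * Y := by ring
    rw [e, hβδ]
    nlinarith
  · have h1 := exc_elem (Sf Q y) T V δ hT1 hV0 hδ0 Z Y hTZ (2 * β * Y) hB
    have h2 : ((Ioc Z (Z + Y)).filter (fun n => Sf Q y n ∧ ¬ Exact (Sf Q y) V (2 * x1 / δ) ε Z Y n)).card ≤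
        ((Ioc Z (Z + Y)).filter (fun b => Sf Q y b ∧ ∃ c d : ℕ, Z + 1 - T ≤ c ∧ c ≤ b ∧ b < d ∧
          d ≤ Z + Y + 1 ∧ (T : ℝ) ≤ d - c ∧
            δ * (T * V) * (d - c) < ∑ m ∈ Ico c d, dv (Sf Q y) T (T * V) m)).card := by
      apply card_le_card
      intro n hn
      rw [mem_filter] at hn ⊢
      refine ⟨hn.1, hn.2.1, ?_⟩
      by_contra hnot
      exact hn.2.2 (hwin n hn.1 hnot)
    have h3 : (((Ioc Z (Z + Y)).filter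
        (fun n => Sf Q y n ∧ ¬ Exact (Sf Q y) V (2 * x1 / δ) ε Z Y n)).card : ℝ) ≤
        9 * (2 * β * Y) / δ * V + 2 * β * Y * V := (by exact_mod_cast h2 : _ ≤ _).trans h1
    refine h3.trans ?_
    have e : 9 * (2 * β * Y) / δ * V + 2 * β * Y * V = (18 * (β / δ) + 2 * β) * (Y * V) := by ring
    rw [e, hβδ]
    apply mul_le_mul_of_nonneg_right _ (by positivity)
    rw [hβ]
    nlinarith


open Classical in
/-- **Exact density in all windows** for patterns of shifts, uniformly in the pattern. -/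
theorem shift_exact (K A : ℕ) (hK : 2 ≤ K) (θ : ℝ) (hθ : 0 < θ) (ε : ℝ) (hε : 0 < ε) :
    ∃ (κ : ℝ) (s0 : ℕ), 0 < κ ∧ ∀ s : ℕ, s0 ≤ s → ∀ᶠ X : ℕ in atTop, ∀ P : Finset ℕ, P.card = K →
      (∀ a ∈ P, a ≤ X ^ A) → AdP P → ∀ Z Y : ℕ, (X : ℝ) ^ θ ≤ Z → (X : ℝ) ^ θ ≤ Y →
      (((Ioc Z (Z + Y)).filter (fun n => ¬ Exact (Sf (QS P) ⌊(X : ℝ) ^ (1 / (s : ℝ))⌋₊)
        (Vq (QS P) ⌊(X : ℝ) ^ (1 / (s : ℝ))⌋₊) κ ε Z Y n)).card : ℝ) ≤ ε * Y ∧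
      (((Ioc Z (Z + Y)).filter (fun n => Sf (QS P) ⌊(X : ℝ) ^ (1 / (s : ℝ))⌋₊ n ∧
        ¬ Exact (Sf (QS P) ⌊(X : ℝ) ^ (1 / (s : ℝ))⌋₊)
        (Vq (QS P) ⌊(X : ℝ) ^ (1 / (s : ℝ))⌋₊) κ ε Z Y n)).card : ℝ) ≤
          ε * (Y * Vq (QS P) ⌊(X : ℝ) ^ (1 / (s : ℝ))⌋₊) := by
  obtain ⟨K0, y0, η1, κ, x1, K', hη1, hη11, hκ, hx1, hK', hex⟩ := gen_exact_SB K (by omega) ε hε
  obtain ⟨T2, hT2⟩ : ∃ T2 : ℕ, 1 / κ ^ 2 ≤ T2 := exists_nat_ge _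
  obtain ⟨s0, h0⟩ := shift_SB K A 2 hK θ hθ K0 y0 (T2 + 1) 5 η1 1 (2 * x1) hη1 hη11
    one_pos (by linarith)
  refine ⟨K', s0, hK', ?_⟩
  intro s hs
  filter_upwards [h0 s hs] with X hX
  intro P hPK hPX hPad Z Y hXZ hXY
  have hper : PerB (QS P) K := by
    have := qs_perB P
    rwa [hPK] at this
  obtain ⟨y, hy⟩ : ∃ y, y = ⌊(X : ℝ) ^ (1 / (s : ℝ))⌋₊ := ⟨_, rfl⟩
  rw [← hy]
  obtain ⟨a1, a2, a3, a4, a5, a6⟩ := hX P hPK hPX hPad Y hXY y hy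
  obtain ⟨b1, b2, b3, b4, b5, b6⟩ := hX P hPK hPX hPad Z hXZ y hy
  refine hex (QS P) Z Y y a1 a2 hper (fun p hp => qs_adm P hPad p hp) (Vq_le_one _ _) ?_
  intro T h1 h2
  obtain ⟨c1, c2, c3⟩ := a6 T (hx1.trans h1) h2
  obtain ⟨d1, d2, d3⟩ := b6 T (hx1.trans h1) h2
  have hT1 : 1 ≤ T := by omega
  have hTr1 : (1 : ℝ) ≤ T := by exact_mod_cast hT1
  have hT5 : T ≤ T ^ 5 := by
    calc T = T ^ 1 := (pow_one T).symm
      _ ≤ T ^ 5 := Nat.pow_le_pow_right hT1 (by norm_num)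
  refine ⟨hT5.trans d2, hT5.trans c2, ?_, c3 0 (by norm_num), c3 1 (by norm_num)⟩
  have hκT : 1 ≤ T * κ ^ 2 := by
    have : 1 / κ ^ 2 ≤ T := hT2.trans (by exact_mod_cast (by omega : T2 ≤ T))
    rwa [div_le_iff₀ (by positivity)] at this
  have h3 : ((T : ℝ) ^ 2 / κ) ^ 2 ≤ Y := by
    have h4 : ((T : ℝ) ^ 2 / κ) ^ 2 ≤ (T : ℝ) ^ 5 := by
      rw [div_pow, div_le_iff₀ (by positivity)]
      calc ((T : ℝ) ^ 2) ^ 2 = T ^ 4 * 1 := by ring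
        _ ≤ T ^ 4 * (T * κ ^ 2) := by gcongr
        _ = (T : ℝ) ^ 5 * κ ^ 2 := by ring
    refine h4.trans ?_
    exact_mod_cast c2
  have h4 := Real.le_sqrt_of_sq_le h3
  rw [div_le_iff₀ hκ] at h4
  linarith

end Pool.Agent.TH464.PO
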