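import Pool.Agent.TH464.PO.Poly

set_option autoImplicit false

/-!
# The Poisson law for all short windows
-/

namespace Pool.Agent.TH464.PO

open Polynomial Finset Filter
open Pool.Agent.W123.RP Pool.Agent.H373R2.T7 Pool.Agent.W123.RU Pool.Agent.W123.RU.Poly
open Pool.Agent.TH464.PW

/-- windows of small mean -/
lemma extend (Om : Finset ℕ) (W W' : ℕ → ℕ) (hW : ∀ n, W n ≤ W' n) (x x' η : ℝ) (hx : 0 ≤ x)
    (hxx : x ≤ x')
    (h : |((Om.filter (fun n => W' n ∈ ({0} : Finset ℕ))).card : ℝ) -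
      Om.card * ∑ j ∈ ({0} : Finset ℕ), Real.exp (-x') * x' ^ j / j.factorial| ≤ η * Om.card)
    (A : Finset ℕ) :
    |((Om.filter (fun n => W n ∈ A)).card : ℝ) -
      Om.card * ∑ j ∈ A, Real.exp (-x) * x ^ j / j.factorial| ≤ (x' + η) * Om.card := by
  have hOm : (0 : ℝ) ≤ Om.card := Nat.cast_nonneg _
  rw [Finset.sum_singleton] at h
  simp only [pow_zero, Nat.factorial_zero, Nat.cast_one, div_one, mul_one] at h
  have h1 := (abs_le.1 h).1
  have hexp : 1 - x' ≤ Real.exp (-x') := by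
    have := Real.add_one_le_exp (-x')
    linarith
  have hexp2 : Real.exp (-x') ≤ Real.exp (-x) := Real.exp_le_exp.2 (by linarith)
  obtain ⟨q, hq⟩ : ∃ q : ℝ, q = ((Om.filter (fun n => W n = 0)).card : ℝ) := ⟨_, rfl⟩
  have hq1 : (1 - x' - η) * Om.card ≤ q := by
    have h2 : ((Om.filter (fun n => W' n ∈ ({0} : Finset ℕ))).card : ℝ) ≤ q := by
      rw [hq]
      have : (Om.filter (fun n => W' n ∈ ({0} : Finset ℕ))).card ≤ (Om.filter (fun n => W n = 0)).card := by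
        apply card_le_card
        intro n hn
        rw [mem_filter, mem_singleton] at hn
        rw [mem_filter]
        have := hW n
        exact ⟨hn.1, by omega⟩
      exact_mod_cast this
    have h3 : (Om.card : ℝ) * (1 - x') ≤ Om.card * Real.exp (-x') :=
      mul_le_mul_of_nonneg_left hexp hOm
    nlinarith
  have hs0 : 0 ≤ ∑ j ∈ A, Real.exp (-x) * x ^ j / j.factorial := Finset.sum_nonneg fun j _ => by positivity
  have hs1 : ∑ j ∈ A, Real.exp (-x) * x ^ j / j.factorial ≤ 1 := by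
    have := poisson_tail x hx 0 A (fun _ _ => Nat.zero_le _)
    simpa using this
  by_cases h0 : 0 ∈ A
  · have h2 : q ≤ ((Om.filter (fun n => W n ∈ A)).card : ℝ) := by
      rw [hq]
      have : (Om.filter (fun n => W n = 0)).card ≤ (Om.filter (fun n => W n ∈ A)).card := by
        apply card_le_card
        intro n hn
        rw [mem_filter] at hn ⊢
        exact ⟨hn.1, by rw [hn.2]; exact h0⟩
      exact_mod_cast this
    have h3 : ((Om.filter (fun n => W n ∈ A)).card : ℝ) ≤ Om.card := by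
      exact_mod_cast card_le_card (filter_subset _ _)
    have h4 : 1 - x' ≤ ∑ j ∈ A, Real.exp (-x) * x ^ j / j.factorial := by
      have h5 : Real.exp (-x) ≤ ∑ j ∈ A, Real.exp (-x) * x ^ j / j.factorial := by
        have := Finset.single_le_sum (f := fun j : ℕ => Real.exp (-x) * x ^ j / (j.factorial : ℝ))
          (fun j _ => by positivity) h0
        simpa using this
      linarith
    have hη : 0 ≤ η * Om.card := (abs_nonneg _).trans h
    rw [abs_le]
    constructor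
    · nlinarith
    · nlinarith
  · have h2 : ((Om.filter (fun n => W n ∈ A)).card : ℝ) ≤ Om.card - q := by
      have h3 : (Om.filter (fun n => W n ∈ A)).card + (Om.filter (fun n => W n = 0)).card ≤ Om.card := by
        rw [← card_union_of_disjoint]
        · exact card_le_card (union_subset (filter_subset _ _) (filter_subset _ _))
        · rw [Finset.disjoint_left]
          intro n hn hn'
          rw [mem_filter] at hn hn'
          exact h0 (by rw [← hn'.2]; exact hn.2)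
      have h4 : ((Om.filter (fun n => W n ∈ A)).card : ℝ) + (Om.filter (fun n => W n = 0)).card ≤
          Om.card := by exact_mod_cast h3
      rw [hq]
      linarith
    have h4 : ∑ j ∈ A, Real.exp (-x) * x ^ j / j.factorial ≤ x := by
      have := poisson_tail x hx 1 A (fun j hj => Nat.pos_of_ne_zero fun h => h0 (h ▸ hj))
      simpa using this
    have hη : 0 ≤ η * Om.card := (abs_nonneg _).trans h
    have h5 : (0 : ℝ) ≤ ((Om.filter (fun n => W n ∈ A)).card : ℝ) := Nat.cast_nonneg _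
    have h6 : Om.card * ∑ j ∈ A, Real.exp (-x) * x ^ j / j.factorial ≤ x' * Om.card := by
      nlinarith
    have h7 : 0 ≤ Om.card * ∑ j ∈ A, Real.exp (-x) * x ^ j / j.factorial := mul_nonneg hOm hs0
    rw [abs_le]
    constructor
    · nlinarith
    · nlinarith

/-- a window of mean between `κ` and `2 κ` -/
lemma exists_window (V κ : ℝ) (hV : 0 < V) (hVκ : V ≤ κ) :
    ∃ T' : ℕ, κ ≤ T' * V ∧ T' * V ≤ 2 * κ ∧ ∀ T : ℕ, T * V < κ → T ≤ T' := by
  refine ⟨⌈κ / V⌉₊, ?_, ?_, ?_⟩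
  · have := Nat.le_ceil (κ / V)
    rwa [div_le_iff₀ hV] at this
  · have h0 : 0 ≤ κ / V := div_nonneg (hV.le.trans hVκ) hV.le
    have := (Nat.ceil_lt_add_one h0).le
    calc (⌈κ / V⌉₊ : ℝ) * V ≤ (κ / V + 1) * V := by gcongr
      _ = κ + V := by field_simp
      _ ≤ 2 * κ := by linarith
  · intro T hT
    have h1 : (T : ℝ) < κ / V := by rwa [lt_div_iff₀ hV]
    have h2 : (T : ℝ) < ⌈κ / V⌉₊ := lt_of_lt_of_le h1 (Nat.le_ceil _)
    have h3 : T < ⌈κ / V⌉₊ := by exact_mod_cast h2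
    exact h3.le

variable {ι : Type} [Fintype ι]

lemma Np_mono (f : ι → ℤ[X]) (y T T' n : ℕ) (h : T ≤ T') : Np f y T n ≤ Np f y T' n := by
  classical
  unfold Np
  apply card_le_card
  intro m hm
  rw [mem_filter, mem_Ioc] at hm ⊢
  exact ⟨⟨hm.1.1, by omega⟩, hm.2⟩

open Classical in
/-- the sieve density tends to zero -/
lemma V_small [Nonempty ι] (f : ι → ℤ[X]) (hf : Sys f) (r : ℕ) (hr : 2 ≤ r) (κ : ℝ) (hκ : 0 < κ) :
    ∀ᶠ X : ℕ in atTop, Vq (Q f) ⌊(X : ℝ) ^ (1 / (r : ℝ))⌋₊ ≤ κ := by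
  obtain ⟨v, Cv, hv, hCv, hV⟩ := V_bounds f hf
  obtain ⟨k, hk⟩ : ∃ k, k = Fintype.card ι := ⟨_, rfl⟩
  have hk1 : 1 ≤ k := by rw [hk]; exact Fintype.card_pos
  rw [← hk] at hV
  have hrr : (2 : ℝ) ≤ r := by exact_mod_cast hr
  have hpow2 : Tendsto (fun X : ℕ => (X : ℝ) ^ (1 / (2 * r : ℝ))) atTop atTop :=
    (tendsto_rpow_atTop (by positivity)).comp tendsto_natCast_atTop_atTop
  have hlogX : Tendsto (fun X : ℕ => Real.log (X : ℝ)) atTop atTop :=
    Real.tendsto_log_atTop.comp tendsto_natCast_atTop_atTop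
  filter_upwards [hpow2.eventually_ge_atTop 3, eventually_ge_atTop 16,
    hlogX.eventually_ge_atTop (2 * r * (1 + Cv / κ))] with X hX1 hX16 hX3
  obtain ⟨hy1, hy2, hy3, hy4⟩ := level_low r hr X (by omega) (by linarith)
  obtain ⟨y, hy⟩ : ∃ y, y = ⌊(X : ℝ) ^ (1 / (r : ℝ))⌋₊ := ⟨_, rfl⟩
  rw [← hy] at hy1 hy2 hy3 hy4 ⊢
  have hy3' : 3 ≤ y := by
    have : (3 : ℝ) ≤ y := by linarith
    exact_mod_cast this
  obtain ⟨hVlo, hVup⟩ := hV y hy3'
  have h0 : 0 ≤ Cv / κ := by positivity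
  have h1 : 1 + Cv / κ ≤ Real.log y := by
    refine le_trans ?_ hy2
    rw [le_div_iff₀ (by positivity)]
    linarith
  have h2 : 1 ≤ Real.log y := by linarith
  have h3 : Real.log y ≤ Real.log y ^ k := by
    calc Real.log y = Real.log y ^ 1 := (pow_one _).symm
      _ ≤ Real.log y ^ k := pow_le_pow_right₀ h2 hk1
  refine hVup.trans ?_
  rw [div_le_iff₀ (by positivity)]
  have h4 : Cv / κ ≤ Real.log y ^ k := by linarith
  rw [div_le_iff₀ hκ] at h4
  linarith

open Classical in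
/-- **The Poisson law** for systems of polynomials, all windows of bounded mean. -/
theorem poisson_all [Nonempty ι] (f : ι → ℤ[X]) (hf : Sys f) (hT : NoTr f) (θ : ℝ) (hθ : 0 < θ)
    (x0 ε : ℝ) (hε : 0 < ε) :
    ∃ r0 : ℕ, ∀ r : ℕ, r0 ≤ r → ∀ᶠ X : ℕ in atTop, ∀ Y : ℕ, (X : ℝ) ^ θ ≤ Y →
      ∀ T : ℕ, T * Vq (Q f) ⌊(X : ℝ) ^ (1 / (r : ℝ))⌋₊ ≤ x0 → ∀ A : Finset ℕ,
        |(((Finset.Ioc X (X + Y)).filter
            (fun n => Np f ⌊(X : ℝ) ^ (1 / (r : ℝ))⌋₊ T n ∈ A)).card : ℝ) -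
          Y * ∑ j ∈ A, Real.exp (-(T * Vq (Q f) ⌊(X : ℝ) ^ (1 / (r : ℝ))⌋₊)) *
            (T * Vq (Q f) ⌊(X : ℝ) ^ (1 / (r : ℝ))⌋₊) ^ j / j.factorial| ≤ ε * Y := by
  obtain ⟨c, hc, hQ⟩ := exists_c f hf
  obtain ⟨κ, hκ⟩ : ∃ κ, κ = min (ε / 8) (1 / 2) := ⟨_, rfl⟩
  have hκ0 : 0 < κ := by rw [hκ]; positivity
  have hκ1 : κ ≤ ε / 8 := by rw [hκ]; exact min_le_left _ _
  have hκ2 : κ ≤ 1 / 2 := by rw [hκ]; exact min_le_right _ _
  obtain ⟨r0, h0⟩ := poisson f hf hT θ hθ (max x0 1) (ε / 4) (by positivity) (by positivity)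
  refine ⟨max r0 2, ?_⟩
  intro r hr
  have hr2 : 2 ≤ r := (le_max_right _ _).trans hr
  filter_upwards [h0 r ((le_max_left _ _).trans hr) κ hκ0, V_small f hf r hr2 κ hκ0] with X hX hVs
  intro Y hXY T hT A
  obtain ⟨y, hy⟩ : ∃ y, y = ⌊(X : ℝ) ^ (1 / (r : ℝ))⌋₊ := ⟨_, rfl⟩
  rw [← hy] at hX hVs hT ⊢
  have hV0 : 0 < Vq (Q f) y := Vq_pos (Q f) (fun p hp => Poly.adm f hf p hp) y
  have hY0 : (0 : ℝ) ≤ Y := Nat.cast_nonneg Y
  by_cases hκT : κ ≤ T * Vq (Q f) y
  · refine (hX Y hXY T hκT (hT.trans (le_max_left _ _)) A).trans ?_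
    nlinarith
  · rw [not_le] at hκT
    obtain ⟨T', h1, h2, h3⟩ := exists_window (Vq (Q f) y) κ hV0 hVs
    have h4 := hX Y hXY T' h1 (h2.trans ((by linarith : 2 * κ ≤ 1).trans (le_max_right _ _))) {0}
    have hcard : (Y : ℝ) = ((Finset.Ioc X (X + Y)).card : ℝ) := by
      rw [Nat.card_Ioc]
      congr 1
      omega
    rw [hcard] at h4 ⊢
    have h5 := extend (Finset.Ioc X (X + Y)) (fun n => Np f y T n) (fun n => Np f y T' n)
      (fun n => Np_mono f y T T' n (h3 T hκT)) (T * Vq (Q f) y) (T' * Vq (Q f) y) (ε / 4)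
      (by positivity) (by linarith) h4 A
    refine h5.trans ?_
    rw [← hcard]
    nlinarith

end Pool.Agent.TH464.PO
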