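import Pool.Agent.TH464.PO.LinLaw

set_option autoImplicit false

/-!
# Admissible systems of linear forms `a i m + b i` with `1 ≤ b i < a i`
-/

namespace Pool.Agent.TH464.PO

open Finset Filter
open Pool.Agent.W123.RP Pool.Agent.H373R2.T7 Pool.Agent.W123.RU

/-- the condition -/
def AF {k : ℕ} (a b : Fin k → ℕ) (A r X m : ℕ) : Prop :=
  ∀ i, (a i * m + b i).primeFactorsList.length ≤ (2 * A + 1) * r ∧
    ∀ p : ℕ, p.Prime → p ∣ a i * m + b i → (X : ℝ) ^ (1 / (r : ℝ)) < (p : ℝ)

/-- admissible systems -/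
structure Adm {k : ℕ} (a b : Fin k → ℕ) (B : ℕ) : Prop where
  pos : ∀ i, 1 ≤ b i
  lt : ∀ i, b i < a i
  le : ∀ i, a i ≤ B
  inj : ∀ i j, i ≠ j → a i ≠ a j ∨ b i ≠ b j
  adm : ∀ p : ℕ, p.Prime → ∃ n : ℕ, ∀ i, ¬ p ∣ a i * n + b i

variable {k : ℕ} {a b : Fin k → ℕ} {B : ℕ}

lemma adm_coprime (h : Adm a b B) (i : Fin k) : Nat.Coprime (a i) (b i) := by
  rw [Nat.coprime_iff_gcd_eq_one]
  by_contra hne
  obtain ⟨p, hp, hpd⟩ := Nat.exists_prime_and_dvd hne
  obtain ⟨n, hn⟩ := h.adm p hp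
  exact hn i (dvd_add ((hpd.trans (Nat.gcd_dvd_left _ _)).mul_right n) (hpd.trans (Nat.gcd_dvd_right _ _)))

lemma adm_LF (hk : 2 ≤ k) (h : Adm a b B) (R : ℝ) :
    LF k (fun i => (a i : ℤ)) (fun i => (b i : ℤ)) B R where
  ne := fun i => by
    have := h.lt i
    have := h.pos i
    exact_mod_cast (by omega : a i ≠ 0)
  bu := fun i => by
    rw [Nat.abs_cast]
    exact_mod_cast h.le i
  bv := fun i => by
    rw [Nat.abs_cast]
    exact_mod_cast (h.lt i).le.trans (h.le i)
  adm := fun p hp => by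
    obtain ⟨n, hn⟩ := h.adm p hp
    exact ⟨n, fun i hd => hn i (by exact_mod_cast hd)⟩
  two := by
    obtain ⟨i, hi⟩ : ∃ i : Fin k, i = ⟨0, by omega⟩ := ⟨_, rfl⟩
    obtain ⟨j, hj⟩ : ∃ j : Fin k, j = ⟨1, by omega⟩ := ⟨_, rfl⟩
    have hij : i ≠ j := by
      rw [hi, hj]
      intro h
      have := congrArg Fin.val h
      simp at this
    refine ⟨i, j, ?_⟩
    intro he
    have he' : a i * b j = a j * b i := by exact_mod_cast he
    have hci := adm_coprime h i
    have hcj := adm_coprime h j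
    have h1 : a i ∣ a j := by
      apply hci.dvd_of_dvd_mul_right
      rw [← he']
      exact dvd_mul_right _ _
    have h2 : a j ∣ a i := by
      apply hcj.dvd_of_dvd_mul_right
      rw [he']
      exact dvd_mul_right _ _
    have h3 : a i = a j := Nat.dvd_antisymm h1 h2
    have h4 : b i = b j := by
      rw [h3] at he'
      have hpos : 0 < a j := by
        have := h.lt j
        omega
      exact (Nat.eq_of_mul_eq_mul_left hpos he').symm
    rcases h.inj i j hij with h5 | h5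
    · exact h5 h3
    · exact h5 h4
  nres := fun i j hij t ht _ he => by
    have h1 : (a j : ℤ) * b i < a j * a i := by
      have h2 : (b i : ℤ) < a i := by exact_mod_cast h.lt i
      have h3 : (0 : ℤ) < a j := by
        have := h.lt j
        exact_mod_cast (by omega : 0 < a j)
      exact mul_lt_mul_of_pos_left h2 h3
    have h4 : (0 : ℤ) < a i * b j := by
      have := h.lt i
      have := h.pos j
      have h5 : 0 < a i * b j := Nat.mul_pos (by omega) (by omega)
      exact_mod_cast h5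
    have h6 : (a i : ℤ) * a j ≤ a i * a j * t := by
      have h7 : (1 : ℤ) ≤ t := by exact_mod_cast ht
      have h8 : (0 : ℤ) ≤ (a i : ℤ) * a j := by positivity
      nlinarith
    have h9 : (a j : ℤ) * a i = a i * a j := mul_comm _ _
    linarith

lemma sf_AF (A r X : ℕ) (hr1 : 1 ≤ r) (hX : 2 ≤ X) (h : Adm a b (X ^ A)) (m : ℕ)
    (hm : m ≤ X ^ A) :
    Sf (QL (fun i => (a i : ℤ)) (fun i => (b i : ℤ))) ⌊(X : ℝ) ^ (1 / (r : ℝ))⌋₊ m ↔ AF a b A r X m := by
  have hX0 : (0 : ℝ) < X := by exact_mod_cast (by omega : 0 < X)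
  have hX1 : (1 : ℝ) ≤ X := by exact_mod_cast (by omega : 1 ≤ X)
  have hr0 : (r : ℝ) ≠ 0 := by exact_mod_cast (by omega : r ≠ 0)
  have hQ : ∀ p, QL (fun i => (a i : ℤ)) (fun i => (b i : ℤ)) p m ↔ ∃ i, p ∣ a i * m + b i := by
    intro p
    unfold QL
    apply exists_congr
    intro i
    rw [← Int.natCast_dvd_natCast]
    push_cast
    exact Iff.rfl
  constructor
  · intro hs i
    have h2 : ∀ p : ℕ, p.Prime → p ∣ a i * m + b i → (X : ℝ) ^ (1 / (r : ℝ)) < (p : ℝ) := by
      intro p hp hd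
      apply not_mem_pz hp
      intro hmem
      exact hs p hmem ((hQ p).2 ⟨i, hd⟩)
    refine ⟨?_, h2⟩
    have hz1 : 1 ≤ (X : ℝ) ^ (1 / (r : ℝ)) := Real.one_le_rpow hX1 (by positivity)
    have hb := h.pos i
    apply length_le _ ((2 * A + 1) * r) (by omega) _ h2 _ hz1
    have e1 : ((X : ℝ) ^ (1 / (r : ℝ))) ^ ((2 * A + 1) * r) = (X : ℝ) ^ (2 * A + 1) := by
      rw [← Real.rpow_natCast, ← Real.rpow_mul hX0.le]
      have : (1 / (r : ℝ)) * (((2 * A + 1) * r : ℕ) : ℝ) = ((2 * A + 1 : ℕ) : ℝ) := by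
        push_cast
        field_simp
      rw [this, Real.rpow_natCast]
    have h3 : ((X : ℝ) ^ (1 / (r : ℝ))) ^ ((2 * A + 1) * r) ≤
        ((X : ℝ) ^ (1 / (r : ℝ))) ^ ((2 * A + 1) * r + 1) := pow_le_pow_right₀ hz1 (by omega)
    refine le_trans ?_ h3
    rw [e1]
    have h4 : a i * m + b i ≤ X ^ (2 * A + 1) := by
      have h5 := h.le i
      have h6 := h.lt i
      have hXA : 1 ≤ X ^ A := Nat.one_le_iff_ne_zero.2 (pow_pos (by omega) A).ne'
      calc a i * m + b i ≤ X ^ A * X ^ A + X ^ A * X ^ A := by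
            apply Nat.add_le_add (Nat.mul_le_mul h5 hm)
            calc b i ≤ X ^ A := by omega
              _ = X ^ A * 1 := (mul_one _).symm
              _ ≤ X ^ A * X ^ A := Nat.mul_le_mul_left _ hXA
        _ = 2 * (X ^ A * X ^ A) := by ring
        _ ≤ X * (X ^ A * X ^ A) := Nat.mul_le_mul_right _ hX
        _ = X ^ (2 * A + 1) := by ring
    exact_mod_cast h4
  · intro hs p hp hq
    obtain ⟨i, hi⟩ := (hQ p).1 hq
    have h1 := (hs i).2 p (mem_pz.1 hp).2 hi
    have h2 := mem_pz' (by positivity) hp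
    linarith

open Classical in
lemma forms_V (y : ℕ) : Vq (QL (fun i => (a i : ℤ)) (fun i => (b i : ℤ))) y =
    ∏ p ∈ (Finset.range (y + 1)).filter Nat.Prime,
      (1 - (((Finset.range p).filter (fun m => ∃ i, p ∣ a i * m + b i)).card : ℝ) / p) := by
  unfold Vq
  apply Finset.prod_congr
  · unfold pz
    ext p
    simp only [mem_filter, mem_Icc, mem_range]
    constructor
    · rintro ⟨h1, h2⟩
      exact ⟨by omega, h2⟩
    · rintro ⟨h1, h2⟩
      exact ⟨⟨h2.one_lt.le, by omega⟩, h2⟩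
  · intro p _
    unfold nuB
    have : (range p).filter (fun r => QL (fun i => (a i : ℤ)) (fun i => (b i : ℤ)) p r) =
        (Finset.range p).filter (fun m => ∃ i, p ∣ a i * m + b i) := by
      apply Finset.filter_congr
      intro m _
      unfold QL
      apply exists_congr
      intro i
      rw [← Int.natCast_dvd_natCast]
      push_cast
      exact Iff.rfl
    rw [this]

end Pool.Agent.TH464.PO
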