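import Mathlib

set_option autoImplicit false

/-!
# From the counts in windows to the gaps: a double count
-/

namespace Pool.Agent.TH464.PO

open Finset

open Classical in
/-- the number of elements of `(n, n + T]` -/
noncomputable def Wc (g : ℕ → Prop) (n T : ℕ) : ℕ := ((Ioc n (n + T)).filter g).card

open Classical in
/-- the elements of `(X, X + Y]` with fewer than `k` elements in the window of length `T` before them -/
noncomputable def Pk (g : ℕ → Prop) (k T X Y : ℕ) : ℕ :=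
  ((Ioc X (X + Y)).filter (fun b => g b ∧ ((Ico (b - T) b).filter g).card < k)).card

open Classical in
/-- rank at most `k` -/
noncomputable def rk (g : ℕ → Prop) (k n i : ℕ) : ℕ :=
  if g (n + i) ∧ ((Ioo n (n + i)).filter g).card < k then 1 else 0

open Classical in
lemma min_eq (g : ℕ → Prop) (k n L : ℕ) : min k (Wc g n L) = ∑ i ∈ Ioc 0 L, rk g k n i := by
  induction L with
  | zero => simp [Wc]
  | succ L ih =>
    have e : Ioc 0 (L + 1) = insert (L + 1) (Ioc 0 L) := by
      ext i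
      simp only [mem_Ioc, mem_insert]
      omega
    rw [e, Finset.sum_insert (by simp), ← ih]
    have e2 : Ioc n (n + (L + 1)) = insert (n + (L + 1)) (Ioc n (n + L)) := by
      ext i
      simp only [mem_Ioc, mem_insert]
      omega
    have e3 : Ioo n (n + (L + 1)) = Ioc n (n + L) := by
      ext i
      simp only [mem_Ioc, mem_Ioo]
      omega
    unfold rk
    rw [e3]
    have hW : Wc g n (L + 1) = (if g (n + (L + 1)) then 1 else 0) + Wc g n L := by
      unfold Wc
      rw [e2, Finset.filter_insert]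
      split_ifs with h
      · rw [Finset.card_insert_of_notMem (by simp)]
        omega
      · omega
    rw [hW]
    have hw : ((Ioc n (n + L)).filter g).card = Wc g n L := rfl
    rw [hw]
    by_cases h1 : g (n + (L + 1))
    · rw [if_pos h1]
      by_cases h2 : Wc g n L < k
      · rw [if_pos ⟨h1, h2⟩]
        omega
      · rw [if_neg (fun h => h2 h.2)]
        omega
    · rw [if_neg h1, if_neg (fun h => h1 h.1)]
      omega

open Classical in
lemma min_diff (g : ℕ → Prop) (k n T Δ : ℕ) :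
    min k (Wc g n (T + Δ)) = min k (Wc g n T) + ∑ i ∈ Ioc T (T + Δ), rk g k n i := by
  rw [min_eq, min_eq, ← Finset.sum_union]
  · congr 1
    ext i
    simp only [mem_union, mem_Ioc]
    omega
  · rw [Finset.disjoint_left]
    intro i h1 h2
    rw [mem_Ioc] at h1 h2
    omega

open Classical in
/-- the number of the `n` with `g (n + i)` of small rank -/
lemma rk_upper (g : ℕ → Prop) (k T i X Y : ℕ) (hi : T < i) :
    ∑ n ∈ Ioc X (X + Y), rk g k n i ≤ Pk g k T X Y + i := by
  have h1 : ∑ n ∈ Ioc X (X + Y), rk g k n i =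
      ((Ioc X (X + Y)).filter (fun n => g (n + i) ∧ ((Ioo n (n + i)).filter g).card < k)).card := by
    rw [Finset.card_filter]
    rfl
  have h2 : ((Ioc X (X + Y)).filter (fun n => g (n + i) ∧ ((Ioo n (n + i)).filter g).card < k)).card ≤
      (((Ioc X (X + Y)).filter (fun b => g b ∧ ((Ico (b - T) b).filter g).card < k)) ∪
        Ioc (X + Y) (X + Y + i)).card := by
    apply Finset.card_le_card_of_injOn (fun n => n + i)
    · intro n hn
      rw [mem_coe, mem_filter, mem_Ioc] at hn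
      rw [mem_coe, mem_union, mem_filter, mem_Ioc, mem_Ioc]
      beta_reduce
      by_cases h : n + i ≤ X + Y
      · left
        refine ⟨⟨by omega, h⟩, hn.2.1, lt_of_le_of_lt (card_le_card ?_) hn.2.2⟩
        intro m hm
        rw [mem_filter, mem_Ico] at hm
        rw [mem_filter, mem_Ioo]
        exact ⟨by omega, hm.2⟩
      · right
        omega
    · intro a _ b _ hab
      have : a + i = b + i := hab
      omega
  rw [h1]
  refine h2.trans ((card_union_le _ _).trans ?_)
  rw [Nat.card_Ioc]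
  unfold Pk
  omega

open Classical in
lemma rk_lower (g : ℕ → Prop) (k T i X Y : ℕ) (hi : i ≤ T) :
    Pk g k T X Y ≤ ∑ n ∈ Ioc X (X + Y), rk g k n i + i := by
  have h1 : ∑ n ∈ Ioc X (X + Y), rk g k n i =
      ((Ioc X (X + Y)).filter (fun n => g (n + i) ∧ ((Ioo n (n + i)).filter g).card < k)).card := by
    rw [Finset.card_filter]
    rfl
  have h2 : Pk g k T X Y ≤ (((Ioc X (X + Y)).filter
      (fun n => g (n + i) ∧ ((Ioo n (n + i)).filter g).card < k)).image (fun n => n + i) ∪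
        Ioc X (X + i)).card := by
    apply card_le_card
    intro b hb
    rw [mem_filter, mem_Ioc] at hb
    rw [mem_union, mem_image, mem_Ioc]
    by_cases h : b ≤ X + i
    · right
      omega
    · left
      refine ⟨b - i, ?_, by omega⟩
      rw [mem_filter, mem_Ioc, show b - i + i = b by omega]
      refine ⟨by omega, hb.2.1, lt_of_le_of_lt (card_le_card ?_) hb.2.2⟩
      intro m hm
      rw [mem_filter, mem_Ioo] at hm
      rw [mem_filter, mem_Ico]
      exact ⟨by omega, hm.2⟩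
  rw [h1]
  refine h2.trans ((card_union_le _ _).trans ?_)
  rw [Nat.card_Ioc]
  have := card_image_le (s := (Ioc X (X + Y)).filter
      (fun n => g (n + i) ∧ ((Ioo n (n + i)).filter g).card < k)) (f := fun n => n + i)
  omega

/-- **Double count.** -/
lemma dc_upper (g : ℕ → Prop) (k T Δ X Y : ℕ) :
    ∑ n ∈ Ioc X (X + Y), (min k (Wc g n (T + Δ)) : ℝ) - ∑ n ∈ Ioc X (X + Y), (min k (Wc g n T) : ℝ) ≤
      Δ * (Pk g k T X Y + (T + Δ)) := by
  have h1 : ∑ n ∈ Ioc X (X + Y), min k (Wc g n (T + Δ)) = ∑ n ∈ Ioc X (X + Y), min k (Wc g n T) +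
      ∑ i ∈ Ioc T (T + Δ), ∑ n ∈ Ioc X (X + Y), rk g k n i := by
    rw [Finset.sum_comm, ← Finset.sum_add_distrib]
    exact Finset.sum_congr rfl fun n _ => min_diff g k n T Δ
  have h2 : ∑ i ∈ Ioc T (T + Δ), ∑ n ∈ Ioc X (X + Y), rk g k n i ≤ Δ * (Pk g k T X Y + (T + Δ)) := by
    have h3 : ∀ i ∈ Ioc T (T + Δ), ∑ n ∈ Ioc X (X + Y), rk g k n i ≤ Pk g k T X Y + (T + Δ) := by
      intro i hi
      rw [mem_Ioc] at hi
      exact (rk_upper g k T i X Y hi.1).trans (by omega)
    have := Finset.sum_le_card_nsmul _ _ _ h3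
    rw [Nat.card_Ioc, smul_eq_mul] at this
    rwa [show T + Δ - T = Δ by omega] at this
  have h3 : (∑ n ∈ Ioc X (X + Y), min k (Wc g n (T + Δ)) : ℕ) ≤ ∑ n ∈ Ioc X (X + Y), min k (Wc g n T) +
      Δ * (Pk g k T X Y + (T + Δ)) := by
    rw [h1]
    omega
  have h4 : ((∑ n ∈ Ioc X (X + Y), min k (Wc g n (T + Δ)) : ℕ) : ℝ) ≤
      ((∑ n ∈ Ioc X (X + Y), min k (Wc g n T) + Δ * (Pk g k T X Y + (T + Δ)) : ℕ) : ℝ) := by
    exact_mod_cast h3
  push_cast at h4
  linarith

lemma dc_lower (g : ℕ → Prop) (k T Δ X Y : ℕ) :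
    Δ * (Pk g k (T + Δ) X Y : ℝ) ≤ ∑ n ∈ Ioc X (X + Y), (min k (Wc g n (T + Δ)) : ℝ) -
      ∑ n ∈ Ioc X (X + Y), (min k (Wc g n T) : ℝ) + Δ * (T + Δ) := by
  have h1 : ∑ n ∈ Ioc X (X + Y), min k (Wc g n (T + Δ)) = ∑ n ∈ Ioc X (X + Y), min k (Wc g n T) +
      ∑ i ∈ Ioc T (T + Δ), ∑ n ∈ Ioc X (X + Y), rk g k n i := by
    rw [Finset.sum_comm, ← Finset.sum_add_distrib]
    exact Finset.sum_congr rfl fun n _ => min_diff g k n T Δ
  have h2 : Δ * Pk g k (T + Δ) X Y ≤ ∑ i ∈ Ioc T (T + Δ), ∑ n ∈ Ioc X (X + Y), rk g k n i +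
      Δ * (T + Δ) := by
    have h3 : ∀ i ∈ Ioc T (T + Δ), Pk g k (T + Δ) X Y ≤
        ∑ n ∈ Ioc X (X + Y), rk g k n i + (T + Δ) := by
      intro i hi
      rw [mem_Ioc] at hi
      have := rk_lower g k (T + Δ) i X Y hi.2
      omega
    have := Finset.card_nsmul_le_sum _ _ _ h3
    rw [Nat.card_Ioc, smul_eq_mul, Finset.sum_add_distrib, Finset.sum_const, Nat.card_Ioc,
      smul_eq_mul] at this
    rwa [show T + Δ - T = Δ by omega] at this
  have h3 : Δ * Pk g k (T + Δ) X Y + ∑ n ∈ Ioc X (X + Y), min k (Wc g n T) ≤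
      ∑ n ∈ Ioc X (X + Y), min k (Wc g n (T + Δ)) + Δ * (T + Δ) := by
    rw [h1]
    omega
  have h4 : ((Δ * Pk g k (T + Δ) X Y + ∑ n ∈ Ioc X (X + Y), min k (Wc g n T) : ℕ) : ℝ) ≤
      ((∑ n ∈ Ioc X (X + Y), min k (Wc g n (T + Δ)) + Δ * (T + Δ) : ℕ) : ℝ) := by
    exact_mod_cast h3
  push_cast at h4
  linarith

/-! ### The Poisson distribution function -/

/-- the Poisson weights -/
noncomputable def pw (j : ℕ) (x : ℝ) : ℝ := Real.exp (-x) * x ^ j / j.factorial

/-- the distribution function -/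
noncomputable def Ck (k : ℕ) (x : ℝ) : ℝ := ∑ j ∈ range k, pw j x

/-- its integral -/
noncomputable def Sk (k : ℕ) (x : ℝ) : ℝ := ∑ j ∈ range k, ((k : ℝ) - j) * pw j x

lemma pw_zero_deriv (x : ℝ) : HasDerivAt (pw 0) (-pw 0 x) x := by
  have h : HasDerivAt (fun x : ℝ => Real.exp (-x)) (Real.exp (-x) * (-1)) x :=
    (Real.hasDerivAt_exp (-x)).comp x (hasDerivAt_neg x)
  have e : pw 0 = fun x : ℝ => Real.exp (-x) := by
    funext x
    simp [pw]
  rw [e]
  convert h using 1
  simp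

lemma pw_succ_deriv (j : ℕ) (x : ℝ) : HasDerivAt (pw (j + 1)) (pw j x - pw (j + 1) x) x := by
  have h : HasDerivAt (fun x : ℝ => Real.exp (-x)) (Real.exp (-x) * (-1)) x :=
    (Real.hasDerivAt_exp (-x)).comp x (hasDerivAt_neg x)
  have h2 : HasDerivAt (fun x : ℝ => x ^ (j + 1)) (((j + 1 : ℕ) : ℝ) * x ^ j) x := by
    simpa using hasDerivAt_pow (j + 1) x
  have h3 := (h.mul h2).div_const ((j + 1).factorial : ℝ)
  have e : pw (j + 1) = fun x : ℝ => Real.exp (-x) * x ^ (j + 1) / ((j + 1).factorial : ℝ) := rfl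
  rw [e]
  refine h3.congr_deriv ?_
  unfold pw
  rw [Nat.factorial_succ]
  have hj : (j.factorial : ℝ) ≠ 0 := by exact_mod_cast Nat.factorial_ne_zero j
  have hj1 : ((j + 1 : ℕ) : ℝ) ≠ 0 := by exact_mod_cast Nat.succ_ne_zero j
  push_cast at hj1 ⊢
  field_simp
  ring

lemma Ck_deriv (k : ℕ) (x : ℝ) : HasDerivAt (Ck (k + 1)) (-pw k x) x := by
  induction k with
  | zero =>
    have e : Ck (0 + 1) = pw 0 := by
      funext x
      simp [Ck]
    rw [e]
    exact pw_zero_deriv x
  | succ k ih =>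
    have e : Ck (k + 1 + 1) = fun x => Ck (k + 1) x + pw (k + 1) x := by
      funext x
      unfold Ck
      rw [Finset.sum_range_succ]
    rw [e]
    refine (ih.add (pw_succ_deriv k x)).congr_deriv ?_
    ring

lemma Sk_succ (k : ℕ) (x : ℝ) : Sk (k + 1) x = Sk k x + Ck (k + 1) x := by
  unfold Sk Ck
  have h1 : ∑ j ∈ range (k + 1), (((k + 1 : ℕ) : ℝ) - j) * pw j x =
      ∑ j ∈ range (k + 1), ((k : ℝ) - j) * pw j x + ∑ j ∈ range (k + 1), pw j x := by
    rw [← Finset.sum_add_distrib]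
    apply Finset.sum_congr rfl
    intro j _
    push_cast
    ring
  rw [h1, Finset.sum_range_succ (fun j => ((k : ℝ) - j) * pw j x), sub_self, zero_mul, add_zero]

lemma Sk_deriv (k : ℕ) (x : ℝ) : HasDerivAt (Sk k) (-Ck k x) x := by
  induction k with
  | zero =>
    have e : Sk 0 = fun _ => 0 := by
      funext x
      simp [Sk]
    have e2 : Ck 0 x = 0 := by simp [Ck]
    rw [e, e2, neg_zero]
    exact hasDerivAt_const x 0
  | succ k ih =>
    have e : Sk (k + 1) = fun x => Sk k x + Ck (k + 1) x := by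
      funext x
      exact Sk_succ k x
    rw [e]
    refine (ih.add (Ck_deriv k x)).congr_deriv ?_
    unfold Ck
    rw [Finset.sum_range_succ]
    ring

lemma pw_nonneg (j : ℕ) (x : ℝ) (hx : 0 ≤ x) : 0 ≤ pw j x := by unfold pw; positivity

lemma Ck_nonneg (k : ℕ) (x : ℝ) (hx : 0 ≤ x) : 0 ≤ Ck k x :=
  Finset.sum_nonneg fun j _ => pw_nonneg j x hx

lemma Ck_le_one (k : ℕ) (x : ℝ) (hx : 0 ≤ x) : Ck k x ≤ 1 := by
  have hs : HasSum (fun i : ℕ => x ^ i / (i.factorial : ℝ)) (Real.exp x) := by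
    have := NormedSpace.expSeries_div_hasSum_exp (x : ℝ)
    rwa [← Real.exp_eq_exp_ℝ] at this
  have h1 := sum_le_hasSum (range k) (fun i _ => by positivity) hs
  have e : Ck k x = Real.exp (-x) * ∑ j ∈ range k, x ^ j / (j.factorial : ℝ) := by
    unfold Ck pw
    rw [Finset.mul_sum]
    exact Finset.sum_congr rfl fun j _ => by ring
  rw [e, Real.exp_neg, inv_mul_le_one₀ (Real.exp_pos x)]
  exact h1

lemma Ck_mono_k (k l : ℕ) (h : k ≤ l) (x : ℝ) (hx : 0 ≤ x) : Ck k x ≤ Ck l x :=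
  Finset.sum_le_sum_of_subset_of_nonneg (range_mono h) fun j _ _ => pw_nonneg j x hx

lemma pw_le_one (j : ℕ) (x : ℝ) (hx : 0 ≤ x) : pw j x ≤ 1 := by
  have h1 : pw j x ≤ Ck (j + 1) x :=
    Finset.single_le_sum (f := fun j => pw j x) (fun i _ => pw_nonneg i x hx) (mem_range.2 (by omega))
  exact h1.trans (Ck_le_one _ x hx)

/-- the mean value theorem for `Ck` -/
lemma Ck_lip (k : ℕ) (x δ : ℝ) (hx : 0 ≤ x) (hδ : 0 ≤ δ) :
    Ck k (x + δ) ≤ Ck k x ∧ Ck k x - δ ≤ Ck k (x + δ) := by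
  rcases hδ.eq_or_lt with h0 | hδ'
  · rw [← h0]
    simp
  rcases k with _ | k
  · simp only [Ck, Finset.range_zero, Finset.sum_empty]
    constructor
    · exact le_refl _
    · linarith
  obtain ⟨c, hc, hd⟩ := exists_hasDerivAt_eq_slope (Ck (k + 1)) (fun x => -pw k x)
    (show x < x + δ by linarith) (fun y _ => (Ck_deriv k y).continuousAt.continuousWithinAt)
    (fun y _ => Ck_deriv k y)
  have e : x + δ - x = δ := by ring
  rw [e, eq_div_iff hδ'.ne'] at hd
  have h1 := pw_nonneg k c (by linarith [hc.1])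
  have h2 := pw_le_one k c (by linarith [hc.1])
  constructor
  · nlinarith
  · nlinarith

/-- the mean value theorem for `Sk` -/
lemma Sk_diff (k : ℕ) (x δ : ℝ) (hx : 0 ≤ x) (hδ : 0 ≤ δ) :
    Sk k x - Sk k (x + δ) ≤ δ * Ck k x ∧ δ * (Ck k x - δ) ≤ Sk k x - Sk k (x + δ) := by
  rcases hδ.eq_or_lt with h0 | hδ'
  · rw [← h0]
    simp
  obtain ⟨c, hc, hd⟩ := exists_hasDerivAt_eq_slope (Sk k) (fun x => -Ck k x)
    (show x < x + δ by linarith) (fun y _ => (Sk_deriv k y).continuousAt.continuousWithinAt)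
    (fun y _ => Sk_deriv k y)
  have e : x + δ - x = δ := by ring
  rw [e, eq_div_iff hδ'.ne'] at hd
  have h1 := Ck_lip k x (c - x) hx (by linarith [hc.1])
  have e2 : x + (c - x) = c := by ring
  rw [e2] at h1
  have h3 : c - x ≤ δ := by linarith [hc.2]
  constructor
  · have : δ * Ck k c ≤ δ * Ck k x := mul_le_mul_of_nonneg_left h1.1 hδ
    linarith
  · have : δ * (Ck k x - δ) ≤ δ * Ck k c := mul_le_mul_of_nonneg_left (by linarith [h1.2]) hδ
    linarith

/-- the sums of the truncated counts -/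
lemma min_sum (Om : Finset ℕ) (W : ℕ → ℕ) (k : ℕ) :
    ∑ n ∈ Om, (min k (W n) : ℝ) = k * Om.card -
      ∑ j ∈ range k, ((k : ℝ) - j) * ((Om.filter (fun n => W n = j)).card : ℝ) := by
  have h1 : ∀ n ∈ Om, (min k (W n) : ℝ) = k - ∑ j ∈ range k, ((k : ℝ) - j) *
      (if W n = j then 1 else 0) := by
    intro n _
    by_cases h : W n < k
    · rw [Finset.sum_eq_single (W n)]
      · rw [if_pos rfl]
        rw [min_eq_right (by exact_mod_cast h.le)]
        ring
      · intro j _ hj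
        rw [if_neg (Ne.symm hj), mul_zero]
      · intro hn
        exact absurd (mem_range.2 h) hn
    · rw [not_lt] at h
      rw [min_eq_left (by exact_mod_cast h), Finset.sum_eq_zero, sub_zero]
      intro j hj
      rw [mem_range] at hj
      rw [if_neg (by omega), mul_zero]
  rw [Finset.sum_congr rfl h1, Finset.sum_sub_distrib, Finset.sum_const, nsmul_eq_mul, Finset.sum_comm]
  congr 1
  · ring
  · apply Finset.sum_congr rfl
    intro j _
    rw [← Finset.mul_sum, Finset.card_filter]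
    push_cast
    rfl

lemma min_sum_law (Om : Finset ℕ) (W : ℕ → ℕ) (k : ℕ) (x η : ℝ)
    (h : ∀ A : Finset ℕ, |((Om.filter (fun n => W n ∈ A)).card : ℝ) -
      Om.card * ∑ j ∈ A, Real.exp (-x) * x ^ j / j.factorial| ≤ η * Om.card) :
    |∑ n ∈ Om, (min k (W n) : ℝ) - (k * Om.card - Om.card * Sk k x)| ≤ k ^ 2 * η * Om.card := by
  rw [min_sum]
  have e : k * (Om.card : ℝ) - ∑ j ∈ range k, ((k : ℝ) - j) * ((Om.filter (fun n => W n = j)).card : ℝ) -
      (k * Om.card - Om.card * Sk k x) = -∑ j ∈ range k, ((k : ℝ) - j) *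
        (((Om.filter (fun n => W n = j)).card : ℝ) - Om.card * pw j x) := by
    unfold Sk
    rw [Finset.mul_sum]
    have : ∀ j ∈ range k, ((k : ℝ) - j) *
        (((Om.filter (fun n => W n = j)).card : ℝ) - Om.card * pw j x) =
        ((k : ℝ) - j) * ((Om.filter (fun n => W n = j)).card : ℝ) - Om.card * (((k : ℝ) - j) * pw j x) := by
      intro j _
      ring
    rw [Finset.sum_congr rfl this, Finset.sum_sub_distrib]
    ring
  rw [e, abs_neg]
  refine (Finset.abs_sum_le_sum_abs _ _).trans ?_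
  have h1 : ∀ j ∈ range k, |((k : ℝ) - j) *
      (((Om.filter (fun n => W n = j)).card : ℝ) - Om.card * pw j x)| ≤ k * (η * Om.card) := by
    intro j hj
    rw [mem_range] at hj
    have hjr : (j : ℝ) ≤ k := by exact_mod_cast hj.le
    have hj0 : (0 : ℝ) ≤ j := Nat.cast_nonneg j
    rw [abs_mul, abs_of_nonneg (by linarith : (0 : ℝ) ≤ (k : ℝ) - j)]
    have h2 := h {j}
    rw [Finset.sum_singleton] at h2
    simp only [mem_singleton] at h2
    have h3 : |((Om.filter (fun n => W n = j)).card : ℝ) - Om.card * pw j x| ≤ η * Om.card := h2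
    exact mul_le_mul (by linarith) h3 (abs_nonneg _) (by linarith)
  refine (Finset.sum_le_sum h1).trans ?_
  rw [Finset.sum_const, card_range, nsmul_eq_mul]
  apply le_of_eq
  ring

end Pool.Agent.TH464.PO
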