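import Pool.Agent.TH464.PO.Palm

set_option autoImplicit false

/-!
# The joint law of several consecutive gaps, from the joint law around the elements
-/

namespace Pool.Agent.TH464.PO

open Finset

/-- the next element of `g` after `b` -/
noncomputable def nx (g : ℕ → Prop) (b : ℕ) : ℕ := sInf {m | b < m ∧ g m}

variable {s : ℕ}

/-- partial sums -/
def ps (d : Fin s → ℕ) (i : ℕ) : ℕ := ∑ k ∈ range i, if h : k < s then d ⟨k, h⟩ else 0

lemma ps_zero (d : Fin s → ℕ) : ps d 0 = 0 := by simp [ps]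

lemma ps_succ (d : Fin s → ℕ) (i : Fin s) : ps d ((i : ℕ) + 1) = ps d i + d i := by
  unfold ps
  rw [Finset.sum_range_succ, dif_pos i.2]

lemma ps_mono (d : Fin s → ℕ) {i j : ℕ} (h : i ≤ j) : ps d i ≤ ps d j := by
  unfold ps
  exact Finset.sum_le_sum_of_subset (Finset.range_mono h)

lemma ps_lt (d : Fin s → ℕ) (i j : Fin s) (h : i < j) : ps d i + d i ≤ ps d j := by
  rw [← ps_succ]
  exact ps_mono d (by
    have : (i : ℕ) < j := h
    omega)

lemma ps_le (d : Fin s → ℕ) (D : ℕ) (hd : ∀ i, d i ≤ D) (i : ℕ) : ps d i ≤ i * D := by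
  unfold ps
  refine (Finset.sum_le_card_nsmul _ _ D ?_).trans ?_
  · intro k _
    split_ifs
    · exact hd _
    · exact Nat.zero_le _
  · rw [card_range, smul_eq_mul]

open Classical in
/-- one element in each of the chosen cells, none before -/
def Ev (g : ℕ → Prop) (L : ℕ) (d : Fin s → ℕ) (m : ℕ) : Prop :=
  ∀ i : Fin s, ((Ioc (m + ps d i * L) (m + (ps d i + (d i - 1)) * L)).filter g).card = 0 ∧
    ((Ioc (m + (ps d i + (d i - 1)) * L) (m + (ps d i + d i) * L)).filter g).card = 1

lemma cell_eq (p d L : ℕ) (hd : 1 ≤ d) : (p + d) * L = (p + (d - 1)) * L + L := by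
  obtain ⟨c, rfl⟩ : ∃ c, d = c + 1 := ⟨d - 1, by omega⟩
  rw [Nat.add_sub_cancel]
  ring

lemma walk (g : ℕ → Prop) (L : ℕ) (hL : 1 ≤ L) (d : Fin s → ℕ) (hd : ∀ i, 1 ≤ d i) (m : ℕ)
    (h : Ev g L d m) : ∀ i : ℕ, i ≤ s → (nx g)^[i] m ≤ m + ps d i * L ∧
      m + ps d i * L < (nx g)^[i] m + L ∧
      ∀ x, (nx g)^[i] m < x → x ≤ m + ps d i * L → ¬ g x := by
  classical
  intro i
  induction i with
  | zero =>
    intro _
    rw [ps_zero, Function.iterate_zero, id, zero_mul, add_zero]
    exact ⟨le_rfl, by omega, fun x h1 h2 => by omega⟩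
  | succ i ih =>
    intro hi
    obtain ⟨h1, h2, h3⟩ := ih (by omega)
    have hi' : i < s := by omega
    obtain ⟨e1, e2⟩ := h ⟨i, hi'⟩
    have hdi := hd ⟨i, hi'⟩
    have eps : ps d (i + 1) = ps d i + d ⟨i, hi'⟩ := ps_succ d ⟨i, hi'⟩
    have hce := cell_eq (ps d i) (d ⟨i, hi'⟩) L hdi
    rw [Finset.card_eq_zero, Finset.filter_eq_empty_iff] at e1
    rw [Finset.card_eq_one] at e2
    obtain ⟨x0, hx0⟩ := e2
    obtain ⟨A, hA⟩ : ∃ A, A = (ps d i + (d ⟨i, hi'⟩ - 1)) * L := ⟨_, rfl⟩
    obtain ⟨B, hB⟩ : ∃ B, B = (ps d i + d ⟨i, hi'⟩) * L := ⟨_, rfl⟩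
    obtain ⟨C, hC⟩ : ∃ C, C = ps d i * L := ⟨_, rfl⟩
    have hCA : C ≤ A := by
      rw [hC, hA]
      exact Nat.mul_le_mul_right L (by omega)
    rw [← hB, ← hA] at hce
    have e1' : ∀ x, m + C < x → x ≤ m + A → ¬ g x := by
      intro x a b
      rw [hC] at a
      rw [hA] at b
      exact e1 (mem_Ioc.2 ⟨a, b⟩)
    have hx0' : (Ioc (m + A) (m + B)).filter g = {x0} := by
      rw [hA, hB]
      exact hx0
    have hm0 : x0 ∈ (Ioc (m + A) (m + B)).filter g := by
      rw [hx0']
      exact mem_singleton_self _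
    rw [mem_filter, mem_Ioc] at hm0
    have uniq : ∀ x, m + A < x → x ≤ m + B → g x → x = x0 := by
      intro x a b c
      have : x ∈ (Ioc (m + A) (m + B)).filter g := mem_filter.2 ⟨mem_Ioc.2 ⟨a, b⟩, c⟩
      rw [hx0', mem_singleton] at this
      exact this
    rw [← hC] at h1 h2 h3
    have hnx : nx g ((nx g)^[i] m) = x0 := by
      unfold nx
      apply le_antisymm
      · exact Nat.sInf_le ⟨by
          have := hm0.1.1
          unfold nx at h1
          omega, hm0.2⟩
      · apply le_csInf ⟨x0, by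
          have := hm0.1.1
          unfold nx at h1
          exact ⟨by omega, hm0.2⟩⟩
        rintro x ⟨hx1, hx2⟩
        by_contra hlt
        rw [not_le] at hlt
        rcases Nat.lt_or_ge (m + C) x with a | a
        · rcases Nat.lt_or_ge (m + A) x with b | b
          · have := uniq x b (by omega) hx2
            omega
          · exact e1' x a b hx2
        · exact h3 x hx1 a hx2
    rw [Function.iterate_succ_apply', hnx, eps, ← hB]
    refine ⟨hm0.1.2, by have := hm0.1.1; omega, ?_⟩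
    intro x a b c
    have := hm0.1.1
    have := uniq x (by omega) b c
    omega

lemma gap_bounds (g : ℕ → Prop) (L : ℕ) (hL : 1 ≤ L) (d : Fin s → ℕ) (hd : ∀ i, 1 ≤ d i) (m : ℕ)
    (h : Ev g L d m) (i : Fin s) :
    (d i - 1) * L < (nx g)^[(i : ℕ) + 1] m - (nx g)^[(i : ℕ)] m ∧
    (nx g)^[(i : ℕ) + 1] m - (nx g)^[(i : ℕ)] m < (d i + 1) * L := by
  obtain ⟨a1, a2, -⟩ := walk g L hL d hd m h i i.2.le
  obtain ⟨b1, b2, -⟩ := walk g L hL d hd m h (i + 1) i.2
  rw [ps_succ, add_mul] at b1 b2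
  have hdi := hd i
  have e1 : d i * L = (d i - 1) * L + L := by
    have := cell_eq 0 (d i) L hdi
    rwa [zero_add, zero_add] at this
  have e2 : (d i + 1) * L = d i * L + L := by ring
  constructor
  · omega
  · omega

lemma ev_inj (g : ℕ → Prop) (L : ℕ) (hL : 1 ≤ L) (d d' : Fin s → ℕ) (hd : ∀ i, 1 ≤ d i)
    (hd' : ∀ i, 1 ≤ d' i) (m : ℕ) (h : Ev g L d m) (h' : Ev g L d' m) : d = d' := by
  have key : ∀ i ≤ s, ps d i = ps d' i := by
    intro i hi
    obtain ⟨a1, a2, -⟩ := walk g L hL d hd m h i hi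
    obtain ⟨b1, b2, -⟩ := walk g L hL d' hd' m h' i hi
    have c1 : ps d i * L < (ps d' i + 1) * L := by
      rw [add_mul, one_mul]
      omega
    have c2 : ps d' i * L < (ps d i + 1) * L := by
      rw [add_mul, one_mul]
      omega
    have c3 := Nat.lt_of_mul_lt_mul_right c1
    have c4 := Nat.lt_of_mul_lt_mul_right c2
    omega
  funext i
  have e1 := ps_succ d i
  have e2 := ps_succ d' i
  have e3 := key (i + 1) i.2
  have e4 := key i i.2.le
  omega

/-! ### The windows -/

/-- left ends -/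
def wa (L : ℕ) (d : Fin s → ℕ) : Fin (s + s) → ℕ :=
  Fin.append (fun i : Fin s => ps d i * L) (fun i : Fin s => (ps d i + (d i - 1)) * L)

/-- right ends -/
def wb (L : ℕ) (d : Fin s → ℕ) : Fin (s + s) → ℕ :=
  Fin.append (fun i : Fin s => (ps d i + (d i - 1)) * L) (fun i : Fin s => (ps d i + d i) * L)

/-- the prescribed counts -/
def we (s : ℕ) : Fin (s + s) → Finset ℕ :=
  Fin.append (fun _ : Fin s => ({0} : Finset ℕ)) (fun _ : Fin s => ({1} : Finset ℕ))

open Classical in
lemma w_ev (g : ℕ → Prop) (L : ℕ) (d : Fin s → ℕ) (m : ℕ) :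
    (∀ j, ((Ioc (m + wa L d j) (m + wb L d j)).filter g).card ∈ we s j) ↔ Ev g L d m := by
  constructor
  · intro h i
    have h1 := h (Fin.castAdd s i)
    have h2 := h (Fin.natAdd s i)
    unfold wa wb we at h1 h2
    rw [Fin.append_left, Fin.append_left, Fin.append_left, mem_singleton] at h1
    rw [Fin.append_right, Fin.append_right, Fin.append_right, mem_singleton] at h2
    exact ⟨h1, h2⟩
  · intro h j
    refine Fin.addCases (fun i => ?_) (fun i => ?_) j
    · unfold wa wb we
      rw [Fin.append_left, Fin.append_left, Fin.append_left, mem_singleton]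
      exact (h i).1
    · unfold wa wb we
      rw [Fin.append_right, Fin.append_right, Fin.append_right, mem_singleton]
      exact (h i).2

lemma w_le (L : ℕ) (d : Fin s → ℕ) (i : Fin (s + s)) : wa L d i ≤ wb L d i := by
  refine Fin.addCases (fun i => ?_) (fun i => ?_) i
  · unfold wa wb
    rw [Fin.append_left, Fin.append_left]
    exact Nat.mul_le_mul_right L (by omega)
  · unfold wa wb
    rw [Fin.append_right, Fin.append_right]
    exact Nat.mul_le_mul_right L (by omega)

lemma w_dis (L : ℕ) (d : Fin s → ℕ) (i j : Fin (s + s)) (hij : i ≠ j) :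
    wb L d i ≤ wa L d j ∨ wb L d j ≤ wa L d i := by
  revert hij
  refine Fin.addCases (fun i => ?_) (fun i => ?_) i
  · refine Fin.addCases (fun j => ?_) (fun j => ?_) j
    · intro hij
      unfold wa wb
      rw [Fin.append_left, Fin.append_left, Fin.append_left, Fin.append_left]
      have hne : i ≠ j := fun h => hij (by rw [h])
      rcases lt_or_gt_of_ne hne with h | h
      · left
        have := ps_lt d i j h
        exact Nat.mul_le_mul_right L (by omega)
      · right
        have := ps_lt d j i h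
        exact Nat.mul_le_mul_right L (by omega)
    · intro _
      unfold wa wb
      rw [Fin.append_left, Fin.append_left, Fin.append_right, Fin.append_right]
      rcases lt_trichotomy i j with h | h | h
      · left
        have := ps_lt d i j h
        exact Nat.mul_le_mul_right L (by omega)
      · left
        rw [h]
      · right
        have := ps_lt d j i h
        exact Nat.mul_le_mul_right L (by omega)
  · refine Fin.addCases (fun j => ?_) (fun j => ?_) j
    · intro _
      unfold wa wb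
      rw [Fin.append_left, Fin.append_left, Fin.append_right, Fin.append_right]
      rcases lt_trichotomy i j with h | h | h
      · left
        have := ps_lt d i j h
        exact Nat.mul_le_mul_right L (by omega)
      · right
        rw [h]
      · right
        have := ps_lt d j i h
        exact Nat.mul_le_mul_right L (by omega)
    · intro hij
      unfold wa wb
      rw [Fin.append_right, Fin.append_right, Fin.append_right, Fin.append_right]
      have hne : i ≠ j := fun h => hij (by rw [h])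
      rcases lt_or_gt_of_ne hne with h | h
      · left
        have := ps_lt d i j h
        exact Nat.mul_le_mul_right L (by omega)
      · right
        have := ps_lt d j i h
        exact Nat.mul_le_mul_right L (by omega)

lemma w_bd (L : ℕ) (d : Fin s → ℕ) (D : ℕ) (hd : ∀ i, d i ≤ D) (i : Fin (s + s)) :
    wb L d i ≤ s * D * L := by
  have key : ∀ i : Fin s, ps d i + d i ≤ s * D := by
    intro i
    rw [← ps_succ]
    exact (ps_le d D hd _).trans (Nat.mul_le_mul_right D i.2)
  refine Fin.addCases (fun i => ?_) (fun i => ?_) i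
  · unfold wb
    rw [Fin.append_left]
    have := key i
    exact Nat.mul_le_mul_right L (by omega)
  · unfold wb
    rw [Fin.append_right]
    exact Nat.mul_le_mul_right L (key i)

lemma w_prob (L : ℕ) (d : Fin s → ℕ) (hd : ∀ i, 1 ≤ d i) (V : ℝ) :
    ∏ j, pois (((wb L d j : ℝ) - wa L d j) * V) (we s j) =
      ∏ i, (L * V) * Real.exp (-((L * V) * d i)) := by
  rw [Fin.prod_univ_add, ← Finset.prod_mul_distrib]
  apply Finset.prod_congr rfl
  intro i _
  unfold wa wb we
  simp only [Fin.append_left, Fin.append_right]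
  rw [pois_zero, pois_one]
  have h1 : (((ps d i + (d i - 1)) * L : ℕ) : ℝ) = (ps d i + ((d i : ℝ) - 1)) * L := by
    rw [Nat.cast_mul, Nat.cast_add, Nat.cast_sub (hd i), Nat.cast_one]
  rw [h1]
  push_cast
  rw [← mul_assoc, ← Real.exp_add, mul_comm]
  congr 1
  · ring
  · congr 1
    ring

/-! ### The probabilities -/

/-- the geometric sums -/
noncomputable def Gs (lam : ℝ) (a D : ℕ) : ℝ := ∑ k ∈ Icc a D, lam * Real.exp (-(lam * k))

lemma Gs_tel (lam : ℝ) (a : ℕ) (ha : 1 ≤ a) (D : ℕ) : a ≤ D + 1 →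
    (∑ k ∈ Icc a D, Real.exp (-(lam * k))) * (1 - Real.exp (-lam)) =
      Real.exp (-(lam * a)) - Real.exp (-(lam * ((D : ℝ) + 1))) := by
  induction D with
  | zero =>
    intro h
    obtain rfl : a = 1 := by omega
    rw [Finset.Icc_eq_empty (by omega), Finset.sum_empty, zero_mul]
    push_cast
    rw [zero_add, sub_self]
  | succ D ih =>
    intro h
    rcases Nat.lt_or_ge (D + 1) a with h1 | h1
    · obtain rfl : a = D + 1 + 1 := by omega
      rw [Finset.Icc_eq_empty (by omega), Finset.sum_empty, zero_mul]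
      push_cast
      rw [sub_self]
    · rw [Finset.sum_Icc_succ_top h1, add_mul, ih h1]
      push_cast
      have e : Real.exp (-(lam * ((D : ℝ) + 1))) * Real.exp (-lam) =
          Real.exp (-(lam * ((D : ℝ) + 1 + 1))) := by
        rw [← Real.exp_add]
        congr 1
        ring
      linear_combination -e

lemma Gs_bd (lam : ℝ) (h0 : 0 < lam) (a D : ℕ) (ha : 1 ≤ a) :
    0 ≤ Gs lam a D ∧ Gs lam a D ≤ 1 ∧
      |Gs lam a D - Real.exp (-(lam * a))| ≤ lam + Real.exp (-(lam * D)) := by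
  have hnn : 0 ≤ Gs lam a D := Finset.sum_nonneg fun k _ => by positivity
  have hE : (1 : ℝ) ≤ a := by exact_mod_cast ha
  rcases Nat.lt_or_ge (D + 1) a with h1 | h1
  · have e : Gs lam a D = 0 := by
      unfold Gs
      rw [Finset.Icc_eq_empty (by omega), Finset.sum_empty]
    refine ⟨hnn, by rw [e]; exact zero_le_one, ?_⟩
    rw [e, zero_sub, abs_neg, abs_of_pos (Real.exp_pos _)]
    have : Real.exp (-(lam * a)) ≤ Real.exp (-(lam * D)) := by
      apply Real.exp_le_exp.2
      apply neg_le_neg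
      apply mul_le_mul_of_nonneg_left _ h0.le
      exact_mod_cast (by omega : D ≤ a)
    linarith
  · obtain ⟨q, hq⟩ : ∃ q, q = 1 - Real.exp (-lam) := ⟨_, rfl⟩
    have hexp1 : Real.exp (-lam) < 1 := by
      rw [Real.exp_lt_one_iff]
      linarith
    have hq0 : 0 < q := by linarith
    have hq1 : q ≤ lam := by
      have := Real.add_one_le_exp (-lam)
      linarith
    have hq2 : lam * Real.exp (-lam) ≤ q := by
      have h2 := Real.add_one_le_exp lam
      have h3 : Real.exp lam * Real.exp (-lam) = 1 := by rw [← Real.exp_add]; simp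
      have h4 : (lam + 1) * Real.exp (-lam) ≤ Real.exp lam * Real.exp (-lam) :=
        mul_le_mul_of_nonneg_right h2 (Real.exp_pos _).le
      rw [h3] at h4
      linarith
    have htel := Gs_tel lam a ha D h1
    rw [← hq] at htel
    have eG : Gs lam a D * q = lam * (Real.exp (-(lam * a)) - Real.exp (-(lam * ((D : ℝ) + 1)))) := by
      rw [← htel]
      unfold Gs
      rw [← Finset.mul_sum]
      ring
    obtain ⟨α, hα⟩ : ∃ α, α = Real.exp (-(lam * a)) := ⟨_, rfl⟩
    obtain ⟨β, hβ⟩ : ∃ β, β = Real.exp (-(lam * ((D : ℝ) + 1))) := ⟨_, rfl⟩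
    rw [← hα, ← hβ] at eG
    rw [← hα]
    have hβ0 : 0 < β := by rw [hβ]; exact Real.exp_pos _
    have hαβ : β ≤ α := by
      rw [hα, hβ]
      apply Real.exp_le_exp.2
      apply neg_le_neg
      apply mul_le_mul_of_nonneg_left _ h0.le
      exact_mod_cast h1
    have hβD : β ≤ Real.exp (-(lam * D)) := by
      rw [hβ]
      apply Real.exp_le_exp.2
      apply neg_le_neg
      apply mul_le_mul_of_nonneg_left _ h0.le
      linarith
    -- upper bound
    have hup : Gs lam a D ≤ α * Real.exp lam := by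
      have h5 : Gs lam a D * (lam * Real.exp (-lam)) ≤ Gs lam a D * q :=
        mul_le_mul_of_nonneg_left hq2 hnn
      have h6 : Gs lam a D * (lam * Real.exp (-lam)) ≤ lam * α := by
        rw [eG] at h5
        have : lam * (α - β) ≤ lam * α := mul_le_mul_of_nonneg_left (by linarith) h0.le
        linarith
      have h7 : Gs lam a D * Real.exp (-lam) ≤ α := by
        have e : Gs lam a D * (lam * Real.exp (-lam)) = lam * (Gs lam a D * Real.exp (-lam)) := by ring
        rw [e] at h6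
        exact le_of_mul_le_mul_left h6 h0
      have h8 : Real.exp (-lam) * Real.exp lam = 1 := by rw [← Real.exp_add]; simp
      calc Gs lam a D = Gs lam a D * Real.exp (-lam) * Real.exp lam := by rw [mul_assoc, h8, mul_one]
        _ ≤ α * Real.exp lam := mul_le_mul_of_nonneg_right h7 (Real.exp_pos _).le
    have e9 : α * Real.exp lam = Real.exp (-(lam * (a - 1))) := by
      rw [hα, ← Real.exp_add]
      congr 1
      ring
    have h10 : Real.exp (-(lam * ((a : ℝ) - 1))) ≤ 1 := by
      rw [Real.exp_le_one_iff]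
      have : 0 ≤ lam * ((a : ℝ) - 1) := mul_nonneg h0.le (by linarith)
      linarith
    have h11 : α * Real.exp lam - α ≤ lam := by
      have e : α = Real.exp (-(lam * (a - 1))) * Real.exp (-lam) := by
        rw [hα, ← Real.exp_add]
        congr 1
        ring
      have e' : α * Real.exp lam - α = Real.exp (-(lam * (a - 1))) * q := by
        rw [e9, hq]
        linear_combination -e
      rw [e']
      calc Real.exp (-(lam * ((a : ℝ) - 1))) * q ≤ 1 * lam :=
            mul_le_mul h10 hq1 hq0.le zero_le_one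
        _ = lam := one_mul _
    -- lower bound
    have hlow : α - β ≤ Gs lam a D := by
      have h12 : (α - β) * q ≤ Gs lam a D * q := by
        rw [eG, mul_comm lam]
        exact mul_le_mul_of_nonneg_left hq1 (by linarith)
      exact le_of_mul_le_mul_right h12 hq0
    refine ⟨hnn, ?_, ?_⟩
    · rw [e9] at hup
      linarith
    · rw [abs_le]
      constructor
      · linarith
      · have := Real.exp_pos (-(lam * D))
        linarith

lemma exp_lip (x y d : ℝ) (hx : 0 ≤ x) (hy : 0 ≤ y) (h : |x - y| ≤ d) :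
    |Real.exp (-x) - Real.exp (-y)| ≤ d := by
  refine le_trans ?_ h
  wlog hxy : x ≤ y generalizing x y
  · rw [abs_sub_comm, abs_sub_comm x y]
    exact this y x hy hx (by rwa [abs_sub_comm]) (le_of_not_ge hxy)
  · have h1 : Real.exp (-y) ≤ Real.exp (-x) := Real.exp_le_exp.2 (by linarith)
    rw [abs_of_nonneg (by linarith), abs_sub_comm, abs_of_nonneg (by linarith)]
    have h2 : Real.exp (-y) = Real.exp (-x) * Real.exp (-(y - x)) := by
      rw [← Real.exp_add]
      congr 1
      ring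
    have h3 := Real.add_one_le_exp (-(y - x))
    have h4 : Real.exp (-x) ≤ 1 := Real.exp_le_one_iff.2 (by linarith)
    have h5 := Real.exp_pos (-x)
    rw [h2]
    nlinarith

open Classical in
/-- cells with prescribed contents -/
lemma count_cells (g : ℕ → Prop) (Z Y L D : ℕ) (V x' ε' : ℝ) (hε' : 0 ≤ ε') (hV : 0 < V)
    (hx' : ((s * D * L : ℕ) : ℝ) * V ≤ x')
    (hP : ∀ a b : Fin (s + s) → ℕ, (∀ i, a i ≤ b i) → (∀ j, b j * V ≤ x') →
      (∀ i j, i ≠ j → b i ≤ a j ∨ b j ≤ a i) → ∀ E : Fin (s + s) → Finset ℕ,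
      |(((Ioc Z (Z + Y)).filter
          (fun m => g m ∧ ∀ j, ((Ioc (m + a j) (m + b j)).filter g).card ∈ E j)).card : ℝ) -
        Y * V * ∏ j, pois (((b j : ℝ) - a j) * V) (E j)| ≤ ε' * (Y * V))
    (a : Fin s → ℕ) (ha : ∀ i, 1 ≤ a i) :
    |∑ d ∈ Fintype.piFinset (fun i => Icc (a i) D),
        (((Ioc Z (Z + Y)).filter (fun m => g m ∧ Ev g L d m)).card : ℝ) -
      Y * V * ∏ i, Gs (L * V) (a i) D| ≤ D ^ s * (ε' * (Y * V)) := by
  have e1 : ∏ i, Gs (L * V) (a i) D =
      ∑ d ∈ Fintype.piFinset (fun i => Icc (a i) D), ∏ i, (L * V) * Real.exp (-((L * V) * d i)) := by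
    unfold Gs
    rw [Finset.prod_univ_sum]
  rw [e1, Finset.mul_sum, ← Finset.sum_sub_distrib]
  refine (Finset.abs_sum_le_sum_abs _ _).trans ?_
  have hterm : ∀ d ∈ Fintype.piFinset (fun i => Icc (a i) D),
      |(((Ioc Z (Z + Y)).filter (fun m => g m ∧ Ev g L d m)).card : ℝ) -
        Y * V * ∏ i, (L * V) * Real.exp (-((L * V) * d i))| ≤ ε' * (Y * V) := by
    intro d hd
    rw [Fintype.mem_piFinset] at hd
    have hd1 : ∀ i, 1 ≤ d i := fun i => (ha i).trans (mem_Icc.1 (hd i)).1
    have hdD : ∀ i, d i ≤ D := fun i => (mem_Icc.1 (hd i)).2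
    have h := hP (wa L d) (wb L d) (w_le L d) (fun j => by
      refine le_trans ?_ hx'
      apply mul_le_mul_of_nonneg_right _ hV.le
      exact_mod_cast w_bd L d D hdD j) (w_dis L d) (we s)
    rw [w_prob L d hd1 V] at h
    have e2 : (Ioc Z (Z + Y)).filter (fun m => g m ∧
        ∀ j, ((Ioc (m + wa L d j) (m + wb L d j)).filter g).card ∈ we s j) =
        (Ioc Z (Z + Y)).filter (fun m => g m ∧ Ev g L d m) := by
      apply Finset.filter_congr
      intro m _
      rw [w_ev]
    rw [e2] at h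
    exact h
  refine (Finset.sum_le_card_nsmul _ _ _ hterm).trans ?_
  rw [nsmul_eq_mul]
  apply mul_le_mul_of_nonneg_right _ (by positivity)
  have hc : (Fintype.piFinset (fun i : Fin s => Icc (a i) D)).card ≤ D ^ s := by
    rw [Fintype.card_piFinset]
    refine (Finset.prod_le_pow_card _ _ D fun i _ => ?_).trans ?_
    · rw [Nat.card_Icc]
      have := ha i
      omega
    · rw [card_univ, Fintype.card_fin]
  exact_mod_cast hc

lemma Gs_close (lam V : ℝ) (hV : 0 ≤ V) (L D t a : ℕ) (hlam : lam = L * V) (h0 : 0 < lam)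
    (ha1 : 1 ≤ a) (ha2 : (a : ℝ) * L ≤ t + 2 * L) (ha3 : (t : ℝ) ≤ a * L + L) :
    |Gs lam a D - Real.exp (-(t * V))| ≤ 3 * lam + Real.exp (-(lam * D)) := by
  obtain ⟨-, -, h1⟩ := Gs_bd lam h0 a D ha1
  have h2 : |Real.exp (-(lam * a)) - Real.exp (-(t * V))| ≤ 2 * lam := by
    apply exp_lip _ _ _ (by positivity) (by positivity)
    have h3 := mul_le_mul_of_nonneg_right ha2 hV
    have h4 := mul_le_mul_of_nonneg_right ha3 hV
    have e1 : (a : ℝ) * L * V = lam * a := by rw [hlam]; ring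
    have e2 : ((t : ℝ) + 2 * L) * V = t * V + 2 * lam := by rw [hlam]; ring
    have e3 : ((a : ℝ) * L + L) * V = lam * a + lam := by rw [hlam]; ring
    rw [e1, e2] at h3
    rw [e3] at h4
    rw [abs_le]
    constructor <;> linarith
  have h5 : Gs lam a D - Real.exp (-(t * V)) =
      (Gs lam a D - Real.exp (-(lam * a))) + (Real.exp (-(lam * a)) - Real.exp (-(t * V))) := by ring
  rw [h5]
  refine (abs_add_le _ _).trans ?_
  linarith

open Classical in
/-- **The joint law of consecutive gaps.** -/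
theorem gaps_joint (s : ℕ) (ε : ℝ) (hε : 0 < ε) : ∃ (δ x' ε' : ℝ), 0 < δ ∧ 0 < ε' ∧ 0 ≤ x' ∧
    ∀ (g : ℕ → Prop) (Z Y : ℕ) (V : ℝ), 0 < V → V ≤ δ →
    (∀ a b : Fin (s + s) → ℕ, (∀ i, a i ≤ b i) → (∀ j, b j * V ≤ x') →
      (∀ i j, i ≠ j → b i ≤ a j ∨ b j ≤ a i) → ∀ E : Fin (s + s) → Finset ℕ,
      |(((Ioc Z (Z + Y)).filter
          (fun m => g m ∧ ∀ j, ((Ioc (m + a j) (m + b j)).filter g).card ∈ E j)).card : ℝ) -
        Y * V * ∏ j, pois (((b j : ℝ) - a j) * V) (E j)| ≤ ε' * (Y * V)) →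
    ∀ t : Fin s → ℕ,
      |(((Ioc Z (Z + Y)).filter (fun m => g m ∧ ∀ j : Fin s,
          t j < (nx g)^[(j : ℕ) + 1] m - (nx g)^[(j : ℕ)] m)).card : ℝ) -
        Y * V * ∏ j, Real.exp (-(t j * V))| ≤ ε * (Y * V) := by
  obtain ⟨δ0, hδ0⟩ : ∃ δ0 : ℝ, δ0 = ε / (24 * (s + 1)) := ⟨_, rfl⟩
  have hs0 : (0 : ℝ) ≤ s := Nat.cast_nonneg s
  have hδpos : 0 < δ0 := by rw [hδ0]; positivity
  obtain ⟨R, hR⟩ : ∃ R : ℝ, R = 8 * (s + 1) / ε := ⟨_, rfl⟩
  have hRpos : 0 < R := by rw [hR]; positivity
  have hRe : Real.exp (-R) ≤ ε / (8 * (s + 1)) := by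
    have h1 := Real.add_one_le_exp R
    have h2 : Real.exp R * Real.exp (-R) = 1 := by rw [← Real.exp_add]; simp
    have h3 : R * Real.exp (-R) ≤ 1 := by
      rw [← h2]
      exact mul_le_mul_of_nonneg_right (by linarith) (Real.exp_pos _).le
    have e : ε / (8 * (s + 1)) = 1 / R := by rw [hR, one_div_div]
    rw [e, le_div_iff₀ hRpos, mul_comm]
    exact h3
  obtain ⟨D, hD⟩ : ∃ D : ℕ, 2 * R / δ0 ≤ D := exists_nat_ge _
  refine ⟨δ0 / 2, s * D * δ0, ε / (4 * (2 * D ^ s + 1)), by positivity, by positivity,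
    by positivity, ?_⟩
  intro g Z Y V hV hVδ hP t
  obtain ⟨ε', hε'⟩ : ∃ ε' : ℝ, ε' = ε / (4 * (2 * D ^ s + 1)) := ⟨_, rfl⟩
  have hε'0 : 0 < ε' := by rw [hε']; positivity
  rw [← hε'] at hP
  obtain ⟨L, hLd⟩ : ∃ L : ℕ, L = ⌊δ0 / V⌋₊ := ⟨_, rfl⟩
  have hL2 : (2 : ℝ) ≤ δ0 / V := by
    rw [le_div_iff₀ hV]
    linarith
  have hL : 1 ≤ L := by
    rw [hLd]
    apply Nat.le_floor
    push_cast
    linarith
  obtain ⟨lam, hlam⟩ : ∃ lam : ℝ, lam = L * V := ⟨_, rfl⟩
  have hlamδ : lam ≤ δ0 := by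
    have h1 : (L : ℝ) ≤ δ0 / V := by
      rw [hLd]
      exact Nat.floor_le (by positivity)
    rw [le_div_iff₀ hV] at h1
    rw [hlam]
    exact h1
  have hlamlow : δ0 / 2 ≤ lam := by
    have h1 : δ0 / V < L + 1 := by
      rw [hLd]
      exact Nat.lt_floor_add_one _
    rw [div_lt_iff₀ hV] at h1
    rw [hlam]
    linarith
  have hlam0 : 0 < lam := by linarith
  have hlamD : R ≤ lam * D := by
    rw [div_le_iff₀ hδpos] at hD
    have h1 : δ0 / 2 * D ≤ lam * D := mul_le_mul_of_nonneg_right hlamlow (Nat.cast_nonneg D)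
    linarith
  have hx' : ((s * D * L : ℕ) : ℝ) * V ≤ s * D * δ0 := by
    have h1 : (s : ℝ) * D * lam ≤ s * D * δ0 := mul_le_mul_of_nonneg_left hlamδ (by positivity)
    have e : ((s * D * L : ℕ) : ℝ) * V = s * D * lam := by
      rw [hlam]
      push_cast
      ring
    rw [e]
    exact h1
  obtain ⟨W, hW⟩ : ∃ W : ℝ, W = Y * V := ⟨_, rfl⟩
  have hW0 : 0 ≤ W := by rw [hW]; positivity
  -- the total number
  have htot : |(((Ioc Z (Z + Y)).filter g).card : ℝ) - W| ≤ ε' * W := by
    have h := hP (fun _ => 0) (fun _ => 0) (fun _ => le_rfl) (fun _ => by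
      rw [Nat.cast_zero, zero_mul]
      positivity) (fun _ _ _ => Or.inl le_rfl) (fun _ => {0})
    have e1 : (Ioc Z (Z + Y)).filter (fun m => g m ∧
        ∀ _ : Fin (s + s), ((Ioc (m + 0) (m + 0)).filter g).card ∈ ({0} : Finset ℕ)) =
        (Ioc Z (Z + Y)).filter g := by
      apply Finset.filter_congr
      intro m _
      simp
    rw [e1] at h
    have e2 : ∏ _j : Fin (s + s), pois ((((0 : ℕ) : ℝ) - ((0 : ℕ) : ℝ)) * V) {0} = 1 := by
      apply Finset.prod_eq_one
      intro j _
      rw [pois_zero]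
      simp
    rw [e2, mul_one, ← hW] at h
    exact h
  -- the cells
  have hcell := fun (a : Fin s → ℕ) (ha : ∀ i, 1 ≤ a i) =>
    count_cells g Z Y L D V _ ε' hε'0.le hV hx' hP a ha
  rw [← hW] at hcell
  rw [← hlam] at hcell
  obtain ⟨kk, hk1, hk2⟩ : ∃ kk : Fin s → ℕ, (∀ i, kk i * L ≤ t i) ∧ ∀ i, t i < (kk i + 1) * L :=
    ⟨fun i => t i / L, fun i => Nat.div_mul_le_self _ _, fun i => by
      have := Nat.lt_div_mul_add (a := t i) (b := L) hL
      rw [add_mul, one_mul]
      exact this⟩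
  have hlo := hcell (fun i => kk i + 2) (fun i => by omega)
  have hhi := hcell (fun i => max 1 (kk i)) (fun i => le_max_left _ _)
  have hall := hcell (fun _ => 1) (fun _ => le_rfl)
  obtain ⟨A, hA⟩ : ∃ A : Finset ℕ, A = (Ioc Z (Z + Y)).filter (fun m => g m ∧ ∀ j : Fin s,
          t j < (nx g)^[(j : ℕ) + 1] m - (nx g)^[(j : ℕ)] m) := ⟨_, rfl⟩
  obtain ⟨C, hC⟩ : ∃ C : (Fin s → ℕ) → Finset ℕ, C = fun d =>
    (Ioc Z (Z + Y)).filter (fun m => g m ∧ Ev g L d m) := ⟨_, rfl⟩
  have hdisj : ∀ S : Finset (Fin s → ℕ), (∀ d ∈ S, ∀ i, 1 ≤ d i) →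
      (S : Set (Fin s → ℕ)).PairwiseDisjoint C := by
    intro S hS d hd d' hd' hne
    rw [Function.onFun, Finset.disjoint_left, hC]
    intro m h1 h2
    rw [mem_filter] at h1 h2
    exact hne (ev_inj g L hL d d' (hS d hd) (hS d' hd') m h1.2.2 h2.2.2)
  have hlow : ∑ d ∈ Fintype.piFinset (fun i => Icc (kk i + 2) D), (C d).card ≤ A.card := by
    have hS : ∀ d ∈ Fintype.piFinset (fun i => Icc (kk i + 2) D), ∀ i, 1 ≤ d i := by
      intro d hd i
      have := (mem_Icc.1 (Fintype.mem_piFinset.1 hd i)).1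
      omega
    rw [← Finset.card_biUnion (fun d hd d' hd' hne => hdisj _ hS hd hd' hne)]
    apply card_le_card
    intro m hm
    rw [mem_biUnion] at hm
    obtain ⟨d, hd, hm⟩ := hm
    rw [hC, mem_filter] at hm
    rw [hA, mem_filter]
    refine ⟨hm.1, hm.2.1, fun i => ?_⟩
    have h1 := (gap_bounds g L hL d (hS d hd) m hm.2.2 i).1
    have h2 := (mem_Icc.1 (Fintype.mem_piFinset.1 hd i)).1
    have h3 := hk2 i
    have h4 : (kk i + 1) * L ≤ (d i - 1) * L := Nat.mul_le_mul_right L (by omega)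
    omega
  have hupp : A.card + ∑ d ∈ Fintype.piFinset (fun _ : Fin s => Icc 1 D), (C d).card ≤
      ((Ioc Z (Z + Y)).filter g).card +
        ∑ d ∈ Fintype.piFinset (fun i => Icc (max 1 (kk i)) D), (C d).card := by
    have hsub : Fintype.piFinset (fun i => Icc (max 1 (kk i)) D) ⊆
        Fintype.piFinset (fun _ : Fin s => Icc 1 D) := by
      apply Fintype.piFinset_subset
      intro i
      exact Finset.Icc_subset_Icc (le_max_left _ _) le_rfl
    rw [← Finset.sum_sdiff hsub, ← add_assoc]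
    apply Nat.add_le_add_right
    have hS : ∀ d ∈ Fintype.piFinset (fun _ : Fin s => Icc 1 D) \
        Fintype.piFinset (fun i => Icc (max 1 (kk i)) D), ∀ i, 1 ≤ d i := by
      intro d hd i
      rw [mem_sdiff] at hd
      exact (mem_Icc.1 (Fintype.mem_piFinset.1 hd.1 i)).1
    rw [← Finset.card_biUnion (fun d hd d' hd' hne => hdisj _ hS hd hd' hne),
      ← Finset.card_union_of_disjoint]
    · apply card_le_card
      intro m hm
      rw [mem_union, mem_biUnion] at hm
      rw [mem_filter]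
      rcases hm with hm | ⟨d, hd, hm⟩
      · rw [hA, mem_filter] at hm
        exact ⟨hm.1, hm.2.1⟩
      · rw [hC, mem_filter] at hm
        exact ⟨hm.1, hm.2.1⟩
    · rw [Finset.disjoint_left]
      intro m hm1 hm2
      rw [mem_biUnion] at hm2
      obtain ⟨d, hd, hm2⟩ := hm2
      rw [hC, mem_filter] at hm2
      rw [hA, mem_filter] at hm1
      have hd' := hd
      rw [mem_sdiff, Fintype.mem_piFinset, Fintype.mem_piFinset, not_forall] at hd'
      obtain ⟨h1, i, h2⟩ := hd'
      have h3 := mem_Icc.1 (h1 i)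
      rw [mem_Icc, not_and_or] at h2
      have h4 : d i + 1 ≤ kk i := by
        rcases h2 with h2 | h2
        · have h5 : ¬ (1 ≤ d i ∧ kk i ≤ d i) := fun h => h2 (max_le h.1 h.2)
          omega
        · exact absurd h3.2 h2
      have h5 := (gap_bounds g L hL d (hS d hd) m hm2.2.2 i).2
      have h6 := hm1.2.2 i
      have h7 : (d i + 1) * L ≤ t i := (Nat.mul_le_mul_right L h4).trans (hk1 i)
      omega
  have hlowR : ∑ d ∈ Fintype.piFinset (fun i => Icc (kk i + 2) D), ((C d).card : ℝ) ≤ A.card := by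
    exact_mod_cast hlow
  have huppR : (A.card : ℝ) + ∑ d ∈ Fintype.piFinset (fun _ : Fin s => Icc 1 D), ((C d).card : ℝ) ≤
      (((Ioc Z (Z + Y)).filter g).card : ℝ) +
        ∑ d ∈ Fintype.piFinset (fun i => Icc (max 1 (kk i)) D), ((C d).card : ℝ) := by
    exact_mod_cast hupp
  rw [hC] at hlowR huppR
  rw [← hA]
  obtain ⟨P0, hP0⟩ : ∃ P0 : ℝ, P0 = ∏ j : Fin s, Real.exp (-(t j * V)) := ⟨_, rfl⟩
  rw [← hP0, ← hW]
  obtain ⟨η, hη⟩ : ∃ η : ℝ, η = 3 * lam + Real.exp (-(lam * D)) := ⟨_, rfl⟩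
  have hLr : (1 : ℝ) ≤ L := by exact_mod_cast hL
  have hexp01 : ∀ j : Fin s, 0 ≤ Real.exp (-(t j * V)) ∧ Real.exp (-(t j * V)) ≤ 1 := fun j =>
    ⟨(Real.exp_pos _).le, Real.exp_le_one_iff.2 (by
      have : 0 ≤ (t j : ℝ) * V := by positivity
      linarith)⟩
  have hdiv : ∀ i, (kk i : ℝ) * L ≤ t i ∧ (t i : ℝ) ≤ (kk i : ℝ) * L + L := by
    intro i
    have h1 := hk1 i
    have h2 := (hk2 i).le
    rw [add_mul, one_mul] at h2
    constructor
    · exact_mod_cast h1
    · exact_mod_cast h2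
  have k1 : |∏ i, Gs lam (kk i + 2) D - P0| ≤ s * η := by
    have h := prod_diff Finset.univ (fun i : Fin s => Gs lam (kk i + 2) D)
      (fun j => Real.exp (-(t j * V))) (fun i => (Gs_bd lam hlam0 _ D (by omega)).1)
      (fun i => (Gs_bd lam hlam0 _ D (by omega)).2.1) (fun j => (hexp01 j).1) (fun j => (hexp01 j).2)
      η (fun i => by
        rw [hη]
        apply Gs_close lam V hV.le L D (t i) _ hlam hlam0 (by omega)
        · have := (hdiv i).1
          push_cast
          linarith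
        · have := (hdiv i).2
          push_cast
          linarith)
    rw [card_univ, Fintype.card_fin, ← hP0] at h
    exact h
  have k2 : |∏ i, Gs lam (max 1 (kk i)) D - P0| ≤ s * η := by
    have h := prod_diff Finset.univ (fun i : Fin s => Gs lam (max 1 (kk i)) D)
      (fun j => Real.exp (-(t j * V))) (fun i => (Gs_bd lam hlam0 _ D (le_max_left _ _)).1)
      (fun i => (Gs_bd lam hlam0 _ D (le_max_left _ _)).2.1) (fun j => (hexp01 j).1)
      (fun j => (hexp01 j).2) η (fun i => by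
        rw [hη]
        apply Gs_close lam V hV.le L D (t i) _ hlam hlam0 (le_max_left _ _)
        · have h1 := (hdiv i).1
          have h2 : ((max 1 (kk i) : ℕ) : ℝ) ≤ (kk i : ℝ) + 1 := by
            exact_mod_cast max_le (by omega) (by omega)
          have h3 := mul_le_mul_of_nonneg_right h2 (by linarith : (0 : ℝ) ≤ L)
          linarith
        · have h1 := (hdiv i).2
          have h2 : (kk i : ℝ) ≤ ((max 1 (kk i) : ℕ) : ℝ) := by
            exact_mod_cast le_max_right _ _
          have h3 := mul_le_mul_of_nonneg_right h2 (by linarith : (0 : ℝ) ≤ L)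
          linarith)
    rw [card_univ, Fintype.card_fin, ← hP0] at h
    exact h
  have k3 : |∏ _i : Fin s, Gs lam 1 D - 1| ≤ s * η := by
    have h := prod_diff Finset.univ (fun _ : Fin s => Gs lam 1 D)
      (fun _ => (1 : ℝ)) (fun i => (Gs_bd lam hlam0 _ D le_rfl).1)
      (fun i => (Gs_bd lam hlam0 _ D le_rfl).2.1) (fun _ => zero_le_one) (fun _ => le_rfl) η
      (fun i => by
        rw [hη]
        have h2 := Gs_close lam V hV.le L D 0 1 hlam hlam0 le_rfl (by push_cast; linarith)
          (by push_cast; linarith)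
        rw [Nat.cast_zero, zero_mul, neg_zero, Real.exp_zero] at h2
        exact h2)
    rw [card_univ, Fintype.card_fin, Finset.prod_const_one] at h
    exact h
  have hηε : 2 * (s * η) + (2 * (D : ℝ) ^ s + 1) * ε' ≤ ε := by
    have h1 : (2 * (D : ℝ) ^ s + 1) * ε' = ε / 4 := by
      rw [hε']
      field_simp
    have h2 : Real.exp (-(lam * D)) ≤ ε / (8 * (s + 1)) :=
      (Real.exp_le_exp.2 (by linarith)).trans hRe
    have h3 : (s : ℝ) * (ε / (8 * (s + 1))) ≤ ε / 8 := by
      rw [mul_div_assoc', div_le_div_iff₀ (by positivity) (by norm_num)]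
      nlinarith
    have h4 : (s : ℝ) * δ0 ≤ ε / 24 := by
      rw [hδ0, mul_div_assoc', div_le_div_iff₀ (by positivity) (by norm_num)]
      nlinarith
    have h5 : (s : ℝ) * η ≤ 3 * (s * δ0) + s * (ε / (8 * (s + 1))) := by
      rw [hη]
      have h6 : (s : ℝ) * lam ≤ s * δ0 := mul_le_mul_of_nonneg_left hlamδ hs0
      have h7 : (s : ℝ) * Real.exp (-(lam * D)) ≤ s * (ε / (8 * (s + 1))) :=
        mul_le_mul_of_nonneg_left h2 hs0
      linarith
    rw [h1]
    linarith
  have hfin := mul_le_mul_of_nonneg_right hηε hW0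
  obtain ⟨l1, l2⟩ := abs_le.1 hlo
  obtain ⟨u1, u2⟩ := abs_le.1 hhi
  obtain ⟨a1, a2⟩ := abs_le.1 hall
  obtain ⟨t1, t2⟩ := abs_le.1 htot
  obtain ⟨m1, m2⟩ := abs_le.1 k1
  obtain ⟨n1, n2⟩ := abs_le.1 k2
  obtain ⟨o1, o2⟩ := abs_le.1 k3
  have m1' := mul_le_mul_of_nonneg_left m1 hW0
  have n2' := mul_le_mul_of_nonneg_left n2 hW0
  have o1' := mul_le_mul_of_nonneg_left o1 hW0
  have hDs : 0 ≤ (D : ℝ) ^ s * (ε' * W) := by positivity
  have hsη : 0 ≤ (s : ℝ) * η * W := by
    have : 0 < η := by rw [hη]; positivity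
    positivity
  have hεW : 0 ≤ ε' * W := by positivity
  rw [abs_le]
  constructor
  · nlinarith
  · nlinarith

end Pool.Agent.TH464.PO
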