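import Pool.Agent.TH464.PO.Gap
import Pool.Agent.TH464.PO.Ext

set_option autoImplicit false

/-!
# The gap laws
-/

namespace Pool.Agent.TH464.PO

open Finset Filter
open Pool.Agent.W123.RP Pool.Agent.H373R2.T7 Pool.Agent.W123.RU Pool.Agent.W123.RU.Poly
open Pool.Agent.TH464.PW

open Classical in
theorem gap_of_law (g : ℕ → Prop) (X Y k : ℕ) (V x1 η η1 δ : ℝ) (hV : 0 < V) (hδ : 0 < δ)
    (hVδ : V ≤ δ) (hη : 0 ≤ η) (hη1 : 0 ≤ η1)
    (hlaw : ∀ T : ℕ, T * V ≤ x1 → ∀ A : Finset ℕ,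
      |(((Ioc X (X + Y)).filter (fun n => Wc g n T ∈ A)).card : ℝ) -
        Y * ∑ j ∈ A, Real.exp (-(T * V)) * (T * V) ^ j / j.factorial| ≤ η * Y)
    (htot : (((Ioc X (X + Y)).filter g).card : ℝ) ≤ (1 + η1) * (Y * V))
    (hbd : x1 / V ≤ η1 * (Y * V)) (T : ℕ) (hT : T * V + 2 * δ ≤ x1) :
    |(Pk g k T X Y : ℝ) - Y * V * Ck k (T * V)| ≤ (2 * δ + 2 * k ^ 2 * η / δ + η1) * (Y * V) := by
  obtain ⟨Δ, h1, h2, h3⟩ := exists_window V δ hV hVδ
  have hΔ0 : (0 : ℝ) < Δ := by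
    by_contra hcon
    rw [not_lt] at hcon
    nlinarith
  have hY0 : (0 : ℝ) ≤ Y := Nat.cast_nonneg Y
  have hT0 : (0 : ℝ) ≤ T := Nat.cast_nonneg T
  have hTV : 0 ≤ T * V := mul_nonneg hT0 hV.le
  have hYV : 0 ≤ Y * V := mul_nonneg hY0 hV.le
  have hk0 : (0 : ℝ) ≤ k := Nat.cast_nonneg k
  have hcard : ((Ioc X (X + Y)).card : ℝ) = Y := by
    rw [Nat.card_Ioc]
    congr 1
    omega
  have hS : ∀ T' : ℕ, T' * V ≤ x1 →
      |∑ n ∈ Ioc X (X + Y), (min k (Wc g n T') : ℝ) - (k * Y - Y * Sk k (T' * V))| ≤ k ^ 2 * η * Y := by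
    intro T' hT'
    have := min_sum_law (Ioc X (X + Y)) (fun n => Wc g n T') k (T' * V) η (by
      intro A
      rw [hcard]
      exact hlaw T' hT' A)
    rw [hcard] at this
    exact this
  have hcost : 2 * (k ^ 2 * η * Y) ≤ Δ * (2 * k ^ 2 * η / δ * (Y * V)) := by
    have e : Δ * (2 * k ^ 2 * η / δ * (Y * V)) = 2 * (k ^ 2 * η * Y) * ((Δ * V) / δ) := by
      field_simp
    rw [e]
    have h4 : 1 ≤ (Δ * V) / δ := by rwa [le_div_iff₀ hδ, one_mul]
    have h5 : 0 ≤ 2 * (k ^ 2 * η * Y) := by positivity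
    nlinarith
  -- the lower bound
  have hlow : Y * V * Ck k (T * V) - (2 * δ + 2 * k ^ 2 * η / δ + η1) * (Y * V) ≤ Pk g k T X Y := by
    have hTΔ : ((T + Δ : ℕ) : ℝ) * V ≤ x1 := by
      push_cast
      nlinarith
    have ha := (abs_le.1 (hS (T + Δ) hTΔ)).1
    have hb := (abs_le.1 (hS T (by nlinarith))).2
    have hc := dc_upper g k T Δ X Y
    have hd := (Sk_diff k (T * V) (Δ * V) hTV (by positivity)).2
    have e : T * V + Δ * V = ((T + Δ : ℕ) : ℝ) * V := by push_cast; ring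
    rw [e] at hd
    have he : (T : ℝ) + Δ ≤ η1 * (Y * V) := by
      refine le_trans ?_ hbd
      rw [le_div_iff₀ hV]
      push_cast at hTΔ
      exact hTΔ
    have hf := mul_le_mul_of_nonneg_left hd hY0
    have hg : Y * (Δ * V * (Ck k (T * V) - 2 * δ)) ≤ Y * (Δ * V * (Ck k (T * V) - Δ * V)) := by
      apply mul_le_mul_of_nonneg_left _ hY0
      apply mul_le_mul_of_nonneg_left _ (by positivity)
      linarith
    have hh := mul_le_mul_of_nonneg_left he hΔ0.le
    apply le_of_mul_le_mul_left _ hΔ0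
    linarith
  have hup : (Pk g k T X Y : ℝ) ≤ Y * V * Ck k (T * V) + (2 * δ + 2 * k ^ 2 * η / δ + η1) * (Y * V) := by
    by_cases hΔT : Δ ≤ T
    · obtain ⟨t, ht⟩ : ∃ t, T = t + Δ := ⟨T - Δ, by omega⟩
      have ht0 : (0 : ℝ) ≤ t := Nat.cast_nonneg t
      have eT : (T : ℝ) = t + Δ := by rw [ht]; push_cast; ring
      have htV : (t : ℝ) * V ≤ x1 := by
        rw [eT] at hT
        nlinarith
      have ha := (abs_le.1 (hS T (by nlinarith))).2
      have hb := (abs_le.1 (hS t htV)).1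
      have hc := dc_lower g k t Δ X Y
      rw [← ht, ← eT] at hc
      have hd := (Sk_diff k (t * V) (Δ * V) (by positivity) (by positivity)).1
      have hd' := (Ck_lip k (t * V) (Δ * V) (by positivity) (by positivity)).2
      have e : t * V + Δ * V = T * V := by rw [eT]; ring
      rw [e] at hd hd'
      have he : (T : ℝ) ≤ η1 * (Y * V) := by
        refine le_trans ?_ hbd
        rw [le_div_iff₀ hV]
        linarith
      have hf := mul_le_mul_of_nonneg_left hd hY0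
      have hg : Y * (Δ * V * Ck k (t * V)) ≤ Y * (Δ * V * (Ck k (T * V) + 2 * δ)) := by
        apply mul_le_mul_of_nonneg_left _ hY0
        apply mul_le_mul_of_nonneg_left _ (by positivity)
        linarith
      have hh := mul_le_mul_of_nonneg_left he hΔ0.le
      apply le_of_mul_le_mul_left _ hΔ0
      linarith
    · rw [not_le] at hΔT
      have hTΔr : (T : ℝ) ≤ Δ := by exact_mod_cast hΔT.le
      have hx : T * V ≤ 2 * δ := (mul_le_mul_of_nonneg_right hTΔr hV.le).trans h2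
      have hq : 0 ≤ 2 * k ^ 2 * η / δ := by positivity
      rcases k with _ | k
      · have e : (Pk g 0 T X Y : ℝ) = 0 := by
          unfold Pk
          simp
        rw [e]
        have hC := Ck_nonneg 0 (T * V) hTV
        positivity
      · have hP : (Pk g (k + 1) T X Y : ℝ) ≤ (((Ioc X (X + Y)).filter g).card : ℝ) := by
          have : Pk g (k + 1) T X Y ≤ ((Ioc X (X + Y)).filter g).card := by
            unfold Pk
            apply card_le_card
            intro b hb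
            rw [mem_filter] at hb ⊢
            exact ⟨hb.1, hb.2.1⟩
          exact_mod_cast this
        have hC : 1 - 2 * δ ≤ Ck (k + 1) (T * V) := by
          have h5 := Ck_mono_k 1 (k + 1) (by omega) (T * V) hTV
          have h6 : Ck 1 (T * V) = Real.exp (-(T * V)) := by
            unfold Ck pw
            simp
          have h7 := Real.add_one_le_exp (-(T * V))
          linarith
        have h8 := mul_le_mul_of_nonneg_left hC hYV
        have h9 : 0 ≤ 2 * ((k + 1 : ℕ) : ℝ) ^ 2 * η / δ * (Y * V) := mul_nonneg hq hYV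
        linarith
  rw [abs_le]
  constructor <;> linarith

open Classical in
lemma Pk_le_tot (g : ℕ → Prop) (k T X Y : ℕ) :
    Pk g k T X Y ≤ ((Ioc X (X + Y)).filter g).card := by
  unfold Pk
  apply card_le_card
  intro b hb
  rw [mem_filter] at hb ⊢
  exact ⟨hb.1, hb.2.1⟩

lemma Pk_mono_k (g : ℕ → Prop) (k l T X Y : ℕ) (h : k ≤ l) : Pk g k T X Y ≤ Pk g l T X Y := by
  classical
  unfold Pk
  apply card_le_card
  intro b hb
  rw [mem_filter] at hb ⊢
  exact ⟨hb.1, hb.2.1, by omega⟩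

lemma Pk_anti_T (g : ℕ → Prop) (k T T' X Y : ℕ) (h : T ≤ T') : Pk g k T' X Y ≤ Pk g k T X Y := by
  classical
  unfold Pk
  apply card_le_card
  intro b hb
  rw [mem_filter] at hb ⊢
  refine ⟨hb.1, hb.2.1, lt_of_le_of_lt (card_le_card ?_) hb.2.2⟩
  intro m hm
  rw [mem_filter, mem_Ico] at hm ⊢
  exact ⟨by omega, hm.2⟩

lemma Ck_anti (k : ℕ) (x y : ℝ) (hx : 0 ≤ x) (hxy : x ≤ y) : Ck k y ≤ Ck k x := by
  have := (Ck_lip k x (y - x) hx (by linarith)).1
  rwa [show x + (y - x) = y by ring] at this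

lemma Ck_tendsto (k : ℕ) : Tendsto (Ck k) atTop (nhds 0) := by
  have h : ∀ j ∈ range k, Tendsto (fun x => pw j x) atTop (nhds 0) := by
    intro j _
    have h1 := Real.tendsto_pow_mul_exp_neg_atTop_nhds_zero j
    have h2 := h1.div_const (j.factorial : ℝ)
    rw [zero_div] at h2
    refine h2.congr ?_
    intro x
    unfold pw
    ring
  have := tendsto_finsetSum (range k) h
  rw [Finset.sum_const_zero] at this
  exact this

lemma one_sub_Ck (k : ℕ) (x : ℝ) (hx : 0 ≤ x) : 1 - x ^ k / k.factorial ≤ Ck k x := by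
  have h := exp_tail x hx k
  have e : Ck k x = Real.exp (-x) * ∑ j ∈ range k, x ^ j / (j.factorial : ℝ) := by
    unfold Ck pw
    rw [Finset.mul_sum]
    exact Finset.sum_congr rfl fun j _ => by ring
  have h1 : Real.exp (-x) * Real.exp x = 1 := by rw [← Real.exp_add]; simp
  have h2 := mul_le_mul_of_nonneg_left h (Real.exp_pos (-x)).le
  have h3 : Real.exp (-x) * (Real.exp x - ∑ i ∈ range k, x ^ i / (i.factorial : ℝ)) =
      1 - Real.exp (-x) * ∑ i ∈ range k, x ^ i / (i.factorial : ℝ) := by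
    rw [mul_sub, h1]
  have h4 : Real.exp (-x) * (x ^ k / (k.factorial : ℝ) * Real.exp x) = x ^ k / (k.factorial : ℝ) := by
    rw [mul_comm, mul_assoc, mul_comm (Real.exp x), h1, mul_one]
  rw [h3, h4] at h2
  rw [e]
  linarith

open Classical in
/-- **The gap laws**, for the `k`-th neighbours and for all distances. -/
theorem gap_all (k0 : ℕ) (x0 ε : ℝ) (hε : 0 < ε) : ∃ x1 η : ℝ, 0 < x1 ∧ 0 < η ∧
    ∀ (g : ℕ → Prop) (X Y : ℕ) (V : ℝ), 0 < V → V ≤ η →
    (∀ T : ℕ, T * V ≤ x1 → ∀ A : Finset ℕ,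
      |(((Ioc X (X + Y)).filter (fun n => Wc g n T ∈ A)).card : ℝ) -
        Y * ∑ j ∈ A, Real.exp (-(T * V)) * (T * V) ^ j / j.factorial| ≤ η * Y) →
    (((Ioc X (X + Y)).filter g).card : ℝ) ≤ (1 + η) * (Y * V) →
    x1 / V ≤ η * (Y * V) → ∀ k T : ℕ, (k ≤ k0 ∨ T * V ≤ x0) →
    |(Pk g k T X Y : ℝ) - Y * V * Ck k (T * V)| ≤ ε * (Y * V) := by
  -- the range of the distances
  obtain ⟨x2, hx20, hx2⟩ : ∃ x2 : ℝ, 0 ≤ x2 ∧ Ck k0 x2 ≤ ε / 4 := by
    have := (Ck_tendsto k0).eventually (ge_mem_nhds (show (0 : ℝ) < ε / 4 by positivity))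
    obtain ⟨x2, h1, h2⟩ := (this.and (eventually_ge_atTop 0)).exists
    exact ⟨x2, h2, h1⟩
  obtain ⟨x3, hx3⟩ : ∃ x3 : ℝ, x3 = max x0 0 + x2 + 1 := ⟨_, rfl⟩
  have hx30 : 0 ≤ x3 := by
    rw [hx3]
    have := le_max_right x0 0
    linarith
  have hx03 : x0 ≤ x3 := by
    rw [hx3]
    have := le_max_left x0 0
    linarith
  have hx23 : x2 + 1 ≤ x3 := by
    rw [hx3]
    have := le_max_right x0 0
    linarith
  obtain ⟨K1, hK1⟩ := exists_small x3 1 (ε / 4) (by positivity)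
  obtain ⟨K, hK⟩ : ∃ K : ℕ, K = max K1 k0 + 1 := ⟨_, rfl⟩
  have hKK1 : K1 ≤ K := by omega
  have hKk0 : k0 ≤ K := by omega
  have hKpos : (0 : ℝ) < K := by exact_mod_cast (by omega : 0 < K)
  obtain ⟨δ, hδ⟩ : ∃ δ : ℝ, δ = min (ε / 16) (1 / 2) := ⟨_, rfl⟩
  have hδ0 : 0 < δ := by rw [hδ]; positivity
  have hδ1 : δ ≤ ε / 16 := by rw [hδ]; exact min_le_left _ _
  have hδ2 : δ ≤ 1 / 2 := by rw [hδ]; exact min_le_right _ _
  obtain ⟨η, hη⟩ : ∃ η : ℝ, η = min (min δ (ε / 16)) (ε * δ / (32 * K ^ 2)) := ⟨_, rfl⟩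
  have hη0 : 0 < η := by rw [hη]; positivity
  have hη1 : η ≤ δ := by rw [hη]; exact (min_le_left _ _).trans (min_le_left _ _)
  have hη2 : η ≤ ε / 16 := by rw [hη]; exact (min_le_left _ _).trans (min_le_right _ _)
  have hη3 : η ≤ ε * δ / (32 * K ^ 2) := by rw [hη]; exact min_le_right _ _
  refine ⟨x3 + 1, η, by linarith, hη0, ?_⟩
  intro g X Y V hV hVη hlaw htot hbd
  have hYV : 0 ≤ Y * V := mul_nonneg (Nat.cast_nonneg Y) hV.le
  -- the main range
  have hmain : ∀ k T : ℕ, k ≤ K → T * V ≤ x3 →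
      |(Pk g k T X Y : ℝ) - Y * V * Ck k (T * V)| ≤ ε / 4 * (Y * V) := by
    intro k T hk hT
    refine (gap_of_law g X Y k V (x3 + 1) η η δ hV hδ0 (hVη.trans hη1) hη0.le hη0.le hlaw htot hbd T
      (by linarith)).trans ?_
    apply mul_le_mul_of_nonneg_right _ hYV
    have hkr : (k : ℝ) ≤ K := by exact_mod_cast hk
    have h1 : 2 * (k : ℝ) ^ 2 * η / δ ≤ ε / 16 := by
      rw [div_le_iff₀ hδ0]
      rw [le_div_iff₀ (by positivity)] at hη3
      have h2 : (k : ℝ) ^ 2 ≤ K ^ 2 := pow_le_pow_left₀ (Nat.cast_nonneg k) hkr 2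
      nlinarith
    linarith
  have htotr : ∀ k T : ℕ, (Pk g k T X Y : ℝ) ≤ (1 + η) * (Y * V) := fun k T =>
    (by exact_mod_cast Pk_le_tot g k T X Y : (Pk g k T X Y : ℝ) ≤ (((Ioc X (X + Y)).filter g).card : ℝ)).trans
      htot
  -- all `k`
  have hallk : ∀ k T : ℕ, T * V ≤ x3 →
      |(Pk g k T X Y : ℝ) - Y * V * Ck k (T * V)| ≤ ε * (Y * V) := by
    intro k T hT
    have hTV : 0 ≤ T * V := mul_nonneg (Nat.cast_nonneg T) hV.le
    by_cases hk : k ≤ K
    · refine (hmain k T hk hT).trans ?_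
      nlinarith
    · rw [not_le] at hk
      have h1 := (abs_le.1 (hmain K T le_rfl hT)).1
      have h2 : (Pk g K T X Y : ℝ) ≤ Pk g k T X Y := by exact_mod_cast Pk_mono_k g K k T X Y hk.le
      have h3 : 1 - ε / 4 ≤ Ck K (T * V) := by
        refine le_trans ?_ (one_sub_Ck K (T * V) hTV)
        have h4 := hK1 K hKK1
        rw [one_mul] at h4
        have h5 : (T * V) ^ K / (K.factorial : ℝ) ≤ x3 ^ K / (K.factorial : ℝ) := by gcongr
        linarith
      have h4 : Ck K (T * V) ≤ Ck k (T * V) := Ck_mono_k K k hk.le _ hTV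
      have h5 : Ck k (T * V) ≤ 1 := Ck_le_one k _ hTV
      have h6 := htotr k T
      have h7 := mul_le_mul_of_nonneg_left h3 hYV
      have h8 := mul_le_mul_of_nonneg_left h4 hYV
      have h9 := mul_le_mul_of_nonneg_left h5 hYV
      have h10 := mul_le_mul_of_nonneg_right hη2 hYV
      rw [abs_le]
      constructor
      · nlinarith
      · nlinarith
  intro k T hkT
  rcases le_or_gt (T * V) x3 with h | h
  · exact hallk k T h
  · have hk : k ≤ k0 := by
      rcases hkT with h1 | h1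
      · exact h1
      · linarith
    have hTV : 0 ≤ T * V := mul_nonneg (Nat.cast_nonneg T) hV.le
    obtain ⟨T', hT'⟩ : ∃ T' : ℕ, T' = ⌊x3 / V⌋₊ := ⟨_, rfl⟩
    have h1 : T' * V ≤ x3 := by
      have := Nat.floor_le (show 0 ≤ x3 / V by positivity)
      rw [← hT', le_div_iff₀ hV] at this
      exact this
    have h2 : x2 ≤ T' * V := by
      have := Nat.lt_floor_add_one (x3 / V)
      rw [← hT', div_lt_iff₀ hV] at this
      nlinarith
    have h3 : T' ≤ T := by
      have : (T' : ℝ) < T := lt_of_mul_lt_mul_right (lt_of_le_of_lt h1 h) hV.le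
      exact_mod_cast this.le
    have h4 := (abs_le.1 (hmain k T' (hk.trans hKk0) h1)).2
    have h5 : (Pk g k T X Y : ℝ) ≤ Pk g k T' X Y := by exact_mod_cast Pk_anti_T g k T' T X Y h3
    have h6 : Ck k (T' * V) ≤ ε / 4 :=
      ((Ck_mono_k k k0 hk _ (by positivity)).trans (Ck_anti k0 x2 (T' * V) hx20 h2)).trans hx2
    have h7 : Ck k (T * V) ≤ ε / 4 :=
      ((Ck_mono_k k k0 hk _ hTV).trans (Ck_anti k0 x2 (T * V) hx20 (by linarith))).trans hx2
    have h8 := Ck_nonneg k (T * V) hTV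
    have h9 : (0 : ℝ) ≤ Pk g k T X Y := Nat.cast_nonneg _
    have h10 := mul_le_mul_of_nonneg_left h6 hYV
    have h11 := mul_le_mul_of_nonneg_left h7 hYV
    have h12 := mul_nonneg hYV h8
    rw [abs_le]
    constructor
    · nlinarith
    · nlinarith

end Pool.Agent.TH464.PO
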