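import Pool.Agent.TH464.PO.GapLaw

set_option autoImplicit false

/-!
# The laws for general conditions, in all intervals
-/

namespace Pool.Agent.TH464.PO

open Finset Filter
open Pool.Agent.W123.RP Pool.Agent.H373R2.T7 Pool.Agent.W123.RU

/-- the shifted condition -/
def Qt (Q : ℕ → ℕ → Prop) (s p m : ℕ) : Prop := Q p (m + s)

lemma nuB_Qt (Q : ℕ → ℕ → Prop) (c : ℕ) (hQ : PerB Q c) (s p : ℕ) : nuB (Qt Q s) p = nuB Q p := by
  rw [← nuB_shift Q c hQ s p]
  rfl

lemma perB_Qt (Q : ℕ → ℕ → Prop) (c : ℕ) (hQ : PerB Q c) (s : ℕ) : PerB (Qt Q s) c := by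
  refine ⟨fun p n => ?_, fun p hp => ?_⟩
  · unfold Qt
    rw [hQ.per p (n + s), hQ.per p (n % p + s)]
    rw [Nat.mod_add_mod]
  · rw [nuB_Qt Q c hQ]
    exact hQ.few p hp

lemma Vq_Qt (Q : ℕ → ℕ → Prop) (c : ℕ) (hQ : PerB Q c) (s y : ℕ) : Vq (Qt Q s) y = Vq Q y := by
  unfold Vq
  exact Finset.prod_congr rfl fun p _ => by rw [nuB_Qt Q c hQ]

lemma sf_Qt (Q : ℕ → ℕ → Prop) (s y m : ℕ) : Sf (Qt Q s) y m ↔ Sf Q y (m + s) := Iff.rfl

open Classical in
lemma Nw_Qt (Q : ℕ → ℕ → Prop) (y T s n : ℕ) : Nw (Qt Q s) y T n = Wc (Sf Q y) (n + s) T := by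
  unfold Nw Wc
  apply Finset.card_bij (fun h _ => n + s + h)
  · intro h hh
    rw [mem_filter, mem_Icc] at hh
    rw [mem_filter, mem_Ioc]
    refine ⟨by omega, ?_⟩
    have := (sf_Qt Q s y (n + h)).1 hh.2
    rwa [show n + h + s = n + s + h by ring] at this
  · intro a _ b _ hab
    omega
  · intro m hm
    rw [mem_filter, mem_Ioc] at hm
    refine ⟨m - (n + s), ?_, by omega⟩
    rw [mem_filter, mem_Icc]
    refine ⟨by omega, ?_⟩
    rw [sf_Qt]
    rw [show n + (m - (n + s)) + s = m by omega]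
    exact hm.2

lemma Wc_mono (g : ℕ → Prop) (n T T' : ℕ) (h : T ≤ T') : Wc g n T ≤ Wc g n T' := by
  classical
  unfold Wc
  apply card_le_card
  intro m hm
  rw [mem_filter, mem_Ioc] at hm ⊢
  exact ⟨⟨hm.1.1, by omega⟩, hm.2⟩

open Classical in
/-- **The Poisson law** in all intervals and for all windows of bounded mean. -/
theorem gen_law (c : ℕ) (hc : 1 ≤ c) (x0 ε : ℝ) (hε : 0 < ε) :
    ∃ (K0 y0 T0 R0 : ℕ) (η' κ : ℝ), 0 < η' ∧ 0 < κ ∧ κ ≤ 1 / 2 ∧
      ∀ (Q : ℕ → ℕ → Prop) (Z Y y : ℕ), PerB Q c → (∀ p : ℕ, p.Prime → nuB Q p < p) → y0 ≤ y →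
      y ^ K0 ≤ Y → Vq Q y ≤ κ →
      (∀ T : ℕ, κ ≤ T * Vq Q y → T * Vq Q y ≤ max x0 1 → T0 ≤ T ∧ T ^ R0 ≤ Y ∧ ∀ t ∈ Icc 1 T,
        ((((pz y).filter (fun p : ℕ => T < p ∧ CoG Q p t)).card : ℕ) : ℝ) ≤ η' * T) →
      ∀ T : ℕ, T * Vq Q y ≤ x0 → ∀ A : Finset ℕ,
        |(((Ioc Z (Z + Y)).filter (fun n => Wc (Sf Q y) n T ∈ A)).card : ℝ) -
          Y * ∑ j ∈ A, Real.exp (-(T * Vq Q y)) * (T * Vq Q y) ^ j / j.factorial| ≤ ε * Y := by
  obtain ⟨κ, hκ⟩ : ∃ κ, κ = min (ε / 8) (1 / 2) := ⟨_, rfl⟩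
  have hκ0 : 0 < κ := by rw [hκ]; positivity
  have hκ1 : κ ≤ ε / 8 := by rw [hκ]; exact min_le_left _ _
  have hκ2 : κ ≤ 1 / 2 := by rw [hκ]; exact min_le_right _ _
  obtain ⟨K0, y0, T0, R0, η', hη', hlaw⟩ := law c hc (max x0 1) (ε / 4) (by positivity) (by positivity)
  refine ⟨K0, y0, T0, R0, η', κ, hη', hκ0, hκ2, ?_⟩
  intro Q Z Y y hQ hadm hy hyY hVκ hT T hTx A
  have hV0 : 0 < Vq Q y := Vq_pos Q hadm y
  have hY0 : (0 : ℝ) ≤ Y := Nat.cast_nonneg Y
  have hmain : ∀ T : ℕ, κ ≤ T * Vq Q y → T * Vq Q y ≤ max x0 1 → ∀ A : Finset ℕ,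
      |(((Ioc Z (Z + Y)).filter (fun n => Wc (Sf Q y) n T ∈ A)).card : ℝ) -
        Y * ∑ j ∈ A, Real.exp (-(T * Vq Q y)) * (T * Vq Q y) ^ j / j.factorial| ≤ ε / 4 * Y := by
    intro T h1 h2 A
    obtain ⟨hT0, hTR, hlarge⟩ := hT T h1 h2
    have h3 := hlaw Y y T hy hyY hT0 hTR (Qt Q Z) (perB_Qt Q c hQ Z) (fun p hp => by
      rw [nuB_Qt Q c hQ]
      exact hadm p hp) (by rw [Vq_Qt Q c hQ]; exact h2) (fun t ht => by
        refine le_trans ?_ (hlarge t ht)
        have : ((pz y).filter (fun p : ℕ => T < p ∧ CoG (Qt Q Z) p t)).card ≤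
            ((pz y).filter (fun p : ℕ => T < p ∧ CoG Q p t)).card := by
          apply card_le_card
          intro p hp
          rw [mem_filter] at hp ⊢
          obtain ⟨h1, h2, m, h3, h4⟩ := hp
          refine ⟨h1, h2, m + Z, h3, ?_⟩
          unfold Qt at h4
          rwa [show m + t + Z = m + Z + t by ring] at h4
        exact_mod_cast this) A
    rw [Vq_Qt Q c hQ] at h3
    have hcount : ((Ioc Z (Z + Y)).filter (fun n => Wc (Sf Q y) n T ∈ A)).card =
        ((Icc 1 Y).filter (fun n => Nw (Qt Q Z) y T n ∈ A)).card := by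
      symm
      apply Finset.card_bij (fun n _ => n + Z)
      · intro n hn
        rw [mem_filter, mem_Icc, Nw_Qt] at hn
        rw [mem_filter, mem_Ioc]
        exact ⟨by omega, hn.2⟩
      · intro a _ b _ hab
        omega
      · intro n hn
        rw [mem_filter, mem_Ioc] at hn
        refine ⟨n - Z, ?_, by omega⟩
        rw [mem_filter, mem_Icc, Nw_Qt, show n - Z + Z = n by omega]
        exact ⟨by omega, hn.2⟩
    rw [hcount]
    exact h3
  by_cases hκT : κ ≤ T * Vq Q y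
  · refine (hmain T hκT (hTx.trans (le_max_left _ _)) A).trans ?_
    nlinarith
  · rw [not_le] at hκT
    obtain ⟨T', h1, h2, h3⟩ := exists_window (Vq Q y) κ hV0 hVκ
    have h4 := hmain T' h1 (h2.trans ((by linarith : 2 * κ ≤ 1).trans (le_max_right _ _))) {0}
    have hcard : (Y : ℝ) = ((Ioc Z (Z + Y)).card : ℝ) := by
      rw [Nat.card_Ioc]
      congr 1
      omega
    rw [hcard] at h4 ⊢
    have h5 := extend (Ioc Z (Z + Y)) (fun n => Wc (Sf Q y) n T) (fun n => Wc (Sf Q y) n T')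
      (fun n => Wc_mono (Sf Q y) n T T' (h3 T hκT)) (T * Vq Q y) (T' * Vq Q y) (ε / 4)
      (by positivity) (by linarith) h4 A
    refine h5.trans ?_
    rw [← hcard]
    nlinarith

open Classical in
/-- **The gap laws** in all intervals. -/
theorem gen_gap (c : ℕ) (hc : 1 ≤ c) (k0 : ℕ) (x0 ε : ℝ) (hε : 0 < ε) :
    ∃ (K0 y0 T0 R0 : ℕ) (η' κ x1 : ℝ), 0 < η' ∧ 0 < κ ∧ 0 < x1 ∧
      ∀ (Q : ℕ → ℕ → Prop) (Z Y y : ℕ), PerB Q c → (∀ p : ℕ, p.Prime → nuB Q p < p) → y0 ≤ y →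
      y ^ K0 ≤ Y → Vq Q y ≤ κ → √(Y : ℝ) ≤ κ * (Y * Vq Q y) → x1 / Vq Q y ≤ κ * (Y * Vq Q y) →
      (∀ T : ℕ, κ ≤ T * Vq Q y → T * Vq Q y ≤ x1 → T0 ≤ T ∧ T ^ R0 ≤ Y ∧ ∀ t ∈ Icc 1 T,
        ((((pz y).filter (fun p : ℕ => T < p ∧ CoG Q p t)).card : ℕ) : ℝ) ≤ η' * T) →
      ∀ k T : ℕ, (k ≤ k0 ∨ T * Vq Q y ≤ x0) →
        |(Pk (Sf Q y) k T Z Y : ℝ) - Y * Vq Q y * Ck k (T * Vq Q y)| ≤ ε * (Y * Vq Q y) := by
  obtain ⟨x1, η, hx1, hη, hgap⟩ := gap_all k0 x0 ε hε
  obtain ⟨K0, y0, T0, R0, η', κ, hη', hκ, hκ2, hlaw⟩ := gen_law c hc x1 η hη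
  obtain ⟨K1, y1, hK1, hfund⟩ := sys_fund c hc (η / 2) (by positivity)
  have hmin : 0 < min κ (η / 2) := by positivity
  refine ⟨K0 + K1, max y0 (y1 + 1), T0, R0, η', min κ (η / 2), max x1 1, hη', hmin, by positivity, ?_⟩
  intro Q Z Y y hQ hadm hy hyY hVκ hsq hbd hT
  have hV0 : 0 < Vq Q y := Vq_pos Q hadm y
  have hY0 : (0 : ℝ) ≤ Y := Nat.cast_nonneg Y
  have hYV : 0 ≤ Y * Vq Q y := by positivity
  have hy1 : 1 ≤ y := by
    have := (le_max_right y0 (y1 + 1)).trans hy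
    omega
  have hyK0 : y ^ K0 ≤ Y := (Nat.pow_le_pow_right hy1 (by omega)).trans hyY
  have hyK1 : y ^ K1 ≤ Y := (Nat.pow_le_pow_right hy1 (by omega)).trans hyY
  have hm1 : min κ (η / 2) ≤ κ := min_le_left _ _
  have hm2 : min κ (η / 2) ≤ η / 2 := min_le_right _ _
  refine hgap (Sf Q y) Z Y (Vq Q y) hV0 (by linarith) ?_ ?_ ?_
  · exact hlaw Q Z Y y hQ hadm ((le_max_left _ _).trans hy) hyK0 (hVκ.trans hm1)
      (fun T h1 h2 => hT T (hm1.trans h1) h2)
  · have h1 := hfund Y y (by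
      have := (le_max_right y0 (y1 + 1)).trans hy
      omega) hyK1 (Qt Q Z) (perB_Qt Q c hQ Z) Y
    have e1 : ∏ p ∈ pz y, (1 - (nuB (Qt Q Z) p : ℝ) / p) = Vq Q y := Vq_Qt Q c hQ Z y
    rw [e1] at h1
    have h2 := (abs_le.1 h1).2
    have hcount : ((Ioc Z (Z + Y)).filter (Sf Q y)).card =
        ((Icc 1 Y).filter (fun n : ℕ => ∀ p ∈ pz y, ¬ Qt Q Z p n)).card := by
      symm
      apply Finset.card_bij (fun n _ => n + Z)
      · intro n hn
        rw [mem_filter, mem_Icc] at hn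
        rw [mem_filter, mem_Ioc]
        exact ⟨by omega, hn.2⟩
      · intro a _ b _ hab
        omega
      · intro n hn
        rw [mem_filter, mem_Ioc] at hn
        refine ⟨n - Z, ?_, by omega⟩
        rw [mem_filter, mem_Icc]
        refine ⟨by omega, ?_⟩
        intro p hp
        have := hn.2 p hp
        unfold Qt
        rwa [show n - Z + Z = n by omega]
    rw [hcount]
    have h3 : min κ (η / 2) * (Y * Vq Q y) ≤ η / 2 * (Y * Vq Q y) :=
      mul_le_mul_of_nonneg_right hm2 hYV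
    linarith
  · have h3 : min κ (η / 2) * (Y * Vq Q y) ≤ η * (Y * Vq Q y) :=
      mul_le_mul_of_nonneg_right (by linarith) hYV
    refine le_trans ?_ h3
    refine le_trans ?_ hbd
    exact div_le_div_of_nonneg_right (le_max_left _ _) hV0.le

/-! ### Uniform bounds for the densities -/

/-- the lower bound depends on the number of classes only -/
theorem V_lower_unif (k : ℕ) : ∃ v : ℝ, 0 < v ∧ ∀ Q : ℕ → ℕ → Prop, PerB Q k →
    (∀ p : ℕ, p.Prime → nuB Q p < p) → ∀ y : ℕ, 2 ≤ y → v / Real.log y ^ k ≤ Vq Q y := by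
  obtain ⟨c0, hc0, hlow⟩ := prod_lower (fun p => min k (p - 2)) k (fun p _ => min_le_left _ _)
    (fun p hp => by
      have := hp.two_le
      have := min_le_right k (p - 2)
      omega)
  obtain ⟨M, hM⟩ : ∃ M : ℝ, M = ∏ p ∈ pz (k + 1), (p : ℝ)⁻¹ := ⟨_, rfl⟩
  have hM0 : 0 < M := by
    rw [hM]
    exact Finset.prod_pos fun p hp => by
      have : (0 : ℝ) < p := by exact_mod_cast (mem_pz.1 hp).2.pos
      positivity
  refine ⟨M * c0, by positivity, ?_⟩
  intro Q hQ hadm y hy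
  have h1 : ∏ p ∈ pz y, ((if p ≤ k + 1 then (p : ℝ)⁻¹ else 1) *
      (1 - ((min k (p - 2) : ℕ) : ℝ) / (p - 1 : ℝ))) ≤ Vq Q y := by
    unfold Vq
    apply Finset.prod_le_prod
    · intro p hp
      have hpp := (mem_pz.1 hp).2
      have h2 : (2 : ℝ) ≤ p := by exact_mod_cast hpp.two_le
      apply mul_nonneg
      · split_ifs <;> positivity
      · have h3 : ((min k (p - 2) : ℕ) : ℝ) ≤ (p : ℝ) - 1 := by
          have : min k (p - 2) + 1 ≤ p := by
            have := min_le_right k (p - 2)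
            have := hpp.two_le
            omega
          have h4 : ((min k (p - 2) + 1 : ℕ) : ℝ) ≤ p := by exact_mod_cast this
          push_cast at h4 ⊢
          linarith
        rw [sub_nonneg, div_le_one (by linarith)]
        exact h3
    · intro p hp
      have hpp := (mem_pz.1 hp).2
      have h2 : (2 : ℝ) ≤ p := by exact_mod_cast hpp.two_le
      have hp0 : (0 : ℝ) < p := by linarith
      have hnu : (nuB Q p : ℝ) + 1 ≤ p := by exact_mod_cast hadm p hpp
      split_ifs with h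
      · have h3 : (1 : ℝ) - ((min k (p - 2) : ℕ) : ℝ) / (p - 1 : ℝ) ≤ 1 := by
          have : 0 ≤ ((min k (p - 2) : ℕ) : ℝ) / (p - 1 : ℝ) :=
            div_nonneg (Nat.cast_nonneg _) (by linarith)
          linarith
        calc (p : ℝ)⁻¹ * (1 - ((min k (p - 2) : ℕ) : ℝ) / (p - 1 : ℝ)) ≤ (p : ℝ)⁻¹ * 1 := by gcongr
          _ ≤ 1 - (nuB Q p : ℝ) / p := by
            rw [mul_one, inv_eq_one_div, le_sub_iff_add_le, ← add_div, div_le_one hp0]
            linarith
      · rw [not_le] at h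
        have hmin : min k (p - 2) = k := min_eq_left (by omega)
        have hk : (nuB Q p : ℝ) ≤ k := by exact_mod_cast hQ.few p hpp
        rw [hmin, one_mul]
        apply sub_le_sub_left
        calc (nuB Q p : ℝ) / p ≤ k / p := by gcongr
          _ ≤ k / (p - 1) := by
            apply div_le_div_of_nonneg_left (Nat.cast_nonneg _) (by linarith) (by linarith)
  rw [Finset.prod_mul_distrib] at h1
  have h2 : M ≤ ∏ p ∈ pz y, (if p ≤ k + 1 then (p : ℝ)⁻¹ else 1) := by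
    rw [← Finset.prod_filter, hM]
    have hsub : (pz y).filter (fun p => p ≤ k + 1) ⊆ pz (k + 1) := by
      intro p hp
      rw [mem_filter, mem_pz] at hp
      exact mem_pz.2 ⟨hp.2, hp.1.2⟩
    rw [← Finset.prod_sdiff hsub]
    have h3 : ∏ p ∈ pz (k + 1) \ (pz y).filter (fun p => p ≤ k + 1), (p : ℝ)⁻¹ ≤ 1 := by
      apply Finset.prod_le_one
      · intro p _
        positivity
      · intro p hp
        rw [Finset.mem_sdiff] at hp
        have : (1 : ℝ) ≤ p := by exact_mod_cast (mem_pz.1 hp.1).2.one_lt.le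
        exact inv_le_one_of_one_le₀ this
    have h4 : 0 ≤ ∏ p ∈ (pz y).filter (fun p => p ≤ k + 1), (p : ℝ)⁻¹ :=
      Finset.prod_nonneg fun p _ => by positivity
    calc _ ≤ 1 * ∏ p ∈ (pz y).filter (fun p => p ≤ k + 1), (p : ℝ)⁻¹ :=
          mul_le_mul_of_nonneg_right h3 h4
      _ = _ := one_mul _
  have h3 := hlow y hy
  have hlog : 0 < Real.log y := Real.log_pos (by exact_mod_cast (by omega : 1 < y))
  calc M * c0 / Real.log y ^ k = M * (c0 / Real.log y ^ k) := by ring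
    _ ≤ (∏ p ∈ pz y, (if p ≤ k + 1 then (p : ℝ)⁻¹ else 1)) *
        ∏ p ∈ pz y, (1 - ((min k (p - 2) : ℕ) : ℝ) / (p - 1 : ℝ)) :=
      mul_le_mul h2 h3 (by positivity) (hM0.le.trans h2)
    _ ≤ _ := h1

/-- the upper bound for dimension two -/
theorem V_upper_unif : ∃ C : ℝ, 0 < C ∧ ∀ Q : ℕ → ℕ → Prop, ∀ D : ℕ, D ≠ 0 →
    (∀ p : ℕ, p.Prime → nuB Q p < p) →
    (∀ p : ℕ, p.Prime → ¬ p ∣ D → 2 ≤ nuB Q p) → ∀ z y : ℕ, 2 ≤ z → z ≤ y → Real.log D ≤ z →
    Vq Q y ≤ C * (Real.log z / Real.log y) ^ 2 := by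
  obtain ⟨c, C, hc, hC, hV⟩ := Vz_bounds
  refine ⟨Real.exp 8 * (C / c) ^ 2, by positivity, ?_⟩
  intro Q D hD hadm h2 z y hz hzy hDz
  have hz0 : (0 : ℝ) < z := by exact_mod_cast (by omega : 0 < z)
  have hfac : ∀ p ∈ pz y, (0 : ℝ) < 1 - 1 / (p : ℝ) := by
    intro p hp
    have : (2 : ℝ) ≤ p := by exact_mod_cast (mem_pz.1 hp).2.two_le
    rw [sub_pos, div_lt_one (by linarith)]
    linarith
  obtain ⟨E, hE⟩ : ∃ E : ℝ, E = ∏ p ∈ (pz y).filter (fun p => z < p ∧ p ∣ D), (1 - 1 / (p : ℝ)) ^ 2 :=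
    ⟨_, rfl⟩
  -- the factors
  have hprod : Vq Q y * (Vz z ^ 2 * E) ≤ Vz y ^ 2 := by
    have e1 : Vz z ^ 2 = ∏ p ∈ (pz y).filter (fun p => p ≤ z), (1 - 1 / (p : ℝ)) ^ 2 := by
      unfold Vz
      rw [← Finset.prod_pow]
      apply Finset.prod_congr _ (fun _ _ => rfl)
      ext p
      rw [mem_filter, mem_pz, mem_pz]
      constructor
      · rintro ⟨h1, h2⟩
        exact ⟨⟨by omega, h2⟩, h1⟩
      · rintro ⟨⟨_, h2⟩, h1⟩
        exact ⟨h1, h2⟩
    have e2 : Vz y ^ 2 = ∏ p ∈ pz y, (1 - 1 / (p : ℝ)) ^ 2 := by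
      unfold Vz
      rw [← Finset.prod_pow]
    rw [e1, e2, hE, Finset.prod_filter, Finset.prod_filter, ← Finset.prod_mul_distrib]
    unfold Vq
    rw [← Finset.prod_mul_distrib]
    apply Finset.prod_le_prod
    · intro p hp
      have h3 := one_sub_nonneg Q p (mem_pz.1 hp).2
      have h4 := hfac p hp
      apply mul_nonneg h3
      split_ifs <;> positivity
    · intro p hp
      have hpp := (mem_pz.1 hp).2
      have h3 := one_sub_nonneg Q p hpp
      have h4 := hfac p hp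
      have h5 : 1 - (nuB Q p : ℝ) / p ≤ 1 := by
        have : 0 ≤ (nuB Q p : ℝ) / p := by positivity
        linarith
      by_cases ha : p ≤ z
      · rw [if_pos ha, if_neg (by omega), mul_one]
        have h6 : 0 ≤ (1 - 1 / (p : ℝ)) ^ 2 := by positivity
        nlinarith
      · rw [if_neg ha]
        by_cases hb : p ∣ D
        · rw [if_pos ⟨by omega, hb⟩, one_mul]
          have h6 : 0 ≤ (1 - 1 / (p : ℝ)) ^ 2 := by positivity
          nlinarith
        · rw [if_neg (fun h => hb h.2), mul_one, mul_one]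
          have h6 : (2 : ℝ) ≤ nuB Q p := by exact_mod_cast h2 p hpp hb
          have hp0 : (0 : ℝ) < p := by exact_mod_cast hpp.pos
          have h7 : 2 / (p : ℝ) ≤ (nuB Q p : ℝ) / p := by gcongr
          have h8 : (1 - 1 / (p : ℝ)) ^ 2 = 1 - 2 / p + (1 / p) ^ 2 := by ring
          have h9 : (0 : ℝ) ≤ (1 / p) ^ 2 := by positivity
          linarith
  have hEpos : 0 < E := by
    rw [hE]
    exact Finset.prod_pos fun p hp => by
      have := hfac p (mem_filter.1 hp).1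
      positivity
  have hElow : Real.exp (-8) ≤ E := by
    have hcard : (((pz y).filter (fun p => z < p ∧ p ∣ D)).card : ℝ) ≤ 2 * z := by
      have h3 := card_le_log ((pz y).filter (fun p => z < p ∧ p ∣ D)) D hD (fun p hp => by
        rw [mem_filter, mem_pz] at hp
        exact ⟨hp.1.2, hp.2.2⟩)
      have h4 := Real.log_two_gt_d9
      have h5 : (0 : ℝ) ≤ (((pz y).filter (fun p => z < p ∧ p ∣ D)).card : ℝ) := Nat.cast_nonneg _
      nlinarith
    calc Real.exp (-8) ≤ Real.exp (-(4 / z)) ^ ((pz y).filter (fun p => z < p ∧ p ∣ D)).card := by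
          rw [← Real.exp_nat_mul]
          apply Real.exp_le_exp.2
          have : (((pz y).filter (fun p => z < p ∧ p ∣ D)).card : ℝ) * (4 / z) ≤ 8 := by
            rw [← mul_div_assoc, div_le_iff₀ hz0]
            linarith
          linarith
      _ = ∏ p ∈ (pz y).filter (fun p => z < p ∧ p ∣ D), Real.exp (-(4 / z)) := by
          rw [Finset.prod_const]
      _ ≤ E := by
          rw [hE]
          apply Finset.prod_le_prod
          · intro p _
            exact (Real.exp_pos _).le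
          · intro p hp
            rw [mem_filter] at hp
            have h3 := hfac p hp.1
            have hp2 : (2 : ℝ) ≤ p := by exact_mod_cast (mem_pz.1 hp.1).2.two_le
            have hzp : (z : ℝ) ≤ p := by exact_mod_cast hp.2.1.le
            have hp0 : (0 : ℝ) < p := by linarith
            have h4 : 1 + 2 / (p : ℝ) ≤ Real.exp (2 / p) := by
              have := Real.add_one_le_exp (2 / (p : ℝ))
              linarith
            have h5 : 1 ≤ (1 - 1 / (p : ℝ)) * Real.exp (2 / p) := by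
              have h6 : 1 ≤ (1 - 1 / (p : ℝ)) * (1 + 2 / p) := by
                have e : (1 - 1 / (p : ℝ)) * (1 + 2 / p) = 1 + (p - 2) / p ^ 2 := by
                  field_simp
                  ring
                rw [e]
                have : 0 ≤ ((p : ℝ) - 2) / p ^ 2 := div_nonneg (by linarith) (by positivity)
                linarith
              exact h6.trans (mul_le_mul_of_nonneg_left h4 h3.le)
            have h6 : Real.exp (-(2 / p)) ≤ 1 - 1 / (p : ℝ) := by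
              rw [Real.exp_neg, inv_eq_one_div, div_le_iff₀ (Real.exp_pos _)]
              exact h5
            calc Real.exp (-(4 / z)) ≤ Real.exp (-(4 / p)) := by
                  apply Real.exp_le_exp.2
                  apply neg_le_neg
                  gcongr
              _ = Real.exp (-(2 / p)) ^ 2 := by
                  rw [← Real.exp_nat_mul]
                  congr 1
                  push_cast
                  ring
              _ ≤ (1 - 1 / (p : ℝ)) ^ 2 := pow_le_pow_left₀ (Real.exp_pos _).le h6 2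
  have hlz : 0 < Real.log z := Real.log_pos (by exact_mod_cast (by omega : 1 < z))
  have hly : 0 < Real.log y := Real.log_pos (by exact_mod_cast (by omega : 1 < y))
  have hz1 := (hV z hz).1
  have hy1 := (hV y (by omega)).2
  have hVy0 : 0 ≤ Vz y := (by positivity : 0 ≤ c / Real.log y).trans (hV y (by omega)).1
  have hVq0 : 0 ≤ Vq Q y := Vq_nonneg Q y
  have h3 : Vq Q y * ((c / Real.log z) ^ 2 * Real.exp (-8)) ≤ (C / Real.log y) ^ 2 := by
    calc Vq Q y * ((c / Real.log z) ^ 2 * Real.exp (-8)) ≤ Vq Q y * (Vz z ^ 2 * E) := by gcongr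
      _ ≤ Vz y ^ 2 := hprod
      _ ≤ (C / Real.log y) ^ 2 := by gcongr
  have he : Real.exp (-8) * Real.exp 8 = 1 := by rw [← Real.exp_add]; simp
  have e5 : Vq Q y = Vq Q y * ((c / Real.log z) ^ 2 * Real.exp (-8)) *
      (Real.exp 8 * (Real.log z / c) ^ 2) := by
    have : (c / Real.log z) ^ 2 * Real.exp (-8) * (Real.exp 8 * (Real.log z / c) ^ 2) =
        (Real.exp (-8) * Real.exp 8) * ((c / Real.log z) ^ 2 * (Real.log z / c) ^ 2) := by ring
    rw [mul_assoc, this, he]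
    field_simp
  rw [e5]
  calc _ ≤ (C / Real.log y) ^ 2 * (Real.exp 8 * (Real.log z / c) ^ 2) := by gcongr
    _ = _ := by
      field_simp

end Pool.Agent.TH464.PO
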