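import Pool.Agent.TH464.PO.BaseFam3

set_option autoImplicit false

/-!
# Sizes for general families of local conditions with one full linear factor
-/

namespace Pool.Agent.TH464.PO

open Finset Filter
open Pool.Agent.W123.RP Pool.Agent.H373R2.T7 Pool.Agent.W123.RU
open Pool.Agent.TH464.PW

/-- the number of the large primes dividing a number -/
lemma large_primes (P : Finset ℕ) (T R : ℕ) (hR : R ≠ 0) (h : ∀ p ∈ P, p.Prime ∧ T < p ∧ p ∣ R) :
    T ^ P.card ≤ R := by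
  have h1 : ∏ p ∈ P, p ∣ R := Finset.prod_primes_dvd R
    (fun p hp => Nat.prime_iff.1 (h p hp).1) (fun p hp => (h p hp).2.2)
  calc T ^ P.card ≤ ∏ p ∈ P, p := by
        apply Finset.pow_card_le_prod
        intro p hp
        exact (h p hp).2.1.le
    _ ≤ R := Nat.le_of_dvd (Nat.pos_of_ne_zero hR) h1

/-- a family of local conditions: the first form is full, the collisions divide a small number -/
structure GQ (c B X : ℕ) (Q : ℕ → ℕ → Prop) : Prop where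
  per : PerB Q c
  adm : ∀ p : ℕ, p.Prime → nuB Q p < p
  one : ∀ p : ℕ, p.Prime → 1 ≤ nuB Q p
  res : ∀ T t : ℕ, 1 ≤ t → t ≤ T → (T : ℝ) ≤ Real.log X ^ (c + 1) → ∃ R : ℕ, R ≠ 0 ∧ R ≤ X ^ B ∧
    ∀ p : ℕ, p.Prime → T < p → CoG Q p t → p ∣ R

lemma V_le_Vz (Q : ℕ → ℕ → Prop) (hadm : ∀ p : ℕ, p.Prime → nuB Q p < p)
    (h : ∀ p : ℕ, p.Prime → 1 ≤ nuB Q p) (y : ℕ) : Vq Q y ≤ Vz y := by
  unfold Vq Vz
  apply Finset.prod_le_prod
  · intro p hp
    have hpp := (mem_pz.1 hp).2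
    have hp0 : (0 : ℝ) < p := by exact_mod_cast hpp.pos
    rw [sub_nonneg, div_le_one hp0]
    exact_mod_cast (hadm p hpp).le
  · intro p hp
    have hpp := (mem_pz.1 hp).2
    have hp0 : (0 : ℝ) < p := by exact_mod_cast hpp.pos
    have h1 : (1 : ℝ) ≤ nuB Q p := by exact_mod_cast h p hpp
    have h2 : 1 / (p : ℝ) ≤ nuB Q p / p := div_le_div_of_nonneg_right h1 hp0.le
    linarith

open Classical in
/-- everything needed about the sizes -/
lemma gen_sizes (c B : ℕ) (hc : 1 ≤ c) (θ : ℝ) (hθ : 0 < θ) (K y0 T0 R0 : ℕ) (η κ x2 : ℝ) (hη : 0 < η)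
    (hκ : 0 < κ) (hx2 : 0 < x2) :
    ∃ s0 : ℕ, ∀ s : ℕ, s0 ≤ s → ∀ᶠ X : ℕ in atTop, ∀ Q : ℕ → ℕ → Prop, GQ c B X Q →
      ∀ Y : ℕ, (X : ℝ) ^ θ ≤ Y → ∀ y : ℕ, y = ⌊(X : ℝ) ^ (1 / (s : ℝ))⌋₊ →
      y0 ≤ y ∧ y ^ K ≤ Y ∧ Vq Q y ≤ κ ∧ √(Y : ℝ) ≤ κ * (Y * Vq Q y) ∧
      x2 / Vq Q y ≤ κ * (Y * Vq Q y) ∧
      ∀ T : ℕ, κ ≤ T * Vq Q y → T * Vq Q y ≤ x2 → T0 ≤ T ∧ T ^ R0 ≤ Y ∧
        ∀ t ∈ Icc 1 T, ((((pz y).filter (fun p : ℕ => T < p ∧ CoG Q p t)).card : ℕ) : ℝ) ≤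
          η * T := by
  obtain ⟨v0, hv0, hVlow⟩ := V_lower_unif c
  obtain ⟨_, C, _, hC, hVz⟩ := Vz_bounds
  obtain ⟨R1, hR1⟩ : ∃ R1 : ℕ, (K : ℝ) / θ ≤ R1 := exists_nat_ge _
  refine ⟨max R1 2, ?_⟩
  intro s hs
  have hs2 : 2 ≤ s := (le_max_right _ _).trans hs
  have hss : (2 : ℝ) ≤ s := by exact_mod_cast hs2
  have hspos : (0 : ℝ) < s := by linarith
  have hsK : (K : ℝ) ≤ θ * s := by
    have h1 : (K : ℝ) / θ ≤ s := hR1.trans (by exact_mod_cast (le_max_left _ _).trans hs)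
    rw [div_le_iff₀ hθ] at h1
    linarith
  -- the constant in `V ≤ C1 / L`
  obtain ⟨C1, hC1⟩ : ∃ C1 : ℝ, C1 = 2 * s * C := ⟨_, rfl⟩
  have hC1pos : 0 < C1 := by rw [hC1]; positivity
  obtain ⟨E, hE⟩ : ∃ E : ℝ, E = C1 * B / (η * κ) := ⟨_, rfl⟩
  have hE0 : 0 ≤ E := by rw [hE]; positivity
  have hXr : Tendsto (fun X : ℕ => (X : ℝ)) atTop atTop := tendsto_natCast_atTop_atTop
  have hpow2 : Tendsto (fun X : ℕ => (X : ℝ) ^ (1 / (2 * s : ℝ))) atTop atTop :=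
    (tendsto_rpow_atTop (by positivity)).comp hXr
  have hlogX : Tendsto (fun X : ℕ => Real.log (X : ℝ)) atTop atTop :=
    Real.tendsto_log_atTop.comp hXr
  have hMb : 0 < (1 / (κ * v0)) ^ 2 + x2 / (κ * v0 ^ 2) := by positivity
  filter_upwards [hpow2.eventually_ge_atTop ((y0 : ℝ) + 3), eventually_ge_atTop 16,
    hlogX.eventually_ge_atTop (C1 / κ + 1), hlogX.eventually_ge_atTop (C1 / κ * T0),
    hlogX.eventually_ge_atTop (C1 / κ * Real.exp (E + 1)), hlogX.eventually_ge_atTop (x2 / v0),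
    logpow_rpow ((c + 1) * R0) 1 θ one_pos hθ,
    logpow_rpow (2 * c) ((1 / (κ * v0)) ^ 2 + x2 / (κ * v0 ^ 2)) θ hMb hθ] with X hX1 hX16 hX2 hX3
      hX5 hX6 hX7 hX8
  intro Q hQ Y hXY y hy
  have hX16r : (16 : ℝ) ≤ X := by exact_mod_cast hX16
  have hXpos : (0 : ℝ) < X := by linarith
  have hXone : (1 : ℝ) ≤ X := by linarith
  have hy0r : (0 : ℝ) ≤ y0 := Nat.cast_nonneg _
  obtain ⟨hy1, hy2, hy3, hy4⟩ := level_low s hs2 X (by omega) (by linarith)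
  rw [← hy] at hy1 hy2 hy3 hy4
  obtain ⟨L, hL⟩ : ∃ L, L = Real.log X := ⟨_, rfl⟩
  have hres := hQ.res
  rw [← hL] at hX2 hX3 hX5 hX6 hX7 hX8 hy2 hy3 hres
  have hcκ : 0 ≤ C1 / κ := by positivity
  have hL1 : 1 ≤ L := by linarith
  have hLpos : 0 < L := by linarith
  have hyr : (y0 : ℝ) + 3 ≤ y := hX1.trans hy1
  have hyy0 : y0 ≤ y := by
    have : (y0 : ℝ) ≤ y := by linarith
    exact_mod_cast this
  have hlogy : 0 < Real.log y := lt_of_lt_of_le (by positivity) hy2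
  have hY0 : (0 : ℝ) ≤ Y := Nat.cast_nonneg Y
  have hV0 : 0 < Vq Q y := Vq_pos Q hQ.adm y
  have hVlo := hVlow Q hQ.per hQ.adm y hy4
  have hVX : v0 / L ^ c ≤ Vq Q y := by
    refine le_trans ?_ hVlo
    apply div_le_div_of_nonneg_left hv0.le (pow_pos hlogy _)
    exact pow_le_pow_left₀ hlogy.le hy3 _
  -- the upper bound for the density
  have hVup : Vq Q y ≤ C1 / L := by
    refine (V_le_Vz Q hQ.adm hQ.one y).trans ((hVz y hy4).2.trans ?_)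
    calc C / Real.log y ≤ C / (L / (2 * s)) :=
          div_le_div_of_nonneg_left hC.le (by positivity) hy2
      _ = C1 / L := by
          rw [hC1]
          field_simp
  have hyK : y ^ K ≤ Y := by
    have h3 : ((y ^ K : ℕ) : ℝ) ≤ Y := by
      push_cast
      calc (y : ℝ) ^ K ≤ ((X : ℝ) ^ (1 / (s : ℝ))) ^ K := by
            apply pow_le_pow_left₀ (Nat.cast_nonneg _)
            rw [hy]
            exact Nat.floor_le (by positivity)
        _ = (X : ℝ) ^ (1 / (s : ℝ) * K) := by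
            rw [Real.rpow_mul hXpos.le, Real.rpow_natCast]
        _ ≤ (X : ℝ) ^ θ := by
            apply Real.rpow_le_rpow_of_exponent_le hXone
            rw [one_div, inv_mul_eq_div, div_le_iff₀ hspos]
            exact hsK
        _ ≤ Y := hXY
    exact_mod_cast h3
  have hYbig : ((1 / (κ * v0)) ^ 2 + x2 / (κ * v0 ^ 2)) * L ^ (2 * c) ≤ Y := hX8.trans hXY
  have hLc : 0 < L ^ (2 * c) := by positivity
  have hYa : (1 / (κ * v0)) ^ 2 * L ^ (2 * c) ≤ Y := by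
    refine le_trans ?_ hYbig
    gcongr
    have : 0 < x2 / (κ * v0 ^ 2) := by positivity
    linarith
  have hYb : x2 / (κ * v0 ^ 2) * L ^ (2 * c) ≤ Y := by
    refine le_trans ?_ hYbig
    gcongr
    have : 0 < (1 / (κ * v0)) ^ 2 := by positivity
    linarith
  refine ⟨hyy0, hyK, ?_, ?_, ?_, ?_⟩
  · -- V is small
    refine hVup.trans ?_
    rw [div_le_iff₀ hLpos]
    have : C1 / κ ≤ L := by linarith
    rw [div_le_iff₀ hκ] at this
    linarith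
  · have h3 : 1 / (κ * v0) * L ^ c ≤ √(Y : ℝ) := by
      apply Real.le_sqrt_of_sq_le
      rw [mul_pow, ← pow_mul, mul_comm c 2]
      exact hYa
    have h4 : √(Y : ℝ) * √(Y : ℝ) = Y := Real.mul_self_sqrt hY0
    calc √(Y : ℝ) = κ * (√(Y : ℝ) * (1 / (κ * v0) * L ^ c) * (v0 / L ^ c)) := by
          field_simp
      _ ≤ κ * (√(Y : ℝ) * √(Y : ℝ) * Vq Q y) := by gcongr
      _ = κ * (Y * Vq Q y) := by rw [h4]
  · rw [div_le_iff₀ hV0]
    have hsq : (v0 / L ^ c) ^ 2 ≤ Vq Q y ^ 2 := pow_le_pow_left₀ (by positivity) hVX 2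
    have e : x2 = κ * (x2 / (κ * v0 ^ 2) * L ^ (2 * c) * (v0 / L ^ c) ^ 2) := by
      rw [div_pow, ← pow_mul, mul_comm c 2]
      field_simp
    calc x2 = κ * (x2 / (κ * v0 ^ 2) * L ^ (2 * c) * (v0 / L ^ c) ^ 2) := e
      _ ≤ κ * (Y * Vq Q y ^ 2) := by gcongr
      _ = κ * (Y * Vq Q y) * Vq Q y := by ring
  · intro T hT1 hT2
    have hT0r : (0 : ℝ) ≤ T := Nat.cast_nonneg T
    -- lower bound for `T`
    have hTlow : L ≤ C1 / κ * T := by
      have h1 : κ ≤ T * (C1 / L) := hT1.trans (mul_le_mul_of_nonneg_left hVup hT0r)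
      have h2 : κ * L ≤ T * C1 := by
        calc κ * L ≤ T * (C1 / L) * L := mul_le_mul_of_nonneg_right h1 hLpos.le
          _ = T * C1 := by field_simp
      rw [div_mul_eq_mul_div, le_div_iff₀ hκ]
      linarith
    have hC1κ : 0 < C1 / κ := by positivity
    have hTup : (T : ℝ) ≤ L ^ (c + 1) := by
      have h1 : (T : ℝ) * (v0 / L ^ c) ≤ x2 := (mul_le_mul_of_nonneg_left hVX hT0r).trans hT2
      have hLc' : 0 < L ^ c := by positivity
      have h2 : (T : ℝ) * v0 ≤ x2 * L ^ c := by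
        calc (T : ℝ) * v0 = T * (v0 / L ^ c) * L ^ c := by field_simp
          _ ≤ x2 * L ^ c := mul_le_mul_of_nonneg_right h1 hLc'.le
      rw [div_le_iff₀ hv0] at hX6
      have h3 : (T : ℝ) * v0 ≤ L ^ (c + 1) * v0 := by
        calc (T : ℝ) * v0 ≤ x2 * L ^ c := h2
          _ ≤ L * v0 * L ^ c := by gcongr
          _ = L ^ (c + 1) * v0 := by ring
      exact le_of_mul_le_mul_right h3 hv0
    have hTexp : Real.exp (E + 1) ≤ T := by
      have := hX5.trans hTlow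
      exact le_of_mul_le_mul_left this hC1κ
    have hlogT : E + 1 ≤ Real.log T := by
      rw [Real.le_log_iff_exp_le (lt_of_lt_of_le (Real.exp_pos _) hTexp)]
      exact hTexp
    refine ⟨?_, ?_, ?_⟩
    · have : (T0 : ℝ) ≤ T := le_of_mul_le_mul_left (hX3.trans hTlow) hC1κ
      exact_mod_cast this
    · have h3 : ((T ^ R0 : ℕ) : ℝ) ≤ Y := by
        push_cast
        calc (T : ℝ) ^ R0 ≤ (L ^ (c + 1)) ^ R0 := pow_le_pow_left₀ hT0r hTup _
          _ = 1 * L ^ ((c + 1) * R0) := by rw [one_mul, pow_mul]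
          _ ≤ (X : ℝ) ^ θ := hX7
          _ ≤ Y := hXY
      exact_mod_cast h3
    · intro t ht
      rw [mem_Icc] at ht
      obtain ⟨R, hR0, hRB, hRd⟩ := hres T t ht.1 ht.2 hTup
      obtain ⟨P, hP⟩ : ∃ P, P = (pz y).filter (fun p : ℕ => T < p ∧ CoG Q p t) := ⟨_, rfl⟩
      rw [← hP]
      have h1 : T ^ P.card ≤ R := large_primes P T R hR0 (fun p hp => by
        rw [hP, mem_filter] at hp
        have hpp := (mem_pz.1 hp.1).2
        exact ⟨hpp, hp.2.1, hRd p hpp hp.2.1 hp.2.2⟩)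
      have hTpos : (0 : ℝ) < T := lt_of_lt_of_le (Real.exp_pos _) hTexp
      have h2 : (P.card : ℝ) * Real.log T ≤ B * L := by
        have h3 : (T : ℝ) ^ P.card ≤ (X : ℝ) ^ B := by exact_mod_cast h1.trans hRB
        have h4 := Real.log_le_log (pow_pos hTpos _) h3
        rwa [Real.log_pow, Real.log_pow, ← hL] at h4
      have hlT : 0 < Real.log T := by linarith
      have hηT : (B : ℝ) * L ≤ η * T * Real.log T := by
        have h3 : (B : ℝ) * L ≤ B * (C1 / κ * T) :=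
          mul_le_mul_of_nonneg_left hTlow (Nat.cast_nonneg _)
        have h4 : (B : ℝ) * (C1 / κ * T) = η * T * E := by
          rw [hE]
          field_simp
        have h5 : η * T * E ≤ η * T * Real.log T := by
          apply mul_le_mul_of_nonneg_left _ (by positivity)
          linarith
        linarith
      have h6 : (P.card : ℝ) * Real.log T ≤ η * T * Real.log T := h2.trans hηT
      exact le_of_mul_le_mul_right h6 hlT

open Classical in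
/-- gaps of prescribed exact lengths, general families -/
theorem gq_exact (c B : ℕ) (hc : 1 ≤ c) (θ : ℝ) (hθ : 0 < θ) (s : ℕ) (x ε : ℝ) (hε : 0 < ε) :
    ∃ r0 : ℕ, ∀ r : ℕ, r0 ≤ r → ∀ᶠ X : ℕ in atTop, ∀ Q : ℕ → ℕ → Prop, GQ c B X Q →
      ∀ (g : ℕ → Prop) (V : ℝ) (VB : Finset ℕ → ℝ) (M : ℕ),
      (∀ m ≤ M, Sf Q ⌊(X : ℝ) ^ (1 / (r : ℝ))⌋₊ m ↔ g m) →
      Vq Q ⌊(X : ℝ) ^ (1 / (r : ℝ))⌋₊ = V →
      (∀ B, Vq (QH Q B) ⌊(X : ℝ) ^ (1 / (r : ℝ))⌋₊ = VB B) →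
      ∀ Z Y : ℕ, (X : ℝ) ^ θ ≤ Y → Z + 2 * Y ≤ M → ∀ d : Fin s → ℕ, (∀ j, 1 ≤ d j) →
        ps d s * V ≤ x →
        |(((Ioc Z (Z + Y)).filter (fun b => g b ∧ ∀ j : Fin s,
            (nx g)^[(j : ℕ) + 1] b - (nx g)^[(j : ℕ)] b = d j)).card : ℝ) -
          Y * VB (Bs d) * Real.exp (-(ps d s * V))| ≤ ε * (Y * VB (Bs d)) := by
  obtain ⟨K0, y0, T0, R0, η', δ, hη', hδ, hlaw⟩ := exact_core s c hc x ε hε
  obtain ⟨r0, h0⟩ := gen_sizes c B hc θ hθ K0 y0 T0 R0 η' (min δ 1) (|x| + 2) hη' (by positivity)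
    (by positivity)
  refine ⟨r0, ?_⟩
  intro r hr
  filter_upwards [h0 r hr] with X hX
  intro Q hQ g V VB M hg hV hVB Z Y hXY hZY d hd hdx
  obtain ⟨a1, a2, a3, a4, a5, a6⟩ := hX Q hQ Y hXY _ rfl
  rw [hV] at a5
  have hV0 : 0 < V := by
    rw [← hV]
    exact Vq_pos Q hQ.adm _
  have hM : ps d s ≤ Y := by
    have hV1 : V ≤ 1 := by
      rw [← hV]
      exact Vq_le_one _ _
    have h4 : (ps d s : ℝ) ≤ x / V := by
      rw [le_div_iff₀ hV0]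
      exact hdx
    have h5 : x / V ≤ (|x| + 2) / V :=
      div_le_div_of_nonneg_right ((le_abs_self x).trans (by linarith)) hV0.le
    have h6 : min δ 1 * (Y * V) ≤ Y := by
      have h7 : min δ 1 ≤ 1 := min_le_right _ _
      have h9 : (0 : ℝ) ≤ Y := Nat.cast_nonneg Y
      have h10 : 0 ≤ min δ 1 := by positivity
      calc min δ 1 * (Y * V) ≤ 1 * (Y * 1) := by gcongr
        _ = Y := by ring
    have : (ps d s : ℝ) ≤ Y := h4.trans (h5.trans (a5.trans h6))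
    exact_mod_cast this
  rw [← hV, ← hVB (Bs d)]
  exact hlaw Q Z Y _ hQ.per hQ.adm a1 a2 (a3.trans (min_le_left _ _))
    (fun T t1 t2 => a6 T ((min_le_right _ _).trans t1) t2) g M hg d hd
    (by rw [hV]; exact hdx) (by omega)

open Classical in
/-- patterns with prescribed surroundings, general families -/
theorem gq_base (c B0 : ℕ) (hc : 1 ≤ c) (θ : ℝ) (hθ : 0 < θ) (β s : ℕ) (x ε : ℝ) (hε : 0 < ε) :
    ∃ r0 : ℕ, ∀ r : ℕ, r0 ≤ r → ∀ᶠ X : ℕ in atTop, ∀ Q : ℕ → ℕ → Prop, GQ c B0 X Q →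
      ∀ (g : ℕ → Prop) (V : ℝ) (VB : Finset ℕ → ℝ) (M : ℕ),
      (∀ m ≤ M, Sf Q ⌊(X : ℝ) ^ (1 / (r : ℝ))⌋₊ m ↔ g m) →
      Vq Q ⌊(X : ℝ) ^ (1 / (r : ℝ))⌋₊ = V →
      (∀ B, Vq (QH Q B) ⌊(X : ℝ) ^ (1 / (r : ℝ))⌋₊ = VB B) →
      ∀ Z Y : ℕ, (X : ℝ) ^ θ ≤ Y → Z + 2 * Y ≤ M → ∀ B : Finset ℕ, B.card ≤ β →
      (∀ h ∈ B, h * V ≤ x) →
      ∀ a b : Fin s → ℕ, (∀ i, a i ≤ b i) → (∀ j, b j * V ≤ x) →
      (∀ i j, i ≠ j → b i ≤ a j ∨ b j ≤ a i) → (∀ i, ∀ h ∈ B, h ≤ a i ∨ b i < h) →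
      ∀ E : Fin s → Finset ℕ,
        |(((Ioc Z (Z + Y)).filter (fun n => (∀ h ∈ B, g (n + h)) ∧ ∀ j,
            ((Ioc (n + a j) (n + b j)).filter (fun m => g m)).card ∈ E j)).card : ℝ) -
          Y * VB B * ∏ j, ∑ l ∈ E j, Real.exp (-(((b j : ℝ) - a j) * V)) *
            (((b j : ℝ) - a j) * V) ^ l / l.factorial| ≤ ε * (Y * VB B) := by
  obtain ⟨K0, y0, T0, R0, η', hη', hlaw⟩ := base_core s c hc β x ε hε
  obtain ⟨r0, h0⟩ := gen_sizes c B0 hc θ hθ K0 y0 T0 R0 η' 1 (|x| + 2) hη' one_pos (by positivity)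
  refine ⟨r0, ?_⟩
  intro r hr
  filter_upwards [h0 r hr] with X hX
  intro Q hQ g V VB M hg hV hVB Z Y hXY hZY B hBβ hBx a b hab hb hdis hBd E
  obtain ⟨a1, a2, a3, a4, a5, a6⟩ := hX Q hQ Y hXY _ rfl
  rw [hV] at a5
  have hV0 : 0 < V := by
    rw [← hV]
    exact Vq_pos Q hQ.adm _
  have hV1 : V ≤ 1 := by
    rw [← hV]
    exact Vq_le_one _ _
  have hM : ∀ h : ℕ, h * V ≤ x → h ≤ Y := by
    intro h hh
    have h4 : (h : ℝ) ≤ x / V := by
      rw [le_div_iff₀ hV0]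
      exact hh
    have h5 : x / V ≤ (|x| + 2) / V :=
      div_le_div_of_nonneg_right ((le_abs_self x).trans (by linarith)) hV0.le
    have h6 : 1 * (Y * V) ≤ Y := by
      have h9 : (0 : ℝ) ≤ Y := Nat.cast_nonneg Y
      nlinarith
    have : (h : ℝ) ≤ Y := h4.trans (h5.trans (a5.trans h6))
    exact_mod_cast this
  have hBM : ∀ h ∈ B, Z + Y + h ≤ M := fun h hh => by
    have := hM h (hBx h hh)
    omega
  have hbM : ∀ j, Z + Y + b j ≤ M := fun j => by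
    have := hM _ (hb j)
    omega
  rw [← hV] at hBx hb ⊢
  rw [← hVB B]
  exact hlaw Q Z Y _ hQ.per hQ.adm a1 a2 a6 g M hg B hBβ hBx hBM a b hab hb hbM hdis hBd E

end Pool.Agent.TH464.PO
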