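import Pool.Agent.TH464.PO.Law

set_option autoImplicit false

/-!
# From mixed binomial moments to joint laws
-/

namespace Pool.Agent.TH464.PO

open Finset

/-- the probability of `A` for the Poisson distribution -/
noncomputable def pois (x : ℝ) (A : Finset ℕ) : ℝ := ∑ j ∈ A, Real.exp (-x) * x ^ j / j.factorial

lemma pois_nonneg (x : ℝ) (hx : 0 ≤ x) (A : Finset ℕ) : 0 ≤ pois x A := by
  unfold pois
  apply Finset.sum_nonneg
  intro j _
  positivity

lemma pow_fac_le (x : ℝ) (hx : 0 ≤ x) (k : ℕ) : x ^ k / k.factorial ≤ Real.exp x := by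
  have h := Real.sum_le_exp_of_nonneg hx (k + 1)
  refine le_trans ?_ h
  exact Finset.single_le_sum (f := fun i : ℕ => x ^ i / (i.factorial : ℝ)) (fun i _ => by positivity)
    (Finset.mem_range.2 (Nat.lt_succ_self k))

lemma pois_le_one (x : ℝ) (hx : 0 ≤ x) (A : Finset ℕ) : pois x A ≤ 1 := by
  obtain ⟨n, hn⟩ : ∃ n, A ⊆ range n := by
    refine ⟨A.sup id + 1, fun j hj => ?_⟩
    rw [mem_range]
    have := Finset.le_sup (f := id) hj
    simp only [id] at this
    omega
  have h := Real.sum_le_exp_of_nonneg hx n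
  unfold pois
  calc ∑ j ∈ A, Real.exp (-x) * x ^ j / j.factorial ≤
      ∑ j ∈ range n, Real.exp (-x) * x ^ j / j.factorial := by
        apply Finset.sum_le_sum_of_subset_of_nonneg hn
        intros
        positivity
    _ = Real.exp (-x) * ∑ j ∈ range n, x ^ j / j.factorial := by
        rw [Finset.mul_sum]
        apply Finset.sum_congr rfl
        intros
        ring
    _ ≤ Real.exp (-x) * Real.exp x := mul_le_mul_of_nonneg_left h (Real.exp_pos _).le
    _ = 1 := by rw [← Real.exp_add]; simp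

/-- copies -/
def copies (Om : Finset ℕ) (ω : ℕ → ℕ) : Finset ℕ :=
  (Om.sigma (fun n => range (ω n))).image (fun p => Nat.pair p.1 p.2)

lemma sum_copies (Om : Finset ℕ) (ω : ℕ → ℕ) (f : ℕ → ℝ) :
    ∑ m ∈ copies Om ω, f (Nat.unpair m).1 = ∑ n ∈ Om, (ω n : ℝ) * f n := by
  unfold copies
  rw [Finset.sum_image, Finset.sum_sigma]
  · apply Finset.sum_congr rfl
    intro n _
    simp only [Nat.unpair_pair]
    rw [Finset.sum_const, card_range, nsmul_eq_mul]
  · rintro ⟨a, b⟩ _ ⟨c, d⟩ _ h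
    simp only at h
    rw [Nat.pair_eq_pair] at h
    obtain ⟨h1, h2⟩ := h
    subst h1
    subst h2
    rfl

open Classical in
/-- the law for weights -/
theorem law_w (x0 ε : ℝ) (hx0 : 0 ≤ x0) (hε : 0 < ε) : ∃ (R : ℕ) (η : ℝ), 0 < η ∧
    ∀ (Om : Finset ℕ) (ω N : ℕ → ℕ) (x : ℝ), 0 ≤ x → x ≤ x0 →
    (∀ k ≤ R, |∑ n ∈ Om, (ω n : ℝ) * ((N n).choose k : ℝ) - (∑ n ∈ Om, (ω n : ℝ)) * (x ^ k / k.factorial)| ≤
      η * ∑ n ∈ Om, (ω n : ℝ)) →
    ∀ A : Finset ℕ, |∑ n ∈ Om, (ω n : ℝ) * (if N n ∈ A then 1 else 0) -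
      (∑ n ∈ Om, (ω n : ℝ)) * pois x A| ≤ ε * ∑ n ∈ Om, (ω n : ℝ) := by
  obtain ⟨R, η, hη, h⟩ := law_tv x0 ε hx0 hε
  refine ⟨R, η, hη, ?_⟩
  intro Om ω N x hx hxx hk A
  have hcard : ((copies Om ω).card : ℝ) = ∑ n ∈ Om, (ω n : ℝ) := by
    have h1 := sum_copies Om ω (fun _ => 1)
    simp only [mul_one] at h1
    rw [← h1, Finset.sum_const, nsmul_eq_mul, mul_one]
  have h1 := h (copies Om ω) (fun m => N (Nat.unpair m).1) x hx hxx (by
    intro k hkR
    rw [hcard, sum_copies Om ω (fun n => ((N n).choose k : ℝ))]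
    exact hk k hkR) A
  rw [hcard] at h1
  have h2 : (((copies Om ω).filter (fun m => N (Nat.unpair m).1 ∈ A)).card : ℝ) =
      ∑ n ∈ Om, (ω n : ℝ) * (if N n ∈ A then 1 else 0) := by
    rw [← sum_copies Om ω (fun n => if N n ∈ A then (1 : ℝ) else 0), Finset.sum_ite,
      Finset.sum_const_zero, add_zero, Finset.sum_const, nsmul_eq_mul, mul_one]
  rw [h2] at h1
  exact h1

open Classical in
/-- the law for weights, with a reference mass -/
theorem law_wa (C0 x0 ε : ℝ) (hC0 : 0 ≤ C0) (hx0 : 0 ≤ x0) (hε : 0 < ε) : ∃ (R : ℕ) (η : ℝ), 0 < η ∧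
    ∀ (Om : Finset ℕ) (ω N : ℕ → ℕ) (x Y μ : ℝ), 0 ≤ x → x ≤ x0 → 0 ≤ Y → 0 ≤ μ → μ ≤ C0 * Y →
    (∀ k ≤ R, |∑ n ∈ Om, (ω n : ℝ) * ((N n).choose k : ℝ) - μ * (x ^ k / k.factorial)| ≤ η * Y) →
    ∀ A : Finset ℕ, |∑ n ∈ Om, (ω n : ℝ) * (if N n ∈ A then 1 else 0) - μ * pois x A| ≤ ε * Y := by
  obtain ⟨R, η0, hη0, h⟩ := law_w x0 (ε / (4 * (C0 + 1))) hx0 (by positivity)
  obtain ⟨E, hE⟩ : ∃ E : ℝ, E = Real.exp x0 := ⟨_, rfl⟩
  have hE0 : 0 < E := by rw [hE]; exact Real.exp_pos _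
  obtain ⟨η, hη⟩ : ∃ η : ℝ, η = min (min 1 (ε / 4)) (η0 * (ε / 4) / (1 + E)) := ⟨_, rfl⟩
  have hηpos : 0 < η := by rw [hη]; positivity
  have hη1 : η ≤ 1 := by rw [hη]; exact (min_le_left _ _).trans (min_le_left _ _)
  have hη2 : η ≤ ε / 4 := by rw [hη]; exact (min_le_left _ _).trans (min_le_right _ _)
  have hη3 : η * (1 + E) ≤ η0 * (ε / 4) := by
    have : η ≤ η0 * (ε / 4) / (1 + E) := by rw [hη]; exact min_le_right _ _
    rwa [le_div_iff₀ (by positivity)] at this
  refine ⟨R, η, hηpos, ?_⟩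
  intro Om ω N x Y μ hx hxx hY hμ hμC hk A
  obtain ⟨m, hm⟩ : ∃ m : ℝ, m = ∑ n ∈ Om, (ω n : ℝ) := ⟨_, rfl⟩
  have hm0 : 0 ≤ m := by
    rw [hm]
    exact Finset.sum_nonneg fun _ _ => Nat.cast_nonneg _
  have hmμ : |m - μ| ≤ η * Y := by
    have := hk 0 (Nat.zero_le _)
    simp only [Nat.choose_zero_right, Nat.cast_one, mul_one, pow_zero, Nat.factorial_zero,
      div_one] at this
    rwa [← hm] at this
  obtain ⟨S, hS⟩ : ∃ S : ℝ, S = ∑ n ∈ Om, (ω n : ℝ) * (if N n ∈ A then 1 else 0) := ⟨_, rfl⟩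
  rw [← hS]
  have hS0 : 0 ≤ S := by
    rw [hS]
    apply Finset.sum_nonneg
    intro n _
    split_ifs <;> simp
  have hSm : S ≤ m := by
    rw [hS, hm]
    apply Finset.sum_le_sum
    intro n _
    split_ifs <;> simp
  have hp0 := pois_nonneg x hx A
  have hp1 := pois_le_one x hx A
  have hηY : η * Y ≤ ε / 4 * Y := mul_le_mul_of_nonneg_right hη2 hY
  rcases le_total (ε / 4 * Y) m with hcase | hcase
  · have h1 := h Om ω N x hx hxx (by
      intro k hkR
      rw [← hm]
      have h2 := hk k hkR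
      have h3 : |μ * (x ^ k / k.factorial) - m * (x ^ k / k.factorial)| ≤ η * Y * E := by
        rw [← sub_mul, abs_mul, abs_sub_comm]
        apply mul_le_mul hmμ _ (abs_nonneg _) (by positivity)
        rw [abs_of_nonneg (by positivity)]
        refine (pow_fac_le x hx k).trans ?_
        rw [hE]
        exact Real.exp_le_exp.2 hxx
      refine (abs_sub_le _ (μ * (x ^ k / k.factorial)) _).trans ?_
      calc _ ≤ η * Y + η * Y * E := add_le_add h2 h3
        _ = η * (1 + E) * Y := by ring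
        _ ≤ η0 * (ε / 4) * Y := mul_le_mul_of_nonneg_right hη3 hY
        _ = η0 * (ε / 4 * Y) := by ring
        _ ≤ η0 * m := mul_le_mul_of_nonneg_left hcase hη0.le) A
    rw [← hm, ← hS] at h1
    have h4 : ε / (4 * (C0 + 1)) * m ≤ ε / 4 * Y := by
      have h5 : m ≤ (C0 + 1) * Y := by
        have := (abs_le.1 hmμ).2
        have h6 : η * Y ≤ 1 * Y := mul_le_mul_of_nonneg_right hη1 hY
        linarith
      calc ε / (4 * (C0 + 1)) * m ≤ ε / (4 * (C0 + 1)) * ((C0 + 1) * Y) :=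
            mul_le_mul_of_nonneg_left h5 (by positivity)
        _ = ε / 4 * Y := by
          field_simp
    have h7 : |m * pois x A - μ * pois x A| ≤ ε / 4 * Y := by
      rw [← sub_mul, abs_mul, abs_of_nonneg hp0]
      calc |m - μ| * pois x A ≤ |m - μ| * 1 := mul_le_mul_of_nonneg_left hp1 (abs_nonneg _)
        _ ≤ ε / 4 * Y := by linarith
    refine (abs_sub_le _ (m * pois x A) _).trans ?_
    have h8 : 0 ≤ ε * Y := by positivity
    linarith
  · have h9 : μ * pois x A ≤ μ := by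
      calc μ * pois x A ≤ μ * 1 := mul_le_mul_of_nonneg_left hp1 hμ
        _ = μ := mul_one _
    have h10 : 0 ≤ μ * pois x A := mul_nonneg hμ hp0
    have h11 := (abs_le.1 hmμ).1
    have h8 : 0 ≤ ε * Y := by positivity
    rw [abs_le]
    constructor <;> linarith

open Classical in
/-- **From mixed binomial moments to the joint law.** -/
theorem joint_tv (s : ℕ) : ∀ (C0 x0 ε : ℝ), 0 ≤ C0 → 0 ≤ x0 → 0 < ε → ∃ (R : ℕ) (η : ℝ), 0 < η ∧
    ∀ (Om : Finset ℕ) (ω : ℕ → ℕ) (N : Fin s → ℕ → ℕ) (x : Fin s → ℝ) (Y μ : ℝ),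
    (∀ i, 0 ≤ x i) → (∀ i, x i ≤ x0) → 0 ≤ Y → 0 ≤ μ → μ ≤ C0 * Y →
    (∀ k : Fin s → ℕ, (∀ i, k i ≤ R) →
      |∑ n ∈ Om, (ω n : ℝ) * ∏ i, ((N i n).choose (k i) : ℝ) -
        μ * ∏ i, ((x i) ^ (k i) / (k i).factorial)| ≤ η * Y) →
    ∀ A : Fin s → Finset ℕ, |∑ n ∈ Om, (ω n : ℝ) * (if ∀ i, N i n ∈ A i then 1 else 0) -
      μ * ∏ i, pois (x i) (A i)| ≤ ε * Y := by
  induction s with
  | zero =>
    intro C0 x0 ε _ _ hε
    refine ⟨0, ε, hε, ?_⟩
    intro Om ω N x Y μ _ _ _ _ _ hk A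
    have h := hk (fun _ => 0) (fun _ => le_rfl)
    simpa using h
  | succ s ih =>
    intro C0 x0 ε hC0 hx0 hε
    obtain ⟨R1, η1, hη1, h1⟩ := ih C0 x0 ε hC0 hx0 hε
    obtain ⟨E, hE⟩ : ∃ E : ℝ, E = Real.exp x0 := ⟨_, rfl⟩
    have hE0 : 0 < E := by rw [hE]; exact Real.exp_pos _
    obtain ⟨R2, η2, hη2, h2⟩ := law_wa (C0 * E ^ s) x0 η1 (by positivity) hx0 hη1
    refine ⟨max R1 R2, η2, hη2, ?_⟩
    intro Om ω N x Y μ hx hxx hY hμ hμC hk A
    have hfac : ∀ k' : Fin s → ℕ, 0 ≤ ∏ i : Fin s, ((x i.succ) ^ (k' i) / (k' i).factorial) ∧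
        ∏ i : Fin s, ((x i.succ) ^ (k' i) / (k' i).factorial) ≤ E ^ s := by
      intro k'
      constructor
      · apply Finset.prod_nonneg
        intro i _
        have := hx i.succ
        positivity
      · calc ∏ i : Fin s, ((x i.succ) ^ (k' i) / ((k' i).factorial : ℝ)) ≤ ∏ _i : Fin s, E := by
              apply Finset.prod_le_prod
              · intro i _
                have := hx i.succ
                positivity
              · intro i _
                refine (pow_fac_le _ (hx i.succ) _).trans ?_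
                rw [hE]
                exact Real.exp_le_exp.2 (hxx _)
          _ = E ^ s := by rw [Finset.prod_const, card_univ, Fintype.card_fin]
    have step : ∀ k' : Fin s → ℕ, (∀ i, k' i ≤ R1) →
        |∑ n ∈ Om, ((ω n * (if N 0 n ∈ A 0 then 1 else 0) : ℕ) : ℝ) *
          ∏ i : Fin s, ((N i.succ n).choose (k' i) : ℝ) -
          μ * pois (x 0) (A 0) * ∏ i : Fin s, ((x i.succ) ^ (k' i) / (k' i).factorial)| ≤ η1 * Y := by
      intro k' hk'
      have h3 := h2 Om (fun n => ω n * ∏ i : Fin s, (N i.succ n).choose (k' i)) (N 0) (x 0) Y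
        (μ * ∏ i : Fin s, ((x i.succ) ^ (k' i) / (k' i).factorial)) (hx 0) (hxx 0) hY
        (mul_nonneg hμ (hfac k').1) (by
          calc μ * ∏ i : Fin s, ((x i.succ) ^ (k' i) / ((k' i).factorial : ℝ)) ≤ (C0 * Y) * E ^ s :=
                mul_le_mul hμC (hfac k').2 (hfac k').1 (by positivity)
            _ = C0 * E ^ s * Y := by ring) (by
          intro k0 hk0
          have h4 := hk (Fin.cons k0 k') (fun i => by
            refine Fin.cases ?_ (fun j => ?_) i
            · simp only [Fin.cons_zero]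
              exact hk0.trans (le_max_right _ _)
            · simp only [Fin.cons_succ]
              exact (hk' j).trans (le_max_left _ _))
          simp only [Fin.prod_univ_succ, Fin.cons_zero, Fin.cons_succ] at h4
          have e1 : ∑ n ∈ Om, ((ω n * ∏ i : Fin s, (N i.succ n).choose (k' i) : ℕ) : ℝ) *
              ((N 0 n).choose k0 : ℝ) = ∑ n ∈ Om, (ω n : ℝ) * (((N 0 n).choose k0 : ℝ) *
              ∏ i : Fin s, ((N i.succ n).choose (k' i) : ℝ)) := by
            apply Finset.sum_congr rfl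
            intro n _
            push_cast
            ring
          have e2 : (μ * ∏ i : Fin s, ((x i.succ) ^ (k' i) / ((k' i).factorial : ℝ))) *
              (x 0 ^ k0 / k0.factorial) = μ * (x 0 ^ k0 / k0.factorial *
              ∏ i : Fin s, ((x i.succ) ^ (k' i) / ((k' i).factorial : ℝ))) := by ring
          rw [e1, e2]
          exact h4) (A 0)
      have e3 : ∑ n ∈ Om, ((ω n * (if N 0 n ∈ A 0 then 1 else 0) : ℕ) : ℝ) *
          ∏ i : Fin s, ((N i.succ n).choose (k' i) : ℝ) =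
          ∑ n ∈ Om, ((ω n * ∏ i : Fin s, (N i.succ n).choose (k' i) : ℕ) : ℝ) *
            (if N 0 n ∈ A 0 then 1 else 0) := by
        apply Finset.sum_congr rfl
        intro n _
        split_ifs <;> push_cast <;> ring
      have e4 : μ * pois (x 0) (A 0) * ∏ i : Fin s, ((x i.succ) ^ (k' i) / ((k' i).factorial : ℝ)) =
          (μ * ∏ i : Fin s, ((x i.succ) ^ (k' i) / ((k' i).factorial : ℝ))) * pois (x 0) (A 0) := by ring
      rw [e3, e4]
      exact h3
    have h5 := h1 Om (fun n => ω n * (if N 0 n ∈ A 0 then 1 else 0)) (fun i => N i.succ)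
      (fun i => x i.succ) Y (μ * pois (x 0) (A 0)) (fun i => hx _) (fun i => hxx _) hY
      (mul_nonneg hμ (pois_nonneg _ (hx 0) _)) (by
        refine le_trans ?_ hμC
        calc μ * pois (x 0) (A 0) ≤ μ * 1 := mul_le_mul_of_nonneg_left (pois_le_one _ (hx 0) _) hμ
          _ = μ := mul_one _) step (fun i => A i.succ)
    have e5 : ∑ n ∈ Om, (ω n : ℝ) * (if ∀ i, N i n ∈ A i then 1 else 0) =
        ∑ n ∈ Om, ((ω n * (if N 0 n ∈ A 0 then 1 else 0) : ℕ) : ℝ) *
          (if ∀ i : Fin s, N i.succ n ∈ A i.succ then 1 else 0) := by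
      apply Finset.sum_congr rfl
      intro n _
      by_cases h : ∀ i : Fin (s + 1), N i n ∈ A i
      · have ha : N 0 n ∈ A 0 := h 0
        have hb : ∀ i : Fin s, N i.succ n ∈ A i.succ := fun i => h i.succ
        rw [if_pos h, if_pos ha, if_pos hb]
        push_cast
        ring
      · rw [if_neg h]
        by_cases ha : N 0 n ∈ A 0
        · by_cases hb : ∀ i : Fin s, N i.succ n ∈ A i.succ
          · exact absurd (fun i => Fin.cases ha hb i) h
          · rw [if_pos ha, if_neg hb]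
            push_cast
            ring
        · rw [if_neg ha]
          push_cast
          ring
    rw [e5, Fin.prod_univ_succ, ← mul_assoc]
    exact h5

/-- a common lower bound -/
lemma exists_lower_fin {ι : Type*} (I : Finset ι) (f : ι → ℝ) (hf : ∀ i, 0 < f i) :
    ∃ η : ℝ, 0 < η ∧ ∀ i ∈ I, η ≤ f i := by
  classical
  induction I using Finset.induction_on with
  | empty => exact ⟨1, one_pos, by simp⟩
  | insert a I _ ih =>
    obtain ⟨η, h1, h2⟩ := ih
    refine ⟨min η (f a), lt_min h1 (hf a), ?_⟩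
    intro i hi
    rw [mem_insert] at hi
    rcases hi with rfl | hi
    · exact min_le_right _ _
    · exact (min_le_left _ _).trans (h2 i hi)

end Pool.Agent.TH464.PO
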