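import Pool.Agent.TH464.PO.SingM
import Pool.Agent.TH464.PO.Weigh
import Pool.Agent.TH464.PO.Gen

set_option autoImplicit false

/-!
# The joint law of the counts in several windows
-/

namespace Pool.Agent.TH464.PO

open Finset Pool.Agent.H373R2.T7 Pool.Agent.W123.RP Pool.Agent.W123.RU

variable {s : ℕ}

open Classical in
/-- mixed binomial moments as sums over families -/
lemma fam_choose (S : Finset ℕ) (P : ℕ → ℕ → Prop) (W : Fin s → Finset ℕ) (k : Fin s → ℕ) :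
    ∑ m ∈ S, ∏ i, ((((W i).filter (fun h => P m h)).card.choose (k i) : ℕ) : ℝ) =
      ∑ H ∈ Fam W k, ((S.filter (fun m => ∀ i, ∀ h ∈ H i, P m h)).card : ℝ) := by
  have h1 : ∀ H ∈ Fam W k, ((S.filter (fun m => ∀ i, ∀ h ∈ H i, P m h)).card : ℝ) =
      ∑ m ∈ S, ∏ i, if (∀ h ∈ H i, P m h) then (1 : ℝ) else 0 := by
    intro H _
    have e : ∀ m : ℕ, (∏ i, if (∀ h ∈ H i, P m h) then (1 : ℝ) else 0) =
        if (∀ i, ∀ h ∈ H i, P m h) then (1 : ℝ) else 0 := by
      intro m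
      rw [Finset.prod_ite_zero, Finset.prod_const_one]
      congr 1
      apply propext
      simp only [mem_univ, forall_const]
    rw [Finset.sum_congr rfl fun m _ => e m, Finset.sum_ite, Finset.sum_const_zero, add_zero,
      Finset.sum_const, nsmul_eq_mul, mul_one]
  rw [Finset.sum_congr rfl h1, Finset.sum_comm]
  apply Finset.sum_congr rfl
  intro m _
  have h2 := Finset.prod_univ_sum (fun i => powersetCard (k i) (W i))
    (fun i (H : Finset ℕ) => if (∀ h ∈ H, P m h) then (1 : ℝ) else 0)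
  unfold Fam
  rw [← h2]
  apply Finset.prod_congr rfl
  intro i _
  rw [Finset.sum_ite, Finset.sum_const_zero, add_zero, Finset.sum_const, nsmul_eq_mul, mul_one,
    ← Finset.card_powersetCard]
  congr 2
  ext H
  rw [mem_filter, mem_powersetCard, mem_powersetCard]
  constructor
  · rintro ⟨a1, a2⟩
    exact ⟨⟨fun h hh => (mem_filter.1 (a1 hh)).1, a2⟩, fun h hh => (mem_filter.1 (a1 hh)).2⟩
  · rintro ⟨⟨a1, a2⟩, a3⟩
    exact ⟨fun h hh => mem_filter.2 ⟨a1 hh, a3 h hh⟩, a2⟩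

open Classical in
/-- the number of sifted integers in `(n + a, n + b]` -/
noncomputable def Na (Q : ℕ → ℕ → Prop) (y a b n : ℕ) : ℕ :=
  ((Ioc a b).filter (fun h => Sf Q y (n + h))).card

lemma sf_Un (Q : ℕ → ℕ → Prop) (H : ∀ _ : Fin s, Finset ℕ) (y m : ℕ) :
    Sf (QH Q (Un H)) y m ↔ ∀ i, ∀ h ∈ H i, Sf Q y (m + h) := by
  rw [sf_QH]
  unfold Un
  constructor
  · intro h i x hx
    exact h x (mem_biUnion.2 ⟨i, mem_univ _, hx⟩)
  · intro h x hx
    obtain ⟨i, _, hi⟩ := mem_biUnion.1 hx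
    exact h i x hi

open Classical in
/-- **Mixed binomial moments.** -/
theorem moment_multi (c : ℕ) (hc : 1 ≤ c) (k : Fin s → ℕ) (x0 η : ℝ) (hx0 : 1 ≤ x0) (hη : 0 < η) :
    ∃ (K0 y0 T0 R0 : ℕ) (η' : ℝ), 0 < η' ∧ ∀ Y y T : ℕ, y0 ≤ y → y ^ K0 ≤ Y → T0 ≤ T → T ^ R0 ≤ Y →
      ∀ Q : ℕ → ℕ → Prop, PerB Q c → (∀ p : ℕ, p.Prime → nuB Q p < p) → T * Vq Q y ≤ x0 →
      (∀ t ∈ Icc 1 T, ((((pz y).filter (fun p : ℕ => T < p ∧ CoG Q p t)).card : ℕ) : ℝ) ≤ η' * T) →
      ∀ a b : Fin s → ℕ, (∀ i, a i ≤ b i) → (∀ i, b i ≤ T) →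
      (∀ i j, i ≠ j → Disjoint (Ioc (a i) (b i)) (Ioc (a j) (b j))) →
      |∑ n ∈ Icc 1 Y, ∏ i, ((Na Q y (a i) (b i) n).choose (k i) : ℝ) -
        Y * ∏ i, ((((b i : ℝ) - a i) * Vq Q y) ^ (k i) / (k i).factorial)| ≤ η * Y := by
  rcases Nat.eq_zero_or_pos (∑ i, k i) with hk0 | hkpos
  · refine ⟨1, 1, 1, 1, 1, one_pos, ?_⟩
    intro Y y T _ _ _ _ Q _ _ _ _ a b _ _ _
    have hz : ∀ i, k i = 0 := fun i => (Finset.sum_eq_zero_iff.1 hk0) i (mem_univ i)
    have e1 : ∀ n ∈ Icc 1 Y, ∏ i, ((Na Q y (a i) (b i) n).choose (k i) : ℝ) = 1 := by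
      intro n _
      apply Finset.prod_eq_one
      intro i _
      rw [hz i]
      simp
    have e2 : ∏ i, ((((b i : ℝ) - a i) * Vq Q y) ^ (k i) / ((k i).factorial : ℝ)) = 1 := by
      apply Finset.prod_eq_one
      intro i _
      rw [hz i]
      simp
    rw [Finset.sum_congr rfl e1, e2, Finset.sum_const, Nat.card_Icc, Nat.add_sub_cancel,
      nsmul_eq_mul]
    simp only [sub_self, abs_zero]
    positivity
  · obtain ⟨S, hS⟩ : ∃ S, S = ∑ i, k i := ⟨_, rfl⟩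
    rw [← hS] at hkpos
    obtain ⟨X, hX⟩ : ∃ X : ℝ, X = x0 ^ S := ⟨_, rfl⟩
    have hX1 : 1 ≤ X := by rw [hX]; exact one_le_pow₀ hx0
    obtain ⟨η1, hη1⟩ : ∃ η1 : ℝ, η1 = min 1 (η / (4 * X)) := ⟨_, rfl⟩
    have hη10 : 0 < η1 := by rw [hη1]; positivity
    have hη11 : η1 ≤ 1 := by rw [hη1]; exact min_le_left _ _
    have hη12 : η1 * X ≤ η / 4 := by
      have : η1 ≤ η / (4 * X) := by rw [hη1]; exact min_le_right _ _
      rw [le_div_iff₀ (by positivity)] at this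
      linarith
    obtain ⟨w, η', T0, hη', hsing⟩ := sing_multi c k (by rw [← hS]; exact hkpos) η1 hη10 hη11
    obtain ⟨K0, y0, _, hfund⟩ := sys_fund (S * c) (Nat.mul_pos hkpos hc) (η / (8 * X)) (by positivity)
    obtain ⟨y1, hy1⟩ : ∃ y1 : ℕ, (4 / η) ^ 4 ≤ y1 := exists_nat_ge _
    refine ⟨K0 + 1, y0 + y1 + w + 1, T0 + 1, 4 * (S + 1), η', hη', ?_⟩
    intro Y y T hy hyY hT hTR Q hQ hadm hx hcol a b hab hbT hdis
    have hy1' : 1 ≤ y := by omega
    have hyK : y ^ K0 ≤ Y := (Nat.pow_le_pow_right hy1' (by omega)).trans hyY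
    have hyY' : y ≤ Y := by
      calc y = y ^ 1 := (pow_one y).symm
        _ ≤ y ^ (K0 + 1) := Nat.pow_le_pow_right hy1' (by omega)
        _ ≤ Y := hyY
    have hT1 : 1 ≤ T := by omega
    have hY1 : (4 / η) ^ 4 ≤ (Y : ℝ) := hy1.trans (by exact_mod_cast (by omega : y1 ≤ Y))
    have hYpos : (0 : ℝ) < Y := lt_of_lt_of_le (by positivity) hY1
    have hV0 := Vq_nonneg Q y
    have hTV0 : 0 ≤ T * Vq Q y := mul_nonneg (Nat.cast_nonneg _) hV0
    have s1 := hsing T (by omega) Q hQ hadm y (by omega) hcol a b hab hbT hdis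
    rw [← hS] at s1
    have hTX : (T * Vq Q y) ^ S ≤ X := by
      rw [hX]
      exact pow_le_pow_left₀ hTV0 hx S
    obtain ⟨P, hP⟩ : ∃ P : ℝ, P = ∏ i, ((((b i : ℝ) - a i) * Vq Q y) ^ (k i) / (k i).factorial) := ⟨_, rfl⟩
    obtain ⟨Sg, hSg⟩ : ∃ x : ℝ, x = ∑ H ∈ Fam (fun i => Ioc (a i) (b i)) k, Vq (QH Q (Un H)) y := ⟨_, rfl⟩
    rw [← hP, ← hSg] at s1
    rw [← hP]
    have s2 : |Sg - P| ≤ η / 4 := s1.trans ((mul_le_mul_of_nonneg_left hTX hη10.le).trans hη12)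
    have hPX : P ≤ X := by
      rw [hP]
      refine le_trans ?_ hTX
      rw [hS]
      apply prod_le_pow
      · intro i
        have : (a i : ℝ) ≤ b i := by exact_mod_cast hab i
        exact mul_nonneg (by linarith) hV0
      · intro i
        apply mul_le_mul_of_nonneg_right _ hV0
        have h1 : (b i : ℝ) ≤ T := by exact_mod_cast hbT i
        have h2 : (0 : ℝ) ≤ a i := Nat.cast_nonneg _
        linarith
    have hSX : Sg ≤ 2 * X := by
      have h1 := (abs_le.1 s1).2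
      have h2 : η1 * (T * Vq Q y) ^ S ≤ 1 * X := mul_le_mul hη11 hTX (by positivity) (by norm_num)
      linarith
    -- the fundamental lemma
    have e0 : ∑ n ∈ Icc 1 Y, ∏ i, ((Na Q y (a i) (b i) n).choose (k i) : ℝ) =
        ∑ H ∈ Fam (fun i => Ioc (a i) (b i)) k,
          (((Icc 1 Y).filter (fun n => Sf (QH Q (Un H)) y n)).card : ℝ) := by
      have h1 := fam_choose (Icc 1 Y) (fun m h => Sf Q y (m + h)) (fun i => Ioc (a i) (b i)) k
      unfold Na
      rw [h1]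
      apply Finset.sum_congr rfl
      intro H _
      congr 2
      apply Finset.filter_congr
      intro m _
      exact (sf_Un Q H y m).symm
    rw [e0]
    have h1 : |∑ H ∈ Fam (fun i => Ioc (a i) (b i)) k,
        (((Icc 1 Y).filter (fun n => Sf (QH Q (Un H)) y n)).card : ℝ) - Y * Sg| ≤
        η / (8 * X) * (Y * Sg) + T ^ S * √(Y : ℝ) := by
      have e : Y * Sg = ∑ H ∈ Fam (fun i => Ioc (a i) (b i)) k, (Y : ℝ) * Vq (QH Q (Un H)) y := by
        rw [hSg, Finset.mul_sum]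
      rw [e, ← Finset.sum_sub_distrib]
      refine (Finset.abs_sum_le_sum_abs _ _).trans ?_
      have h2 : ∀ H ∈ Fam (fun i => Ioc (a i) (b i)) k,
          |(((Icc 1 Y).filter (fun n => Sf (QH Q (Un H)) y n)).card : ℝ) - Y * Vq (QH Q (Un H)) y| ≤
          η / (8 * X) * (Y * Vq (QH Q (Un H)) y) + √(Y : ℝ) := by
        intro H hH
        have hper := perB_QH Q c hQ (Un H)
        rw [Un_card _ hdis k H hH, ← hS] at hper
        have h3 := hfund Y y (by omega) hyK (QH Q (Un H)) hper Y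
        have e1 : ∏ p ∈ pz y, (1 - (nuB (QH Q (Un H)) p : ℝ) / p) = Vq (QH Q (Un H)) y := rfl
        rw [e1] at h3
        unfold Sf
        convert h3
      refine (Finset.sum_le_sum h2).trans ?_
      rw [Finset.sum_add_distrib, ← Finset.mul_sum, Finset.sum_const, nsmul_eq_mul]
      have h3 : ((Fam (fun i => Ioc (a i) (b i)) k).card : ℝ) ≤ (T : ℝ) ^ S := by
        have h4 := sum_fam_le (fun i => Ioc (a i) (b i)) hdis T (by
          intro i x hx
          rw [mem_Ioc] at hx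
          rw [mem_Icc]
          have := hbT i
          omega) k (fun _ => 1) (fun _ => zero_le_one)
        rw [Finset.sum_const, Finset.sum_const, nsmul_eq_mul, nsmul_eq_mul, mul_one, mul_one, ← hS,
          card_powersetCard, Nat.card_Icc, Nat.add_sub_cancel] at h4
        refine h4.trans ?_
        exact_mod_cast Nat.choose_le_pow T S
      have h4 := mul_le_mul_of_nonneg_right h3 (Real.sqrt_nonneg (Y : ℝ))
      linarith
    have hs4 : 4 / η ≤ √(√(Y : ℝ)) := by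
      apply Real.le_sqrt_of_sq_le
      apply Real.le_sqrt_of_sq_le
      calc ((4 / η) ^ 2) ^ 2 = (4 / η) ^ 4 := by ring
        _ ≤ (Y : ℝ) := hY1
    have hTr1 : (1 : ℝ) ≤ T := by exact_mod_cast hT1
    have hT4 : (T : ℝ) ^ (S + 1) ≤ √(√(Y : ℝ)) := by
      apply Real.le_sqrt_of_sq_le
      apply Real.le_sqrt_of_sq_le
      calc (((T : ℝ) ^ (S + 1)) ^ 2) ^ 2 = (T : ℝ) ^ (4 * (S + 1)) := by
            rw [← pow_mul, ← pow_mul]
            congr 1
            ring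
        _ ≤ Y := by exact_mod_cast hTR
    have hTS : (T : ℝ) ^ S ≤ √(√(Y : ℝ)) := (pow_le_pow_right₀ hTr1 (Nat.le_succ S)).trans hT4
    have hTY : (T : ℝ) ^ S * √(Y : ℝ) ≤ η / 4 * Y := by
      have e1 : √(√(Y : ℝ)) * √(√(Y : ℝ)) = √(Y : ℝ) := Real.mul_self_sqrt (Real.sqrt_nonneg _)
      have e2 : √(Y : ℝ) * √(Y : ℝ) = Y := Real.mul_self_sqrt hYpos.le
      have h1 : (T : ℝ) ^ S * (4 / η) ≤ √(Y : ℝ) := by
        rw [← e1]
        exact mul_le_mul hTS hs4 (by positivity) (Real.sqrt_nonneg _)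
      calc (T : ℝ) ^ S * √(Y : ℝ) = η / 4 * ((T : ℝ) ^ S * (4 / η)) * √(Y : ℝ) := by
            field_simp
        _ ≤ η / 4 * √(Y : ℝ) * √(Y : ℝ) := by gcongr
        _ = η / 4 * Y := by rw [mul_assoc, e2]
    have h5 : |Y * Sg - Y * P| ≤ η / 4 * Y := by
      rw [← mul_sub, abs_mul, abs_of_pos hYpos]
      calc (Y : ℝ) * |Sg - P| ≤ Y * (η / 4) := mul_le_mul_of_nonneg_left s2 hYpos.le
        _ = _ := mul_comm _ _
    have h6 : η / (8 * X) * (Y * Sg) ≤ η / 4 * Y := by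
      calc η / (8 * X) * (Y * Sg) ≤ η / (8 * X) * (Y * (2 * X)) := by gcongr
        _ = η / 4 * Y := by
          field_simp
          ring
    refine (abs_sub_le _ (Y * Sg) _).trans ?_
    have h7 : 0 ≤ η * Y := by positivity
    linarith

end Pool.Agent.TH464.PO
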