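import Pool.Agent.TH464.PO.LinLaw
import Pool.Agent.TH464.PO.Mom2

set_option autoImplicit false

/-!
# Linear forms: exact density in all windows; the laws, packaged
-/

namespace Pool.Agent.TH464.PO

open Finset Filter
open Pool.Agent.W123.RP Pool.Agent.H373R2.T7 Pool.Agent.W123.RU
open Pool.Agent.TH464.PW

open Classical in
/-- **Exact density in all windows** for linear forms, uniformly in the forms. -/
theorem lin_exact (K A : ℕ) (hK : 1 ≤ K) (θ : ℝ) (hθ : 0 < θ) (ε : ℝ) (hε : 0 < ε) :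
    ∃ (κ : ℝ) (s0 : ℕ), 0 < κ ∧ ∀ s : ℕ, s0 ≤ s → ∀ᶠ X : ℕ in atTop, ∀ u v : Fin K → ℤ,
      LF K u v (X ^ A) (Real.log X ^ (K + 1)) → ∀ Z Y : ℕ, (X : ℝ) ^ θ ≤ Z → (X : ℝ) ^ θ ≤ Y →
      (((Ioc Z (Z + Y)).filter (fun n => ¬ Exact (Sf (QL u v) ⌊(X : ℝ) ^ (1 / (s : ℝ))⌋₊)
        (Vq (QL u v) ⌊(X : ℝ) ^ (1 / (s : ℝ))⌋₊) κ ε Z Y n)).card : ℝ) ≤ ε * Y ∧
      (((Ioc Z (Z + Y)).filter (fun n => Sf (QL u v) ⌊(X : ℝ) ^ (1 / (s : ℝ))⌋₊ n ∧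
        ¬ Exact (Sf (QL u v) ⌊(X : ℝ) ^ (1 / (s : ℝ))⌋₊)
        (Vq (QL u v) ⌊(X : ℝ) ^ (1 / (s : ℝ))⌋₊) κ ε Z Y n)).card : ℝ) ≤
          ε * (Y * Vq (QL u v) ⌊(X : ℝ) ^ (1 / (s : ℝ))⌋₊) := by
  obtain ⟨K0, y0, T0, η1, κ, x1, K', hη1, hκ, hx1, hK', hex⟩ := gen_exact K hK ε hε
  obtain ⟨T2, hT2⟩ : ∃ T2 : ℕ, 1 / κ ^ 2 ≤ T2 := exists_nat_ge _
  obtain ⟨s0, h0⟩ := lin_sizes K A θ hθ K0 y0 (T0 + T2 + 1) 5 η1 1 (2 * x1) hη1
    one_pos (by linarith)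
  refine ⟨K', s0, hK', ?_⟩
  intro s hs
  filter_upwards [h0 s hs] with X hX
  intro u v hLF Z Y hXZ hXY
  obtain ⟨y, hy⟩ : ∃ y, y = ⌊(X : ℝ) ^ (1 / (s : ℝ))⌋₊ := ⟨_, rfl⟩
  rw [← hy]
  obtain ⟨a1, a2, a3, a4, a5, a6⟩ := hX u v hLF Y hXY y hy
  obtain ⟨b1, b2, b3, b4, b5, b6⟩ := hX u v hLF Z hXZ y hy
  refine hex (QL u v) Z Y y a1 a2 (lf_perB hLF) (fun p hp => lf_adm hLF p hp) (Vq_le_one _ _) ?_
  intro T h1 h2
  obtain ⟨c1, c2, c3⟩ := a6 T (hx1.trans h1) h2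
  obtain ⟨d1, d2, d3⟩ := b6 T (hx1.trans h1) h2
  have hT1 : 1 ≤ T := by omega
  have hTr1 : (1 : ℝ) ≤ T := by exact_mod_cast hT1
  have hT5 : T ≤ T ^ 5 := by
    calc T = T ^ 1 := (pow_one T).symm
      _ ≤ T ^ 5 := Nat.pow_le_pow_right hT1 (by norm_num)
  refine ⟨by omega, hT5.trans d2, hT5.trans c2, ?_, c3⟩
  have hκT : 1 ≤ T * κ ^ 2 := by
    have : 1 / κ ^ 2 ≤ T := hT2.trans (by exact_mod_cast (by omega : T2 ≤ T))
    rwa [div_le_iff₀ (by positivity)] at this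
  have h3 : ((T : ℝ) ^ 2 / κ) ^ 2 ≤ Y := by
    have h4 : ((T : ℝ) ^ 2 / κ) ^ 2 ≤ (T : ℝ) ^ 5 := by
      rw [div_pow, div_le_iff₀ (by positivity)]
      calc ((T : ℝ) ^ 2) ^ 2 = T ^ 4 * 1 := by ring
        _ ≤ T ^ 4 * (T * κ ^ 2) := by gcongr
        _ = (T : ℝ) ^ 5 * κ ^ 2 := by ring
    refine h4.trans ?_
    exact_mod_cast c2
  have h4 := Real.le_sqrt_of_sq_le h3
  rw [div_le_iff₀ hκ] at h4
  linarith

/-- the windows are short -/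
lemma lin_short (K A : ℕ) (x : ℝ) (r : ℕ) (hr : 2 ≤ r) : ∀ᶠ X : ℕ in atTop, ∀ u v : Fin K → ℤ,
    LF K u v (X ^ A) (Real.log X ^ (K + 1)) →
    ∀ T : ℕ, T * Vq (QL u v) ⌊(X : ℝ) ^ (1 / (r : ℝ))⌋₊ ≤ x → T ≤ X := by
  obtain ⟨v0, hv, hVlow⟩ := V_lower_unif K
  have hrr : (2 : ℝ) ≤ r := by exact_mod_cast hr
  have hpow2 : Tendsto (fun X : ℕ => (X : ℝ) ^ (1 / (2 * r : ℝ))) atTop atTop :=
    (tendsto_rpow_atTop (by positivity)).comp tendsto_natCast_atTop_atTop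
  filter_upwards [hpow2.eventually_ge_atTop 3, eventually_ge_atTop 16,
    logpow_rpow K (|x| / v0 + 1) 1 (by positivity) one_pos] with X hX1 hX16 hlp
  intro u v hLF T hT
  obtain ⟨hy1, hy2, hy3, hy4⟩ := level_low r hr X (by omega) (by linarith)
  obtain ⟨y, hy⟩ : ∃ y, y = ⌊(X : ℝ) ^ (1 / (r : ℝ))⌋₊ := ⟨_, rfl⟩
  rw [← hy] at hy1 hy2 hy3 hy4 hT
  have hVlo := hVlow (QL u v) (lf_perB hLF) (fun p hp => lf_adm hLF p hp) y hy4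
  have hlogy : 0 < Real.log y := Real.log_pos (by exact_mod_cast (by omega : 1 < y))
  have hT0 : (0 : ℝ) ≤ T := Nat.cast_nonneg T
  rw [Real.rpow_one] at hlp
  have h3 : (T : ℝ) * (v0 / Real.log y ^ K) ≤ |x| :=
    (mul_le_mul_of_nonneg_left hVlo hT0).trans (hT.trans (le_abs_self x))
  have h4 : (T : ℝ) ≤ |x| / v0 * Real.log y ^ K := by
    rw [div_mul_eq_mul_div, le_div_iff₀ hv]
    calc (T : ℝ) * v0 = T * (v0 / Real.log y ^ K) * Real.log y ^ K := by field_simp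
      _ ≤ |x| * Real.log y ^ K := by gcongr
  have h5 : Real.log y ^ K ≤ Real.log X ^ K := pow_le_pow_left₀ hlogy.le hy3 K
  have h6 : 0 ≤ Real.log X ^ K := (pow_nonneg hlogy.le K).trans h5
  have h7 : (T : ℝ) ≤ X := by
    calc (T : ℝ) ≤ |x| / v0 * Real.log y ^ K := h4
      _ ≤ |x| / v0 * Real.log X ^ K := by gcongr
      _ ≤ (|x| / v0 + 1) * Real.log X ^ K := by nlinarith
      _ ≤ X := hlp
  exact_mod_cast h7

open Classical in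
/-- Poisson, packaged: the condition agrees with `g` up to `M`. -/
theorem lp_pois (K A : ℕ) (hK : 1 ≤ K) (θ : ℝ) (hθ : 0 < θ) (x ε : ℝ) (hε : 0 < ε) :
    ∃ r0 : ℕ, ∀ r : ℕ, r0 ≤ r → ∀ᶠ X : ℕ in atTop, ∀ u v : Fin K → ℤ,
      LF K u v (X ^ A) (Real.log X ^ (K + 1)) → ∀ (g : ℕ → Prop) (V : ℝ) (M : ℕ),
      (∀ m ≤ M, Sf (QL u v) ⌊(X : ℝ) ^ (1 / (r : ℝ))⌋₊ m ↔ g m) →
      Vq (QL u v) ⌊(X : ℝ) ^ (1 / (r : ℝ))⌋₊ = V →
      ∀ Z Y : ℕ, (X : ℝ) ^ θ ≤ Y →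
      ∀ T : ℕ, Z + Y + T ≤ M → T * V ≤ x → ∀ E : Finset ℕ,
        |(((Ioc Z (Z + Y)).filter (fun n => ((Ioc n (n + T)).filter
          (fun m => g m)).card ∈ E)).card : ℝ) -
          Y * ∑ j ∈ E, Real.exp (-(T * V)) * (T * V) ^ j / j.factorial| ≤ ε * Y := by
  obtain ⟨r0, h0⟩ := lin K A hK θ hθ 0 x ε hε
  refine ⟨r0, ?_⟩
  intro r hr
  filter_upwards [h0 r hr] with X hX
  intro u v hLF g V M hg hv Z Y hXY T hM hT2 E
  subst hv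
  have hmain := (hX u v hLF Z Y hXY).1 T hT2 E
  have hcount : ((Ioc Z (Z + Y)).filter (fun n => ((Ioc n (n + T)).filter
      (fun m => g m)).card ∈ E)).card =
      ((Ioc Z (Z + Y)).filter
        (fun n => Wc (Sf (QL u v) ⌊(X : ℝ) ^ (1 / (r : ℝ))⌋₊) n T ∈ E)).card := by
    congr 1
    apply Finset.filter_congr
    intro n hn
    rw [mem_Ioc] at hn
    have e : ((Ioc n (n + T)).filter (fun m => g m)).card =
        Wc (Sf (QL u v) ⌊(X : ℝ) ^ (1 / (r : ℝ))⌋₊) n T := by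
      unfold Wc
      congr 1
      apply Finset.filter_congr
      intro m hm
      rw [mem_Ioc] at hm
      exact (hg m (by omega)).symm
    rw [e]
  rw [hcount]
  exact hmain

open Classical in
/-- the gaps, packaged -/
theorem lp_gaps (K A : ℕ) (hK : 1 ≤ K) (θ : ℝ) (hθ : 0 < θ) (k0 : ℕ) (x ε : ℝ) (hε : 0 < ε) :
    ∃ r0 : ℕ, ∀ r : ℕ, r0 ≤ r → ∀ᶠ X : ℕ in atTop, ∀ u v : Fin K → ℤ,
      LF K u v (X ^ A) (Real.log X ^ (K + 1)) → ∀ (g : ℕ → Prop) (V : ℝ) (M : ℕ),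
      (∀ m ≤ M, Sf (QL u v) ⌊(X : ℝ) ^ (1 / (r : ℝ))⌋₊ m ↔ g m) →
      Vq (QL u v) ⌊(X : ℝ) ^ (1 / (r : ℝ))⌋₊ = V →
      ∀ Z Y : ℕ, (X : ℝ) ^ θ ≤ Y → Z + Y ≤ M →
      ∀ k T : ℕ, (k ≤ k0 ∨ T * V ≤ x) →
        |(((Ioc Z (Z + Y)).filter (fun b => g b ∧
          ((Ico (b - T) b).filter (fun m => g m)).card < k)).card : ℝ) - Y * V *
          ∑ j ∈ Finset.range k, Real.exp (-(T * V)) * (T * V) ^ j / j.factorial| ≤
            ε * (Y * V) := by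
  obtain ⟨r0, h0⟩ := lin K A hK θ hθ k0 x ε hε
  refine ⟨r0, ?_⟩
  intro r hr
  filter_upwards [h0 r hr] with X hX
  intro u v hLF g V M hg hv Z Y hXY hM k T hkT
  subst hv
  have hmain := (hX u v hLF Z Y hXY).2 k T hkT
  have hcount : ((Ioc Z (Z + Y)).filter (fun b => g b ∧
      ((Ico (b - T) b).filter (fun m => g m)).card < k)).card =
      Pk (Sf (QL u v) ⌊(X : ℝ) ^ (1 / (r : ℝ))⌋₊) k T Z Y := by
    unfold Pk
    congr 1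
    apply Finset.filter_congr
    intro b hb
    rw [mem_Ioc] at hb
    rw [← hg b (by omega)]
    apply and_congr Iff.rfl
    have e : (Ico (b - T) b).filter (fun m => g m) =
        (Ico (b - T) b).filter (Sf (QL u v) ⌊(X : ℝ) ^ (1 / (r : ℝ))⌋₊) := by
      apply Finset.filter_congr
      intro m hm
      rw [mem_Ico] at hm
      exact (hg m (by omega)).symm
    rw [e]
  rw [hcount]
  exact hmain

open Classical in
/-- exact density, packaged -/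
theorem lp_ex (K A : ℕ) (hK : 1 ≤ K) (θ : ℝ) (hθ : 0 < θ) (ε : ℝ) (hε : 0 < ε) :
    ∃ (κ : ℝ) (r0 : ℕ), 0 < κ ∧ ∀ r : ℕ, r0 ≤ r → ∀ᶠ X : ℕ in atTop, ∀ u v : Fin K → ℤ,
      LF K u v (X ^ A) (Real.log X ^ (K + 1)) → ∀ (g : ℕ → Prop) (V : ℝ) (M : ℕ),
      (∀ m ≤ M, Sf (QL u v) ⌊(X : ℝ) ^ (1 / (r : ℝ))⌋₊ m ↔ g m) →
      Vq (QL u v) ⌊(X : ℝ) ^ (1 / (r : ℝ))⌋₊ = V →
      ∀ Z Y : ℕ, (X : ℝ) ^ θ ≤ Z → (X : ℝ) ^ θ ≤ Y → Z + Y ≤ M →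
      (((Ioc Z (Z + Y)).filter (fun n => ¬ ∀ a b : ℕ, Z ≤ a → a < n → n ≤ b → b ≤ Z + Y →
        κ ≤ ((b : ℝ) - a) * V →
        |(((Ioc a b).filter (fun m => g m)).card : ℝ) - (b - a) * V| ≤
          ε * ((b - a) * V))).card : ℝ) ≤ ε * Y ∧
      (((Ioc Z (Z + Y)).filter (fun n => g n ∧
        ¬ ∀ a b : ℕ, Z ≤ a → a < n → n ≤ b → b ≤ Z + Y →
        κ ≤ ((b : ℝ) - a) * V →
        |(((Ioc a b).filter (fun m => g m)).card : ℝ) - (b - a) * V| ≤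
          ε * ((b - a) * V))).card : ℝ) ≤ ε * (Y * V) := by
  obtain ⟨κ, r0, hκ, h0⟩ := lin_exact K A hK θ hθ ε hε
  refine ⟨κ, r0, hκ, ?_⟩
  intro r hr
  filter_upwards [h0 r hr] with X hX
  intro u v hLF g V M hg hV Z Y hXZ hXY hM
  have hmain := hX u v hLF Z Y hXZ hXY
  rw [hV] at hmain
  have key : ∀ n ∈ Ioc Z (Z + Y),
      Exact (Sf (QL u v) ⌊(X : ℝ) ^ (1 / (r : ℝ))⌋₊) V κ ε Z Y n →
      ∀ a b : ℕ, Z ≤ a → a < n → n ≤ b → b ≤ Z + Y → κ ≤ ((b : ℝ) - a) * V →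
        |(((Ioc a b).filter (fun m => g m)).card : ℝ) - (b - a) * V| ≤ ε * ((b - a) * V) := by
    intro n hn hex a b hu hun hnv hv hKV
    have h1 := hex a b hu hun hnv hv hKV
    have hN : ((Ioc a b).filter (fun m => g m)).card =
        Cc (Sf (QL u v) ⌊(X : ℝ) ^ (1 / (r : ℝ))⌋₊) a b := by
      unfold Cc
      congr 1
      apply Finset.filter_congr
      intro m hm
      rw [mem_Ioc] at hm
      exact (hg m (by omega)).symm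
    rw [hN]
    exact h1
  constructor
  · refine le_trans ?_ hmain.1
    have : ((Ioc Z (Z + Y)).filter (fun n => ¬ ∀ a b : ℕ, Z ≤ a → a < n → n ≤ b → b ≤ Z + Y →
        κ ≤ ((b : ℝ) - a) * V →
        |(((Ioc a b).filter (fun m => g m)).card : ℝ) -
          (b - a) * V| ≤ ε * ((b - a) * V))).card ≤
        ((Ioc Z (Z + Y)).filter (fun n => ¬ Exact (Sf (QL u v) ⌊(X : ℝ) ^ (1 / (r : ℝ))⌋₊)
          V κ ε Z Y n)).card := by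
      apply card_le_card
      intro n hn
      rw [mem_filter] at hn ⊢
      exact ⟨hn.1, fun hex => hn.2 (key n hn.1 hex)⟩
    exact_mod_cast this
  · refine le_trans ?_ hmain.2
    have : ((Ioc Z (Z + Y)).filter (fun n => g n ∧
        ¬ ∀ a b : ℕ, Z ≤ a → a < n → n ≤ b → b ≤ Z + Y → κ ≤ ((b : ℝ) - a) * V →
        |(((Ioc a b).filter (fun m => g m)).card : ℝ) -
          (b - a) * V| ≤ ε * ((b - a) * V))).card ≤
        ((Ioc Z (Z + Y)).filter (fun n => Sf (QL u v) ⌊(X : ℝ) ^ (1 / (r : ℝ))⌋₊ n ∧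
          ¬ Exact (Sf (QL u v) ⌊(X : ℝ) ^ (1 / (r : ℝ))⌋₊) V κ ε Z Y n)).card := by
      apply card_le_card
      intro n hn
      rw [mem_filter] at hn ⊢
      have hn1 := mem_Ioc.1 hn.1
      exact ⟨hn.1, (hg n (by omega)).2 hn.2.1,
        fun hex => hn.2.2 (key n hn.1 hex)⟩
    exact_mod_cast this

end Pool.Agent.TH464.PO
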