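import Pool.Agent.TH464.PO.Ext
import Pool.Agent.TH464.PO.PolyGap
import Pool.Agent.TH464.PO.PolyExact
import Pool.Agent.TH464.PW.Quad

set_option autoImplicit false

/-!
# The three laws, for the almost prime values of a system of polynomials
-/

namespace Pool.Agent.TH464.PO

open Polynomial Finset Filter
open Pool.Agent.W123.RP Pool.Agent.H373R2.T7 Pool.Agent.W123.RU Pool.Agent.W123.RU.Poly
open Pool.Agent.TH464.PW

variable {ι : Type} [Fintype ι]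

/-- a polynomial on `[0, 3 X]` -/
lemma eval_le (f : ℤ[X]) (d : ℕ) (hd : f.natDegree ≤ d) : ∃ K : ℝ, 0 < K ∧ ∀ X m : ℕ, 1 ≤ X →
    m ≤ 3 * X → (((f.eval (m : ℤ)).natAbs : ℕ) : ℝ) ≤ K * (X : ℝ) ^ d := by
  refine ⟨(∑ i ∈ range (f.natDegree + 1), |((f.coeff i : ℤ) : ℝ)|) * 3 ^ d + 1, by positivity, ?_⟩
  intro X m hX hm
  have hX1 : (1 : ℝ) ≤ X := by exact_mod_cast hX
  have hm' : (m : ℝ) ≤ 3 * X := by exact_mod_cast hm
  have hm0 : (0 : ℝ) ≤ m := Nat.cast_nonneg m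
  have e1 : (((f.eval (m : ℤ)).natAbs : ℕ) : ℝ) = |((f.eval (m : ℤ) : ℤ) : ℝ)| := by
    rw [Nat.cast_natAbs, Int.cast_abs]
  rw [e1, eval_eq_sum_range]
  push_cast
  calc |∑ i ∈ range (f.natDegree + 1), ((f.coeff i : ℤ) : ℝ) * (m : ℝ) ^ i|
      ≤ ∑ i ∈ range (f.natDegree + 1), |((f.coeff i : ℤ) : ℝ) * (m : ℝ) ^ i| :=
        Finset.abs_sum_le_sum_abs _ _
    _ ≤ ∑ i ∈ range (f.natDegree + 1), |((f.coeff i : ℤ) : ℝ)| * (3 ^ d * (X : ℝ) ^ d) := by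
        apply Finset.sum_le_sum
        intro i hi
        rw [mem_range] at hi
        rw [abs_mul, abs_of_nonneg (by positivity : (0 : ℝ) ≤ (m : ℝ) ^ i)]
        apply mul_le_mul_of_nonneg_left _ (abs_nonneg _)
        calc (m : ℝ) ^ i ≤ (3 * (X : ℝ)) ^ i := pow_le_pow_left₀ hm0 hm' i
          _ ≤ (3 * (X : ℝ)) ^ d := pow_le_pow_right₀ (by linarith) (by omega)
          _ = 3 ^ d * (X : ℝ) ^ d := mul_pow _ _ _
    _ = ((∑ i ∈ range (f.natDegree + 1), |((f.coeff i : ℤ) : ℝ)|) * 3 ^ d) * (X : ℝ) ^ d := by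
        rw [← Finset.sum_mul]
        ring
    _ ≤ _ := by
        have : (0 : ℝ) ≤ (X : ℝ) ^ d := by positivity
        nlinarith

/-- sifted = almost prime -/
lemma sf_sys (f : ι → ℤ[X]) (D : ι → ℕ) (hD : ∀ i, (f i).natDegree ≤ D i) (r : ℕ) (hr : 1 ≤ r) :
    ∀ᶠ X : ℕ in atTop, ∀ m : ℕ, m ≤ 3 * X → (Sf (Q f) ⌊(X : ℝ) ^ (1 / (r : ℝ))⌋₊ m ↔
      ∀ i, ((f i).eval (m : ℤ)).natAbs.primeFactorsList.length ≤ D i * r ∧
        ∀ p : ℕ, p.Prime → (p : ℤ) ∣ (f i).eval (m : ℤ) → (X : ℝ) ^ (1 / (r : ℝ)) < (p : ℝ)) := by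
  have hr0 : (0 : ℝ) < r := by exact_mod_cast hr
  choose K hK hKb using fun i => eval_le (f i) (D i) (hD i)
  have hpow1 : Tendsto (fun X : ℕ => (X : ℝ) ^ (1 / (r : ℝ))) atTop atTop :=
    (tendsto_rpow_atTop (by positivity)).comp tendsto_natCast_atTop_atTop
  filter_upwards [hpow1.eventually_ge_atTop (∑ i, K i + 2), eventually_ge_atTop 2] with X hX hX2
  intro m hm
  have hX0 : (0 : ℝ) < X := by exact_mod_cast (by omega : 0 < X)
  have hsum0 : 0 ≤ ∑ i, K i := Finset.sum_nonneg fun i _ => (hK i).le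
  have h2 : (2 : ℝ) ≤ (X : ℝ) ^ (1 / (r : ℝ)) := by linarith
  have h2mem : 2 ∈ pz ⌊(X : ℝ) ^ (1 / (r : ℝ))⌋₊ := by
    rw [mem_pz]
    exact ⟨Nat.le_floor (by exact_mod_cast h2), Nat.prime_two⟩
  constructor
  · intro h i
    have h3 : ∀ p : ℕ, p.Prime → (p : ℤ) ∣ (f i).eval (m : ℤ) →
        (X : ℝ) ^ (1 / (r : ℝ)) < (p : ℝ) := by
      intro p hp hd
      apply not_mem_pz hp
      intro hmem
      exact h p hmem ⟨i, hd⟩
    have hne : (f i).eval (m : ℤ) ≠ 0 := by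
      intro h0
      apply h 2 h2mem
      exact ⟨i, by rw [h0]; exact dvd_zero _⟩
    refine ⟨?_, h3⟩
    apply length_le _ (D i * r) (Int.natAbs_ne_zero.2 hne) _
      (fun p hp hd => h3 p hp (Int.natCast_dvd.2 hd)) _ (by linarith)
    have e1 : ((X : ℝ) ^ (1 / (r : ℝ))) ^ (D i * r + 1) = X ^ D i * (X : ℝ) ^ (1 / (r : ℝ)) := by
      rw [pow_succ]
      congr 1
      rw [← Real.rpow_natCast, ← Real.rpow_mul hX0.le]
      have : (1 / (r : ℝ)) * ((D i * r : ℕ) : ℝ) = ((D i : ℕ) : ℝ) := by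
        push_cast
        field_simp
      rw [this, Real.rpow_natCast]
    rw [e1]
    have hKi : K i ≤ (X : ℝ) ^ (1 / (r : ℝ)) := by
      have := Finset.single_le_sum (f := K) (fun j _ => (hK j).le) (mem_univ i)
      linarith
    calc ((((f i).eval (m : ℤ)).natAbs : ℕ) : ℝ) ≤ K i * (X : ℝ) ^ D i := hKb i X m (by omega) hm
      _ ≤ (X : ℝ) ^ (1 / (r : ℝ)) * (X : ℝ) ^ D i := by gcongr
      _ = _ := mul_comm _ _
  · intro h p hp hq
    obtain ⟨i, hi⟩ := hq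
    have h1 := (h i).2 p (mem_pz.1 hp).2 hi
    have h2 := mem_pz' (by positivity) hp
    linarith

/-- the windows are short -/
lemma short_sys [Nonempty ι] (f : ι → ℤ[X]) (hf : Sys f) (x : ℝ) (r : ℕ) (hr : 2 ≤ r) :
    ∀ᶠ X : ℕ in atTop, ∀ T : ℕ, T * Vq (Q f) ⌊(X : ℝ) ^ (1 / (r : ℝ))⌋₊ ≤ x → T ≤ X := by
  obtain ⟨v, Cv, hv, hCv, hV⟩ := V_bounds f hf
  obtain ⟨k, hk⟩ : ∃ k, k = Fintype.card ι := ⟨_, rfl⟩
  rw [← hk] at hV
  have hrr : (2 : ℝ) ≤ r := by exact_mod_cast hr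
  have hpow2 : Tendsto (fun X : ℕ => (X : ℝ) ^ (1 / (2 * r : ℝ))) atTop atTop :=
    (tendsto_rpow_atTop (by positivity)).comp tendsto_natCast_atTop_atTop
  filter_upwards [hpow2.eventually_ge_atTop 3, eventually_ge_atTop 16,
    logpow_rpow k (|x| / v + 1) 1 (by positivity) one_pos] with X hX1 hX16 hlp
  intro T hT
  obtain ⟨hy1, hy2, hy3, hy4⟩ := level_low r hr X (by omega) (by linarith)
  obtain ⟨y, hy⟩ : ∃ y, y = ⌊(X : ℝ) ^ (1 / (r : ℝ))⌋₊ := ⟨_, rfl⟩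
  rw [← hy] at hy1 hy2 hy3 hy4 hT
  have hy3' : 3 ≤ y := by
    have : (3 : ℝ) ≤ y := by linarith
    exact_mod_cast this
  have hVlo := (hV y hy3').1
  have hlogy : 0 < Real.log y := Real.log_pos (by exact_mod_cast (by omega : 1 < y))
  have hT0 : (0 : ℝ) ≤ T := Nat.cast_nonneg T
  rw [Real.rpow_one] at hlp
  have h3 : (T : ℝ) * (v / Real.log y ^ k) ≤ |x| :=
    (mul_le_mul_of_nonneg_left hVlo hT0).trans (hT.trans (le_abs_self x))
  have h4 : (T : ℝ) ≤ |x| / v * Real.log y ^ k := by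
    rw [div_mul_eq_mul_div, le_div_iff₀ hv]
    calc (T : ℝ) * v = T * (v / Real.log y ^ k) * Real.log y ^ k := by field_simp
      _ ≤ |x| * Real.log y ^ k := by gcongr
  have h5 : Real.log y ^ k ≤ Real.log X ^ k := pow_le_pow_left₀ hlogy.le hy3 k
  have h6 : 0 ≤ Real.log X ^ k := (pow_nonneg hlogy.le k).trans h5
  have h7 : (T : ℝ) ≤ X := by
    calc (T : ℝ) ≤ |x| / v * Real.log y ^ k := h4
      _ ≤ |x| / v * Real.log X ^ k := by gcongr
      _ ≤ (|x| / v + 1) * Real.log X ^ k := by nlinarith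
      _ ≤ X := hlp
  exact_mod_cast h7

/-! ### The laws -/

section
variable (f : ι → ℤ[X]) (AP : ℕ → ℕ → ℕ → Prop) (V : ℕ → ℕ → ℝ)

open Classical in
/-- Poisson -/
theorem pack_poisson [Nonempty ι] (hf : Sys f) (hT : NoTr f)
    (hAP : ∀ r : ℕ, 1 ≤ r → ∀ᶠ X : ℕ in atTop, ∀ m : ℕ, m ≤ 3 * X →
      (Sf (Q f) ⌊(X : ℝ) ^ (1 / (r : ℝ))⌋₊ m ↔ AP r X m))
    (hV : ∀ r X : ℕ, Vq (Q f) ⌊(X : ℝ) ^ (1 / (r : ℝ))⌋₊ = V r X)
    (θ : ℝ) (hθ : 0 < θ) (x ε : ℝ) (hε : 0 < ε) :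
    ∃ r0 : ℕ, ∀ r : ℕ, r0 ≤ r → ∀ᶠ X : ℕ in atTop, ∀ Y : ℕ, (X : ℝ) ^ θ ≤ Y → Y ≤ X →
      ∀ T : ℕ, T * V r X ≤ x → ∀ A : Finset ℕ,
        |(((Finset.Ioc X (X + Y)).filter (fun n =>
          ((Finset.Ioc n (n + T)).filter (fun m => AP r X m)).card ∈ A)).card : ℝ) -
          Y * ∑ j ∈ A, Real.exp (-(T * V r X)) * (T * V r X) ^ j / j.factorial| ≤ ε * Y := by
  obtain ⟨r0, h0⟩ := poisson_all f hf hT θ hθ x ε hε
  refine ⟨max r0 2, ?_⟩
  intro r hr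
  have hr2 : 2 ≤ r := (le_max_right _ _).trans hr
  filter_upwards [h0 r ((le_max_left _ _).trans hr), hAP r (by omega), short_sys f hf x r hr2]
    with X hX hap hs
  intro Y hXY hYX T hT2 A
  have hTX : T ≤ X := hs T (by rw [hV]; exact hT2)
  have hmain := hX Y hXY T (by rw [hV]; exact hT2) A
  rw [hV] at hmain
  have hcount : ((Finset.Ioc X (X + Y)).filter (fun n =>
      ((Finset.Ioc n (n + T)).filter (fun m => AP r X m)).card ∈ A)).card =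
      ((Finset.Ioc X (X + Y)).filter
        (fun n => Np f ⌊(X : ℝ) ^ (1 / (r : ℝ))⌋₊ T n ∈ A)).card := by
    congr 1
    apply Finset.filter_congr
    intro n hn
    rw [mem_Ioc] at hn
    have e : ((Finset.Ioc n (n + T)).filter (fun m => AP r X m)).card =
        Np f ⌊(X : ℝ) ^ (1 / (r : ℝ))⌋₊ T n := by
      unfold Np
      congr 1
      apply Finset.filter_congr
      intro m hm
      rw [mem_Ioc] at hm
      exact (hap m (by omega)).symm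
    rw [e]
  rw [hcount]
  exact hmain

open Classical in
/-- the gaps -/
theorem pack_gaps [Nonempty ι] (hf : Sys f) (hT : NoTr f)
    (hAP : ∀ r : ℕ, 1 ≤ r → ∀ᶠ X : ℕ in atTop, ∀ m : ℕ, m ≤ 3 * X →
      (Sf (Q f) ⌊(X : ℝ) ^ (1 / (r : ℝ))⌋₊ m ↔ AP r X m))
    (hV : ∀ r X : ℕ, Vq (Q f) ⌊(X : ℝ) ^ (1 / (r : ℝ))⌋₊ = V r X)
    (θ : ℝ) (hθ : 0 < θ) (k0 : ℕ) (x ε : ℝ) (hε : 0 < ε) :
    ∃ r0 : ℕ, ∀ r : ℕ, r0 ≤ r → ∀ᶠ X : ℕ in atTop, ∀ Y : ℕ, (X : ℝ) ^ θ ≤ Y → Y ≤ X →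
      ∀ k T : ℕ, (k ≤ k0 ∨ T * V r X ≤ x) →
        |(((Finset.Ioc X (X + Y)).filter (fun b => AP r X b ∧
          ((Finset.Ico (b - T) b).filter (fun m => AP r X m)).card < k)).card : ℝ) - Y * V r X *
          ∑ j ∈ Finset.range k, Real.exp (-(T * V r X)) * (T * V r X) ^ j / j.factorial| ≤
            ε * (Y * V r X) := by
  obtain ⟨r0, h0⟩ := gaps f hf hT θ hθ k0 x ε hε
  refine ⟨max r0 2, ?_⟩
  intro r hr
  have hr2 : 2 ≤ r := (le_max_right _ _).trans hr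
  filter_upwards [h0 r ((le_max_left _ _).trans hr), hAP r (by omega)] with X hX hap
  intro Y hXY hYX k T hkT
  have hmain := hX Y hXY k T (by rw [hV]; exact hkT)
  rw [hV] at hmain
  have hcount : ((Finset.Ioc X (X + Y)).filter (fun b => AP r X b ∧
      ((Finset.Ico (b - T) b).filter (fun m => AP r X m)).card < k)).card =
      Pk (Sf (Q f) ⌊(X : ℝ) ^ (1 / (r : ℝ))⌋₊) k T X Y := by
    unfold Pk
    congr 1
    apply Finset.filter_congr
    intro b hb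
    rw [mem_Ioc] at hb
    rw [← hap b (by omega)]
    apply and_congr Iff.rfl
    have e : (Finset.Ico (b - T) b).filter (fun m => AP r X m) =
        (Finset.Ico (b - T) b).filter (Sf (Q f) ⌊(X : ℝ) ^ (1 / (r : ℝ))⌋₊) := by
      apply Finset.filter_congr
      intro m hm
      rw [mem_Ico] at hm
      exact (hap m (by omega)).symm
    rw [e]
  rw [hcount]
  exact hmain

open Classical in
/-- exact density around the integers and around the elements -/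
theorem pack_exact [Nonempty ι] (hf : Sys f) (hT : NoTr f)
    (hAP : ∀ r : ℕ, 1 ≤ r → ∀ᶠ X : ℕ in atTop, ∀ m : ℕ, m ≤ 3 * X →
      (Sf (Q f) ⌊(X : ℝ) ^ (1 / (r : ℝ))⌋₊ m ↔ AP r X m))
    (hV : ∀ r X : ℕ, Vq (Q f) ⌊(X : ℝ) ^ (1 / (r : ℝ))⌋₊ = V r X)
    (θ : ℝ) (hθ : 0 < θ) (ε : ℝ) (hε : 0 < ε) :
    ∃ (K : ℝ) (r0 : ℕ), 0 < K ∧ ∀ r : ℕ, r0 ≤ r → ∀ᶠ X : ℕ in atTop, ∀ Y : ℕ, (X : ℝ) ^ θ ≤ Y → Y ≤ X →
      (((Finset.Ioc X (X + Y)).filter (fun n => ¬ ∀ u v : ℕ, X ≤ u → u < n → n ≤ v → v ≤ X + Y →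
        K ≤ ((v : ℝ) - u) * V r X →
        |(((Finset.Ioc u v).filter (fun k => AP r X k)).card : ℝ) - (v - u) * V r X| ≤
          ε * ((v - u) * V r X))).card : ℝ) ≤ ε * Y ∧
      (((Finset.Ioc X (X + Y)).filter (fun n => AP r X n ∧
        ¬ ∀ u v : ℕ, X ≤ u → u < n → n ≤ v → v ≤ X + Y →
        K ≤ ((v : ℝ) - u) * V r X →
        |(((Finset.Ioc u v).filter (fun k => AP r X k)).card : ℝ) - (v - u) * V r X| ≤
          ε * ((v - u) * V r X))).card : ℝ) ≤ ε * (Y * V r X) := by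
  obtain ⟨K, r0, hK, h0⟩ := exact_poly f hf hT θ hθ ε hε
  refine ⟨K, max r0 1, hK, ?_⟩
  intro r hr
  have hr1 : 1 ≤ r := (le_max_right _ _).trans hr
  filter_upwards [h0 r ((le_max_left _ _).trans hr), hAP r hr1] with X hX hap
  intro Y hXY hYX
  have hmain := hX Y hXY hYX
  rw [hV] at hmain
  have key : ∀ n ∈ Finset.Ioc X (X + Y),
      Exact (Sf (Q f) ⌊(X : ℝ) ^ (1 / (r : ℝ))⌋₊) (V r X) K ε X Y n →
      ∀ u v : ℕ, X ≤ u → u < n → n ≤ v → v ≤ X + Y → K ≤ ((v : ℝ) - u) * V r X →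
        |(((Finset.Ioc u v).filter (fun k => AP r X k)).card : ℝ) - (v - u) * V r X| ≤
          ε * ((v - u) * V r X) := by
    intro n hn hex u v hu hun hnv hv hKV
    have h1 := hex u v hu hun hnv hv hKV
    have hN : ((Finset.Ioc u v).filter (fun k => AP r X k)).card =
        Cc (Sf (Q f) ⌊(X : ℝ) ^ (1 / (r : ℝ))⌋₊) u v := by
      unfold Cc
      congr 1
      apply Finset.filter_congr
      intro m hm
      rw [mem_Ioc] at hm
      exact (hap m (by omega)).symm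
    rw [hN]
    exact h1
  constructor
  · refine le_trans ?_ hmain.1
    have : ((Finset.Ioc X (X + Y)).filter (fun n => ¬ ∀ u v : ℕ, X ≤ u → u < n → n ≤ v → v ≤ X + Y →
        K ≤ ((v : ℝ) - u) * V r X →
        |(((Finset.Ioc u v).filter (fun k => AP r X k)).card : ℝ) - (v - u) * V r X| ≤
          ε * ((v - u) * V r X))).card ≤
        ((Ioc X (X + Y)).filter (fun n => ¬ Exact (Sf (Q f) ⌊(X : ℝ) ^ (1 / (r : ℝ))⌋₊)
          (V r X) K ε X Y n)).card := by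
      apply card_le_card
      intro n hn
      rw [mem_filter] at hn ⊢
      exact ⟨hn.1, fun hex => hn.2 (key n hn.1 hex)⟩
    exact_mod_cast this
  · refine le_trans ?_ hmain.2
    have : ((Finset.Ioc X (X + Y)).filter (fun n => AP r X n ∧
        ¬ ∀ u v : ℕ, X ≤ u → u < n → n ≤ v → v ≤ X + Y →
        K ≤ ((v : ℝ) - u) * V r X →
        |(((Finset.Ioc u v).filter (fun k => AP r X k)).card : ℝ) - (v - u) * V r X| ≤
          ε * ((v - u) * V r X))).card ≤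
        ((Ioc X (X + Y)).filter (fun n => Sf (Q f) ⌊(X : ℝ) ^ (1 / (r : ℝ))⌋₊ n ∧
          ¬ Exact (Sf (Q f) ⌊(X : ℝ) ^ (1 / (r : ℝ))⌋₊) (V r X) K ε X Y n)).card := by
      apply card_le_card
      intro n hn
      rw [mem_filter] at hn ⊢
      have hn1 := mem_Ioc.1 hn.1
      exact ⟨hn.1, (hap n (by omega)).2 hn.2.1, fun hex => hn.2.2 (key n hn.1 hex)⟩
    exact_mod_cast this

end

end Pool.Agent.TH464.PO
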