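import Pool.Agent.TH464.PO.Joint
import Pool.Agent.TH464.PO.LinExact
import Pool.Agent.TH464.PO.Pack

set_option autoImplicit false

/-!
# The joint law of the counts in several windows, in all intervals
-/

namespace Pool.Agent.TH464.PO

open Finset Filter
open Pool.Agent.W123.RP Pool.Agent.H373R2.T7 Pool.Agent.W123.RU Pool.Agent.W123.RU.Poly
open Pool.Agent.TH464.PW

open Classical in
lemma Na_Qt (Q : ℕ → ℕ → Prop) (y a b Z n : ℕ) : Na (Qt Q Z) y a b n =
    ((Ioc (n + Z + a) (n + Z + b)).filter (fun m => Sf Q y m)).card := by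
  unfold Na
  apply Finset.card_bij (fun h _ => n + Z + h)
  · intro h hh
    rw [mem_filter, mem_Ioc] at hh
    rw [mem_filter, mem_Ioc]
    refine ⟨by omega, ?_⟩
    have := (sf_Qt Q Z y (n + h)).1 hh.2
    rwa [show n + h + Z = n + Z + h by ring] at this
  · intro a _ b _ hab
    omega
  · intro m hm
    rw [mem_filter, mem_Ioc] at hm
    refine ⟨m - (n + Z), ?_, by omega⟩
    rw [mem_filter, mem_Ioc]
    refine ⟨by omega, ?_⟩
    rw [sf_Qt, show n + (m - (n + Z)) + Z = m by omega]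
    exact hm.2

open Classical in
/-- **The joint law** of the counts in several disjoint windows, in all intervals. -/
theorem joint_law (s c : ℕ) (hc : 1 ≤ c) (x0 ε : ℝ) (hε : 0 < ε) :
    ∃ (K0 y0 T0 R0 : ℕ) (η' : ℝ), 0 < η' ∧
      ∀ (Q : ℕ → ℕ → Prop) (Z Y y : ℕ), PerB Q c → (∀ p : ℕ, p.Prime → nuB Q p < p) → y0 ≤ y →
      y ^ K0 ≤ Y →
      (∀ T : ℕ, 1 ≤ T * Vq Q y → T * Vq Q y ≤ |x0| + 2 → T0 ≤ T ∧ T ^ R0 ≤ Y ∧ ∀ t ∈ Icc 1 T,
        ((((pz y).filter (fun p : ℕ => T < p ∧ CoG Q p t)).card : ℕ) : ℝ) ≤ η' * T) →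
      ∀ a b : Fin s → ℕ, (∀ i, a i ≤ b i) → (∀ i, b i * Vq Q y ≤ x0) →
      (∀ i j, i ≠ j → Disjoint (Ioc (a i) (b i)) (Ioc (a j) (b j))) →
      ∀ A : Fin s → Finset ℕ,
        |(((Ioc Z (Z + Y)).filter (fun n => ∀ i,
          ((Ioc (n + a i) (n + b i)).filter (fun m => Sf Q y m)).card ∈ A i)).card : ℝ) -
          Y * ∏ i, pois (((b i : ℝ) - a i) * Vq Q y) (A i)| ≤ ε * Y := by
  obtain ⟨R, η, hη, h⟩ := joint_tv s 1 (|x0| + 2) ε zero_le_one (by positivity) hε
  have hx02 : (1 : ℝ) ≤ |x0| + 2 := by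
    have := abs_nonneg x0
    linarith
  choose K1 y1 T1 R1 e1 he1 hm using fun k : Fin s → ℕ => moment_multi c hc k (|x0| + 2) η hx02 hη
  obtain ⟨I, hI⟩ : ∃ I, I = Fintype.piFinset (fun _ : Fin s => range (R + 1)) := ⟨_, rfl⟩
  obtain ⟨η', hη', hη'2⟩ := exists_lower_fin I e1 he1
  refine ⟨∑ k ∈ I, K1 k, ∑ k ∈ I, y1 k + 1, ∑ k ∈ I, T1 k, ∑ k ∈ I, R1 k, η', hη', ?_⟩
  intro Q Z Y y hQ hadm hy hyY hT a b hab hb hdis A
  have hV0 : 0 < Vq Q y := Vq_pos Q hadm y
  have hV1 : Vq Q y ≤ 1 := Vq_le_one Q y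
  have hY0 : (0 : ℝ) ≤ Y := Nat.cast_nonneg Y
  have hy1 : 1 ≤ y := by omega
  obtain ⟨T, hTdef⟩ : ∃ T : ℕ, T = ⌈(|x0| + 1) / Vq Q y⌉₊ := ⟨_, rfl⟩
  have hxa := abs_nonneg x0
  have hT1 : |x0| + 1 ≤ T * Vq Q y := by
    have := Nat.le_ceil ((|x0| + 1) / Vq Q y)
    rw [← hTdef, div_le_iff₀ hV0] at this
    exact this
  have hT2 : T * Vq Q y ≤ |x0| + 2 := by
    have := (Nat.ceil_lt_add_one (by positivity : 0 ≤ (|x0| + 1) / Vq Q y)).le
    rw [← hTdef] at this
    calc T * Vq Q y ≤ ((|x0| + 1) / Vq Q y + 1) * Vq Q y := mul_le_mul_of_nonneg_right this hV0.le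
      _ = |x0| + 1 + Vq Q y := by field_simp
      _ ≤ |x0| + 2 := by linarith
  obtain ⟨hT0, hTR, hlarge⟩ := hT T (by linarith) hT2
  have hTpos : 1 ≤ T := by
    rcases Nat.eq_zero_or_pos T with h0 | h0
    · rw [h0] at hT1
      push_cast at hT1
      linarith
    · exact h0
  have hbT : ∀ i, b i ≤ T := by
    intro i
    have h1 : (b i : ℝ) * Vq Q y ≤ T * Vq Q y := by
      have := hb i
      have := le_abs_self x0
      linarith
    exact_mod_cast le_of_mul_le_mul_right h1 hV0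
  have hx0 : ∀ i, 0 ≤ ((b i : ℝ) - a i) * Vq Q y := by
    intro i
    have : (a i : ℝ) ≤ b i := by exact_mod_cast hab i
    exact mul_nonneg (by linarith) hV0.le
  have hxx : ∀ i, ((b i : ℝ) - a i) * Vq Q y ≤ |x0| + 2 := by
    intro i
    have h1 : (0 : ℝ) ≤ a i * Vq Q y := by positivity
    have := hb i
    have := le_abs_self x0
    linarith
  have hmain := h (Icc 1 Y) (fun _ => 1) (fun i n => Na (Qt Q Z) y (a i) (b i) n)
    (fun i => ((b i : ℝ) - a i) * Vq Q y) Y Y hx0 hxx hY0 hY0 (by rw [one_mul]) (by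
      intro k hk
      have hkI : k ∈ I := by
        rw [hI, Fintype.mem_piFinset]
        intro i
        rw [mem_range]
        have := hk i
        omega
      have hs1 : K1 k ≤ ∑ k ∈ I, K1 k := Finset.single_le_sum (fun _ _ => Nat.zero_le _) hkI
      have hs2 : y1 k ≤ ∑ k ∈ I, y1 k := Finset.single_le_sum (fun _ _ => Nat.zero_le _) hkI
      have hs3 : T1 k ≤ ∑ k ∈ I, T1 k := Finset.single_le_sum (fun _ _ => Nat.zero_le _) hkI
      have hs4 : R1 k ≤ ∑ k ∈ I, R1 k := Finset.single_le_sum (fun _ _ => Nat.zero_le _) hkI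
      have hkm := hm k Y y T (by omega) ((Nat.pow_le_pow_right hy1 hs1).trans hyY) (by omega)
        ((Nat.pow_le_pow_right hTpos hs4).trans hTR) (Qt Q Z) (perB_Qt Q c hQ Z) (fun p hp => by
          rw [nuB_Qt Q c hQ]
          exact hadm p hp) (by rw [Vq_Qt Q c hQ]; exact hT2) (fun t ht => by
          have h3 : ((((pz y).filter (fun p : ℕ => T < p ∧ CoG Q p t)).card : ℕ) : ℝ) ≤ e1 k * T := by
            refine (hlarge t ht).trans ?_
            exact mul_le_mul_of_nonneg_right (hη'2 k hkI) (Nat.cast_nonneg _)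
          refine le_trans ?_ h3
          have : ((pz y).filter (fun p : ℕ => T < p ∧ CoG (Qt Q Z) p t)).card ≤
              ((pz y).filter (fun p : ℕ => T < p ∧ CoG Q p t)).card := by
            apply card_le_card
            intro p hp
            rw [mem_filter] at hp ⊢
            obtain ⟨h1, h2, m, h3, h4⟩ := hp
            refine ⟨h1, h2, m + Z, h3, ?_⟩
            unfold Qt at h4
            rwa [show m + t + Z = m + Z + t by ring] at h4
          exact_mod_cast this) a b hab hbT hdis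
      rw [Vq_Qt Q c hQ] at hkm
      refine le_trans (le_of_eq ?_) hkm
      congr 2
      apply Finset.sum_congr rfl
      intro n _
      rw [Nat.cast_one, one_mul]) A
  have hcount : (((Ioc Z (Z + Y)).filter (fun n => ∀ i,
      ((Ioc (n + a i) (n + b i)).filter (fun m => Sf Q y m)).card ∈ A i)).card : ℝ) =
      ∑ n ∈ Icc 1 Y, ((1 : ℕ) : ℝ) * (if ∀ i, Na (Qt Q Z) y (a i) (b i) n ∈ A i then 1 else 0) := by
    have e1 : ∑ n ∈ Icc 1 Y, ((1 : ℕ) : ℝ) * (if ∀ i, Na (Qt Q Z) y (a i) (b i) n ∈ A i then 1 else 0)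
        = (((Icc 1 Y).filter (fun n => ∀ i, Na (Qt Q Z) y (a i) (b i) n ∈ A i)).card : ℝ) := by
      rw [Finset.card_filter]
      push_cast
      apply Finset.sum_congr rfl
      intro n _
      rw [one_mul]
    rw [e1]
    congr 1
    symm
    apply Finset.card_bij (fun n _ => n + Z)
    · intro n hn
      rw [mem_filter, mem_Icc] at hn
      rw [mem_filter, mem_Ioc]
      refine ⟨by omega, ?_⟩
      intro i
      have := hn.2 i
      rwa [Na_Qt] at this
    · intro a _ b _ hab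
      omega
    · intro n hn
      rw [mem_filter, mem_Ioc] at hn
      refine ⟨n - Z, ?_, by omega⟩
      rw [mem_filter, mem_Icc]
      refine ⟨by omega, ?_⟩
      intro i
      rw [Na_Qt, show n - Z + Z = n by omega]
      exact hn.2 i
  rw [hcount]
  exact hmain

/-- disjointness of windows -/
lemma win_disj {s : ℕ} (a b : Fin s → ℕ) (h : ∀ i j, i ≠ j → b i ≤ a j ∨ b j ≤ a i) :
    ∀ i j, i ≠ j → Disjoint (Ioc (a i) (b i)) (Ioc (a j) (b j)) := by
  intro i j hij
  rw [Finset.disjoint_left]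
  intro x hx hy
  rw [mem_Ioc] at hx hy
  rcases h i j hij with h1 | h1 <;> omega

end Pool.Agent.TH464.PO
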