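import Pool.Agent.TH464.PO.JointLaw

set_option autoImplicit false

/-!
# The joint law for systems of polynomials and for linear forms
-/

namespace Pool.Agent.TH464.PO

open Polynomial Finset Filter
open Pool.Agent.W123.RP Pool.Agent.H373R2.T7 Pool.Agent.W123.RU Pool.Agent.W123.RU.Poly
open Pool.Agent.TH464.PW

variable {ι : Type} [Fintype ι]

open Classical in
/-- **The joint law** for systems of polynomials. -/
theorem joint_poly [Nonempty ι] (f : ι → ℤ[X]) (hf : Sys f) (hT : NoTr f) (θ : ℝ) (hθ : 0 < θ)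
    (s : ℕ) (x0 ε : ℝ) (hε : 0 < ε) :
    ∃ r0 : ℕ, ∀ r : ℕ, r0 ≤ r → ∀ᶠ X : ℕ in atTop, ∀ Y : ℕ, (X : ℝ) ^ θ ≤ Y →
      ∀ a b : Fin s → ℕ, (∀ i, a i ≤ b i) →
      (∀ i, b i * Vq (Q f) ⌊(X : ℝ) ^ (1 / (r : ℝ))⌋₊ ≤ x0) →
      (∀ i j, i ≠ j → b i ≤ a j ∨ b j ≤ a i) → ∀ A : Fin s → Finset ℕ,
        |(((Ioc X (X + Y)).filter (fun n => ∀ i, ((Ioc (n + a i) (n + b i)).filter
          (fun m => Sf (Q f) ⌊(X : ℝ) ^ (1 / (r : ℝ))⌋₊ m)).card ∈ A i)).card : ℝ) -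
          Y * ∏ i, pois (((b i : ℝ) - a i) * Vq (Q f) ⌊(X : ℝ) ^ (1 / (r : ℝ))⌋₊) (A i)| ≤ ε * Y := by
  obtain ⟨c, hc, hQ⟩ := exists_c f hf
  obtain ⟨K0, y0, T0, R0, η', hη', hlaw⟩ := joint_law s c hc x0 ε hε
  obtain ⟨r0, h0⟩ := poly_sizes f hf hT θ hθ K0 y0 T0 R0 η' 1 (|x0| + 2) hη' one_pos
    (by positivity)
  refine ⟨r0, ?_⟩
  intro r hr
  filter_upwards [h0 r hr] with X hX
  intro Y hXY a b hab hb hdis A
  obtain ⟨y, hy⟩ : ∃ y, y = ⌊(X : ℝ) ^ (1 / (r : ℝ))⌋₊ := ⟨_, rfl⟩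
  obtain ⟨a1, a2, a3⟩ := hX Y hXY y hy
  rw [← hy] at hb ⊢
  exact hlaw (Q f) X Y y hQ (fun p hp => Poly.adm f hf p hp) a1 a2 a3 a b hab hb
    (win_disj a b hdis) A

section
variable (f : ι → ℤ[X]) (AP : ℕ → ℕ → ℕ → Prop) (V : ℕ → ℕ → ℝ)

open Classical in
/-- the joint law, packaged -/
theorem pack_joint [Nonempty ι] (hf : Sys f) (hT : NoTr f)
    (hAP : ∀ r : ℕ, 1 ≤ r → ∀ᶠ X : ℕ in atTop, ∀ m : ℕ, m ≤ 3 * X →
      (Sf (Q f) ⌊(X : ℝ) ^ (1 / (r : ℝ))⌋₊ m ↔ AP r X m))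
    (hV : ∀ r X : ℕ, Vq (Q f) ⌊(X : ℝ) ^ (1 / (r : ℝ))⌋₊ = V r X)
    (θ : ℝ) (hθ : 0 < θ) (s : ℕ) (x ε : ℝ) (hε : 0 < ε) :
    ∃ r0 : ℕ, ∀ r : ℕ, r0 ≤ r → ∀ᶠ X : ℕ in atTop, ∀ Y : ℕ, (X : ℝ) ^ θ ≤ Y → Y ≤ X →
      ∀ a b : Fin s → ℕ, (∀ i, a i ≤ b i) → (∀ i, b i * V r X ≤ x) →
      (∀ i j, i ≠ j → b i ≤ a j ∨ b j ≤ a i) → ∀ A : Fin s → Finset ℕ,
        |(((Finset.Ioc X (X + Y)).filter (fun n => ∀ i,
          ((Finset.Ioc (n + a i) (n + b i)).filter (fun m => AP r X m)).card ∈ A i)).card : ℝ) -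
          Y * ∏ i, ∑ j ∈ A i, Real.exp (-(((b i : ℝ) - a i) * V r X)) *
            (((b i : ℝ) - a i) * V r X) ^ j / j.factorial| ≤ ε * Y := by
  obtain ⟨r0, h0⟩ := joint_poly f hf hT θ hθ s x ε hε
  refine ⟨max r0 2, ?_⟩
  intro r hr
  have hr2 : 2 ≤ r := (le_max_right _ _).trans hr
  filter_upwards [h0 r ((le_max_left _ _).trans hr), hAP r (by omega), short_sys f hf x r hr2]
    with X hX hap hs
  intro Y hXY hYX a b hab hb hdis A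
  have hbX : ∀ i, b i ≤ X := fun i => hs (b i) (by rw [hV]; exact hb i)
  have hmain := hX Y hXY a b hab (by
    intro i
    rw [hV]
    exact hb i) hdis A
  rw [hV] at hmain
  have hcount : ((Finset.Ioc X (X + Y)).filter (fun n => ∀ i,
      ((Finset.Ioc (n + a i) (n + b i)).filter (fun m => AP r X m)).card ∈ A i)).card =
      ((Finset.Ioc X (X + Y)).filter (fun n => ∀ i, ((Ioc (n + a i) (n + b i)).filter
          (fun m => Sf (Q f) ⌊(X : ℝ) ^ (1 / (r : ℝ))⌋₊ m)).card ∈ A i)).card := by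
    congr 1
    apply Finset.filter_congr
    intro n hn
    rw [mem_Ioc] at hn
    apply forall_congr'
    intro i
    have e : ((Finset.Ioc (n + a i) (n + b i)).filter (fun m => AP r X m)).card =
        ((Ioc (n + a i) (n + b i)).filter
          (fun m => Sf (Q f) ⌊(X : ℝ) ^ (1 / (r : ℝ))⌋₊ m)).card := by
      congr 1
      apply Finset.filter_congr
      intro m hm
      rw [mem_Ioc] at hm
      have := hbX i
      exact (hap m (by omega)).symm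
    rw [e]
  rw [hcount]
  exact hmain

end

open Classical in
/-- **The joint law** for linear forms, uniformly in the forms. -/
theorem lin_joint (K A : ℕ) (hK : 1 ≤ K) (θ : ℝ) (hθ : 0 < θ) (s : ℕ) (x0 ε : ℝ) (hε : 0 < ε) :
    ∃ r0 : ℕ, ∀ r : ℕ, r0 ≤ r → ∀ᶠ X : ℕ in atTop, ∀ u v : Fin K → ℤ,
      LF K u v (X ^ A) (Real.log X ^ (K + 1)) → ∀ Z Y : ℕ, (X : ℝ) ^ θ ≤ Y →
      ∀ a b : Fin s → ℕ, (∀ i, a i ≤ b i) →
      (∀ i, b i * Vq (QL u v) ⌊(X : ℝ) ^ (1 / (r : ℝ))⌋₊ ≤ x0) →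
      (∀ i j, i ≠ j → b i ≤ a j ∨ b j ≤ a i) → ∀ E : Fin s → Finset ℕ,
        |(((Ioc Z (Z + Y)).filter (fun n => ∀ i, ((Ioc (n + a i) (n + b i)).filter
          (fun m => Sf (QL u v) ⌊(X : ℝ) ^ (1 / (r : ℝ))⌋₊ m)).card ∈ E i)).card : ℝ) -
          Y * ∏ i, pois (((b i : ℝ) - a i) * Vq (QL u v) ⌊(X : ℝ) ^ (1 / (r : ℝ))⌋₊) (E i)| ≤
            ε * Y := by
  obtain ⟨K0, y0, T0, R0, η', hη', hlaw⟩ := joint_law s K hK x0 ε hε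
  obtain ⟨r0, h0⟩ := lin_sizes K A θ hθ K0 y0 T0 R0 η' 1 (|x0| + 2) hη' one_pos (by positivity)
  refine ⟨r0, ?_⟩
  intro r hr
  filter_upwards [h0 r hr] with X hX
  intro u v hLF Z Y hXY a b hab hb hdis E
  obtain ⟨y, hy⟩ : ∃ y, y = ⌊(X : ℝ) ^ (1 / (r : ℝ))⌋₊ := ⟨_, rfl⟩
  obtain ⟨a1, a2, a3, a4, a5, a6⟩ := hX u v hLF Y hXY y hy
  rw [← hy] at hb ⊢
  exact hlaw (QL u v) Z Y y (lf_perB hLF) (fun p hp => lf_adm hLF p hp) a1 a2 a6 a b hab hb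
    (win_disj a b hdis) E

open Classical in
/-- the joint law, packaged: the condition agrees with `g` up to `M`. -/
theorem lp_joint (K A : ℕ) (hK : 1 ≤ K) (θ : ℝ) (hθ : 0 < θ) (s : ℕ) (x ε : ℝ) (hε : 0 < ε) :
    ∃ r0 : ℕ, ∀ r : ℕ, r0 ≤ r → ∀ᶠ X : ℕ in atTop, ∀ u v : Fin K → ℤ,
      LF K u v (X ^ A) (Real.log X ^ (K + 1)) → ∀ (g : ℕ → Prop) (V : ℝ) (M : ℕ),
      (∀ m ≤ M, Sf (QL u v) ⌊(X : ℝ) ^ (1 / (r : ℝ))⌋₊ m ↔ g m) →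
      Vq (QL u v) ⌊(X : ℝ) ^ (1 / (r : ℝ))⌋₊ = V →
      ∀ Z Y : ℕ, (X : ℝ) ^ θ ≤ Y →
      ∀ a b : Fin s → ℕ, (∀ i, a i ≤ b i) → (∀ i, b i * V ≤ x) → (∀ i, Z + Y + b i ≤ M) →
      (∀ i j, i ≠ j → b i ≤ a j ∨ b j ≤ a i) → ∀ E : Fin s → Finset ℕ,
        |(((Ioc Z (Z + Y)).filter (fun n => ∀ i, ((Ioc (n + a i) (n + b i)).filter
          (fun m => g m)).card ∈ E i)).card : ℝ) -
          Y * ∏ i, ∑ j ∈ E i, Real.exp (-(((b i : ℝ) - a i) * V)) *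
            (((b i : ℝ) - a i) * V) ^ j / j.factorial| ≤ ε * Y := by
  obtain ⟨r0, h0⟩ := lin_joint K A hK θ hθ s x ε hε
  refine ⟨r0, ?_⟩
  intro r hr
  filter_upwards [h0 r hr] with X hX
  intro u v hLF g V M hg hv Z Y hXY a b hab hb hM hdis E
  subst hv
  have hmain := hX u v hLF Z Y hXY a b hab hb hdis E
  have hcount : ((Ioc Z (Z + Y)).filter (fun n => ∀ i, ((Ioc (n + a i) (n + b i)).filter
      (fun m => g m)).card ∈ E i)).card =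
      ((Ioc Z (Z + Y)).filter (fun n => ∀ i, ((Ioc (n + a i) (n + b i)).filter
          (fun m => Sf (QL u v) ⌊(X : ℝ) ^ (1 / (r : ℝ))⌋₊ m)).card ∈ E i)).card := by
    congr 1
    apply Finset.filter_congr
    intro n hn
    rw [mem_Ioc] at hn
    apply forall_congr'
    intro i
    have e : ((Ioc (n + a i) (n + b i)).filter (fun m => g m)).card =
        ((Ioc (n + a i) (n + b i)).filter
          (fun m => Sf (QL u v) ⌊(X : ℝ) ^ (1 / (r : ℝ))⌋₊ m)).card := by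
      congr 1
      apply Finset.filter_congr
      intro m hm
      rw [mem_Ioc] at hm
      have := hM i
      exact (hg m (by omega)).symm
    rw [e]
  rw [hcount]
  exact hmain

end Pool.Agent.TH464.PO
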