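import Pool.Agent.TH464.PO.SingMS

set_option autoImplicit false

/-!
# The joint law from the singular averages
-/

namespace Pool.Agent.TH464.PO

open Finset Pool.Agent.H373R2.T7 Pool.Agent.W123.RP Pool.Agent.W123.RU

variable {s : ℕ}

lemma SB_mono (Q : ℕ → ℕ → Prop) (y T k : ℕ) (η η' : ℝ) (h : η ≤ η') (hSB : SB Q y T k η) :
    SB Q y T k η' := by
  have h0 : 0 ≤ (T * Vq Q y) ^ (k + 1) / ((k + 1).factorial : ℝ) := by
    have := Vq_nonneg Q y
    positivity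
  constructor
  · refine le_trans ?_ hSB.1
    apply mul_le_mul_of_nonneg_right _ h0
    linarith
  · refine hSB.2.trans ?_
    apply mul_le_mul_of_nonneg_right _ h0
    linarith

open Classical in
/-- **Mixed binomial moments.** -/
theorem moment_multi_SB (c : ℕ) (hc : 1 ≤ c) (k : Fin s → ℕ) (x0 η : ℝ) (hx0 : 1 ≤ x0) (hη : 0 < η) :
    ∃ (K0 y0 T0 R0 R : ℕ) (η' : ℝ), 0 < η' ∧ ∀ Y y T : ℕ, y0 ≤ y → y ^ K0 ≤ Y → T0 ≤ T → T ^ R0 ≤ Y →
      ∀ Q : ℕ → ℕ → Prop, PerB Q c → (∀ p : ℕ, p.Prime → nuB Q p < p) → T * Vq Q y ≤ x0 →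
      (∀ j < R, SB Q y T j η') →
      ∀ a b : Fin s → ℕ, (∀ i, a i ≤ b i) → (∀ i, b i ≤ T) →
      (∀ i j, i ≠ j → Disjoint (Ioc (a i) (b i)) (Ioc (a j) (b j))) →
      |∑ n ∈ Icc 1 Y, ∏ i, ((Na Q y (a i) (b i) n).choose (k i) : ℝ) -
        Y * ∏ i, ((((b i : ℝ) - a i) * Vq Q y) ^ (k i) / (k i).factorial)| ≤ η * Y := by
  rcases Nat.eq_zero_or_pos (∑ i, k i) with hk0 | hkpos
  · refine ⟨1, 1, 1, 1, 1, 1, one_pos, ?_⟩
    intro Y y T _ _ _ _ Q _ _ _ _ a b _ _ _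
    have hz : ∀ i, k i = 0 := fun i => (Finset.sum_eq_zero_iff.1 hk0) i (mem_univ i)
    have e1 : ∀ n ∈ Icc 1 Y, ∏ i, ((Na Q y (a i) (b i) n).choose (k i) : ℝ) = 1 := by
      intro n _
      apply Finset.prod_eq_one
      intro i _
      rw [hz i]
      simp
    have e2 : ∏ i, ((((b i : ℝ) - a i) * Vq Q y) ^ (k i) / ((k i).factorial : ℝ)) = 1 := by
      apply Finset.prod_eq_one
      intro i _
      rw [hz i]
      simp
    rw [Finset.sum_congr rfl e1, e2, Finset.sum_const, Nat.card_Icc, Nat.add_sub_cancel,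
      nsmul_eq_mul]
    simp only [sub_self, abs_zero]
    positivity
  · obtain ⟨j, hj⟩ : ∃ j, ∑ i, k i = j + 1 := ⟨∑ i, k i - 1, by omega⟩
    obtain ⟨S, hS⟩ : ∃ S, S = ∑ i, k i := ⟨_, rfl⟩
    have hSj : S = j + 1 := hS.trans hj
    rw [← hS] at hkpos
    obtain ⟨X, hX⟩ : ∃ X : ℝ, X = x0 ^ S := ⟨_, rfl⟩
    have hX1 : 1 ≤ X := by rw [hX]; exact one_le_pow₀ hx0
    obtain ⟨η1, hη1⟩ : ∃ η1 : ℝ, η1 = min 1 (η / (4 * X)) := ⟨_, rfl⟩
    have hη10 : 0 < η1 := by rw [hη1]; positivity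
    have hη11 : η1 ≤ 1 := by rw [hη1]; exact min_le_left _ _
    have hη12 : η1 * X ≤ η / 4 := by
      have : η1 ≤ η / (4 * X) := by rw [hη1]; exact min_le_right _ _
      rw [le_div_iff₀ (by positivity)] at this
      linarith
    obtain ⟨w, T0, hsing⟩ := sing_multi_SB c k j hj η1 hη10 hη11
    obtain ⟨K0, y0, _, hfund⟩ := sys_fund (S * c) (Nat.mul_pos hkpos hc) (η / (8 * X)) (by positivity)
    obtain ⟨y1, hy1⟩ : ∃ y1 : ℕ, (4 / η) ^ 4 ≤ y1 := exists_nat_ge _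
    refine ⟨K0 + 1, y0 + y1 + w + 1, T0 + 1, 4 * (S + 1), j + 1, η1 / 16, by positivity, ?_⟩
    intro Y y T hy hyY hT hTR Q hQ hadm hx hSB a b hab hbT hdis
    have hy1' : 1 ≤ y := by omega
    have hyK : y ^ K0 ≤ Y := (Nat.pow_le_pow_right hy1' (by omega)).trans hyY
    have hyY' : y ≤ Y := by
      calc y = y ^ 1 := (pow_one y).symm
        _ ≤ y ^ (K0 + 1) := Nat.pow_le_pow_right hy1' (by omega)
        _ ≤ Y := hyY
    have hT1 : 1 ≤ T := by omega
    have hY1 : (4 / η) ^ 4 ≤ (Y : ℝ) := hy1.trans (by exact_mod_cast (by omega : y1 ≤ Y))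
    have hYpos : (0 : ℝ) < Y := lt_of_lt_of_le (by positivity) hY1
    have hV0 := Vq_nonneg Q y
    have hTV0 : 0 ≤ T * Vq Q y := mul_nonneg (Nat.cast_nonneg _) hV0
    have s1 := hsing T (by omega) Q hQ hadm y (by omega) (hSB j (Nat.lt_succ_self j)) a b hab hbT hdis
    rw [← hSj] at s1
    have hTX : (T * Vq Q y) ^ S ≤ X := by
      rw [hX]
      exact pow_le_pow_left₀ hTV0 hx S
    obtain ⟨P, hP⟩ : ∃ P : ℝ, P = ∏ i, ((((b i : ℝ) - a i) * Vq Q y) ^ (k i) / (k i).factorial) := ⟨_, rfl⟩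
    obtain ⟨Sg, hSg⟩ : ∃ x : ℝ, x = ∑ H ∈ Fam (fun i => Ioc (a i) (b i)) k, Vq (QH Q (Un H)) y := ⟨_, rfl⟩
    rw [← hP, ← hSg] at s1
    rw [← hP]
    have s2 : |Sg - P| ≤ η / 4 := s1.trans ((mul_le_mul_of_nonneg_left hTX hη10.le).trans hη12)
    have hPX : P ≤ X := by
      rw [hP]
      refine le_trans ?_ hTX
      rw [hS]
      apply prod_le_pow
      · intro i
        have : (a i : ℝ) ≤ b i := by exact_mod_cast hab i
        exact mul_nonneg (by linarith) hV0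
      · intro i
        apply mul_le_mul_of_nonneg_right _ hV0
        have h1 : (b i : ℝ) ≤ T := by exact_mod_cast hbT i
        have h2 : (0 : ℝ) ≤ a i := Nat.cast_nonneg _
        linarith
    have hSX : Sg ≤ 2 * X := by
      have h1 := (abs_le.1 s1).2
      have h2 : η1 * (T * Vq Q y) ^ S ≤ 1 * X := mul_le_mul hη11 hTX (by positivity) (by norm_num)
      linarith
    have e0 : ∑ n ∈ Icc 1 Y, ∏ i, ((Na Q y (a i) (b i) n).choose (k i) : ℝ) =
        ∑ H ∈ Fam (fun i => Ioc (a i) (b i)) k,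
          (((Icc 1 Y).filter (fun n => Sf (QH Q (Un H)) y n)).card : ℝ) := by
      have h1 := fam_choose (Icc 1 Y) (fun m h => Sf Q y (m + h)) (fun i => Ioc (a i) (b i)) k
      unfold Na
      rw [h1]
      apply Finset.sum_congr rfl
      intro H _
      congr 2
      apply Finset.filter_congr
      intro m _
      exact (sf_Un Q H y m).symm
    rw [e0]
    have h1 : |∑ H ∈ Fam (fun i => Ioc (a i) (b i)) k,
        (((Icc 1 Y).filter (fun n => Sf (QH Q (Un H)) y n)).card : ℝ) - Y * Sg| ≤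
        η / (8 * X) * (Y * Sg) + T ^ S * √(Y : ℝ) := by
      have e : Y * Sg = ∑ H ∈ Fam (fun i => Ioc (a i) (b i)) k, (Y : ℝ) * Vq (QH Q (Un H)) y := by
        rw [hSg, Finset.mul_sum]
      rw [e, ← Finset.sum_sub_distrib]
      refine (Finset.abs_sum_le_sum_abs _ _).trans ?_
      have h2 : ∀ H ∈ Fam (fun i => Ioc (a i) (b i)) k,
          |(((Icc 1 Y).filter (fun n => Sf (QH Q (Un H)) y n)).card : ℝ) - Y * Vq (QH Q (Un H)) y| ≤
          η / (8 * X) * (Y * Vq (QH Q (Un H)) y) + √(Y : ℝ) := by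
        intro H hH
        have hper := perB_QH Q c hQ (Un H)
        rw [Un_card _ hdis k H hH, ← hS] at hper
        have h3 := hfund Y y (by omega) hyK (QH Q (Un H)) hper Y
        have e1 : ∏ p ∈ pz y, (1 - (nuB (QH Q (Un H)) p : ℝ) / p) = Vq (QH Q (Un H)) y := rfl
        rw [e1] at h3
        unfold Sf
        convert h3
      refine (Finset.sum_le_sum h2).trans ?_
      rw [Finset.sum_add_distrib, ← Finset.mul_sum, Finset.sum_const, nsmul_eq_mul]
      have h3 : ((Fam (fun i => Ioc (a i) (b i)) k).card : ℝ) ≤ (T : ℝ) ^ S := by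
        have h4 := sum_fam_le (fun i => Ioc (a i) (b i)) hdis T (by
          intro i x hx
          rw [mem_Ioc] at hx
          rw [mem_Icc]
          have := hbT i
          omega) k (fun _ => 1) (fun _ => zero_le_one)
        rw [Finset.sum_const, Finset.sum_const, nsmul_eq_mul, nsmul_eq_mul, mul_one, mul_one, ← hS,
          card_powersetCard, Nat.card_Icc, Nat.add_sub_cancel] at h4
        refine h4.trans ?_
        exact_mod_cast Nat.choose_le_pow T S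
      have h4 := mul_le_mul_of_nonneg_right h3 (Real.sqrt_nonneg (Y : ℝ))
      linarith
    have hs4 : 4 / η ≤ √(√(Y : ℝ)) := by
      apply Real.le_sqrt_of_sq_le
      apply Real.le_sqrt_of_sq_le
      calc ((4 / η) ^ 2) ^ 2 = (4 / η) ^ 4 := by ring
        _ ≤ (Y : ℝ) := hY1
    have hTr1 : (1 : ℝ) ≤ T := by exact_mod_cast hT1
    have hT4 : (T : ℝ) ^ (S + 1) ≤ √(√(Y : ℝ)) := by
      apply Real.le_sqrt_of_sq_le
      apply Real.le_sqrt_of_sq_le
      calc (((T : ℝ) ^ (S + 1)) ^ 2) ^ 2 = (T : ℝ) ^ (4 * (S + 1)) := by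
            rw [← pow_mul, ← pow_mul]
            congr 1
            ring
        _ ≤ Y := by exact_mod_cast hTR
    have hTS : (T : ℝ) ^ S ≤ √(√(Y : ℝ)) := (pow_le_pow_right₀ hTr1 (Nat.le_succ S)).trans hT4
    have hTY : (T : ℝ) ^ S * √(Y : ℝ) ≤ η / 4 * Y := by
      have e1 : √(√(Y : ℝ)) * √(√(Y : ℝ)) = √(Y : ℝ) := Real.mul_self_sqrt (Real.sqrt_nonneg _)
      have e2 : √(Y : ℝ) * √(Y : ℝ) = Y := Real.mul_self_sqrt hYpos.le
      have h1 : (T : ℝ) ^ S * (4 / η) ≤ √(Y : ℝ) := by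
        rw [← e1]
        exact mul_le_mul hTS hs4 (by positivity) (Real.sqrt_nonneg _)
      calc (T : ℝ) ^ S * √(Y : ℝ) = η / 4 * ((T : ℝ) ^ S * (4 / η)) * √(Y : ℝ) := by
            field_simp
        _ ≤ η / 4 * √(Y : ℝ) * √(Y : ℝ) := by gcongr
        _ = η / 4 * Y := by rw [mul_assoc, e2]
    have h5 : |Y * Sg - Y * P| ≤ η / 4 * Y := by
      rw [← mul_sub, abs_mul, abs_of_pos hYpos]
      calc (Y : ℝ) * |Sg - P| ≤ Y * (η / 4) := mul_le_mul_of_nonneg_left s2 hYpos.le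
        _ = _ := mul_comm _ _
    have h6 : η / (8 * X) * (Y * Sg) ≤ η / 4 * Y := by
      calc η / (8 * X) * (Y * Sg) ≤ η / (8 * X) * (Y * (2 * X)) := by gcongr
        _ = η / 4 * Y := by
          field_simp
          ring
    refine (abs_sub_le _ (Y * Sg) _).trans ?_
    have h7 : 0 ≤ η * Y := by positivity
    linarith

open Classical in
/-- **The joint law** of the counts in several disjoint windows, in all intervals. -/
theorem joint_law_SB (s c : ℕ) (hc : 1 ≤ c) (x0 ε : ℝ) (hε : 0 < ε) :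
    ∃ (K0 y0 T0 R0 R : ℕ) (η' : ℝ), 0 < η' ∧
      ∀ (Q : ℕ → ℕ → Prop) (Z Y y : ℕ), PerB Q c → (∀ p : ℕ, p.Prime → nuB Q p < p) → y0 ≤ y →
      y ^ K0 ≤ Y →
      (∀ T : ℕ, 1 ≤ T * Vq Q y → T * Vq Q y ≤ |x0| + 2 → T0 ≤ T ∧ T ^ R0 ≤ Y ∧
        ∀ j < R, SB Q y T j η') →
      ∀ a b : Fin s → ℕ, (∀ i, a i ≤ b i) → (∀ i, b i * Vq Q y ≤ x0) →
      (∀ i j, i ≠ j → Disjoint (Ioc (a i) (b i)) (Ioc (a j) (b j))) →
      ∀ A : Fin s → Finset ℕ,
        |(((Ioc Z (Z + Y)).filter (fun n => ∀ i,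
          ((Ioc (n + a i) (n + b i)).filter (fun m => Sf Q y m)).card ∈ A i)).card : ℝ) -
          Y * ∏ i, pois (((b i : ℝ) - a i) * Vq Q y) (A i)| ≤ ε * Y := by
  obtain ⟨R, η, hη, h⟩ := joint_tv s 1 (|x0| + 2) ε zero_le_one (by positivity) hε
  have hx02 : (1 : ℝ) ≤ |x0| + 2 := by
    have := abs_nonneg x0
    linarith
  choose K1 y1 T1 R1 J1 e1 he1 hm using
    fun k : Fin s → ℕ => moment_multi_SB c hc k (|x0| + 2) η hx02 hη
  obtain ⟨I, hI⟩ : ∃ I, I = Fintype.piFinset (fun _ : Fin s => range (R + 1)) := ⟨_, rfl⟩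
  obtain ⟨η', hη', hη'2⟩ := exists_lower_fin I e1 he1
  refine ⟨∑ k ∈ I, K1 k, ∑ k ∈ I, y1 k + 1, ∑ k ∈ I, T1 k, ∑ k ∈ I, R1 k, ∑ k ∈ I, J1 k, η', hη', ?_⟩
  intro Q Z Y y hQ hadm hy hyY hT a b hab hb hdis A
  have hV0 : 0 < Vq Q y := Vq_pos Q hadm y
  have hV1 : Vq Q y ≤ 1 := Vq_le_one Q y
  have hY0 : (0 : ℝ) ≤ Y := Nat.cast_nonneg Y
  have hy1 : 1 ≤ y := by omega
  obtain ⟨T, hTdef⟩ : ∃ T : ℕ, T = ⌈(|x0| + 1) / Vq Q y⌉₊ := ⟨_, rfl⟩
  have hxa := abs_nonneg x0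
  have hT1 : |x0| + 1 ≤ T * Vq Q y := by
    have := Nat.le_ceil ((|x0| + 1) / Vq Q y)
    rw [← hTdef, div_le_iff₀ hV0] at this
    exact this
  have hT2 : T * Vq Q y ≤ |x0| + 2 := by
    have := (Nat.ceil_lt_add_one (by positivity : 0 ≤ (|x0| + 1) / Vq Q y)).le
    rw [← hTdef] at this
    calc T * Vq Q y ≤ ((|x0| + 1) / Vq Q y + 1) * Vq Q y := mul_le_mul_of_nonneg_right this hV0.le
      _ = |x0| + 1 + Vq Q y := by field_simp
      _ ≤ |x0| + 2 := by linarith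
  obtain ⟨hT0, hTR, hSB⟩ := hT T (by linarith) hT2
  have hTpos : 1 ≤ T := by
    rcases Nat.eq_zero_or_pos T with h0 | h0
    · rw [h0] at hT1
      push_cast at hT1
      linarith
    · exact h0
  have hbT : ∀ i, b i ≤ T := by
    intro i
    have h1 : (b i : ℝ) * Vq Q y ≤ T * Vq Q y := by
      have := hb i
      have := le_abs_self x0
      linarith
    exact_mod_cast le_of_mul_le_mul_right h1 hV0
  have hx0 : ∀ i, 0 ≤ ((b i : ℝ) - a i) * Vq Q y := by
    intro i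
    have : (a i : ℝ) ≤ b i := by exact_mod_cast hab i
    exact mul_nonneg (by linarith) hV0.le
  have hxx : ∀ i, ((b i : ℝ) - a i) * Vq Q y ≤ |x0| + 2 := by
    intro i
    have h1 : (0 : ℝ) ≤ a i * Vq Q y := by positivity
    have := hb i
    have := le_abs_self x0
    linarith
  have hmain := h (Icc 1 Y) (fun _ => 1) (fun i n => Na (Qt Q Z) y (a i) (b i) n)
    (fun i => ((b i : ℝ) - a i) * Vq Q y) Y Y hx0 hxx hY0 hY0 (by rw [one_mul]) (by
      intro k hk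
      have hkI : k ∈ I := by
        rw [hI, Fintype.mem_piFinset]
        intro i
        rw [mem_range]
        have := hk i
        omega
      have hs1 : K1 k ≤ ∑ k ∈ I, K1 k := Finset.single_le_sum (fun _ _ => Nat.zero_le _) hkI
      have hs2 : y1 k ≤ ∑ k ∈ I, y1 k := Finset.single_le_sum (fun _ _ => Nat.zero_le _) hkI
      have hs3 : T1 k ≤ ∑ k ∈ I, T1 k := Finset.single_le_sum (fun _ _ => Nat.zero_le _) hkI
      have hs4 : R1 k ≤ ∑ k ∈ I, R1 k := Finset.single_le_sum (fun _ _ => Nat.zero_le _) hkI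
      have hs5 : J1 k ≤ ∑ k ∈ I, J1 k := Finset.single_le_sum (fun _ _ => Nat.zero_le _) hkI
      have hkm := hm k Y y T (by omega) ((Nat.pow_le_pow_right hy1 hs1).trans hyY) (by omega)
        ((Nat.pow_le_pow_right hTpos hs4).trans hTR) (Qt Q Z) (perB_Qt Q c hQ Z) (fun p hp => by
          rw [nuB_Qt Q c hQ]
          exact hadm p hp) (by rw [Vq_Qt Q c hQ]; exact hT2) (fun j hjJ =>
          SB_Qt Q c hQ Z y T j (e1 k) (SB_mono Q y T j η' (e1 k) (hη'2 k hkI)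
            (hSB j (lt_of_lt_of_le hjJ hs5)))) a b hab hbT hdis
      rw [Vq_Qt Q c hQ] at hkm
      refine le_trans (le_of_eq ?_) hkm
      congr 2
      apply Finset.sum_congr rfl
      intro n _
      rw [Nat.cast_one, one_mul]) A
  have hcount : (((Ioc Z (Z + Y)).filter (fun n => ∀ i,
      ((Ioc (n + a i) (n + b i)).filter (fun m => Sf Q y m)).card ∈ A i)).card : ℝ) =
      ∑ n ∈ Icc 1 Y, ((1 : ℕ) : ℝ) * (if ∀ i, Na (Qt Q Z) y (a i) (b i) n ∈ A i then 1 else 0) := by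
    have e1 : ∑ n ∈ Icc 1 Y, ((1 : ℕ) : ℝ) * (if ∀ i, Na (Qt Q Z) y (a i) (b i) n ∈ A i then 1 else 0)
        = (((Icc 1 Y).filter (fun n => ∀ i, Na (Qt Q Z) y (a i) (b i) n ∈ A i)).card : ℝ) := by
      rw [Finset.card_filter]
      push_cast
      apply Finset.sum_congr rfl
      intro n _
      rw [one_mul]
    rw [e1]
    congr 1
    symm
    apply Finset.card_bij (fun n _ => n + Z)
    · intro n hn
      rw [mem_filter, mem_Icc] at hn
      rw [mem_filter, mem_Ioc]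
      refine ⟨by omega, ?_⟩
      intro i
      have := hn.2 i
      rwa [Na_Qt] at this
    · intro a _ b _ hab
      omega
    · intro n hn
      rw [mem_filter, mem_Ioc] at hn
      refine ⟨n - Z, ?_, by omega⟩
      rw [mem_filter, mem_Icc]
      refine ⟨by omega, ?_⟩
      intro i
      rw [Na_Qt, show n - Z + Z = n by omega]
      exact hn.2 i
  rw [hcount]
  exact hmain

end Pool.Agent.TH464.PO
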