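import Pool.Agent.TH464.PO.SingE
import Pool.Agent.TH464.PO.Gen

set_option autoImplicit false

/-!
# The laws from the singular averages
-/

namespace Pool.Agent.TH464.PO

open Finset Filter Pool.Agent.H373R2.T7 Pool.Agent.W123.RP Pool.Agent.W123.RU

open Classical in
/-- **Binomial moments.** -/
theorem moment_SB (c k : ℕ) (hc : 1 ≤ c) (η : ℝ) (hη : 0 < η) (hη1 : η ≤ 1) :
    ∃ (K0 y0 : ℕ), ∀ Y y T : ℕ, y0 ≤ y → y ^ K0 ≤ Y →
      ∀ Q : ℕ → ℕ → Prop, PerB Q c → SB Q y T k (η / 4) →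
      |∑ n ∈ Icc 1 Y, ((Nw Q y T n).choose (k + 1) : ℝ) -
        Y * ((T * Vq Q y) ^ (k + 1) / (k + 1).factorial)| ≤
        η * Y * ((T * Vq Q y) ^ (k + 1) / (k + 1).factorial) + T ^ (k + 1) * √(Y : ℝ) := by
  obtain ⟨K0, x0, hK0, hfund⟩ := sys_fund ((k + 1) * c) (Nat.mul_pos (by omega) hc) (η / 4)
    (by positivity)
  refine ⟨K0, x0, ?_⟩
  intro Y y T hy hyY Q hQ hSB
  obtain ⟨s1, s2⟩ := hSB
  rw [moment_eq]
  obtain ⟨S, hS⟩ : ∃ S, S = ∑ H ∈ powersetCard (k + 1) (Icc 1 T), Vq (QH Q H) y := ⟨_, rfl⟩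
  obtain ⟨Z, hZ⟩ : ∃ Z : ℝ, Z = (T * Vq Q y) ^ (k + 1) / (k + 1).factorial := ⟨_, rfl⟩
  rw [← hS, ← hZ] at s1 s2
  rw [← hZ]
  have hV0 := Vq_nonneg Q y
  have hZ0 : 0 ≤ Z := by rw [hZ]; positivity
  have hY0 : (0 : ℝ) ≤ Y := Nat.cast_nonneg Y
  have h1 : |∑ H ∈ powersetCard (k + 1) (Icc 1 T),
      (((Icc 1 Y).filter (fun n => Sf (QH Q H) y n)).card : ℝ) - Y * S| ≤
      η / 4 * (Y * S) + T ^ (k + 1) * √(Y : ℝ) := by
    have e : Y * S = ∑ H ∈ powersetCard (k + 1) (Icc 1 T), (Y : ℝ) * Vq (QH Q H) y := by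
      rw [hS, Finset.mul_sum]
    rw [e, ← Finset.sum_sub_distrib]
    refine (Finset.abs_sum_le_sum_abs _ _).trans ?_
    have h2 : ∀ H ∈ powersetCard (k + 1) (Icc 1 T),
        |(((Icc 1 Y).filter (fun n => Sf (QH Q H) y n)).card : ℝ) - Y * Vq (QH Q H) y| ≤
        η / 4 * (Y * Vq (QH Q H) y) + √(Y : ℝ) := by
      intro H hH
      rw [mem_powersetCard] at hH
      have hper := perB_QH Q c hQ H
      rw [hH.2] at hper
      have h3 := hfund Y y hy hyY (QH Q H) hper Y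
      have e1 : ∏ p ∈ pz y, (1 - (nuB (QH Q H) p : ℝ) / p) = Vq (QH Q H) y := rfl
      rw [e1] at h3
      unfold Sf
      convert h3
    refine (Finset.sum_le_sum h2).trans ?_
    rw [Finset.sum_add_distrib, ← Finset.mul_sum, Finset.sum_const, nsmul_eq_mul]
    have h3 : ((powersetCard (k + 1) (Icc 1 T)).card : ℝ) ≤ (T : ℝ) ^ (k + 1) := by
      rw [card_powersetCard, Nat.card_Icc, Nat.add_sub_cancel]
      exact_mod_cast Nat.choose_le_pow T (k + 1)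
    have h4 := mul_le_mul_of_nonneg_right h3 (Real.sqrt_nonneg (Y : ℝ))
    linarith
  have h5 : |Y * S - Y * Z| ≤ η / 4 * (Y * Z) := by
    rw [← mul_sub, abs_mul, abs_of_nonneg hY0]
    have : |S - Z| ≤ η / 4 * Z := by
      rw [abs_le]
      constructor <;> linarith
    calc (Y : ℝ) * |S - Z| ≤ Y * (η / 4 * Z) := mul_le_mul_of_nonneg_left this hY0
      _ = _ := by ring
  have h6 : Y * S ≤ 2 * (Y * Z) := by
    have h7 := (abs_le.1 h5).2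
    have h8 : 0 ≤ Y * Z := mul_nonneg hY0 hZ0
    nlinarith
  have h8 : 0 ≤ Y * Z := mul_nonneg hY0 hZ0
  have h9 := abs_sub_le (∑ H ∈ powersetCard (k + 1) (Icc 1 T),
      (((Icc 1 Y).filter (fun n => Sf (QH Q H) y n)).card : ℝ)) (Y * S) (Y * Z)
  have h10 : η / 4 * (Y * S) ≤ η / 4 * (2 * (Y * Z)) :=
    mul_le_mul_of_nonneg_left h6 (by positivity)
  have h11 : 0 ≤ η * (Y * Z) := by positivity
  calc _ ≤ _ := h9
    _ ≤ η / 4 * (2 * (Y * Z)) + T ^ (k + 1) * √(Y : ℝ) + η / 4 * (Y * Z) := by linarith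
    _ ≤ _ := by linarith

open Classical in
/-- **The Poisson law for sifted sets**, from the singular averages. -/
theorem law_SB (c : ℕ) (hc : 1 ≤ c) (x0 ε : ℝ) (hx0 : 0 ≤ x0) (hε : 0 < ε) :
    ∃ (K0 y0 R0 R : ℕ) (η1 : ℝ), 0 < η1 ∧ η1 ≤ 1 ∧ ∀ Y y T : ℕ, y0 ≤ y → y ^ K0 ≤ Y → 1 ≤ T →
      T ^ R0 ≤ Y → ∀ Q : ℕ → ℕ → Prop, PerB Q c → T * Vq Q y ≤ x0 →
      (∀ k < R, SB Q y T k η1) →
      ∀ A : Finset ℕ, |(((Icc 1 Y).filter (fun n => Nw Q y T n ∈ A)).card : ℝ) -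
        Y * ∑ j ∈ A, Real.exp (-(T * Vq Q y)) * (T * Vq Q y) ^ j / j.factorial| ≤ ε * Y := by
  obtain ⟨R, η, hη, htv⟩ := law_tv x0 ε hx0 hε
  obtain ⟨X1, hX1⟩ : ∃ X1 : ℝ, X1 = (1 + x0) ^ (R + 1) := ⟨_, rfl⟩
  have hX1pos : 1 ≤ X1 := by rw [hX1]; exact one_le_pow₀ (by linarith)
  obtain ⟨η1, hη1⟩ : ∃ η1 : ℝ, η1 = min 1 (η / (2 * X1)) := ⟨_, rfl⟩
  have hη10 : 0 < η1 := by rw [hη1]; positivity
  have hη11 : η1 ≤ 1 := by rw [hη1]; exact min_le_left _ _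
  have hη12 : η1 * X1 ≤ η / 2 := by
    have : η1 ≤ η / (2 * X1) := by rw [hη1]; exact min_le_right _ _
    rw [le_div_iff₀ (by positivity)] at this
    linarith
  choose K0 y0 hmom using fun k => moment_SB c k hc η1 hη10 hη11
  obtain ⟨y1, hy1⟩ : ∃ y1 : ℕ, (2 / η) ^ 4 ≤ y1 := exists_nat_ge _
  refine ⟨(∑ k ∈ range R, K0 k) + 1, (∑ k ∈ range R, y0 k) + y1 + 1,
    4 * (R + 1), R, η1 / 4, by positivity, by linarith, ?_⟩
  intro Y y T hy hyY hT1 hTR Q hQ hx hSB A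
  obtain ⟨x, hxdef⟩ : ∃ x, x = T * Vq Q y := ⟨_, rfl⟩
  rw [← hxdef] at hx ⊢
  have hx00 : 0 ≤ x := by
    rw [hxdef]
    exact mul_nonneg (Nat.cast_nonneg _) (Vq_nonneg Q y)
  have hy1' : 1 ≤ y := by omega
  have hyY' : y ≤ Y := by
    calc y = y ^ 1 := (pow_one y).symm
      _ ≤ y ^ ((∑ k ∈ range R, K0 k) + 1) := Nat.pow_le_pow_right hy1' (by omega)
      _ ≤ Y := hyY
  have hY1 : (2 / η) ^ 4 ≤ (Y : ℝ) := hy1.trans (by exact_mod_cast (by omega : y1 ≤ Y))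
  have hYpos : (0 : ℝ) < Y := lt_of_lt_of_le (by positivity) hY1
  have hs4 : 2 / η ≤ √(√(Y : ℝ)) := by
    apply Real.le_sqrt_of_sq_le
    apply Real.le_sqrt_of_sq_le
    calc ((2 / η) ^ 2) ^ 2 = (2 / η) ^ 4 := by ring
      _ ≤ (Y : ℝ) := hY1
  have hT4 : (T : ℝ) ^ (R + 1) ≤ √(√(Y : ℝ)) := by
    apply Real.le_sqrt_of_sq_le
    apply Real.le_sqrt_of_sq_le
    calc (((T : ℝ) ^ (R + 1)) ^ 2) ^ 2 = (T : ℝ) ^ (4 * (R + 1)) := by
          rw [← pow_mul, ← pow_mul]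
          congr 1
          ring
      _ ≤ Y := by exact_mod_cast hTR
  have hTY : (T : ℝ) ^ (R + 1) * √(Y : ℝ) ≤ η / 2 * Y := by
    have e1 : √(√(Y : ℝ)) * √(√(Y : ℝ)) = √(Y : ℝ) := Real.mul_self_sqrt (Real.sqrt_nonneg _)
    have e2 : √(Y : ℝ) * √(Y : ℝ) = Y := Real.mul_self_sqrt hYpos.le
    have h1 : (T : ℝ) ^ (R + 1) * (2 / η) ≤ √(Y : ℝ) := by
      rw [← e1]
      exact mul_le_mul hT4 hs4 (by positivity) (Real.sqrt_nonneg _)
    calc (T : ℝ) ^ (R + 1) * √(Y : ℝ) = η / 2 * ((T : ℝ) ^ (R + 1) * (2 / η)) * √(Y : ℝ) := by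
          field_simp
      _ ≤ η / 2 * √(Y : ℝ) * √(Y : ℝ) := by gcongr
      _ = η / 2 * Y := by rw [mul_assoc, e2]
  have hcard : ((Icc 1 Y).card : ℝ) = Y := by
    rw [Nat.card_Icc, Nat.add_sub_cancel]
  have hmain := htv (Icc 1 Y) (Nw Q y T) x hx00 hx (by
    intro k hk
    rw [hcard]
    rcases k with _ | k
    · simp
      positivity
    · have hkR : k ∈ range R := mem_range.2 (by omega)
      have hKk : K0 k ≤ ∑ k ∈ range R, K0 k := Finset.single_le_sum (fun _ _ => Nat.zero_le _) hkR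
      have hyk : y0 k ≤ ∑ k ∈ range R, y0 k := Finset.single_le_sum (fun _ _ => Nat.zero_le _) hkR
      have h1 := hmom k Y y T (by omega)
        ((Nat.pow_le_pow_right hy1' (by omega)).trans hyY) Q hQ (hSB k (by omega))
      rw [← hxdef] at h1
      refine h1.trans ?_
      have h2 : x ^ (k + 1) / ((k + 1).factorial : ℝ) ≤ X1 := by
        have hf1 : (1 : ℝ) ≤ (k + 1).factorial := by exact_mod_cast Nat.factorial_pos (k + 1)
        calc x ^ (k + 1) / ((k + 1).factorial : ℝ) ≤ x ^ (k + 1) := div_le_self (by positivity) hf1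
          _ ≤ (1 + x0) ^ (k + 1) := pow_le_pow_left₀ hx00 (by linarith) _
          _ ≤ (1 + x0) ^ (R + 1) := pow_le_pow_right₀ (by linarith) (by omega)
          _ = X1 := hX1.symm
      have h3 : (T : ℝ) ^ (k + 1) * √(Y : ℝ) ≤ η / 2 * Y := by
        refine le_trans ?_ hTY
        apply mul_le_mul_of_nonneg_right _ (Real.sqrt_nonneg _)
        apply pow_le_pow_right₀ (by exact_mod_cast hT1) (by omega)
      have h4 : η1 * Y * (x ^ (k + 1) / ((k + 1).factorial : ℝ)) ≤ η / 2 * Y := by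
        calc η1 * Y * (x ^ (k + 1) / ((k + 1).factorial : ℝ)) ≤ η1 * Y * X1 :=
              mul_le_mul_of_nonneg_left h2 (by positivity)
          _ = η1 * X1 * Y := by ring
          _ ≤ η / 2 * Y := by gcongr
      linarith) A
  rw [hcard] at hmain
  exact hmain

lemma QH_Qt (Q : ℕ → ℕ → Prop) (H : Finset ℕ) (s : ℕ) : QH (Qt Q s) H = Qt (QH Q H) s := by
  funext p m
  apply propext
  unfold QH Qt
  apply exists_congr
  intro h
  rw [show m + h + s = m + s + h by ring]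

lemma SB_Qt (Q : ℕ → ℕ → Prop) (c : ℕ) (hQ : PerB Q c) (s y T k : ℕ) (η : ℝ) (h : SB Q y T k η) :
    SB (Qt Q s) y T k η := by
  have e : ∀ H : Finset ℕ, Vq (QH (Qt Q s) H) y = Vq (QH Q H) y := by
    intro H
    rw [QH_Qt, Vq_Qt (QH Q H) _ (perB_QH Q c hQ H)]
  unfold SB at h ⊢
  rw [Vq_Qt Q c hQ]
  simp only [e]
  exact h

open Classical in
/-- **The Poisson law** in all intervals and for all windows of bounded mean. -/
theorem gen_law_SB (c : ℕ) (hc : 1 ≤ c) (x0 ε : ℝ) (hε : 0 < ε) :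
    ∃ (K0 y0 R0 R : ℕ) (η1 κ : ℝ), 0 < η1 ∧ η1 ≤ 1 ∧ 0 < κ ∧ κ ≤ 1 / 2 ∧
      ∀ (Q : ℕ → ℕ → Prop) (Z Y y : ℕ), PerB Q c → (∀ p : ℕ, p.Prime → nuB Q p < p) → y0 ≤ y →
      y ^ K0 ≤ Y → Vq Q y ≤ κ →
      (∀ T : ℕ, κ ≤ T * Vq Q y → T * Vq Q y ≤ max x0 1 → T ^ R0 ≤ Y ∧ ∀ k < R, SB Q y T k η1) →
      ∀ T : ℕ, T * Vq Q y ≤ x0 → ∀ A : Finset ℕ,
        |(((Ioc Z (Z + Y)).filter (fun n => Wc (Sf Q y) n T ∈ A)).card : ℝ) -
          Y * ∑ j ∈ A, Real.exp (-(T * Vq Q y)) * (T * Vq Q y) ^ j / j.factorial| ≤ ε * Y := by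
  obtain ⟨κ, hκ⟩ : ∃ κ, κ = min (ε / 8) (1 / 2) := ⟨_, rfl⟩
  have hκ0 : 0 < κ := by rw [hκ]; positivity
  have hκ1 : κ ≤ ε / 8 := by rw [hκ]; exact min_le_left _ _
  have hκ2 : κ ≤ 1 / 2 := by rw [hκ]; exact min_le_right _ _
  obtain ⟨K0, y0, R0, R, η1, hη1, hη11, hlaw⟩ := law_SB c hc (max x0 1) (ε / 4) (by positivity)
    (by positivity)
  refine ⟨K0, y0, R0, R, η1, κ, hη1, hη11, hκ0, hκ2, ?_⟩
  intro Q Z Y y hQ hadm hy hyY hVκ hT T hTx A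
  have hV0 : 0 < Vq Q y := Vq_pos Q hadm y
  have hY0 : (0 : ℝ) ≤ Y := Nat.cast_nonneg Y
  have hmain : ∀ T : ℕ, κ ≤ T * Vq Q y → T * Vq Q y ≤ max x0 1 → ∀ A : Finset ℕ,
      |(((Ioc Z (Z + Y)).filter (fun n => Wc (Sf Q y) n T ∈ A)).card : ℝ) -
        Y * ∑ j ∈ A, Real.exp (-(T * Vq Q y)) * (T * Vq Q y) ^ j / j.factorial| ≤ ε / 4 * Y := by
    intro T h1 h2 A
    obtain ⟨hTR, hSB⟩ := hT T h1 h2
    have hT1 : 1 ≤ T := by
      rw [Nat.one_le_iff_ne_zero]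
      intro h0
      rw [h0] at h1
      simp at h1
      linarith
    have h3 := hlaw Y y T hy hyY hT1 hTR (Qt Q Z) (perB_Qt Q c hQ Z) (by
      rw [Vq_Qt Q c hQ]; exact h2) (fun k hk => SB_Qt Q c hQ Z y T k η1 (hSB k hk)) A
    rw [Vq_Qt Q c hQ] at h3
    have hcount : ((Ioc Z (Z + Y)).filter (fun n => Wc (Sf Q y) n T ∈ A)).card =
        ((Icc 1 Y).filter (fun n => Nw (Qt Q Z) y T n ∈ A)).card := by
      symm
      apply Finset.card_bij (fun n _ => n + Z)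
      · intro n hn
        rw [mem_filter, mem_Icc, Nw_Qt] at hn
        rw [mem_filter, mem_Ioc]
        exact ⟨by omega, hn.2⟩
      · intro a _ b _ hab
        omega
      · intro n hn
        rw [mem_filter, mem_Ioc] at hn
        refine ⟨n - Z, ?_, by omega⟩
        rw [mem_filter, mem_Icc, Nw_Qt, show n - Z + Z = n by omega]
        exact ⟨by omega, hn.2⟩
    rw [hcount]
    exact h3
  by_cases hκT : κ ≤ T * Vq Q y
  · refine (hmain T hκT (hTx.trans (le_max_left _ _)) A).trans ?_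
    nlinarith
  · rw [not_le] at hκT
    obtain ⟨T', h1, h2, h3⟩ := exists_window (Vq Q y) κ hV0 hVκ
    have h4 := hmain T' h1 (h2.trans ((by linarith : 2 * κ ≤ 1).trans (le_max_right _ _))) {0}
    have hcard : (Y : ℝ) = ((Ioc Z (Z + Y)).card : ℝ) := by
      rw [Nat.card_Ioc]
      congr 1
      omega
    rw [hcard] at h4 ⊢
    have h5 := extend (Ioc Z (Z + Y)) (fun n => Wc (Sf Q y) n T) (fun n => Wc (Sf Q y) n T')
      (fun n => Wc_mono (Sf Q y) n T T' (h3 T hκT)) (T * Vq Q y) (T' * Vq Q y) (ε / 4)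
      (by positivity) (by linarith) h4 A
    refine h5.trans ?_
    rw [← hcard]
    nlinarith

open Classical in
/-- **The gap laws** in all intervals. -/
theorem gen_gap_SB (c : ℕ) (hc : 1 ≤ c) (k0 : ℕ) (x0 ε : ℝ) (hε : 0 < ε) :
    ∃ (K0 y0 R0 R : ℕ) (η1 κ x1 : ℝ), 0 < η1 ∧ η1 ≤ 1 ∧ 0 < κ ∧ 0 < x1 ∧
      ∀ (Q : ℕ → ℕ → Prop) (Z Y y : ℕ), PerB Q c → (∀ p : ℕ, p.Prime → nuB Q p < p) → y0 ≤ y →
      y ^ K0 ≤ Y → Vq Q y ≤ κ → √(Y : ℝ) ≤ κ * (Y * Vq Q y) → x1 / Vq Q y ≤ κ * (Y * Vq Q y) →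
      (∀ T : ℕ, κ ≤ T * Vq Q y → T * Vq Q y ≤ x1 → T ^ R0 ≤ Y ∧ ∀ k < R, SB Q y T k η1) →
      ∀ k T : ℕ, (k ≤ k0 ∨ T * Vq Q y ≤ x0) →
        |(Pk (Sf Q y) k T Z Y : ℝ) - Y * Vq Q y * Ck k (T * Vq Q y)| ≤ ε * (Y * Vq Q y) := by
  obtain ⟨x1, η, hx1, hη, hgap⟩ := gap_all k0 x0 ε hε
  obtain ⟨K0, y0, R0, R, η1, κ, hη1, hη11, hκ, hκ2, hlaw⟩ := gen_law_SB c hc x1 η hη
  obtain ⟨K1, y1, hK1, hfund⟩ := sys_fund c hc (η / 2) (by positivity)
  have hmin : 0 < min κ (η / 2) := by positivity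
  refine ⟨K0 + K1, max y0 (y1 + 1), R0, R, η1, min κ (η / 2), max x1 1, hη1, hη11, hmin,
    by positivity, ?_⟩
  intro Q Z Y y hQ hadm hy hyY hVκ hsq hbd hT
  have hV0 : 0 < Vq Q y := Vq_pos Q hadm y
  have hY0 : (0 : ℝ) ≤ Y := Nat.cast_nonneg Y
  have hYV : 0 ≤ Y * Vq Q y := by positivity
  have hy1 : 1 ≤ y := by
    have := (le_max_right y0 (y1 + 1)).trans hy
    omega
  have hyK0 : y ^ K0 ≤ Y := (Nat.pow_le_pow_right hy1 (by omega)).trans hyY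
  have hyK1 : y ^ K1 ≤ Y := (Nat.pow_le_pow_right hy1 (by omega)).trans hyY
  have hm1 : min κ (η / 2) ≤ κ := min_le_left _ _
  have hm2 : min κ (η / 2) ≤ η / 2 := min_le_right _ _
  refine hgap (Sf Q y) Z Y (Vq Q y) hV0 (by linarith) ?_ ?_ ?_
  · exact hlaw Q Z Y y hQ hadm ((le_max_left _ _).trans hy) hyK0 (hVκ.trans hm1)
      (fun T h1 h2 => hT T (hm1.trans h1) h2)
  · have h1 := hfund Y y (by
      have := (le_max_right y0 (y1 + 1)).trans hy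
      omega) hyK1 (Qt Q Z) (perB_Qt Q c hQ Z) Y
    have e1 : ∏ p ∈ pz y, (1 - (nuB (Qt Q Z) p : ℝ) / p) = Vq Q y := Vq_Qt Q c hQ Z y
    rw [e1] at h1
    have h2 := (abs_le.1 h1).2
    have hcount : ((Ioc Z (Z + Y)).filter (Sf Q y)).card =
        ((Icc 1 Y).filter (fun n : ℕ => ∀ p ∈ pz y, ¬ Qt Q Z p n)).card := by
      symm
      apply Finset.card_bij (fun n _ => n + Z)
      · intro n hn
        rw [mem_filter, mem_Icc] at hn
        rw [mem_filter, mem_Ioc]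
        exact ⟨by omega, hn.2⟩
      · intro a _ b _ hab
        omega
      · intro n hn
        rw [mem_filter, mem_Ioc] at hn
        refine ⟨n - Z, ?_, by omega⟩
        rw [mem_filter, mem_Icc]
        refine ⟨by omega, ?_⟩
        intro p hp
        have := hn.2 p hp
        unfold Qt
        rwa [show n - Z + Z = n by omega]
    rw [hcount]
    have h3 : min κ (η / 2) * (Y * Vq Q y) ≤ η / 2 * (Y * Vq Q y) :=
      mul_le_mul_of_nonneg_right hm2 hYV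
    linarith
  · have h3 : min κ (η / 2) * (Y * Vq Q y) ≤ η * (Y * Vq Q y) :=
      mul_le_mul_of_nonneg_right (by linarith) hYV
    refine le_trans ?_ h3
    refine le_trans ?_ hbd
    exact div_le_div_of_nonneg_right (le_max_left _ _) hV0.le

end Pool.Agent.TH464.PO
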