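import Pool.Agent.TH464.PO.Gen

set_option autoImplicit false

/-!
# Systems of linear forms, uniformly in the coefficients
-/

namespace Pool.Agent.TH464.PO

open Finset Filter
open Pool.Agent.W123.RP Pool.Agent.H373R2.T7 Pool.Agent.W123.RU

/-- `p` divides one of the forms -/
def QL {k : ℕ} (u v : Fin k → ℤ) (p m : ℕ) : Prop := ∃ i, (p : ℤ) ∣ u i * m + v i

/-- admissible systems of linear forms without resonances -/
structure LF (k : ℕ) (u v : Fin k → ℤ) (B : ℕ) (R : ℝ) : Prop where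
  ne : ∀ i, u i ≠ 0
  bu : ∀ i, |u i| ≤ B
  bv : ∀ i, |v i| ≤ B
  adm : ∀ p : ℕ, p.Prime → ∃ m : ℕ, ∀ i, ¬ (p : ℤ) ∣ u i * m + v i
  two : ∃ i j, u i * v j ≠ u j * v i
  nres : ∀ i j, i ≠ j → ∀ t : ℕ, 1 ≤ t → (t : ℝ) ≤ R → u j * v i - u i * v j ≠ u i * u j * t

variable {k : ℕ} {u v : Fin k → ℤ} {B : ℕ} {R : ℝ}

lemma mod_dvd' (p n : ℕ) : (p : ℤ) ∣ (n : ℤ) - ((n % p : ℕ) : ℤ) := by
  refine ⟨((n / p : ℕ) : ℤ), ?_⟩
  have := Nat.mod_add_div n p
  have h : ((n % p : ℕ) : ℤ) + p * ((n / p : ℕ) : ℤ) = n := by exact_mod_cast this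
  linarith

lemma per1' (a b : ℤ) (p n : ℕ) : (p : ℤ) ∣ a * n + b ↔ (p : ℤ) ∣ a * ((n % p : ℕ) : ℤ) + b := by
  apply Int.dvd_iff_dvd_of_dvd_sub
  have := (mod_dvd' p n).mul_left a
  have e : a * ((n : ℤ) - ((n % p : ℕ) : ℤ)) = a * n + b - (a * ((n % p : ℕ) : ℤ) + b) := by ring
  rwa [e] at this

lemma not_dvd_u (h : LF k u v B R) (p : ℕ) (hp : p.Prime) (i : Fin k) (m : ℕ)
    (hm : (p : ℤ) ∣ u i * m + v i) : ¬ (p : ℤ) ∣ u i := by
  intro hu
  obtain ⟨n, hn⟩ := h.adm p hp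
  have hv : (p : ℤ) ∣ v i := by
    have := dvd_sub hm (hu.mul_right (m : ℤ))
    rwa [add_sub_cancel_left] at this
  exact hn i (dvd_add (hu.mul_right _) hv)

open Classical in
lemma card_root (h : LF k u v B R) (p : ℕ) (hp : p.Prime) (i : Fin k) :
    ((range p).filter (fun r : ℕ => (p : ℤ) ∣ u i * r + v i)).card ≤ 1 := by
  rw [Finset.card_le_one]
  intro a ha b hb
  rw [mem_filter, mem_range] at ha hb
  have hu := not_dvd_u h p hp i a ha.2
  have h1 : (p : ℤ) ∣ u i * ((a : ℤ) - b) := by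
    have := dvd_sub ha.2 hb.2
    have e : u i * (a : ℤ) + v i - (u i * b + v i) = u i * ((a : ℤ) - b) := by ring
    rwa [e] at this
  have h2 : (p : ℤ) ∣ (a : ℤ) - b := by
    rcases (Nat.prime_iff_prime_int.1 hp).dvd_or_dvd h1 with h3 | h3
    · exact absurd h3 hu
    · exact h3
  have h3 : (b : ℕ) ≡ a [MOD p] := by
    rw [← Int.natCast_modEq_iff]
    exact (Int.modEq_iff_dvd).2 h2
  have h4 : b % p = a % p := h3
  rw [Nat.mod_eq_of_lt ha.1, Nat.mod_eq_of_lt hb.1] at h4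
  exact h4.symm

lemma lf_perB (h : LF k u v B R) : PerB (QL u v) k := by
  classical
  refine ⟨fun p n => ?_, fun p hp => ?_⟩
  · unfold QL
    exact exists_congr fun i => per1' (u i) (v i) p n
  · unfold nuB
    have h1 : (range p).filter (fun r => QL u v p r) ⊆
        (univ : Finset (Fin k)).biUnion (fun i => (range p).filter (fun r : ℕ => (p : ℤ) ∣ u i * r + v i)) := by
      intro r hr
      rw [mem_filter] at hr
      obtain ⟨hr1, i, hi⟩ := hr
      rw [mem_biUnion]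
      exact ⟨i, mem_univ i, mem_filter.2 ⟨hr1, hi⟩⟩
    refine (card_le_card h1).trans (card_biUnion_le.trans ?_)
    refine (Finset.sum_le_sum fun i _ => card_root h p hp i).trans ?_
    simp

lemma lf_adm (h : LF k u v B R) (p : ℕ) (hp : p.Prime) : nuB (QL u v) p < p := by
  classical
  obtain ⟨m, hm⟩ := h.adm p hp
  unfold nuB
  have hlt : (range p).filter (fun r => QL u v p r) ⊂ range p := by
    rw [Finset.ssubset_iff_of_subset (filter_subset _ _)]
    refine ⟨m % p, mem_range.2 (Nat.mod_lt _ hp.pos), ?_⟩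
    rw [mem_filter, not_and]
    rintro - ⟨i, hi⟩
    exact hm i ((per1' (u i) (v i) p m).2 hi)
  have := card_lt_card hlt
  rwa [card_range] at this

lemma exists_root (p : ℕ) (hp : p.Prime) (a b : ℤ) (ha : ¬ (p : ℤ) ∣ a) :
    ∃ r < p, (p : ℤ) ∣ a * ((r : ℕ) : ℤ) + b := by
  haveI : Fact p.Prime := ⟨hp⟩
  have ha' : (a : ZMod p) ≠ 0 := by
    rwa [Ne, ZMod.intCast_zmod_eq_zero_iff_dvd]
  refine ⟨(-(b : ZMod p) / a).val, ZMod.val_lt _, ?_⟩
  rw [← ZMod.intCast_zmod_eq_zero_iff_dvd]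
  push_cast
  rw [ZMod.natCast_zmod_val]
  field_simp
  ring

lemma lf_two (p : ℕ) (hp : p.Prime) (i j : Fin k)
    (hD : ¬ p ∣ (u i * u j * (u i * v j - u j * v i)).natAbs) : 2 ≤ nuB (QL u v) p := by
  classical
  rw [← Int.natCast_dvd] at hD
  have hui : ¬ (p : ℤ) ∣ u i := fun h => hD ((h.mul_right _).mul_right _)
  have huj : ¬ (p : ℤ) ∣ u j := fun h => hD ((h.mul_left _).mul_right _)
  have hd : ¬ (p : ℤ) ∣ u i * v j - u j * v i := fun h => hD (h.mul_left _)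
  obtain ⟨a, ha1, ha2⟩ := exists_root p hp (u i) (v i) hui
  obtain ⟨b, hb1, hb2⟩ := exists_root p hp (u j) (v j) huj
  have hab : a ≠ b := by
    rintro rfl
    apply hd
    have := dvd_sub (hb2.mul_left (u i)) (ha2.mul_left (u j))
    have e : u i * (u j * (a : ℤ) + v j) - u j * (u i * a + v i) = u i * v j - u j * v i := by ring
    rwa [e] at this
  unfold nuB
  have hsub : ({a, b} : Finset ℕ) ⊆ (range p).filter (fun r => QL u v p r) := by
    intro r hr
    rw [mem_insert, mem_singleton] at hr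
    rw [mem_filter, mem_range]
    rcases hr with rfl | rfl
    · exact ⟨ha1, i, ha2⟩
    · exact ⟨hb1, j, hb2⟩
  have := card_le_card hsub
  rwa [card_pair hab] at this

open Classical in
/-- few large primes divide a collision -/
lemma lf_large (h : LF k u v B R) (hB : 1 ≤ B) (T y t : ℕ) (ht : 1 ≤ t) (htT : t ≤ T)
    (hR : (T : ℝ) ≤ R) :
    ((((pz y).filter (fun p : ℕ => T < p ∧ CoG (QL u v) p t)).card : ℕ) : ℝ) ≤
      2 * k ^ 2 * Real.log (3 * B ^ 2 * T) := by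
  obtain ⟨P, hP⟩ : ∃ P : Finset (Fin k × Fin k), P = univ.filter (fun ij => ij.1 ≠ ij.2) := ⟨_, rfl⟩
  obtain ⟨e, he⟩ : ∃ e : Fin k × Fin k → ℕ, e = fun ij =>
    (u ij.2 * v ij.1 - u ij.1 * v ij.2 - u ij.1 * u ij.2 * t).natAbs := ⟨_, rfl⟩
  have htR : (t : ℝ) ≤ R := (by exact_mod_cast htT : (t : ℝ) ≤ T).trans hR
  have hne : ∀ ij ∈ P, e ij ≠ 0 := by
    intro ij hij
    rw [hP, mem_filter] at hij
    rw [he]
    exact Int.natAbs_ne_zero.2 (sub_ne_zero.2 (h.nres ij.1 ij.2 hij.2 t ht htR))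
  have hE : ∏ ij ∈ P, e ij ≠ 0 := Finset.prod_ne_zero_iff.2 hne
  have hle : ∀ ij ∈ P, e ij ≤ 3 * B ^ 2 * T := by
    intro ij _
    have hb : ∀ i j : Fin k, |u i * v j| ≤ (B : ℤ) ^ 2 := by
      intro i j
      rw [abs_mul, pow_two]
      exact mul_le_mul (h.bu i) (h.bv j) (abs_nonneg _) (by positivity)
    have hb2 : |u ij.1 * u ij.2 * (t : ℤ)| ≤ (B : ℤ) ^ 2 * T := by
      rw [abs_mul, abs_mul, pow_two, abs_of_nonneg (by positivity : (0 : ℤ) ≤ (t : ℤ))]
      exact mul_le_mul (mul_le_mul (h.bu _) (h.bu _) (abs_nonneg _) (by positivity))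
        (by exact_mod_cast htT) (by positivity) (by positivity)
    have h1 : |u ij.2 * v ij.1 - u ij.1 * v ij.2 - u ij.1 * u ij.2 * t| ≤ 3 * (B : ℤ) ^ 2 * T := by
      have h2 := abs_sub (u ij.2 * v ij.1 - u ij.1 * v ij.2) (u ij.1 * u ij.2 * t)
      have h3 := abs_sub (u ij.2 * v ij.1) (u ij.1 * v ij.2)
      have h4 := hb ij.2 ij.1
      have h5 := hb ij.1 ij.2
      have hT1 : (1 : ℤ) ≤ T := by exact_mod_cast (by omega : 1 ≤ T)
      have h6 : (B : ℤ) ^ 2 ≤ (B : ℤ) ^ 2 * T := by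
        have : (0 : ℤ) ≤ (B : ℤ) ^ 2 := by positivity
        nlinarith
      linarith
    rw [he]
    rw [Int.abs_eq_natAbs] at h1
    exact_mod_cast h1
  have hcard := card_le_log ((pz y).filter (fun p : ℕ => T < p ∧ CoG (QL u v) p t)) _ hE (fun p hp => by
    rw [mem_filter] at hp
    obtain ⟨hp1, hp2, m, ⟨i, hi⟩, ⟨j, hj⟩⟩ := hp
    have hpp := (mem_pz.1 hp1).2
    refine ⟨hpp, ?_⟩
    have hij : i ≠ j := by
      rintro rfl
      have hu := not_dvd_u h p hpp i m hi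
      have h1 : (p : ℤ) ∣ u i * t := by
        have := dvd_sub hj hi
        have e : u i * ((m + t : ℕ) : ℤ) + v i - (u i * m + v i) = u i * t := by
          push_cast
          ring
        rwa [e] at this
      rcases (Nat.prime_iff_prime_int.1 hpp).dvd_or_dvd h1 with h3 | h3
      · exact hu h3
      · have h4 : p ∣ t := by exact_mod_cast h3
        have := Nat.le_of_dvd ht h4
        omega
    have h1 : (p : ℤ) ∣ u j * v i - u i * v j - u i * u j * t := by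
      have := dvd_sub (hi.mul_left (u j)) (hj.mul_left (u i))
      have e : u j * (u i * (m : ℤ) + v i) - u i * (u j * ((m + t : ℕ) : ℤ) + v j) =
          u j * v i - u i * v j - u i * u j * t := by
        push_cast
        ring
      rwa [e] at this
    have h2 : p ∣ e (i, j) := by
      rw [he]
      exact Int.natCast_dvd.1 h1
    exact h2.trans (Finset.dvd_prod_of_mem _ (by rw [hP, mem_filter]; exact ⟨mem_univ _, hij⟩)))
  have hT1 : 1 ≤ T := by omega
  have hpos : (1 : ℝ) ≤ 3 * B ^ 2 * T := by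
    have : 1 ≤ 3 * B ^ 2 * T := Nat.mul_pos (Nat.mul_pos (by norm_num) (pow_pos hB 2)) hT1
    exact_mod_cast this
  have hlog : Real.log ((∏ ij ∈ P, e ij : ℕ) : ℝ) ≤ k ^ 2 * Real.log (3 * B ^ 2 * T) := by
    have h1 : ∏ ij ∈ P, e ij ≤ (3 * B ^ 2 * T) ^ P.card := Finset.prod_le_pow_card _ _ _ hle
    have h2 : P.card ≤ k ^ 2 := by
      rw [hP]
      refine (card_filter_le _ _).trans ?_
      rw [card_univ, Fintype.card_prod, Fintype.card_fin, pow_two]
    have h3 : ((∏ ij ∈ P, e ij : ℕ) : ℝ) ≤ (3 * B ^ 2 * T : ℝ) ^ P.card := by exact_mod_cast h1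
    have h4 : (0 : ℝ) < ((∏ ij ∈ P, e ij : ℕ) : ℝ) := by exact_mod_cast Nat.pos_of_ne_zero hE
    have h5 := Real.log_le_log h4 h3
    rw [Real.log_pow] at h5
    have h6 : (P.card : ℝ) ≤ k ^ 2 := by exact_mod_cast h2
    exact h5.trans (mul_le_mul_of_nonneg_right h6 (Real.log_nonneg hpos))
  have hl2 := Real.log_two_gt_d9
  have hc0 : (0 : ℝ) ≤ ((((pz y).filter (fun p : ℕ => T < p ∧ CoG (QL u v) p t)).card : ℕ) : ℝ) :=
    Nat.cast_nonneg _
  nlinarith

end Pool.Agent.TH464.PO
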