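import Pool.Agent.TH464.PO.Lin
import Pool.Agent.TH464.PO.Poly

set_option autoImplicit false

/-!
# The Poisson law and the gap laws for linear forms, uniformly in the coefficients
-/

namespace Pool.Agent.TH464.PO

open Finset Filter
open Pool.Agent.W123.RP Pool.Agent.H373R2.T7 Pool.Agent.W123.RU
open Pool.Agent.TH464.PW

open Classical in
/-- everything needed about the sizes, for one system -/
lemma lin_sizes (k A : ℕ) (θ : ℝ) (hθ : 0 < θ) (K y0 T0 R0 : ℕ) (η κ x2 : ℝ) (hη : 0 < η)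
    (hκ : 0 < κ) (hx2 : 0 < x2) :
    ∃ s0 : ℕ, ∀ s : ℕ, s0 ≤ s → ∀ᶠ X : ℕ in atTop, ∀ u v : Fin k → ℤ,
      LF k u v (X ^ A) (Real.log X ^ (k + 1)) → ∀ Y : ℕ, (X : ℝ) ^ θ ≤ Y →
      ∀ y : ℕ, y = ⌊(X : ℝ) ^ (1 / (s : ℝ))⌋₊ →
      y0 ≤ y ∧ y ^ K ≤ Y ∧ Vq (QL u v) y ≤ κ ∧ √(Y : ℝ) ≤ κ * (Y * Vq (QL u v) y) ∧
      x2 / Vq (QL u v) y ≤ κ * (Y * Vq (QL u v) y) ∧
      ∀ T : ℕ, κ ≤ T * Vq (QL u v) y → T * Vq (QL u v) y ≤ x2 → T0 ≤ T ∧ T ^ R0 ≤ Y ∧
        ∀ t ∈ Icc 1 T, ((((pz y).filter (fun p : ℕ => T < p ∧ CoG (QL u v) p t)).card : ℕ) : ℝ) ≤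
          η * T := by
  obtain ⟨v0, hv0, hVlow⟩ := V_lower_unif k
  obtain ⟨C, hC, hVup⟩ := V_upper_unif
  obtain ⟨R1, hR1⟩ : ∃ R1 : ℕ, (K : ℝ) / θ ≤ R1 := exists_nat_ge _
  refine ⟨max R1 2, ?_⟩
  intro s hs
  have hs2 : 2 ≤ s := (le_max_right _ _).trans hs
  have hss : (2 : ℝ) ≤ s := by exact_mod_cast hs2
  have hspos : (0 : ℝ) < s := by linarith
  have hsK : (K : ℝ) ≤ θ * s := by
    have h1 : (K : ℝ) / θ ≤ s := hR1.trans (by exact_mod_cast (le_max_left _ _).trans hs)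
    rw [div_le_iff₀ hθ] at h1
    linarith
  obtain ⟨M, hM⟩ : ∃ M : ℝ, M = (2 * k ^ 2 * (2 * A + 3)) / (κ * η) + T0 / κ + 1 / κ + 1 := ⟨_, rfl⟩
  have hM1a : 0 ≤ (2 * (k : ℝ) ^ 2 * (2 * A + 3)) / (κ * η) := by positivity
  have hM1b : 0 ≤ (T0 : ℝ) / κ := by positivity
  have hM1c : 0 ≤ 1 / κ := by positivity
  have hMpos : 0 < M := by linarith
  have hM1 : 1 ≤ M := by linarith
  have hM2 : 2 * (k : ℝ) ^ 2 * (2 * A + 3) ≤ M * (κ * η) := by
    have : (2 * (k : ℝ) ^ 2 * (2 * A + 3)) / (κ * η) ≤ M := by linarith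
    rwa [div_le_iff₀ (by positivity)] at this
  have hM3 : (T0 : ℝ) ≤ M * κ := by
    have : (T0 : ℝ) / κ ≤ M := by linarith
    rwa [div_le_iff₀ hκ] at this
  have hM4 : 1 ≤ M * κ := by
    have : 1 / κ ≤ M := by linarith
    rwa [div_le_iff₀ hκ] at this
  have hXr : Tendsto (fun X : ℕ => (X : ℝ)) atTop atTop := tendsto_natCast_atTop_atTop
  have hpow2 : Tendsto (fun X : ℕ => (X : ℝ) ^ (1 / (2 * s : ℝ))) atTop atTop :=
    (tendsto_rpow_atTop (by positivity)).comp hXr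
  have hlogX : Tendsto (fun X : ℕ => Real.log (X : ℝ)) atTop atTop :=
    Real.tendsto_log_atTop.comp hXr
  have hll : ∀ᶠ L : ℝ in atTop, C * (4 * s ^ 2) * M * (2 * Real.log L) ^ 2 ≤ L := by
    have h1 : 0 < 1 / (C * (4 * s ^ 2) * M * 4) := by positivity
    have h := (Real.isLittleO_pow_log_id_atTop (n := 2)).bound h1
    filter_upwards [h, eventually_ge_atTop 1] with L h2 hL
    rw [Real.norm_of_nonneg (by positivity), id, Real.norm_of_nonneg (by linarith)] at h2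
    have h3 := mul_le_mul_of_nonneg_left h2 (show 0 ≤ C * (4 * (s : ℝ) ^ 2) * M * 4 by positivity)
    calc C * (4 * (s : ℝ) ^ 2) * M * (2 * Real.log L) ^ 2 = C * (4 * (s : ℝ) ^ 2) * M * 4 *
          Real.log L ^ 2 := by ring
      _ ≤ C * (4 * (s : ℝ) ^ 2) * M * 4 * (1 / (C * (4 * s ^ 2) * M * 4) * L) := h3
      _ = L := by field_simp
  have hl1 : ∀ᶠ L : ℝ in atTop, ((k : ℝ) + 1) * Real.log L ≤ L := by
    have h1 : 0 < 1 / ((k : ℝ) + 1) := by positivity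
    have h := (Real.isLittleO_log_id_atTop).bound h1
    filter_upwards [h, eventually_ge_atTop 1] with L h2 hL
    rw [Real.norm_of_nonneg (Real.log_nonneg hL), id, Real.norm_of_nonneg (by linarith)] at h2
    have h3 := mul_le_mul_of_nonneg_left h2 (show 0 ≤ (k : ℝ) + 1 by positivity)
    calc ((k : ℝ) + 1) * Real.log L ≤ ((k : ℝ) + 1) * (1 / ((k : ℝ) + 1) * L) := h3
      _ = L := by field_simp
  have hMb : 0 < (1 / (κ * v0)) ^ 2 + x2 / (κ * v0 ^ 2) := by positivity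
  filter_upwards [hpow2.eventually_ge_atTop ((y0 : ℝ) + 3), eventually_ge_atTop 16,
    logpow_rpow 2 1 (1 / (2 * s)) one_pos (by positivity), hlogX.eventually hll, hlogX.eventually hl1,
    hlogX.eventually_ge_atTop (4 * A + 4), hlogX.eventually_ge_atTop (x2 / v0),
    logpow_rpow ((k + 1) * R0) 1 θ one_pos hθ,
    logpow_rpow (2 * k) ((1 / (κ * v0)) ^ 2 + x2 / (κ * v0 ^ 2)) θ hMb hθ] with X hX1 hX16 hX2 hX3 hX4
      hX5 hX6 hX7 hX8
  intro u v hLF Y hXY y hy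
  have hX16r : (16 : ℝ) ≤ X := by exact_mod_cast hX16
  have hXpos : (0 : ℝ) < X := by linarith
  have hXone : (1 : ℝ) ≤ X := by linarith
  have hy0r : (0 : ℝ) ≤ y0 := Nat.cast_nonneg _
  have hA0 : (0 : ℝ) ≤ A := Nat.cast_nonneg _
  obtain ⟨hy1, hy2, hy3, hy4⟩ := level_low s hs2 X (by omega) (by linarith)
  rw [← hy] at hy1 hy2 hy3 hy4
  obtain ⟨L, hL⟩ : ∃ L, L = Real.log X := ⟨_, rfl⟩
  rw [← hL] at hX2 hX3 hX4 hX5 hX6 hX7 hX8 hy2 hy3 hLF
  have hL4 : 4 ≤ L := by linarith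
  have hLpos : 0 < L := by linarith
  have hyr : (y0 : ℝ) + 3 ≤ y := hX1.trans hy1
  have hyy0 : y0 ≤ y := by
    have : (y0 : ℝ) ≤ y := by linarith
    exact_mod_cast this
  have hlogy : 0 < Real.log y := lt_of_lt_of_le (by positivity) hy2
  have hY0 : (0 : ℝ) ≤ Y := Nat.cast_nonneg Y
  have hV0 : 0 < Vq (QL u v) y := Vq_pos (QL u v) (fun p hp => lf_adm hLF p hp) y
  have hVlo := hVlow (QL u v) (lf_perB hLF) (fun p hp => lf_adm hLF p hp) y hy4
  have hVX : v0 / L ^ k ≤ Vq (QL u v) y := by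
    refine le_trans ?_ hVlo
    gcongr
  have hLk : 0 < L ^ k := by positivity
  -- the upper bound for the density
  have hVL : Vq (QL u v) y * (M * L) ≤ 1 := by
    obtain ⟨i, j, hij⟩ := hLF.two
    obtain ⟨z, hz⟩ : ∃ z, z = ⌊L ^ 2⌋₊ := ⟨_, rfl⟩
    have hz1 : (z : ℝ) ≤ L ^ 2 := by
      rw [hz]
      exact Nat.floor_le (by positivity)
    have hz2 : L ^ 2 - 1 ≤ z := by
      have := Nat.lt_floor_add_one (L ^ 2)
      rw [← hz] at this
      linarith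
    have hz3 : (4 * A + 2) * L ≤ z := by nlinarith
    have hz4 : (2 : ℝ) ≤ z := by nlinarith
    have hzy : (z : ℝ) ≤ y := by
      refine hz1.trans (le_trans ?_ (hX2.trans hy1))
      rw [one_mul]
    have hD : (u i * u j * (u i * v j - u j * v i)).natAbs ≠ 0 :=
      Int.natAbs_ne_zero.2 (mul_ne_zero (mul_ne_zero (hLF.ne i) (hLF.ne j)) (sub_ne_zero.2 hij))
    have hlogD : Real.log (((u i * u j * (u i * v j - u j * v i)).natAbs : ℕ) : ℝ) ≤ z := by
      refine le_trans ?_ hz3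
      have hb : ∀ i j : Fin k, |u i * v j| ≤ ((X ^ A : ℕ) : ℤ) ^ 2 := by
        intro i j
        rw [abs_mul, pow_two]
        exact mul_le_mul (hLF.bu i) (hLF.bv j) (abs_nonneg _) (by positivity)
      have h1 : |u i * u j * (u i * v j - u j * v i)| ≤ ((2 * (X ^ A) ^ 4 : ℕ) : ℤ) := by
        rw [abs_mul, abs_mul]
        have h2 := abs_sub (u i * v j) (u j * v i)
        have h3 : |u i| * |u j| ≤ ((X ^ A : ℕ) : ℤ) * ((X ^ A : ℕ) : ℤ) :=
          mul_le_mul (hLF.bu i) (hLF.bu j) (abs_nonneg _) (by positivity)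
        have h4 : |u i * v j - u j * v i| ≤ 2 * ((X ^ A : ℕ) : ℤ) ^ 2 := by
          have := hb i j
          have := hb j i
          linarith
        calc |u i| * |u j| * |u i * v j - u j * v i| ≤
            ((X ^ A : ℕ) : ℤ) * ((X ^ A : ℕ) : ℤ) * (2 * ((X ^ A : ℕ) : ℤ) ^ 2) :=
              mul_le_mul h3 h4 (abs_nonneg _) (by positivity)
          _ = ((2 * (X ^ A) ^ 4 : ℕ) : ℤ) := by push_cast; ring
      have h2 : (u i * u j * (u i * v j - u j * v i)).natAbs ≤ 2 * (X ^ A) ^ 4 := by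
        rw [Int.abs_eq_natAbs] at h1
        exact_mod_cast h1
      have h3 : (((u i * u j * (u i * v j - u j * v i)).natAbs : ℕ) : ℝ) ≤ 2 * (X : ℝ) ^ (4 * A) := by
        have : (((u i * u j * (u i * v j - u j * v i)).natAbs : ℕ) : ℝ) ≤ ((2 * (X ^ A) ^ 4 : ℕ) : ℝ) := by
          exact_mod_cast h2
        refine this.trans (le_of_eq ?_)
        push_cast
        rw [← pow_mul, mul_comm A 4]
      have h4 : (0 : ℝ) < (((u i * u j * (u i * v j - u j * v i)).natAbs : ℕ) : ℝ) := by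
        exact_mod_cast Nat.pos_of_ne_zero hD
      calc Real.log (((u i * u j * (u i * v j - u j * v i)).natAbs : ℕ) : ℝ) ≤
          Real.log (2 * (X : ℝ) ^ (4 * A)) := Real.log_le_log h4 h3
        _ = Real.log 2 + 4 * A * L := by
          rw [Real.log_mul (by norm_num) (by positivity), Real.log_pow, ← hL]
          push_cast
          ring
        _ ≤ (4 * A + 2) * L := by
          have := Real.log_two_lt_d9
          nlinarith
    have h1 := hVup (QL u v) _ hD (fun p hp => lf_adm hLF p hp)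
      (fun p hp hd => lf_two p hp i j hd) z y (by exact_mod_cast hz4) (by exact_mod_cast hzy) hlogD
    have hlz : Real.log z ≤ 2 * Real.log L := by
      have := Real.log_le_log (by linarith) hz1
      rw [Real.log_pow] at this
      exact_mod_cast this
    have hlz0 : 0 ≤ Real.log z := Real.log_nonneg (by linarith)
    have h2 : (Real.log z / Real.log y) ^ 2 ≤ (2 * Real.log L / (L / (2 * s))) ^ 2 := by
      apply pow_le_pow_left₀ (by positivity)
      have hl0 : 0 ≤ 2 * Real.log L := hlz0.trans hlz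
      gcongr
    calc Vq (QL u v) y * (M * L) ≤ (C * (2 * Real.log L / (L / (2 * s))) ^ 2) * (M * L) := by
          gcongr
          exact h1.trans (mul_le_mul_of_nonneg_left h2 hC.le)
      _ = (C * (4 * s ^ 2) * M * (2 * Real.log L) ^ 2) / L := by
          field_simp
          ring
      _ ≤ 1 := by
          rw [div_le_one hLpos]
          exact hX3
  have hyK : y ^ K ≤ Y := by
    have h3 : ((y ^ K : ℕ) : ℝ) ≤ Y := by
      push_cast
      calc (y : ℝ) ^ K ≤ ((X : ℝ) ^ (1 / (s : ℝ))) ^ K := by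
            apply pow_le_pow_left₀ (Nat.cast_nonneg _)
            rw [hy]
            exact Nat.floor_le (by positivity)
        _ = (X : ℝ) ^ (1 / (s : ℝ) * K) := by
            rw [Real.rpow_mul hXpos.le, Real.rpow_natCast]
        _ ≤ (X : ℝ) ^ θ := by
            apply Real.rpow_le_rpow_of_exponent_le hXone
            rw [one_div, inv_mul_eq_div, div_le_iff₀ hspos]
            exact hsK
        _ ≤ Y := hXY
    exact_mod_cast h3
  have hYbig : ((1 / (κ * v0)) ^ 2 + x2 / (κ * v0 ^ 2)) * L ^ (2 * k) ≤ Y := hX8.trans hXY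
  have hYa : (1 / (κ * v0)) ^ 2 * L ^ (2 * k) ≤ Y := by
    refine le_trans ?_ hYbig
    gcongr
    have : 0 < x2 / (κ * v0 ^ 2) := by positivity
    linarith
  have hYb : x2 / (κ * v0 ^ 2) * L ^ (2 * k) ≤ Y := by
    refine le_trans ?_ hYbig
    gcongr
    have : 0 < (1 / (κ * v0)) ^ 2 := by positivity
    linarith
  have hpw : L ^ (2 * k) = (L ^ k) ^ 2 := by rw [mul_comm, pow_mul]
  refine ⟨hyy0, hyK, ?_, ?_, ?_, ?_⟩
  · -- V is small
    have h1 : 1 ≤ M * L * κ := by nlinarith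
    calc Vq (QL u v) y = Vq (QL u v) y * 1 := (mul_one _).symm
      _ ≤ Vq (QL u v) y * (M * L * κ) := by gcongr
      _ = Vq (QL u v) y * (M * L) * κ := by ring
      _ ≤ 1 * κ := by gcongr
      _ = κ := one_mul κ
  · have h3 : 1 / (κ * v0) * L ^ k ≤ √(Y : ℝ) := by
      apply Real.le_sqrt_of_sq_le
      rw [mul_pow, ← hpw]
      exact hYa
    have h4 : √(Y : ℝ) * √(Y : ℝ) = Y := Real.mul_self_sqrt hY0
    calc √(Y : ℝ) = κ * (√(Y : ℝ) * (1 / (κ * v0) * L ^ k) * (v0 / L ^ k)) := by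
          field_simp
      _ ≤ κ * (√(Y : ℝ) * √(Y : ℝ) * Vq (QL u v) y) := by gcongr
      _ = κ * (Y * Vq (QL u v) y) := by rw [h4]
  · rw [div_le_iff₀ hV0]
    have h3 : x2 / (κ * v0 ^ 2) * (L ^ k) ^ 2 ≤ Y := by rw [← hpw]; exact hYb
    have hsq : (v0 / L ^ k) ^ 2 ≤ Vq (QL u v) y ^ 2 := pow_le_pow_left₀ (by positivity) hVX 2
    calc x2 = κ * (x2 / (κ * v0 ^ 2) * (L ^ k) ^ 2 * (v0 / L ^ k) ^ 2) := by
          field_simp
      _ ≤ κ * (Y * Vq (QL u v) y ^ 2) := by gcongr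
      _ = κ * (Y * Vq (QL u v) y) * Vq (QL u v) y := by ring
  · intro T hT1 hT2
    have hT0r : (0 : ℝ) ≤ T := Nat.cast_nonneg T
    -- lower bound for `T`
    have hTlow : κ * (M * L) ≤ T := by
      calc κ * (M * L) ≤ T * Vq (QL u v) y * (M * L) := by gcongr
        _ = T * (Vq (QL u v) y * (M * L)) := by ring
        _ ≤ T * 1 := by gcongr
        _ = T := mul_one _
    have hTup : (T : ℝ) ≤ L ^ (k + 1) := by
      have h1 : (T : ℝ) * (v0 / L ^ k) ≤ x2 := (mul_le_mul_of_nonneg_left hVX hT0r).trans hT2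
      have h2 : (T : ℝ) * v0 ≤ x2 * L ^ k := by
        calc (T : ℝ) * v0 = T * (v0 / L ^ k) * L ^ k := by field_simp
          _ ≤ x2 * L ^ k := mul_le_mul_of_nonneg_right h1 hLk.le
      rw [div_le_iff₀ hv0] at hX6
      have h3 : (T : ℝ) * v0 ≤ L ^ (k + 1) * v0 := by
        calc (T : ℝ) * v0 ≤ x2 * L ^ k := h2
          _ ≤ L * v0 * L ^ k := by gcongr
          _ = L ^ (k + 1) * v0 := by ring
      exact le_of_mul_le_mul_right h3 hv0
    refine ⟨?_, ?_, ?_⟩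
    · have : (T0 : ℝ) ≤ T := by
        refine le_trans ?_ hTlow
        have h1 : (0 : ℝ) ≤ T0 := Nat.cast_nonneg _
        nlinarith
      exact_mod_cast this
    · have h3 : ((T ^ R0 : ℕ) : ℝ) ≤ Y := by
        push_cast
        calc (T : ℝ) ^ R0 ≤ (L ^ (k + 1)) ^ R0 := pow_le_pow_left₀ hT0r hTup _
          _ = 1 * L ^ ((k + 1) * R0) := by rw [one_mul, pow_mul]
          _ ≤ (X : ℝ) ^ θ := hX7
          _ ≤ Y := hXY
      exact_mod_cast h3
    · intro t ht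
      rw [mem_Icc] at ht
      have hT1' : 1 ≤ T := by omega
      have hTpos : (0 : ℝ) < T := by exact_mod_cast hT1'
      have h1 := lf_large hLF (Nat.one_le_iff_ne_zero.2 (pow_pos (by omega) A).ne') T y t ht.1 ht.2 hTup
      refine h1.trans ?_
      have h2 : Real.log (3 * ((X ^ A : ℕ) : ℝ) ^ 2 * T) ≤ (2 * A + 3) * L := by
        have e : Real.log (3 * ((X ^ A : ℕ) : ℝ) ^ 2 * T) = Real.log 3 + 2 * A * L + Real.log T := by
          rw [Real.log_mul (by positivity) (by positivity), Real.log_mul (by norm_num) (by positivity),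
            Real.log_pow]
          push_cast
          rw [Real.log_pow, ← hL]
          ring
        rw [e]
        have h3 : Real.log T ≤ L := by
          have h4 := Real.log_le_log hTpos hTup
          rw [Real.log_pow] at h4
          push_cast at h4
          linarith
        have h4 : Real.log 3 ≤ L := by
          rw [hL]
          exact Real.log_le_log (by norm_num) (by linarith)
        linarith
      calc 2 * (k : ℝ) ^ 2 * Real.log (3 * ((X ^ A : ℕ) : ℝ) ^ 2 * T) ≤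
          2 * k ^ 2 * ((2 * A + 3) * L) := by gcongr
        _ = 2 * k ^ 2 * (2 * A + 3) * L := by ring
        _ ≤ M * (κ * η) * L := by gcongr
        _ = η * (κ * (M * L)) := by ring
        _ ≤ η * T := by gcongr

open Classical in
/-- **The Poisson law and the gap laws** for linear forms, uniformly in the coefficients. -/
theorem lin (k A : ℕ) (hk : 1 ≤ k) (θ : ℝ) (hθ : 0 < θ) (k0 : ℕ) (x0 ε : ℝ) (hε : 0 < ε) :
    ∃ s0 : ℕ, ∀ s : ℕ, s0 ≤ s → ∀ᶠ X : ℕ in atTop, ∀ u v : Fin k → ℤ,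
      LF k u v (X ^ A) (Real.log X ^ (k + 1)) → ∀ Z Y : ℕ, (X : ℝ) ^ θ ≤ Y →
      (∀ T : ℕ, T * Vq (QL u v) ⌊(X : ℝ) ^ (1 / (s : ℝ))⌋₊ ≤ x0 → ∀ E : Finset ℕ,
        |(((Ioc Z (Z + Y)).filter
            (fun n => Wc (Sf (QL u v) ⌊(X : ℝ) ^ (1 / (s : ℝ))⌋₊) n T ∈ E)).card : ℝ) -
          Y * ∑ j ∈ E, Real.exp (-(T * Vq (QL u v) ⌊(X : ℝ) ^ (1 / (s : ℝ))⌋₊)) *
            (T * Vq (QL u v) ⌊(X : ℝ) ^ (1 / (s : ℝ))⌋₊) ^ j / j.factorial| ≤ ε * Y) ∧
      (∀ l T : ℕ, (l ≤ k0 ∨ T * Vq (QL u v) ⌊(X : ℝ) ^ (1 / (s : ℝ))⌋₊ ≤ x0) →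
        |(Pk (Sf (QL u v) ⌊(X : ℝ) ^ (1 / (s : ℝ))⌋₊) l T Z Y : ℝ) -
          Y * Vq (QL u v) ⌊(X : ℝ) ^ (1 / (s : ℝ))⌋₊ *
            Ck l (T * Vq (QL u v) ⌊(X : ℝ) ^ (1 / (s : ℝ))⌋₊)| ≤
              ε * (Y * Vq (QL u v) ⌊(X : ℝ) ^ (1 / (s : ℝ))⌋₊)) := by
  obtain ⟨K0, y0, T0, R0, η', κ, hη', hκ, hκ2, hlaw⟩ := gen_law k hk x0 ε hε
  obtain ⟨K1, y1, T1, R1, η1, κ1, x1, hη1, hκ1, hx1, hgap⟩ := gen_gap k hk k0 x0 ε hε
  obtain ⟨s0, h0⟩ := lin_sizes k A θ hθ K0 y0 T0 R0 η' κ (max x0 1) hη' hκ (by positivity)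
  obtain ⟨s1, h1⟩ := lin_sizes k A θ hθ K1 y1 T1 R1 η1 κ1 x1 hη1 hκ1 hx1
  refine ⟨max s0 s1, ?_⟩
  intro s hs
  filter_upwards [h0 s ((le_max_left _ _).trans hs), h1 s ((le_max_right _ _).trans hs)] with X hX0 hX1
  intro u v hLF Z Y hXY
  obtain ⟨y, hy⟩ : ∃ y, y = ⌊(X : ℝ) ^ (1 / (s : ℝ))⌋₊ := ⟨_, rfl⟩
  rw [← hy]
  constructor
  · obtain ⟨a1, a2, a3, a4, a5, a6⟩ := hX0 u v hLF Y hXY y hy
    exact hlaw (QL u v) Z Y y (lf_perB hLF) (fun p hp => lf_adm hLF p hp) a1 a2 a3 a6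
  · obtain ⟨a1, a2, a3, a4, a5, a6⟩ := hX1 u v hLF Y hXY y hy
    exact hgap (QL u v) Z Y y (lf_perB hLF) (fun p hp => lf_adm hLF p hp) a1 a2 a3 a4 a5 a6

end Pool.Agent.TH464.PO
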