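import Pool.Agent.TH464.PO.Sing2

set_option autoImplicit false

/-!
# Several windows: the singular average over sets with a prescribed number of elements in each window
-/

namespace Pool.Agent.TH464.PO

open Finset Pool.Agent.H373R2.T7 Pool.Agent.W123.RP Pool.Agent.W123.RU

/-! ### elementary -/

lemma pow_sub_pow_bd (a b : ℝ) (k : ℕ) (hb : 0 ≤ b) (hab : b ≤ a) :
    a ^ k - b ^ k ≤ k * (a - b) * a ^ (k - 1) := by
  induction k with
  | zero => simp
  | succ k ih =>
    have ha : 0 ≤ a := hb.trans hab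
    rcases k with _ | k
    · simp
    · simp only [Nat.add_sub_cancel] at ih ⊢
      have h1 : b ^ (k + 1) ≤ a ^ (k + 1) := pow_le_pow_left₀ hb hab _
      calc a ^ (k + 1 + 1) - b ^ (k + 1 + 1) = a * (a ^ (k + 1) - b ^ (k + 1)) + (a - b) * b ^ (k + 1) := by
            ring
        _ ≤ a * (((k + 1 : ℕ) : ℝ) * (a - b) * a ^ k) + (a - b) * a ^ (k + 1) := by
            apply add_le_add
            · exact mul_le_mul_of_nonneg_left ih ha
            · exact mul_le_mul_of_nonneg_left h1 (by linarith)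
        _ = ((k + 1 + 1 : ℕ) : ℝ) * (a - b) * a ^ (k + 1) := by
            push_cast
            ring

lemma nat_le_factorial (k : ℕ) : (k : ℝ) / k.factorial ≤ 1 := by
  rw [div_le_one (by exact_mod_cast Nat.factorial_pos k)]
  exact_mod_cast Nat.self_le_factorial k

/-- `choose` is close to the power -/
lemma choose_close (N k : ℕ) (x M L δ : ℝ) (h : |(N : ℝ) - x| ≤ M) (hx0 : 0 ≤ x) (hxL : x ≤ L)
    (hM : M + k ≤ δ * L) (hδ0 : 0 ≤ δ) (hδ : δ ≤ 1) (hM0 : 0 ≤ M) :
    |(N.choose k : ℝ) - x ^ k / k.factorial| ≤ δ * (2 * (2 * L)) ^ k := by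
  obtain ⟨h1, h2⟩ := abs_le.1 h
  have hkf : (0 : ℝ) < k.factorial := by exact_mod_cast Nat.factorial_pos k
  have hk0 : (0 : ℝ) ≤ k := Nat.cast_nonneg k
  have hL0 : 0 ≤ L := hx0.trans hxL
  have hδL : δ * L ≤ L := by nlinarith
  rcases Nat.eq_zero_or_pos k with hk | hk
  · subst hk
    simp only [Nat.choose_zero_right, Nat.cast_one, pow_zero, Nat.factorial_zero, div_one, sub_self,
      abs_zero, mul_one]
    exact hδ0
  obtain ⟨a, ha⟩ : ∃ a : ℝ, a = x + M + k := ⟨_, rfl⟩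
  obtain ⟨b, hb⟩ : ∃ b : ℝ, b = max (x - M - k) 0 := ⟨_, rfl⟩
  have hb0 : 0 ≤ b := by rw [hb]; exact le_max_right _ _
  have hbx : b ≤ x := by
    rw [hb]
    apply max_le _ hx0
    linarith
  have hxa : x ≤ a := by rw [ha]; linarith
  have hab : a - b ≤ 2 * (M + k) := by
    have : x - M - k ≤ b := by rw [hb]; exact le_max_left _ _
    rw [ha]
    linarith
  have hup : (N.choose k : ℝ) ≤ a ^ k / k.factorial := by
    refine (Nat.choose_le_pow_div k N).trans ?_
    apply div_le_div_of_nonneg_right _ hkf.le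
    apply pow_le_pow_left₀ (Nat.cast_nonneg _)
    rw [ha]
    linarith
  have hlo : b ^ k / k.factorial ≤ (N.choose k : ℝ) := by
    rcases le_total (x - M - k) 0 with h0 | h0
    · have : b = 0 := by rw [hb]; exact max_eq_right h0
      rw [this, zero_pow (by omega)]
      simp
    · have e : b = x - M - k := by rw [hb]; exact max_eq_left h0
      rw [e]
      exact (choose_bounds N k x M h (by linarith)).1
  have hxk1 : b ^ k / k.factorial ≤ x ^ k / k.factorial :=
    div_le_div_of_nonneg_right (pow_le_pow_left₀ hb0 hbx k) hkf.le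
  have hxk2 : x ^ k / k.factorial ≤ a ^ k / k.factorial :=
    div_le_div_of_nonneg_right (pow_le_pow_left₀ hx0 hxa k) hkf.le
  have hdiff : a ^ k / k.factorial - b ^ k / k.factorial ≤ δ * (2 * (2 * L)) ^ k := by
    have h3 := pow_sub_pow_bd a b k hb0 (hbx.trans hxa)
    have haL : a ≤ 2 * L := by rw [ha]; linarith
    have ha0 : 0 ≤ a := hx0.trans hxa
    have h4 : a ^ k - b ^ k ≤ k * (2 * (δ * L)) * (2 * L) ^ (k - 1) := by
      refine h3.trans ?_
      apply mul_le_mul
      · apply mul_le_mul_of_nonneg_left _ hk0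
        linarith
      · exact pow_le_pow_left₀ ha0 haL _
      · exact pow_nonneg ha0 _
      · apply mul_nonneg hk0
        have : 0 ≤ δ * L := by linarith
        linarith
    rw [← sub_div, div_le_iff₀ hkf]
    have e5 : (2 * L) ^ k = 2 * L * (2 * L) ^ (k - 1) := by
      obtain ⟨j, rfl⟩ : ∃ j, k = j + 1 := ⟨k - 1, by omega⟩
      rw [Nat.add_sub_cancel, pow_succ]
      ring
    have h6 : (k : ℝ) * (2 * (δ * L)) * (2 * L) ^ (k - 1) = δ * ((2 * L) ^ k * k) := by
      rw [e5]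
      ring
    rw [h6] at h4
    refine h4.trans ?_
    rw [mul_assoc]
    apply mul_le_mul_of_nonneg_left _ hδ0
    have hkk : (k : ℝ) ≤ k.factorial := by exact_mod_cast Nat.self_le_factorial k
    have h7 : (2 * L) ^ k ≤ (2 * (2 * L)) ^ k := pow_le_pow_left₀ (by positivity) (by linarith) k
    exact mul_le_mul h7 hkk hk0 (by positivity)
  rw [abs_le]
  constructor <;> linarith

/-- products of close numbers are close -/
lemma prod_close {ι : Type*} (s : Finset ι) (a b B : ι → ℝ) (δ : ℝ)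
    (ha : ∀ i ∈ s, |a i| ≤ B i) (hb : ∀ i ∈ s, |b i| ≤ B i) (h : ∀ i ∈ s, |a i - b i| ≤ δ * B i) :
    |∏ i ∈ s, a i - ∏ i ∈ s, b i| ≤ s.card * δ * ∏ i ∈ s, B i := by
  classical
  induction s using Finset.induction_on with
  | empty => simp
  | insert j s hj ih =>
    have ih' := ih (fun i hi => ha i (mem_insert_of_mem hi)) (fun i hi => hb i (mem_insert_of_mem hi))
      (fun i hi => h i (mem_insert_of_mem hi))
    rw [Finset.prod_insert hj, Finset.prod_insert hj, Finset.prod_insert hj, card_insert_of_notMem hj]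
    have hBj : 0 ≤ B j := (abs_nonneg _).trans (ha j (mem_insert_self _ _))
    have hBs : 0 ≤ ∏ i ∈ s, B i :=
      Finset.prod_nonneg fun i hi => (abs_nonneg _).trans (ha i (mem_insert_of_mem hi))
    have h1 : |∏ i ∈ s, b i| ≤ ∏ i ∈ s, B i := by
      rw [Finset.abs_prod]
      exact Finset.prod_le_prod (fun i _ => abs_nonneg _) (fun i hi => hb i (mem_insert_of_mem hi))
    have e : a j * ∏ i ∈ s, a i - b j * ∏ i ∈ s, b i =
        a j * (∏ i ∈ s, a i - ∏ i ∈ s, b i) + (a j - b j) * ∏ i ∈ s, b i := by ring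
    rw [e]
    refine (abs_add_le _ _).trans ?_
    rw [abs_mul, abs_mul]
    calc |a j| * |∏ i ∈ s, a i - ∏ i ∈ s, b i| + |a j - b j| * |∏ i ∈ s, b i| ≤
        B j * (s.card * δ * ∏ i ∈ s, B i) + δ * B j * ∏ i ∈ s, B i := by
          apply add_le_add
          · exact mul_le_mul (ha j (mem_insert_self _ _)) ih' (abs_nonneg _) hBj
          · apply mul_le_mul (h j (mem_insert_self _ _)) h1 (abs_nonneg _)
            exact (abs_nonneg _).trans (h j (mem_insert_self _ _))
      _ = ((s.card + 1 : ℕ) : ℝ) * δ * (B j * ∏ i ∈ s, B i) := by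
          push_cast
          ring

/-! ### sets with prescribed numbers of elements in the windows -/

variable {s : ℕ}

/-- the families of sets -/
def Fam (W : Fin s → Finset ℕ) (k : Fin s → ℕ) : Finset (∀ _ : Fin s, Finset ℕ) :=
  Fintype.piFinset (fun i => powersetCard (k i) (W i))

/-- the union -/
def Un (H : ∀ _ : Fin s, Finset ℕ) : Finset ℕ := Finset.univ.biUnion H

lemma mem_Fam (W : Fin s → Finset ℕ) (k : Fin s → ℕ) (H : ∀ _ : Fin s, Finset ℕ) :
    H ∈ Fam W k ↔ ∀ i, H i ⊆ W i ∧ (H i).card = k i := by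
  unfold Fam
  rw [Fintype.mem_piFinset]
  apply forall_congr'
  intro i
  rw [mem_powersetCard]

lemma Un_card (W : Fin s → Finset ℕ) (hW : ∀ i j, i ≠ j → Disjoint (W i) (W j)) (k : Fin s → ℕ)
    (H : ∀ _ : Fin s, Finset ℕ) (hH : H ∈ Fam W k) : (Un H).card = ∑ i, k i := by
  rw [mem_Fam] at hH
  unfold Un
  rw [Finset.card_biUnion]
  · exact Finset.sum_congr rfl fun i _ => (hH i).2
  · intro i _ j _ hij
    exact (hW i j hij).mono (hH i).1 (hH j).1

lemma Un_inj (W : Fin s → Finset ℕ) (hW : ∀ i j, i ≠ j → Disjoint (W i) (W j)) (k : Fin s → ℕ)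
    (H H' : ∀ _ : Fin s, Finset ℕ) (hH : H ∈ Fam W k) (hH' : H' ∈ Fam W k) (h : Un H = Un H') :
    H = H' := by
  rw [mem_Fam] at hH hH'
  have key : ∀ G : ∀ _ : Fin s, Finset ℕ, (∀ i, G i ⊆ W i ∧ (G i).card = k i) → ∀ i,
      G i = (Un G) ∩ W i := by
    intro G hG i
    ext x
    rw [mem_inter]
    unfold Un
    rw [mem_biUnion]
    constructor
    · intro hx
      exact ⟨⟨i, mem_univ _, hx⟩, (hG i).1 hx⟩
    · rintro ⟨⟨j, _, hj⟩, hx⟩
      by_cases hij : j = i
      · rwa [hij] at hj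
      · exact absurd hx (Finset.disjoint_left.1 (hW j i hij) ((hG j).1 hj))
  funext i
  rw [key H hH i, key H' hH' i, h]

lemma Un_sub (W : Fin s → Finset ℕ) (T : ℕ) (hWT : ∀ i, W i ⊆ Icc 1 T) (k : Fin s → ℕ)
    (H : ∀ _ : Fin s, Finset ℕ) (hH : H ∈ Fam W k) : Un H ⊆ Icc 1 T := by
  rw [mem_Fam] at hH
  unfold Un
  intro x hx
  rw [mem_biUnion] at hx
  obtain ⟨i, _, hi⟩ := hx
  exact hWT i ((hH i).1 hi)

open Classical in
/-- the average over the families, as an average over a period -/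
lemma sum_fam (Q : ℕ → ℕ → Prop) (c : ℕ) (hQ : PerB Q c) (w : ℕ) (W : Fin s → Finset ℕ)
    (k : Fin s → ℕ) :
    (Mw w : ℝ) * ∑ H ∈ Fam W k, Vq (QH Q (Un H)) w =
      ∑ m ∈ range (Mw w), ∏ i, ((((W i).filter (fun h => Sf Q w (m + h))).card.choose (k i) : ℕ) : ℝ) := by
  rw [Finset.mul_sum]
  have h1 : ∀ H ∈ Fam W k, (Mw w : ℝ) * Vq (QH Q (Un H)) w =
      ∑ m ∈ range (Mw w), ∏ i, if (∀ h ∈ H i, Sf Q w (m + h)) then (1 : ℝ) else 0 := by
    intro H _
    rw [← exact (QH Q (Un H)) _ (perB_QH Q c hQ (Un H)) w]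
    have e : ∀ m : ℕ, (∏ i, if (∀ h ∈ H i, Sf Q w (m + h)) then (1 : ℝ) else 0) =
        if Sf (QH Q (Un H)) w m then (1 : ℝ) else 0 := by
      intro m
      rw [Finset.prod_ite_zero, Finset.prod_const_one]
      congr 1
      apply propext
      rw [sf_QH]
      unfold Un
      simp only [mem_biUnion, mem_univ, true_and, forall_exists_index, forall_const]
      constructor
      · intro h x i hx
        exact h i x hx
      · intro h i x hx
        exact h x i hx
    rw [Finset.sum_congr rfl fun m _ => e m, Finset.sum_ite, Finset.sum_const_zero, add_zero,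
      Finset.sum_const, nsmul_eq_mul, mul_one]
  rw [Finset.sum_congr rfl h1, Finset.sum_comm]
  apply Finset.sum_congr rfl
  intro m _
  have h2 := Finset.prod_univ_sum (fun i => powersetCard (k i) (W i))
    (fun i (H : Finset ℕ) => if (∀ h ∈ H, Sf Q w (m + h)) then (1 : ℝ) else 0)
  unfold Fam
  rw [← h2]
  apply Finset.prod_congr rfl
  intro i _
  rw [Finset.sum_ite, Finset.sum_const_zero, add_zero, Finset.sum_const, nsmul_eq_mul, mul_one,
    ← Finset.card_powersetCard]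
  congr 2
  ext H
  rw [mem_filter, mem_powersetCard, mem_powersetCard]
  constructor
  · rintro ⟨⟨a1, a2⟩, a3⟩
    exact ⟨fun h hh => mem_filter.2 ⟨a1 hh, a3 h hh⟩, a2⟩
  · rintro ⟨a1, a2⟩
    exact ⟨⟨fun h hh => (mem_filter.1 (a1 hh)).1, a2⟩, fun h hh => (mem_filter.1 (a1 hh)).2⟩

open Classical in
/-- the number of sifted integers in a window -/
lemma window' (Q : ℕ → ℕ → Prop) (c : ℕ) (hQ : PerB Q c) (w m a b : ℕ) (hab : a ≤ b) :
    |((((Ioc a b).filter (fun h => Sf Q w (m + h))).card : ℕ) : ℝ) - ((b : ℝ) - a) * Vq Q w| ≤ Mw w := by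
  have h1 := window Q c hQ w (m + a) (b - a)
  have h2 : ((Icc 1 (b - a)).filter (fun h => Sf Q w (m + a + h))).card =
      ((Ioc a b).filter (fun h => Sf Q w (m + h))).card := by
    apply Finset.card_bij (fun h _ => a + h)
    · intro h hh
      rw [mem_filter, mem_Icc] at hh
      rw [mem_filter, mem_Ioc, ← add_assoc]
      exact ⟨by omega, hh.2⟩
    · intro x _ y _ hxy
      omega
    · intro n hn
      rw [mem_filter, mem_Ioc] at hn
      have e : m + a + (n - a) = m + n := by omega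
      exact ⟨n - a, by rw [mem_filter, mem_Icc, e]; exact ⟨by omega, hn.2⟩, by omega⟩
  rw [h2, Nat.cast_sub hab] at h1
  exact h1

/-- **The small primes.** -/
theorem small_multi (k : Fin s → ℕ) (w : ℕ) (η : ℝ) (hη : 0 < η) : ∃ T0 : ℕ, ∀ T : ℕ, T0 ≤ T →
    ∀ (Q : ℕ → ℕ → Prop) (c : ℕ), PerB Q c → (∀ p : ℕ, p.Prime → nuB Q p < p) →
    ∀ a b : Fin s → ℕ, (∀ i, a i ≤ b i) → (∀ i, b i ≤ T) →
    |∑ H ∈ Fam (fun i => Ioc (a i) (b i)) k, Vq (QH Q (Un H)) w -
      ∏ i, ((((b i : ℝ) - a i) * Vq Q w) ^ (k i) / (k i).factorial)| ≤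
      η * (T * Vq Q w) ^ (∑ i, k i) := by
  classical
  obtain ⟨M, hM⟩ : ∃ M, M = Mw w := ⟨_, rfl⟩
  have hMpos : 0 < M := by rw [hM]; exact Mw_pos w
  have hMr : (0 : ℝ) < M := by exact_mod_cast hMpos
  obtain ⟨S, hS⟩ : ∃ S : ℕ, S = ∑ i, k i := ⟨_, rfl⟩
  obtain ⟨δ, hδ⟩ : ∃ δ : ℝ, δ = min 1 (η / ((s + 1) * 4 ^ S)) := ⟨_, rfl⟩
  have hδ0 : 0 < δ := by rw [hδ]; positivity
  have hδ1 : δ ≤ 1 := by rw [hδ]; exact min_le_left _ _
  have hδη : δ * ((s + 1) * 4 ^ S) ≤ η := by
    have : δ ≤ η / ((s + 1) * 4 ^ S) := by rw [hδ]; exact min_le_right _ _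
    rwa [le_div_iff₀ (by positivity)] at this
  obtain ⟨T0, hT0⟩ : ∃ T0 : ℕ, (M : ℝ) * (M + S) / δ ≤ T0 := exists_nat_ge _
  refine ⟨T0, ?_⟩
  intro T hT Q c hQ hadm a b hab hbT
  have hTr : (M : ℝ) * (M + S) / δ ≤ T := hT0.trans (by exact_mod_cast hT)
  have hW := Vq_pos Q hadm w
  have hex := exact Q c hQ w
  rw [← hM] at hex
  have hMW : 1 ≤ (M : ℝ) * Vq Q w := by
    rw [← hex]
    have h1 : (0 : ℝ) < (((range M).filter (fun m => Sf Q w m)).card : ℝ) := by
      rw [hex]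
      positivity
    have h2 : 0 < ((range M).filter (fun m => Sf Q w m)).card := by exact_mod_cast h1
    exact_mod_cast h2
  obtain ⟨L, hL⟩ : ∃ L : ℝ, L = T * Vq Q w := ⟨_, rfl⟩
  rw [← hL]
  have hLM : (M : ℝ) + S ≤ δ * L := by
    rw [hL]
    rw [div_le_iff₀ hδ0] at hTr
    have h1 : (M : ℝ) * (M + S) ≤ M * (δ * (T * Vq Q w)) := by
      calc (M : ℝ) * (M + S) ≤ T * δ := hTr
        _ = T * δ * 1 := (mul_one _).symm
        _ ≤ T * δ * (M * Vq Q w) := by gcongr
        _ = _ := by ring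
    exact le_of_mul_le_mul_left h1 hMr
  have hMS : (0 : ℝ) < (M : ℝ) + S := by positivity
  have hL0 : 0 < L := by
    by_contra hcon
    rw [not_lt] at hcon
    have : δ * L ≤ 0 := mul_nonpos_of_nonneg_of_nonpos hδ0.le hcon
    linarith
  have hkS : ∀ i, k i ≤ S := fun i => by
    rw [hS]
    exact Finset.single_le_sum (f := k) (fun _ _ => Nat.zero_le _) (mem_univ i)
  have hsum := sum_fam Q c hQ w (fun i => Ioc (a i) (b i)) k
  rw [← hM] at hsum
  obtain ⟨P, hP⟩ : ∃ P : ℝ, P = ∏ i, ((((b i : ℝ) - a i) * Vq Q w) ^ (k i) / (k i).factorial) := ⟨_, rfl⟩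
  rw [← hP, ← hS]
  have hx0 : ∀ i, 0 ≤ ((b i : ℝ) - a i) * Vq Q w := fun i => by
    have : (a i : ℝ) ≤ b i := by exact_mod_cast hab i
    exact mul_nonneg (by linarith) hW.le
  have hxL : ∀ i, ((b i : ℝ) - a i) * Vq Q w ≤ L := fun i => by
    rw [hL]
    apply mul_le_mul_of_nonneg_right _ hW.le
    have h1 : (b i : ℝ) ≤ T := by exact_mod_cast hbT i
    have h2 : (0 : ℝ) ≤ a i := Nat.cast_nonneg _
    linarith
  have hδL : δ * L ≤ L := by nlinarith
  have hterm : ∀ m ∈ range M,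
      |∏ i, ((((Ioc (a i) (b i)).filter (fun h => Sf Q w (m + h))).card.choose (k i) : ℕ) : ℝ) - P| ≤
        η * L ^ S := by
    intro m _
    rw [hP]
    have hwin : ∀ i, |((((Ioc (a i) (b i)).filter (fun h => Sf Q w (m + h))).card : ℕ) : ℝ) -
        ((b i : ℝ) - a i) * Vq Q w| ≤ M := fun i => by
      rw [hM]
      exact window' Q c hQ w m (a i) (b i) (hab i)
    have hclose : ∀ i ∈ (univ : Finset (Fin s)),
        |((((Ioc (a i) (b i)).filter (fun h => Sf Q w (m + h))).card.choose (k i) : ℕ) : ℝ) -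
          (((b i : ℝ) - a i) * Vq Q w) ^ (k i) / (k i).factorial| ≤ δ * (2 * (2 * L)) ^ (k i) := by
      intro i _
      apply choose_close _ (k i) _ M L δ (hwin i) (hx0 i) (hxL i) _ hδ0.le hδ1 hMr.le
      have : (k i : ℝ) ≤ S := by exact_mod_cast hkS i
      linarith
    have hb2 : ∀ i ∈ (univ : Finset (Fin s)),
        |(((b i : ℝ) - a i) * Vq Q w) ^ (k i) / (k i).factorial| ≤ (2 * (2 * L)) ^ (k i) := by
      intro i _
      have hkf : (1 : ℝ) ≤ (k i).factorial := by exact_mod_cast Nat.factorial_pos (k i)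
      rw [abs_of_nonneg (div_nonneg (pow_nonneg (hx0 i) _) (by linarith))]
      refine (div_le_self (pow_nonneg (hx0 i) _) hkf).trans ?_
      exact pow_le_pow_left₀ (hx0 i) (by linarith [hxL i]) _
    have hb1 : ∀ i ∈ (univ : Finset (Fin s)),
        |((((Ioc (a i) (b i)).filter (fun h => Sf Q w (m + h))).card.choose (k i) : ℕ) : ℝ)| ≤
          (2 * (2 * L)) ^ (k i) := by
      intro i _
      rw [abs_of_nonneg (Nat.cast_nonneg _)]
      have hkf : (1 : ℝ) ≤ (k i).factorial := by exact_mod_cast Nat.factorial_pos (k i)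
      refine (Nat.choose_le_pow_div _ _).trans ?_
      refine (div_le_self (by positivity) hkf).trans ?_
      apply pow_le_pow_left₀ (Nat.cast_nonneg _)
      have h3 := (abs_le.1 (hwin i)).2
      have h4 := hxL i
      have h5 : (0 : ℝ) ≤ S := Nat.cast_nonneg _
      linarith
    refine (prod_close univ _ _ (fun i => (2 * (2 * L)) ^ (k i)) δ hb1 hb2 hclose).trans ?_
    rw [Finset.prod_pow_eq_pow_sum, ← hS, card_univ, Fintype.card_fin]
    have e4 : (2 * (2 * L)) ^ S = 4 ^ S * L ^ S := by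
      rw [← mul_pow]
      congr 1
      ring
    rw [e4]
    have h6 : (0 : ℝ) ≤ L ^ S := by positivity
    calc (s : ℝ) * δ * (4 ^ S * L ^ S) = (s * δ * 4 ^ S) * L ^ S := by ring
      _ ≤ η * L ^ S := by
        apply mul_le_mul_of_nonneg_right _ h6
        have h7 : (0 : ℝ) < 4 ^ S := by positivity
        nlinarith
  have hM2 : |(M : ℝ) * (∑ H ∈ Fam (fun i => Ioc (a i) (b i)) k, Vq (QH Q (Un H)) w - P)| ≤
      M * (η * L ^ S) := by
    rw [mul_sub, hsum]
    have e : (M : ℝ) * P = ∑ m ∈ range M, P := by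
      rw [Finset.sum_const, card_range, nsmul_eq_mul]
    rw [e, ← Finset.sum_sub_distrib]
    refine (Finset.abs_sum_le_sum_abs _ _).trans ((Finset.sum_le_sum hterm).trans (le_of_eq ?_))
    rw [Finset.sum_const, card_range, nsmul_eq_mul]
  rw [abs_mul, abs_of_pos hMr] at hM2
  exact le_of_mul_le_mul_left hM2 hMr

end Pool.Agent.TH464.PO
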