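import Pool.Agent.TH464.PO.LinInst

set_option autoImplicit false

/-!
# Patterns that do not extend: chains of exact length
-/

namespace Pool.Agent.TH464.PO

open Finset Filter
open Pool.Agent.W123.RP Pool.Agent.H373R2.T7 Pool.Agent.W123.RU

open Classical in
/-- the factor for a new form -/
lemma V_next (Q Q' : ℕ → ℕ → Prop) (D : ℕ) (hsub : ∀ p m, Q p m → Q' p m)
    (hnew : ∀ p : ℕ, p.Prime → ¬ p ∣ D → ∃ r < p, Q' p r ∧ ¬ Q p r) (y : ℕ) :
    Vq Q' y ≤ Vq Q y * ∏ p ∈ (pz y).filter (fun p => ¬ p ∣ D), (1 - 1 / (p : ℝ)) := by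
  unfold Vq
  rw [Finset.prod_filter, ← Finset.prod_mul_distrib]
  apply Finset.prod_le_prod
  · intro p hp
    exact one_sub_nonneg _ p (mem_pz.1 hp).2
  · intro p hp
    have hpp := (mem_pz.1 hp).2
    have hp0 : (0 : ℝ) < p := by exact_mod_cast hpp.pos
    have hle : nuB Q p ≤ nuB Q' p := by
      unfold nuB
      apply card_le_card
      intro a ha
      rw [mem_filter] at ha ⊢
      exact ⟨ha.1, hsub p a ha.2⟩
    by_cases hpD : p ∣ D
    · rw [if_neg (not_not.2 hpD), mul_one]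
      have h2 : (nuB Q p : ℝ) ≤ nuB Q' p := by exact_mod_cast hle
      apply sub_le_sub_left
      gcongr
    · rw [if_pos hpD]
      have hlt : nuB Q p + 1 ≤ nuB Q' p := by
        obtain ⟨r, hr1, hr2, hr3⟩ := hnew p hpp hpD
        unfold nuB
        have hnot : r ∉ (range p).filter (fun a => Q p a) := by
          rw [mem_filter, not_and]
          exact fun _ => hr3
        rw [← card_insert_of_notMem hnot]
        apply card_le_card
        intro a ha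
        rw [mem_insert] at ha
        rw [mem_filter]
        rcases ha with rfl | ha
        · exact ⟨mem_range.2 hr1, hr2⟩
        · rw [mem_filter] at ha
          exact ⟨ha.1, hsub p a ha.2⟩
      have h2 : (nuB Q p : ℝ) + 1 ≤ nuB Q' p := by
        exact_mod_cast hlt
      have h3 : (1 - (nuB Q p : ℝ) / p) * (1 - 1 / (p : ℝ)) =
          1 - ((nuB Q p : ℝ) + 1) / p + (nuB Q p : ℝ) / p ^ 2 := by
        field_simp
        ring
      rw [h3]
      have h4 : (0 : ℝ) ≤ (nuB Q p : ℝ) / p ^ 2 := by positivity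
      have h5 : ((nuB Q p : ℝ) + 1) / p ≤ (nuB Q' p : ℝ) / p := by
        gcongr
      linarith

/-- the density of a longer pattern is smaller -/
lemma V_ratio (Q Q' : ℕ → ℕ → Prop) (D : ℕ) (hD : D ≠ 0) (hsub : ∀ p m, Q p m → Q' p m)
    (hnew : ∀ p : ℕ, p.Prime → ¬ p ∣ D → ∃ r < p, Q' p r ∧ ¬ Q p r) (r : ℕ) (hr : 1 ≤ r)
    (δ : ℝ) (hδ : 0 < δ) : ∀ᶠ X : ℕ in atTop,
    Vq Q' ⌊(X : ℝ) ^ (1 / (r : ℝ))⌋₊ ≤ δ * Vq Q ⌊(X : ℝ) ^ (1 / (r : ℝ))⌋₊ := by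
  classical
  obtain ⟨C, hC, hup⟩ := one_upper
  obtain ⟨z, hz1, hz2⟩ : ∃ z : ℕ, 2 ≤ z ∧ Real.log D ≤ z := by
    obtain ⟨z, hz⟩ := exists_nat_ge (Real.log D)
    exact ⟨z + 2, by omega, hz.trans (by push_cast; linarith)⟩
  have hr0 : (0 : ℝ) < r := by exact_mod_cast hr
  have hfl : Tendsto (fun X : ℕ => ⌊(X : ℝ) ^ (1 / (r : ℝ))⌋₊) atTop atTop :=
    tendsto_nat_floor_atTop.comp
      ((tendsto_rpow_atTop (by positivity)).comp tendsto_natCast_atTop_atTop)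
  have hlog : Tendsto (fun X : ℕ => Real.log (⌊(X : ℝ) ^ (1 / (r : ℝ))⌋₊ : ℝ)) atTop atTop :=
    Real.tendsto_log_atTop.comp (tendsto_natCast_atTop_atTop.comp hfl)
  filter_upwards [hfl.eventually_ge_atTop z, hlog.eventually_ge_atTop (C * Real.log z / δ + 1)]
    with X h1 h2
  obtain ⟨y, hy⟩ : ∃ y, y = ⌊(X : ℝ) ^ (1 / (r : ℝ))⌋₊ := ⟨_, rfl⟩
  rw [← hy] at h1 h2 ⊢
  have h3 := V_next Q Q' D hsub hnew y
  have h4 := hup D hD z y hz1 h1 hz2
  have hV := Vq_nonneg Q y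
  have hlz : 0 < Real.log z := Real.log_pos (by exact_mod_cast (by omega : 1 < z))
  have hly : 0 < Real.log y := by
    have : 0 ≤ C * Real.log z / δ := by positivity
    linarith
  have h5 : C * (Real.log z / Real.log y) ≤ δ := by
    rw [← mul_div_assoc, div_le_iff₀ hly]
    have h6 : C * Real.log z / δ ≤ Real.log y := by linarith
    rw [div_le_iff₀ hδ] at h6
    linarith
  calc Vq Q' y ≤ _ := h3
    _ ≤ Vq Q y * δ := mul_le_mul_of_nonneg_left (h4.trans h5) hV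
    _ = δ * Vq Q y := mul_comm _ _

open Classical in
/-- **The Poisson law for patterns that do not extend.** -/
theorem next_pois (G H : ℕ → ℕ → ℕ → ℕ → Prop) (V : ℕ → ℕ → ℕ → ℝ)
    (hfam : ∀ k : ℕ, 2 ≤ k → ∀ r : ℕ, 1 ≤ r → ∀ᶠ X : ℕ in atTop, ∀ _ : Unit, True →
      ∃ u v : Fin k → ℤ, LF k u v (X ^ 1) (Real.log X ^ (k + 1)) ∧
      (∀ m ≤ 3 * X, Sf (QL u v) ⌊(X : ℝ) ^ (1 / (r : ℝ))⌋₊ m ↔ G k r X m) ∧
      Vq (QL u v) ⌊(X : ℝ) ^ (1 / (r : ℝ))⌋₊ = V k r X)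
    (hrat : ∀ k : ℕ, 2 ≤ k → ∀ r : ℕ, 1 ≤ r → ∀ δ : ℝ, 0 < δ → ∀ᶠ X : ℕ in atTop,
      V (k + 1) r X ≤ δ * V k r X)
    (hH : ∀ k r X m, H k r X m ↔ G k r X m ∧ ¬ G (k + 1) r X m)
    (k : ℕ) (hk : 2 ≤ k) (θ : ℝ) (hθ : 0 < θ) (x ε : ℝ) (hε : 0 < ε) :
    ∃ r0 : ℕ, ∀ r : ℕ, r0 ≤ r → ∀ᶠ X : ℕ in atTop,
      ∀ Z Y : ℕ, (X : ℝ) ^ θ ≤ Y → Z + Y ≤ 2 * X → ∀ T : ℕ, T * V k r X ≤ x → ∀ E : Finset ℕ,
        |(((Ioc Z (Z + Y)).filter (fun n => ((Ioc n (n + T)).filter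
          (fun m => H k r X m)).card ∈ E)).card : ℝ) -
          Y * ∑ j ∈ E, Real.exp (-(T * V k r X)) * (T * V k r X) ^ j / j.factorial| ≤ ε * Y := by
  obtain ⟨r0, h0⟩ := fam_pois k 1 (by omega) (fun _ (_ : Unit) => True)
    (fun r X _ m => G k r X m) (fun r X _ => V k r X)
    (hfam k hk) θ hθ x (ε / 4) (by positivity)
  obtain ⟨r1, h1⟩ := fam_pois (k + 1) 1 (by omega) (fun _ (_ : Unit) => True)
    (fun r X _ m => G (k + 1) r X m) (fun r X _ => V (k + 1) r X)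
    (hfam (k + 1) (by omega)) θ hθ (ε / 4) (ε / 4) (by positivity)
  refine ⟨max (max r0 r1) 1, ?_⟩
  intro r hr
  have hr0 : r0 ≤ r := (le_max_left _ _).trans ((le_max_left _ _).trans hr)
  have hr1 : r1 ≤ r := (le_max_right _ _).trans ((le_max_left _ _).trans hr)
  have hr2 : 1 ≤ r := (le_max_right _ _).trans hr
  obtain ⟨δ, hδ⟩ : ∃ δ : ℝ, δ = ε / 4 / (|x| + 1) := ⟨_, rfl⟩
  have hδ0 : 0 < δ := by rw [hδ]; positivity
  filter_upwards [h0 r hr0, h1 r hr1, hrat k hk r hr2 δ hδ0] with X hX0 hX1 hδX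
  intro Z Y hXY hZY T hT E
  have a0 := hX0 () trivial Z Y hXY hZY T hT E
  have hT0 : (0 : ℝ) ≤ T := Nat.cast_nonneg T
  have hTV : T * V (k + 1) r X ≤ ε / 4 := by
    have h2 : T * V k r X ≤ |x| + 1 := by
      have := le_abs_self x
      linarith
    calc T * V (k + 1) r X ≤ T * (δ * V k r X) := mul_le_mul_of_nonneg_left hδX hT0
      _ = δ * (T * V k r X) := by ring
      _ ≤ δ * (|x| + 1) := mul_le_mul_of_nonneg_left h2 hδ0.le
      _ = ε / 4 := by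
        rw [hδ]
        field_simp
  have a1 := hX1 () trivial Z Y hXY hZY T hTV {0}
  obtain ⟨A, hA⟩ : ∃ A, A = (Ioc Z (Z + Y)).filter (fun n => ((Ioc n (n + T)).filter
      (fun m => H k r X m)).card ∈ E) := ⟨_, rfl⟩
  obtain ⟨B, hB⟩ : ∃ B, B = (Ioc Z (Z + Y)).filter (fun n => ((Ioc n (n + T)).filter
      (fun m => G k r X m)).card ∈ E) := ⟨_, rfl⟩
  obtain ⟨O, hO⟩ : ∃ O, O = (Ioc Z (Z + Y)).filter (fun n => ((Ioc n (n + T)).filter
      (fun m => G (k + 1) r X m)).card ∈ ({0} : Finset ℕ)) :=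
    ⟨_, rfl⟩
  rw [← hB] at a0
  rw [← hO] at a1
  rw [← hA]
  have hIoc : ((Ioc Z (Z + Y)).card : ℝ) = Y := by
    rw [Nat.card_Ioc, Nat.add_sub_cancel_left]
  have hOsub : O ⊆ Ioc Z (Z + Y) := by rw [hO]; exact filter_subset _ _
  have key : ∀ n ∈ O, ((Ioc n (n + T)).filter (fun m => H k r X m)).card =
      ((Ioc n (n + T)).filter (fun m => G k r X m)).card := by
    intro n hn
    rw [hO, mem_filter, mem_singleton, card_eq_zero, filter_eq_empty_iff] at hn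
    congr 1
    apply Finset.filter_congr
    intro m hm
    rw [hH]
    exact ⟨fun h => h.1, fun h => ⟨h, hn.2 hm⟩⟩
  have hAB : |(A.card : ℝ) - B.card| ≤ ((Ioc Z (Z + Y)) \ O).card := by
    have e1 : A ⊆ B ∪ ((Ioc Z (Z + Y)) \ O) := by
      intro n hn
      rw [mem_union, Finset.mem_sdiff]
      by_cases hnO : n ∈ O
      · left
        rw [hA, mem_filter] at hn
        rw [hB, mem_filter]
        refine ⟨hn.1, ?_⟩
        have := hn.2
        rwa [key n hnO] at this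
      · right
        rw [hA, mem_filter] at hn
        exact ⟨hn.1, hnO⟩
    have e2 : B ⊆ A ∪ ((Ioc Z (Z + Y)) \ O) := by
      intro n hn
      rw [mem_union, Finset.mem_sdiff]
      by_cases hnO : n ∈ O
      · left
        rw [hB, mem_filter] at hn
        rw [hA, mem_filter]
        refine ⟨hn.1, ?_⟩
        have := hn.2
        rwa [← key n hnO] at this
      · right
        rw [hB, mem_filter] at hn
        exact ⟨hn.1, hnO⟩
    have c1 : (A.card : ℝ) ≤ B.card + ((Ioc Z (Z + Y)) \ O).card := by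
      exact_mod_cast (card_le_card e1).trans (card_union_le _ _)
    have c2 : (B.card : ℝ) ≤ A.card + ((Ioc Z (Z + Y)) \ O).card := by
      exact_mod_cast (card_le_card e2).trans (card_union_le _ _)
    rw [abs_le]
    constructor <;> linarith
  have hOc : (((Ioc Z (Z + Y)) \ O).card : ℝ) = Y - O.card := by
    rw [card_sdiff_of_subset hOsub, Nat.cast_sub (card_le_card hOsub), hIoc]
  have hY0 : (0 : ℝ) ≤ Y := Nat.cast_nonneg Y
  have hOlow : (Y : ℝ) - O.card ≤ ε / 2 * Y := by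
    simp only [sum_singleton, pow_zero, mul_one, Nat.factorial_zero, Nat.cast_one, div_one] at a1
    have h2 := (abs_le.1 a1).1
    have h3 := Real.add_one_le_exp (-(T * V (k + 1) r X))
    have h4 : (Y : ℝ) * (1 - ε / 4) ≤ Y * Real.exp (-(T * V (k + 1) r X)) := by
      apply mul_le_mul_of_nonneg_left _ hY0
      linarith
    linarith
  have h5 := abs_sub_le (A.card : ℝ) B.card (Y * ∑ j ∈ E, Real.exp (-(T * V k r X)) *
    (T * V k r X) ^ j / j.factorial)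
  have h6 : 0 ≤ ε * Y := by positivity
  calc _ ≤ _ := h5
    _ ≤ ε / 2 * Y + ε / 4 * Y := by
      apply add_le_add _ a0
      exact hAB.trans (by rw [hOc]; exact hOlow)
    _ ≤ ε * Y := by linarith

/-! ### the two kinds of chains -/

/-- the exceptional primes -/
def cD (k : ℕ) : ℕ := 2 * ∏ j ∈ Finset.range k, (2 ^ (j + 1) - 1)

lemma cD_ne (k : ℕ) : cD k ≠ 0 := by
  unfold cD
  apply mul_ne_zero (by norm_num)
  rw [Finset.prod_ne_zero_iff]
  intro j _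
  have : 2 ≤ 2 ^ (j + 1) := by
    calc 2 = 2 ^ 1 := (pow_one 2).symm
      _ ≤ 2 ^ (j + 1) := Nat.pow_le_pow_right (by norm_num) (by omega)
  omega

lemma cD_dvd (k p i : ℕ) (hi : i < k) (h : (p : ℤ) ∣ 2 ^ (k - i) - 1) : p ∣ cD k := by
  unfold cD
  have h1 : 2 ^ (k - i) - 1 ∣ ∏ j ∈ Finset.range k, (2 ^ (j + 1) - 1) := by
    have := Finset.dvd_prod_of_mem (fun j => 2 ^ (j + 1) - 1) (mem_range.2 (by omega : k - i - 1 < k))
    have e : k - i - 1 + 1 = k - i := by omega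
    simpa only [e] using this
  have h2 : p ∣ 2 ^ (k - i) - 1 := by
    rw [← Int.natCast_dvd_natCast, Nat.cast_sub Nat.one_le_two_pow]
    push_cast
    exact h
  exact (h2.trans h1).mul_left 2

lemma odd_of (k p : ℕ) (hp : p.Prime) (h : ¬ p ∣ cD k) : ∀ n : ℕ, ¬ (p : ℤ) ∣ 2 ^ n := by
  intro n hd
  have h1 : p ∣ 2 ^ n := by exact_mod_cast hd
  have h2 : p ∣ 2 := hp.dvd_of_dvd_pow h1
  exact h (h2.mul_right _)

lemma c1_rat (k r : ℕ) (hr : 1 ≤ r) (δ : ℝ) (hδ : 0 < δ) : ∀ᶠ X : ℕ in atTop,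
    Vq (QL (fun i => (c1u (k + 1) i : ℤ)) (fun i => (c1v (k + 1) i : ℤ))) ⌊(X : ℝ) ^ (1 / (r : ℝ))⌋₊ ≤
      δ * Vq (QL (fun i => (c1u k i : ℤ)) (fun i => (c1v k i : ℤ))) ⌊(X : ℝ) ^ (1 / (r : ℝ))⌋₊ := by
  apply V_ratio _ _ (cD k) (cD_ne k) _ _ r hr δ hδ
  · intro p m h
    rw [QL_nat, c1_ex _ (fun N => p ∣ N)] at h ⊢
    obtain ⟨i, hi, h⟩ := h
    exact ⟨i, by omega, h⟩
  · intro p hp hD
    have hodd := odd_of k p hp hD
    obtain ⟨t, ht, hd⟩ := exists_root p hp (2 ^ k) (2 ^ k - 1) (hodd k)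
    have hd' : (p : ℤ) ∣ 2 ^ k * ((t : ℤ) + 1) - 1 := by
      have e : (2 : ℤ) ^ k * (t : ℤ) + (2 ^ k - 1) = 2 ^ k * ((t : ℤ) + 1) - 1 := by ring
      rwa [e] at hd
    have hcast : ∀ i : ℕ, ((2 ^ i * (t + 1) - 1 : ℕ) : ℤ) = 2 ^ i * ((t : ℤ) + 1) - 1 := by
      intro i
      rw [Nat.cast_sub (Nat.mul_pos (by positivity) (by omega))]
      push_cast
      ring
    refine ⟨t, ht, ?_, ?_⟩
    · rw [QL_nat, c1_ex _ (fun N => p ∣ N)]
      refine ⟨k, by omega, ?_⟩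
      rw [← Int.natCast_dvd_natCast, hcast]
      exact hd'
    · rw [QL_nat, c1_ex _ (fun N => p ∣ N)]
      rintro ⟨i, hi, h⟩
      rw [← Int.natCast_dvd_natCast, hcast] at h
      apply hD
      apply cD_dvd k p i hi
      have h1 : (p : ℤ) ∣ 2 ^ (k - i) * (2 ^ i * ((t : ℤ) + 1) - 1) := h.mul_left _
      have h2 := dvd_sub hd' h1
      have e : (2 : ℤ) ^ k * ((t : ℤ) + 1) - 1 - 2 ^ (k - i) * (2 ^ i * ((t : ℤ) + 1) - 1) =
          2 ^ (k - i) - 1 := by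
        have e2 : (2 : ℤ) ^ k = 2 ^ (k - i) * 2 ^ i := by
          rw [← pow_add]
          congr 1
          omega
        rw [e2]
        ring
      rwa [e] at h2

lemma c2_rat (k r : ℕ) (hr : 1 ≤ r) (δ : ℝ) (hδ : 0 < δ) : ∀ᶠ X : ℕ in atTop,
    Vq (QL (fun i => (c2u (k + 1) i : ℤ)) (fun _ => ((1 : ℕ) : ℤ))) ⌊(X : ℝ) ^ (1 / (r : ℝ))⌋₊ ≤
      δ * Vq (QL (fun i => (c2u k i : ℤ)) (fun _ => ((1 : ℕ) : ℤ))) ⌊(X : ℝ) ^ (1 / (r : ℝ))⌋₊ := by
  apply V_ratio _ _ (cD k) (cD_ne k) _ _ r hr δ hδ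
  · intro p m h
    rw [QL_nat, c2_ex _ (fun N => p ∣ N)] at h ⊢
    obtain ⟨i, hi, h⟩ := h
    exact ⟨i, by omega, h⟩
  · intro p hp hD
    have hodd := odd_of k p hp hD
    obtain ⟨t, ht, hd⟩ := exists_root p hp (2 ^ k) 1 (hodd k)
    refine ⟨t, ht, ?_, ?_⟩
    · rw [QL_nat, c2_ex _ (fun N => p ∣ N)]
      refine ⟨k, by omega, ?_⟩
      exact_mod_cast hd
    · rw [QL_nat, c2_ex _ (fun N => p ∣ N)]
      rintro ⟨i, hi, h⟩
      have h' : (p : ℤ) ∣ 2 ^ i * (t : ℤ) + 1 := by exact_mod_cast h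
      apply hD
      apply cD_dvd k p i hi
      have h1 : (p : ℤ) ∣ 2 ^ (k - i) * (2 ^ i * (t : ℤ) + 1) := h'.mul_left _
      have h2 := dvd_sub h1 hd
      have e : 2 ^ (k - i) * (2 ^ i * (t : ℤ) + 1) - (2 ^ k * (t : ℤ) + 1) = 2 ^ (k - i) - 1 := by
        have e2 : (2 : ℤ) ^ k = 2 ^ (k - i) * 2 ^ i := by
          rw [← pow_add]
          congr 1
          omega
        rw [e2]
        ring
      rwa [e] at h2

end Pool.Agent.TH464.PO
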