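import Pool.Agent.TH464.PO.JointPoly

set_option autoImplicit false

/-!
# The joint law of the counts in several windows around the elements
-/

namespace Pool.Agent.TH464.PO

open Finset Filter

/-! ### The Poisson probabilities are Lipschitz -/

lemma pois_zero (x : ℝ) : pois x {0} = Real.exp (-x) := by simp [pois]

lemma pois_one (x : ℝ) : pois x {1} = Real.exp (-x) * x := by simp [pois]

lemma pois_deriv (A : Finset ℕ) (x : ℝ) : HasDerivAt (fun x => pois x A)
    ((∑ j ∈ A, if j = 0 then 0 else pw (j - 1) x) - pois x A) x := by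
  have h : ∀ j ∈ A, HasDerivAt (fun x => pw j x) ((if j = 0 then 0 else pw (j - 1) x) - pw j x) x := by
    intro j _
    rcases j with _ | j
    · rw [if_pos rfl, zero_sub]
      exact pw_zero_deriv x
    · rw [if_neg (Nat.succ_ne_zero j), Nat.add_sub_cancel]
      exact pw_succ_deriv j x
  have h2 := HasDerivAt.fun_sum h
  have e : (fun x => pois x A) = fun x => ∑ j ∈ A, pw j x := rfl
  rw [e]
  refine h2.congr_deriv ?_
  rw [Finset.sum_sub_distrib]
  rfl

lemma pois_lip (A : Finset ℕ) (x y : ℝ) (hx : 0 ≤ x) (hy : 0 ≤ y) :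
    |pois x A - pois y A| ≤ |x - y| := by
  have h := Convex.norm_image_sub_le_of_norm_hasDerivWithin_le (f := fun x => pois x A)
    (f' := fun x => (∑ j ∈ A, if j = 0 then 0 else pw (j - 1) x) - pois x A) (C := 1)
    (s := Set.Ici (0 : ℝ)) (x := y) (y := x)
    (fun z _ => (pois_deriv A z).hasDerivWithinAt) (by
      intro z hz
      rw [Set.mem_Ici] at hz
      have h1 := pois_nonneg z hz A
      have h2 := pois_le_one z hz A
      have h3 : 0 ≤ ∑ j ∈ A, (if j = 0 then 0 else pw (j - 1) z) := by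
        apply Finset.sum_nonneg
        intro j _
        split_ifs
        · exact le_rfl
        · exact pw_nonneg _ _ hz
      have h4 : ∑ j ∈ A, (if j = 0 then 0 else pw (j - 1) z) ≤ 1 := by
        have e : ∑ j ∈ A, (if j = 0 then 0 else pw (j - 1) z) =
            pois z ((A.filter (fun j => j ≠ 0)).image (fun j => j - 1)) := by
          have e0 : pois z ((A.filter (fun j => j ≠ 0)).image (fun j => j - 1)) =
            ∑ i ∈ (A.filter (fun j => j ≠ 0)).image (fun j => j - 1), pw i z := rfl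
          rw [e0, Finset.sum_image, Finset.sum_filter]
          · apply Finset.sum_congr rfl
            intro j _
            by_cases hj : j = 0
            · rw [if_pos hj, if_neg (by simpa using hj)]
            · rw [if_neg hj, if_pos hj]
          · intro i hi j hj hij
            rw [Finset.mem_coe, mem_filter] at hi hj
            simp only at hij
            omega
        rw [e]
        exact pois_le_one z hz _
      rw [Real.norm_eq_abs, abs_le]
      constructor <;> linarith) (convex_Ici 0) hy hx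
  rw [one_mul, Real.norm_eq_abs, Real.norm_eq_abs] at h
  exact h

lemma prod_diff {ι : Type*} (I : Finset ι) (f g : ι → ℝ) (hf : ∀ i, 0 ≤ f i) (hf1 : ∀ i, f i ≤ 1)
    (hg : ∀ i, 0 ≤ g i) (hg1 : ∀ i, g i ≤ 1) (d : ℝ) (hd : ∀ i, |f i - g i| ≤ d) :
    |∏ i ∈ I, f i - ∏ i ∈ I, g i| ≤ I.card * d := by
  classical
  induction I using Finset.induction_on with
  | empty => simp
  | insert a I ha ih =>
    rw [Finset.prod_insert ha, Finset.prod_insert ha, Finset.card_insert_of_notMem ha]
    have hF0 : 0 ≤ ∏ i ∈ I, f i := Finset.prod_nonneg fun i _ => hf i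
    have hF1 : ∏ i ∈ I, f i ≤ 1 := Finset.prod_le_one (fun i _ => hf i) (fun i _ => hf1 i)
    have e : f a * ∏ i ∈ I, f i - g a * ∏ i ∈ I, g i =
        (f a - g a) * ∏ i ∈ I, f i + g a * (∏ i ∈ I, f i - ∏ i ∈ I, g i) := by ring
    rw [e]
    refine (abs_add_le _ _).trans ?_
    rw [abs_mul, abs_mul, abs_of_nonneg hF0, abs_of_nonneg (hg a)]
    have h1 : |f a - g a| * ∏ i ∈ I, f i ≤ d * 1 :=
      mul_le_mul (hd a) hF1 hF0 ((abs_nonneg _).trans (hd a))
    have h2 : g a * |∏ i ∈ I, f i - ∏ i ∈ I, g i| ≤ 1 * (I.card * d) :=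
      mul_le_mul (hg1 a) ih (abs_nonneg _) zero_le_one
    push_cast
    linarith

/-! ### Counting -/

open Classical in
lemma Cc_eq (g : ℕ → Prop) (u v : ℕ) : Cc g u v = ((Ioc u v).filter g).card := rfl

lemma Cc_le (g : ℕ → Prop) (u v : ℕ) : Cc g u v ≤ v - u := by
  classical
  rw [Cc_eq]
  exact (card_filter_le _ _).trans (by rw [Nat.card_Ioc])

lemma Cc_add (g : ℕ → Prop) (u v w : ℕ) (h1 : u ≤ v) (h2 : v ≤ w) :
    Cc g u w = Cc g u v + Cc g v w := by
  classical
  rw [Cc_eq, Cc_eq, Cc_eq, ← Finset.card_union_of_disjoint, ← Finset.filter_union,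
    Finset.Ioc_union_Ioc_eq_Ioc h1 h2]
  apply Finset.disjoint_filter_filter
  rw [Finset.disjoint_left]
  intro x hx hy
  rw [mem_Ioc] at hx hy
  omega

lemma Cc_shift (P : ℕ → Prop) (Z Y t : ℕ) :
    |(Cc P (Z + t) (Z + t + Y) : ℝ) - Cc P Z (Z + Y)| ≤ t := by
  have h1 := Cc_add P Z (Z + t) (Z + t + Y) (by omega) (by omega)
  have h2 := Cc_add P Z (Z + Y) (Z + t + Y) (by omega) (by omega)
  have h3 := Cc_le P Z (Z + t)
  have h4 := Cc_le P (Z + Y) (Z + t + Y)
  have h3' : (Cc P Z (Z + t) : ℝ) ≤ t := by exact_mod_cast (by omega : Cc P Z (Z + t) ≤ t)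
  have h4' : (Cc P (Z + Y) (Z + t + Y) : ℝ) ≤ t := by
    exact_mod_cast (by omega : Cc P (Z + Y) (Z + t + Y) ≤ t)
  have h5 : (Cc P Z (Z + t) : ℝ) + Cc P (Z + t) (Z + t + Y) =
      Cc P Z (Z + Y) + Cc P (Z + Y) (Z + t + Y) := by
    exact_mod_cast h1.symm.trans h2
  have h6 : (0 : ℝ) ≤ Cc P Z (Z + t) := Nat.cast_nonneg _
  have h7 : (0 : ℝ) ≤ Cc P (Z + Y) (Z + t + Y) := Nat.cast_nonneg _
  rw [abs_le]
  constructor <;> linarith

lemma Cc_sum (P : ℕ → Prop) (Z Y c L : ℕ) :
    |∑ n ∈ Ioc Z (Z + Y), (Cc P (n + c) (n + c + L) : ℝ) - L * Cc P Z (Z + Y)| ≤ L * (c + L) := by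
  classical
  have e1 : ∀ n : ℕ, (Cc P (n + c) (n + c + L) : ℝ) =
      ∑ j ∈ Icc 1 L, if P (n + c + j) then (1 : ℝ) else 0 := by
    intro n
    rw [Cc_eq, Finset.card_filter]
    push_cast
    symm
    apply Finset.sum_bij (fun j _ => n + c + j)
    · intro j hj
      rw [mem_Icc] at hj
      rw [mem_Ioc]
      omega
    · intro i _ j _ h
      omega
    · intro m hm
      rw [mem_Ioc] at hm
      exact ⟨m - (n + c), by rw [mem_Icc]; omega, by omega⟩
    · intro j _
      rfl
  have e2 : ∀ j : ℕ, ∑ n ∈ Ioc Z (Z + Y), (if P (n + c + j) then (1 : ℝ) else 0) =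
      Cc P (Z + (c + j)) (Z + (c + j) + Y) := by
    intro j
    rw [Cc_eq, Finset.card_filter]
    push_cast
    apply Finset.sum_bij (fun n _ => n + (c + j))
    · intro n hn
      rw [mem_Ioc] at hn ⊢
      omega
    · intro i _ j _ h
      omega
    · intro m hm
      rw [mem_Ioc] at hm
      exact ⟨m - (c + j), by rw [mem_Ioc]; omega, by omega⟩
    · intro n _
      rw [show n + (c + j) = n + c + j by ring]
  rw [Finset.sum_congr rfl fun n _ => e1 n, Finset.sum_comm, Finset.sum_congr rfl fun j _ => e2 j]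
  have e3 : (L : ℝ) * Cc P Z (Z + Y) = ∑ _j ∈ Icc 1 L, (Cc P Z (Z + Y) : ℝ) := by
    rw [Finset.sum_const, Nat.card_Icc, Nat.add_sub_cancel, nsmul_eq_mul]
  rw [e3, ← Finset.sum_sub_distrib]
  refine (Finset.abs_sum_le_sum_abs _ _).trans ?_
  calc ∑ j ∈ Icc 1 L, |(Cc P (Z + (c + j)) (Z + (c + j) + Y) : ℝ) - Cc P Z (Z + Y)|
      ≤ ∑ _j ∈ Icc 1 L, ((c : ℝ) + L) := by
        apply Finset.sum_le_sum
        intro j hj
        rw [mem_Icc] at hj
        refine (Cc_shift P Z Y (c + j)).trans ?_
        push_cast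
        have : (j : ℝ) ≤ L := by exact_mod_cast hj.2
        linarith
    _ = L * (c + L) := by
        rw [Finset.sum_const, Nat.card_Icc, Nat.add_sub_cancel, nsmul_eq_mul]

/-- the end of the edge at `e` -/
def ue (c L e : ℕ) : ℕ := if e < c then min (e + L) c else e + L

/-- trimming -/
def tr (c L b e : ℕ) : ℕ := if b < c then e else max e (c + L)

lemma Cc_zero (g : ℕ → Prop) (u v : ℕ) (h : Cc g u v = 0) (m : ℕ) (hm : g m) (h1 : u < m) : v < m := by
  classical
  by_contra h2
  rw [Cc_eq, Finset.card_eq_zero] at h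
  have : m ∈ (Ioc u v).filter g := mem_filter.2 ⟨mem_Ioc.2 ⟨h1, by omega⟩, hm⟩
  rw [h] at this
  simp at this

lemma Cc_one (g : ℕ → Prop) (u v : ℕ) (h : Cc g u v = 1) (m m' : ℕ) (hm : g m) (hm' : g m')
    (h1 : u < m) (h2 : m ≤ v) (h3 : u < m') (h4 : m' ≤ v) : m = m' := by
  classical
  rw [Cc_eq, Finset.card_eq_one] at h
  obtain ⟨z, hz⟩ := h
  have a1 : m ∈ (Ioc u v).filter g := mem_filter.2 ⟨mem_Ioc.2 ⟨h1, h2⟩, hm⟩
  have a2 : m' ∈ (Ioc u v).filter g := mem_filter.2 ⟨mem_Ioc.2 ⟨h3, h4⟩, hm'⟩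
  rw [hz, mem_singleton] at a1 a2
  omega

lemma det (g : ℕ → Prop) (n c L j a b : ℕ) (hj1 : 1 ≤ j) (hjL : j ≤ L) (hg : g (n + c + j))
    (h1 : Cc g (n + c) (n + c + L) = 1) (hab : a ≤ b) (hc : b < c ∨ c ≤ a)
    (ha : Cc g (n + tr c L b a) (n + ue c L (tr c L b a)) = 0)
    (hb : Cc g (n + tr c L b b) (n + ue c L (tr c L b b)) = 0) :
    Cc g (n + j + a) (n + j + b) = Cc g (n + tr c L b a) (n + tr c L b b) := by
  classical
  have H1 : ∀ m, g m → n + c < m → m ≤ n + c + L → m = n + c + j := fun m hm h2 h3 =>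
    Cc_one g _ _ h1 m (n + c + j) hm hg h2 h3 (by omega) (by omega)
  have H2 := Cc_zero g _ _ ha
  have H3 := Cc_zero g _ _ hb
  rw [Cc_eq, Cc_eq]
  congr 1
  ext m
  rw [mem_filter, mem_filter, mem_Ioc, mem_Ioc]
  by_cases hbc : b < c
  · have e1 : ∀ e, tr c L b e = e := fun e => if_pos hbc
    have e2 : ue c L a = min (a + L) c := if_pos (by omega)
    have e3 : ue c L b = min (b + L) c := if_pos (by omega)
    rw [e1, e2] at H2
    rw [e1, e3] at H3
    rw [e1, e1]
    constructor
    · rintro ⟨⟨a1, a2⟩, a3⟩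
      refine ⟨⟨by omega, ?_⟩, a3⟩
      by_contra h4
      have h5 := H3 m a3 (by omega)
      by_cases h6 : m ≤ n + c
      · have : n + min (b + L) c = n + b + L ∨ n + min (b + L) c = n + c := by
          rcases le_total (b + L) c with h | h
          · left
            rw [min_eq_left h]
            omega
          · right
            rw [min_eq_right h]
        omega
      · have := H1 m a3 (by omega) (by omega)
        omega
    · rintro ⟨⟨a1, a2⟩, a3⟩
      refine ⟨⟨?_, by omega⟩, a3⟩
      by_contra h4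
      have h5 := H2 m a3 (by omega)
      have : n + min (a + L) c = n + a + L ∨ n + min (a + L) c = n + c := by
        rcases le_total (a + L) c with h | h
        · left
          rw [min_eq_left h]
          omega
        · right
          rw [min_eq_right h]
      omega
  · have hca : c ≤ a := by omega
    have e1 : ∀ e, tr c L b e = max e (c + L) := fun e => if_neg hbc
    rw [e1] at H2
    rw [e1] at H3
    have e2 : ue c L (max a (c + L)) = max a (c + L) + L := if_neg (by
      have := le_max_right a (c + L)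
      omega)
    have e3 : ue c L (max b (c + L)) = max b (c + L) + L := if_neg (by
      have := le_max_right b (c + L)
      omega)
    rw [e2] at H2
    rw [e3] at H3
    rw [e1, e1]
    have m1 := le_max_left a (c + L)
    have m2 := le_max_right a (c + L)
    have m3 := le_max_left b (c + L)
    have m4 := le_max_right b (c + L)
    have m5 : max a (c + L) = a ∨ max a (c + L) = c + L := by
      rcases le_total a (c + L) with h | h
      · right; exact max_eq_right h
      · left; exact max_eq_left h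
    have m6 : max b (c + L) = b ∨ max b (c + L) = c + L := by
      rcases le_total b (c + L) with h | h
      · right; exact max_eq_right h
      · left; exact max_eq_left h
    constructor
    · rintro ⟨⟨a1, a2⟩, a3⟩
      have h5 : n + c + L < m := by
        by_contra h6
        have := H1 m a3 (by omega) (by omega)
        omega
      refine ⟨⟨by omega, ?_⟩, a3⟩
      by_contra h4
      have h5 := H3 m a3 (by omega)
      omega
    · rintro ⟨⟨a1, a2⟩, a3⟩
      refine ⟨⟨?_, by omega⟩, a3⟩
      by_contra h4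
      have h5 := H2 m a3 (by omega)
      omega

end Pool.Agent.TH464.PO
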