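import Pool.Agent.TH464.PO.Palm

set_option autoImplicit false

/-!
# The joint law around the elements
-/

namespace Pool.Agent.TH464.PO

open Finset Filter

variable {s : ℕ}

/-- the condition at the element `m` -/
def Fw (g : ℕ → Prop) (c : ℕ) (a b : Fin s → ℕ) (A : Fin s → Finset ℕ) (m : ℕ) : Prop :=
  ∀ i, Cc g (m + a i - c) (m + b i - c) ∈ A i

open Classical in
/-- exactly one element in the cell, and the window condition -/
noncomputable def IG (g : ℕ → Prop) (c L : ℕ) (a b : Fin s → ℕ) (A : Fin s → Finset ℕ) (n : ℕ) : ℝ :=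
  if Cc g (n + c) (n + c + L) = 1 ∧ ∀ i, Cc g (n + a i) (n + b i) ∈ A i then 1 else 0

open Classical in
/-- exactly one element in the cell -/
noncomputable def I1 (g : ℕ → Prop) (c L n : ℕ) : ℝ :=
  if Cc g (n + c) (n + c + L) = 1 then 1 else 0

open Classical in
/-- exactly one element in the cell, none in the edge -/
noncomputable def Ie (g : ℕ → Prop) (c L e n : ℕ) : ℝ :=
  if Cc g (n + c) (n + c + L) = 1 ∧ Cc g (n + e) (n + ue c L e) = 0 then 1 else 0

lemma Ie_le (g : ℕ → Prop) (c L e n : ℕ) : 0 ≤ I1 g c L n - Ie g c L e n := by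
  unfold I1 Ie
  by_cases h : Cc g (n + c) (n + c + L) = 1
  · rw [if_pos h]
    split_ifs <;> norm_num
  · rw [if_neg h, if_neg (fun h2 => h h2.1)]
    norm_num

lemma pern (g : ℕ → Prop) (c L n : ℕ) (a b : Fin s → ℕ) (A : Fin s → Finset ℕ)
    (hab : ∀ i, a i ≤ b i) (hc : ∀ i, b i < c ∨ c ≤ a i) :
    |(Cc (fun m => g m ∧ Fw g c a b A m) (n + c) (n + c + L) : ℝ) -
      IG g c L (fun i => tr c L (b i) (a i)) (fun i => tr c L (b i) (b i)) A n| ≤
      ((Cc g (n + c) (n + c + L) : ℝ) - I1 g c L n) +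
      ∑ i, (I1 g c L n - Ie g c L (tr c L (b i) (a i)) n) +
      ∑ i, (I1 g c L n - Ie g c L (tr c L (b i) (b i)) n) := by
  classical
  obtain ⟨P, hP⟩ : ∃ P : ℕ → Prop, P = fun m => g m ∧ Fw g c a b A m := ⟨_, rfl⟩
  rw [← hP]
  have hPi : ∀ m, P m ↔ g m ∧ Fw g c a b A m := fun m => by rw [hP]
  obtain ⟨S, hS⟩ : ∃ S, S = Cc P (n + c) (n + c + L) := ⟨_, rfl⟩
  rw [← hS]
  have hSw : S ≤ Cc g (n + c) (n + c + L) := by
    rw [hS, Cc_eq, Cc_eq]
    apply card_le_card
    intro m hm
    rw [mem_filter] at hm ⊢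
    exact ⟨hm.1, ((hPi m).1 hm.2).1⟩
  have hSw' : (S : ℝ) ≤ Cc g (n + c) (n + c + L) := by exact_mod_cast hSw
  have hS0 : (0 : ℝ) ≤ S := Nat.cast_nonneg _
  have hs1 : 0 ≤ ∑ i, (I1 g c L n - Ie g c L (tr c L (b i) (a i)) n) :=
    Finset.sum_nonneg fun i _ => Ie_le g c L _ n
  have hs2 : 0 ≤ ∑ i, (I1 g c L n - Ie g c L (tr c L (b i) (b i)) n) :=
    Finset.sum_nonneg fun i _ => Ie_le g c L _ n
  by_cases hw : Cc g (n + c) (n + c + L) = 1
  · have hI1 : I1 g c L n = 1 := if_pos hw
    by_cases hE : ∀ i, Cc g (n + tr c L (b i) (a i)) (n + ue c L (tr c L (b i) (a i))) = 0 ∧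
        Cc g (n + tr c L (b i) (b i)) (n + ue c L (tr c L (b i) (b i))) = 0
    · obtain ⟨z, hz⟩ := Finset.card_eq_one.1 ((Cc_eq g (n + c) (n + c + L)).symm.trans hw)
      have hzm : z ∈ (Ioc (n + c) (n + c + L)).filter g := by rw [hz]; exact mem_singleton_self z
      rw [mem_filter, mem_Ioc] at hzm
      obtain ⟨⟨z1, z2⟩, zg⟩ := hzm
      have hzj : n + c + (z - (n + c)) = z := by omega
      have hF : Fw g c a b A z ↔
          ∀ i, Cc g (n + tr c L (b i) (a i)) (n + tr c L (b i) (b i)) ∈ A i := by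
        unfold Fw
        apply forall_congr'
        intro i
        have h1 := det g n c L (z - (n + c)) (a i) (b i) (by omega) (by omega) (by rw [hzj]; exact zg)
          hw (hab i) (hc i) (hE i).1 (hE i).2
        rw [show z + a i - c = n + (z - (n + c)) + a i by omega,
          show z + b i - c = n + (z - (n + c)) + b i by omega, h1]
      have hmz : ∀ m, m ∈ Ioc (n + c) (n + c + L) → g m → m = z := by
        intro m h1 h2
        have h3 : m ∈ (Ioc (n + c) (n + c + L)).filter g := mem_filter.2 ⟨h1, h2⟩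
        rw [hz, mem_singleton] at h3
        exact h3
      have hval : (S : ℝ) = IG g c L (fun i => tr c L (b i) (a i)) (fun i => tr c L (b i) (b i)) A n := by
        rw [hS, Cc_eq]
        unfold IG
        by_cases hG : Fw g c a b A z
        · have hSe : (Ioc (n + c) (n + c + L)).filter P = {z} := by
            ext m
            rw [mem_filter, mem_singleton]
            constructor
            · rintro ⟨h1, h2⟩
              exact hmz m h1 ((hPi m).1 h2).1
            · intro h1
              rw [h1]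
              exact ⟨mem_Ioc.2 ⟨z1, z2⟩, (hPi z).2 ⟨zg, hG⟩⟩
          rw [if_pos ⟨hw, hF.1 hG⟩, hSe, card_singleton, Nat.cast_one]
        · have hSe : (Ioc (n + c) (n + c + L)).filter P = ∅ := by
            rw [Finset.filter_eq_empty_iff]
            intro m h1 h2
            have h3 := (hPi m).1 h2
            rw [hmz m h1 h3.1] at h3
            exact hG h3.2
          rw [if_neg (fun h => hG (hF.2 h.2)), hSe, card_empty, Nat.cast_zero]
      rw [hI1] at hs1 hs2
      rw [hval, sub_self, abs_zero, hw, hI1]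
      push_cast
      linarith
    · have hone : 1 ≤ ∑ i, (I1 g c L n - Ie g c L (tr c L (b i) (a i)) n) +
          ∑ i, (I1 g c L n - Ie g c L (tr c L (b i) (b i)) n) := by
        rw [not_forall] at hE
        obtain ⟨i, hi⟩ := hE
        by_cases hi1 : Cc g (n + tr c L (b i) (a i)) (n + ue c L (tr c L (b i) (a i))) = 0
        · have hi2 : ¬ Cc g (n + tr c L (b i) (b i)) (n + ue c L (tr c L (b i) (b i))) = 0 :=
            fun h => hi ⟨hi1, h⟩
          have h1 : I1 g c L n - Ie g c L (tr c L (b i) (b i)) n = 1 := by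
            rw [hI1]
            unfold Ie
            rw [if_neg (fun h => hi2 h.2)]
            norm_num
          have h2 := Finset.single_le_sum
            (f := fun i => I1 g c L n - Ie g c L (tr c L (b i) (b i)) n)
            (fun i _ => Ie_le g c L _ n) (mem_univ i)
          linarith
        · have h1 : I1 g c L n - Ie g c L (tr c L (b i) (a i)) n = 1 := by
            rw [hI1]
            unfold Ie
            rw [if_neg (fun h => hi1 h.2)]
            norm_num
          have h2 := Finset.single_le_sum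
            (f := fun i => I1 g c L n - Ie g c L (tr c L (b i) (a i)) n)
            (fun i _ => Ie_le g c L _ n) (mem_univ i)
          linarith
      have hIG0 : 0 ≤ IG g c L (fun i => tr c L (b i) (a i)) (fun i => tr c L (b i) (b i)) A n := by
        unfold IG
        split_ifs <;> norm_num
      have hIG1 : IG g c L (fun i => tr c L (b i) (a i)) (fun i => tr c L (b i) (b i)) A n ≤ 1 := by
        unfold IG
        split_ifs <;> norm_num
      rw [hw, Nat.cast_one] at hSw'
      rw [hw, hI1, abs_le]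
      rw [hI1] at hone
      push_cast
      constructor <;> linarith
  · have hI1 : I1 g c L n = 0 := if_neg hw
    have hIG : IG g c L (fun i => tr c L (b i) (a i)) (fun i => tr c L (b i) (b i)) A n = 0 :=
      if_neg (fun h => hw h.1)
    rw [hIG, sub_zero, abs_of_nonneg hS0]
    rw [hI1] at hs1 hs2 ⊢
    linarith

/-- The joint law for `t` windows, as a property of `g`. -/
def JL (t : ℕ) (g : ℕ → Prop) (Z Y : ℕ) (V x0 ε : ℝ) : Prop := ∀ a b : Fin t → ℕ, (∀ i, a i ≤ b i) →
  (∀ i, b i * V ≤ x0) → (∀ i j, i ≠ j → b i ≤ a j ∨ b j ≤ a i) → ∀ A : Fin t → Finset ℕ,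
    |∑ n ∈ Ioc Z (Z + Y), (open Classical in if ∀ i, Cc g (n + a i) (n + b i) ∈ A i then (1 : ℝ) else 0) -
      Y * ∏ i, pois (((b i : ℝ) - a i) * V) (A i)| ≤ ε * Y

lemma JJ (g : ℕ → Prop) (Z Y : ℕ) (V x0 ε : ℝ) (h : JL (s + 1) g Z Y V x0 ε) (c L : ℕ)
    (a b : Fin s → ℕ) (hab : ∀ i, a i ≤ b i) (hb : ∀ i, b i * V ≤ x0)
    (hc : ((c + L : ℕ) : ℝ) * V ≤ x0) (hcell : ∀ i, b i ≤ c ∨ c + L ≤ a i)
    (hdis : ∀ i j, i ≠ j → b i ≤ a j ∨ b j ≤ a i) (A : Fin s → Finset ℕ) :
    |∑ n ∈ Ioc Z (Z + Y), IG g c L a b A n -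
      Y * (Real.exp (-(L * V)) * (L * V) * ∏ i, pois (((b i : ℝ) - a i) * V) (A i))| ≤ ε * Y := by
  have h1 := h (Fin.cons c a : Fin (s + 1) → ℕ) (Fin.cons (c + L) b : Fin (s + 1) → ℕ) (by
    intro i
    refine Fin.cases ?_ (fun j => ?_) i
    · simp only [Fin.cons_zero]; omega
    · simp only [Fin.cons_succ]; exact hab j) (by
    intro i
    refine Fin.cases ?_ (fun j => ?_) i
    · simp only [Fin.cons_zero]; exact hc
    · simp only [Fin.cons_succ]; exact hb j) (by
    intro i j
    refine Fin.cases ?_ (fun i' => ?_) i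
    · refine Fin.cases ?_ (fun j' => ?_) j
      · intro h0; exact absurd rfl h0
      · intro _
        simp only [Fin.cons_zero, Fin.cons_succ]
        rcases hcell j' with h2 | h2
        · right; exact h2
        · left; exact h2
    · refine Fin.cases ?_ (fun j' => ?_) j
      · intro _
        simp only [Fin.cons_zero, Fin.cons_succ]
        rcases hcell i' with h2 | h2
        · left; exact h2
        · right; exact h2
      · intro h0
        simp only [Fin.cons_succ]
        exact hdis i' j' (fun e => h0 (by rw [e]))) (Fin.cons {1} A : Fin (s + 1) → Finset ℕ)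
  rw [Fin.prod_univ_succ] at h1
  simp only [Fin.cons_zero, Fin.cons_succ, pois_one, Fin.forall_fin_succ, mem_singleton] at h1
  have e1 : ((c + L : ℕ) : ℝ) - c = L := by push_cast; ring
  rw [e1] at h1
  refine le_trans (le_of_eq ?_) h1
  congr 2
  apply Finset.sum_congr rfl
  intro n _
  unfold IG
  rw [← add_assoc n c L]

end Pool.Agent.TH464.PO
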