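import Pool.Agent.TH464.PO.Palm2

set_option autoImplicit false

/-!
# From the joint law to the joint law around the elements
-/

namespace Pool.Agent.TH464.PO

open Finset Filter

variable {s : ℕ}

lemma tr_mono (c L b e e' : ℕ) (h : e ≤ e') : tr c L b e ≤ tr c L b e' := by
  unfold tr
  split_ifs
  · exact h
  · exact max_le_max h le_rfl

lemma tr_V (c L b e : ℕ) (V x0 : ℝ) (h1 : (e : ℝ) * V ≤ x0) (h2 : ((c : ℝ) + L) * V ≤ x0 + 2) :
    (tr c L b e : ℝ) * V ≤ x0 + 2 := by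
  unfold tr
  split_ifs
  · linarith
  · rcases le_total e (c + L) with h | h
    · rw [max_eq_right h]
      push_cast
      exact h2
    · rw [max_eq_left h]
      linarith

lemma tr_cell (c L a b : ℕ) : tr c L b b ≤ c ∨ c + L ≤ tr c L b a := by
  unfold tr
  by_cases h : b < c
  · left
    rw [if_pos h]
    omega
  · right
    rw [if_neg h]
    exact le_max_right _ _

lemma tr_dis (c L a b a' b' : ℕ) (hab : a ≤ b) (hab' : a' ≤ b')
    (h : b ≤ a' ∨ b' ≤ a) (hc : b < c ∨ c ≤ a) (hc' : b' < c ∨ c ≤ a') :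
    tr c L b b ≤ tr c L b' a' ∨ tr c L b' b' ≤ tr c L b a := by
  have key : ∀ a b a' b' : ℕ, a ≤ b → a' ≤ b' → b ≤ a' →
      tr c L b b ≤ tr c L b' a' := by
    intro a b a' b' h1 h2 h3
    unfold tr
    by_cases h4 : b < c
    · rw [if_pos h4]
      by_cases h5 : b' < c
      · rw [if_pos h5]; exact h3
      · rw [if_neg h5]
        exact h3.trans (le_max_left _ _)
    · rw [if_neg h4, if_neg (by omega)]
      exact max_le_max h3 le_rfl
  rcases h with h | h
  · left
    exact key a b a' b' hab hab' h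
  · right
    exact key a' b' a b hab' hab h

lemma ue_le (c L e : ℕ) : e ≤ ue c L e ∧ ue c L e ≤ e + L := by
  unfold ue
  split_ifs with h
  · constructor
    · exact le_min (by omega) (by omega)
    · exact min_le_left _ _
  · omega

lemma ue_cell (c L a b e : ℕ) (he : e ≤ b) (hc : b < c ∨ c ≤ a) :
    ue c L (tr c L b e) ≤ c ∨ c + L ≤ tr c L b e := by
  unfold tr
  by_cases h : b < c
  · left
    rw [if_pos h]
    unfold ue
    rw [if_pos (by omega)]
    exact min_le_right _ _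
  · right
    rw [if_neg h]
    exact le_max_right _ _

lemma tr_diff (c L a b : ℕ) (hab : a ≤ b) (hc : b < c ∨ c ≤ a) (V : ℝ) (hV : 0 ≤ V) :
    |(((tr c L b b : ℕ) : ℝ) - (tr c L b a : ℕ)) * V - ((b : ℝ) - a) * V| ≤ L * V := by
  have h : |(((tr c L b b : ℕ) : ℝ) - (tr c L b a : ℕ)) - ((b : ℝ) - a)| ≤ L := by
    unfold tr
    by_cases h : b < c
    · rw [if_pos h, if_pos h, sub_self, abs_zero]
      exact Nat.cast_nonneg L
    · have hca : c ≤ a := by omega
      rw [if_neg h, if_neg h]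
      have hab' : (a : ℝ) ≤ b := by exact_mod_cast hab
      have hca' : (c : ℝ) ≤ a := by exact_mod_cast hca
      have hL0 : (0 : ℝ) ≤ L := Nat.cast_nonneg L
      rcases le_total a (c + L) with h1 | h1
      · have h1' : (a : ℝ) ≤ c + L := by exact_mod_cast h1
        rw [max_eq_right h1]
        rcases le_total b (c + L) with h2 | h2
        · have h2' : (b : ℝ) ≤ c + L := by exact_mod_cast h2
          rw [max_eq_right h2, abs_le]
          constructor <;> linarith
        · have h2' : (c : ℝ) + L ≤ b := by exact_mod_cast h2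
          rw [max_eq_left h2, abs_le]
          push_cast
          constructor <;> linarith
      · have h2 : c + L ≤ b := h1.trans hab
        rw [max_eq_left h1, max_eq_left h2, sub_self, abs_zero]
        exact hL0
  rw [← sub_mul, abs_mul, abs_of_nonneg hV]
  exact mul_le_mul_of_nonneg_right h hV

/-- **The joint law around the elements.** -/
theorem palm (s : ℕ) (x0 ε : ℝ) (hx0 : 0 ≤ x0) (hε : 0 < ε) : ∃ δ ε' : ℝ, 0 < δ ∧ 0 < ε' ∧
    ∀ (g : ℕ → Prop) (Z Y : ℕ) (V : ℝ), 0 < V → V ≤ δ → JL (s + 1) g Z Y V (x0 + 8) ε' →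
    (Cc g Z (Z + Y) : ℝ) ≤ (1 + ε') * (Y * V) → (x0 + 8) / V ≤ ε' * (Y * V) →
    ∀ (c : ℕ) (a b : Fin s → ℕ), c * V ≤ x0 → (∀ i, a i ≤ b i) → (∀ i, b i * V ≤ x0) →
    (∀ i, b i < c ∨ c ≤ a i) → (∀ i j, i ≠ j → b i ≤ a j ∨ b j ≤ a i) → ∀ A : Fin s → Finset ℕ,
      |(Cc (fun m => g m ∧ Fw g c a b A m) Z (Z + Y) : ℝ) -
        Y * V * ∏ i, pois (((b i : ℝ) - a i) * V) (A i)| ≤ ε * (Y * V) := by
  obtain ⟨δ, hδ⟩ : ∃ δ : ℝ, δ = min 1 (ε / (8 * (3 * s + 2))) := ⟨_, rfl⟩
  have hs0 : (0 : ℝ) ≤ s := Nat.cast_nonneg s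
  have hδ0 : 0 < δ := by rw [hδ]; positivity
  have hδ1 : δ ≤ 1 := by rw [hδ]; exact min_le_left _ _
  have hδ2 : δ * (8 * (3 * s + 2)) ≤ ε := by
    have : δ ≤ ε / (8 * (3 * s + 2)) := by rw [hδ]; exact min_le_right _ _
    rwa [le_div_iff₀ (by positivity)] at this
  obtain ⟨ε', hε'⟩ : ∃ ε' : ℝ, ε' = min (ε / 12) (ε * δ / (8 * (2 * s + 1))) := ⟨_, rfl⟩
  have hε0 : 0 < ε' := by rw [hε']; positivity
  have hε1 : ε' ≤ ε / 12 := by rw [hε']; exact min_le_left _ _
  have hε2 : ε' * (8 * (2 * s + 1)) ≤ ε * δ := by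
    have : ε' ≤ ε * δ / (8 * (2 * s + 1)) := by rw [hε']; exact min_le_right _ _
    rwa [le_div_iff₀ (by positivity)] at this
  refine ⟨δ, ε', hδ0, hε0, ?_⟩
  intro g Z Y V hV hVδ hJ hcnt hbig c a b hcV hab hbV hc hdis A
  have hY0 : (0 : ℝ) ≤ Y := Nat.cast_nonneg Y
  obtain ⟨L, hLdef⟩ : ∃ L : ℕ, L = ⌈δ / V⌉₊ := ⟨_, rfl⟩
  obtain ⟨x, hx⟩ : ∃ x : ℝ, x = L * V := ⟨_, rfl⟩
  have hx1 : δ ≤ x := by
    have := Nat.le_ceil (δ / V)
    rw [← hLdef, div_le_iff₀ hV] at this
    rw [hx]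
    exact this
  have hx2 : x ≤ 2 * δ := by
    have := (Nat.ceil_lt_add_one (by positivity : 0 ≤ δ / V)).le
    rw [← hLdef] at this
    rw [hx]
    calc L * V ≤ (δ / V + 1) * V := mul_le_mul_of_nonneg_right this hV.le
      _ = δ + V := by field_simp
      _ ≤ 2 * δ := by linarith
  have hx0' : 0 < x := by linarith
  have hxle : x ≤ 2 := by linarith
  have hL0 : (0 : ℝ) ≤ L := Nat.cast_nonneg L
  have hLpos : (0 : ℝ) < L := by
    rcases hL0.lt_or_eq with h | h
    · exact h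
    · rw [← h, zero_mul] at hx
      linarith
  have hcL : ((c : ℝ) + L) * V ≤ x0 + 2 := by
    rw [add_mul, ← hx]
    linarith
  -- the trimmed windows
  have t1 : ∀ i, tr c L (b i) (a i) ≤ tr c L (b i) (b i) := fun i => tr_mono _ _ _ _ _ (hab i)
  have haV : ∀ i, (a i : ℝ) * V ≤ x0 := by
    intro i
    refine le_trans ?_ (hbV i)
    apply mul_le_mul_of_nonneg_right _ hV.le
    exact_mod_cast hab i
  have t2a : ∀ i, ((tr c L (b i) (a i) : ℕ) : ℝ) * V ≤ x0 + 2 := fun i =>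
    tr_V c L (b i) (a i) V x0 (haV i) hcL
  have t2 : ∀ i, ((tr c L (b i) (b i) : ℕ) : ℝ) * V ≤ x0 + 2 := fun i =>
    tr_V c L (b i) (b i) V x0 (hbV i) hcL
  have t3 : ∀ i, tr c L (b i) (b i) ≤ c ∨ c + L ≤ tr c L (b i) (a i) := fun i => tr_cell _ _ _ _
  have t4 : ∀ i j, i ≠ j → tr c L (b i) (b i) ≤ tr c L (b j) (a j) ∨
      tr c L (b j) (b j) ≤ tr c L (b i) (a i) := fun i j hij =>
    tr_dis c L _ _ _ _ (hab i) (hab j) (hdis i j hij) (hc i) (hc j)
  have hcL' : ((c + L : ℕ) : ℝ) * V ≤ x0 + 8 := by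
    push_cast
    linarith
  -- the joint laws
  have JG := JJ g Z Y V (x0 + 8) ε' hJ c L (fun i => tr c L (b i) (a i))
    (fun i => tr c L (b i) (b i)) t1 (fun i => by
      have := t2 i
      linarith) hcL' t3 t4 A
  have J1 : |∑ n ∈ Ioc Z (Z + Y), I1 g c L n - Y * (Real.exp (-x) * x)| ≤ ε' * Y := by
    have h1 := JJ g Z Y V (x0 + 8) ε' hJ c L (fun _ : Fin s => 0) (fun _ => 0) (fun _ => le_rfl)
      (fun _ => by
        rw [Nat.cast_zero, zero_mul]
        linarith) hcL' (fun _ => Or.inl (Nat.zero_le _)) (fun _ _ _ => Or.inl le_rfl) (fun _ => {0})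
    rw [← hx] at h1
    have e1 : ∏ _i : Fin s, pois ((((0 : ℕ) : ℝ) - ((0 : ℕ) : ℝ)) * V) {0} = 1 := by
      apply Finset.prod_eq_one
      intro i _
      rw [sub_self, zero_mul, pois_zero, neg_zero, Real.exp_zero]
    rw [e1, mul_one] at h1
    refine le_trans (le_of_eq ?_) h1
    congr 2
    apply Finset.sum_congr rfl
    intro n _
    unfold I1 IG
    have h0 : Cc g (n + 0) (n + 0) = 0 := by
      have := Cc_le g (n + 0) (n + 0)
      omega
    by_cases hh : Cc g (n + c) (n + c + L) = 1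
    · rw [if_pos hh, if_pos ⟨hh, fun i => by rw [h0]; exact mem_singleton_self 0⟩]
    · rw [if_neg hh, if_neg (fun h => hh h.1)]
  have Je : ∀ (i : Fin s) (e : ℕ), (e : ℝ) * V ≤ x0 + 2 → (ue c L e ≤ c ∨ c + L ≤ e) →
      |∑ n ∈ Ioc Z (Z + Y), Ie g c L e n -
        Y * (Real.exp (-x) * x * Real.exp (-(((ue c L e : ℝ) - e) * V)))| ≤ ε' * Y := by
    intro i e heV hecell
    have hue := ue_le c L e
    have hueV : ((ue c L e : ℕ) : ℝ) * V ≤ x0 + 8 := by
      have h1 : ((ue c L e : ℕ) : ℝ) ≤ e + L := by exact_mod_cast hue.2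
      calc ((ue c L e : ℕ) : ℝ) * V ≤ (e + L) * V := mul_le_mul_of_nonneg_right h1 hV.le
        _ = e * V + x := by rw [hx]; ring
        _ ≤ x0 + 8 := by linarith
    have h1 := JJ g Z Y V (x0 + 8) ε' hJ c L (fun k : Fin s => if k = i then e else 0)
      (fun k => if k = i then ue c L e else 0) (fun k => by
        split_ifs
        · exact hue.1
        · exact le_rfl)
      (fun k => by
        split_ifs
        · exact hueV
        · rw [Nat.cast_zero, zero_mul]
          linarith) hcL' (fun k => by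
        split_ifs
        · exact hecell
        · exact Or.inl (Nat.zero_le _)) (fun k l hkl => by
        by_cases hk : k = i
        · have hl : l ≠ i := fun h => hkl (by rw [hk, h])
          right
          rw [if_neg hl]
          exact Nat.zero_le _
        · left
          rw [if_neg hk]
          exact Nat.zero_le _) (fun _ => {0})
    rw [← hx] at h1
    have e1 : ∏ k : Fin s, pois ((((if k = i then ue c L e else 0 : ℕ) : ℝ) -
        ((if k = i then e else 0 : ℕ) : ℝ)) * V) {0} =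
        Real.exp (-(((ue c L e : ℝ) - e) * V)) := by
      rw [Finset.prod_eq_single i]
      · rw [if_pos rfl, if_pos rfl, pois_zero]
      · intro k _ hk
        rw [if_neg hk, if_neg hk, sub_self, zero_mul, pois_zero, neg_zero, Real.exp_zero]
      · intro h
        exact absurd (mem_univ i) h
    rw [e1] at h1
    refine le_trans (le_of_eq ?_) h1
    congr 2
    apply Finset.sum_congr rfl
    intro n _
    unfold Ie IG
    have h0 : Cc g (n + 0) (n + 0) = 0 := by
      have := Cc_le g (n + 0) (n + 0)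
      omega
    by_cases hh : Cc g (n + c) (n + c + L) = 1 ∧ Cc g (n + e) (n + ue c L e) = 0
    · rw [if_pos hh, if_pos]
      refine ⟨hh.1, fun k => ?_⟩
      beta_reduce
      by_cases hk : k = i
      · rw [if_pos hk, if_pos hk, hh.2]
        exact mem_singleton_self 0
      · rw [if_neg hk, if_neg hk, h0]
        exact mem_singleton_self 0
    · rw [if_neg hh, if_neg]
      rintro ⟨h2, h3⟩
      apply hh
      refine ⟨h2, ?_⟩
      have := h3 i
      beta_reduce at this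
      rw [if_pos rfl, if_pos rfl, mem_singleton] at this
      exact this
  -- the elementary inequalities
  obtain ⟨E, hE⟩ : ∃ E : ℝ, E = Real.exp (-x) := ⟨_, rfl⟩
  have hE1 : 1 - x ≤ E := by
    have := Real.add_one_le_exp (-x)
    rw [hE]
    linarith
  have hE2 : E ≤ 1 := by
    rw [hE]
    exact Real.exp_le_one_iff.2 (by linarith)
  have hE0 : 0 < E := by rw [hE]; exact Real.exp_pos _
  rw [← hE] at J1
  obtain ⟨SI, hSI⟩ : ∃ z : ℝ, z = ∑ n ∈ Ioc Z (Z + Y), I1 g c L n := ⟨_, rfl⟩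
  rw [← hSI] at J1
  have B3 : ∀ (i : Fin s) (e : ℕ), (e : ℝ) * V ≤ x0 + 2 → (ue c L e ≤ c ∨ c + L ≤ e) →
      SI - ∑ n ∈ Ioc Z (Z + Y), Ie g c L e n ≤ Y * x * x + 2 * (ε' * Y) := by
    intro i e h1 h2
    have h3 := (abs_le.1 (Je i e h1 h2)).1
    have h4 := (abs_le.1 J1).2
    rw [← hE] at h3
    have hue := ue_le c L e
    have h5 : 1 - x ≤ Real.exp (-(((ue c L e : ℝ) - e) * V)) := by
      have h6 : ((ue c L e : ℝ) - e) * V ≤ x := by
        rw [hx]
        apply mul_le_mul_of_nonneg_right _ hV.le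
        have : ((ue c L e : ℕ) : ℝ) ≤ e + L := by exact_mod_cast hue.2
        linarith
      have := Real.add_one_le_exp (-(((ue c L e : ℝ) - e) * V))
      linarith
    have h7 : Y * (E * x) * (1 - x) ≤ Y * (E * x) * Real.exp (-(((ue c L e : ℝ) - e) * V)) :=
      mul_le_mul_of_nonneg_left h5 (by positivity)
    have h8 : Y * (E * x) * x ≤ Y * x * x := by
      have : Y * (E * x) ≤ Y * (1 * x) := by gcongr
      have := mul_le_mul_of_nonneg_right this hx0'.le
      linarith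
    have e1 : Y * (E * x * Real.exp (-(((ue c L e : ℝ) - e) * V))) =
        Y * (E * x) * Real.exp (-(((ue c L e : ℝ) - e) * V)) := by ring
    rw [e1] at h3
    have e2 : Y * (E * x) * (1 - x) = Y * (E * x) - Y * (E * x) * x := by ring
    rw [e2] at h7
    linarith
  -- the sum over the cells
  have D1 := Cc_sum (fun m => g m ∧ Fw g c a b A m) Z Y c L
  have D2 := (abs_le.1 (Cc_sum g Z Y c L)).2
  obtain ⟨G, hG⟩ : ∃ z : ℝ, z = (Cc (fun m => g m ∧ Fw g c a b A m) Z (Z + Y) : ℝ) := ⟨_, rfl⟩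
  obtain ⟨SS, hSS⟩ : ∃ z : ℝ, z = ∑ n ∈ Ioc Z (Z + Y),
    (Cc (fun m => g m ∧ Fw g c a b A m) (n + c) (n + c + L) : ℝ) := ⟨_, rfl⟩
  obtain ⟨SW, hSW⟩ : ∃ z : ℝ, z = ∑ n ∈ Ioc Z (Z + Y), (Cc g (n + c) (n + c + L) : ℝ) := ⟨_, rfl⟩
  obtain ⟨SG, hSG⟩ : ∃ z : ℝ, z = ∑ n ∈ Ioc Z (Z + Y),
    IG g c L (fun i => tr c L (b i) (a i)) (fun i => tr c L (b i) (b i)) A n := ⟨_, rfl⟩
  rw [← hG, ← hSS] at D1
  rw [← hSW] at D2
  rw [← hG]
  rw [← hSG] at JG
  have D3 : |SS - SG| ≤ (SW - SI) + 2 * s * (Y * x * x + 2 * (ε' * Y)) := by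
    rw [hSS, hSG, ← Finset.sum_sub_distrib]
    refine (Finset.abs_sum_le_sum_abs _ _).trans ?_
    refine (Finset.sum_le_sum fun n _ => pern g c L n a b A hab hc).trans ?_
    rw [Finset.sum_add_distrib, Finset.sum_add_distrib, Finset.sum_sub_distrib, ← hSW, ← hSI,
      Finset.sum_comm, Finset.sum_comm (s := Ioc Z (Z + Y))]
    have q1 : ∑ i : Fin s, ∑ n ∈ Ioc Z (Z + Y), (I1 g c L n - Ie g c L (tr c L (b i) (a i)) n) ≤
        s * (Y * x * x + 2 * (ε' * Y)) := by
      calc ∑ i : Fin s, ∑ n ∈ Ioc Z (Z + Y), (I1 g c L n - Ie g c L (tr c L (b i) (a i)) n)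
          ≤ ∑ _i : Fin s, (Y * x * x + 2 * (ε' * Y)) := by
            apply Finset.sum_le_sum
            intro i _
            rw [Finset.sum_sub_distrib, ← hSI]
            exact B3 i _ (t2a i) (ue_cell c L (a i) (b i) (a i) (hab i) (hc i))
        _ = _ := by rw [Finset.sum_const, card_univ, Fintype.card_fin, nsmul_eq_mul]
    have q2 : ∑ i : Fin s, ∑ n ∈ Ioc Z (Z + Y), (I1 g c L n - Ie g c L (tr c L (b i) (b i)) n) ≤
        s * (Y * x * x + 2 * (ε' * Y)) := by
      calc ∑ i : Fin s, ∑ n ∈ Ioc Z (Z + Y), (I1 g c L n - Ie g c L (tr c L (b i) (b i)) n)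
          ≤ ∑ _i : Fin s, (Y * x * x + 2 * (ε' * Y)) := by
            apply Finset.sum_le_sum
            intro i _
            rw [Finset.sum_sub_distrib, ← hSI]
            exact B3 i _ (t2 i) (ue_cell c L (a i) (b i) (b i) le_rfl (hc i))
        _ = _ := by rw [Finset.sum_const, card_univ, Fintype.card_fin, nsmul_eq_mul]
    linarith
  -- the products
  obtain ⟨P', hP'⟩ : ∃ z : ℝ, z = ∏ i, pois ((((tr c L (b i) (b i) : ℕ) : ℝ) -
    (tr c L (b i) (a i) : ℕ)) * V) (A i) := ⟨_, rfl⟩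
  obtain ⟨P, hP⟩ : ∃ z : ℝ, z = ∏ i, pois (((b i : ℝ) - a i) * V) (A i) := ⟨_, rfl⟩
  rw [← hx, ← hE, ← hP'] at JG
  rw [← hP]
  have w1 : ∀ i, 0 ≤ (((tr c L (b i) (b i) : ℕ) : ℝ) - (tr c L (b i) (a i) : ℕ)) * V := by
    intro i
    have : ((tr c L (b i) (a i) : ℕ) : ℝ) ≤ (tr c L (b i) (b i) : ℕ) := by exact_mod_cast t1 i
    exact mul_nonneg (by linarith) hV.le
  have w2 : ∀ i, 0 ≤ ((b i : ℝ) - a i) * V := by
    intro i
    have : (a i : ℝ) ≤ b i := by exact_mod_cast hab i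
    exact mul_nonneg (by linarith) hV.le
  have hP0' : 0 ≤ P' := by
    rw [hP']
    exact Finset.prod_nonneg fun i _ => pois_nonneg _ (w1 i) _
  have hP1' : P' ≤ 1 := by
    rw [hP']
    exact Finset.prod_le_one (fun i _ => pois_nonneg _ (w1 i) _) (fun i _ => pois_le_one _ (w1 i) _)
  have hPP : |P' - P| ≤ s * x := by
    rw [hP', hP]
    have h1 := prod_diff (univ : Finset (Fin s))
      (fun i => pois ((((tr c L (b i) (b i) : ℕ) : ℝ) - (tr c L (b i) (a i) : ℕ)) * V) (A i))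
      (fun i => pois (((b i : ℝ) - a i) * V) (A i))
      (fun i => pois_nonneg _ (w1 i) _) (fun i => pois_le_one _ (w1 i) _)
      (fun i => pois_nonneg _ (w2 i) _) (fun i => pois_le_one _ (w2 i) _) x (by
        intro i
        refine (pois_lip _ _ _ (w1 i) (w2 i)).trans ?_
        rw [hx]
        exact tr_diff c L (a i) (b i) (hab i) (hc i) V hV.le)
    rw [card_univ, Fintype.card_fin] at h1
    exact h1
  have hEP : |E * P' - P| ≤ x + s * x := by
    have e1 : E * P' - P = (E - 1) * P' + (P' - P) := by ring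
    rw [e1]
    refine (abs_add_le _ _).trans ?_
    have h1 : |(E - 1) * P'| ≤ x := by
      rw [abs_mul, abs_of_nonneg hP0']
      have h2 : |E - 1| ≤ x := by
        rw [abs_le]
        constructor <;> linarith
      calc |E - 1| * P' ≤ x * 1 := mul_le_mul h2 hP1' hP0' hx0'.le
        _ = x := mul_one x
    linarith
  have D4 : |SG - Y * x * P| ≤ ε' * Y + Y * x * (x + s * x) := by
    refine (abs_sub_le _ (Y * (E * x * P')) _).trans ?_
    have e1 : Y * (E * x * P') - Y * x * P = Y * x * (E * P' - P) := by ring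
    rw [e1, abs_mul, abs_of_nonneg (by positivity : (0 : ℝ) ≤ Y * x)]
    have := mul_le_mul_of_nonneg_left hEP (by positivity : (0 : ℝ) ≤ Y * x)
    linarith
  -- assembling
  have D5 : SW - SI ≤ Y * x * ε' + Y * x * x + L * (c + L) + ε' * Y := by
    have h1 := (abs_le.1 J1).1
    have h2 : L * (Cc g Z (Z + Y) : ℝ) ≤ L * ((1 + ε') * (Y * V)) :=
      mul_le_mul_of_nonneg_left hcnt hL0
    have e1 : L * ((1 + ε') * (Y * V)) = Y * x + Y * x * ε' := by rw [hx]; ring
    rw [e1] at h2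
    have h3 : Y * x * (1 - x) ≤ Y * (E * x) := by
      calc Y * x * (1 - x) ≤ Y * x * E := mul_le_mul_of_nonneg_left hE1 (by positivity)
        _ = Y * (E * x) := by ring
    have e2 : Y * x * (1 - x) = Y * x - Y * x * x := by ring
    rw [e2] at h3
    linarith
  have hcLbig : (c : ℝ) + L ≤ ε' * (Y * V) := by
    refine le_trans ?_ hbig
    rw [le_div_iff₀ hV]
    linarith
  have hLcL : L * ((c : ℝ) + L) ≤ L * (ε' * (Y * V)) := mul_le_mul_of_nonneg_left hcLbig hL0
  have eYx : Y * x = L * (Y * V) := by rw [hx]; ring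
  have hYV0 : 0 ≤ L * (Y * V) := by positivity
  have hYx0 : 0 ≤ Y * x := by positivity
  -- ε' Y (2 + 4 s) ≤ (ε / 4) Y x
  have k1 : (2 + 4 * s) * (ε' * Y) ≤ ε / 4 * (Y * x) := by
    have h1 : ε' * (8 * (2 * s + 1)) * Y ≤ ε * δ * Y := mul_le_mul_of_nonneg_right hε2 hY0
    have h2 : ε * δ * Y ≤ ε * x * Y := by gcongr
    have e1 : (2 + 4 * s) * (ε' * Y) = ε' * (8 * (2 * s + 1)) * Y / 4 := by ring
    rw [e1]
    linarith
  -- Y x² (2 + 3 s) ≤ (ε / 4) Y x
  have k2 : Y * x * x * (2 + 3 * s) ≤ ε / 4 * (Y * x) := by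
    have h1 : x * (2 + 3 * s) ≤ ε / 4 := by
      have : x * (2 + 3 * s) ≤ 2 * δ * (2 + 3 * s) := mul_le_mul_of_nonneg_right hx2 (by positivity)
      linarith
    calc Y * x * x * (2 + 3 * s) = Y * x * (x * (2 + 3 * s)) := by ring
      _ ≤ Y * x * (ε / 4) := mul_le_mul_of_nonneg_left h1 hYx0
      _ = ε / 4 * (Y * x) := by ring
  have k3 : Y * x * ε' ≤ ε / 12 * (Y * x) := by
    have := mul_le_mul_of_nonneg_left hε1 hYx0
    linarith
  have k4 : L * (ε' * (Y * V)) ≤ ε / 12 * (Y * x) := by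
    have e1 : L * (ε' * (Y * V)) = Y * x * ε' := by rw [eYx]; ring
    rw [e1]
    exact k3
  have hfin : |L * G - Y * x * P| ≤ ε * (Y * x) := by
    have h1 : |L * G - SS| ≤ L * (c + L) := by rw [abs_sub_comm]; exact D1
    have h2 : |L * G - Y * x * P| ≤ |L * G - SS| + |SS - SG| + |SG - Y * x * P| := by
      refine (abs_sub_le _ SG _).trans ?_
      have := abs_sub_le (L * G) SS SG
      linarith
    have e1 : Y * x * (x + s * x) = Y * x * x * (1 + s) := by ring
    rw [e1] at D4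
    have e2 : 2 * s * (Y * x * x + 2 * (ε' * Y)) = Y * x * x * (2 * s) + 4 * s * (ε' * Y) := by ring
    rw [e2] at D3
    have h3 : 0 ≤ ε * (Y * x) := by positivity
    linarith
  have e3 : L * G - Y * x * P = L * (G - Y * V * P) := by rw [hx]; ring
  rw [e3, abs_mul, abs_of_nonneg hL0, eYx] at hfin
  have : L * |G - Y * V * P| ≤ L * (ε * (Y * V)) := by linarith
  exact le_of_mul_le_mul_left this hLpos

end Pool.Agent.TH464.PO
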