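import Pool.Agent.TH464.PO.GenSizes

set_option autoImplicit false

/-!
# Patterns with prescribed surroundings for systems of polynomials
-/

namespace Pool.Agent.TH464.PO

open Polynomial Finset Filter
open Pool.Agent.W123.RP Pool.Agent.H373R2.T7 Pool.Agent.W123.RU Pool.Agent.W123.RU.Poly
open Pool.Agent.TH464.PW

section
variable {ι : Type} [Fintype ι]

open Classical in
/-- Patterns with prescribed surroundings for systems of polynomials. -/
theorem poly_baseg [Nonempty ι] (f : ι → ℤ[X]) (hf : Sys f) (hT : NoTr f) (θ : ℝ) (hθ : 0 < θ)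
    (β s : ℕ) (x ε : ℝ) (hε : 0 < ε) :
    ∃ r0 : ℕ, ∀ r : ℕ, r0 ≤ r → ∀ᶠ X : ℕ in atTop, ∀ (g : ℕ → Prop) (V : ℝ) (VB : Finset ℕ → ℝ),
      (∀ m ≤ 3 * X, Sf (Q f) ⌊(X : ℝ) ^ (1 / (r : ℝ))⌋₊ m ↔ g m) →
      Vq (Q f) ⌊(X : ℝ) ^ (1 / (r : ℝ))⌋₊ = V →
      (∀ B, Vq (QH (Q f) B) ⌊(X : ℝ) ^ (1 / (r : ℝ))⌋₊ = VB B) →
      ∀ Z Y : ℕ, (X : ℝ) ^ θ ≤ Y → Z + Y ≤ 2 * X → ∀ B : Finset ℕ, B.card ≤ β →
      (∀ h ∈ B, h * V ≤ x) →
      ∀ a b : Fin s → ℕ, (∀ i, a i ≤ b i) → (∀ j, b j * V ≤ x) →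
      (∀ i j, i ≠ j → b i ≤ a j ∨ b j ≤ a i) → (∀ i, ∀ h ∈ B, h ≤ a i ∨ b i < h) →
      ∀ E : Fin s → Finset ℕ,
        |(((Ioc Z (Z + Y)).filter (fun n => (∀ h ∈ B, g (n + h)) ∧ ∀ j,
            ((Ioc (n + a j) (n + b j)).filter (fun m => g m)).card ∈ E j)).card : ℝ) -
          Y * VB B * ∏ j, ∑ l ∈ E j, Real.exp (-(((b j : ℝ) - a j) * V)) *
            (((b j : ℝ) - a j) * V) ^ l / l.factorial| ≤ ε * (Y * VB B) := by
  obtain ⟨c, hc, hQ⟩ := exists_c f hf
  obtain ⟨K0, y0, T0, R0, η', hη', hlaw⟩ := base_core s c hc β x ε hε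
  obtain ⟨r0, h0⟩ := poly_sizes f hf hT θ hθ K0 y0 T0 R0 η' 1 (|x| + 2) hη' one_pos
    (by positivity)
  refine ⟨max r0 2, ?_⟩
  intro r hr
  have hr2 : 2 ≤ r := (le_max_right _ _).trans hr
  filter_upwards [h0 r ((le_max_left _ _).trans hr), short_sys f hf x r hr2] with X hX hs
  intro g V VB hg hV hVB Z Y hXY hZY B hBβ hBx a b hab hb hdis hBd E
  obtain ⟨a1, a2, a3⟩ := hX Y hXY _ rfl
  have hBM : ∀ h ∈ B, Z + Y + h ≤ 3 * X := fun h hh => by
    have := hs h (by rw [hV]; exact hBx h hh)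
    omega
  have hbM : ∀ j, Z + Y + b j ≤ 3 * X := fun j => by
    have := hs (b j) (by rw [hV]; exact hb j)
    omega
  rw [← hV] at hBx hb ⊢
  rw [← hVB B]
  exact hlaw (Q f) Z Y _ hQ (fun p hp => Poly.adm f hf p hp) a1 a2 a3 g (3 * X) hg B hBβ hBx hBM
    a b hab hb hbM hdis hBd E

end

/-- `2 m + 1`, `2 m ^ 2 + 3 m - 1` -/
noncomputable def fT : Fin 2 → ℤ[X] := ![ln 2 1, quad 2 3 (-1)]

lemma fT_sys : Sys fT := by
  apply sys_two _ _ (ln_irr 2 1 (by norm_num) isCoprime_one_right)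
    (quad_irr 2 3 (-1) (by norm_num) (fun p hp h => not_dvd_one p hp (by simpa using h.2.2)) (by
      rintro ⟨x, hx⟩
      have h1 : x ≤ 5 := by nlinarith
      have h2 : -5 ≤ x := by nlinarith
      interval_cases x <;> omega))
  · rw [ln_deg 2 1 (by norm_num)]; norm_num
  · rw [quad_deg 2 3 (-1) (by norm_num)]; norm_num
  · rw [ln_lead 2 1 (by norm_num)]; norm_num
  · rw [quad_lead 2 3 (-1) (by norm_num)]; norm_num
  · intro h
    have := congrArg (Polynomial.eval 0) h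
    rw [ln_eval, quad_eval] at this
    norm_num at this
  · intro p hp
    refine ⟨0, ?_, ?_⟩
    · rw [ln_eval]
      simpa using not_dvd_one p hp
    · rw [quad_eval]
      simpa using not_dvd_one p hp

lemma fT_noTr : NoTr fT := by
  apply noTr_two
  · rw [ln_deg 2 1 (by norm_num)]; norm_num
  · rw [quad_deg 2 3 (-1) (by norm_num)]; norm_num
  · intro t ht
    apply ne_comp _ _ t 0
    rw [quad_eval, ln_eval]
    have : (1 : ℤ) ≤ t := by exact_mod_cast ht
    nlinarith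
  · intro t ht
    apply ne_comp _ _ t 0
    rw [quad_eval, ln_eval]
    have : (1 : ℤ) ≤ t := by exact_mod_cast ht
    intro h
    linarith

/-- `2 m + 1`, `2 m ^ 2 + 3 m + 2` -/
noncomputable def fU : Fin 2 → ℤ[X] := ![ln 2 1, quad 2 3 2]

lemma fU_sys : Sys fU := by
  apply sys_two _ _ (ln_irr 2 1 (by norm_num) isCoprime_one_right)
    (quad_irr 2 3 2 (by norm_num) (fun p hp h => not_dvd_one p hp (by
      have := dvd_sub h.2.1 h.1
      simpa using this)) (by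
      rintro ⟨x, hx⟩
      nlinarith))
  · rw [ln_deg 2 1 (by norm_num)]; norm_num
  · rw [quad_deg 2 3 2 (by norm_num)]; norm_num
  · rw [ln_lead 2 1 (by norm_num)]; norm_num
  · rw [quad_lead 2 3 2 (by norm_num)]; norm_num
  · intro h
    have := congrArg (Polynomial.eval 0) h
    rw [ln_eval, quad_eval] at this
    norm_num at this
  · intro p hp
    by_cases h2 : p = 2
    · refine ⟨1, ?_, ?_⟩
      · rw [ln_eval, h2]; norm_num
      · rw [quad_eval, h2]; norm_num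
    · refine ⟨0, ?_, ?_⟩
      · rw [ln_eval]
        simpa using not_dvd_one p hp
      · rw [quad_eval]
        intro h
        apply h2
        have h1 : (p : ℤ) ∣ ((2 : ℕ) : ℤ) := by
          have e : (2 : ℤ) * ((0 : ℕ) : ℤ) ^ 2 + 3 * ((0 : ℕ) : ℤ) + 2 = ((2 : ℕ) : ℤ) := by norm_num
          rw [e] at h
          exact h
        have h3 : p ∣ 2 := by exact_mod_cast h1
        exact (Nat.prime_dvd_prime_iff_eq hp (by norm_num)).1 h3

lemma fU_noTr : NoTr fU := by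
  apply noTr_two
  · rw [ln_deg 2 1 (by norm_num)]; norm_num
  · rw [quad_deg 2 3 2 (by norm_num)]; norm_num
  · intro t ht
    apply ne_comp _ _ t 0
    rw [quad_eval, ln_eval]
    have : (1 : ℤ) ≤ t := by exact_mod_cast ht
    nlinarith
  · intro t ht
    apply ne_comp _ _ t 0
    rw [quad_eval, ln_eval]
    intro h
    omega

end Pool.Agent.TH464.PO
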