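import Pool.Agent.TH464.PO.GenSizes

set_option autoImplicit false

/-!
# The family `k`, `n - (k ^ 2 + b k + c)`, uniformly in `n`
-/

namespace Pool.Agent.TH464.PO

open Finset Filter
open Pool.Agent.W123.RP Pool.Agent.H373R2.T7 Pool.Agent.W123.RU
open Pool.Agent.TH464.PW

/-- the local condition -/
def QN (b c : ℤ) (n p k : ℕ) : Prop := p ∣ k ∨ (p : ℤ) ∣ n - ((k : ℤ) ^ 2 + b * k + c)

lemma not_dvd_diff (p x y : ℕ) (hx : x < p) (hy : y < p) (hxy : x ≠ y) : ¬ (p : ℤ) ∣ (x : ℤ) - y := by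
  intro h
  have h1 : (y : ℤ) ≡ x [ZMOD p] := (Int.modEq_iff_dvd).2 h
  have h2 : y ≡ x [MOD p] := (Int.natCast_modEq_iff).1 h1
  have h3 : y % p = x % p := h2
  rw [Nat.mod_eq_of_lt hx, Nat.mod_eq_of_lt hy] at h3
  exact hxy h3.symm

lemma quad_roots (p : ℕ) (hp : p.Prime) (e b : ℤ) (R : ℕ → Prop) {inst : DecidablePred R}
    (hR : ∀ k : ℕ, R k ↔ (p : ℤ) ∣ e - ((k : ℤ) ^ 2 + b * k)) :
    ((range p).filter R).card ≤ 2 := by
  by_contra hcon
  rw [not_le, Finset.two_lt_card] at hcon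
  obtain ⟨x, hx, y, hy, z, hz, hxy, hxz, hyz⟩ := hcon
  rw [mem_filter, mem_range, hR] at hx hy hz
  have hpi : Prime (p : ℤ) := Nat.prime_iff_prime_int.1 hp
  have h1 : ∀ u v : ℕ, u < p → v < p → u ≠ v → (p : ℤ) ∣ e - ((u : ℤ) ^ 2 + b * u) →
      (p : ℤ) ∣ e - ((v : ℤ) ^ 2 + b * v) → (p : ℤ) ∣ (u : ℤ) + v + b := by
    intro u v hu hv huv h1 h2
    have h3 : (p : ℤ) ∣ ((u : ℤ) - v) * (u + v + b) := by
      have := dvd_sub h2 h1
      have e1 : e - ((v : ℤ) ^ 2 + b * v) - (e - ((u : ℤ) ^ 2 + b * u)) =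
          ((u : ℤ) - v) * (u + v + b) := by ring
      rwa [e1] at this
    exact (hpi.dvd_or_dvd h3).resolve_left (not_dvd_diff p u v hu hv huv)
  have h2 := h1 x y hx.1 hy.1 hxy hx.2 hy.2
  have h3 := h1 x z hx.1 hz.1 hxz hx.2 hz.2
  have h4 := dvd_sub h2 h3
  have e1 : (x : ℤ) + y + b - (x + z + b) = (y : ℤ) - z := by ring
  rw [e1] at h4
  exact not_dvd_diff p y z hy.1 hz.1 hyz h4

lemma quad_per (p k : ℕ) (e b : ℤ) : (p : ℤ) ∣ e - ((k : ℤ) ^ 2 + b * k) ↔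
    (p : ℤ) ∣ e - (((k % p : ℕ) : ℤ) ^ 2 + b * ((k % p : ℕ) : ℤ)) := by
  have hk : (k : ℤ) = ((k % p : ℕ) : ℤ) + p * ((k / p : ℕ) : ℤ) := by
    exact_mod_cast (Nat.mod_add_div k p).symm
  have e1 : e - (((k % p : ℕ) : ℤ) ^ 2 + b * ((k % p : ℕ) : ℤ)) = (e - ((k : ℤ) ^ 2 + b * k)) +
      p * (((k / p : ℕ) : ℤ) * (k + ((k % p : ℕ) : ℤ) + b)) := by
    rw [hk]
    push_cast
    ring
  rw [e1]
  constructor
  · intro h
    exact dvd_add h (dvd_mul_right _ _)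
  · intro h
    exact (dvd_add_left (dvd_mul_right _ _)).1 h

lemma adm_of (Q : ℕ → ℕ → Prop) (p k : ℕ) (hk : k < p) (h : ¬ Q p k) : nuB Q p < p := by
  classical
  unfold nuB
  calc ((range p).filter (fun m => Q p m)).card < (range p).card := by
        apply card_lt_card
        rw [Finset.filter_ssubset]
        exact ⟨k, mem_range.2 hk, h⟩
    _ = p := card_range p

lemma card_zero_root (p : ℕ) (R : ℕ → Prop) {inst : DecidablePred R} (hR : ∀ k : ℕ, R k ↔ p ∣ k) :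
    ((range p).filter R).card ≤ 1 := by
  apply Finset.card_le_one.2
  intro x hx y hy
  rw [mem_filter, mem_range, hR] at hx hy
  rw [Nat.eq_zero_of_dvd_of_lt hx.2 hx.1, Nat.eq_zero_of_dvd_of_lt hy.2 hy.1]

lemma qn_eq (b c : ℤ) (n k : ℕ) :
    (n : ℤ) - ((k : ℤ) ^ 2 + b * k + c) = (n : ℤ) - c - ((k : ℤ) ^ 2 + b * k) := by ring

lemma qn_per (b c : ℤ) (n : ℕ) : PerB (QN b c n) 3 := by
  classical
  constructor
  · intro p k
    unfold QN
    rw [Nat.dvd_mod_iff (dvd_refl p), qn_eq, qn_eq, quad_per p k]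
  · intro p hp
    unfold nuB
    have h1 : (range p).filter (fun m => QN b c n p m) =
        (range p).filter (fun m => p ∣ m) ∪
          (range p).filter (fun m : ℕ => (p : ℤ) ∣ n - ((m : ℤ) ^ 2 + b * m + c)) := by
      ext m
      rw [mem_union, mem_filter, mem_filter, mem_filter]
      unfold QN
      tauto
    have h2 := card_zero_root p (fun m => p ∣ m) (inst := fun m => Classical.propDecidable _)
      (fun _ => Iff.rfl)
    have h3 := quad_roots p hp ((n : ℤ) - c) b (fun m : ℕ => (p : ℤ) ∣ n - ((m : ℤ) ^ 2 + b * m + c))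
      (inst := fun m => Classical.propDecidable _) (fun k => by rw [qn_eq])
    have h4 := card_union_le ((range p).filter (fun m => p ∣ m))
      ((range p).filter (fun m : ℕ => (p : ℤ) ∣ n - ((m : ℤ) ^ 2 + b * m + c)))
    have e : ((range p).filter (fun m => QN b c n p m)).card ≤ 3 := by
      rw [h1]
      refine h4.trans ?_
      have h2' : ((range p).filter (fun m => p ∣ m)).card ≤ 1 := by convert h2
      have h3' : ((range p).filter
        (fun m : ℕ => (p : ℤ) ∣ n - ((m : ℤ) ^ 2 + b * m + c))).card ≤ 2 := by convert h3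
      omega
    convert e

lemma qn_one (b c : ℤ) (n p : ℕ) (hp : p.Prime) : 1 ≤ nuB (QN b c n) p := by
  classical
  unfold nuB
  rw [Nat.succ_le_iff, card_pos]
  exact ⟨0, mem_filter.2 ⟨mem_range.2 hp.pos, Or.inl (dvd_zero p)⟩⟩

lemma qn_adm (b c : ℤ) (n : ℕ) (hn : Odd n) (hbc : Odd (b + c)) (hb : ¬ (3 : ℤ) ∣ b) (p : ℕ)
    (hp : p.Prime) : nuB (QN b c n) p < p := by
  rcases Nat.lt_or_ge p 4 with h4 | h4
  · have hp2 := hp.two_le
    have hp23 : p = 2 ∨ p = 3 := by omega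
    rcases hp23 with rfl | rfl
    · apply adm_of _ 2 1 (by norm_num)
      unfold QN
      rw [not_or]
      refine ⟨by norm_num, ?_⟩
      obtain ⟨u, hu⟩ := hn
      obtain ⟨v, hv⟩ := hbc
      intro h
      obtain ⟨w, hw⟩ := h
      push_cast at hw
      rw [hu] at hw
      push_cast at hw
      omega
    · by_cases h1 : QN b c n 3 1
      · apply adm_of _ 3 2 (by norm_num)
        unfold QN at h1 ⊢
        rw [not_or]
        refine ⟨by norm_num, ?_⟩
        rcases h1 with h1 | h1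
        · norm_num at h1
        · intro h2
          apply hb
          obtain ⟨u, hu⟩ := h1
          obtain ⟨v, hv⟩ := h2
          push_cast at hu hv
          refine ⟨u - v - 1, ?_⟩
          linarith
      · exact adm_of _ 3 1 (by norm_num) h1
  · have := (qn_per b c n).few p hp
    omega

/-- the resultant -/
def Rn (b c : ℤ) (n t : ℕ) : ℤ :=
  (n - ((t : ℤ) ^ 2 + b * t + c)) * (n - ((t : ℤ) ^ 2 - b * t + c)) * (b ^ 2 + 4 * n - 4 * c - (t : ℤ) ^ 2)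

lemma rn_ne (b c : ℤ) (n t : ℕ) (h : ∀ m : ℤ, (n : ℤ) ≠ m ^ 2 + b * m + c) : Rn b c n t ≠ 0 := by
  unfold Rn
  apply mul_ne_zero (mul_ne_zero _ _)
  · intro h0
    rcases Int.even_or_odd ((t : ℤ) - b) with ⟨m, hm⟩ | ⟨m, hm⟩
    · have hb : b = t - (m + m) := by linarith
      apply h m
      have : 4 * (n : ℤ) = 4 * (m ^ 2 + b * m + c) := by
        have e1 : (t : ℤ) = b + 2 * m := by linarith
        rw [e1] at h0
        linarith [h0]
      linarith
    · have e1 : (t : ℤ) = b + 2 * m + 1 := by linarith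
      rw [e1] at h0
      have h1 : 4 * ((n : ℤ) - c - m ^ 2 - b * m - m) = 2 * b + 1 := by
        linarith [h0]
      omega
  · intro h0
    exact h t (by linarith)
  · intro h0
    exact h (-t) (by linarith)

lemma rn_dvd (b c : ℤ) (n t T p : ℕ) (hp : p.Prime) (ht : 1 ≤ t) (htT : t ≤ T) (hTp : T < p)
    (h : CoG (QN b c n) p t) : (p : ℤ) ∣ Rn b c n t := by
  have hpi : Prime (p : ℤ) := Nat.prime_iff_prime_int.1 hp
  have hpt : ¬ (p : ℤ) ∣ (t : ℤ) := by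
    rw [Int.natCast_dvd_natCast]
    intro hd
    have := Nat.le_of_dvd ht hd
    omega
  obtain ⟨k, h1, h2⟩ := h
  unfold Rn
  rcases h1 with h1 | h1 <;> rcases h2 with h2 | h2
  · exfalso
    have h3 : p ∣ t := (Nat.dvd_add_right h1).1 h2
    exact hpt (by exact_mod_cast h3)
  · have hk : (p : ℤ) ∣ (k : ℤ) := by exact_mod_cast h1
    apply Dvd.dvd.mul_right
    apply Dvd.dvd.mul_right
    have e : (n : ℤ) - ((t : ℤ) ^ 2 + b * t + c) =
        (n - (((k + t : ℕ) : ℤ) ^ 2 + b * ((k + t : ℕ) : ℤ) + c)) + k * (k + 2 * t + b) := by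
      push_cast
      ring
    rw [e]
    exact dvd_add h2 (hk.mul_right _)
  · have hk : (p : ℤ) ∣ (k : ℤ) + t := by exact_mod_cast h2
    apply Dvd.dvd.mul_right
    apply Dvd.dvd.mul_left
    have e : (n : ℤ) - ((t : ℤ) ^ 2 - b * t + c) =
        (n - ((k : ℤ) ^ 2 + b * k + c)) + (k + t) * (k - t + b) := by ring
    rw [e]
    exact dvd_add h1 (hk.mul_right _)
  · apply Dvd.dvd.mul_left
    have h3 : (p : ℤ) ∣ (t : ℤ) * (2 * k + t + b) := by
      have := dvd_sub h1 h2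
      have e : (n : ℤ) - ((k : ℤ) ^ 2 + b * k + c) -
          (n - (((k + t : ℕ) : ℤ) ^ 2 + b * ((k + t : ℕ) : ℤ) + c)) = (t : ℤ) * (2 * k + t + b) := by
        push_cast
        ring
      rwa [e] at this
    have h4 := (hpi.dvd_or_dvd h3).resolve_left hpt
    have e : b ^ 2 + 4 * (n : ℤ) - 4 * c - (t : ℤ) ^ 2 =
        4 * (n - ((k : ℤ) ^ 2 + b * k + c)) + (2 * k + t + b) * (2 * k + b - t) := by ring
    rw [e]
    exact dvd_add (h1.mul_left _) (h4.mul_right _)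

lemma rn_le (b c : ℤ) (n t : ℕ) (hb : |b| ≤ n) (hc : |c| ≤ n) (ht : t ≤ n) (hn : 1000 ≤ n) :
    (Rn b c n t).natAbs ≤ n ^ 7 := by
  have hn1 : (1000 : ℤ) ≤ n := by exact_mod_cast hn
  have ht0 : (0 : ℤ) ≤ t := by positivity
  have ht1 : (t : ℤ) ≤ n := by exact_mod_cast ht
  have hN : (0 : ℤ) ≤ n := by linarith
  have hb' := abs_le.1 hb
  have hc' := abs_le.1 hc
  have hbt : |b * t| ≤ (n : ℤ) * n := by
    rw [abs_mul]
    apply mul_le_mul hb (by rw [abs_of_nonneg ht0]; exact ht1) (abs_nonneg _) hN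
  have hbt' := abs_le.1 hbt
  have htt : (t : ℤ) ^ 2 ≤ (n : ℤ) * n := by nlinarith
  have htt0 : (0 : ℤ) ≤ (t : ℤ) ^ 2 := by positivity
  have hbb : b ^ 2 ≤ (n : ℤ) * n := by nlinarith [abs_nonneg b, sq_abs b]
  have hbb0 : (0 : ℤ) ≤ b ^ 2 := by positivity
  have hnn : 1000 * (n : ℤ) ≤ n * n := by nlinarith
  have a1 : |(n : ℤ) - ((t : ℤ) ^ 2 + b * t + c)| ≤ 3 * ((n : ℤ) * n) := by
    rw [abs_le]
    constructor <;> linarith
  have a2 : |(n : ℤ) - ((t : ℤ) ^ 2 - b * t + c)| ≤ 3 * ((n : ℤ) * n) := by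
    rw [abs_le]
    constructor <;> linarith
  have a3 : |b ^ 2 + 4 * (n : ℤ) - 4 * c - (t : ℤ) ^ 2| ≤ 3 * ((n : ℤ) * n) := by
    rw [abs_le]
    constructor <;> linarith
  have a4 : |Rn b c n t| ≤ (3 * ((n : ℤ) * n)) * (3 * ((n : ℤ) * n)) * (3 * ((n : ℤ) * n)) := by
    unfold Rn
    rw [abs_mul, abs_mul]
    gcongr
  have a5 : (3 * ((n : ℤ) * n)) * (3 * ((n : ℤ) * n)) * (3 * ((n : ℤ) * n)) ≤ (n : ℤ) ^ 7 := by
    have e : (3 * ((n : ℤ) * n)) * (3 * ((n : ℤ) * n)) * (3 * ((n : ℤ) * n)) = 27 * (n : ℤ) ^ 6 := by ring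
    rw [e]
    have : (27 : ℤ) * (n : ℤ) ^ 6 ≤ n * (n : ℤ) ^ 6 := by
      apply mul_le_mul_of_nonneg_right _ (by positivity)
      linarith
    calc (27 : ℤ) * (n : ℤ) ^ 6 ≤ n * (n : ℤ) ^ 6 := this
      _ = (n : ℤ) ^ 7 := by ring
  have a6 : ((Rn b c n t).natAbs : ℤ) ≤ ((n ^ 7 : ℕ) : ℤ) := by
    rw [Int.natCast_natAbs]
    push_cast
    exact a4.trans a5
  exact_mod_cast a6

/-- the family -/
lemma qn_GQ (b c : ℤ) (hbc : Odd (b + c)) (hb : ¬ (3 : ℤ) ∣ b) : ∀ᶠ n : ℕ in atTop, Odd n →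
    (∀ m : ℤ, (n : ℤ) ≠ m ^ 2 + b * m + c) → GQ 3 7 n (QN b c n) := by
  filter_upwards [logpow_rpow 4 1 1 one_pos one_pos, eventually_ge_atTop 1000,
    eventually_ge_atTop b.natAbs, eventually_ge_atTop c.natAbs] with n hlog hn1 hnb hnc
  intro hn hno
  have hb' : |b| ≤ (n : ℤ) := by
    rw [Int.abs_eq_natAbs]
    exact_mod_cast hnb
  have hc' : |c| ≤ (n : ℤ) := by
    rw [Int.abs_eq_natAbs]
    exact_mod_cast hnc
  refine ⟨qn_per b c n, fun p hp => qn_adm b c n hn hbc hb p hp, fun p hp => qn_one b c n p hp, ?_⟩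
  intro T t ht htT hT
  have htn : t ≤ n := by
    have h1 : (t : ℝ) ≤ T := by exact_mod_cast htT
    rw [one_mul, Real.rpow_one] at hlog
    have h2 : (t : ℝ) ≤ n := h1.trans (hT.trans hlog)
    exact_mod_cast h2
  refine ⟨(Rn b c n t).natAbs, Int.natAbs_ne_zero.2 (rn_ne b c n t hno),
    rn_le b c n t hb' hc' htn hn1, ?_⟩
  intro p hp hTp hco
  have := rn_dvd b c n t T p hp ht htT hTp hco
  rwa [← Int.natCast_dvd] 

end Pool.Agent.TH464.PO
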