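import Pool.Agent.TH464.PO.PolyBase
import Pool.Agent.TH464.PO.QuadN

set_option autoImplicit false

/-!
# The pair `d m + x`, `a d m ^ 2 + (2 a x + b) m + y`, where `a x ^ 2 + b x + c = d y`
-/

namespace Pool.Agent.TH464.PO

open Polynomial Finset Filter
open Pool.Agent.W123.RP Pool.Agent.H373R2.T7 Pool.Agent.W123.RU Pool.Agent.W123.RU.Poly
open Pool.Agent.TH464.PW

/-- `d m + x`, `a d m ^ 2 + (2 a x + b) m + y` -/
noncomputable def fP (a b d x y : ℤ) : Fin 2 → ℤ[X] := ![ln d x, quad (a * d) (2 * a * x + b) y]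

lemma fP_ad (p : ℕ) (hp5 : 5 ≤ p) (hp : p.Prime) (D x A B C : ℤ) (hD : ¬ (p : ℤ) ∣ D)
    (hA : ¬ (p : ℤ) ∣ A) : ∃ m : ℕ, ¬ (p : ℤ) ∣ D * m + x ∧ ¬ (p : ℤ) ∣ A * (m : ℤ) ^ 2 + B * m + C := by
  classical
  by_contra hcon
  push Not at hcon
  have hpi : Prime (p : ℤ) := Nat.prime_iff_prime_int.1 hp
  have h1 : ((range p).filter (fun m : ℕ => (p : ℤ) ∣ D * m + x)).card ≤ 1 := by
    apply Finset.card_le_one.2
    intro u hu v hv
    rw [mem_filter, mem_range] at hu hv
    by_contra huv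
    have h3 := dvd_sub hu.2 hv.2
    have e : D * (u : ℤ) + x - (D * v + x) = D * (u - v) := by ring
    rw [e] at h3
    rcases hpi.dvd_or_dvd h3 with h4 | h4
    · exact hD h4
    · exact not_dvd_diff p u v hu.1 hv.1 huv h4
  have h2 : ((range p).filter (fun m : ℕ => (p : ℤ) ∣ A * (m : ℤ) ^ 2 + B * m + C)).card ≤ 2 := by
    by_contra hcon2
    rw [not_le, Finset.two_lt_card] at hcon2
    obtain ⟨u, hu, v, hv, w, hw, huv, huw, hvw⟩ := hcon2
    rw [mem_filter, mem_range] at hu hv hw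
    have h5 : ∀ s t : ℕ, s < p → t < p → s ≠ t → (p : ℤ) ∣ A * (s : ℤ) ^ 2 + B * s + C →
        (p : ℤ) ∣ A * (t : ℤ) ^ 2 + B * t + C → (p : ℤ) ∣ A * ((s : ℤ) + t) + B := by
      intro s t hs ht hst g1 g2
      have g3 := dvd_sub g1 g2
      have e1 : A * (s : ℤ) ^ 2 + B * s + C - (A * (t : ℤ) ^ 2 + B * t + C) =
          ((s : ℤ) - t) * (A * ((s : ℤ) + t) + B) := by ring
      rw [e1] at g3
      exact (hpi.dvd_or_dvd g3).resolve_left (not_dvd_diff p s t hs ht hst)
    have g1 := h5 u v hu.1 hv.1 huv hu.2 hv.2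
    have g2 := h5 u w hu.1 hw.1 huw hu.2 hw.2
    have g3 := dvd_sub g1 g2
    have e1 : A * ((u : ℤ) + v) + B - (A * ((u : ℤ) + w) + B) = A * ((v : ℤ) - w) := by ring
    rw [e1] at g3
    rcases hpi.dvd_or_dvd g3 with h4 | h4
    · exact hA h4
    · exact not_dvd_diff p v w hv.1 hw.1 hvw h4
  have h3 : range p ⊆ (range p).filter (fun m : ℕ => (p : ℤ) ∣ D * m + x) ∪
      (range p).filter (fun m : ℕ => (p : ℤ) ∣ A * (m : ℤ) ^ 2 + B * m + C) := by
    intro m hm
    rw [mem_union, mem_filter, mem_filter]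
    by_cases h4 : (p : ℤ) ∣ D * m + x
    · exact Or.inl ⟨hm, h4⟩
    · exact Or.inr ⟨hm, hcon m h4⟩
  have h4 := (card_le_card h3).trans (card_union_le _ _)
  rw [card_range] at h4
  omega

lemma fP_sys (a b c d x y : ℤ) (ha : 0 < a) (hd : 0 < d) (hD : ¬ IsSquare (b ^ 2 - 4 * a * c))
    (hco : IsCoprime (x * y) (6 * a * d)) (hxy : a * x ^ 2 + b * x + c = d * y) :
    Sys (fP a b d x y) := by
  have hxd : IsCoprime x d := (hco.of_mul_left_left).of_mul_right_right
  have hp0 : ∀ p : ℕ, p.Prime → (p : ℤ) ∣ 6 * a * d → ¬ (p : ℤ) ∣ x * y := by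
    intro p hp h1 h2
    have h3 := hco.isUnit_of_dvd' h2 h1
    exact (Nat.prime_iff_prime_int.1 hp).not_isUnit h3
  have hne : a * d ≠ 0 := (mul_pos ha hd).ne'
  apply sys_two _ _ (ln_irr d x hd.ne' hxd.symm)
    (quad_irr (a * d) (2 * a * x + b) y hne (fun p hp h => hp0 p hp (by
      rw [mul_assoc]
      exact h.1.mul_left 6) (h.2.2.mul_left x)) (by
      have e : (2 * a * x + b) ^ 2 - 4 * (a * d) * y = b ^ 2 - 4 * a * c := by
        linear_combination (4 * a) * hxy
      rwa [e]))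
  · rw [ln_deg d x hd.ne']; norm_num
  · rw [quad_deg (a * d) _ y hne]; norm_num
  · rw [ln_lead d x hd.ne']; exact hd
  · rw [quad_lead (a * d) _ y hne]; exact mul_pos ha hd
  · intro h
    have := congrArg natDegree h
    rw [ln_deg d x hd.ne', quad_deg (a * d) _ y hne] at this
    norm_num at this
  · intro p hp
    by_cases h6 : (p : ℤ) ∣ 6 * a * d
    · have h7 := hp0 p hp h6
      refine ⟨0, ?_, ?_⟩
      · rw [ln_eval]
        intro h
        apply h7
        have e : d * ((0 : ℕ) : ℤ) + x = x := by push_cast; ring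
        rw [e] at h
        exact h.mul_right y
      · rw [quad_eval]
        intro h
        apply h7
        have e : a * d * ((0 : ℕ) : ℤ) ^ 2 + (2 * a * x + b) * ((0 : ℕ) : ℤ) + y = y := by
          push_cast; ring
        rw [e] at h
        exact h.mul_left x
    · have hp5 : 5 ≤ p := by
        have hp2 := hp.two_le
        by_contra hlt
        have h23 : p = 2 ∨ p = 3 ∨ p = 4 := by omega
        rcases h23 with rfl | rfl | rfl
        · exact h6 ⟨3 * a * d, by push_cast; ring⟩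
        · exact h6 ⟨2 * a * d, by push_cast; ring⟩
        · norm_num at hp
      obtain ⟨m, h1, h2⟩ := fP_ad p hp5 hp d x (a * d) (2 * a * x + b) y
        (fun h => h6 (h.mul_left _)) (fun h => h6 (by rw [mul_assoc]; exact h.mul_left _))
      exact ⟨m, by rwa [ln_eval], by rwa [quad_eval]⟩

lemma fP_noTr (a b d x y : ℤ) (ha : 0 < a) (hd : 0 < d) : NoTr (fP a b d x y) := by
  have hne : a * d ≠ 0 := (mul_pos ha hd).ne'
  apply noTr_two
  · rw [ln_deg d x hd.ne']; norm_num
  · rw [quad_deg (a * d) _ y hne]; norm_num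
  · intro t _ h
    have := congrArg natDegree h
    rw [natDegree_comp, ln_deg d x hd.ne', quad_deg (a * d) _ y hne, natDegree_X_add_C] at this
    norm_num at this
  · intro t _ h
    have := congrArg natDegree h
    rw [natDegree_comp, ln_deg d x hd.ne', quad_deg (a * d) _ y hne, natDegree_X_add_C] at this
    norm_num at this

end Pool.Agent.TH464.PO
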