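import Pool.Agent.TH464.PO.PolyPair

set_option autoImplicit false

/-!
# The pair `k`, `(A k) ^ 2 + c`, where `c = 1` and `A` is even or `c = 4` and `A` is odd
-/

namespace Pool.Agent.TH464.PO

open Polynomial Finset Filter
open Pool.Agent.W123.RP Pool.Agent.H373R2.T7 Pool.Agent.W123.RU Pool.Agent.W123.RU.Poly
open Pool.Agent.TH464.PW

/-- `k`, `(A k) ^ 2 + c` -/
noncomputable def fA (A c : ℕ) : Fin 2 → ℤ[X] := ![ln 1 0, quad ((A : ℤ) ^ 2) 0 c]

lemma fA_sys (A c : ℕ) (hA : 1 ≤ A) (hc : (Even A ∧ c = 1) ∨ (Odd A ∧ c = 4)) :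
    Sys (fA A c) := by
  have hA0 : (0 : ℤ) < (A : ℤ) ^ 2 := by positivity
  have hc0 : (0 : ℤ) < c := by
    rcases hc with ⟨_, rfl⟩ | ⟨_, rfl⟩ <;> norm_num
  have hpAc : ∀ p : ℕ, p.Prime → p ∣ A → ¬ (p : ℤ) ∣ c := by
    intro p hp h1 h2
    have h3 : p ∣ c := by exact_mod_cast h2
    rcases hc with ⟨_, rfl⟩ | ⟨ho, rfl⟩
    · exact hp.one_lt.ne' (Nat.dvd_one.1 h3)
    · have h4 : p ∣ 2 ^ 2 := h3
      have h5 : p ∣ 2 := hp.dvd_of_dvd_pow h4
      have h6 : p = 2 := (Nat.prime_dvd_prime_iff_eq hp Nat.prime_two).1 h5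
      rw [h6] at h1
      exact (Nat.not_even_iff_odd.2 ho) (even_iff_two_dvd.2 h1)
  apply sys_two _ _ (ln_irr 1 0 one_ne_zero isCoprime_one_left)
    (quad_irr ((A : ℤ) ^ 2) 0 c hA0.ne' (fun p hp h => hpAc p hp (by
      have h1 : (p : ℤ) ∣ (A : ℤ) := (Nat.prime_iff_prime_int.1 hp).dvd_of_dvd_pow h.1
      exact_mod_cast h1) h.2.2) (by
      rintro ⟨x, hx⟩
      have h1 : 0 < (A : ℤ) ^ 2 * c := mul_pos hA0 hc0
      nlinarith [mul_self_nonneg x]))
  · rw [ln_deg 1 0 one_ne_zero]; norm_num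
  · rw [quad_deg _ 0 _ hA0.ne']; norm_num
  · rw [ln_lead 1 0 one_ne_zero]; norm_num
  · rw [quad_lead _ 0 _ hA0.ne']; exact hA0
  · intro h
    have := congrArg natDegree h
    rw [ln_deg 1 0 one_ne_zero, quad_deg _ 0 _ hA0.ne'] at this
    norm_num at this
  · intro p hp
    have hpi : Prime (p : ℤ) := Nat.prime_iff_prime_int.1 hp
    by_cases hpA : p ∣ A
    · refine ⟨1, ?_, ?_⟩
      · rw [ln_eval]
        simpa using not_dvd_one p hp
      · rw [quad_eval]
        intro h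
        apply hpAc p hp hpA
        have h1 : (p : ℤ) ∣ (A : ℤ) := by exact_mod_cast hpA
        have h2 : (p : ℤ) ∣ (A : ℤ) ^ 2 * ((1 : ℕ) : ℤ) ^ 2 + 0 * ((1 : ℕ) : ℤ) :=
          dvd_add ((dvd_pow h1 two_ne_zero).mul_right _) (by rw [zero_mul]; exact dvd_zero _)
        exact (dvd_add_right h2).1 h
    · by_cases hp5 : 5 ≤ p
      · obtain ⟨m, h1, h2⟩ := fP_ad p hp5 hp 1 0 ((A : ℤ) ^ 2) 0 c (not_dvd_one p hp) (by
          intro h
          apply hpA
          have h1 : (p : ℤ) ∣ (A : ℤ) := hpi.dvd_of_dvd_pow h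
          exact_mod_cast h1)
        exact ⟨m, by rwa [ln_eval], by rwa [quad_eval]⟩
      · have hp2 := hp.two_le
        have h23 : p = 2 ∨ p = 3 ∨ p = 4 := by omega
        refine ⟨1, ?_, ?_⟩
        · rw [ln_eval]
          simpa using not_dvd_one p hp
        · rw [quad_eval]
          have e : (A : ℤ) ^ 2 * ((1 : ℕ) : ℤ) ^ 2 + 0 * ((1 : ℕ) : ℤ) + c = ((A ^ 2 + c : ℕ) : ℤ) := by
            push_cast
            ring
          rw [e, Int.natCast_dvd_natCast]
          rcases h23 with rfl | rfl | rfl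
          · rcases hc with ⟨hev, rfl⟩ | ⟨ho, rfl⟩
            · exact absurd (even_iff_two_dvd.1 hev) hpA
            · intro h
              obtain ⟨u, hu⟩ := ho
              obtain ⟨v, hv⟩ := h
              have e2 : (2 * u + 1) ^ 2 + 4 = 2 * (2 * u ^ 2 + 2 * u + 2) + 1 := by ring
              rw [hu, e2] at hv
              omega
          · have h3 : A % 3 = 1 ∨ A % 3 = 2 := by
              have : ¬ A % 3 = 0 := fun h => hpA (Nat.dvd_of_mod_eq_zero h)
              omega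
            have hc3 : c % 3 = 1 := by
              rcases hc with ⟨_, rfl⟩ | ⟨_, rfl⟩ <;> rfl
            intro h
            have h4 := Nat.mod_eq_zero_of_dvd h
            rw [Nat.add_mod, Nat.pow_mod, hc3] at h4
            rcases h3 with h3 | h3 <;> rw [h3] at h4 <;> norm_num at h4
          · norm_num at hp

lemma fA_noTr (A c : ℕ) (hA : 1 ≤ A) : NoTr (fA A c) := by
  have hA0 : (A : ℤ) ^ 2 ≠ 0 := by positivity
  apply noTr_two
  · rw [ln_deg 1 0 one_ne_zero]; norm_num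
  · rw [quad_deg _ 0 _ hA0]; norm_num
  · intro t _ h
    have := congrArg natDegree h
    rw [natDegree_comp, ln_deg 1 0 one_ne_zero, quad_deg _ 0 _ hA0, natDegree_X_add_C] at this
    norm_num at this
  · intro t _ h
    have := congrArg natDegree h
    rw [natDegree_comp, ln_deg 1 0 one_ne_zero, quad_deg _ 0 _ hA0, natDegree_X_add_C] at this
    norm_num at this

end Pool.Agent.TH464.PO
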