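import Pool.Agent.TH464.PO.PolyPair

set_option autoImplicit false

/-!
# `m ^ d + k`, `d` odd
-/

namespace Pool.Agent.TH464.PO

open Polynomial Finset Filter
open Pool.Agent.W123.RP Pool.Agent.H373R2.T7 Pool.Agent.W123.RU Pool.Agent.W123.RU.Poly
open Pool.Agent.TH464.PW

/-- `X ^ d + k` -/
noncomputable def pk (d : ℕ) (k : ℤ) : ℤ[X] := X ^ d + C k

lemma pk_eval (d : ℕ) (k m : ℤ) : (pk d k).eval m = m ^ d + k := by
  unfold pk
  simp

lemma pk_monic (d : ℕ) (k : ℤ) (hd : 1 < d) : (pk d k).Monic := monic_X_pow_add_C k (by omega)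

lemma pk_deg (d : ℕ) (k : ℤ) : (pk d k).natDegree = d := natDegree_X_pow_add_C

lemma pk_irr (d : ℕ) (k : ℤ) (hd : 1 < d) (hodd : Odd d)
    (hk : ∀ e : ℕ, 1 < e → e ∣ d → ∀ a : ℤ, k ≠ a ^ e) : Irreducible (pk d k) := by
  rw [Polynomial.IsPrimitive.Int.irreducible_iff_irreducible_map_cast (pk_monic d k hd).isPrimitive]
  have hmap : (pk d k).map (Int.castRingHom ℚ) = X ^ d - C (-(k : ℚ)) := by
    unfold pk
    simp
  rw [hmap]
  apply X_pow_sub_C_irreducible_of_odd hodd
  intro p hp hpd b hb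
  have hpodd : Odd p := by
    obtain ⟨t, ht⟩ := hpd
    rw [ht] at hodd
    exact (Nat.odd_mul.1 hodd).1
  have h1 : b ^ p = ((-k : ℤ) : ℚ) := by
    rw [hb]
    push_cast
    rfl
  obtain ⟨y, hy⟩ := IsIntegrallyClosed.exists_algebraMap_eq_of_isIntegral_pow (R := ℤ)
    (x := b) (n := p) hp.pos (by
      rw [h1]
      exact isIntegral_algebraMap (R := ℤ) (A := ℚ) (x := -k))
  apply hk p hp.one_lt hpd (-y)
  have h2 : ((y ^ p : ℤ) : ℚ) = ((-k : ℤ) : ℚ) := by
    rw [← h1, ← hy]
    push_cast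
    rfl
  have h3 : y ^ p = -k := by exact_mod_cast h2
  rw [hpodd.neg_pow, h3, neg_neg]

lemma pk_sys (d : ℕ) (k : ℤ) (hd : 1 < d) (hodd : Odd d)
    (hk : ∀ e : ℕ, 1 < e → e ∣ d → ∀ a : ℤ, k ≠ a ^ e) : Sys (fun _ : Fin 1 => pk d k) :=
  ⟨fun _ => pk_irr d k hd hodd hk, fun _ => by rw [pk_deg]; omega,
    fun _ => by rw [(pk_monic d k hd).leadingCoeff]; norm_num, fun _ _ _ => Subsingleton.elim _ _,
    fun p hp => by
      by_cases h0 : (p : ℤ) ∣ k
      · refine ⟨1, fun _ h1 => ?_⟩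
        rw [pk_eval] at h1
        apply not_dvd_one p hp
        have := dvd_sub h1 h0
        have e : (((1 : ℕ) : ℤ)) ^ d + k - k = 1 := by
          push_cast
          rw [one_pow]
          ring
        rw [e] at this
        exact this
      · refine ⟨0, fun _ h1 => h0 ?_⟩
        rw [pk_eval] at h1
        have e : (((0 : ℕ) : ℤ)) ^ d + k = k := by
          push_cast
          rw [zero_pow (by omega)]
          ring
        rwa [e] at h1⟩

lemma pk_noTr (d : ℕ) (k : ℤ) (hd : 1 < d) : NoTr (fun _ : Fin 1 => pk d k) :=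
  noTr_single (pk d k) (by rw [pk_deg]; omega)

/-- `m`, `m ^ d + k` -/
noncomputable def fK (d : ℕ) (k : ℤ) : Fin 2 → ℤ[X] := ![ln 1 0, pk d k]

lemma fK_sys (d : ℕ) (k : ℤ) (hd : 1 < d) (hodd : Odd d) (hev : Even k)
    (hk : ∀ e : ℕ, 1 < e → e ∣ d → ∀ a : ℤ, k ≠ a ^ e) : Sys (fK d k) := by
  apply sys_two _ _ (ln_irr 1 0 one_ne_zero isCoprime_one_left) (pk_irr d k hd hodd hk)
  · rw [ln_deg 1 0 one_ne_zero]; norm_num
  · rw [pk_deg]; omega
  · rw [ln_lead 1 0 one_ne_zero]; norm_num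
  · rw [(pk_monic d k hd).leadingCoeff]; norm_num
  · intro h
    have := congrArg natDegree h
    rw [ln_deg 1 0 one_ne_zero, pk_deg] at this
    omega
  · intro p hp
    by_cases h1 : (p : ℤ) ∣ 1 + k
    · refine ⟨p - 1, ?_, ?_⟩
      · rw [ln_eval]
        intro h
        apply not_dvd_one p hp
        have e : (1 : ℤ) * ((p - 1 : ℕ) : ℤ) + 0 = p - 1 := by
          rw [Nat.cast_sub hp.one_lt.le]
          push_cast
          ring
        rw [e] at h
        have h2 := dvd_sub (dvd_refl (p : ℤ)) h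
        have e2 : (p : ℤ) - (p - 1) = 1 := by ring
        rwa [e2] at h2
      · rw [pk_eval]
        intro h
        have e : ((p - 1 : ℕ) : ℤ) = p - 1 := by
          rw [Nat.cast_sub hp.one_lt.le]
          push_cast
          ring
        rw [e] at h
        have h2 : (p : ℤ) ∣ ((p : ℤ) - 1) ^ d - (-1) ^ d := by
          have h3 := sub_dvd_pow_sub_pow ((p : ℤ) - 1) (-1) d
          have e3 : (p : ℤ) - 1 - -1 = p := by ring
          rwa [e3] at h3
        rw [hodd.neg_one_pow] at h2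
        have h4 : (p : ℤ) ∣ 2 := by
          have h5 := dvd_add (dvd_sub h1 h) h2
          have e5 : 1 + k - (((p : ℤ) - 1) ^ d + k) + (((p : ℤ) - 1) ^ d - -1) = 2 := by ring
          rwa [e5] at h5
        have h6 : p ∣ 2 := by exact_mod_cast h4
        have h7 : p = 2 := (Nat.prime_dvd_prime_iff_eq hp Nat.prime_two).1 h6
        rw [h7] at h1
        obtain ⟨u, hu⟩ := hev
        obtain ⟨v, hv⟩ := h1
        push_cast at hv
        omega
    · refine ⟨1, ?_, ?_⟩
      · rw [ln_eval]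
        simpa using not_dvd_one p hp
      · rw [pk_eval]
        simpa using h1

lemma fK_noTr (d : ℕ) (k : ℤ) (hd : 1 < d) : NoTr (fK d k) := by
  apply noTr_two
  · rw [ln_deg 1 0 one_ne_zero]; norm_num
  · rw [pk_deg]; omega
  · intro t _ h
    have := congrArg natDegree h
    rw [natDegree_comp, ln_deg 1 0 one_ne_zero, pk_deg, natDegree_X_add_C] at this
    omega
  · intro t _ h
    have := congrArg natDegree h
    rw [natDegree_comp, ln_deg 1 0 one_ne_zero, pk_deg, natDegree_X_add_C] at this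
    omega

end Pool.Agent.TH464.PO
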