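import Pool.Agent.TH464.PO.QuadN2

set_option autoImplicit false

/-!
# The family `k`, `k ^ 2 - 2`, `N - m k`, uniformly in `m` and `N`
-/

namespace Pool.Agent.TH464.PO

open Finset Filter
open Pool.Agent.W123.RP Pool.Agent.H373R2.T7 Pool.Agent.W123.RU
open Pool.Agent.TH464.PW

/-- the local condition -/
def QM (m N p k : ℕ) : Prop := p ∣ k ∨ (p : ℤ) ∣ (k : ℤ) ^ 2 - 2 ∨ (p : ℤ) ∣ (N : ℤ) - m * k

lemma lin_root (p : ℕ) (hp : p.Prime) (m N : ℕ) (hco : Nat.Coprime m N) (R : ℕ → Prop)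
    {inst : DecidablePred R} (hR : ∀ k : ℕ, R k ↔ (p : ℤ) ∣ (N : ℤ) - m * k) :
    ((range p).filter R).card ≤ 1 := by
  apply Finset.card_le_one.2
  intro x hx y hy
  rw [mem_filter, mem_range, hR] at hx hy
  by_contra hxy
  have hpi : Prime (p : ℤ) := Nat.prime_iff_prime_int.1 hp
  have h1 : (p : ℤ) ∣ (m : ℤ) * ((x : ℤ) - y) := by
    have := dvd_sub hy.2 hx.2
    have e : (N : ℤ) - m * y - (N - m * x) = (m : ℤ) * ((x : ℤ) - y) := by ring
    rwa [e] at this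
  rcases hpi.dvd_or_dvd h1 with h2 | h2
  · have h3 : (p : ℤ) ∣ (N : ℤ) := by
      have e : (N : ℤ) = (N - m * x) + m * x := by ring
      rw [e]
      exact dvd_add hx.2 (h2.mul_right _)
    have h4 : p ∣ Nat.gcd m N := Nat.dvd_gcd (by exact_mod_cast h2) (by exact_mod_cast h3)
    rw [hco] at h4
    exact hp.one_lt.ne' (Nat.dvd_one.1 h4)
  · exact not_dvd_diff p x y hx.1 hy.1 hxy h2

lemma lin_per (p k m N : ℕ) : (p : ℤ) ∣ (N : ℤ) - m * k ↔
    (p : ℤ) ∣ (N : ℤ) - m * ((k % p : ℕ) : ℤ) := by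
  have hk : (k : ℤ) = ((k % p : ℕ) : ℤ) + p * ((k / p : ℕ) : ℤ) := by
    exact_mod_cast (Nat.mod_add_div k p).symm
  have e1 : (N : ℤ) - m * ((k % p : ℕ) : ℤ) = ((N : ℤ) - m * k) + p * (m * ((k / p : ℕ) : ℤ)) := by
    rw [hk]
    push_cast
    ring
  rw [e1]
  constructor
  · intro h
    exact dvd_add h (dvd_mul_right _ _)
  · intro h
    exact (dvd_add_left (dvd_mul_right _ _)).1 h

lemma sq_eq (p k : ℕ) : (p : ℤ) ∣ (k : ℤ) ^ 2 - 2 ↔ (p : ℤ) ∣ (2 : ℤ) - ((k : ℤ) ^ 2 + 0 * k) := by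
  have e : (2 : ℤ) - ((k : ℤ) ^ 2 + 0 * k) = -((k : ℤ) ^ 2 - 2) := by ring
  rw [e, dvd_neg]

lemma qm_per (m N : ℕ) (hco : Nat.Coprime m N) : PerB (QM m N) 4 := by
  classical
  constructor
  · intro p k
    unfold QM
    rw [Nat.dvd_mod_iff (dvd_refl p), sq_eq, sq_eq, quad_per p k, lin_per p k]
  · intro p hp
    unfold nuB
    have h1 : (range p).filter (fun k => QM m N p k) =
        (range p).filter (fun k => p ∣ k) ∪
          ((range p).filter (fun k : ℕ => (p : ℤ) ∣ (k : ℤ) ^ 2 - 2) ∪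
            (range p).filter (fun k : ℕ => (p : ℤ) ∣ (N : ℤ) - m * k)) := by
      ext k
      rw [mem_union, mem_union, mem_filter, mem_filter, mem_filter, mem_filter]
      unfold QM
      tauto
    have h2 := card_zero_root p (fun k => p ∣ k) (inst := fun k => Classical.propDecidable _)
      (fun _ => Iff.rfl)
    have h3 := quad_roots p hp 2 0 (fun k : ℕ => (p : ℤ) ∣ (k : ℤ) ^ 2 - 2)
      (inst := fun k => Classical.propDecidable _) (fun k => sq_eq p k)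
    have h4 := lin_root p hp m N hco (fun k : ℕ => (p : ℤ) ∣ (N : ℤ) - m * k)
      (inst := fun k => Classical.propDecidable _) (fun _ => Iff.rfl)
    have e : ((range p).filter (fun k => QM m N p k)).card ≤ 4 := by
      rw [h1]
      have h5 := card_union_le ((range p).filter (fun k => p ∣ k))
        ((range p).filter (fun k : ℕ => (p : ℤ) ∣ (k : ℤ) ^ 2 - 2) ∪
            (range p).filter (fun k : ℕ => (p : ℤ) ∣ (N : ℤ) - m * k))
      have h6 := card_union_le ((range p).filter (fun k : ℕ => (p : ℤ) ∣ (k : ℤ) ^ 2 - 2))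
            ((range p).filter (fun k : ℕ => (p : ℤ) ∣ (N : ℤ) - m * k))
      have h2' : ((range p).filter (fun k => p ∣ k)).card ≤ 1 := by convert h2
      have h3' : ((range p).filter (fun k : ℕ => (p : ℤ) ∣ (k : ℤ) ^ 2 - 2)).card ≤ 2 := by
        convert h3
      have h4' : ((range p).filter (fun k : ℕ => (p : ℤ) ∣ (N : ℤ) - m * k)).card ≤ 1 := by
        convert h4
      omega
    convert e

lemma qm_one (m N p : ℕ) (hp : p.Prime) : 1 ≤ nuB (QM m N) p := by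
  classical
  unfold nuB
  rw [Nat.succ_le_iff, card_pos]
  exact ⟨0, mem_filter.2 ⟨mem_range.2 hp.pos, Or.inl (dvd_zero p)⟩⟩

lemma qm_adm (m N : ℕ) (hco : Nat.Coprime m N) (hodd : Odd (m + N)) (p : ℕ)
    (hp : p.Prime) : nuB (QM m N) p < p := by
  rcases Nat.lt_or_ge p 5 with h4 | h4
  · have hp2 := hp.two_le
    have hp23 : p = 2 ∨ p = 3 := by
      rcases (by omega : p = 2 ∨ p = 3 ∨ p = 4) with h | h | h
      · exact Or.inl h
      · exact Or.inr h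
      · rw [h] at hp
        exact absurd hp (by norm_num)
    rcases hp23 with rfl | rfl
    · apply adm_of _ 2 1 (by norm_num)
      unfold QM
      obtain ⟨u, hu⟩ := hodd
      rintro (h | h | h)
      · norm_num at h
      · norm_num at h
      · obtain ⟨w, hw⟩ := h
        push_cast at hw
        have hu' : (m : ℤ) + N = 2 * u + 1 := by exact_mod_cast hu
        omega
    · by_cases h1 : QM m N 3 1
      · apply adm_of _ 3 2 (by norm_num)
        have h13 : (3 : ℤ) ∣ (N : ℤ) - m := by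
          rcases h1 with h | h | h
          · norm_num at h
          · norm_num at h
          · simpa using h
        rintro (h | h | h)
        · norm_num at h
        · norm_num at h
        · push_cast at h
          have h3m : (3 : ℤ) ∣ (m : ℤ) := by
            have := dvd_sub h13 h
            have e : (N : ℤ) - m - (N - m * 2) = m := by ring
            rwa [e] at this
          have h3N : (3 : ℤ) ∣ (N : ℤ) := by
            have e : (N : ℤ) = (N - m) + m := by ring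
            rw [e]
            exact dvd_add h13 h3m
          have h4 : 3 ∣ Nat.gcd m N := Nat.dvd_gcd (by exact_mod_cast h3m) (by exact_mod_cast h3N)
          rw [hco] at h4
          norm_num at h4
      · exact adm_of _ 3 1 (by norm_num) h1
  · have := (qm_per m N hco).few p hp
    omega

lemma two_sq (a m : ℤ) (hm : m ≠ 0) : a ^ 2 - 2 * m ^ 2 ≠ 0 := by
  intro h
  have hm' : (m : ℝ) ≠ 0 := by exact_mod_cast hm
  have h1 : ((a : ℝ) / m) ^ 2 = 2 := by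
    rw [div_pow, div_eq_iff (pow_ne_zero 2 hm')]
    have : (a : ℝ) ^ 2 - 2 * (m : ℝ) ^ 2 = 0 := by exact_mod_cast h
    linarith
  have h2 : √2 = |(a : ℝ) / m| := by rw [← h1, Real.sqrt_sq_eq_abs]
  apply irrational_sqrt_two
  refine ⟨|(a : ℚ) / m|, ?_⟩
  rw [h2]
  push_cast
  rfl

/-- the resultant -/
def Rm (m N t : ℕ) : ℤ :=
  ((t : ℤ) ^ 2 - 2) * ((t : ℤ) ^ 2 - 8) * (((N : ℤ) - m * t) * ((N : ℤ) + m * t)) *
    ((((N : ℤ) - m * t) ^ 2 - 2 * (m : ℤ) ^ 2) * (((N : ℤ) + m * t) ^ 2 - 2 * (m : ℤ) ^ 2))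

lemma rm_ne (m N t : ℕ) (hm : 1 ≤ m) (h : m * t < N) : Rm m N t ≠ 0 := by
  have hm' : (m : ℤ) ≠ 0 := by exact_mod_cast (by omega : m ≠ 0)
  have h' : (m : ℤ) * t < N := by exact_mod_cast h
  have hmt : (0 : ℤ) ≤ (m : ℤ) * t := by positivity
  have ht : (t : ℤ) ^ 2 ≠ 2 ∧ (t : ℤ) ^ 2 ≠ 8 := by
    rcases Nat.lt_or_ge t 3 with h3 | h3
    · interval_cases t <;> norm_num
    · have h4 : (3 : ℤ) ≤ t := by exact_mod_cast h3
      constructor <;> nlinarith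
  unfold Rm
  refine mul_ne_zero (mul_ne_zero (mul_ne_zero ?_ ?_) (mul_ne_zero ?_ ?_)) (mul_ne_zero ?_ ?_)
  · intro h0
    exact ht.1 (by linarith)
  · intro h0
    exact ht.2 (by linarith)
  · intro h0
    linarith
  · intro h0
    linarith
  · exact two_sq _ _ hm'
  · exact two_sq _ _ hm'

lemma rm_dvd (m N t T p : ℕ) (hp : p.Prime) (hco : Nat.Coprime m N) (ht : 1 ≤ t) (htT : t ≤ T)
    (hTp : T < p) (h : CoG (QM m N) p t) : (p : ℤ) ∣ Rm m N t := by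
  have hpi : Prime (p : ℤ) := Nat.prime_iff_prime_int.1 hp
  have hpt : ¬ (p : ℤ) ∣ (t : ℤ) := by
    rw [Int.natCast_dvd_natCast]
    intro hd
    have := Nat.le_of_dvd ht hd
    omega
  obtain ⟨k, h1, h2⟩ := h
  unfold Rm
  rcases h1 with h1 | h1 | h1 <;> rcases h2 with h2 | h2 | h2
  · exfalso
    have h3 : p ∣ t := (Nat.dvd_add_right h1).1 h2
    exact hpt (by exact_mod_cast h3)
  · have hk : (p : ℤ) ∣ (k : ℤ) := by exact_mod_cast h1
    apply Dvd.dvd.mul_right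
    apply Dvd.dvd.mul_right
    apply Dvd.dvd.mul_right
    have e : (t : ℤ) ^ 2 - 2 = (((k + t : ℕ) : ℤ) ^ 2 - 2) + k * (-k - 2 * t) := by
      push_cast
      ring
    rw [e]
    exact dvd_add h2 (hk.mul_right _)
  · have hk : (p : ℤ) ∣ (k : ℤ) := by exact_mod_cast h1
    apply Dvd.dvd.mul_right
    apply Dvd.dvd.mul_left
    apply Dvd.dvd.mul_right
    have e : (N : ℤ) - m * t = ((N : ℤ) - m * ((k + t : ℕ) : ℤ)) + k * m := by
      push_cast
      ring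
    rw [e]
    exact dvd_add h2 (hk.mul_right _)
  · have hk : (p : ℤ) ∣ (k : ℤ) + t := by exact_mod_cast h2
    apply Dvd.dvd.mul_right
    apply Dvd.dvd.mul_right
    apply Dvd.dvd.mul_right
    have e : (t : ℤ) ^ 2 - 2 = ((k : ℤ) ^ 2 - 2) + (k + t) * (t - k) := by ring
    rw [e]
    exact dvd_add h1 (hk.mul_right _)
  · have h3 : (p : ℤ) ∣ (t : ℤ) * (2 * k + t) := by
      have := dvd_sub h2 h1
      have e : ((k + t : ℕ) : ℤ) ^ 2 - 2 - ((k : ℤ) ^ 2 - 2) = (t : ℤ) * (2 * k + t) := by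
        push_cast
        ring
      rwa [e] at this
    have h4 := (hpi.dvd_or_dvd h3).resolve_left hpt
    apply Dvd.dvd.mul_right
    apply Dvd.dvd.mul_right
    apply Dvd.dvd.mul_left
    have e : (t : ℤ) ^ 2 - 8 = (2 * k + t) * (t - 2 * k) + ((k : ℤ) ^ 2 - 2) * 4 := by ring
    rw [e]
    exact dvd_add (h4.mul_right _) (h1.mul_right _)
  · apply Dvd.dvd.mul_left
    apply Dvd.dvd.mul_right
    have e : ((N : ℤ) - m * t) ^ 2 - 2 * (m : ℤ) ^ 2 =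
        (N - m * ((k + t : ℕ) : ℤ)) * (N - m * t + m * k) + ((k : ℤ) ^ 2 - 2) * (m : ℤ) ^ 2 := by
      push_cast
      ring
    rw [e]
    exact dvd_add (h2.mul_right _) (h1.mul_right _)
  · have hk : (p : ℤ) ∣ (k : ℤ) + t := by exact_mod_cast h2
    apply Dvd.dvd.mul_right
    apply Dvd.dvd.mul_left
    apply Dvd.dvd.mul_left
    have e : (N : ℤ) + m * t = ((N : ℤ) - m * k) + (k + t) * m := by ring
    rw [e]
    exact dvd_add h1 (hk.mul_right _)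
  · apply Dvd.dvd.mul_left
    apply Dvd.dvd.mul_left
    have e : ((N : ℤ) + m * t) ^ 2 - 2 * (m : ℤ) ^ 2 =
        (N - m * (k : ℤ)) * (N + 2 * m * t + m * k) + (((k + t : ℕ) : ℤ) ^ 2 - 2) * (m : ℤ) ^ 2 := by
      push_cast
      ring
    rw [e]
    exact dvd_add (h1.mul_right _) (h2.mul_right _)
  · exfalso
    have h3 : (p : ℤ) ∣ (m : ℤ) * t := by
      have := dvd_sub h1 h2
      have e : (N : ℤ) - m * k - (N - m * ((k + t : ℕ) : ℤ)) = (m : ℤ) * t := by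
        push_cast
        ring
      rwa [e] at this
    have h4 := (hpi.dvd_or_dvd h3).resolve_right hpt
    have h5 : (p : ℤ) ∣ (N : ℤ) := by
      have e : (N : ℤ) = (N - m * k) + m * k := by ring
      rw [e]
      exact dvd_add h1 (h4.mul_right _)
    have h6 : p ∣ Nat.gcd m N := Nat.dvd_gcd (by exact_mod_cast h4) (by exact_mod_cast h5)
    rw [hco] at h6
    exact hp.one_lt.ne' (Nat.dvd_one.1 h6)

lemma rm_le (m N n t : ℕ) (hm : m ≤ n) (hN : N ≤ n) (ht : t ≤ n) (hn : 1000 ≤ n) :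
    (Rm m N t).natAbs ≤ n ^ 26 := by
  have hn1 : (1000 : ℤ) ≤ n := by exact_mod_cast hn
  have ht0 : (0 : ℤ) ≤ t := by positivity
  have ht1 : (t : ℤ) ≤ n := by exact_mod_cast ht
  have hm0 : (0 : ℤ) ≤ m := by positivity
  have hm1 : (m : ℤ) ≤ n := by exact_mod_cast hm
  have hN0 : (0 : ℤ) ≤ N := by positivity
  have hN1 : (N : ℤ) ≤ n := by exact_mod_cast hN
  have hn0 : (0 : ℤ) ≤ n := by linarith
  have hmt : (m : ℤ) * t ≤ (n : ℤ) * n := mul_le_mul hm1 ht1 ht0 hn0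
  have hmt0 : (0 : ℤ) ≤ (m : ℤ) * t := by positivity
  have htt : (t : ℤ) ^ 2 ≤ (n : ℤ) * n := by nlinarith
  have htt0 : (0 : ℤ) ≤ (t : ℤ) ^ 2 := by positivity
  have hmm : (m : ℤ) ^ 2 ≤ (n : ℤ) * n := by nlinarith
  have hmm0 : (0 : ℤ) ≤ (m : ℤ) ^ 2 := by positivity
  have hnn : 1000 * (n : ℤ) ≤ n * n := by nlinarith
  have hn3 : 1000 * ((n : ℤ) * n) ≤ (n : ℤ) ^ 3 := by
    have : (n : ℤ) ^ 3 = n * ((n : ℤ) * n) := by ring
    rw [this]
    exact mul_le_mul_of_nonneg_right hn1 (by positivity)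
  have a1 : |(t : ℤ) ^ 2 - 2| ≤ (n : ℤ) ^ 3 := by
    rw [abs_le]
    constructor <;> linarith
  have a2 : |(t : ℤ) ^ 2 - 8| ≤ (n : ℤ) ^ 3 := by
    rw [abs_le]
    constructor <;> linarith
  have a3 : |(N : ℤ) - m * t| ≤ (n : ℤ) ^ 3 := by
    rw [abs_le]
    constructor <;> linarith
  have a4 : |(N : ℤ) + m * t| ≤ (n : ℤ) ^ 3 := by
    rw [abs_le]
    constructor <;> linarith
  have hn7 : (n : ℤ) ^ 6 + (n : ℤ) ^ 3 ≤ (n : ℤ) ^ 7 := by
    have h3 : (n : ℤ) ^ 3 ≤ (n : ℤ) ^ 6 := pow_le_pow_right₀ (by linarith) (by norm_num)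
    have h4 : 1000 * (n : ℤ) ^ 6 ≤ (n : ℤ) ^ 7 := by
      have : (n : ℤ) ^ 7 = n * (n : ℤ) ^ 6 := by ring
      rw [this]
      exact mul_le_mul_of_nonneg_right hn1 (by positivity)
    have h5 : (0 : ℤ) ≤ (n : ℤ) ^ 6 := by positivity
    linarith
  have sq6 : ∀ z : ℤ, |z| ≤ (n : ℤ) ^ 3 → z ^ 2 ≤ (n : ℤ) ^ 6 := by
    intro z hz
    have h1 : z ^ 2 = |z| ^ 2 := (sq_abs z).symm
    rw [h1, show (n : ℤ) ^ 6 = ((n : ℤ) ^ 3) ^ 2 by ring]
    exact pow_le_pow_left₀ (abs_nonneg z) hz 2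
  have a5 : |((N : ℤ) - m * t) ^ 2 - 2 * (m : ℤ) ^ 2| ≤ (n : ℤ) ^ 7 := by
    have h1 := sq6 _ a3
    have h2 : (0 : ℤ) ≤ ((N : ℤ) - m * t) ^ 2 := sq_nonneg _
    rw [abs_le]
    constructor <;> linarith
  have a6 : |((N : ℤ) + m * t) ^ 2 - 2 * (m : ℤ) ^ 2| ≤ (n : ℤ) ^ 7 := by
    have h1 := sq6 _ a4
    have h2 : (0 : ℤ) ≤ ((N : ℤ) + m * t) ^ 2 := sq_nonneg _
    rw [abs_le]
    constructor <;> linarith
  have a7 : |Rm m N t| ≤ ((n : ℤ) ^ 3 * (n : ℤ) ^ 3) * ((n : ℤ) ^ 3 * (n : ℤ) ^ 3) *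
      ((n : ℤ) ^ 7 * (n : ℤ) ^ 7) := by
    unfold Rm
    rw [abs_mul, abs_mul, abs_mul, abs_mul, abs_mul]
    gcongr
  have a8 : ((Rm m N t).natAbs : ℤ) ≤ ((n ^ 26 : ℕ) : ℤ) := by
    rw [Int.natCast_natAbs]
    push_cast
    refine a7.trans (le_of_eq ?_)
    ring
  exact_mod_cast a8

/-- the family -/
lemma qm_GQ (θ : ℝ) (hθ : 0 < θ) : ∀ᶠ n : ℕ in atTop, ∀ m N : ℕ, 1 ≤ m → N ≤ n → Nat.Coprime m N →
    Odd (m + N) → (m : ℝ) * (n : ℝ) ^ θ ≤ N → GQ 4 26 n (QM m N) := by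
  filter_upwards [logpow_rpow 5 2 θ (by norm_num) hθ, logpow_rpow 5 1 1 one_pos one_pos,
    eventually_ge_atTop 1000] with n hlog hlog1 hn1
  intro m N hm hN hco hodd hmN
  refine ⟨qm_per m N hco, fun p hp => qm_adm m N hco hodd p hp, fun p hp => qm_one m N p hp, ?_⟩
  intro T t ht htT hT
  norm_num at hT
  have h1 : (t : ℝ) ≤ T := by exact_mod_cast htT
  have htn : t ≤ n := by
    rw [one_mul, Real.rpow_one] at hlog1
    have h2 : (t : ℝ) ≤ n := h1.trans (hT.trans hlog1)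
    exact_mod_cast h2
  have ht1 : (1 : ℝ) ≤ t := by exact_mod_cast ht
  have hm1 : (1 : ℝ) ≤ m := by exact_mod_cast hm
  have hmt : m * t < N := by
    have h2 : 2 * (t : ℝ) ≤ (n : ℝ) ^ θ := by linarith
    have h3 : (m : ℝ) * t < N := by
      calc (m : ℝ) * t < m * (2 * t) := by nlinarith
        _ ≤ m * (n : ℝ) ^ θ := by gcongr
        _ ≤ N := hmN
    exact_mod_cast h3
  have hmn : m ≤ n := by
    have : m * 1 ≤ m * t := Nat.mul_le_mul_left m ht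
    omega
  refine ⟨(Rm m N t).natAbs, Int.natAbs_ne_zero.2 (rm_ne m N t hm hmt),
    rm_le m N n t hmn hN htn hn1, ?_⟩
  intro p hp hTp hcg
  have := rm_dvd m N t T p hp hco ht htT hTp hcg
  rwa [← Int.natCast_dvd]

/-- the condition -/
def GM (m N r n k : ℕ) : Prop :=
  APn r ((n : ℝ) ^ (1 / (r : ℝ))) k ∧
    APn (2 * r) ((n : ℝ) ^ (1 / (r : ℝ))) ((k : ℤ) ^ 2 - 2).natAbs ∧ m * k < N ∧
    APn r ((n : ℝ) ^ (1 / (r : ℝ))) (N - m * k)

lemma sf_GM (r : ℕ) (hr : 1 ≤ r) : ∀ᶠ n : ℕ in atTop, ∀ m N k : ℕ, 1 ≤ m → N ≤ n → m * k < N →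
    (Sf (QM m N) ⌊(n : ℝ) ^ (1 / (r : ℝ))⌋₊ k ↔ GM m N r n k) := by
  filter_upwards [ev_z r hr 2, eventually_ge_atTop 2] with n hz hn2
  intro m N k hm hN hk
  have hn1 : 1 ≤ n := by omega
  have hkn : k ≤ n := by
    have : 1 * k ≤ m * k := Nat.mul_le_mul_right k hm
    omega
  have hcast : (((N - m * k : ℕ) : ℕ) : ℤ) = (N : ℤ) - m * k := by
    push_cast [Nat.cast_sub hk.le]
    ring
  have h2mem : 2 ∈ pz ⌊(n : ℝ) ^ (1 / (r : ℝ))⌋₊ := by
    rw [mem_pz]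
    refine ⟨Nat.le_floor ?_, Nat.prime_two⟩
    push_cast
    linarith
  have hsq : (((k : ℤ) ^ 2 - 2).natAbs : ℝ) ≤ 2 * (n : ℝ) ^ 2 := by
    have h1 : |(k : ℤ) ^ 2 - 2| ≤ 2 * (n : ℤ) ^ 2 := by
      have hk' : (k : ℤ) ≤ n := by exact_mod_cast hkn
      have hk0 : (0 : ℤ) ≤ k := Int.natCast_nonneg k
      have hn' : (2 : ℤ) ≤ n := by exact_mod_cast hn2
      rw [abs_le]
      constructor <;> nlinarith
    have h2 : ((((k : ℤ) ^ 2 - 2).natAbs : ℕ) : ℤ) ≤ ((2 * n ^ 2 : ℕ) : ℤ) := by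
      rw [Int.natCast_natAbs]
      push_cast
      exact h1
    have h3 : ((k : ℤ) ^ 2 - 2).natAbs ≤ 2 * n ^ 2 := by exact_mod_cast h2
    exact_mod_cast h3
  constructor
  · intro h
    refine ⟨apn_of k r n hr hn1 hz ?_ (by omega) (fun p hp hd => h p hp (Or.inl hd)), ?_, hk,
      apn_of _ r n hr hn1 hz (by omega) (by omega)
        (fun p hp hd => h p hp (Or.inr (Or.inr ?_)))⟩
    · rintro rfl
      exact h 2 h2mem (Or.inl (dvd_zero 2))
    · have h3 : ∀ p : ℕ, p.Prime → p ∣ ((k : ℤ) ^ 2 - 2).natAbs →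
          (n : ℝ) ^ (1 / (r : ℝ)) < (p : ℝ) := by
        intro p hp hd
        apply not_mem_pz hp
        intro hmem
        exact h p hmem (Or.inr (Or.inl (Int.natCast_dvd.2 hd)))
      refine ⟨length_le _ (2 * r) ?_ _ h3 (size_z 2 r hr n hn1 2 hz _ hsq) (by linarith), h3⟩
      intro h0
      have h1 := two_sq k 1 one_ne_zero
      apply h1
      rw [Int.natAbs_eq_zero] at h0
      linarith
    · rw [← hcast]
      exact_mod_cast hd
  · rintro ⟨h1, h2, _, h3⟩ p hp hq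
    have hpz := mem_pz' (by linarith) hp
    have hpp := (mem_pz.1 hp).2
    rcases hq with hq | hq | hq
    · have := h1.2 p hpp hq
      linarith
    · have := h2.2 p hpp (Int.natCast_dvd.1 hq)
      linarith
    · rw [← hcast] at hq
      have := h3.2 p hpp (by exact_mod_cast hq)
      linarith

/-- the density -/
lemma V_QM (m N : ℕ) {inst : ∀ p, DecidablePred
      (fun k : ℕ => p ∣ k ∨ (p : ℤ) ∣ (k : ℤ) ^ 2 - 2 ∨ (p : ℤ) ∣ (N : ℤ) - m * k)} (y : ℕ) :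
    Vq (QM m N) y = ∏ p ∈ (Finset.range (y + 1)).filter Nat.Prime,
      (1 - (((Finset.range p).filter
        (fun k : ℕ => p ∣ k ∨ (p : ℤ) ∣ (k : ℤ) ^ 2 - 2 ∨ (p : ℤ) ∣ (N : ℤ) - m * k)).card : ℝ) / p) :=
  V_gen' (QM m N) (fun p k => p ∣ k ∨ (p : ℤ) ∣ (k : ℤ) ^ 2 - 2 ∨ (p : ℤ) ∣ (N : ℤ) - m * k)
    (inst := inst) (fun _ _ => Iff.rfl) y

lemma V_QMB (m N : ℕ) (B : Finset ℕ) {inst : ∀ p, DecidablePred
      (fun k : ℕ => ∃ t ∈ B, p ∣ k + t ∨ (p : ℤ) ∣ ((k + t : ℕ) : ℤ) ^ 2 - 2 ∨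
        (p : ℤ) ∣ (N : ℤ) - m * ((k + t : ℕ) : ℤ))} (y : ℕ) :
    Vq (QH (QM m N) B) y = ∏ p ∈ (Finset.range (y + 1)).filter Nat.Prime,
      (1 - (((Finset.range p).filter (fun k : ℕ => ∃ t ∈ B, p ∣ k + t ∨
        (p : ℤ) ∣ ((k + t : ℕ) : ℤ) ^ 2 - 2 ∨
        (p : ℤ) ∣ (N : ℤ) - m * ((k + t : ℕ) : ℤ))).card : ℝ) / p) :=
  V_gen' (QH (QM m N) B) (fun p k => ∃ t ∈ B, p ∣ k + t ∨ (p : ℤ) ∣ ((k + t : ℕ) : ℤ) ^ 2 - 2 ∨
        (p : ℤ) ∣ (N : ℤ) - m * ((k + t : ℕ) : ℤ)) (inst := inst) (fun _ _ => Iff.rfl) y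

end Pool.Agent.TH464.PO
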