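import Pool.Agent.TH464.PO.QuadN

set_option autoImplicit false

/-!
# The family `k`, `n - (k ^ 2 + b k + c)`: almost primes
-/

namespace Pool.Agent.TH464.PO

open Finset Filter
open Pool.Agent.W123.RP Pool.Agent.H373R2.T7 Pool.Agent.W123.RU
open Pool.Agent.TH464.PW

/-- the condition -/
def GN (b c : ℤ) (r n k : ℕ) : Prop :=
  APn r ((n : ℝ) ^ (1 / (r : ℝ))) k ∧ (k : ℤ) ^ 2 + b * k + c < n ∧
    APn r ((n : ℝ) ^ (1 / (r : ℝ))) ((n : ℤ) - ((k : ℤ) ^ 2 + b * k + c)).toNat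

/-- sifted = almost prime -/
lemma apn_of (N r n : ℕ) (hr : 1 ≤ r) (hn : 1 ≤ n) (h2 : 2 ≤ (n : ℝ) ^ (1 / (r : ℝ))) (hN : N ≠ 0)
    (hN2 : N ≤ 2 * n) (h : ∀ p ∈ pz ⌊(n : ℝ) ^ (1 / (r : ℝ))⌋₊, ¬ p ∣ N) :
    APn r ((n : ℝ) ^ (1 / (r : ℝ))) N := by
  have h3 : ∀ p : ℕ, p.Prime → p ∣ N → (n : ℝ) ^ (1 / (r : ℝ)) < (p : ℝ) := by
    intro p hp hd
    apply not_mem_pz hp
    intro hmem
    exact h p hmem hd
  refine ⟨length_le N r hN _ h3 ?_ (by linarith), h3⟩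
  have := size_z 1 r hr n hn 2 h2 N (by
    rw [pow_one]
    exact_mod_cast hN2)
  rwa [one_mul] at this

lemma sf_GN (b c : ℤ) (r : ℕ) (hr : 1 ≤ r) : ∀ᶠ n : ℕ in atTop, ∀ k : ℕ,
    (k : ℤ) ^ 2 + b * k + c < n →
    (Sf (QN b c n) ⌊(n : ℝ) ^ (1 / (r : ℝ))⌋₊ k ↔ GN b c r n k) := by
  filter_upwards [ev_z r hr 2, eventually_ge_atTop (b.natAbs + 3), eventually_ge_atTop c.natAbs,
    eventually_ge_atTop (b.natAbs ^ 2 + c.natAbs)] with n hz hnb hnc hnbc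
  intro k hk
  have hn1 : 1 ≤ n := by omega
  have hb1 : |b| + 3 ≤ (n : ℤ) := by
    rw [Int.abs_eq_natAbs]
    exact_mod_cast hnb
  have hc1 : |c| ≤ (n : ℤ) := by
    rw [Int.abs_eq_natAbs]
    exact_mod_cast hnc
  have hbc1 : b ^ 2 + |c| ≤ (n : ℤ) := by
    have : ((b.natAbs ^ 2 + c.natAbs : ℕ) : ℤ) ≤ n := by exact_mod_cast hnbc
    push_cast at this
    rwa [sq_abs] at this
  have hb' := abs_le.1 (le_refl |b|)
  have hc' := abs_le.1 (le_refl |c|)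
  have hk0 : (0 : ℤ) ≤ k := Int.natCast_nonneg k
  have hkn : k ≤ n := by
    by_contra hcon
    rw [not_le] at hcon
    have h1 : (n : ℤ) + 1 ≤ k := by exact_mod_cast hcon
    have h2 : |b| * (k : ℤ) + 4 * k ≤ (k : ℤ) ^ 2 := by nlinarith
    have h3 : -(|b| * (k : ℤ)) ≤ b * k := by
      have := mul_le_mul_of_nonneg_right hb'.1 hk0
      linarith
    linarith
  have hN2 : ((n : ℤ) - ((k : ℤ) ^ 2 + b * k + c)).toNat ≤ 2 * n := by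
    rw [Int.toNat_le]
    push_cast
    have h1 : (0 : ℤ) ≤ (2 * k + b) ^ 2 := sq_nonneg _
    nlinarith
  have hpos : 0 < (n : ℤ) - ((k : ℤ) ^ 2 + b * k + c) := by linarith
  have hcast : ((((n : ℤ) - ((k : ℤ) ^ 2 + b * k + c)).toNat : ℕ) : ℤ) =
      (n : ℤ) - ((k : ℤ) ^ 2 + b * k + c) := Int.toNat_of_nonneg hpos.le
  have h2mem : 2 ∈ pz ⌊(n : ℝ) ^ (1 / (r : ℝ))⌋₊ := by
    rw [mem_pz]
    refine ⟨Nat.le_floor ?_, Nat.prime_two⟩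
    push_cast
    linarith
  constructor
  · intro h
    refine ⟨apn_of k r n hr hn1 hz ?_ (by omega) (fun p hp hd => h p hp (Or.inl hd)), hk,
      apn_of _ r n hr hn1 hz ?_ hN2 (fun p hp hd => h p hp (Or.inr ?_))⟩
    · rintro rfl
      exact h 2 h2mem (Or.inl (dvd_zero 2))
    · intro h0
      rw [h0] at hcast
      push_cast at hcast
      linarith
    · rw [← hcast]
      exact_mod_cast hd
  · rintro ⟨h1, _, h3⟩ p hp hq
    have hpz := mem_pz' (by linarith) hp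
    have hpp := (mem_pz.1 hp).2
    rcases hq with hq | hq
    · have := h1.2 p hpp hq
      linarith
    · rw [← hcast] at hq
      have := h3.2 p hpp (by exact_mod_cast hq)
      linarith

/-- the density of a pattern -/
lemma V_QN (b c : ℤ) (n : ℕ) {inst : ∀ p, DecidablePred
      (fun k : ℕ => p ∣ k ∨ (p : ℤ) ∣ n - ((k : ℤ) ^ 2 + b * k + c))} (y : ℕ) :
    Vq (QN b c n) y = ∏ p ∈ (Finset.range (y + 1)).filter Nat.Prime,
      (1 - (((Finset.range p).filter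
        (fun k : ℕ => p ∣ k ∨ (p : ℤ) ∣ n - ((k : ℤ) ^ 2 + b * k + c))).card : ℝ) / p) :=
  V_gen' (QN b c n) (fun p k => p ∣ k ∨ (p : ℤ) ∣ n - ((k : ℤ) ^ 2 + b * k + c)) (inst := inst)
    (fun _ _ => Iff.rfl) y

lemma V_QNB (b c : ℤ) (n : ℕ) (B : Finset ℕ) {inst : ∀ p, DecidablePred
      (fun k : ℕ => ∃ t ∈ B, p ∣ k + t ∨ (p : ℤ) ∣ n - (((k + t : ℕ) : ℤ) ^ 2 + b * ((k + t : ℕ) : ℤ) + c))}
    (y : ℕ) :
    Vq (QH (QN b c n) B) y = ∏ p ∈ (Finset.range (y + 1)).filter Nat.Prime,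
      (1 - (((Finset.range p).filter (fun k : ℕ => ∃ t ∈ B, p ∣ k + t ∨
        (p : ℤ) ∣ n - (((k + t : ℕ) : ℤ) ^ 2 + b * ((k + t : ℕ) : ℤ) + c))).card : ℝ) / p) :=
  V_gen' (QH (QN b c n) B) (fun p k => ∃ t ∈ B, p ∣ k + t ∨
    (p : ℤ) ∣ n - (((k + t : ℕ) : ℤ) ^ 2 + b * ((k + t : ℕ) : ℤ) + c)) (inst := inst)
    (fun _ _ => Iff.rfl) y

end Pool.Agent.TH464.PO
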