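import Pool.Agent.TH464.PO.BaseLaw
import Pool.Agent.TH464.PO.ResLaw

set_option autoImplicit false

/-!
# The residue classes as the variable: moments and laws around a fixed base set
-/

namespace Pool.Agent.TH464.PO

open Finset Filter
open Pool.Agent.W123.RP Pool.Agent.H373R2.T7 Pool.Agent.W123.RU
open Pool.Agent.TH464.PW

variable {s : ℕ}

open Classical in
/-- no solutions when some prime is covered -/
lemma per_bad (Q : ℕ → ℕ → Prop) (c : ℕ) (hper : PerB Q c) (y : ℕ) (hy : c ≤ y)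
    (h : ¬ ∀ p : ℕ, p.Prime → nuB Q p < p) : Vq Q y = 0 ∧ ∀ n, ¬ Sf Q y n := by
  rw [not_forall] at h
  obtain ⟨p, h⟩ := h
  rw [Classical.not_imp, not_lt] at h
  obtain ⟨hp, h⟩ := h
  have h1 : nuB Q p ≤ y := (hper.few p hp).trans hy
  have h2 : nuB Q p = p := le_antisymm (nuB_le _ p) h
  have hpy : p ∈ pz y := mem_pz.2 ⟨by omega, hp⟩
  constructor
  · unfold Vq
    apply Finset.prod_eq_zero hpy
    rw [h2, div_self (by exact_mod_cast hp.ne_zero), sub_self]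
  · intro n hn
    have h3 : (range p).filter (fun m => Q p m) = range p := by
      apply Finset.eq_of_subset_of_card_le (filter_subset _ _)
      rw [card_range]
      unfold nuB at h
      convert h
    have h4 : n % p ∈ (range p).filter (fun m => Q p m) := by
      rw [h3, mem_range]
      exact Nat.mod_lt _ hp.pos
    rw [mem_filter] at h4
    exact hn p hpy ((hper.per p n).2 h4.2)

lemma sf_QA' (q : ℕ) (H : Finset ℕ) (y n : ℕ) :
    Sf (QA q H) y n ↔ Cp q y n ∧ ∀ t ∈ H, Fr q y n t := by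
  unfold Sf QA Cp Fr
  constructor
  · intro h
    refine ⟨fun p hp h1 h2 => h p hp (Or.inl ⟨h1, h2⟩), fun t ht p hp h1 => ?_⟩
    exact h p hp (Or.inr ⟨t, ht, h1⟩)
  · rintro ⟨h1, h2⟩ p hp (h3 | ⟨t, ht, h3⟩)
    · exact h1 p hp h3.1 h3.2
    · exact h2 t ht p hp h3

open Classical in
/-- **Mixed binomial moments over the residue classes, around a base set.** -/
theorem res_base_moment (β : ℕ) (k : Fin s → ℕ) (x0 η : ℝ) (hx0 : 1 ≤ x0) (hη : 0 < η) :
    ∃ K0 y0 T0 R0 : ℕ, ∀ Y y T : ℕ, y0 ≤ y → y ^ K0 ≤ Y → T0 ≤ T → T ^ R0 ≤ Y →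
      ∀ q Z : ℕ, T * Vq (Qo q) y ≤ x0 →
      ∀ B : Finset ℕ, B.card ≤ β → (∀ x ∈ B, x ≤ T) →
      ∀ a b : Fin s → ℕ, (∀ i, a i ≤ b i) → (∀ i, b i ≤ T) →
      (∀ i j, i ≠ j → Disjoint (Ioc (a i) (b i)) (Ioc (a j) (b j))) →
      (∀ i, Disjoint B (Ioc (a i) (b i))) →
      |∑ n ∈ (Icc 1 Y).filter (fun n => Sf (QA q B) y (n + Z)),
          ∏ i, ((Nr q y (a i) (b i) (n + Z)).choose (k i) : ℝ) -
        (Y * Vq (QA q B) y) * ∏ i, ((((b i : ℝ) - a i) * Vq (Qo q) y) ^ (k i) / (k i).factorial)| ≤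
          η * (Y * Vq (QA q B) y) := by
  obtain ⟨S, hS⟩ : ∃ S, S = ∑ i, k i := ⟨_, rfl⟩
  obtain ⟨X, hX⟩ : ∃ X : ℝ, X = x0 ^ S := ⟨_, rfl⟩
  have hX1 : 1 ≤ X := by rw [hX]; exact one_le_pow₀ hx0
  obtain ⟨η1, hη1⟩ : ∃ η1 : ℝ, η1 = min 1 (η / (4 * X)) := ⟨_, rfl⟩
  have hη10 : 0 < η1 := by rw [hη1]; positivity
  have hη11 : η1 ≤ 1 := by rw [hη1]; exact min_le_left _ _
  have hη12 : η1 * X ≤ η / 4 := by
    have : η1 ≤ η / (4 * X) := by rw [hη1]; exact min_le_right _ _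
    rw [le_div_iff₀ (by positivity)] at this
    linarith
  -- the singular sums
  have hsing : ∃ (w T0 : ℕ), ∀ T : ℕ, T0 ≤ T → ∀ q y : ℕ, w ≤ y →
      ∀ B : Finset ℕ, B.card ≤ β → (∀ x ∈ B, x ≤ T) →
      ∀ a b : Fin s → ℕ, (∀ i, a i ≤ b i) → (∀ i, b i ≤ T) →
      (∀ i j, i ≠ j → Disjoint (Ioc (a i) (b i)) (Ioc (a j) (b j))) →
      (∀ i, Disjoint B (Ioc (a i) (b i))) →
      |∑ H ∈ Fam (fun i => Ioc (a i) (b i)) k, Vq (QA q (B ∪ Un H)) y -
        Vq (QA q B) y * ∏ i, ((((b i : ℝ) - a i) * Vq (Qo q) y) ^ (k i) / (k i).factorial)| ≤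
        Vq (QA q B) y * (η1 * (T * Vq (Qo q) y) ^ S) := by
    have hbase : ∃ (w T0 : ℕ), ∀ T : ℕ, T0 ≤ T → ∀ q y : ℕ, w ≤ y →
        ∀ B : Finset ℕ, B.card ≤ β → (∀ x ∈ B, x ≤ T) →
        ∀ a b : Fin s → ℕ, (∀ i, a i ≤ b i) → (∀ i, b i ≤ T) →
        (∀ i j, i ≠ j → Disjoint (Ioc (a i) (b i)) (Ioc (a j) (b j))) →
        (∀ i, Disjoint B (Ioc (a i) (b i))) →
        |∑ H ∈ Fam (fun i => Ioc (a i) (b i)) k, Vq (QH (Qo q) (B ∪ Un H)) y -
          Vq (QH (Qo q) B) y *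
            ∏ i, ((((b i : ℝ) - a i) * Vq (Qo q) y) ^ (k i) / (k i).factorial)| ≤
          Vq (QH (Qo q) B) y * (η1 * (T * Vq (Qo q) y) ^ S) := by
      rcases Nat.eq_zero_or_pos S with hS0 | hS0
      · refine ⟨1, 1, ?_⟩
        intro T _ q y _ B _ _ a b _ _ _ _
        have hz : ∀ i, k i = 0 := fun i =>
          (Finset.sum_eq_zero_iff.1 (hS.symm.trans hS0)) i (mem_univ i)
        have e1 : Fam (fun i => Ioc (a i) (b i)) k = {fun _ => ∅} := by
          ext H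
          rw [mem_Fam, mem_singleton]
          constructor
          · intro h
            funext i
            have := (h i).2
            rw [hz i, Finset.card_eq_zero] at this
            exact this
          · rintro rfl i
            exact ⟨Finset.empty_subset _, by rw [hz i, card_empty]⟩
        have e3 : ∏ i, ((((b i : ℝ) - a i) * Vq (Qo q) y) ^ (k i) / ((k i).factorial : ℝ)) = 1 := by
          apply Finset.prod_eq_one
          intro i _
          rw [hz i]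
          simp
        rw [e1, Finset.sum_singleton, Un_empty, union_empty, e3, mul_one, sub_self, abs_zero, hS0,
          pow_zero, mul_one]
        exact mul_nonneg (Vq_nonneg _ _) hη10.le
      · obtain ⟨w, η', T0, hη', h⟩ := sing_B 1 β k (by rw [← hS]; exact hS0) η1 hη10 hη11
        refine ⟨w, T0, ?_⟩
        rw [← hS] at h
        intro T hT q y hy B hB hBT a b hab hbT hdis hBd
        exact h T hT (Qo q) (qo_per q) (fun p hp => qo_adm q p hp) y hy (fun t ht => by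
          rw [mem_Icc] at ht
          rw [qo_large q T y t ht.1 ht.2]
          positivity) B hB hBT a b hab hbT hdis hBd
    obtain ⟨w, T0, h⟩ := hbase
    refine ⟨w, T0, ?_⟩
    intro T hT q y hy B hB hBT a b hab hbT hdis hBd
    have h1 := h T hT q y hy B hB hBT a b hab hbT hdis hBd
    have hW0 : 0 ≤ Wq q y := (Wq_pos q y).le
    have e1 : ∑ H ∈ Fam (fun i => Ioc (a i) (b i)) k, Vq (QA q (B ∪ Un H)) y =
        Wq q y * ∑ H ∈ Fam (fun i => Ioc (a i) (b i)) k, Vq (QH (Qo q) (B ∪ Un H)) y := by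
      rw [Finset.mul_sum]
      apply Finset.sum_congr rfl
      intro H _
      exact V_QA q (B ∪ Un H) y
    rw [e1, V_QA q B y, mul_assoc, ← mul_sub, abs_mul, abs_of_nonneg hW0, mul_assoc]
    exact mul_le_mul_of_nonneg_left h1 hW0
  obtain ⟨w, T1, hsing⟩ := hsing
  obtain ⟨K0, y0, _, hfund⟩ := sys_fund ((β + S) + 1) (by omega) (η / (8 * X)) (by positivity)
  obtain ⟨v, hv, hVlow⟩ := V_lower_unif (β + 1)
  obtain ⟨y1, hy1⟩ : ∃ y1 : ℕ, (4 / (η * v)) ^ 4 ≤ y1 := exists_nat_ge _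
  refine ⟨K0 + 8 * (β + 1) + 8, y0 + y1 + w + β + 3, T1 + 1, 8 * (S + 1), ?_⟩
  intro Y y T hy hyY hT hTR q Z hx B hBβ hBT a b hab hbT hdis hBd
  have hperB : PerB (QA q B) (β + 1) := perB_mono (qa_per q B) (by omega)
  by_cases hadB : ∀ p : ℕ, p.Prime → nuB (QA q B) p < p
  swap
  · obtain ⟨b1, b2⟩ := per_bad (QA q B) (β + 1) hperB y (by omega) hadB
    rw [b1, Finset.filter_false_of_mem (fun n _ => b2 (n + Z))]
    simp
  have hy1' : 1 ≤ y := by omega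
  have hyK : y ^ K0 ≤ Y := (Nat.pow_le_pow_right hy1' (by omega)).trans hyY
  have hy8 : y ^ (8 * (β + 1)) ≤ Y := (Nat.pow_le_pow_right hy1' (by omega)).trans hyY
  have hyY' : y ≤ Y := by
    calc y = y ^ 1 := (pow_one y).symm
      _ ≤ y ^ (K0 + 8 * (β + 1) + 8) := Nat.pow_le_pow_right hy1' (by omega)
      _ ≤ Y := hyY
  have hT1 : 1 ≤ T := by omega
  have hY1 : (4 / (η * v)) ^ 4 ≤ (Y : ℝ) := hy1.trans (by exact_mod_cast (by omega : y1 ≤ Y))
  have hYpos : (0 : ℝ) < Y := lt_of_lt_of_le (by positivity) hY1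
  have hV0 := Vq_nonneg (Qo q) y
  have hTV0 : 0 ≤ T * Vq (Qo q) y := mul_nonneg (Nat.cast_nonneg _) hV0
  have s1 := hsing T (by omega) q y (by omega) B hBβ hBT a b hab hbT hdis hBd
  have hTX : (T * Vq (Qo q) y) ^ S ≤ X := by
    rw [hX]
    exact pow_le_pow_left₀ hTV0 hx S
  obtain ⟨P, hP⟩ : ∃ P : ℝ, P = ∏ i, ((((b i : ℝ) - a i) * Vq (Qo q) y) ^ (k i) / (k i).factorial) :=
    ⟨_, rfl⟩
  obtain ⟨Sg, hSg⟩ : ∃ x : ℝ, x = ∑ H ∈ Fam (fun i => Ioc (a i) (b i)) k, Vq (QA q (B ∪ Un H)) y :=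
    ⟨_, rfl⟩
  obtain ⟨W, hW⟩ : ∃ W, W = Vq (QA q B) y := ⟨_, rfl⟩
  have hW0 : 0 < W := by rw [hW]; exact Vq_pos _ hadB y
  rw [← hP, ← hSg, ← hW] at s1
  rw [← hP, ← hW]
  have s2 : |Sg - W * P| ≤ W * (η / 4) := by
    refine s1.trans (mul_le_mul_of_nonneg_left ?_ hW0.le)
    exact (mul_le_mul_of_nonneg_left hTX hη10.le).trans hη12
  have hPX : P ≤ X := by
    rw [hP]
    refine le_trans ?_ hTX
    rw [hS]
    apply prod_le_pow
    · intro i
      have : (a i : ℝ) ≤ b i := by exact_mod_cast hab i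
      exact mul_nonneg (by linarith) hV0
    · intro i
      apply mul_le_mul_of_nonneg_right _ hV0
      have h1 : (b i : ℝ) ≤ T := by exact_mod_cast hbT i
      have h2 : (0 : ℝ) ≤ a i := Nat.cast_nonneg _
      linarith
  have hSX : Sg ≤ W * (2 * X) := by
    have h1 := (abs_le.1 s1).2
    have h2 : η1 * (T * Vq (Qo q) y) ^ S ≤ 1 * X :=
      mul_le_mul hη11 hTX (by positivity) (by norm_num)
    have h3 := mul_le_mul_of_nonneg_left h2 hW0.le
    have h4 := mul_le_mul_of_nonneg_left hPX hW0.le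
    linarith
  -- the fundamental lemma
  have e0 : ∑ n ∈ (Icc 1 Y).filter (fun n => Sf (QA q B) y (n + Z)),
      ∏ i, ((Nr q y (a i) (b i) (n + Z)).choose (k i) : ℝ) =
      ∑ H ∈ Fam (fun i => Ioc (a i) (b i)) k,
        (((Icc 1 Y).filter (fun n => Sf (Qt (QA q (B ∪ Un H)) Z) y n)).card : ℝ) := by
    have h1 := fam_choose ((Icc 1 Y).filter (fun n => Sf (QA q B) y (n + Z)))
      (fun m t => Fr q y (m + Z) t) (fun i => Ioc (a i) (b i)) k
    unfold Nr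
    rw [h1]
    apply Finset.sum_congr rfl
    intro H _
    congr 2
    rw [Finset.filter_filter]
    apply Finset.filter_congr
    intro m _
    rw [sf_Qt, sf_QA', sf_QA']
    constructor
    · rintro ⟨⟨h2, h3⟩, h4⟩
      refine ⟨h2, fun t ht => ?_⟩
      rcases mem_union.1 ht with ht | ht
      · exact h3 t ht
      · unfold Un at ht
        obtain ⟨i, _, hi⟩ := mem_biUnion.1 ht
        exact h4 i t hi
    · rintro ⟨h2, h3⟩
      exact ⟨⟨h2, fun t ht => h3 t (mem_union_left _ ht)⟩, fun i t ht =>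
        h3 t (mem_union_right _ (by
          unfold Un
          exact mem_biUnion.2 ⟨i, mem_univ _, ht⟩))⟩
  rw [e0]
  have hYW0 : 0 ≤ Y * W := by positivity
  have h1 : |∑ H ∈ Fam (fun i => Ioc (a i) (b i)) k,
      (((Icc 1 Y).filter (fun n => Sf (Qt (QA q (B ∪ Un H)) Z) y n)).card : ℝ) - Y * Sg| ≤
      η / (8 * X) * (Y * Sg) + T ^ S * √(Y : ℝ) := by
    have e : Y * Sg = ∑ H ∈ Fam (fun i => Ioc (a i) (b i)) k,
        (Y : ℝ) * Vq (QA q (B ∪ Un H)) y := by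
      rw [hSg, Finset.mul_sum]
    rw [e, ← Finset.sum_sub_distrib]
    refine (Finset.abs_sum_le_sum_abs _ _).trans ?_
    have h2 : ∀ H ∈ Fam (fun i => Ioc (a i) (b i)) k,
        |(((Icc 1 Y).filter (fun n => Sf (Qt (QA q (B ∪ Un H)) Z) y n)).card : ℝ) -
          Y * Vq (QA q (B ∪ Un H)) y| ≤
        η / (8 * X) * (Y * Vq (QA q (B ∪ Un H)) y) + √(Y : ℝ) := by
      intro H hH
      have hcard : (B ∪ Un H).card ≤ β + S := by
        refine (card_union_le _ _).trans ?_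
        rw [Un_card _ hdis k H hH, ← hS]
        omega
      have hper : PerB (QA q (B ∪ Un H)) ((β + S) + 1) :=
        perB_mono (qa_per q (B ∪ Un H)) (by omega)
      have h3 := hfund Y y (by omega) hyK (Qt (QA q (B ∪ Un H)) Z) (perB_Qt _ _ hper Z) Y
      have e1 : ∏ p ∈ pz y, (1 - (nuB (Qt (QA q (B ∪ Un H)) Z) p : ℝ) / p) =
          Vq (QA q (B ∪ Un H)) y := by
        have e2 : ∏ p ∈ pz y, (1 - (nuB (Qt (QA q (B ∪ Un H)) Z) p : ℝ) / p) =
          Vq (Qt (QA q (B ∪ Un H)) Z) y := rfl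
        rw [e2, Vq_Qt _ _ hper]
      rw [e1] at h3
      unfold Sf
      convert h3
    refine (Finset.sum_le_sum h2).trans ?_
    rw [Finset.sum_add_distrib, ← Finset.mul_sum, Finset.sum_const, nsmul_eq_mul]
    have h3 : ((Fam (fun i => Ioc (a i) (b i)) k).card : ℝ) ≤ (T : ℝ) ^ S := by
      have h4 := sum_fam_le (fun i => Ioc (a i) (b i)) hdis T (by
        intro i x hx
        rw [mem_Ioc] at hx
        rw [mem_Icc]
        have := hbT i
        omega) k (fun _ => 1) (fun _ => zero_le_one)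
      rw [Finset.sum_const, Finset.sum_const, nsmul_eq_mul, nsmul_eq_mul, mul_one, mul_one, ← hS,
        card_powersetCard, Nat.card_Icc, Nat.add_sub_cancel] at h4
      refine h4.trans ?_
      exact_mod_cast Nat.choose_le_pow T S
    have h4 := mul_le_mul_of_nonneg_right h3 (Real.sqrt_nonneg (Y : ℝ))
    linarith
  -- the error term
  have hTr1 : (1 : ℝ) ≤ T := by exact_mod_cast hT1
  have hyr1 : (2 : ℝ) ≤ y := by exact_mod_cast (by omega : 2 ≤ y)
  obtain ⟨ρ, hρ⟩ : ∃ ρ : ℝ, ρ = √(√(√(Y : ℝ))) := ⟨_, rfl⟩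
  have hρ0 : 0 ≤ ρ := by rw [hρ]; exact Real.sqrt_nonneg _
  have hρ2 : ρ ^ 2 = √(√(Y : ℝ)) := by rw [hρ]; exact Real.sq_sqrt (Real.sqrt_nonneg _)
  have hρ4 : ρ ^ 4 = √(Y : ℝ) := by
    rw [show ρ ^ 4 = (ρ ^ 2) ^ 2 by ring, hρ2]
    exact Real.sq_sqrt (Real.sqrt_nonneg _)
  have hρ8 : ρ ^ 8 = Y := by
    rw [show ρ ^ 8 = (ρ ^ 4) ^ 2 by ring, hρ4]
    exact Real.sq_sqrt hYpos.le
  have hTρ : (T : ℝ) ^ S ≤ ρ := by
    have h2 : ((T : ℝ) ^ S) ^ 8 ≤ ρ ^ 8 := by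
      rw [hρ8, ← pow_mul]
      calc (T : ℝ) ^ (S * 8) ≤ (T : ℝ) ^ (8 * (S + 1)) := pow_le_pow_right₀ hTr1 (by omega)
        _ ≤ Y := by exact_mod_cast hTR
    exact le_of_pow_le_pow_left₀ (by norm_num) hρ0 h2
  have hyρ : (y : ℝ) ^ (β + 1) ≤ ρ := by
    have h2 : ((y : ℝ) ^ (β + 1)) ^ 8 ≤ ρ ^ 8 := by
      rw [hρ8, ← pow_mul, mul_comm (β + 1) 8]
      exact_mod_cast hy8
    exact le_of_pow_le_pow_left₀ (by norm_num) hρ0 h2
  have hρc : 4 / (η * v) ≤ ρ ^ 2 := by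
    have h2 : (4 / (η * v)) ^ 4 ≤ (ρ ^ 2) ^ 4 := by
      rw [show (ρ ^ 2) ^ 4 = ρ ^ 8 by ring, hρ8]
      exact hY1
    exact le_of_pow_le_pow_left₀ (by norm_num) (by positivity) h2
  have hWlow : v ≤ W * ρ := by
    have h2 := hVlow (QA q B) hperB hadB y (by omega)
    rw [← hW] at h2
    have hlogy : 0 < Real.log y := Real.log_pos (by linarith)
    have h4 : Real.log y ≤ y := (Real.log_le_sub_one_of_pos (by linarith)).trans (by linarith)
    have h5 : v ≤ W * Real.log y ^ (β + 1) := by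
      rwa [div_le_iff₀ (pow_pos hlogy _)] at h2
    refine h5.trans (mul_le_mul_of_nonneg_left ?_ hW0.le)
    exact (pow_le_pow_left₀ hlogy.le h4 _).trans hyρ
  have hTY : (T : ℝ) ^ S * √(Y : ℝ) ≤ η / 4 * (Y * W) := by
    rw [← hρ4, ← hρ8]
    have h2 : 4 ≤ ρ ^ 2 * (η * v) := by rwa [div_le_iff₀ (by positivity)] at hρc
    have h3 : ρ ^ 2 * (η * v) ≤ ρ ^ 2 * (η * (W * ρ)) := by gcongr
    have h4 : 4 ≤ ρ ^ 2 * (η * (W * ρ)) := h2.trans h3
    calc (T : ℝ) ^ S * ρ ^ 4 ≤ ρ * ρ ^ 4 := by gcongr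
      _ = ρ ^ 5 / 4 * 4 := by ring
      _ ≤ ρ ^ 5 / 4 * (ρ ^ 2 * (η * (W * ρ))) := by gcongr
      _ = η / 4 * (ρ ^ 8 * W) := by ring
  have h5 : |Y * Sg - Y * W * P| ≤ η / 4 * (Y * W) := by
    have e : Y * Sg - Y * W * P = Y * (Sg - W * P) := by ring
    rw [e, abs_mul, abs_of_pos hYpos]
    calc (Y : ℝ) * |Sg - W * P| ≤ Y * (W * (η / 4)) := mul_le_mul_of_nonneg_left s2 hYpos.le
      _ = _ := by ring
  have h6 : η / (8 * X) * (Y * Sg) ≤ η / 4 * (Y * W) := by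
    calc η / (8 * X) * (Y * Sg) ≤ η / (8 * X) * (Y * (W * (2 * X))) := by gcongr
      _ = η / 4 * (Y * W) := by
        field_simp
        ring
  refine (abs_sub_le _ (Y * Sg) _).trans ?_
  have h7 : 0 ≤ η * (Y * W) := by positivity
  linarith

end Pool.Agent.TH464.PO
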