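import Pool.Agent.TH464.PO.ResBase
import Pool.Agent.TH464.PO.BaseGap

set_option autoImplicit false

/-!
# The residue classes as the variable: the laws around a base set, exact positions
-/

namespace Pool.Agent.TH464.PO

open Finset Filter
open Pool.Agent.W123.RP Pool.Agent.H373R2.T7 Pool.Agent.W123.RU
open Pool.Agent.TH464.PW

variable {s : ℕ}

open Classical in
/-- mixed moments over the residue classes around a base set, in all intervals -/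
theorem res_base_mom_law (β : ℕ) (k : Fin s → ℕ) (x0 ε : ℝ) (hε : 0 < ε) :
    ∃ K0 y0 T0 R0 : ℕ, ∀ q Z Y y : ℕ, y0 ≤ y → y ^ K0 ≤ Y →
      (∀ T : ℕ, 1 ≤ T * Vq (Qo q) y → T * Vq (Qo q) y ≤ |x0| + 2 → T0 ≤ T ∧ T ^ R0 ≤ Y) →
      ∀ B : Finset ℕ, B.card ≤ β → (∀ h ∈ B, h * Vq (Qo q) y ≤ x0) →
      ∀ a b : Fin s → ℕ, (∀ i, a i ≤ b i) → (∀ i, b i * Vq (Qo q) y ≤ x0) →
      (∀ i j, i ≠ j → b i ≤ a j ∨ b j ≤ a i) → (∀ i, ∀ h ∈ B, h ≤ a i ∨ b i < h) →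
        |∑ n ∈ (Ioc Z (Z + Y)).filter (fun n => Sf (QA q B) y n),
            ∏ i, ((Nr q y (a i) (b i) n).choose (k i) : ℝ) -
          (Y * Vq (QA q B) y) * ∏ i, ((((b i : ℝ) - a i) * Vq (Qo q) y) ^ (k i) / (k i).factorial)| ≤
            ε * (Y * Vq (QA q B) y) := by
  have hx02 : (1 : ℝ) ≤ |x0| + 2 := by
    have := abs_nonneg x0
    linarith
  obtain ⟨K0, y0, T0, R0, hm⟩ := res_base_moment β k (|x0| + 2) ε hx02 hε
  refine ⟨K0, y0, T0, R0, ?_⟩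
  intro q Z Y y hy hyY hT B hBβ hBx a b hab hb hdis hBd
  have hV0 : 0 < Vq (Qo q) y := Vq_pos (Qo q) (fun p hp => qo_adm q p hp) y
  obtain ⟨T, h1, h2, h3, h4⟩ := exists_T x0 (Vq (Qo q) y) hV0 (Vq_le_one _ y)
  have hxa := abs_nonneg x0
  obtain ⟨hT0, hTR⟩ := hT T (by linarith) h3
  have hkm := hm Y y T hy hyY hT0 hTR q Z h3 B hBβ (fun h hh => h4 _ (hBx h hh)) a b hab
    (fun i => h4 _ (hb i)) (win_disj a b hdis) (fun i => by
      rw [Finset.disjoint_left]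
      intro h hh hh'
      rw [mem_Ioc] at hh'
      have := hBd i h hh
      omega)
  rw [← shift_sum (fun n => Sf (QA q B) y n) (fun n => ∏ i, ((Nr q y (a i) (b i) n).choose (k i) : ℝ))
    Z Y]
  exact hkm

open Classical in
/-- **The law over the residue classes around a base set.** -/
theorem res_base_law (s β : ℕ) (x0 ε : ℝ) (hε : 0 < ε) :
    ∃ K0 y0 T0 R0 : ℕ, ∀ q Z Y y : ℕ, y0 ≤ y → y ^ K0 ≤ Y →
      (∀ T : ℕ, 1 ≤ T * Vq (Qo q) y → T * Vq (Qo q) y ≤ |x0| + 2 → T0 ≤ T ∧ T ^ R0 ≤ Y) →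
      ∀ B : Finset ℕ, B.card ≤ β → (∀ h ∈ B, h * Vq (Qo q) y ≤ x0) →
      ∀ a b : Fin s → ℕ, (∀ i, a i ≤ b i) → (∀ i, b i * Vq (Qo q) y ≤ x0) →
      (∀ i j, i ≠ j → b i ≤ a j ∨ b j ≤ a i) → (∀ i, ∀ h ∈ B, h ≤ a i ∨ b i < h) →
      ∀ E : Fin s → Finset ℕ,
        |∑ n ∈ (Ioc Z (Z + Y)).filter (fun n => Sf (QA q B) y n),
            (if ∀ i, Nr q y (a i) (b i) n ∈ E i then (1 : ℝ) else 0) -
          (Y * Vq (QA q B) y) * ∏ i, pois (((b i : ℝ) - a i) * Vq (Qo q) y) (E i)| ≤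
            ε * (Y * Vq (QA q B) y) := by
  obtain ⟨R, η, hη, h⟩ := joint_tv s 1 (|x0| + 2) ε zero_le_one (by positivity) hε
  choose K1 y1 T1 R1 hm using fun k : Fin s → ℕ => res_base_mom_law β k x0 η hη
  obtain ⟨I, hI⟩ : ∃ I, I = Fintype.piFinset (fun _ : Fin s => range (R + 1)) := ⟨_, rfl⟩
  refine ⟨∑ k ∈ I, K1 k, ∑ k ∈ I, y1 k + 1, ∑ k ∈ I, T1 k + 1, ∑ k ∈ I, R1 k, ?_⟩
  intro q Z Y y hy hyY hT B hBβ hBx a b hab hb hdis hBd E
  have hV0 : 0 < Vq (Qo q) y := Vq_pos (Qo q) (fun p hp => qo_adm q p hp) y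
  have hy1 : 1 ≤ y := by omega
  have hYW : 0 ≤ Y * Vq (QA q B) y := mul_nonneg (Nat.cast_nonneg _) (Vq_nonneg _ y)
  have hx0 : ∀ i, 0 ≤ ((b i : ℝ) - a i) * Vq (Qo q) y := by
    intro i
    have : (a i : ℝ) ≤ b i := by exact_mod_cast hab i
    exact mul_nonneg (by linarith) hV0.le
  have hxx : ∀ i, ((b i : ℝ) - a i) * Vq (Qo q) y ≤ |x0| + 2 := by
    intro i
    have h1 : (0 : ℝ) ≤ a i * Vq (Qo q) y := by positivity
    have := hb i
    have := le_abs_self x0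
    linarith
  have key : ∀ F : ℕ → ℝ,
      ∑ n ∈ Ioc Z (Z + Y), ((if Sf (QA q B) y n then (1 : ℕ) else 0 : ℕ) : ℝ) * F n =
      ∑ n ∈ (Ioc Z (Z + Y)).filter (fun n => Sf (QA q B) y n), F n := by
    intro F
    rw [Finset.sum_filter]
    apply Finset.sum_congr rfl
    intro n _
    split_ifs
    · rw [Nat.cast_one, one_mul]
    · rw [Nat.cast_zero, zero_mul]
  have hmain := h (Ioc Z (Z + Y)) (fun n => if Sf (QA q B) y n then 1 else 0)
    (fun i n => Nr q y (a i) (b i) n)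
    (fun i => ((b i : ℝ) - a i) * Vq (Qo q) y) (Y * Vq (QA q B) y) (Y * Vq (QA q B) y) hx0 hxx
    hYW hYW (by rw [one_mul]) (by
      intro k hk
      have hkI : k ∈ I := by
        rw [hI, Fintype.mem_piFinset]
        intro i
        rw [mem_range]
        have := hk i
        omega
      have hs1 : K1 k ≤ ∑ k ∈ I, K1 k := Finset.single_le_sum (fun _ _ => Nat.zero_le _) hkI
      have hs2 : y1 k ≤ ∑ k ∈ I, y1 k := Finset.single_le_sum (fun _ _ => Nat.zero_le _) hkI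
      have hs3 : T1 k ≤ ∑ k ∈ I, T1 k := Finset.single_le_sum (fun _ _ => Nat.zero_le _) hkI
      have hs4 : R1 k ≤ ∑ k ∈ I, R1 k := Finset.single_le_sum (fun _ _ => Nat.zero_le _) hkI
      rw [key]
      exact hm k q Z Y y (by omega) ((Nat.pow_le_pow_right hy1 hs1).trans hyY) (fun T t1 t2 => by
        obtain ⟨c1, c2⟩ := hT T t1 t2
        exact ⟨by omega, (Nat.pow_le_pow_right (by omega) hs4).trans c2⟩) B hBβ hBx a b hab hb
        hdis hBd) E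
  rw [key] at hmain
  exact hmain

lemma Wq_le_one (q y : ℕ) : Wq q y ≤ 1 := by
  unfold Wq
  apply Finset.prod_le_one
  · intro p hp
    have h2 : (2 : ℝ) ≤ p := by exact_mod_cast (mem_pz.1 hp).2.two_le
    split_ifs
    · rw [sub_nonneg, div_le_one (by linarith)]
      linarith
    · exact zero_le_one
  · intro p hp
    split_ifs
    · have : 0 ≤ 1 / (p : ℝ) := by positivity
      linarith
    · exact le_rfl

open Classical in
/-- **Patterns and counts over the residue classes**, packaged -/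
theorem res_base (D : ℕ) (θ : ℝ) (hθ : 0 < θ) (β s : ℕ) (x ε : ℝ) (hε : 0 < ε) :
    ∃ r0 : ℕ, ∀ r : ℕ, r0 ≤ r → ∀ᶠ X : ℕ in atTop, ∀ q : ℕ, 1 ≤ q → q ≤ X ^ D →
      ∀ (G : ℕ → ℕ → Prop) (V W : ℝ) (VB : Finset ℕ → ℝ),
      (∀ n t, G n t ↔ APn ((D + 1) * r) ((X : ℝ) ^ (1 / (r : ℝ))) (q * t + n)) →
      Vq (Qo q) ⌊(X : ℝ) ^ (1 / (r : ℝ))⌋₊ = V → Wq q ⌊(X : ℝ) ^ (1 / (r : ℝ))⌋₊ = W →
      (∀ B, Vq (QH (Qo q) B) ⌊(X : ℝ) ^ (1 / (r : ℝ))⌋₊ = VB B) →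
      ∀ Z Y : ℕ, (X : ℝ) ^ θ ≤ Y → Z + Y ≤ X ^ (D + 1) →
      ∀ B : Finset ℕ, B.card ≤ β → (∀ h ∈ B, h * V ≤ x) →
      ∀ a b : Fin s → ℕ, (∀ i, a i ≤ b i) → (∀ i, b i * V ≤ x) →
      (∀ i j, i ≠ j → b i ≤ a j ∨ b j ≤ a i) → (∀ i, ∀ h ∈ B, h ≤ a i ∨ b i < h) →
      ∀ E : Fin s → Finset ℕ,
        |(((Ioc Z (Z + Y)).filter (fun n => Nat.Coprime n q ∧ (∀ t ∈ B, G n t) ∧ ∀ i,
          ((Ioc (a i) (b i)).filter (fun t => G n t)).card ∈ E i)).card : ℝ) -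
          Y * (W * VB B) * ∏ i, ∑ j ∈ E i, Real.exp (-(((b i : ℝ) - a i) * V)) *
            (((b i : ℝ) - a i) * V) ^ j / j.factorial| ≤ ε * (Y * (W * VB B)) := by
  obtain ⟨v, hv, hVlow⟩ := V_lower_unif (β + 1)
  obtain ⟨K0, y0, T0, R0, hlaw⟩ := res_base_law s β x (ε / 2) (by positivity)
  obtain ⟨s0, h0⟩ := af_sizes D θ hθ K0 (y0 + β + 2) T0 R0 1 1 (|x| + 2) one_pos one_pos
    (by positivity)
  refine ⟨max s0 2, ?_⟩
  intro r hr
  have hr2 : 2 ≤ r := (le_max_right _ _).trans hr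
  have hrr : (2 : ℝ) ≤ r := by exact_mod_cast hr2
  have hpow2 : Tendsto (fun X : ℕ => (X : ℝ) ^ (1 / (2 * r : ℝ))) atTop atTop :=
    (tendsto_rpow_atTop (by positivity)).comp tendsto_natCast_atTop_atTop
  filter_upwards [h0 r ((le_max_left _ _).trans hr), ap_fam D r (by omega), ap_short D x r hr2,
    fr_iff D r (by omega), cop_small D (β + 1) θ (ε / 2 * v) hθ (by positivity) r hr2,
    eventually_ge_atTop 16, hpow2.eventually_ge_atTop 2] with X hX hfam hs hfr hcs hX16 hX22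
  intro q hq hqX G V W VB hG hV hW hVB Z Y hXY hZY B hBβ hBx a b hab hb hdis hBd E
  subst hV hW
  rw [← hVB B]
  obtain ⟨hy1', hy2, hy3, hy4⟩ := level_low r hr2 X (by omega) hX22
  obtain ⟨y, hy⟩ : ∃ y, y = ⌊(X : ℝ) ^ (1 / (r : ℝ))⌋₊ := ⟨_, rfl⟩
  have hX1 : 1 ≤ X := by omega
  have hAF := (hfam q 1 hq hqX (Nat.one_le_pow _ _ hX1) (Nat.coprime_one_left q)).1
  obtain ⟨a1, a2, a3, a4, a5, a6⟩ := hX _ _ hAF Y hXY y hy
  rw [V_Qo_eq] at a3 a4 a5
  have hbX : ∀ i, b i ≤ X := fun i => hs _ _ hAF (b i) (by rw [V_Qo_eq]; exact hb i)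
  have hBX : ∀ h ∈ B, h ≤ X := fun h hh => hs _ _ hAF h (by rw [V_Qo_eq]; exact hBx h hh)
  have hcs' := hcs q hq hqX Y hXY
  rw [← hy] at hb hBx hcs' hfr hy1' hy2 hy3 hy4 ⊢
  have hy1 : 1 ≤ y := by omega
  rw [← V_QA]
  have hperB : PerB (QA q B) (β + 1) := perB_mono (qa_per q B) (by omega)
  have hcopCp : ∀ n, Nat.Coprime n q → Cp q y n := by
    intro n hn p hp h1 h2
    have h3 : p ∣ Nat.gcd n q := Nat.dvd_gcd h2 h1
    rw [hn] at h3
    exact (mem_pz.1 hp).2.one_lt.ne' (Nat.dvd_one.1 h3)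
  have hcount : (((Ioc Z (Z + Y)).filter (fun n => Nat.Coprime n q ∧ (∀ t ∈ B, G n t) ∧ ∀ i,
      ((Ioc (a i) (b i)).filter (fun t => G n t)).card ∈ E i)).card : ℝ) =
      ∑ n ∈ (Ioc Z (Z + Y)).filter (fun n => Nat.Coprime n q),
        if (∀ t ∈ B, Fr q y n t) ∧ ∀ i, Nr q y (a i) (b i) n ∈ E i then (1 : ℝ) else 0 := by
    rw [← Finset.sum_filter, Finset.filter_filter, Finset.sum_const, nsmul_eq_mul, mul_one]
    congr 2
    apply Finset.filter_congr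
    intro n hn
    rw [mem_Ioc] at hn
    apply and_congr Iff.rfl
    apply and_congr
    · apply forall_congr'
      intro t
      apply forall_congr'
      intro ht
      rw [hG n t]
      exact (hfr q n t hqX (by omega) (hBX t ht)).symm
    · apply forall_congr'
      intro i
      have e : (Ioc (a i) (b i)).filter (fun t => G n t) =
          (Ioc (a i) (b i)).filter (fun t => Fr q y n t) := by
        apply Finset.filter_congr
        intro t ht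
        rw [mem_Ioc] at ht
        rw [hG n t]
        exact (hfr q n t hqX (by omega) (ht.2.trans (hbX i))).symm
      rw [e]
      rfl
  rw [hcount]
  by_cases hadB : ∀ p : ℕ, p.Prime → nuB (QA q B) p < p
  swap
  · obtain ⟨b1, b2⟩ := per_bad (QA q B) (β + 1) hperB y (by omega) hadB
    rw [b1, mul_zero, zero_mul, mul_zero, sub_zero]
    rw [Finset.sum_eq_zero, abs_zero]
    intro n hn
    rw [mem_filter] at hn
    rw [if_neg]
    rintro ⟨h1, _⟩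
    exact b2 n ((sf_QA' q B y n).2 ⟨hcopCp n hn.2, h1⟩)
  have hm := hlaw q Z Y y (by omega) a2 (fun T t1 t2 => by
    have := a6 T (by rw [V_Qo_eq]; exact t1) (by rw [V_Qo_eq]; exact t2)
    exact ⟨this.1, this.2.1⟩) B hBβ hBx a b hab hb hdis hBd E
  have hd := cop_diff q y Z Y hq hy1
    (fun n => if (∀ t ∈ B, Fr q y n t) ∧ ∀ i, Nr q y (a i) (b i) n ∈ E i then (1 : ℝ) else 0) 1
    zero_le_one (fun n => by split_ifs <;> norm_num) (fun n => by split_ifs <;> norm_num)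
  have hsum : ∑ n ∈ (Ioc Z (Z + Y)).filter (fun n => Cp q y n),
      (if (∀ t ∈ B, Fr q y n t) ∧ ∀ i, Nr q y (a i) (b i) n ∈ E i then (1 : ℝ) else 0) =
      ∑ n ∈ (Ioc Z (Z + Y)).filter (fun n => Sf (QA q B) y n),
        (if ∀ i, Nr q y (a i) (b i) n ∈ E i then (1 : ℝ) else 0) := by
    rw [Finset.sum_filter, Finset.sum_filter]
    apply Finset.sum_congr rfl
    intro n _
    rw [sf_QA']
    split_ifs <;> first | rfl | (exfalso; tauto)
  rw [hsum] at hd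
  -- the error
  obtain ⟨L, hL⟩ : ∃ L, L = Real.log X := ⟨_, rfl⟩
  rw [← hL] at hcs' hy3
  have hlogy : 0 < Real.log y := Real.log_pos (by exact_mod_cast (by omega : 1 < y))
  have hLpos : 0 < L := lt_of_lt_of_le hlogy hy3
  have hlow : v / L ^ (β + 1) ≤ Vq (QA q B) y := by
    refine le_trans ?_ (hVlow (QA q B) hperB hadB y (by omega))
    apply div_le_div_of_nonneg_left hv.le (pow_pos hlogy _)
    exact pow_le_pow_left₀ hlogy.le hy3 _
  have hY0 : (0 : ℝ) ≤ Y := Nat.cast_nonneg Y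
  have herr : 1 * (Real.log q / Real.log 2 * ((Y : ℝ) / y + 1)) ≤ ε / 2 * (Y * Vq (QA q B) y) := by
    have h1 : L ^ (β + 1) * (Real.log q / Real.log 2 * ((Y : ℝ) / y + 1)) ≤ ε / 2 * v * (Y * 1) := by
      refine hcs'.trans ?_
      have := Wq_le_one q y
      gcongr
    have h2 : Real.log q / Real.log 2 * ((Y : ℝ) / y + 1) ≤ ε / 2 * v * (Y * 1) / L ^ (β + 1) := by
      rw [le_div_iff₀ (pow_pos hLpos _)]
      linarith
    have h3 : ε / 2 * v * (Y * 1) / L ^ (β + 1) = ε / 2 * (Y * (v / L ^ (β + 1))) := by ring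
    rw [one_mul]
    refine (h2.trans (le_of_eq h3)).trans ?_
    gcongr
  have h1 := abs_sub_le
    (∑ n ∈ (Ioc Z (Z + Y)).filter (fun n => Nat.Coprime n q),
        if (∀ t ∈ B, Fr q y n t) ∧ ∀ i, Nr q y (a i) (b i) n ∈ E i then (1 : ℝ) else 0)
    (∑ n ∈ (Ioc Z (Z + Y)).filter (fun n => Sf (QA q B) y n),
        if ∀ i, Nr q y (a i) (b i) n ∈ E i then (1 : ℝ) else 0)
    ((Y * Vq (QA q B) y) * ∏ i, pois (((b i : ℝ) - a i) * Vq (Qo q) y) (E i))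
  refine (le_trans (le_of_eq ?_) h1).trans ?_
  · rfl
  · linarith

end Pool.Agent.TH464.PO
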