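import Pool.Agent.TH464.PO.ResBase2

set_option autoImplicit false

/-!
# The exact places of the first almost primes of the residue classes
-/

namespace Pool.Agent.TH464.PO

open Finset Filter
open Pool.Agent.W123.RP Pool.Agent.H373R2.T7 Pool.Agent.W123.RU
open Pool.Agent.TH464.PW

variable {s : ℕ}

/-- the set of the partial sums without `0` -/
def B1 (d : Fin s → ℕ) : Finset ℕ := (Icc 1 s).image (ps d)

lemma B1_card (d : Fin s → ℕ) : (B1 d).card ≤ s := by
  unfold B1
  exact card_image_le.trans (le_of_eq (by rw [Nat.card_Icc]; omega))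

lemma mem_B1 (d : Fin s → ℕ) (h : ℕ) : h ∈ B1 d ↔ ∃ j, 1 ≤ j ∧ j ≤ s ∧ ps d j = h := by
  unfold B1
  rw [mem_image]
  constructor
  · rintro ⟨j, hj, rfl⟩
    rw [mem_Icc] at hj
    exact ⟨j, hj.1, hj.2, rfl⟩
  · rintro ⟨j, h1, h2, rfl⟩
    exact ⟨j, mem_Icc.2 ⟨h1, h2⟩, rfl⟩

open Classical in
lemma first_iff (g : ℕ → Prop) (d : Fin s → ℕ) (hd : ∀ i, 1 ≤ d i) :
    ((∀ h ∈ B1 d, g h) ∧ ∀ i : Fin s, ((Ioc (ps d i) (ps d i + (d i - 1))).filter
      (fun m => g m)).card ∈ ({0} : Finset ℕ)) ↔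
    (∀ i : Fin s, (nx g)^[(i : ℕ) + 1] 0 - (nx g)^[(i : ℕ)] 0 = d i) := by
  obtain ⟨g', hg'⟩ : ∃ g' : ℕ → Prop, g' = fun m => m = 0 ∨ g m := ⟨_, rfl⟩
  have hg1 : ∀ m, m ≠ 0 → (g' m ↔ g m) := by
    intro m hm
    rw [hg']
    exact ⟨fun h => h.resolve_left hm, Or.inr⟩
  have hg0 : g' 0 := by
    rw [hg']
    exact Or.inl rfl
  have hnx : nx g' = nx g := by
    funext b
    unfold nx
    congr 1
    ext m
    constructor
    · rintro ⟨h1, h2⟩
      exact ⟨h1, (hg1 m (by omega)).1 h2⟩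
    · rintro ⟨h1, h2⟩
      exact ⟨h1, (hg1 m (by omega)).2 h2⟩
  have h := exact_iff g' d hd 0
  rw [hnx] at h
  have hL : ((∀ h ∈ Bs d, g' (0 + h)) ∧ ∀ i : Fin s,
      ((Ioc (0 + ps d i) (0 + (ps d i + (d i - 1)))).filter
        (fun m => g' m)).card ∈ ({0} : Finset ℕ)) ↔
      ((∀ h ∈ B1 d, g h) ∧ ∀ i : Fin s, ((Ioc (ps d i) (ps d i + (d i - 1))).filter
      (fun m => g m)).card ∈ ({0} : Finset ℕ)) := by
    apply and_congr
    · constructor
      · intro h1 t ht
        obtain ⟨j, hj1, hj2, rfl⟩ := (mem_B1 d t).1 ht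
        have h2 := h1 _ (mem_Bs d j hj2)
        rw [zero_add] at h2
        have h3 := ps_step d hd 0 j hj1 hj2
        exact (hg1 _ (by omega)).1 h2
      · intro h1 t ht
        unfold Bs at ht
        rw [mem_image] at ht
        obtain ⟨j, hj, rfl⟩ := ht
        rw [mem_range] at hj
        rw [zero_add]
        rcases Nat.eq_zero_or_pos j with h0 | h0
        · rw [h0, ps_zero]
          exact hg0
        · have h2 := h1 _ ((mem_B1 d _).2 ⟨j, h0, by omega, rfl⟩)
          have h3 := ps_step d hd 0 j h0 (by omega)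
          exact (hg1 _ (by omega)).2 h2
    · apply forall_congr'
      intro i
      have e : (Ioc (0 + ps d i) (0 + (ps d i + (d i - 1)))).filter (fun m => g' m) =
          (Ioc (ps d i) (ps d i + (d i - 1))).filter (fun m => g m) := by
        rw [zero_add, zero_add]
        apply Finset.filter_congr
        intro m hm
        rw [mem_Ioc] at hm
        exact hg1 m (by omega)
      rw [e]
  rw [hL] at h
  refine h.trans ?_
  exact ⟨fun h => h.2, fun h => ⟨hg0, h⟩⟩

open Classical in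
/-- **The exact places of the first `s` almost primes of the residue classes**, packaged -/
theorem res_first (D : ℕ) (θ : ℝ) (hθ : 0 < θ) (s : ℕ) (x ε : ℝ) (hε : 0 < ε) :
    ∃ r0 : ℕ, ∀ r : ℕ, r0 ≤ r → ∀ᶠ X : ℕ in atTop, ∀ q : ℕ, 1 ≤ q → q ≤ X ^ D →
      ∀ (G : ℕ → ℕ → Prop) (V W : ℝ) (VB : Finset ℕ → ℝ),
      (∀ n t, G n t ↔ APn ((D + 1) * r) ((X : ℝ) ^ (1 / (r : ℝ))) (q * t + n)) →
      Vq (Qo q) ⌊(X : ℝ) ^ (1 / (r : ℝ))⌋₊ = V → Wq q ⌊(X : ℝ) ^ (1 / (r : ℝ))⌋₊ = W →
      (∀ B, Vq (QH (Qo q) B) ⌊(X : ℝ) ^ (1 / (r : ℝ))⌋₊ = VB B) →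
      ∀ Z Y : ℕ, (X : ℝ) ^ θ ≤ Y → Z + Y ≤ X ^ (D + 1) →
      ∀ d : Fin s → ℕ, (∀ j, 1 ≤ d j) → ps d s * V ≤ x →
        |(((Ioc Z (Z + Y)).filter (fun n => Nat.Coprime n q ∧
          ∀ j : Fin s, (nx (G n))^[(j : ℕ) + 1] 0 - (nx (G n))^[(j : ℕ)] 0 = d j)).card : ℝ) -
          Y * (W * VB (B1 d)) * Real.exp (-(ps d s * V))| ≤ ε * (Y * (W * VB (B1 d))) := by
  obtain ⟨r1, h1⟩ := res_base D θ hθ s s x (ε / 2) (by positivity)
  obtain ⟨r2, h2⟩ := af_sizes D θ hθ 1 1 1 1 1 (ε / (2 * (s + 1))) 1 one_pos (by positivity) one_pos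
  refine ⟨max (max r1 r2) 1, ?_⟩
  intro r hr
  have hr1 : r1 ≤ r := by omega
  have hr2 : r2 ≤ r := by omega
  filter_upwards [h1 r hr1, h2 r hr2, ap_fam D r (by omega), eventually_ge_atTop 1]
    with X hX1 hX2 hfam hX
  intro q hq hqX G V W VB hG hV hW hVB Z Y hXY hZY d hd hdx
  have hAF := (hfam q 1 hq hqX (Nat.one_le_pow _ _ hX) (Nat.coprime_one_left q)).1
  have hV0 : 0 < V := by
    rw [← hV]
    exact Vq_pos (Qo q) (fun p hp => qo_adm q p hp) _
  have hVδ : V ≤ ε / (2 * (s + 1)) := by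
    have := (hX2 _ _ hAF Y hXY _ rfl).2.2.1
    rw [V_Qo_eq, hV] at this
    exact this
  have hle : ∀ i, i ≤ s → (ps d i : ℝ) * V ≤ x := by
    intro i hi
    refine le_trans ?_ hdx
    apply mul_le_mul_of_nonneg_right _ hV0.le
    exact_mod_cast ps_mono d hi
  have hb : ∀ i : Fin s, ps d i + (d i - 1) ≤ ps d ((i : ℕ) + 1) := by
    intro i
    rw [ps_succ]
    omega
  have h := hX1 q hq hqX G V W VB hG hV hW hVB Z Y hXY hZY (B1 d) (B1_card d) (fun h hh => by
      obtain ⟨j, _, hj, rfl⟩ := (mem_B1 d h).1 hh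
      exact hle j hj) (fun i => ps d i) (fun i => ps d i + (d i - 1)) (fun i => by omega)
      (fun i => by
      refine le_trans ?_ (hle ((i : ℕ) + 1) i.2)
      apply mul_le_mul_of_nonneg_right _ hV0.le
      exact_mod_cast hb i) (fun i j hij => by
      have h1 := hb i
      have h2 := hb j
      rcases Nat.lt_or_gt_of_ne (fun e => hij (Fin.ext e)) with h3 | h3
      · left
        have := ps_mono d (show (i : ℕ) + 1 ≤ j from h3)
        omega
      · right
        have := ps_mono d (show (j : ℕ) + 1 ≤ i from h3)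
        omega) (fun i h hh => by
      obtain ⟨j, _, hj, rfl⟩ := (mem_B1 d h).1 hh
      rcases Nat.lt_or_ge (i : ℕ) j with h3 | h3
      · right
        have h4 := ps_mono d (show (i : ℕ) + 1 ≤ j from h3)
        have h5 := ps_succ d i
        have h6 := hd i
        omega
      · left
        exact ps_mono d h3) (fun _ => {0})
  have e : (Ioc Z (Z + Y)).filter (fun n => Nat.Coprime n q ∧
      ∀ j : Fin s, (nx (G n))^[(j : ℕ) + 1] 0 - (nx (G n))^[(j : ℕ)] 0 = d j) =
      (Ioc Z (Z + Y)).filter (fun n => Nat.Coprime n q ∧ (∀ t ∈ B1 d, G n t) ∧ ∀ i : Fin s,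
          ((Ioc (ps d i) (ps d i + (d i - 1))).filter (fun t => G n t)).card ∈ ({0} : Finset ℕ)) := by
    ext n
    simp only [mem_filter]
    apply and_congr_right
    intro _
    apply and_congr_right
    intro _
    exact (first_iff (G n) d hd).symm
  rw [e]
  have hprod : ∏ i : Fin s, ∑ j ∈ ({0} : Finset ℕ),
      Real.exp (-((((ps d i + (d i - 1) : ℕ) : ℝ) - (ps d i : ℕ)) * V)) *
        ((((ps d i + (d i - 1) : ℕ) : ℝ) - (ps d i : ℕ)) * V) ^ j / j.factorial =
      Real.exp (-(((ps d s : ℝ) - s) * V)) := by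
    have e1 : ∀ i : Fin s, ∑ j ∈ ({0} : Finset ℕ),
        Real.exp (-((((ps d i + (d i - 1) : ℕ) : ℝ) - (ps d i : ℕ)) * V)) *
        ((((ps d i + (d i - 1) : ℕ) : ℝ) - (ps d i : ℕ)) * V) ^ j / j.factorial =
        Real.exp (-(((d i : ℝ) - 1) * V)) := by
      intro i
      rw [Finset.sum_singleton, pow_zero, mul_one, Nat.factorial_zero, Nat.cast_one, div_one]
      congr 2
      rw [Nat.cast_add, Nat.cast_sub (hd i), Nat.cast_one]
      ring
    rw [Finset.prod_congr rfl fun i _ => e1 i, ← Real.exp_sum]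
    congr 1
    rw [Finset.sum_neg_distrib, ← Finset.sum_mul, Finset.sum_sub_distrib]
    have e2 : (ps d s : ℝ) = ∑ i, (d i : ℝ) := by
      unfold ps
      rw [Finset.sum_range]
      push_cast
      apply Finset.sum_congr rfl
      intro i _
      rw [dif_pos i.2]
    rw [e2]
    simp
  rw [hprod] at h
  have hs : (s : ℝ) ≤ ps d s := by
    have : ∀ i, i ≤ s → i ≤ ps d i := by
      intro i
      induction i with
      | zero => intro _; exact Nat.zero_le _
      | succ i ih =>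
        intro hi
        have := ih (by omega)
        have := ps_step d hd i (i + 1) (Nat.lt_succ_self i) hi
        omega
    exact_mod_cast this s le_rfl
  have hW0 : 0 ≤ Y * (W * VB (B1 d)) := by
    rw [← hW, ← hVB]
    exact mul_nonneg (Nat.cast_nonneg _) (mul_nonneg (Wq_pos q _).le (Vq_nonneg _ _))
  have hexp : |Real.exp (-(((ps d s : ℝ) - s) * V)) - Real.exp (-(ps d s * V))| ≤ ε / 2 := by
    refine (exp_lip _ _ (s * V) (mul_nonneg (by linarith) hV0.le) (by positivity) ?_).trans ?_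
    · have e3 : ((ps d s : ℝ) - s) * V - ps d s * V = -(s * V) := by ring
      rw [e3, abs_neg, abs_of_nonneg (by positivity)]
    · have h1 : (s : ℝ) * V ≤ s * (ε / (2 * (s + 1))) :=
        mul_le_mul_of_nonneg_left hVδ (Nat.cast_nonneg _)
      refine h1.trans ?_
      rw [mul_div_assoc', div_le_div_iff₀ (by positivity) (by norm_num)]
      nlinarith
  refine (abs_sub_le _ (Y * (W * VB (B1 d)) * Real.exp (-(((ps d s : ℝ) - s) * V))) _).trans ?_
  have h2 : |Y * (W * VB (B1 d)) * Real.exp (-(((ps d s : ℝ) - s) * V)) -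
      Y * (W * VB (B1 d)) * Real.exp (-(ps d s * V))| ≤ ε / 2 * (Y * (W * VB (B1 d))) := by
    rw [← mul_sub, abs_mul, abs_of_nonneg hW0, mul_comm (ε / 2)]
    exact mul_le_mul_of_nonneg_left hexp hW0
  linarith

lemma nuB_QoB (q p : ℕ) (hp : p.Prime) (hq : ¬ p ∣ q) (B : Finset ℕ) :
    nuB (QH (Qo q) B) p = (B.image (fun h => h % p)).card := by
  classical
  unfold nuB
  symm
  apply Finset.card_bij (fun r _ => (p - r) % p)
  · intro r hr
    rw [mem_image] at hr
    obtain ⟨t, ht, rfl⟩ := hr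
    rw [mem_filter, mem_range]
    refine ⟨Nat.mod_lt _ hp.pos, t, ht, hq, ?_⟩
    have hlt : t % p < p := Nat.mod_lt _ hp.pos
    have h1 : (p - t % p) % p + t ≡ (p - t % p) + t % p [MOD p] :=
      Nat.ModEq.add (Nat.mod_modEq _ _) (Nat.mod_modEq _ _).symm
    rw [Nat.sub_add_cancel hlt.le] at h1
    exact Nat.modEq_zero_iff_dvd.1 (h1.trans (Nat.modEq_zero_iff_dvd.2 (dvd_refl p)))
  · intro r hr r' hr' h
    rw [mem_image] at hr hr'
    obtain ⟨t, _, rfl⟩ := hr
    obtain ⟨t', _, rfl⟩ := hr'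
    have h1 : t % p < p := Nat.mod_lt _ hp.pos
    have h2 : t' % p < p := Nat.mod_lt _ hp.pos
    have h3 : p - t % p ≡ p - t' % p [MOD p] := h
    have h4 : p - t % p + (t % p + t' % p) ≡ p - t' % p + (t % p + t' % p) [MOD p] :=
      Nat.ModEq.add_right _ h3
    have e1 : p - t % p + (t % p + t' % p) = p + t' % p := by omega
    have e2 : p - t' % p + (t % p + t' % p) = p + t % p := by omega
    rw [e1, e2] at h4
    have h5 : t' % p ≡ t % p [MOD p] := Nat.ModEq.add_left_cancel' p h4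
    have h6 : t' % p % p = t % p % p := h5
    rw [Nat.mod_mod, Nat.mod_mod] at h6
    exact h6.symm
  · intro m hm
    rw [mem_filter, mem_range] at hm
    obtain ⟨h1, t, ht, _, h2⟩ := hm
    refine ⟨t % p, mem_image_of_mem _ ht, ?_⟩
    have hlt : t % p < p := Nat.mod_lt _ hp.pos
    have h3 : p ∣ m + t % p := by
      have : m + t % p ≡ m + t [MOD p] := Nat.ModEq.add_left _ (Nat.mod_modEq _ _)
      exact Nat.modEq_zero_iff_dvd.1 (this.trans (Nat.modEq_zero_iff_dvd.2 h2))
    obtain ⟨k, hk⟩ := h3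
    have hk2 : k < 2 := by
      by_contra hcon
      have : p * 2 ≤ p * k := Nat.mul_le_mul_left p (by omega)
      omega
    interval_cases k
    · have h4 : m = 0 := by omega
      have h5 : t % p = 0 := by omega
      change (p - t % p) % p = m
      rw [h5, h4, Nat.sub_zero, Nat.mod_self]
    · have h4 : p - t % p = m := by omega
      change (p - t % p) % p = m
      rw [h4, Nat.mod_eq_of_lt h1]

/-- the density of a pattern, for the classes: the number of the residues -/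
lemma V_QoB (q : ℕ) (B : Finset ℕ) (y : ℕ) : Vq (QH (Qo q) B) y =
    ∏ p ∈ (Finset.range (y + 1)).filter (fun p => p.Prime ∧ ¬ p ∣ q),
        (1 - ((B.image (fun h => h % p)).card : ℝ) / p) := by
  classical
  rw [← Finset.filter_filter, Finset.prod_filter (fun p => ¬ p ∣ q)]
  unfold Vq
  apply Finset.prod_congr
  · unfold pz
    ext p
    simp only [mem_filter, mem_Icc, mem_range]
    constructor
    · rintro ⟨h1, h2⟩
      exact ⟨by omega, h2⟩
    · rintro ⟨h1, h2⟩
      exact ⟨⟨h2.pos, by omega⟩, h2⟩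
  · intro p hp
    rw [mem_filter] at hp
    have hpp := hp.2
    by_cases hq : p ∣ q
    · rw [if_neg (not_not.2 hq)]
      have e1 : nuB (QH (Qo q) B) p = 0 := by
        unfold nuB
        rw [Finset.card_eq_zero]
        apply Finset.filter_eq_empty_iff.2
        rintro m _ ⟨t, _, h1, _⟩
        exact h1 hq
      rw [e1]
      norm_num
    · rw [if_pos hq, nuB_QoB q p hpp hq B]

end Pool.Agent.TH464.PO
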