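import Pool.Agent.TH464.PO.ApInst

set_option autoImplicit false

/-!
# The residue classes as the variable: mixed moments
-/

namespace Pool.Agent.TH464.PO

open Finset Filter
open Pool.Agent.W123.RP Pool.Agent.H373R2.T7 Pool.Agent.W123.RU
open Pool.Agent.TH464.PW

/-- `p` divides `m`, and not `q` -/
def Qo (q : ℕ) (p m : ℕ) : Prop := ¬ p ∣ q ∧ p ∣ m

/-- the condition on the residue `n` for the set of the indices `H` -/
def QA (q : ℕ) (H : Finset ℕ) (p n : ℕ) : Prop := (p ∣ q ∧ p ∣ n) ∨ ∃ t ∈ H, p ∣ n + q * t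

lemma nuB_Qo (q p : ℕ) (hp : p.Prime) : nuB (Qo q) p = if p ∣ q then 0 else 1 := by
  classical
  unfold nuB
  by_cases hq : p ∣ q
  · rw [if_pos hq]
    rw [Finset.card_eq_zero]
    apply Finset.filter_eq_empty_iff.2
    intro m _ h
    exact h.1 hq
  · rw [if_neg hq]
    have e : (range p).filter (fun m => Qo q p m) = {0} := by
      ext m
      rw [mem_filter, mem_range, mem_singleton]
      constructor
      · rintro ⟨h1, _, h2⟩
        exact Nat.eq_zero_of_dvd_of_lt h2 h1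
      · rintro rfl
        exact ⟨hp.pos, hq, dvd_zero _⟩
    rw [e, card_singleton]

lemma qo_per (q : ℕ) : PerB (Qo q) 1 := by
  constructor
  · intro p n
    unfold Qo
    rw [Nat.dvd_mod_iff (dvd_refl p)]
  · intro p hp
    rw [nuB_Qo q p hp]
    split_ifs <;> omega

lemma qo_adm (q p : ℕ) (hp : p.Prime) : nuB (Qo q) p < p := by
  rw [nuB_Qo q p hp]
  have := hp.two_le
  split_ifs <;> omega

open Classical in
lemma qo_large (q T y t : ℕ) (ht : 1 ≤ t) (htT : t ≤ T) :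
    ((((pz y).filter (fun p : ℕ => T < p ∧ CoG (Qo q) p t)).card : ℕ) : ℝ) = 0 := by
  rw [Nat.cast_eq_zero, Finset.card_eq_zero, Finset.filter_eq_empty_iff]
  rintro p hp ⟨hp2, m, ⟨_, h1⟩, ⟨_, h2⟩⟩
  have h3 : p ∣ t := (Nat.dvd_add_right h1).1 h2
  have := Nat.le_of_dvd ht h3
  omega

/-- the density -/
lemma V_Qo (q y : ℕ) : Vq (Qo q) y =
    ∏ p ∈ (Finset.range (y + 1)).filter (fun p => p.Prime ∧ ¬ p ∣ q), (1 - 1 / (p : ℝ)) := by
  classical
  rw [← Finset.filter_filter, Finset.prod_filter (fun p => ¬ p ∣ q)]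
  unfold Vq
  apply Finset.prod_congr
  · unfold pz
    ext p
    simp only [mem_filter, mem_Icc, mem_range]
    constructor
    · rintro ⟨h1, h2⟩
      exact ⟨by omega, h2⟩
    · rintro ⟨h1, h2⟩
      exact ⟨⟨h2.pos, by omega⟩, h2⟩
  · intro p hp
    rw [mem_filter] at hp
    rw [nuB_Qo q p hp.2]
    by_cases hq : p ∣ q
    · rw [if_pos hq, if_neg (not_not.2 hq)]
      norm_num
    · rw [if_neg hq, if_pos hq]
      norm_num

/-- the share of the residues prime to `q` -/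
noncomputable def Wq (q y : ℕ) : ℝ := ∏ p ∈ pz y, if p ∣ q then 1 - 1 / (p : ℝ) else 1

lemma Wq_pos (q y : ℕ) : 0 < Wq q y := by
  unfold Wq
  apply Finset.prod_pos
  intro p hp
  have h2 : (2 : ℝ) ≤ p := by exact_mod_cast (mem_pz.1 hp).2.two_le
  split_ifs
  · rw [sub_pos, div_lt_one (by linarith)]
    linarith
  · exact one_pos

lemma Wq_low (q y : ℕ) : Vz y ≤ Wq q y := by
  unfold Wq Vz
  apply Finset.prod_le_prod
  · intro p hp
    have h2 : (2 : ℝ) ≤ p := by exact_mod_cast (mem_pz.1 hp).2.two_le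
    rw [sub_nonneg, div_le_one (by linarith)]
    linarith
  · intro p hp
    have h2 : (2 : ℝ) ≤ p := by exact_mod_cast (mem_pz.1 hp).2.two_le
    split_ifs
    · exact le_rfl
    · have : 0 ≤ 1 / (p : ℝ) := by positivity
      linarith

lemma nuB_QA (q : ℕ) (H : Finset ℕ) (p : ℕ) (hp : p.Prime) :
    nuB (QA q H) p = if p ∣ q then 1 else nuB (QH (Qo q) H) p := by
  classical
  by_cases hq : p ∣ q
  · rw [if_pos hq]
    unfold nuB
    have e : (range p).filter (fun m => QA q H p m) = {0} := by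
      ext m
      rw [mem_filter, mem_range, mem_singleton]
      unfold QA
      constructor
      · rintro ⟨h1, h2⟩
        have h3 : p ∣ m := by
          rcases h2 with h2 | ⟨t, _, h2⟩
          · exact h2.2
          · exact (Nat.dvd_add_left (hq.mul_right t)).1 h2
        exact Nat.eq_zero_of_dvd_of_lt h3 h1
      · rintro rfl
        exact ⟨hp.pos, Or.inl ⟨hq, dvd_zero _⟩⟩
    rw [e, card_singleton]
  · rw [if_neg hq]
    unfold nuB
    symm
    have hcop : Nat.Coprime p q := (Nat.Prime.coprime_iff_not_dvd hp).2 hq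
    apply Finset.card_bij (fun m _ => (q * m) % p)
    · intro m hm
      rw [mem_filter, mem_range] at hm
      rw [mem_filter, mem_range]
      obtain ⟨h1, t, ht, h2⟩ := hm
      refine ⟨Nat.mod_lt _ hp.pos, Or.inr ⟨t, ht, ?_⟩⟩
      have h3 : (q * m) % p + q * t ≡ q * (m + t) [MOD p] := by
        rw [mul_add]
        exact Nat.ModEq.add_right _ (Nat.mod_modEq _ _)
      have h4 : q * (m + t) ≡ 0 [MOD p] := Nat.modEq_zero_iff_dvd.2 (h2.2.mul_left q)
      exact Nat.modEq_zero_iff_dvd.1 (h3.trans h4)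
    · intro m hm n hn hmn
      rw [mem_filter, mem_range] at hm hn
      have h3 : q * m ≡ q * n [MOD p] := hmn
      have h4 : m ≡ n [MOD p] := Nat.ModEq.cancel_left_of_coprime hcop h3
      have h5 : m % p = n % p := h4
      rwa [Nat.mod_eq_of_lt hm.1, Nat.mod_eq_of_lt hn.1] at h5
    · intro n hn
      rw [mem_filter, mem_range] at hn
      obtain ⟨h1, h2⟩ := hn
      have hq' : ¬ (p : ℤ) ∣ (q : ℤ) := by
        rw [Int.natCast_dvd_natCast]
        exact hq
      obtain ⟨m, hm, hd⟩ := exists_root p hp (q : ℤ) (-(n : ℤ)) hq'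
      have h3 : q * m ≡ n [MOD p] := by
        rw [← Int.natCast_modEq_iff]
        apply Int.ModEq.symm
        rw [Int.modEq_iff_dvd]
        have e : ((q * m : ℕ) : ℤ) - n = q * m + -(n : ℤ) := by
          push_cast
          ring
        rw [e]
        exact hd
      refine ⟨m, ?_, ?_⟩
      · rw [mem_filter, mem_range]
        refine ⟨hm, ?_⟩
        rcases h2 with h2 | ⟨t, ht, h2⟩
        · exact absurd h2.1 hq
        · refine ⟨t, ht, hq, ?_⟩
          have h4 : q * (m + t) ≡ n + q * t [MOD p] := by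
            rw [mul_add]
            exact Nat.ModEq.add_right _ h3
          have h5 : q * (m + t) ≡ 0 [MOD p] := h4.trans (Nat.modEq_zero_iff_dvd.2 h2)
          exact hcop.dvd_of_dvd_mul_left (Nat.modEq_zero_iff_dvd.1 h5)
      · have h4 : (q * m) % p = n % p := h3
        change (q * m) % p = n
        rw [h4, Nat.mod_eq_of_lt h1]

lemma qa_per (q : ℕ) (H : Finset ℕ) : PerB (QA q H) (H.card + 1) := by
  constructor
  · intro p n
    unfold QA
    apply or_congr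
    · rw [Nat.dvd_mod_iff (dvd_refl p)]
    · apply exists_congr
      intro t
      apply and_congr_right
      intro _
      have h : n + q * t ≡ n % p + q * t [MOD p] := Nat.ModEq.add_right _ (Nat.mod_modEq _ _).symm
      exact ⟨fun h1 => Nat.modEq_zero_iff_dvd.1 (h.symm.trans (Nat.modEq_zero_iff_dvd.2 h1)),
        fun h1 => Nat.modEq_zero_iff_dvd.1 (h.trans (Nat.modEq_zero_iff_dvd.2 h1))⟩
  · intro p hp
    rw [nuB_QA q H p hp]
    split_ifs
    · omega
    · have := (perB_QH (Qo q) 1 (qo_per q) H).few p hp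
      omega

lemma V_QA (q : ℕ) (H : Finset ℕ) (y : ℕ) : Vq (QA q H) y = Wq q y * Vq (QH (Qo q) H) y := by
  classical
  unfold Vq Wq
  rw [← Finset.prod_mul_distrib]
  apply Finset.prod_congr rfl
  intro p hp
  have hpp := (mem_pz.1 hp).2
  rw [nuB_QA q H p hpp]
  by_cases hq : p ∣ q
  · rw [if_pos hq, if_pos hq]
    have e : nuB (QH (Qo q) H) p = 0 := by
      unfold nuB
      rw [Finset.card_eq_zero]
      apply Finset.filter_eq_empty_iff.2
      rintro m _ ⟨t, _, h1, _⟩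
      exact h1 hq
    rw [e]
    norm_num
  · rw [if_neg hq, if_neg hq, one_mul]

/-- prime to the part of `q` below `y` -/
def Cp (q y n : ℕ) : Prop := ∀ p ∈ pz y, p ∣ q → ¬ p ∣ n

/-- `n + q t` is free of small primes -/
def Fr (q y n t : ℕ) : Prop := ∀ p ∈ pz y, ¬ p ∣ n + q * t

open Classical in
/-- the number of the terms of the progression free of small primes -/
noncomputable def Nr (q y a b n : ℕ) : ℕ :=
  ((Ioc a b).filter (fun t => Fr q y n t)).card

variable {s : ℕ}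

lemma sf_QA (q : ℕ) (H : ∀ _ : Fin s, Finset ℕ) (y n : ℕ) :
    Sf (QA q (Un H)) y n ↔ Cp q y n ∧ ∀ i, ∀ t ∈ H i, Fr q y n t := by
  unfold Sf QA Cp Un Fr
  constructor
  · intro h
    refine ⟨fun p hp h1 h2 => h p hp (Or.inl ⟨h1, h2⟩), fun i t ht p hp h1 => ?_⟩
    exact h p hp (Or.inr ⟨t, mem_biUnion.2 ⟨i, mem_univ _, ht⟩, h1⟩)
  · rintro ⟨h1, h2⟩ p hp (h3 | ⟨t, ht, h3⟩)
    · exact h1 p hp h3.1 h3.2
    · obtain ⟨i, _, hi⟩ := mem_biUnion.1 ht
      exact h2 i t hi p hp h3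

open Classical in
/-- **Mixed binomial moments over the residue classes.** -/
theorem res_moment (k : Fin s → ℕ) (x0 η : ℝ) (hx0 : 1 ≤ x0) (hη : 0 < η) :
    ∃ K0 y0 T0 R0 : ℕ, ∀ Y y T : ℕ, y0 ≤ y → y ^ K0 ≤ Y → T0 ≤ T → T ^ R0 ≤ Y →
      ∀ q Z : ℕ, T * Vq (Qo q) y ≤ x0 →
      ∀ a b : Fin s → ℕ, (∀ i, a i ≤ b i) → (∀ i, b i ≤ T) →
      (∀ i j, i ≠ j → Disjoint (Ioc (a i) (b i)) (Ioc (a j) (b j))) →
      |∑ n ∈ (Icc 1 Y).filter (fun n => Cp q y (n + Z)),
          ∏ i, ((Nr q y (a i) (b i) (n + Z)).choose (k i) : ℝ) -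
        (Y * Wq q y) * ∏ i, ((((b i : ℝ) - a i) * Vq (Qo q) y) ^ (k i) / (k i).factorial)| ≤
          η * (Y * Wq q y) := by
  obtain ⟨S, hS⟩ : ∃ S, S = ∑ i, k i := ⟨_, rfl⟩
  obtain ⟨X, hX⟩ : ∃ X : ℝ, X = x0 ^ S := ⟨_, rfl⟩
  have hX1 : 1 ≤ X := by rw [hX]; exact one_le_pow₀ hx0
  obtain ⟨η1, hη1⟩ : ∃ η1 : ℝ, η1 = min 1 (η / (4 * X)) := ⟨_, rfl⟩
  have hη10 : 0 < η1 := by rw [hη1]; positivity
  have hη11 : η1 ≤ 1 := by rw [hη1]; exact min_le_left _ _
  have hη12 : η1 * X ≤ η / 4 := by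
    have : η1 ≤ η / (4 * X) := by rw [hη1]; exact min_le_right _ _
    rw [le_div_iff₀ (by positivity)] at this
    linarith
  -- the singular sums
  have hsing : ∃ (w T0 : ℕ), ∀ T : ℕ, T0 ≤ T → ∀ q y : ℕ, w ≤ y →
      ∀ a b : Fin s → ℕ, (∀ i, a i ≤ b i) → (∀ i, b i ≤ T) →
      (∀ i j, i ≠ j → Disjoint (Ioc (a i) (b i)) (Ioc (a j) (b j))) →
      |∑ H ∈ Fam (fun i => Ioc (a i) (b i)) k, Vq (QH (Qo q) (Un H)) y -
        ∏ i, ((((b i : ℝ) - a i) * Vq (Qo q) y) ^ (k i) / (k i).factorial)| ≤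
        η1 * (T * Vq (Qo q) y) ^ S := by
    rcases Nat.eq_zero_or_pos S with hS0 | hS0
    · refine ⟨1, 1, ?_⟩
      intro T _ q y _ a b _ _ _
      have hz : ∀ i, k i = 0 := fun i =>
        (Finset.sum_eq_zero_iff.1 (hS.symm.trans hS0)) i (mem_univ i)
      have e1 : Fam (fun i => Ioc (a i) (b i)) k = {fun _ => ∅} := by
        ext H
        rw [mem_Fam, mem_singleton]
        constructor
        · intro h
          funext i
          have := (h i).2
          rw [hz i, Finset.card_eq_zero] at this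
          exact this
        · rintro rfl i
          exact ⟨Finset.empty_subset _, by rw [hz i, card_empty]⟩
      have e2 : Vq (QH (Qo q) (Un (fun _ : Fin s => (∅ : Finset ℕ)))) y = 1 := by
        unfold Vq
        apply Finset.prod_eq_one
        intro p _
        have : nuB (QH (Qo q) (Un (fun _ : Fin s => (∅ : Finset ℕ)))) p = 0 := by
          unfold nuB
          rw [Finset.card_eq_zero]
          apply Finset.filter_eq_empty_iff.2
          rintro m _ ⟨t, ht, _⟩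
          unfold Un at ht
          rw [mem_biUnion] at ht
          obtain ⟨_, _, ht⟩ := ht
          exact absurd ht (Finset.notMem_empty _)
        rw [this]
        norm_num
      have e3 : ∏ i, ((((b i : ℝ) - a i) * Vq (Qo q) y) ^ (k i) / ((k i).factorial : ℝ)) = 1 := by
        apply Finset.prod_eq_one
        intro i _
        rw [hz i]
        simp
      rw [e1, Finset.sum_singleton, e2, e3, sub_self, abs_zero, hS0, pow_zero, mul_one]
      exact hη10.le
    · obtain ⟨w, η', T0, hη', h⟩ := sing_multi 1 k (by rw [← hS]; exact hS0) η1 hη10 hη11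
      refine ⟨w, T0, ?_⟩
      intro T hT q y hy a b hab hbT hdis
      have := h T hT (Qo q) (qo_per q) (fun p hp => qo_adm q p hp) y hy (fun t ht => by
        rw [mem_Icc] at ht
        rw [qo_large q T y t ht.1 ht.2]
        positivity) a b hab hbT hdis
      rw [← hS] at this
      exact this
  obtain ⟨w, T1, hsing⟩ := hsing
  obtain ⟨K0, y0, _, hfund⟩ := sys_fund (S + 1) (by omega) (η / (8 * X)) (by positivity)
  obtain ⟨c, C, hc, _, hVz⟩ := Vz_bounds
  obtain ⟨y1, hy1⟩ : ∃ y1 : ℕ, (4 / (η * c)) ^ 4 ≤ y1 := exists_nat_ge _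
  refine ⟨K0 + 8, y0 + y1 + w + 2, T1 + 1, 8 * (S + 1), ?_⟩
  intro Y y T hy hyY hT hTR q Z hx a b hab hbT hdis
  have hy1' : 1 ≤ y := by omega
  have hyK : y ^ K0 ≤ Y := (Nat.pow_le_pow_right hy1' (by omega)).trans hyY
  have hy8 : y ^ 8 ≤ Y := (Nat.pow_le_pow_right hy1' (by omega)).trans hyY
  have hyY' : y ≤ Y := by
    calc y = y ^ 1 := (pow_one y).symm
      _ ≤ y ^ (K0 + 8) := Nat.pow_le_pow_right hy1' (by omega)
      _ ≤ Y := hyY
  have hT1 : 1 ≤ T := by omega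
  have hY1 : (4 / (η * c)) ^ 4 ≤ (Y : ℝ) := hy1.trans (by exact_mod_cast (by omega : y1 ≤ Y))
  have hYpos : (0 : ℝ) < Y := lt_of_lt_of_le (by positivity) hY1
  have hV0 := Vq_nonneg (Qo q) y
  have hTV0 : 0 ≤ T * Vq (Qo q) y := mul_nonneg (Nat.cast_nonneg _) hV0
  have s1 := hsing T (by omega) q y (by omega) a b hab hbT hdis
  have hTX : (T * Vq (Qo q) y) ^ S ≤ X := by
    rw [hX]
    exact pow_le_pow_left₀ hTV0 hx S
  obtain ⟨P, hP⟩ : ∃ P : ℝ, P = ∏ i, ((((b i : ℝ) - a i) * Vq (Qo q) y) ^ (k i) / (k i).factorial) :=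
    ⟨_, rfl⟩
  obtain ⟨Sg, hSg⟩ : ∃ x : ℝ, x = ∑ H ∈ Fam (fun i => Ioc (a i) (b i)) k, Vq (QH (Qo q) (Un H)) y :=
    ⟨_, rfl⟩
  rw [← hP, ← hSg] at s1
  rw [← hP]
  have s2 : |Sg - P| ≤ η / 4 := s1.trans ((mul_le_mul_of_nonneg_left hTX hη10.le).trans hη12)
  have hPX : P ≤ X := by
    rw [hP]
    refine le_trans ?_ hTX
    rw [hS]
    apply prod_le_pow
    · intro i
      have : (a i : ℝ) ≤ b i := by exact_mod_cast hab i
      exact mul_nonneg (by linarith) hV0
    · intro i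
      apply mul_le_mul_of_nonneg_right _ hV0
      have h1 : (b i : ℝ) ≤ T := by exact_mod_cast hbT i
      have h2 : (0 : ℝ) ≤ a i := Nat.cast_nonneg _
      linarith
  have hSX : Sg ≤ 2 * X := by
    have h1 := (abs_le.1 s1).2
    have h2 : η1 * (T * Vq (Qo q) y) ^ S ≤ 1 * X := mul_le_mul hη11 hTX (by positivity) (by norm_num)
    linarith
  obtain ⟨W, hW⟩ : ∃ W, W = Wq q y := ⟨_, rfl⟩
  have hW0 : 0 < W := by rw [hW]; exact Wq_pos q y
  rw [← hW]
  -- the fundamental lemma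
  have e0 : ∑ n ∈ (Icc 1 Y).filter (fun n => Cp q y (n + Z)),
      ∏ i, ((Nr q y (a i) (b i) (n + Z)).choose (k i) : ℝ) =
      ∑ H ∈ Fam (fun i => Ioc (a i) (b i)) k,
        (((Icc 1 Y).filter (fun n => Sf (Qt (QA q (Un H)) Z) y n)).card : ℝ) := by
    have h1 := fam_choose ((Icc 1 Y).filter (fun n => Cp q y (n + Z)))
      (fun m t => Fr q y (m + Z) t) (fun i => Ioc (a i) (b i)) k
    unfold Nr
    rw [h1]
    apply Finset.sum_congr rfl
    intro H _
    congr 2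
    rw [Finset.filter_filter]
    apply Finset.filter_congr
    intro m _
    rw [sf_Qt]
    exact (sf_QA q H y (m + Z)).symm
  rw [e0]
  have hYW0 : 0 ≤ Y * W := by positivity
  have h1 : |∑ H ∈ Fam (fun i => Ioc (a i) (b i)) k,
      (((Icc 1 Y).filter (fun n => Sf (Qt (QA q (Un H)) Z) y n)).card : ℝ) - (Y * W) * Sg| ≤
      η / (8 * X) * ((Y * W) * Sg) + T ^ S * √(Y : ℝ) := by
    have e : (Y * W) * Sg = ∑ H ∈ Fam (fun i => Ioc (a i) (b i)) k,
        (Y : ℝ) * (W * Vq (QH (Qo q) (Un H)) y) := by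
      rw [hSg, Finset.mul_sum]
      apply Finset.sum_congr rfl
      intro H _
      ring
    rw [e, ← Finset.sum_sub_distrib]
    refine (Finset.abs_sum_le_sum_abs _ _).trans ?_
    have h2 : ∀ H ∈ Fam (fun i => Ioc (a i) (b i)) k,
        |(((Icc 1 Y).filter (fun n => Sf (Qt (QA q (Un H)) Z) y n)).card : ℝ) -
          Y * (W * Vq (QH (Qo q) (Un H)) y)| ≤
        η / (8 * X) * (Y * (W * Vq (QH (Qo q) (Un H)) y)) + √(Y : ℝ) := by
      intro H hH
      have hper := qa_per q (Un H)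
      rw [Un_card _ hdis k H hH, ← hS] at hper
      have h3 := hfund Y y (by omega) hyK (Qt (QA q (Un H)) Z) (perB_Qt _ _ hper Z) Y
      have e1 : ∏ p ∈ pz y, (1 - (nuB (Qt (QA q (Un H)) Z) p : ℝ) / p) =
          W * Vq (QH (Qo q) (Un H)) y := by
        have e2 : ∏ p ∈ pz y, (1 - (nuB (Qt (QA q (Un H)) Z) p : ℝ) / p) =
          Vq (Qt (QA q (Un H)) Z) y := rfl
        rw [e2, Vq_Qt _ _ hper, V_QA, hW]
      rw [e1] at h3
      unfold Sf
      convert h3
    refine (Finset.sum_le_sum h2).trans ?_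
    rw [Finset.sum_add_distrib, ← Finset.mul_sum, Finset.sum_const, nsmul_eq_mul]
    have h3 : ((Fam (fun i => Ioc (a i) (b i)) k).card : ℝ) ≤ (T : ℝ) ^ S := by
      have h4 := sum_fam_le (fun i => Ioc (a i) (b i)) hdis T (by
        intro i x hx
        rw [mem_Ioc] at hx
        rw [mem_Icc]
        have := hbT i
        omega) k (fun _ => 1) (fun _ => zero_le_one)
      rw [Finset.sum_const, Finset.sum_const, nsmul_eq_mul, nsmul_eq_mul, mul_one, mul_one, ← hS,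
        card_powersetCard, Nat.card_Icc, Nat.add_sub_cancel] at h4
      refine h4.trans ?_
      exact_mod_cast Nat.choose_le_pow T S
    have h4 := mul_le_mul_of_nonneg_right h3 (Real.sqrt_nonneg (Y : ℝ))
    linarith
  -- the error term
  have hTr1 : (1 : ℝ) ≤ T := by exact_mod_cast hT1
  have hyr1 : (2 : ℝ) ≤ y := by exact_mod_cast (by omega : 2 ≤ y)
  obtain ⟨ρ, hρ⟩ : ∃ ρ : ℝ, ρ = √(√(√(Y : ℝ))) := ⟨_, rfl⟩
  have hρ0 : 0 ≤ ρ := by rw [hρ]; exact Real.sqrt_nonneg _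
  have hρ2 : ρ ^ 2 = √(√(Y : ℝ)) := by rw [hρ]; exact Real.sq_sqrt (Real.sqrt_nonneg _)
  have hρ4 : ρ ^ 4 = √(Y : ℝ) := by
    rw [show ρ ^ 4 = (ρ ^ 2) ^ 2 by ring, hρ2]
    exact Real.sq_sqrt (Real.sqrt_nonneg _)
  have hρ8 : ρ ^ 8 = Y := by
    rw [show ρ ^ 8 = (ρ ^ 4) ^ 2 by ring, hρ4]
    exact Real.sq_sqrt hYpos.le
  have hTρ : (T : ℝ) ^ S ≤ ρ := by
    have h2 : ((T : ℝ) ^ S) ^ 8 ≤ ρ ^ 8 := by
      rw [hρ8, ← pow_mul]
      calc (T : ℝ) ^ (S * 8) ≤ (T : ℝ) ^ (8 * (S + 1)) := pow_le_pow_right₀ hTr1 (by omega)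
        _ ≤ Y := by exact_mod_cast hTR
    exact le_of_pow_le_pow_left₀ (by norm_num) hρ0 h2
  have hyρ : (y : ℝ) ≤ ρ := by
    have h2 : (y : ℝ) ^ 8 ≤ ρ ^ 8 := by
      rw [hρ8]
      exact_mod_cast hy8
    exact le_of_pow_le_pow_left₀ (by norm_num) hρ0 h2
  have hρc : 4 / (η * c) ≤ ρ ^ 2 := by
    have h2 : (4 / (η * c)) ^ 4 ≤ (ρ ^ 2) ^ 4 := by
      rw [show (ρ ^ 2) ^ 4 = ρ ^ 8 by ring, hρ8]
      exact hY1
    exact le_of_pow_le_pow_left₀ (by norm_num) (by positivity) h2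
  have hWlow : c ≤ W * y := by
    have h2 := (hVz y (by omega)).1
    have h3 := Wq_low q y
    rw [← hW] at h3
    have hlogy : 0 < Real.log y := Real.log_pos (by linarith)
    have h4 : Real.log y ≤ y := (Real.log_le_sub_one_of_pos (by linarith)).trans (by linarith)
    have h5 : c ≤ W * Real.log y := by
      have := h2.trans h3
      rwa [div_le_iff₀ hlogy] at this
    exact h5.trans (mul_le_mul_of_nonneg_left h4 hW0.le)
  have hTY : (T : ℝ) ^ S * √(Y : ℝ) ≤ η / 4 * (Y * W) := by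
    rw [← hρ4, ← hρ8]
    have h2 : 4 ≤ ρ ^ 2 * (η * c) := by rwa [div_le_iff₀ (by positivity)] at hρc
    have h3 : ρ ^ 2 * (η * c) ≤ ρ ^ 2 * (η * (W * ρ)) := by
      have : c ≤ W * ρ := hWlow.trans (mul_le_mul_of_nonneg_left hyρ hW0.le)
      gcongr
    have h4 : 4 ≤ ρ ^ 2 * (η * (W * ρ)) := h2.trans h3
    calc (T : ℝ) ^ S * ρ ^ 4 ≤ ρ * ρ ^ 4 := by gcongr
      _ = ρ ^ 5 / 4 * 4 := by ring
      _ ≤ ρ ^ 5 / 4 * (ρ ^ 2 * (η * (W * ρ))) := by gcongr
      _ = η / 4 * (ρ ^ 8 * W) := by ring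
  have h5 : |(Y * W) * Sg - (Y * W) * P| ≤ η / 4 * (Y * W) := by
    rw [← mul_sub, abs_mul, abs_of_nonneg hYW0]
    calc (Y * W) * |Sg - P| ≤ (Y * W) * (η / 4) := mul_le_mul_of_nonneg_left s2 hYW0
      _ = _ := mul_comm _ _
  have h6 : η / (8 * X) * ((Y * W) * Sg) ≤ η / 4 * (Y * W) := by
    calc η / (8 * X) * ((Y * W) * Sg) ≤ η / (8 * X) * ((Y * W) * (2 * X)) := by gcongr
      _ = η / 4 * (Y * W) := by
        field_simp
        ring
  refine (abs_sub_le _ ((Y * W) * Sg) _).trans ?_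
  have h7 : 0 ≤ η * (Y * W) := by positivity
  linarith

end Pool.Agent.TH464.PO
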