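import Pool.Agent.TH464.PO.LawE
import Pool.Agent.TH464.PO.Poly

set_option autoImplicit false

/-!
# Patterns of shifts
-/

namespace Pool.Agent.TH464.PO

open Finset Filter Pool.Agent.H373R2.T7 Pool.Agent.W123.RP Pool.Agent.W123.RU
open Pool.Agent.TH464.PW

/-- `p` divides one of the `m + s`, `s ∈ P` -/
def QS (P : Finset ℕ) (p m : ℕ) : Prop := ∃ s ∈ P, p ∣ m + s

/-- admissible pattern -/
def AdP (P : Finset ℕ) : Prop := ∀ p : ℕ, p.Prime → ∃ m : ℕ, ∀ s ∈ P, ¬ p ∣ m + s

lemma dvd_mod (p n s : ℕ) : p ∣ n + s ↔ p ∣ n % p + s := by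
  rw [Nat.dvd_iff_mod_eq_zero, Nat.dvd_iff_mod_eq_zero, Nat.mod_add_mod]

open Classical in
lemma card_root1 (p : ℕ) (s : ℕ) : ((range p).filter (fun r : ℕ => p ∣ r + s)).card ≤ 1 := by
  rw [Finset.card_le_one]
  intro a ha b hb
  rw [mem_filter, mem_range] at ha hb
  have h1 : a + s ≡ b + s [MOD p] := by
    have h2 := (Nat.modEq_zero_iff_dvd).2 ha.2
    have h3 := (Nat.modEq_zero_iff_dvd).2 hb.2
    exact h2.trans h3.symm
  have h2 : a ≡ b [MOD p] := Nat.ModEq.add_right_cancel' s h1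
  have h3 : a % p = b % p := h2
  rwa [Nat.mod_eq_of_lt ha.1, Nat.mod_eq_of_lt hb.1] at h3

lemma qs_perB (P : Finset ℕ) : PerB (QS P) P.card := by
  classical
  refine ⟨fun p n => ?_, fun p hp => ?_⟩
  · unfold QS
    apply exists_congr
    intro s
    rw [dvd_mod]
  · unfold nuB
    have h1 : (range p).filter (fun r => QS P p r) ⊆
        P.biUnion (fun s => (range p).filter (fun r : ℕ => p ∣ r + s)) := by
      intro r hr
      rw [mem_filter] at hr
      obtain ⟨hr1, s, hs, hi⟩ := hr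
      rw [mem_biUnion]
      exact ⟨s, hs, mem_filter.2 ⟨hr1, hi⟩⟩
    refine (card_le_card h1).trans (card_biUnion_le.trans ?_)
    refine (Finset.sum_le_sum fun s _ => card_root1 p s).trans ?_
    simp

lemma qs_adm (P : Finset ℕ) (h : AdP P) (p : ℕ) (hp : p.Prime) : nuB (QS P) p < p := by
  classical
  obtain ⟨m, hm⟩ := h p hp
  unfold nuB
  have hlt : (range p).filter (fun r => QS P p r) ⊂ range p := by
    rw [Finset.ssubset_iff_of_subset (filter_subset _ _)]
    refine ⟨m % p, mem_range.2 (Nat.mod_lt _ hp.pos), ?_⟩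
    rw [mem_filter, not_and]
    rintro - ⟨s, hs, hi⟩
    exact hm s hs ((dvd_mod p m s).2 hi)
  have := card_lt_card hlt
  rwa [card_range] at this

/-- a root -/
lemma root1 (p : ℕ) (hp : 0 < p) (s : ℕ) : ∃ r < p, p ∣ r + s := by
  refine ⟨(p - s % p) % p, Nat.mod_lt _ hp, ?_⟩
  rw [← dvd_mod]
  have h1 := Nat.mod_add_div s p
  have h2 := Nat.mod_lt s hp
  have e : p - s % p + s = p * (1 + s / p) := by
    rw [mul_add, mul_one]
    omega
  rw [e]
  exact dvd_mul_right _ _

lemma qs_two (P : Finset ℕ) (a b : ℕ) (ha : a ∈ P) (hb : b ∈ P) (hab : a < b) (p : ℕ) (hp : p.Prime)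
    (hD : ¬ p ∣ b - a) : 2 ≤ nuB (QS P) p := by
  classical
  obtain ⟨r, hr1, hr2⟩ := root1 p hp.pos a
  obtain ⟨r', hr1', hr2'⟩ := root1 p hp.pos b
  have hne : r ≠ r' := by
    rintro rfl
    apply hD
    have := (Nat.dvd_sub hr2' hr2)
    have e : r + b - (r + a) = b - a := by omega
    rwa [e] at this
  unfold nuB
  have hsub : ({r, r'} : Finset ℕ) ⊆ (range p).filter (fun r => QS P p r) := by
    intro x hx
    rw [mem_insert, mem_singleton] at hx
    rw [mem_filter, mem_range]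
    rcases hx with rfl | rfl
    · exact ⟨hr1, a, ha, hr2⟩
    · exact ⟨hr1', b, hb, hr2'⟩
  have := card_le_card hsub
  rwa [card_pair hne] at this

/-- the exceptional differences -/
def exE (P : Finset ℕ) : Finset ℕ :=
  (P ×ˢ (P ×ˢ (P ×ˢ P))).image (fun x => x.1 + x.2.1 - (x.2.2.1 + x.2.2.2))

lemma exE_card (P : Finset ℕ) : (exE P).card ≤ P.card ^ 4 := by
  unfold exE
  refine card_image_le.trans (le_of_eq ?_)
  rw [card_product, card_product, card_product]
  ring

lemma mem_exE (P : Finset ℕ) (c d a b t : ℕ) (hc : c ∈ P) (hd : d ∈ P) (ha : a ∈ P) (hb : b ∈ P)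
    (h : t + (a + b) = c + d) : t ∈ exE P := by
  unfold exE
  rw [mem_image]
  refine ⟨(c, (d, (a, b))), ?_, ?_⟩
  · rw [mem_product, mem_product, mem_product]
    exact ⟨hc, hd, ha, hb⟩
  · simp only
    omega

/-- a new point gives a new root -/
lemma uncovered (P H : Finset ℕ) (hP : P.Nonempty) (hH : NE (exE P) H) (b : ℕ) (hb : b ∉ H) :
    ∃ s ∈ P, ∀ h ∈ H, ∀ s' ∈ P, b + s ≠ h + s' := by
  by_contra hcon
  push Not at hcon
  obtain ⟨h1, hh1, s1', hs1', e1⟩ := hcon (P.max' hP) (P.max'_mem hP)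
  obtain ⟨h2, hh2, s2', hs2', e2⟩ := hcon (P.min' hP) (P.min'_mem hP)
  have m1 := P.le_max' s1' hs1'
  have m2 := P.min'_le s2' hs2'
  have n1 : h1 ≠ b := fun h => hb (h ▸ hh1)
  have n2 : h2 ≠ b := fun h => hb (h ▸ hh2)
  have hlt : h2 < h1 := by omega
  apply hH h2 hh2 h1 hh1 hlt
  exact mem_exE P (P.max' hP) s2' s1' (P.min' hP) (h1 - h2) (P.max'_mem hP) hs2' hs1' (P.min'_mem hP)
    (by omega)

open Classical in
/-- few large primes divide a collision -/
lemma qs_large (P : Finset ℕ) (B : ℕ) (hB : 1 ≤ B) (hP : ∀ s ∈ P, s ≤ B) (T y t : ℕ) (ht : 1 ≤ t)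
    (htT : t ≤ T) (htE : t ∉ exE P) :
    ((((pz y).filter (fun p : ℕ => T < p ∧ CoG (QS P) p t)).card : ℕ) : ℝ) ≤
      2 * P.card ^ 2 * Real.log (2 * B * T) := by
  obtain ⟨e, he⟩ : ∃ e : ℕ × ℕ → ℕ, e = fun ij => ((t : ℤ) + ij.2 - ij.1).natAbs := ⟨_, rfl⟩
  have hne : ∀ ij ∈ P ×ˢ P, e ij ≠ 0 := by
    intro ij hij
    rw [mem_product] at hij
    rw [he]
    apply Int.natAbs_ne_zero.2
    intro h0
    apply htE
    exact mem_exE P ij.1 ij.2 ij.2 ij.2 t hij.1 hij.2 hij.2 hij.2 (by omega)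
  have hE : ∏ ij ∈ P ×ˢ P, e ij ≠ 0 := Finset.prod_ne_zero_iff.2 hne
  have hle : ∀ ij ∈ P ×ˢ P, e ij ≤ 2 * B * T := by
    intro ij hij
    rw [mem_product] at hij
    have h1 := hP ij.1 hij.1
    have h2 := hP ij.2 hij.2
    have h3 : B + T ≤ 2 * B * T := by nlinarith
    rw [he]
    simp only
    omega
  have hcard := card_le_log ((pz y).filter (fun p : ℕ => T < p ∧ CoG (QS P) p t)) _ hE (fun p hp => by
    rw [mem_filter] at hp
    obtain ⟨hp1, hp2, m, ⟨i, hi, hi'⟩, ⟨j, hj, hj'⟩⟩ := hp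
    have hpp := (mem_pz.1 hp1).2
    refine ⟨hpp, ?_⟩
    have h1 : (p : ℤ) ∣ (t : ℤ) + j - i := by
      have h2 : (p : ℤ) ∣ ((m + t + j : ℕ) : ℤ) := Int.natCast_dvd_natCast.2 hj'
      have h3 : (p : ℤ) ∣ ((m + i : ℕ) : ℤ) := Int.natCast_dvd_natCast.2 hi'
      have := dvd_sub h2 h3
      have e : ((m + t + j : ℕ) : ℤ) - ((m + i : ℕ) : ℤ) = (t : ℤ) + j - i := by
        push_cast
        ring
      rwa [e] at this
    have h2 : p ∣ e (i, j) := by
      rw [he]
      exact Int.natCast_dvd.1 h1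
    exact h2.trans (Finset.dvd_prod_of_mem _ (by rw [mem_product]; exact ⟨hi, hj⟩)))
  have hT1 : 1 ≤ T := by omega
  have hpos : (1 : ℝ) ≤ 2 * B * T := by
    have : 1 ≤ 2 * B * T := by nlinarith
    exact_mod_cast this
  have hlog : Real.log ((∏ ij ∈ P ×ˢ P, e ij : ℕ) : ℝ) ≤ P.card ^ 2 * Real.log (2 * B * T) := by
    have h1 : ∏ ij ∈ P ×ˢ P, e ij ≤ (2 * B * T) ^ (P ×ˢ P).card := Finset.prod_le_pow_card _ _ _ hle
    rw [card_product, ← pow_two] at h1
    have h3 : ((∏ ij ∈ P ×ˢ P, e ij : ℕ) : ℝ) ≤ (2 * B * T : ℝ) ^ (P.card ^ 2) := by exact_mod_cast h1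
    have h4 : (0 : ℝ) < ((∏ ij ∈ P ×ˢ P, e ij : ℕ) : ℝ) := by exact_mod_cast Nat.pos_of_ne_zero hE
    have h5 := Real.log_le_log h4 h3
    rw [Real.log_pow] at h5
    push_cast at h5 ⊢
    exact h5
  have hl2 := Real.log_two_gt_d9
  have hc0 : (0 : ℝ) ≤ ((((pz y).filter (fun p : ℕ => T < p ∧ CoG (QS P) p t)).card : ℕ) : ℝ) :=
    Nat.cast_nonneg _
  nlinarith

open Classical in
/-- the product over the primes not dividing `D` -/
theorem one_upper : ∃ C : ℝ, 0 < C ∧ ∀ D : ℕ, D ≠ 0 → ∀ z y : ℕ, 2 ≤ z → z ≤ y → Real.log D ≤ z →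
    ∏ p ∈ (pz y).filter (fun p => ¬ p ∣ D), (1 - 1 / (p : ℝ)) ≤ C * (Real.log z / Real.log y) := by
  obtain ⟨c, C, hc, hC, hV⟩ := Vz_bounds
  refine ⟨Real.exp 4 * (C / c), by positivity, ?_⟩
  intro D hD z y hz hzy hDz
  have hz0 : (0 : ℝ) < z := by exact_mod_cast (by omega : 0 < z)
  have hfac : ∀ p ∈ pz y, (0 : ℝ) < 1 - 1 / (p : ℝ) := by
    intro p hp
    have : (2 : ℝ) ≤ p := by exact_mod_cast (mem_pz.1 hp).2.two_le
    rw [sub_pos, div_lt_one (by linarith)]
    linarith
  have hfac1 : ∀ p ∈ pz y, 1 - 1 / (p : ℝ) ≤ 1 := by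
    intro p _
    have : 0 ≤ 1 / (p : ℝ) := by positivity
    linarith
  obtain ⟨E, hE⟩ : ∃ E : ℝ, E = ∏ p ∈ (pz y).filter (fun p => z < p ∧ p ∣ D), (1 - 1 / (p : ℝ)) :=
    ⟨_, rfl⟩
  obtain ⟨F, hF⟩ : ∃ F : ℝ, F = ∏ p ∈ (pz y).filter (fun p => ¬ p ∣ D), (1 - 1 / (p : ℝ)) := ⟨_, rfl⟩
  rw [← hF]
  have hF0 : 0 ≤ F := by
    rw [hF]
    exact Finset.prod_nonneg fun p hp => (hfac p (mem_filter.1 hp).1).le
  have hprod : F * (Vz z * E) ≤ Vz y := by
    have e1 : Vz z = ∏ p ∈ (pz y).filter (fun p => p ≤ z), (1 - 1 / (p : ℝ)) := by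
      unfold Vz
      apply Finset.prod_congr _ (fun _ _ => rfl)
      ext p
      rw [mem_filter, mem_pz, mem_pz]
      constructor
      · rintro ⟨h1, h2⟩
        exact ⟨⟨by omega, h2⟩, h1⟩
      · rintro ⟨⟨_, h2⟩, h1⟩
        exact ⟨h1, h2⟩
    rw [e1, hE, hF, Finset.prod_filter, Finset.prod_filter, Finset.prod_filter,
      ← Finset.prod_mul_distrib, ← Finset.prod_mul_distrib]
    unfold Vz
    apply Finset.prod_le_prod
    · intro p hp
      have h4 := hfac p hp
      split_ifs <;> positivity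
    · intro p hp
      have h4 := hfac p hp
      have h5 := hfac1 p hp
      by_cases ha : p ≤ z
      · rw [if_pos ha, if_neg (by omega : ¬ (z < p ∧ p ∣ D)), mul_one]
        split_ifs
        · rw [one_mul]
        · exact mul_le_of_le_one_left h4.le h5
      · rw [if_neg ha]
        by_cases hb : p ∣ D
        · rw [if_neg (not_not.2 hb), if_pos ⟨by omega, hb⟩, one_mul, one_mul]
        · rw [if_pos hb, if_neg (fun h => hb h.2), mul_one, mul_one]
  have hEpos : 0 < E := by
    rw [hE]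
    exact Finset.prod_pos fun p hp => hfac p (mem_filter.1 hp).1
  have hElow : Real.exp (-4) ≤ E := by
    have hcard : (((pz y).filter (fun p => z < p ∧ p ∣ D)).card : ℝ) ≤ 2 * z := by
      have h3 := card_le_log ((pz y).filter (fun p => z < p ∧ p ∣ D)) D hD (fun p hp => by
        rw [mem_filter, mem_pz] at hp
        exact ⟨hp.1.2, hp.2.2⟩)
      have h4 := Real.log_two_gt_d9
      have h5 : (0 : ℝ) ≤ (((pz y).filter (fun p => z < p ∧ p ∣ D)).card : ℝ) := Nat.cast_nonneg _
      nlinarith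
    calc Real.exp (-4) ≤ Real.exp (-(2 / z)) ^ ((pz y).filter (fun p => z < p ∧ p ∣ D)).card := by
          rw [← Real.exp_nat_mul]
          apply Real.exp_le_exp.2
          have : (((pz y).filter (fun p => z < p ∧ p ∣ D)).card : ℝ) * (2 / z) ≤ 4 := by
            rw [← mul_div_assoc, div_le_iff₀ hz0]
            linarith
          linarith
      _ = ∏ p ∈ (pz y).filter (fun p => z < p ∧ p ∣ D), Real.exp (-(2 / z)) := by
          rw [Finset.prod_const]
      _ ≤ E := by
          rw [hE]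
          apply Finset.prod_le_prod
          · intro p _
            exact (Real.exp_pos _).le
          · intro p hp
            rw [mem_filter] at hp
            have h3 := hfac p hp.1
            have hp2 : (2 : ℝ) ≤ p := by exact_mod_cast (mem_pz.1 hp.1).2.two_le
            have hzp : (z : ℝ) ≤ p := by exact_mod_cast hp.2.1.le
            have hp0 : (0 : ℝ) < p := by linarith
            have h4 : 1 + 2 / (p : ℝ) ≤ Real.exp (2 / p) := by
              have := Real.add_one_le_exp (2 / (p : ℝ))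
              linarith
            have h5 : 1 ≤ (1 - 1 / (p : ℝ)) * Real.exp (2 / p) := by
              have h6 : 1 ≤ (1 - 1 / (p : ℝ)) * (1 + 2 / p) := by
                have e : (1 - 1 / (p : ℝ)) * (1 + 2 / p) = 1 + (p - 2) / p ^ 2 := by
                  field_simp
                  ring
                rw [e]
                have : 0 ≤ ((p : ℝ) - 2) / p ^ 2 := div_nonneg (by linarith) (by positivity)
                linarith
              exact h6.trans (mul_le_mul_of_nonneg_left h4 h3.le)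
            have h6 : Real.exp (-(2 / p)) ≤ 1 - 1 / (p : ℝ) := by
              rw [Real.exp_neg, inv_eq_one_div, div_le_iff₀ (Real.exp_pos _)]
              exact h5
            calc Real.exp (-(2 / z)) ≤ Real.exp (-(2 / p)) := by
                  apply Real.exp_le_exp.2
                  apply neg_le_neg
                  gcongr
              _ ≤ 1 - 1 / (p : ℝ) := h6
  have hlz : 0 < Real.log z := Real.log_pos (by exact_mod_cast (by omega : 1 < z))
  have hly : 0 < Real.log y := Real.log_pos (by exact_mod_cast (by omega : 1 < y))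
  have hz1 := (hV z hz).1
  have hy1 := (hV y (by omega)).2
  have hVz0 : 0 ≤ Vz z := (by positivity : 0 ≤ c / Real.log z).trans hz1
  have h3 : F * ((c / Real.log z) * Real.exp (-4)) ≤ C / Real.log y := by
    calc F * ((c / Real.log z) * Real.exp (-4)) ≤ F * (Vz z * E) := by gcongr
      _ ≤ Vz y := hprod
      _ ≤ C / Real.log y := hy1
  have he : Real.exp (-4) * Real.exp 4 = 1 := by rw [← Real.exp_add]; simp
  have e5 : F = F * ((c / Real.log z) * Real.exp (-4)) * (Real.exp 4 * (Real.log z / c)) := by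
    have : (c / Real.log z) * Real.exp (-4) * (Real.exp 4 * (Real.log z / c)) =
        (Real.exp (-4) * Real.exp 4) * ((c / Real.log z) * (Real.log z / c)) := by ring
    rw [mul_assoc, this, he]
    field_simp
  rw [e5]
  calc _ ≤ (C / Real.log y) * (Real.exp 4 * (Real.log z / c)) := by gcongr
    _ = _ := by
      field_simp

open Classical in
/-- the factor for a new root -/
lemma qs_fac (P H : Finset ℕ) (b s : ℕ) (hs : s ∈ P) (D : ℕ)
    (hD : ∀ h ∈ H, ∀ s' ∈ P, ((b : ℤ) + s - (h + s')).natAbs ∣ D) (y : ℕ) :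
    Vq (QH (QS P) (insert b H)) y ≤
      Vq (QH (QS P) H) y * ∏ p ∈ (pz y).filter (fun p => ¬ p ∣ D), (1 - 1 / (p : ℝ)) := by
  unfold Vq
  rw [Finset.prod_filter, ← Finset.prod_mul_distrib]
  apply Finset.prod_le_prod
  · intro p hp
    exact one_sub_nonneg _ p (mem_pz.1 hp).2
  · intro p hp
    have hpp := (mem_pz.1 hp).2
    have hp0 : (0 : ℝ) < p := by exact_mod_cast hpp.pos
    have hle : nuB (QH (QS P) H) p ≤ nuB (QH (QS P) (insert b H)) p := by
      unfold nuB
      apply card_le_card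
      intro a ha
      rw [mem_filter] at ha ⊢
      obtain ⟨h1, h, hh, h2⟩ := ha
      exact ⟨h1, h, mem_insert_of_mem hh, h2⟩
    by_cases hpD : p ∣ D
    · rw [if_neg (not_not.2 hpD), mul_one]
      have h2 : (nuB (QH (QS P) H) p : ℝ) ≤ nuB (QH (QS P) (insert b H)) p := by exact_mod_cast hle
      apply sub_le_sub_left
      gcongr
    · rw [if_pos hpD]
      have hlt : nuB (QH (QS P) H) p + 1 ≤ nuB (QH (QS P) (insert b H)) p := by
        obtain ⟨r, hr1, hr2⟩ := root1 p hpp.pos (b + s)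
        unfold nuB
        have hnot : r ∉ (range p).filter (fun a => QH (QS P) H p a) := by
          rw [mem_filter, not_and]
          rintro - ⟨h, hh, s', hs', h3⟩
          apply hpD
          refine dvd_trans ?_ (hD h hh s' hs')
          have h4 : (p : ℤ) ∣ ((r + (b + s) : ℕ) : ℤ) := Int.natCast_dvd_natCast.2 hr2
          have h5 : (p : ℤ) ∣ ((r + h + s' : ℕ) : ℤ) := Int.natCast_dvd_natCast.2 h3
          have h6 := dvd_sub h4 h5
          have e : ((r + (b + s) : ℕ) : ℤ) - ((r + h + s' : ℕ) : ℤ) = (b : ℤ) + s - (h + s') := by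
            push_cast
            ring
          rw [e] at h6
          exact Int.natCast_dvd.1 h6
        rw [← card_insert_of_notMem hnot]
        apply card_le_card
        intro a ha
        rw [mem_insert] at ha
        rw [mem_filter]
        rcases ha with rfl | ha
        · refine ⟨mem_range.2 hr1, b, mem_insert_self _ _, s, hs, ?_⟩
          rwa [add_assoc]
        · rw [mem_filter] at ha
          obtain ⟨h1, h, hh, h2⟩ := ha
          exact ⟨h1, h, mem_insert_of_mem hh, h2⟩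
      have h2 : (nuB (QH (QS P) H) p : ℝ) + 1 ≤ nuB (QH (QS P) (insert b H)) p := by
        exact_mod_cast hlt
      have h3 : (1 - (nuB (QH (QS P) H) p : ℝ) / p) * (1 - 1 / (p : ℝ)) =
          1 - ((nuB (QH (QS P) H) p : ℝ) + 1) / p + (nuB (QH (QS P) H) p : ℝ) / p ^ 2 := by
        field_simp
        ring
      rw [h3]
      have h4 : (0 : ℝ) ≤ (nuB (QH (QS P) H) p : ℝ) / p ^ 2 := by positivity
      have h5 : ((nuB (QH (QS P) H) p : ℝ) + 1) / p ≤ (nuB (QH (QS P) (insert b H)) p : ℝ) / p := by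
        gcongr
      linarith

end Pool.Agent.TH464.PO
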