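import Pool.Agent.TH464.PO.ShiftPack

set_option autoImplicit false

/-!
# Pairs, triples and quadruples
-/

namespace Pool.Agent.TH464.PO

open Finset Filter
open Pool.Agent.W123.RP Pool.Agent.H373R2.T7 Pool.Agent.W123.RU
open Pool.Agent.TH464.PW

/-! ### pairs -/

/-- pair -/
def P2 (d : ℕ) : Finset ℕ := {0, d}

lemma P2_card (d : ℕ) (hd : 1 ≤ d) : (P2 d).card = 2 := by
  unfold P2
  exact card_pair (by omega)

lemma P2_le (d X : ℕ) (h : d ≤ X) : ∀ a ∈ P2 d, a ≤ X := by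
  intro a ha
  unfold P2 at ha
  rw [mem_insert, mem_singleton] at ha
  omega

lemma P2_ad (d : ℕ) (h : Even d) : AdP (P2 d) := by
  intro p hp
  have hkey : ∃ m : ℕ, ¬ p ∣ m ∧ ¬ p ∣ m + d := by
    by_cases h2 : p = 2
    · subst h2
      obtain ⟨e, he⟩ := h
      exact ⟨1, by omega, by omega⟩
    · have hp3 : 3 ≤ p := by
        have := hp.two_le
        omega
      have h1 : ¬ p ∣ 1 := fun h => by
        have := Nat.le_of_dvd one_pos h
        omega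
      have h2' : ¬ p ∣ 2 := fun h => by
        have := Nat.le_of_dvd two_pos h
        omega
      by_cases h3 : p ∣ 1 + d
      · refine ⟨2, h2', fun h4 => h1 ?_⟩
        have := Nat.dvd_sub h4 h3
        rwa [show 2 + d - (1 + d) = 1 by omega] at this
      · exact ⟨1, h1, h3⟩
  obtain ⟨m, h1, h2⟩ := hkey
  refine ⟨m, fun s hs => ?_⟩
  unfold P2 at hs
  rw [mem_insert, mem_singleton] at hs
  rcases hs with rfl | rfl
  · simpa using h1
  · exact h2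

lemma P2_ap (d r : ℕ) (z : ℝ) (m : ℕ) :
    (∀ s ∈ P2 d, APn r z (m + s)) ↔ APn r z m ∧ APn r z (m + d) := by
  unfold P2
  simp

lemma P2_V (d y : ℕ) {inst : ∀ p : ℕ, DecidablePred (fun a : ℕ => p ∣ a ∨ p ∣ a + d)} :
    Vq (QS (P2 d)) y = ∏ p ∈ (Finset.range (y + 1)).filter Nat.Prime,
      (1 - (((Finset.range p).filter (fun a : ℕ => p ∣ a ∨ p ∣ a + d)).card : ℝ) / p) :=
  V_gen' (QS (P2 d)) (fun p a => p ∣ a ∨ p ∣ a + d) (fun p m => by
    unfold QS P2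
    simp) y

/-! ### triples -/

/-- triple -/
def P3 (a b : ℕ) : Finset ℕ := {0, a, b}

/-- admissible triple -/
def Ad3 (a b : ℕ) : Prop := ∀ p : ℕ, p.Prime → ∃ m : ℕ, ¬ p ∣ m ∧ ¬ p ∣ m + a ∧ ¬ p ∣ m + b

lemma P3_card (a b : ℕ) (ha : 1 ≤ a) (hb : a < b) : (P3 a b).card = 3 := by
  unfold P3
  rw [card_insert_of_notMem, card_pair hb.ne]
  rw [mem_insert, mem_singleton]
  omega

lemma P3_le (a b X : ℕ) (hb : a < b) (h : b ≤ X) : ∀ s ∈ P3 a b, s ≤ X := by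
  intro s hs
  unfold P3 at hs
  rw [mem_insert, mem_insert, mem_singleton] at hs
  omega

lemma P3_ad (a b : ℕ) (h : Ad3 a b) : AdP (P3 a b) := by
  intro p hp
  obtain ⟨m, h1, h2, h3⟩ := h p hp
  refine ⟨m, fun s hs => ?_⟩
  unfold P3 at hs
  rw [mem_insert, mem_insert, mem_singleton] at hs
  rcases hs with rfl | rfl | rfl
  · simpa using h1
  · exact h2
  · exact h3

lemma P3_ap (a b r : ℕ) (z : ℝ) (m : ℕ) :
    (∀ s ∈ P3 a b, APn r z (m + s)) ↔ APn r z m ∧ APn r z (m + a) ∧ APn r z (m + b) := by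
  unfold P3
  simp

lemma P3_V (u v y : ℕ)
    {inst : ∀ p : ℕ, DecidablePred (fun a : ℕ => p ∣ a ∨ p ∣ a + u ∨ p ∣ a + v)} :
    Vq (QS (P3 u v)) y = ∏ p ∈ (Finset.range (y + 1)).filter Nat.Prime,
      (1 - (((Finset.range p).filter
        (fun a : ℕ => p ∣ a ∨ p ∣ a + u ∨ p ∣ a + v)).card : ℝ) / p) :=
  V_gen' (QS (P3 u v)) (fun p a => p ∣ a ∨ p ∣ a + u ∨ p ∣ a + v) (fun p m => by
    unfold QS P3
    simp) y

/-! ### quadruples -/

/-- quadruple -/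
def P4 (a b c : ℕ) : Finset ℕ := {0, a, b, c}

/-- admissible quadruple -/
def Ad4 (a b c : ℕ) : Prop :=
  ∀ p : ℕ, p.Prime → ∃ m : ℕ, ¬ p ∣ m ∧ ¬ p ∣ m + a ∧ ¬ p ∣ m + b ∧ ¬ p ∣ m + c

lemma P4_card (a b c : ℕ) (ha : 1 ≤ a) (hb : a < b) (hc : b < c) : (P4 a b c).card = 4 := by
  unfold P4
  rw [card_insert_of_notMem, card_insert_of_notMem, card_pair hc.ne]
  · rw [mem_insert, mem_singleton]
    omega
  · rw [mem_insert, mem_insert, mem_singleton]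
    omega

lemma P4_le (a b c X : ℕ) (hb : a < b) (hc : b < c) (h : c ≤ X) : ∀ s ∈ P4 a b c, s ≤ X := by
  intro s hs
  unfold P4 at hs
  rw [mem_insert, mem_insert, mem_insert, mem_singleton] at hs
  omega

lemma P4_ad (a b c : ℕ) (h : Ad4 a b c) : AdP (P4 a b c) := by
  intro p hp
  obtain ⟨m, h1, h2, h3, h4⟩ := h p hp
  refine ⟨m, fun s hs => ?_⟩
  unfold P4 at hs
  rw [mem_insert, mem_insert, mem_insert, mem_singleton] at hs
  rcases hs with rfl | rfl | rfl | rfl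
  · simpa using h1
  · exact h2
  · exact h3
  · exact h4

lemma P4_ap (a b c r : ℕ) (z : ℝ) (m : ℕ) :
    (∀ s ∈ P4 a b c, APn r z (m + s)) ↔
      APn r z m ∧ APn r z (m + a) ∧ APn r z (m + b) ∧ APn r z (m + c) := by
  unfold P4
  simp

lemma P4_V (u v w y : ℕ)
    {inst : ∀ p : ℕ, DecidablePred (fun a : ℕ => p ∣ a ∨ p ∣ a + u ∨ p ∣ a + v ∨ p ∣ a + w)} :
    Vq (QS (P4 u v w)) y = ∏ p ∈ (Finset.range (y + 1)).filter Nat.Prime,
      (1 - (((Finset.range p).filter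
        (fun a : ℕ => p ∣ a ∨ p ∣ a + u ∨ p ∣ a + v ∨ p ∣ a + w)).card : ℝ) / p) :=
  V_gen' (QS (P4 u v w)) (fun p a => p ∣ a ∨ p ∣ a + u ∨ p ∣ a + v ∨ p ∣ a + w) (fun p m => by
    unfold QS P4
    simp) y

end Pool.Agent.TH464.PO
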