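import Pool.Agent.TH464.PO.Shift

set_option autoImplicit false

/-!
# The laws for patterns of shifts, uniformly in the pattern
-/

namespace Pool.Agent.TH464.PO

open Finset Filter Pool.Agent.H373R2.T7 Pool.Agent.W123.RP Pool.Agent.W123.RU
open Pool.Agent.TH464.PW

lemma two_mul_ge (a b : ℕ) (ha : 1 ≤ a) (hb : 1 ≤ b) : a + b ≤ 2 * a * b := by nlinarith

lemma one_le_two_mul (a b : ℕ) (ha : 1 ≤ a) (hb : 1 ≤ b) : 1 ≤ 2 * a * b := by nlinarith

lemma aux_z1 (A L z : ℝ) (hA : 0 ≤ A) (h4 : 4 * A + 4 ≤ L) (hz : L ^ 2 - 1 ≤ z) :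
    (4 * A + 2) * L ≤ z ∧ 2 ≤ z := by
  constructor
  · nlinarith
  · nlinarith

lemma aux_log (A L a b : ℝ) (hA : 0 ≤ A) (hL : 0 ≤ L) (ha : a ≤ L) (hb : b ≤ L) :
    a + A * L + b ≤ (2 * A + 3) * L := by nlinarith [mul_nonneg hA hL]

lemma aux_log2 (A L x : ℝ) (hA : 0 ≤ A) (hL : 0 ≤ L) (hx : x ≤ A * L) : x ≤ (4 * A + 2) * L := by
  nlinarith [mul_nonneg hA hL]

lemma aux_M (M L κ : ℝ) (h : 1 ≤ M * κ) (hL : 1 ≤ L) : 1 ≤ M * L * κ := by
  have : M * L * κ = (M * κ) * L := by ring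
  rw [this]
  nlinarith

lemma aux_T (M κ L T0 : ℝ) (h : T0 ≤ M * κ) (h0 : 0 ≤ M * κ) (hL : 1 ≤ L) : T0 ≤ κ * (M * L) := by
  have : κ * (M * L) = (M * κ) * L := by ring
  rw [this]
  nlinarith

lemma aux_sq (a L : ℝ) (h : a + 1 ≤ L) (hL : 1 ≤ L) : (a + 1) * L - L ≤ L * L - 1 := by nlinarith

open Classical in
/-- everything needed about the sizes, for one pattern -/
lemma shift_sizes (K A k : ℕ) (hK : 2 ≤ K) (θ : ℝ) (hθ : 0 < θ) (K0 y0 T0 R0 : ℕ) (η κ x2 φ : ℝ)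
    (hη : 0 < η) (hκ : 0 < κ) (hx2 : 0 < x2) (hφ : 0 < φ) :
    ∃ s0 : ℕ, ∀ s : ℕ, s0 ≤ s → ∀ᶠ X : ℕ in atTop, ∀ P : Finset ℕ, P.card = K →
      (∀ a ∈ P, a ≤ X ^ A) → AdP P → ∀ Y : ℕ, (X : ℝ) ^ θ ≤ Y →
      ∀ y : ℕ, y = ⌊(X : ℝ) ^ (1 / (s : ℝ))⌋₊ →
      y0 ≤ y ∧ y ^ K0 ≤ Y ∧ Vq (QS P) y ≤ κ ∧ √(Y : ℝ) ≤ κ * (Y * Vq (QS P) y) ∧
      x2 / Vq (QS P) y ≤ κ * (Y * Vq (QS P) y) ∧
      ∀ T : ℕ, κ ≤ T * Vq (QS P) y → T * Vq (QS P) y ≤ x2 → T0 ≤ T ∧ T ^ R0 ≤ Y ∧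
        (∀ t ∈ Icc 1 T, t ∉ exE P →
          ((((pz y).filter (fun p : ℕ => T < p ∧ CoG (QS P) p t)).card : ℕ) : ℝ) ≤ η * T) ∧
        (∀ H ⊆ Icc 1 T, H.card ≤ k → NE (exE P) H → ∀ b ∈ Icc 1 T, b ∉ H →
          Vq (QH (QS P) (insert b H)) y ≤ φ * Vq (QH (QS P) H) y) := by
  obtain ⟨v0, hv0, hVlow⟩ := V_lower_unif K
  obtain ⟨C, hC, hVup⟩ := V_upper_unif
  obtain ⟨C1, hC1, hone⟩ := one_upper
  obtain ⟨R1, hR1⟩ : ∃ R1 : ℕ, (K0 : ℝ) / θ ≤ R1 := exists_nat_ge _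
  refine ⟨max R1 2, ?_⟩
  intro s hs
  have hs2 : 2 ≤ s := (le_max_right _ _).trans hs
  have hss : (2 : ℝ) ≤ s := by exact_mod_cast hs2
  have hspos : (0 : ℝ) < s := by linarith
  have hsK : (K0 : ℝ) ≤ θ * s := by
    have h1 : (K0 : ℝ) / θ ≤ s := hR1.trans (by exact_mod_cast (le_max_left _ _).trans hs)
    rw [div_le_iff₀ hθ] at h1
    linarith
  obtain ⟨M, hM⟩ : ∃ M : ℝ, M = (2 * K ^ 2 * (2 * A + 3)) / (κ * η) + T0 / κ + 1 / κ + 1 := ⟨_, rfl⟩
  have hM1a : 0 ≤ (2 * (K : ℝ) ^ 2 * (2 * A + 3)) / (κ * η) := by positivity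
  have hM1b : 0 ≤ (T0 : ℝ) / κ := by positivity
  have hM1c : 0 ≤ 1 / κ := by positivity
  have hMpos : 0 < M := by linarith
  have hM1 : 1 ≤ M := by linarith
  have hM2 : 2 * (K : ℝ) ^ 2 * (2 * A + 3) ≤ M * (κ * η) := by
    have : (2 * (K : ℝ) ^ 2 * (2 * A + 3)) / (κ * η) ≤ M := by linarith
    rwa [div_le_iff₀ (by positivity)] at this
  have hM3 : (T0 : ℝ) ≤ M * κ := by
    have : (T0 : ℝ) / κ ≤ M := by linarith
    rwa [div_le_iff₀ hκ] at this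
  have hM4 : 1 ≤ M * κ := by
    have : 1 / κ ≤ M := by linarith
    rwa [div_le_iff₀ hκ] at this
  have hXr : Tendsto (fun X : ℕ => (X : ℝ)) atTop atTop := tendsto_natCast_atTop_atTop
  have hpow2 : Tendsto (fun X : ℕ => (X : ℝ) ^ (1 / (2 * s : ℝ))) atTop atTop :=
    (tendsto_rpow_atTop (by positivity)).comp hXr
  have hlogX : Tendsto (fun X : ℕ => Real.log (X : ℝ)) atTop atTop :=
    Real.tendsto_log_atTop.comp hXr
  have hll : ∀ᶠ L : ℝ in atTop, C * (4 * s ^ 2) * M * (2 * Real.log L) ^ 2 ≤ L := by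
    have h1 : 0 < 1 / (C * (4 * s ^ 2) * M * 4) := by positivity
    have h := (Real.isLittleO_pow_log_id_atTop (n := 2)).bound h1
    filter_upwards [h, eventually_ge_atTop 1] with L h2 hL
    rw [Real.norm_of_nonneg (by positivity), id, Real.norm_of_nonneg (by linarith)] at h2
    have h3 := mul_le_mul_of_nonneg_left h2 (show 0 ≤ C * (4 * (s : ℝ) ^ 2) * M * 4 by positivity)
    calc C * (4 * (s : ℝ) ^ 2) * M * (2 * Real.log L) ^ 2 = C * (4 * (s : ℝ) ^ 2) * M * 4 *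
          Real.log L ^ 2 := by ring
      _ ≤ C * (4 * (s : ℝ) ^ 2) * M * 4 * (1 / (C * (4 * s ^ 2) * M * 4) * L) := h3
      _ = L := by field_simp
  have hl1 : ∀ᶠ L : ℝ in atTop, ((K : ℝ) + 1) * Real.log L ≤ L := by
    have h1 : 0 < 1 / ((K : ℝ) + 1) := by positivity
    have h := (Real.isLittleO_log_id_atTop).bound h1
    filter_upwards [h, eventually_ge_atTop 1] with L h2 hL
    rw [Real.norm_of_nonneg (Real.log_nonneg hL), id, Real.norm_of_nonneg (by linarith)] at h2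
    have h3 := mul_le_mul_of_nonneg_left h2 (show 0 ≤ (K : ℝ) + 1 by positivity)
    calc ((K : ℝ) + 1) * Real.log L ≤ ((K : ℝ) + 1) * (1 / ((K : ℝ) + 1) * L) := h3
      _ = L := by field_simp
  have hl2 : ∀ᶠ L : ℝ in atTop, C1 * (2 * Real.log L) * (2 * s) ≤ φ * L := by
    have h1 : 0 < φ / (C1 * 4 * s) := by positivity
    have h := (Real.isLittleO_log_id_atTop).bound h1
    filter_upwards [h, eventually_ge_atTop 1] with L h2 hL
    rw [Real.norm_of_nonneg (Real.log_nonneg hL), id, Real.norm_of_nonneg (by linarith)] at h2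
    have h3 := mul_le_mul_of_nonneg_left h2 (show 0 ≤ C1 * 4 * s by positivity)
    calc C1 * (2 * Real.log L) * (2 * s) = C1 * 4 * s * Real.log L := by ring
      _ ≤ C1 * 4 * s * (φ / (C1 * 4 * s) * L) := h3
      _ = φ * L := by field_simp
  have hMb : 0 < (1 / (κ * v0)) ^ 2 + x2 / (κ * v0 ^ 2) := by positivity
  filter_upwards [hpow2.eventually_ge_atTop ((y0 : ℝ) + 3), eventually_ge_atTop 16,
    logpow_rpow 2 1 (1 / (2 * s)) one_pos (by positivity), hlogX.eventually hll, hlogX.eventually hl1,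
    hlogX.eventually_ge_atTop (4 * A + 4), hlogX.eventually_ge_atTop (x2 / v0),
    logpow_rpow ((K + 1) * R0) 1 θ one_pos hθ,
    logpow_rpow (2 * K) ((1 / (κ * v0)) ^ 2 + x2 / (κ * v0 ^ 2)) θ hMb hθ,
    hlogX.eventually hl2, hlogX.eventually_ge_atTop (k * K * (2 * A + 3) + 1)] with X hX1 hX16 hX2 hX3
      hX4 hX5 hX6 hX7 hX8 hX9 hX10
  intro P hPK hPX hPad Y hXY y hy
  have hX16r : (16 : ℝ) ≤ X := by exact_mod_cast hX16
  have hXpos : (0 : ℝ) < X := by linarith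
  have hXone : (1 : ℝ) ≤ X := by linarith
  have hy0r : (0 : ℝ) ≤ y0 := Nat.cast_nonneg _
  have hA0 : (0 : ℝ) ≤ A := Nat.cast_nonneg _
  have hXA1 : 1 ≤ X ^ A := Nat.one_le_iff_ne_zero.2 (pow_pos (by omega) A).ne'
  have hper : PerB (QS P) K := by
    have := qs_perB P
    rwa [hPK] at this
  obtain ⟨hy1, hy2, hy3, hy4⟩ := level_low s hs2 X (by omega) (by linarith)
  rw [← hy] at hy1 hy2 hy3 hy4
  obtain ⟨L, hL⟩ : ∃ L, L = Real.log X := ⟨_, rfl⟩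
  rw [← hL] at hX2 hX3 hX4 hX5 hX6 hX7 hX8 hX9 hX10 hy2 hy3
  have hL4 : 4 ≤ L := by linarith
  have hLpos : 0 < L := by linarith
  have hyr : (y0 : ℝ) + 3 ≤ y := hX1.trans hy1
  have hyy0 : y0 ≤ y := by
    have : (y0 : ℝ) ≤ y := by linarith
    exact_mod_cast this
  have hlogy : 0 < Real.log y := lt_of_lt_of_le (by positivity) hy2
  have hY0 : (0 : ℝ) ≤ Y := Nat.cast_nonneg Y
  have hV0 : 0 < Vq (QS P) y := Vq_pos (QS P) (fun p hp => qs_adm P hPad p hp) y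
  have hVlo := hVlow (QS P) hper (fun p hp => qs_adm P hPad p hp) y hy4
  have hVX : v0 / L ^ K ≤ Vq (QS P) y := by
    refine le_trans ?_ hVlo
    gcongr
  have hLk : 0 < L ^ K := by positivity
  -- the auxiliary parameter
  obtain ⟨z, hz⟩ : ∃ z, z = ⌊L ^ 2⌋₊ := ⟨_, rfl⟩
  have hz1 : (z : ℝ) ≤ L ^ 2 := by
    rw [hz]
    exact Nat.floor_le (by positivity)
  have hz2 : L ^ 2 - 1 ≤ z := by
    have := Nat.lt_floor_add_one (L ^ 2)
    rw [← hz] at this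
    linarith
  obtain ⟨hz3, hz4⟩ := aux_z1 A L z hA0 hX5 hz2
  have hzy : (z : ℝ) ≤ y := by
    refine hz1.trans (le_trans ?_ (hX2.trans hy1))
    rw [one_mul]
  have hlz : Real.log z ≤ 2 * Real.log L := by
    have := Real.log_le_log (by linarith) hz1
    rw [Real.log_pow] at this
    exact_mod_cast this
  have hlz0 : 0 ≤ Real.log z := Real.log_nonneg (by linarith)
  have hl0 : 0 ≤ 2 * Real.log L := hlz0.trans hlz
  -- the upper bound for the density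
  have hVL : Vq (QS P) y * (M * L) ≤ 1 := by
    obtain ⟨a, ha, b, hb, hab⟩ := Finset.one_lt_card.1 (by omega : 1 < P.card)
    obtain ⟨a, ha, b, hb, hab⟩ : ∃ a ∈ P, ∃ b ∈ P, a < b := by
      rcases lt_or_gt_of_ne hab with h | h
      · exact ⟨a, ha, b, hb, h⟩
      · exact ⟨b, hb, a, ha, h⟩
    have hD : b - a ≠ 0 := by omega
    have hlogD : Real.log ((b - a : ℕ) : ℝ) ≤ z := by
      refine le_trans ?_ hz3
      have h1 : ((b - a : ℕ) : ℝ) ≤ (X : ℝ) ^ A := by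
        have := hPX b hb
        have h2 : b - a ≤ X ^ A := by omega
        exact_mod_cast h2
      have h2 : (0 : ℝ) < ((b - a : ℕ) : ℝ) := by exact_mod_cast Nat.pos_of_ne_zero hD
      have h3 := Real.log_le_log h2 h1
      rw [Real.log_pow, ← hL] at h3
      exact aux_log2 A L _ hA0 hLpos.le h3
    have h1 := hVup (QS P) _ hD (fun p hp => qs_adm P hPad p hp)
      (fun p hp hd => qs_two P a b ha hb hab p hp hd) z y (by exact_mod_cast hz4)
      (by exact_mod_cast hzy) hlogD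
    have h2 : (Real.log z / Real.log y) ^ 2 ≤ (2 * Real.log L / (L / (2 * s))) ^ 2 := by
      apply pow_le_pow_left₀ (by positivity)
      gcongr
    calc Vq (QS P) y * (M * L) ≤ (C * (2 * Real.log L / (L / (2 * s))) ^ 2) * (M * L) := by
          gcongr
          exact h1.trans (mul_le_mul_of_nonneg_left h2 hC.le)
      _ = (C * (4 * s ^ 2) * M * (2 * Real.log L) ^ 2) / L := by
          field_simp
          ring
      _ ≤ 1 := by
          rw [div_le_one hLpos]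
          exact hX3
  have hyK : y ^ K0 ≤ Y := by
    have h3 : ((y ^ K0 : ℕ) : ℝ) ≤ Y := by
      push_cast
      calc (y : ℝ) ^ K0 ≤ ((X : ℝ) ^ (1 / (s : ℝ))) ^ K0 := by
            apply pow_le_pow_left₀ (Nat.cast_nonneg _)
            rw [hy]
            exact Nat.floor_le (by positivity)
        _ = (X : ℝ) ^ (1 / (s : ℝ) * K0) := by
            rw [Real.rpow_mul hXpos.le, Real.rpow_natCast]
        _ ≤ (X : ℝ) ^ θ := by
            apply Real.rpow_le_rpow_of_exponent_le hXone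
            rw [one_div, inv_mul_eq_div, div_le_iff₀ hspos]
            exact hsK
        _ ≤ Y := hXY
    exact_mod_cast h3
  have hYbig : ((1 / (κ * v0)) ^ 2 + x2 / (κ * v0 ^ 2)) * L ^ (2 * K) ≤ Y := hX8.trans hXY
  have hYa : (1 / (κ * v0)) ^ 2 * L ^ (2 * K) ≤ Y := by
    refine le_trans ?_ hYbig
    gcongr
    have : 0 < x2 / (κ * v0 ^ 2) := by positivity
    linarith
  have hYb : x2 / (κ * v0 ^ 2) * L ^ (2 * K) ≤ Y := by
    refine le_trans ?_ hYbig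
    gcongr
    have : 0 < (1 / (κ * v0)) ^ 2 := by positivity
    linarith
  have hpw : L ^ (2 * K) = (L ^ K) ^ 2 := by rw [mul_comm, pow_mul]
  refine ⟨hyy0, hyK, ?_, ?_, ?_, ?_⟩
  · -- V is small
    have h1 : 1 ≤ M * L * κ := aux_M M L κ hM4 (by linarith)
    calc Vq (QS P) y = Vq (QS P) y * 1 := (mul_one _).symm
      _ ≤ Vq (QS P) y * (M * L * κ) := by gcongr
      _ = Vq (QS P) y * (M * L) * κ := by ring
      _ ≤ 1 * κ := by gcongr
      _ = κ := one_mul κ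
  · have h3 : 1 / (κ * v0) * L ^ K ≤ √(Y : ℝ) := by
      apply Real.le_sqrt_of_sq_le
      rw [mul_pow, ← hpw]
      exact hYa
    have h4 : √(Y : ℝ) * √(Y : ℝ) = Y := Real.mul_self_sqrt hY0
    calc √(Y : ℝ) = κ * (√(Y : ℝ) * (1 / (κ * v0) * L ^ K) * (v0 / L ^ K)) := by
          field_simp
      _ ≤ κ * (√(Y : ℝ) * √(Y : ℝ) * Vq (QS P) y) := by gcongr
      _ = κ * (Y * Vq (QS P) y) := by rw [h4]
  · rw [div_le_iff₀ hV0]
    have h3 : x2 / (κ * v0 ^ 2) * (L ^ K) ^ 2 ≤ Y := by rw [← hpw]; exact hYb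
    have hsq : (v0 / L ^ K) ^ 2 ≤ Vq (QS P) y ^ 2 := pow_le_pow_left₀ (by positivity) hVX 2
    calc x2 = κ * (x2 / (κ * v0 ^ 2) * (L ^ K) ^ 2 * (v0 / L ^ K) ^ 2) := by
          field_simp
      _ ≤ κ * (Y * Vq (QS P) y ^ 2) := by gcongr
      _ = κ * (Y * Vq (QS P) y) * Vq (QS P) y := by ring
  · intro T hT1 hT2
    have hT0r : (0 : ℝ) ≤ T := Nat.cast_nonneg T
    -- lower bound for `T`
    have hTlow : κ * (M * L) ≤ T := by
      calc κ * (M * L) ≤ T * Vq (QS P) y * (M * L) := by gcongr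
        _ = T * (Vq (QS P) y * (M * L)) := by ring
        _ ≤ T * 1 := by gcongr
        _ = T := mul_one _
    have hTup : (T : ℝ) ≤ L ^ (K + 1) := by
      have h1 : (T : ℝ) * (v0 / L ^ K) ≤ x2 := (mul_le_mul_of_nonneg_left hVX hT0r).trans hT2
      have h2 : (T : ℝ) * v0 ≤ x2 * L ^ K := by
        calc (T : ℝ) * v0 = T * (v0 / L ^ K) * L ^ K := by field_simp
          _ ≤ x2 * L ^ K := mul_le_mul_of_nonneg_right h1 hLk.le
      rw [div_le_iff₀ hv0] at hX6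
      have h3 : (T : ℝ) * v0 ≤ L ^ (K + 1) * v0 := by
        calc (T : ℝ) * v0 ≤ x2 * L ^ K := h2
          _ ≤ L * v0 * L ^ K := by gcongr
          _ = L ^ (K + 1) * v0 := by ring
      exact le_of_mul_le_mul_right h3 hv0
    have hlog2 : 1 ≤ T → Real.log (2 * ((X ^ A : ℕ) : ℝ) * T) ≤ (2 * A + 3) * L := by
      intro hT1'
      have hTpos : (0 : ℝ) < T := by exact_mod_cast hT1'
      have e : Real.log (2 * ((X ^ A : ℕ) : ℝ) * T) = Real.log 2 + A * L + Real.log T := by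
        rw [Real.log_mul (by positivity) (by positivity), Real.log_mul (by norm_num) (by positivity)]
        push_cast
        rw [Real.log_pow, ← hL]
      rw [e]
      have h3 : Real.log T ≤ L := by
        have h4 := Real.log_le_log hTpos hTup
        rw [Real.log_pow] at h4
        push_cast at h4
        linarith
      have h4 : Real.log 2 ≤ L := by
        have := Real.log_two_lt_d9
        linarith
      exact aux_log A L _ _ hA0 hLpos.le h4 h3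
    refine ⟨?_, ?_, ?_, ?_⟩
    · have : (T0 : ℝ) ≤ T :=
        (aux_T M κ L T0 hM3 (by positivity) (by linarith)).trans hTlow
      exact_mod_cast this
    · have h3 : ((T ^ R0 : ℕ) : ℝ) ≤ Y := by
        push_cast
        calc (T : ℝ) ^ R0 ≤ (L ^ (K + 1)) ^ R0 := pow_le_pow_left₀ hT0r hTup _
          _ = 1 * L ^ ((K + 1) * R0) := by rw [one_mul, pow_mul]
          _ ≤ (X : ℝ) ^ θ := hX7
          _ ≤ Y := hXY
      exact_mod_cast h3
    · intro t ht htE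
      rw [mem_Icc] at ht
      have hT1' : 1 ≤ T := by omega
      have h1 := qs_large P (X ^ A) hXA1 hPX T y t ht.1 ht.2 htE
      rw [hPK] at h1
      refine h1.trans ?_
      calc 2 * (K : ℝ) ^ 2 * Real.log (2 * ((X ^ A : ℕ) : ℝ) * T) ≤
          2 * K ^ 2 * ((2 * A + 3) * L) := by
            apply mul_le_mul_of_nonneg_left (hlog2 hT1') (by positivity)
        _ = 2 * K ^ 2 * (2 * A + 3) * L := by ring
        _ ≤ M * (κ * η) * L := by gcongr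
        _ = η * (κ * (M * L)) := by ring
        _ ≤ η * T := by gcongr
    · intro H hH hHk hNE b hb hbH
      rw [mem_Icc] at hb
      have hT1' : 1 ≤ T := by omega
      have hPne : P.Nonempty := Finset.card_pos.1 (by omega)
      obtain ⟨s', hs', hun⟩ := uncovered P H hPne hNE b hbH
      obtain ⟨e, he⟩ : ∃ e : ℕ × ℕ → ℕ, e = fun ij => ((b : ℤ) + s' - (ij.1 + ij.2)).natAbs := ⟨_, rfl⟩
      obtain ⟨D, hD⟩ : ∃ D : ℕ, D = ∏ ij ∈ H ×ˢ P, e ij := ⟨_, rfl⟩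
      have hD0 : D ≠ 0 := by
        rw [hD]
        apply Finset.prod_ne_zero_iff.2
        intro ij hij
        rw [mem_product] at hij
        rw [he]
        apply Int.natAbs_ne_zero.2
        intro h0
        apply hun ij.1 hij.1 ij.2 hij.2
        omega
      have hle : ∀ ij ∈ H ×ˢ P, e ij ≤ 2 * X ^ A * T := by
        intro ij hij
        rw [mem_product] at hij
        have h1 := mem_Icc.1 (hH hij.1)
        have h2 := hPX ij.2 hij.2
        have h4 := hPX s' hs'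
        have h3 := two_mul_ge (X ^ A) T hXA1 hT1'
        rw [he]
        simp only
        omega
      have hpos : (1 : ℝ) ≤ 2 * ((X ^ A : ℕ) : ℝ) * T := by
        have := one_le_two_mul (X ^ A) T hXA1 hT1'
        exact_mod_cast this
      have hlogD : Real.log D ≤ z := by
        have h1 : D ≤ (2 * X ^ A * T) ^ (H ×ˢ P).card := by
          rw [hD]
          exact Finset.prod_le_pow_card _ _ _ hle
        have h2 : (H ×ˢ P).card ≤ k * K := by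
          rw [card_product, hPK]
          exact Nat.mul_le_mul_right _ hHk
        have h3 : (D : ℝ) ≤ (2 * ((X ^ A : ℕ) : ℝ) * T) ^ (H ×ˢ P).card := by exact_mod_cast h1
        have h4 : (0 : ℝ) < D := by exact_mod_cast Nat.pos_of_ne_zero hD0
        have h5 := Real.log_le_log h4 h3
        rw [Real.log_pow] at h5
        have h6 : (((H ×ˢ P).card : ℕ) : ℝ) ≤ k * K := by exact_mod_cast h2
        have h7 : 0 ≤ Real.log (2 * ((X ^ A : ℕ) : ℝ) * T) := Real.log_nonneg hpos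
        calc Real.log D ≤ (((H ×ˢ P).card : ℕ) : ℝ) * Real.log (2 * ((X ^ A : ℕ) : ℝ) * T) := h5
          _ ≤ (k * K) * ((2 * A + 3) * L) := mul_le_mul h6 (hlog2 hT1') h7 (by positivity)
          _ = (k * K * (2 * A + 3) + 1) * L - L := by ring
          _ ≤ L * L - 1 := aux_sq _ L hX10 (by linarith)
          _ = L ^ 2 - 1 := by ring
          _ ≤ z := hz2
      have h1 := qs_fac P H b s' hs' D (fun h hh s'' hs'' => by
        rw [hD, he]
        exact Finset.dvd_prod_of_mem (fun ij : ℕ × ℕ => ((b : ℤ) + s' - (ij.1 + ij.2)).natAbs)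
          (by rw [mem_product]; exact ⟨hh, hs''⟩ : (h, s'') ∈ H ×ˢ P)) y
      have h2 := hone D hD0 z y (by exact_mod_cast hz4) (by exact_mod_cast hzy) hlogD
      have h3 : C1 * (Real.log z / Real.log y) ≤ φ := by
        calc C1 * (Real.log z / Real.log y) ≤ C1 * (2 * Real.log L / (L / (2 * s))) := by gcongr
          _ = C1 * (2 * Real.log L) * (2 * s) / L := by
            field_simp
          _ ≤ φ := by
            rw [div_le_iff₀ hLpos]
            exact hX9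
      have h4 : 0 ≤ Vq (QH (QS P) H) y := Vq_nonneg _ _
      calc Vq (QH (QS P) (insert b H)) y ≤ _ := h1
        _ ≤ Vq (QH (QS P) H) y * φ := mul_le_mul_of_nonneg_left (h2.trans h3) h4
        _ = φ * Vq (QH (QS P) H) y := mul_comm _ _

open Classical in
/-- the singular averages for one pattern, for finitely many `k` at once -/
lemma shift_SB (K A R : ℕ) (hK : 2 ≤ K) (θ : ℝ) (hθ : 0 < θ) (K0 y0 T0' R0 : ℕ) (η κ x2 : ℝ)
    (hη : 0 < η) (hη1 : η ≤ 1) (hκ : 0 < κ) (hx2 : 0 < x2) :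
    ∃ s0 : ℕ, ∀ s : ℕ, s0 ≤ s → ∀ᶠ X : ℕ in atTop, ∀ P : Finset ℕ, P.card = K →
      (∀ a ∈ P, a ≤ X ^ A) → AdP P → ∀ Y : ℕ, (X : ℝ) ^ θ ≤ Y →
      ∀ y : ℕ, y = ⌊(X : ℝ) ^ (1 / (s : ℝ))⌋₊ →
      y0 ≤ y ∧ y ^ K0 ≤ Y ∧ Vq (QS P) y ≤ κ ∧ √(Y : ℝ) ≤ κ * (Y * Vq (QS P) y) ∧
      x2 / Vq (QS P) y ≤ κ * (Y * Vq (QS P) y) ∧
      ∀ T : ℕ, κ ≤ T * Vq (QS P) y → T * Vq (QS P) y ≤ x2 → T0' ≤ T ∧ T ^ R0 ≤ Y ∧
        ∀ k < R, SB (QS P) y T k η := by
  induction R with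
  | zero =>
    obtain ⟨s0, h0⟩ := shift_sizes K A 0 hK θ hθ K0 y0 T0' R0 1 κ x2 1 one_pos hκ hx2 one_pos
    refine ⟨s0, fun s hs => ?_⟩
    filter_upwards [h0 s hs] with X hX P hPK hPX hPad Y hXY y hy
    obtain ⟨a1, a2, a3, a4, a5, a6⟩ := hX P hPK hPX hPad Y hXY y hy
    exact ⟨a1, a2, a3, a4, a5, fun T h1 h2 => ⟨(a6 T h1 h2).1, (a6 T h1 h2).2.1,
      fun k hk => absurd hk (by omega)⟩⟩
  | succ R ih =>
    obtain ⟨s0, h0⟩ := ih
    obtain ⟨w, η', φ, T0, hη', hφ, hsing⟩ := sing_E K (K ^ 4) R κ x2 η hκ hx2.le hη hη1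
    obtain ⟨s1, h1⟩ := shift_sizes K A R hK θ hθ K0 (max y0 w) T0 R0 η' κ x2 φ hη' hκ hx2 hφ
    refine ⟨max s0 s1, fun s hs => ?_⟩
    filter_upwards [h0 s ((le_max_left _ _).trans hs), h1 s ((le_max_right _ _).trans hs)] with X hX
      hX' P hPK hPX hPad Y hXY y hy
    obtain ⟨a1, a2, a3, a4, a5, a6⟩ := hX P hPK hPX hPad Y hXY y hy
    obtain ⟨b1, b2, b3, b4, b5, b6⟩ := hX' P hPK hPX hPad Y hXY y hy
    refine ⟨a1, a2, a3, a4, a5, fun T g1 g2 => ⟨(a6 T g1 g2).1, (a6 T g1 g2).2.1, fun k hk => ?_⟩⟩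
    rcases Nat.lt_or_ge k R with hkR | hkR
    · exact (a6 T g1 g2).2.2 k hkR
    · have hkR' : k = R := by omega
      rw [hkR']
      obtain ⟨c1, c2, c3, c4⟩ := b6 T g1 g2
      have hper : PerB (QS P) K := by
        have := qs_perB P
        rwa [hPK] at this
      have hcard : (exE P).card ≤ K ^ 4 := by
        have := exE_card P
        rwa [hPK] at this
      exact hsing T c1 (QS P) hper (fun p hp => qs_adm P hPad p hp) y ((le_max_right _ _).trans b1)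
        g1 g2 (exE P) hcard c3 c4

open Classical in
/-- **The Poisson law and the gap laws** for patterns of shifts, uniformly in the pattern. -/
theorem shift (K A : ℕ) (hK : 2 ≤ K) (θ : ℝ) (hθ : 0 < θ) (k0 : ℕ) (x0 ε : ℝ) (hε : 0 < ε) :
    ∃ s0 : ℕ, ∀ s : ℕ, s0 ≤ s → ∀ᶠ X : ℕ in atTop, ∀ P : Finset ℕ, P.card = K →
      (∀ a ∈ P, a ≤ X ^ A) → AdP P → ∀ Z Y : ℕ, (X : ℝ) ^ θ ≤ Y →
      (∀ T : ℕ, T * Vq (QS P) ⌊(X : ℝ) ^ (1 / (s : ℝ))⌋₊ ≤ x0 → ∀ E : Finset ℕ,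
        |(((Ioc Z (Z + Y)).filter
            (fun n => Wc (Sf (QS P) ⌊(X : ℝ) ^ (1 / (s : ℝ))⌋₊) n T ∈ E)).card : ℝ) -
          Y * ∑ j ∈ E, Real.exp (-(T * Vq (QS P) ⌊(X : ℝ) ^ (1 / (s : ℝ))⌋₊)) *
            (T * Vq (QS P) ⌊(X : ℝ) ^ (1 / (s : ℝ))⌋₊) ^ j / j.factorial| ≤ ε * Y) ∧
      (∀ l T : ℕ, (l ≤ k0 ∨ T * Vq (QS P) ⌊(X : ℝ) ^ (1 / (s : ℝ))⌋₊ ≤ x0) →
        |(Pk (Sf (QS P) ⌊(X : ℝ) ^ (1 / (s : ℝ))⌋₊) l T Z Y : ℝ) -
          Y * Vq (QS P) ⌊(X : ℝ) ^ (1 / (s : ℝ))⌋₊ *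
            Ck l (T * Vq (QS P) ⌊(X : ℝ) ^ (1 / (s : ℝ))⌋₊)| ≤
              ε * (Y * Vq (QS P) ⌊(X : ℝ) ^ (1 / (s : ℝ))⌋₊)) := by
  obtain ⟨K0, y0, R0, R, η1, κ, hη1, hη11, hκ, hκ2, hlaw⟩ := gen_law_SB K (by omega) x0 ε hε
  obtain ⟨K1, y1, R1, R', η2, κ1, x1, hη2, hη21, hκ1, hx1, hgap⟩ := gen_gap_SB K (by omega) k0 x0 ε hε
  obtain ⟨s0, h0⟩ := shift_SB K A R hK θ hθ K0 y0 0 R0 η1 κ (max x0 1) hη1 hη11 hκ (by positivity)
  obtain ⟨s1, h1⟩ := shift_SB K A R' hK θ hθ K1 y1 0 R1 η2 κ1 x1 hη2 hη21 hκ1 hx1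
  refine ⟨max s0 s1, ?_⟩
  intro s hs
  filter_upwards [h0 s ((le_max_left _ _).trans hs), h1 s ((le_max_right _ _).trans hs)] with X hX0 hX1
  intro P hPK hPX hPad Z Y hXY
  have hper : PerB (QS P) K := by
    have := qs_perB P
    rwa [hPK] at this
  obtain ⟨y, hy⟩ : ∃ y, y = ⌊(X : ℝ) ^ (1 / (s : ℝ))⌋₊ := ⟨_, rfl⟩
  rw [← hy]
  constructor
  · obtain ⟨a1, a2, a3, a4, a5, a6⟩ := hX0 P hPK hPX hPad Y hXY y hy
    exact hlaw (QS P) Z Y y hper (fun p hp => qs_adm P hPad p hp) a1 a2 a3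
      (fun T h1 h2 => (a6 T h1 h2).2)
  · obtain ⟨a1, a2, a3, a4, a5, a6⟩ := hX1 P hPK hPX hPad Y hXY y hy
    exact hgap (QS P) Z Y y hper (fun p hp => qs_adm P hPad p hp) a1 a2 a3 a4 a5
      (fun T h1 h2 => (a6 T h1 h2).2)

end Pool.Agent.TH464.PO
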