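import Pool.Agent.TH464.PO.Small
import Pool.Agent.TH464.PO.AvgS
import Pool.Agent.W123.RU.PolyV

set_option autoImplicit false

/-!
# The average of the singular series over the sets of `k` shifts
-/

namespace Pool.Agent.TH464.PO

open Finset Pool.Agent.H373R2.T7 Pool.Agent.W123.RP Pool.Agent.W123.RU

/-! ### one factor -/

lemma pow_le_quad (k : ℕ) (u : ℝ) (h0 : 0 ≤ u) (h1 : u ≤ 1) :
    (1 - u) ^ k ≤ 1 - k * u + (k * u) ^ 2 / 2 := by
  induction k with
  | zero => simp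
  | succ k ih =>
    have hk : (0 : ℝ) ≤ k := Nat.cast_nonneg k
    calc (1 - u) ^ (k + 1) = (1 - u) * (1 - u) ^ k := by rw [pow_succ]; ring
      _ ≤ (1 - u) * (1 - k * u + (k * u) ^ 2 / 2) := mul_le_mul_of_nonneg_left ih (by linarith)
      _ ≤ 1 - ((k + 1 : ℕ) : ℝ) * u + (((k + 1 : ℕ) : ℝ) * u) ^ 2 / 2 := by
        push_cast
        have h2 : 0 ≤ (k : ℝ) ^ 2 * u ^ 3 := by positivity
        nlinarith [sq_nonneg u]

lemma factor_low (k : ℕ) (u x A : ℝ) (h0 : 0 ≤ u) (h1 : u ≤ 1) (hx : x ≤ k * u) (hk : k * u ≤ 1)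
    (hA : (k * u) ^ 2 ≤ A) : (1 - u) ^ k * (1 - A) ≤ 1 - x := by
  have h2 := pow_le_quad k u h0 h1
  have h3 : 0 ≤ (1 - u) ^ k := pow_nonneg (by linarith) k
  have h4 : (1 - u) ^ k * (1 - A) ≤ (1 - u) ^ k * (1 - (k * u) ^ 2) :=
    mul_le_mul_of_nonneg_left (by linarith) h3
  have hku : 0 ≤ k * u := by positivity
  have h5 : (k * u) ^ 2 ≤ 1 := by nlinarith
  have h6 : (1 - u) ^ k * (1 - (k * u) ^ 2) ≤ (1 - k * u + (k * u) ^ 2 / 2) * (1 - (k * u) ^ 2) :=
    mul_le_mul_of_nonneg_right h2 (by linarith)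
  have h7 : (1 - k * u + (k * u) ^ 2 / 2) * (1 - (k * u) ^ 2) ≤ 1 - k * u := by
    nlinarith [mul_nonneg (sq_nonneg (k * u)) (sq_nonneg (1 - k * u))]
  linarith

/-- a collision -/
def Cl (Q : ℕ → ℕ → Prop) (H : Finset ℕ) (p : ℕ) : Prop :=
  ∃ a ∈ H, ∃ b ∈ H, a < b ∧ CoG Q p (b - a)

open Classical in
lemma nuB_eq_of_not_Cl (Q : ℕ → ℕ → Prop) (c : ℕ) (hQ : PerB Q c) (H : Finset ℕ) (p : ℕ)
    (h : ¬ Cl Q H p) : nuB (QH Q H) p = H.card * nuB Q p := by
  have h1 : (range p).filter (fun r => QH Q H p r) =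
      H.biUnion (fun h => (range p).filter (fun r => Q p (r + h))) := by
    ext r
    rw [mem_filter, mem_biUnion]
    unfold QH
    constructor
    · rintro ⟨hr1, h, hh, hq⟩
      exact ⟨h, hh, mem_filter.2 ⟨hr1, hq⟩⟩
    · rintro ⟨h, hh, hr⟩
      rw [mem_filter] at hr
      exact ⟨hr.1, h, hh, hr.2⟩
  have hd : (H : Set ℕ).PairwiseDisjoint (fun h => (range p).filter (fun r => Q p (r + h))) := by
    intro a ha b hb hab
    rw [Function.onFun, Finset.disjoint_left]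
    intro r hr hr'
    rw [mem_filter] at hr hr'
    apply h
    rcases Nat.lt_or_gt_of_ne hab with h2 | h2
    · refine ⟨a, ha, b, hb, h2, r + a, hr.2, ?_⟩
      have : r + a + (b - a) = r + b := by omega
      rw [this]
      exact hr'.2
    · refine ⟨b, hb, a, ha, h2, r + b, hr'.2, ?_⟩
      have : r + b + (a - b) = r + a := by omega
      rw [this]
      exact hr.2
  have h2 := Finset.card_biUnion hd
  have h3 : ∀ h ∈ H, ((range p).filter (fun r => Q p (r + h))).card = nuB Q p :=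
    fun a _ => nuB_shift Q c hQ a p
  rw [Finset.sum_congr rfl h3, Finset.sum_const, smul_eq_mul, ← h1] at h2
  rw [← h2]
  unfold nuB
  congr

open Classical in
/-- upper bound for one factor -/
lemma factor_up (Q : ℕ → ℕ → Prop) (c : ℕ) (hQ : PerB Q c) (H : Finset ℕ) (p : ℕ) (hp : p.Prime)
    (hbig : 2 * (H.card * c) ≤ p) : 1 - (nuB (QH Q H) p : ℝ) / p ≤
      (1 - (nuB Q p : ℝ) / p) ^ H.card *
        (if Cl Q H p then 1 + ((2 * (H.card * c) : ℕ) : ℝ) / p else 1) := by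
  have hp0 : (0 : ℝ) < p := by exact_mod_cast hp.pos
  have hfew := hQ.few p hp
  obtain ⟨k, hk⟩ : ∃ k, k = H.card := ⟨_, rfl⟩
  rw [← hk] at hbig ⊢
  obtain ⟨u, hu⟩ : ∃ u : ℝ, u = (nuB Q p : ℝ) / p := ⟨_, rfl⟩
  rw [← hu]
  have hu0 : 0 ≤ u := by rw [hu]; positivity
  have hu1 : u ≤ 1 := by
    rw [hu, div_le_one hp0]
    exact_mod_cast nuB_le Q p
  have hc : (nuB Q p : ℝ) ≤ c := by exact_mod_cast hfew
  have hk0 : (0 : ℝ) ≤ k := Nat.cast_nonneg k
  have hku : (k : ℝ) * u ≤ ((k * c : ℕ) : ℝ) / p := by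
    rw [hu, ← mul_div_assoc]
    apply div_le_div_of_nonneg_right _ hp0.le
    push_cast
    gcongr
  have hkc : ((k * c : ℕ) : ℝ) / p ≤ 1 / 2 := by
    rw [div_le_div_iff₀ hp0 (by norm_num)]
    have : ((2 * (k * c) : ℕ) : ℝ) ≤ p := by exact_mod_cast hbig
    push_cast at this ⊢
    linarith
  have hber := one_add_mul_le_pow (a := -u) (by linarith) k
  have hber' : 1 - k * u ≤ (1 - u) ^ k := by
    calc 1 - k * u = 1 + k * -u := by ring
      _ ≤ (1 + -u) ^ k := hber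
      _ = (1 - u) ^ k := by ring
  by_cases h : Cl Q H p
  · rw [if_pos h]
    have h1 : 1 - (nuB (QH Q H) p : ℝ) / p ≤ 1 := by
      have : (0 : ℝ) ≤ (nuB (QH Q H) p : ℝ) / p := by positivity
      linarith
    refine h1.trans ?_
    obtain ⟨t, ht⟩ : ∃ t : ℝ, t = k * u := ⟨_, rfl⟩
    have ht0 : 0 ≤ t := by rw [ht]; positivity
    have ht1 : t ≤ 1 / 2 := by rw [ht]; linarith
    have h2 : 1 + 2 * t ≤ 1 + ((2 * (k * c) : ℕ) : ℝ) / p := by
      have : ((2 * (k * c) : ℕ) : ℝ) / p = 2 * (((k * c : ℕ) : ℝ) / p) := by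
        push_cast
        ring
      rw [this, ht]
      linarith
    calc (1 : ℝ) ≤ (1 - t) * (1 + 2 * t) := by nlinarith
      _ ≤ (1 - u) ^ k * (1 + ((2 * (k * c) : ℕ) : ℝ) / p) := by
        apply mul_le_mul (by rw [ht]; exact hber') h2 (by linarith)
        exact pow_nonneg (by linarith) k
  · rw [if_neg h, mul_one, nuB_eq_of_not_Cl Q c hQ H p h, ← hk]
    refine le_trans (le_of_eq ?_) hber'
    rw [hu]
    push_cast
    ring

open Classical in
/-- lower bound for one factor -/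
lemma factor_lo (Q : ℕ → ℕ → Prop) (c : ℕ) (hQ : PerB Q c) (H : Finset ℕ) (p : ℕ) (hp : p.Prime)
    (hbig : 2 * (H.card * c) ≤ p) :
      (1 - (nuB Q p : ℝ) / p) ^ H.card * (1 - ((H.card * c : ℕ) : ℝ) ^ 2 / (p : ℝ) ^ 2) ≤
        1 - (nuB (QH Q H) p : ℝ) / p := by
  have hp0 : (0 : ℝ) < p := by exact_mod_cast hp.pos
  have hfew := hQ.few p hp
  have hc : (nuB Q p : ℝ) ≤ c := by exact_mod_cast hfew
  have hk0 : (0 : ℝ) ≤ (H.card : ℝ) := Nat.cast_nonneg _
  have hku : (H.card : ℝ) * ((nuB Q p : ℝ) / p) ≤ ((H.card * c : ℕ) : ℝ) / p := by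
    rw [← mul_div_assoc]
    apply div_le_div_of_nonneg_right _ hp0.le
    push_cast
    gcongr
  have hkc : ((H.card * c : ℕ) : ℝ) / p ≤ 1 := by
    rw [div_le_one hp0]
    have : H.card * c ≤ p := by omega
    exact_mod_cast this
  apply factor_low
  · positivity
  · rw [div_le_one hp0]
    exact_mod_cast nuB_le Q p
  · rw [← mul_div_assoc]
    apply div_le_div_of_nonneg_right _ hp0.le
    exact_mod_cast nuB_QH_le Q c hQ H p
  · exact hku.trans hkc
  · rw [← div_pow]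
    apply pow_le_pow_left₀ (by positivity) hku

/-! ### products of numbers at least one -/

lemma single_le_prod_one {ι : Type*} (s : Finset ι) (f : ι → ℝ) (hf : ∀ i ∈ s, 1 ≤ f i) (i : ι)
    (hi : i ∈ s) : f i ≤ ∏ j ∈ s, f j := by
  classical
  have h : ∏ j ∈ {i}, f j ≤ ∏ j ∈ s, f j := by
    apply Finset.prod_le_prod_of_subset_of_one_le (by simpa using hi)
    · intro j hj
      rw [mem_singleton] at hj
      rw [hj]
      linarith [hf i hi]
    · intro j hj _
      exact hf j hj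
  simpa using h

lemma prod_sub_one_le {ι : Type*} (s : Finset ι) (f : ι → ℝ) (hf : ∀ i ∈ s, 1 ≤ f i) (M : ℕ)
    (hM : s.card ≤ M) : ∏ i ∈ s, f i - 1 ≤ ∑ i ∈ s, (f i ^ M - 1) := by
  rcases s.eq_empty_or_nonempty with h | h
  · rw [h]; simp
  · obtain ⟨i, hi, hmax⟩ := Finset.exists_max_image s f h
    have h1 : ∏ j ∈ s, f j ≤ f i ^ s.card := by
      rw [← Finset.prod_const]
      exact Finset.prod_le_prod (fun j hj => by linarith [hf j hj]) hmax
    have h2 : f i ^ s.card ≤ f i ^ M := pow_le_pow_right₀ (hf i hi) hM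
    have h3 : f i ^ M - 1 ≤ ∑ i ∈ s, (f i ^ M - 1) :=
      Finset.single_le_sum (f := fun i => f i ^ M - 1) (fun j hj => by
        have := one_le_pow₀ (hf j hj) (n := M)
        linarith) hi
    linarith

lemma pow_factor (K M : ℕ) (x : ℝ) (h0 : 0 ≤ x) (h1 : x ≤ 1) :
    (1 + K * x) ^ M ≤ 1 + (((1 + K) ^ M - 1 : ℕ) : ℝ) * x := by
  have hcast : ∀ M : ℕ, (((1 + K) ^ M - 1 : ℕ) : ℝ) = (1 + (K : ℝ)) ^ M - 1 := by
    intro M
    rw [Nat.cast_sub (Nat.one_le_pow _ _ (by omega))]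
    push_cast
    ring
  rw [hcast]
  induction M with
  | zero => simp
  | succ M ih =>
    have hK : (0 : ℝ) ≤ K := Nat.cast_nonneg K
    have h3 : (1 : ℝ) ≤ (1 + (K : ℝ)) ^ M := one_le_pow₀ (by linarith)
    have h4 : x * x ≤ x := by nlinarith
    have h5 : ((1 + (K : ℝ)) ^ M - 1) * K * (x * x) ≤ ((1 + (K : ℝ)) ^ M - 1) * K * x :=
      mul_le_mul_of_nonneg_left h4 (mul_nonneg (by linarith) hK)
    calc (1 + K * x) ^ (M + 1) = (1 + K * x) ^ M * (1 + K * x) := pow_succ _ _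
      _ ≤ (1 + ((1 + (K : ℝ)) ^ M - 1) * x) * (1 + K * x) :=
        mul_le_mul_of_nonneg_right ih (by positivity)
      _ = 1 + K * x + ((1 + (K : ℝ)) ^ M - 1) * x + ((1 + (K : ℝ)) ^ M - 1) * K * (x * x) := by ring
      _ ≤ 1 + ((1 + (K : ℝ)) ^ (M + 1) - 1) * x := by
        rw [pow_succ]
        linarith

/-! ### the tail of the singular series -/

/-- pairs of shifts -/
def prs (H : Finset ℕ) : Finset (ℕ × ℕ) := (H ×ˢ H).filter (fun x => x.1 < x.2)

lemma prs_card (H : Finset ℕ) : (prs H).card ≤ H.card ^ 2 := by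
  unfold prs
  refine (card_filter_le _ _).trans ?_
  rw [card_product, sq]

open Classical in
/-- the product over the collision primes of one shift -/
noncomputable def Fp (Q : ℕ → ℕ → Prop) (K w y t : ℕ) : ℝ :=
  ∏ p ∈ (pz y).filter (fun p : ℕ => w < p ∧ CoG Q p t), (1 + (K : ℝ) / p)

open Classical in
lemma Fp_ge (Q : ℕ → ℕ → Prop) (K w y t : ℕ) : 1 ≤ Fp Q K w y t := by
  unfold Fp
  apply Finset.one_le_prod
  intro p _
  have : 0 ≤ (K : ℝ) / p := by positivity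
  linarith

open Classical in
lemma Fp_pow (Q : ℕ → ℕ → Prop) (K M w y t : ℕ) :
    Fp Q K w y t ^ M ≤ Fp Q ((1 + K) ^ M - 1) w y t := by
  unfold Fp
  rw [← Finset.prod_pow]
  apply Finset.prod_le_prod
  · intro p _
    positivity
  · intro p hp
    rw [mem_filter] at hp
    have hp1 : (1 : ℝ) ≤ p := by exact_mod_cast (mem_pz.1 hp.1).2.one_lt.le
    have h := pow_factor K M (1 / (p : ℝ)) (by positivity) (by
      rw [div_le_one (by linarith)]
      exact hp1)
    rw [mul_one_div, mul_one_div] at h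
    exact h

/-- the part of `V` above `w` -/
noncomputable def Vt (Q : ℕ → ℕ → Prop) (w y : ℕ) : ℝ :=
  ∏ p ∈ (pz y).filter (fun p => w < p), (1 - (nuB Q p : ℝ) / p)

lemma Vq_split (Q : ℕ → ℕ → Prop) (w y : ℕ) (hwy : w ≤ y) : Vq Q y = Vq Q w * Vt Q w y := by
  unfold Vq Vt
  rw [← Finset.prod_filter_mul_prod_filter_not (pz y) (fun p => p ≤ w)]
  congr 1
  · apply Finset.prod_congr _ (fun _ _ => rfl)
    ext p
    rw [mem_filter, mem_pz, mem_pz]
    constructor
    · rintro ⟨⟨h1, h2⟩, h3⟩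
      exact ⟨h3, h2⟩
    · rintro ⟨h1, h2⟩
      exact ⟨⟨h1.trans hwy, h2⟩, h1⟩
  · apply Finset.prod_congr _ (fun _ _ => rfl)
    ext p
    rw [mem_filter, mem_filter, not_le]

lemma Vt_nonneg (Q : ℕ → ℕ → Prop) (w y : ℕ) : 0 ≤ Vt Q w y := by
  unfold Vt
  apply Finset.prod_nonneg
  intro p hp
  rw [mem_filter] at hp
  exact one_sub_nonneg Q p (mem_pz.1 hp.1).2

open Classical in
/-- upper bound for the tail -/
lemma tail_up (Q : ℕ → ℕ → Prop) (c : ℕ) (hQ : PerB Q c) (H : Finset ℕ) (w y : ℕ)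
    (hbig : 2 * (H.card * c) ≤ w) :
    Vt (QH Q H) w y ≤ Vt Q w y ^ H.card *
      (1 + ∑ x ∈ prs H, (Fp Q ((1 + 2 * (H.card * c)) ^ (H.card ^ 2) - 1) w y (x.2 - x.1) - 1)) := by
  obtain ⟨K, hK⟩ : ∃ K, K = 2 * (H.card * c) := ⟨_, rfl⟩
  have h1 : Vt (QH Q H) w y ≤ ∏ p ∈ (pz y).filter (fun p => w < p),
      ((1 - (nuB Q p : ℝ) / p) ^ H.card * (if Cl Q H p then 1 + (K : ℝ) / p else 1)) := by
    unfold Vt
    apply Finset.prod_le_prod
    · intro p hp
      rw [mem_filter] at hp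
      exact one_sub_nonneg _ p (mem_pz.1 hp.1).2
    · intro p hp
      rw [mem_filter] at hp
      have h2 := factor_up Q c hQ H p (mem_pz.1 hp.1).2 (by omega)
      rw [hK]
      exact h2
  have h2 : ∏ p ∈ (pz y).filter (fun p => w < p), (if Cl Q H p then 1 + (K : ℝ) / p else 1) ≤
      ∏ x ∈ prs H, Fp Q K w y (x.2 - x.1) := by
    have e : ∏ x ∈ prs H, Fp Q K w y (x.2 - x.1) = ∏ p ∈ (pz y).filter (fun p => w < p),
        ∏ x ∈ prs H, (if CoG Q p (x.2 - x.1) then 1 + (K : ℝ) / p else 1) := by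
      rw [Finset.prod_comm]
      apply Finset.prod_congr rfl
      intro x _
      unfold Fp
      rw [← Finset.filter_filter, Finset.prod_filter]
    rw [e]
    apply Finset.prod_le_prod
    · intro p _
      split_ifs <;> positivity
    · intro p _
      have hge : ∀ x ∈ prs H, (1 : ℝ) ≤ (if CoG Q p (x.2 - x.1) then 1 + (K : ℝ) / p else 1) := by
        intro x _
        have : 0 ≤ (K : ℝ) / p := by positivity
        split_ifs <;> linarith
      split_ifs with h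
      · obtain ⟨a, ha, b, hb, hab, hco⟩ := h
        have hmem : (a, b) ∈ prs H := by
          unfold prs
          rw [mem_filter, mem_product]
          exact ⟨⟨ha, hb⟩, hab⟩
        have h3 := single_le_prod_one (prs H)
          (fun x => if CoG Q p (x.2 - x.1) then 1 + (K : ℝ) / p else 1) hge (a, b) hmem
        simp only [if_pos hco] at h3
        exact h3
      · exact Finset.one_le_prod hge
  have h3 : ∏ x ∈ prs H, Fp Q K w y (x.2 - x.1) - 1 ≤
      ∑ x ∈ prs H, (Fp Q ((1 + K) ^ (H.card ^ 2) - 1) w y (x.2 - x.1) - 1) := by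
    refine (prod_sub_one_le (prs H) (fun x => Fp Q K w y (x.2 - x.1))
      (fun x _ => Fp_ge Q K w y _) (H.card ^ 2) (prs_card H)).trans ?_
    apply Finset.sum_le_sum
    intro x _
    have := Fp_pow Q K (H.card ^ 2) w y (x.2 - x.1)
    linarith
  rw [← hK]
  refine h1.trans ?_
  rw [Finset.prod_mul_distrib, Finset.prod_pow]
  apply mul_le_mul_of_nonneg_left _ (pow_nonneg (Vt_nonneg Q w y) _)
  linarith

lemma prod_one_sub_ge {ι : Type*} (s : Finset ι) (f : ι → ℝ) (h0 : ∀ i ∈ s, 0 ≤ f i)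
    (h1 : ∀ i ∈ s, f i ≤ 1) : 1 - ∑ i ∈ s, f i ≤ ∏ i ∈ s, (1 - f i) := by
  classical
  induction s using Finset.induction_on with
  | empty => simp
  | insert a s ha ih =>
    rw [Finset.sum_insert ha, Finset.prod_insert ha]
    have h2 := ih (fun i hi => h0 i (mem_insert_of_mem hi)) (fun i hi => h1 i (mem_insert_of_mem hi))
    have h3 : 0 ≤ f a := h0 a (mem_insert_self _ _)
    have h4 : f a ≤ 1 := h1 a (mem_insert_self _ _)
    have h5 : 0 ≤ ∑ i ∈ s, f i := Finset.sum_nonneg fun i hi => h0 i (mem_insert_of_mem hi)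
    calc 1 - (f a + ∑ i ∈ s, f i) ≤ (1 - f a) * (1 - ∑ i ∈ s, f i) := by nlinarith
      _ ≤ _ := mul_le_mul_of_nonneg_left h2 (by linarith)

/-- lower bound for the tail -/
lemma tail_lo (Q : ℕ → ℕ → Prop) (c : ℕ) (hQ : PerB Q c) (H : Finset ℕ) (w y : ℕ) (hw : 1 ≤ w)
    (hbig : 2 * (H.card * c) ≤ w) :
    Vt Q w y ^ H.card * (1 - ((H.card * c : ℕ) : ℝ) ^ 2 / w) ≤ Vt (QH Q H) w y := by
  have h1 : ∏ p ∈ (pz y).filter (fun p => w < p),
      ((1 - (nuB Q p : ℝ) / p) ^ H.card * (1 - ((H.card * c : ℕ) : ℝ) ^ 2 / (p : ℝ) ^ 2)) ≤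
      Vt (QH Q H) w y := by
    unfold Vt
    apply Finset.prod_le_prod
    · intro p hp
      rw [mem_filter] at hp
      apply mul_nonneg (pow_nonneg (one_sub_nonneg Q p (mem_pz.1 hp.1).2) _)
      have hp0 : (0 : ℝ) < p := by exact_mod_cast (mem_pz.1 hp.1).2.pos
      rw [sub_nonneg, div_le_one (by positivity)]
      apply pow_le_pow_left₀ (by positivity)
      have : H.card * c ≤ p := by omega
      exact_mod_cast this
    · intro p hp
      rw [mem_filter] at hp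
      exact factor_lo Q c hQ H p (mem_pz.1 hp.1).2 (by omega)
  refine le_trans ?_ h1
  rw [Finset.prod_mul_distrib, Finset.prod_pow]
  apply mul_le_mul_of_nonneg_left _ (pow_nonneg (Vt_nonneg Q w y) _)
  refine le_trans ?_ (prod_one_sub_ge _ _ (fun p _ => by positivity) ?_)
  · have h2 := sum_inv_sq w y hw
    have h3 : ∑ p ∈ (pz y).filter (fun p => w < p), ((H.card * c : ℕ) : ℝ) ^ 2 / (p : ℝ) ^ 2 ≤
        ((H.card * c : ℕ) : ℝ) ^ 2 * (1 / w) := by
      calc ∑ p ∈ (pz y).filter (fun p => w < p), ((H.card * c : ℕ) : ℝ) ^ 2 / (p : ℝ) ^ 2 ≤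
          ∑ p ∈ (Icc 1 y).filter (fun n => w < n), ((H.card * c : ℕ) : ℝ) ^ 2 / (p : ℝ) ^ 2 := by
            apply Finset.sum_le_sum_of_subset_of_nonneg
            · intro p hp
              rw [mem_filter, mem_pz] at hp
              rw [mem_filter, mem_Icc]
              exact ⟨⟨hp.1.2.one_lt.le, hp.1.1⟩, hp.2⟩
            · intros; positivity
        _ = ((H.card * c : ℕ) : ℝ) ^ 2 * ∑ p ∈ (Icc 1 y).filter (fun n => w < n), 1 / (p : ℝ) ^ 2 := by
            rw [Finset.mul_sum]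
            apply Finset.sum_congr rfl
            intros
            ring
        _ ≤ _ := by gcongr
    have h4 : ((H.card * c : ℕ) : ℝ) ^ 2 * (1 / w) = ((H.card * c : ℕ) : ℝ) ^ 2 / w := by ring
    linarith
  · intro p hp
    rw [mem_filter] at hp
    have hp0 : (0 : ℝ) < p := by exact_mod_cast (mem_pz.1 hp.1).2.pos
    rw [div_le_one (by positivity)]
    apply pow_le_pow_left₀ (by positivity)
    have : H.card * c ≤ p := by omega
    exact_mod_cast this

end Pool.Agent.TH464.PO
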