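import Pool.Agent.TH464.PO.Sing

set_option autoImplicit false

/-!
# The average of the singular series over the sets of `k` shifts: conclusion
-/

namespace Pool.Agent.TH464.PO

open Finset Filter Pool.Agent.H373R2.T7 Pool.Agent.W123.RP Pool.Agent.W123.RU

/-- uniform lower bound for the sieve product -/
lemma W_low (c : ℕ) : ∃ (c1 : ℝ) (B w1 : ℕ), 0 < c1 ∧ 2 ≤ w1 ∧ ∀ w : ℕ, w1 ≤ w →
    ∀ Q : ℕ → ℕ → Prop, PerB Q c → (∀ p : ℕ, p.Prime → nuB Q p < p) →
      c1 / Real.log w ^ B ≤ Vq Q w := by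
  obtain ⟨C, N0, hV⟩ := Vz_low
  refine ⟨(∏ p ∈ pz (2 * c), (p : ℝ)⁻¹) * Real.exp (-(∑' n : ℕ, 2 * (c : ℝ) ^ 2 / (n : ℝ) ^ 2)),
    C * c, max N0 2, ?_, le_max_right _ _, ?_⟩
  · apply mul_pos _ (Real.exp_pos _)
    apply Finset.prod_pos
    intro p hp
    have : (0 : ℝ) < p := by exact_mod_cast (mem_pz.1 hp).2.pos
    positivity
  intro w hw Q hQ hadm
  have hw2 : 2 ≤ w := (le_max_right _ _).trans hw
  have hlog : 0 < Real.log w := Real.log_pos (by exact_mod_cast (by omega : 1 < w))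
  have h1 := hV w ((le_max_left _ _).trans hw)
  refine le_trans ?_ (Pool.Agent.W123.RU.Poly.Vq_low Q c hQ hadm w)
  obtain ⟨K, hK⟩ : ∃ K, K = (∏ p ∈ pz (2 * c), (p : ℝ)⁻¹) *
    Real.exp (-(∑' n : ℕ, 2 * (c : ℝ) ^ 2 / (n : ℝ) ^ 2)) := ⟨_, rfl⟩
  rw [← hK]
  have hK0 : 0 ≤ K := by
    rw [hK]
    apply mul_nonneg _ (Real.exp_pos _).le
    apply Finset.prod_nonneg
    intro p _
    positivity
  have h2 : 1 / Real.log w ^ (C * c) ≤ Real.exp (-(∑ p ∈ pz w, (nuB Q p : ℝ) / p)) := by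
    calc 1 / Real.log w ^ (C * c) = (1 / Real.log w ^ C) ^ c := by
          rw [pow_mul, div_pow, one_pow]
      _ ≤ Vz w ^ c := pow_le_pow_left₀ (by positivity) h1 c
      _ ≤ (Real.exp (-(∑ p ∈ pz w, 1 / (p : ℝ)))) ^ c := by
        apply pow_le_pow_left₀ (le_trans (by positivity) h1)
        unfold Vz
        rw [← Finset.sum_neg_distrib, Real.exp_sum]
        apply Finset.prod_le_prod
        · intro p hp
          have hp1 : (1 : ℝ) ≤ p := by exact_mod_cast (mem_pz.1 hp).2.one_lt.le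
          rw [sub_nonneg, div_le_one (by linarith)]
          exact hp1
        · intro p _
          have := Real.add_one_le_exp (-(1 / (p : ℝ)))
          linarith
      _ = Real.exp (-(∑ p ∈ pz w, (c : ℝ) / p)) := by
        rw [← Real.exp_nat_mul]
        congr 1
        rw [mul_neg, Finset.mul_sum]
        congr 1
        apply Finset.sum_congr rfl
        intros
        ring
      _ ≤ _ := by
        apply Real.exp_le_exp.2
        apply neg_le_neg
        apply Finset.sum_le_sum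
        intro p hp
        apply div_le_div_of_nonneg_right _ (Nat.cast_nonneg _)
        exact_mod_cast hQ.few p (mem_pz.1 hp).2
  calc K / Real.log w ^ (C * c) = K * (1 / Real.log w ^ (C * c)) := by ring
    _ ≤ _ := mul_le_mul_of_nonneg_left h2 hK0

open Classical in
/-- few sets contain two given elements -/
lemma card_two (k T a b : ℕ) (hab : a ≠ b) :
    ((powersetCard (k + 2) (Icc 1 T)).filter (fun H => a ∈ H ∧ b ∈ H)).card ≤ T ^ k := by
  have h1 : ((powersetCard (k + 2) (Icc 1 T)).filter (fun H => a ∈ H ∧ b ∈ H)).card ≤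
      (powersetCard k (Icc 1 T)).card := by
    apply Finset.card_le_card_of_injOn (fun H => (H.erase a).erase b)
    · intro H hH
      rw [Finset.mem_coe, mem_filter, mem_powersetCard] at hH
      obtain ⟨⟨h1, h2⟩, h3, h4⟩ := hH
      rw [Finset.mem_coe, mem_powersetCard]
      refine ⟨((erase_subset _ _).trans (erase_subset _ _)).trans h1, ?_⟩
      beta_reduce
      rw [card_erase_of_mem (mem_erase.2 ⟨hab.symm, h4⟩), card_erase_of_mem h3, h2]
      omega
    · intro H hH H' hH' h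
      rw [Finset.mem_coe, mem_filter] at hH hH'
      have e1 : ∀ H : Finset ℕ, a ∈ H → b ∈ H → H = insert a (insert b ((H.erase a).erase b)) := by
        intro H ha hb
        rw [insert_erase (mem_erase.2 ⟨hab.symm, hb⟩), insert_erase ha]
      simp only at h
      rw [e1 H hH.2.1 hH.2.2, e1 H' hH'.2.1 hH'.2.2, h]
  refine h1.trans ?_
  rw [card_powersetCard, Nat.card_Icc, Nat.add_sub_cancel]
  exact Nat.choose_le_pow T k

open Classical in
/-- double counting -/
lemma sum_prs (k T : ℕ) (g : ℕ → ℝ) (hg : ∀ t, 0 ≤ g t) :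
    ∑ H ∈ powersetCard (k + 1) (Icc 1 T), ∑ x ∈ prs H, g (x.2 - x.1) ≤
      (T : ℝ) ^ k * ∑ t ∈ Icc 1 T, g t := by
  rcases k with _ | k
  · have h0 : ∀ H ∈ powersetCard (0 + 1) (Icc 1 T), ∑ x ∈ prs H, g (x.2 - x.1) = 0 := by
      intro H hH
      rw [mem_powersetCard] at hH
      obtain ⟨a, ha⟩ := Finset.card_eq_one.1 hH.2
      apply Finset.sum_eq_zero
      intro x hx
      unfold prs at hx
      rw [mem_filter, mem_product, ha, mem_singleton, mem_singleton] at hx
      omega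
    rw [Finset.sum_eq_zero h0]
    exact mul_nonneg (by positivity) (Finset.sum_nonneg fun t _ => hg t)
  · have h1 : ∀ H ∈ powersetCard (k + 1 + 1) (Icc 1 T), ∑ x ∈ prs H, g (x.2 - x.1) =
        ∑ x ∈ prs (Icc 1 T), if (x.1 ∈ H ∧ x.2 ∈ H) then g (x.2 - x.1) else 0 := by
      intro H hH
      rw [mem_powersetCard] at hH
      rw [← Finset.sum_filter]
      apply Finset.sum_congr _ (fun _ _ => rfl)
      ext x
      unfold prs
      rw [mem_filter, mem_filter, mem_filter, mem_product, mem_product]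
      constructor
      · rintro ⟨⟨a1, a2⟩, a3⟩
        exact ⟨⟨⟨hH.1 a1, hH.1 a2⟩, a3⟩, a1, a2⟩
      · rintro ⟨⟨_, a3⟩, a1, a2⟩
        exact ⟨⟨a1, a2⟩, a3⟩
    rw [Finset.sum_congr rfl h1, Finset.sum_comm]
    have h2 : ∀ x ∈ prs (Icc 1 T), ∑ H ∈ powersetCard (k + 1 + 1) (Icc 1 T),
        (if (x.1 ∈ H ∧ x.2 ∈ H) then g (x.2 - x.1) else 0) ≤ (T : ℝ) ^ k * g (x.2 - x.1) := by
      intro x hx
      rw [← Finset.sum_filter, Finset.sum_const, nsmul_eq_mul]
      apply mul_le_mul_of_nonneg_right _ (hg _)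
      have hne : x.1 ≠ x.2 := by
        unfold prs at hx
        rw [mem_filter] at hx
        exact hx.2.ne
      exact_mod_cast card_two k T x.1 x.2 hne
    refine (Finset.sum_le_sum h2).trans ?_
    rw [← Finset.mul_sum, pow_succ, mul_assoc]
    apply mul_le_mul_of_nonneg_left _ (by positivity)
    have h3 : ∑ x ∈ prs (Icc 1 T), g (x.2 - x.1) ≤ ∑ a ∈ Icc 1 T, ∑ t ∈ Icc 1 T, g t := by
      have h4 : ∑ x ∈ prs (Icc 1 T), g (x.2 - x.1) =
          ∑ a ∈ Icc 1 T, ∑ b ∈ (Icc 1 T).filter (fun b => a < b), g (b - a) := by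
        unfold prs
        rw [Finset.sum_filter, Finset.sum_product]
        apply Finset.sum_congr rfl
        intro a _
        rw [Finset.sum_filter]
      rw [h4]
      apply Finset.sum_le_sum
      intro a ha
      have h5 : ∑ b ∈ (Icc 1 T).filter (fun b => a < b), g (b - a) =
          ∑ t ∈ ((Icc 1 T).filter (fun b => a < b)).image (fun b => b - a), g t := by
        rw [Finset.sum_image]
        intro b hb b' hb' h
        rw [Finset.mem_coe, mem_filter] at hb hb'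
        simp only at h
        omega
      rw [h5]
      apply Finset.sum_le_sum_of_subset_of_nonneg
      · intro t ht
        rw [mem_image] at ht
        obtain ⟨b, hb, rfl⟩ := ht
        rw [mem_filter, mem_Icc] at hb
        rw [mem_Icc]
        omega
      · intros
        exact hg _
    refine h3.trans (le_of_eq ?_)
    rw [Finset.sum_const, Nat.card_Icc, Nat.add_sub_cancel, nsmul_eq_mul]

/-- the choice of `w` -/
lemma exists_w (A B k : ℕ) (c1 η : ℝ) (hc1 : 0 < c1) (hη : 0 < η) (w0 : ℕ) :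
    ∃ w : ℕ, w0 ≤ w ∧ 2 ≤ w ∧ (A : ℝ) / w ≤ η * (c1 / Real.log w ^ B) ^ k ∧ (A : ℝ) / w ≤ η := by
  have h := ((isLittleO_log_rpow_rpow_atTop ((B * k : ℕ) : ℝ) (by norm_num : (0 : ℝ) < 1)).comp_tendsto
      tendsto_natCast_atTop_atTop).bound (by positivity : (0 : ℝ) < η * c1 ^ k / (A + 1))
  have h3 : ∀ᶠ w : ℕ in atTop, (A : ℝ) / η ≤ w := tendsto_natCast_atTop_atTop.eventually_ge_atTop _
  obtain ⟨w, h2, h3, hw0, hw2⟩ := (h.and (h3.and ((eventually_ge_atTop w0).and
    (eventually_ge_atTop 2)))).exists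
  refine ⟨w, hw0, hw2, ?_, ?_⟩
  · have hw1 : (1 : ℝ) ≤ w := by exact_mod_cast (by omega : 1 ≤ w)
    have hlog : 0 < Real.log w := Real.log_pos (by exact_mod_cast (by omega : 1 < w))
    simp only [Function.comp_def] at h2
    rw [Real.norm_of_nonneg (by positivity), Real.norm_of_nonneg (by positivity),
      Real.rpow_natCast, Real.rpow_one] at h2
    rw [div_pow, ← pow_mul, ← mul_div_assoc, div_le_div_iff₀ (by positivity) (by positivity)]
    have hA : (0 : ℝ) ≤ A := Nat.cast_nonneg A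
    calc (A : ℝ) * Real.log w ^ (B * k) ≤ (A + 1) * Real.log w ^ (B * k) := by
          gcongr
          linarith
      _ ≤ (A + 1) * (η * c1 ^ k / (A + 1) * w) := by gcongr
      _ = η * c1 ^ k * w := by field_simp
  · have hw1 : (0 : ℝ) < w := by exact_mod_cast (by omega : 0 < w)
    rw [div_le_iff₀ hη] at h3
    rw [div_le_iff₀ hw1]
    linarith

lemma exp_bound (η : ℝ) (h0 : 0 ≤ η) (h1 : η ≤ 1) : Real.exp η * (Real.exp η + η) - 1 ≤ 12 * η := by
  have h2 := Real.abs_exp_sub_one_le (x := η) (by rw [abs_of_nonneg h0]; exact h1)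
  rw [abs_of_nonneg h0] at h2
  have h3 := (abs_le.1 h2).2
  have h4 : 1 ≤ Real.exp η := Real.one_le_exp h0
  nlinarith

open Classical in
/-- **The average of the singular series.** -/
theorem sing_avg (c k : ℕ) (η : ℝ) (hη : 0 < η) (hη1 : η ≤ 1) :
    ∃ (w : ℕ) (η' : ℝ) (T0 : ℕ), 0 < η' ∧ ∀ T : ℕ, T0 ≤ T → ∀ Q : ℕ → ℕ → Prop, PerB Q c →
      (∀ p : ℕ, p.Prime → nuB Q p < p) → ∀ y : ℕ, w ≤ y →
      (∀ t ∈ Icc 1 T, ((((pz y).filter (fun p : ℕ => T < p ∧ CoG Q p t)).card : ℕ) : ℝ) ≤ η' * T) →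
      (1 - η) * ((T * Vq Q y) ^ (k + 1) / (k + 1).factorial) ≤
        ∑ H ∈ powersetCard (k + 1) (Icc 1 T), Vq (QH Q H) y ∧
      ∑ H ∈ powersetCard (k + 1) (Icc 1 T), Vq (QH Q H) y ≤
        (1 + η) * ((T * Vq Q y) ^ (k + 1) / (k + 1).factorial) := by
  obtain ⟨c1, B, w1, hc1, hw12, hW⟩ := W_low c
  obtain ⟨K, hK⟩ : ∃ K : ℕ, K = (1 + 2 * ((k + 1) * c)) ^ ((k + 1) ^ 2) - 1 := ⟨_, rfl⟩
  obtain ⟨A, hA⟩ : ∃ A : ℕ, A = 12 * (K * c ^ 2 + 1) * (k + 1).factorial + ((k + 1) * c) ^ 2 :=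
    ⟨_, rfl⟩
  obtain ⟨w, hw0, hw2, hAw, hAw'⟩ := exists_w A B (k + 1) c1 (η / 4) hc1 (by positivity)
    (max w1 (2 * ((k + 1) * c)))
  have hww1 : w1 ≤ w := (le_max_left _ _).trans hw0
  have hwc : 2 * ((k + 1) * c) ≤ w := (le_max_right _ _).trans hw0
  have hwr : (0 : ℝ) < w := by exact_mod_cast (by omega : 0 < w)
  obtain ⟨η1, hη1def⟩ : ∃ η1 : ℝ, η1 = ((K * c ^ 2 + 1 : ℕ) : ℝ) / w := ⟨_, rfl⟩
  have hη10 : 0 < η1 := by rw [hη1def]; positivity
  have hfac : (1 : ℝ) ≤ (k + 1).factorial := by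
    exact_mod_cast Nat.factorial_pos (k + 1)
  have hAge : 12 * η1 * (k + 1).factorial ≤ (A : ℝ) / w := by
    rw [hη1def, le_div_iff₀ hwr]
    have : ((12 * (K * c ^ 2 + 1) * (k + 1).factorial : ℕ) : ℝ) ≤ A := by
      exact_mod_cast (by omega : 12 * (K * c ^ 2 + 1) * (k + 1).factorial ≤ A)
    refine le_trans (le_of_eq ?_) this
    push_cast
    field_simp
  have hAge2 : (((k + 1) * c : ℕ) : ℝ) ^ 2 / w ≤ η / 4 := by
    refine le_trans ?_ hAw'
    apply div_le_div_of_nonneg_right _ hwr.le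
    exact_mod_cast (by omega : ((k + 1) * c) ^ 2 ≤ A)
  have hη1le : η1 ≤ 1 := by nlinarith
  obtain ⟨T1, hT1, havg⟩ := avg_sharp K (c ^ 2) w (by omega) η1 hη10 (by
    rw [hη1def]
    apply div_le_div_of_nonneg_right _ hwr.le
    push_cast
    linarith)
  obtain ⟨T2, hsmall⟩ := small_avg (k + 1) w (η / 4) (by positivity)
  refine ⟨w, η1 / (K + 1), max T1 T2, by positivity, ?_⟩
  intro T hT Q hQ hadm y hwy hlarge
  have hT1' : T1 ≤ T := (le_max_left _ _).trans hT
  have hT2' : T2 ≤ T := (le_max_right _ _).trans hT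
  obtain ⟨s1, s2⟩ := hsmall T hT2' Q c hQ hadm
  have hWpos := Vq_pos Q hadm w
  obtain ⟨W, hWdef⟩ : ∃ W, W = Vq Q w := ⟨_, rfl⟩
  obtain ⟨V, hV⟩ : ∃ V, V = Vt Q w y := ⟨_, rfl⟩
  have hV0 : 0 ≤ V := by rw [hV]; exact Vt_nonneg Q w y
  rw [← hWdef] at s1 s2 hWpos
  rw [Vq_split Q w y hwy, ← hWdef, ← hV]
  have hT0 : (0 : ℝ) ≤ T := Nat.cast_nonneg T
  have e1 : ((T : ℝ) * (W * V)) ^ (k + 1) / (k + 1).factorial =
      V ^ (k + 1) * ((T * W) ^ (k + 1) / (k + 1).factorial) := by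
    rw [← mul_assoc, mul_pow ((T : ℝ) * W) V]
    ring
  rw [e1]
  have hterm : ∀ H ∈ powersetCard (k + 1) (Icc 1 T), Vq (QH Q H) y = Vq (QH Q H) w * Vt (QH Q H) w y :=
    fun H _ => Vq_split _ w y hwy
  have hX0 : 0 ≤ (T * W) ^ (k + 1) / ((k + 1).factorial : ℝ) := by positivity
  have hVk : 0 ≤ V ^ (k + 1) := by positivity
  constructor
  · -- lower bound
    have h1 : ∀ H ∈ powersetCard (k + 1) (Icc 1 T),
        V ^ (k + 1) * (1 - η / 4) * Vq (QH Q H) w ≤ Vq (QH Q H) y := by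
      intro H hH
      rw [hterm H hH]
      rw [mem_powersetCard] at hH
      have h2 := tail_lo Q c hQ H w y (by omega) (by rw [hH.2]; exact hwc)
      rw [hH.2, ← hV] at h2
      have h3 : V ^ (k + 1) * (1 - η / 4) ≤ Vt (QH Q H) w y := by
        refine le_trans ?_ h2
        apply mul_le_mul_of_nonneg_left _ hVk
        linarith
      calc V ^ (k + 1) * (1 - η / 4) * Vq (QH Q H) w ≤ Vt (QH Q H) w y * Vq (QH Q H) w :=
            mul_le_mul_of_nonneg_right h3 (Vq_nonneg _ w)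
        _ = _ := mul_comm _ _
    have h2 := Finset.sum_le_sum h1
    rw [← Finset.mul_sum] at h2
    refine le_trans ?_ h2
    calc (1 - η) * (V ^ (k + 1) * ((T * W) ^ (k + 1) / (k + 1).factorial)) ≤
        V ^ (k + 1) * (1 - η / 4) * ((1 - η / 4) * ((T * W) ^ (k + 1) / (k + 1).factorial)) := by
          have h3 : 1 - η ≤ (1 - η / 4) * (1 - η / 4) := by nlinarith
          have h4 := mul_le_mul_of_nonneg_right h3 (mul_nonneg hVk hX0)
          calc (1 - η) * (V ^ (k + 1) * ((T * W) ^ (k + 1) / (k + 1).factorial)) ≤ _ := h4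
            _ = _ := by ring
      _ ≤ _ := mul_le_mul_of_nonneg_left s1 (mul_nonneg hVk (by linarith))
  · -- upper bound
    have h1 : ∀ H ∈ powersetCard (k + 1) (Icc 1 T), Vq (QH Q H) y ≤
        V ^ (k + 1) * (Vq (QH Q H) w + ∑ x ∈ prs H, (Fp Q K w y (x.2 - x.1) - 1)) := by
      intro H hH
      rw [hterm H hH]
      rw [mem_powersetCard] at hH
      have h2 := tail_up Q c hQ H w y (by rw [hH.2]; exact hwc)
      rw [hH.2, ← hV, ← hK] at h2
      have h3 : 0 ≤ ∑ x ∈ prs H, (Fp Q K w y (x.2 - x.1) - 1) := by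
        apply Finset.sum_nonneg
        intro x _
        have := Fp_ge Q K w y (x.2 - x.1)
        linarith
      have h4 := Vq_nonneg (QH Q H) w
      have h5 := Vq_le_one (QH Q H) w
      calc Vq (QH Q H) w * Vt (QH Q H) w y ≤ Vq (QH Q H) w * (V ^ (k + 1) *
            (1 + ∑ x ∈ prs H, (Fp Q K w y (x.2 - x.1) - 1))) := mul_le_mul_of_nonneg_left h2 h4
        _ = V ^ (k + 1) * (Vq (QH Q H) w +
            Vq (QH Q H) w * ∑ x ∈ prs H, (Fp Q K w y (x.2 - x.1) - 1)) := by ring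
        _ ≤ _ := by
          apply mul_le_mul_of_nonneg_left _ hVk
          have := mul_le_mul_of_nonneg_right h5 h3
          linarith
    have h2 := Finset.sum_le_sum h1
    rw [← Finset.mul_sum, Finset.sum_add_distrib] at h2
    refine h2.trans ?_
    have h3 := sum_prs k T (fun t => Fp Q K w y t - 1) (fun t => by
      have := Fp_ge Q K w y t
      linarith)
    have h4 := havg T hT1' (CoG Q) (coll_gen Q c hQ w) y (η1 / (K + 1)) (by positivity) (by
      rw [← mul_div_assoc, div_le_iff₀ (by positivity)]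
      have : (0 : ℝ) ≤ K := Nat.cast_nonneg K
      nlinarith) hlarge
    have h5 : ∑ t ∈ Icc 1 T, (Fp Q K w y t - 1) ≤ 12 * η1 * T := by
      rw [Finset.sum_sub_distrib, Finset.sum_const, Nat.card_Icc, Nat.add_sub_cancel, nsmul_eq_mul,
        mul_one]
      have h6 := exp_bound η1 hη10.le hη1le
      have h7 := mul_le_mul_of_nonneg_right h6 hT0
      unfold Fp
      linarith
    have h6 : ∑ H ∈ powersetCard (k + 1) (Icc 1 T), ∑ x ∈ prs H, (Fp Q K w y (x.2 - x.1) - 1) ≤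
        η / 4 * ((T * W) ^ (k + 1) / (k + 1).factorial) := by
      calc _ ≤ (T : ℝ) ^ k * ∑ t ∈ Icc 1 T, (Fp Q K w y t - 1) := h3
        _ ≤ (T : ℝ) ^ k * (12 * η1 * T) := mul_le_mul_of_nonneg_left h5 (by positivity)
        _ = 12 * η1 * (k + 1).factorial * (T ^ (k + 1) / (k + 1).factorial) := by
          rw [pow_succ]
          field_simp
        _ ≤ (η / 4 * (c1 / Real.log w ^ B) ^ (k + 1)) * (T ^ (k + 1) / (k + 1).factorial) := by
          apply mul_le_mul_of_nonneg_right (hAge.trans hAw) (by positivity)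
        _ ≤ (η / 4 * W ^ (k + 1)) * (T ^ (k + 1) / (k + 1).factorial) := by
          apply mul_le_mul_of_nonneg_right _ (by positivity)
          apply mul_le_mul_of_nonneg_left _ (by positivity)
          have hlog : 0 < Real.log w := Real.log_pos (by exact_mod_cast (by omega : 1 < w))
          apply pow_le_pow_left₀ (by positivity)
          rw [hWdef]
          exact hW w hww1 Q hQ hadm
        _ = _ := by
          rw [mul_pow]
          ring
    calc V ^ (k + 1) * (∑ H ∈ powersetCard (k + 1) (Icc 1 T), Vq (QH Q H) w +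
        ∑ H ∈ powersetCard (k + 1) (Icc 1 T), ∑ x ∈ prs H, (Fp Q K w y (x.2 - x.1) - 1)) ≤
        V ^ (k + 1) * ((1 + η / 4) * ((T * W) ^ (k + 1) / (k + 1).factorial) +
          η / 4 * ((T * W) ^ (k + 1) / (k + 1).factorial)) := by
          apply mul_le_mul_of_nonneg_left _ hVk
          linarith
      _ = (1 + η / 2) * (V ^ (k + 1) * ((T * W) ^ (k + 1) / (k + 1).factorial)) := by ring
      _ ≤ (1 + η) * (V ^ (k + 1) * ((T * W) ^ (k + 1) / (k + 1).factorial)) := by
        apply mul_le_mul_of_nonneg_right (by linarith) (mul_nonneg hVk hX0)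

end Pool.Agent.TH464.PO
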