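import Pool.Agent.TH464.PO.SingM

set_option autoImplicit false

/-!
# The singular series with a fixed base set: one factor, the tail, the small primes
-/

namespace Pool.Agent.TH464.PO

open Finset Pool.Agent.H373R2.T7 Pool.Agent.W123.RP Pool.Agent.W123.RU

/-- a collision which involves `G` -/
def ClB (Q : ℕ → ℕ → Prop) (B G : Finset ℕ) (p : ℕ) : Prop :=
  ∃ a ∈ B ∪ G, ∃ b ∈ B ∪ G, a < b ∧ (a ∈ G ∨ b ∈ G) ∧ CoG Q p (b - a)

open Classical in
lemma nuB_union (Q : ℕ → ℕ → Prop) (c : ℕ) (hQ : PerB Q c) (B G : Finset ℕ) (p : ℕ)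
    (hd : Disjoint B G) (h : ¬ ClB Q B G p) :
    nuB (QH Q (B ∪ G)) p = nuB (QH Q B) p + G.card * nuB Q p := by
  have hG : ¬ Cl Q G p := by
    rintro ⟨a, ha, b, hb, hab, hco⟩
    exact h ⟨a, mem_union_right _ ha, b, mem_union_right _ hb, hab, Or.inl ha, hco⟩
  rw [← nuB_eq_of_not_Cl Q c hQ G p hG]
  have e : (range p).filter (fun r => QH Q (B ∪ G) p r) =
      (range p).filter (fun r => QH Q B p r) ∪ (range p).filter (fun r => QH Q G p r) := by
    ext r
    rw [mem_union, mem_filter, mem_filter, mem_filter]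
    unfold QH
    constructor
    · rintro ⟨h1, x, hx, h2⟩
      rcases mem_union.1 hx with hx | hx
      · exact Or.inl ⟨h1, x, hx, h2⟩
      · exact Or.inr ⟨h1, x, hx, h2⟩
    · rintro (⟨h1, x, hx, h2⟩ | ⟨h1, x, hx, h2⟩)
      · exact ⟨h1, x, mem_union_left _ hx, h2⟩
      · exact ⟨h1, x, mem_union_right _ hx, h2⟩
  have hdis : Disjoint ((range p).filter (fun r => QH Q B p r))
      ((range p).filter (fun r => QH Q G p r)) := by
    rw [Finset.disjoint_left]
    intro r h1 h2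
    rw [mem_filter] at h1 h2
    obtain ⟨_, x, hx, hx2⟩ := h1
    obtain ⟨_, z, hz, hz2⟩ := h2
    have hne : x ≠ z := fun e => Finset.disjoint_left.1 hd hx (e ▸ hz)
    apply h
    rcases Nat.lt_or_gt_of_ne hne with h3 | h3
    · refine ⟨x, mem_union_left _ hx, z, mem_union_right _ hz, h3, Or.inr hz, r + x, hx2, ?_⟩
      rw [show r + x + (z - x) = r + z by omega]
      exact hz2
    · refine ⟨z, mem_union_right _ hz, x, mem_union_left _ hx, h3, Or.inl hz, r + z, hz2, ?_⟩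
      rw [show r + z + (x - z) = r + x by omega]
      exact hx2
  have h5 := card_union_of_disjoint hdis
  rw [← e] at h5
  unfold nuB
  convert h5

open Classical in
lemma nuB_union_le (Q : ℕ → ℕ → Prop) (c : ℕ) (hQ : PerB Q c) (B G : Finset ℕ) (p : ℕ) :
    nuB (QH Q (B ∪ G)) p ≤ nuB (QH Q B) p + G.card * nuB Q p := by
  have h1 := nuB_QH_le Q c hQ G p
  have h2 : nuB (QH Q (B ∪ G)) p ≤ nuB (QH Q B) p + nuB (QH Q G) p := by
    have h3 : (range p).filter (fun r => QH Q (B ∪ G) p r) ⊆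
        (range p).filter (fun r => QH Q B p r) ∪ (range p).filter (fun r => QH Q G p r) := by
      intro r hr
      rw [mem_filter] at hr
      rw [mem_union, mem_filter, mem_filter]
      obtain ⟨h1, x, hx, h2⟩ := hr
      rcases mem_union.1 hx with hx | hx
      · exact Or.inl ⟨h1, x, hx, h2⟩
      · exact Or.inr ⟨h1, x, hx, h2⟩
    have h4 := (card_le_card h3).trans (card_union_le _ _)
    unfold nuB
    convert h4
  omega

open Classical in
lemma nuB_mono_union (Q : ℕ → ℕ → Prop) (B G : Finset ℕ) (p : ℕ) :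
    nuB (QH Q B) p ≤ nuB (QH Q (B ∪ G)) p := by
  have h3 : (range p).filter (fun r => QH Q B p r) ⊆
      (range p).filter (fun r => QH Q (B ∪ G) p r) := by
    intro r hr
    rw [mem_filter] at hr ⊢
    obtain ⟨h1, x, hx, h2⟩ := hr
    exact ⟨h1, x, mem_union_left _ hx, h2⟩
  have h4 := card_le_card h3
  unfold nuB
  convert h4

lemma one_le_fac (k c ν : ℕ) (p : ℝ) (hp : 0 < p) (hν : ν ≤ c) (hνp : (ν : ℝ) ≤ p)
    (hbig : ((2 * (k * c) : ℕ) : ℝ) ≤ p) :
    1 - k * ((ν : ℝ) / p) ≤ (1 - (ν : ℝ) / p) ^ k ∧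
    1 ≤ (1 - (ν : ℝ) / p) ^ k * (1 + ((2 * (k * c) : ℕ) : ℝ) / p) := by
  obtain ⟨u, hu⟩ : ∃ u : ℝ, u = (ν : ℝ) / p := ⟨_, rfl⟩
  rw [← hu]
  have hu0 : 0 ≤ u := by rw [hu]; positivity
  have hu1 : u ≤ 1 := by
    rw [hu, div_le_one hp]
    exact hνp
  have hc : (ν : ℝ) ≤ c := by exact_mod_cast hν
  have hk0 : (0 : ℝ) ≤ k := Nat.cast_nonneg k
  have hku : (k : ℝ) * u ≤ ((k * c : ℕ) : ℝ) / p := by
    rw [hu, ← mul_div_assoc]
    apply div_le_div_of_nonneg_right _ hp.le
    push_cast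
    gcongr
  have hkc : ((k * c : ℕ) : ℝ) / p ≤ 1 / 2 := by
    rw [div_le_div_iff₀ hp (by norm_num)]
    push_cast at hbig ⊢
    linarith
  have hber := one_add_mul_le_pow (a := -u) (by linarith) k
  have hber' : 1 - k * u ≤ (1 - u) ^ k := by
    calc 1 - k * u = 1 + k * -u := by ring
      _ ≤ (1 + -u) ^ k := hber
      _ = (1 - u) ^ k := by ring
  refine ⟨hber', ?_⟩
  obtain ⟨t, ht⟩ : ∃ t : ℝ, t = k * u := ⟨_, rfl⟩
  have ht0 : 0 ≤ t := by rw [ht]; positivity
  have ht1 : t ≤ 1 / 2 := by rw [ht]; linarith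
  have h2 : 1 + 2 * t ≤ 1 + ((2 * (k * c) : ℕ) : ℝ) / p := by
    have : ((2 * (k * c) : ℕ) : ℝ) / p = 2 * (((k * c : ℕ) : ℝ) / p) := by
      push_cast
      ring
    rw [this, ht]
    linarith
  calc (1 : ℝ) ≤ (1 - t) * (1 + 2 * t) := by nlinarith
    _ ≤ (1 - u) ^ k * (1 + ((2 * (k * c) : ℕ) : ℝ) / p) := by
      apply mul_le_mul (by rw [ht]; exact hber') h2 (by linarith)
      exact pow_nonneg (by linarith) k

open Classical in
/-- upper bound for one factor -/
lemma factor_upB (Q : ℕ → ℕ → Prop) (c : ℕ) (hQ : PerB Q c) (B G : Finset ℕ) (hd : Disjoint B G)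
    (p : ℕ) (hp : p.Prime) (hbig : 2 * (G.card * c) ≤ p) :
    1 - (nuB (QH Q (B ∪ G)) p : ℝ) / p ≤
      (1 - (nuB (QH Q B) p : ℝ) / p) * ((1 - (nuB Q p : ℝ) / p) ^ G.card *
        (if ClB Q B G p then 1 + ((2 * (G.card * c) : ℕ) : ℝ) / p else 1)) := by
  have hp0 : (0 : ℝ) < p := by exact_mod_cast hp.pos
  obtain ⟨f1, f2⟩ := one_le_fac G.card c (nuB Q p) p hp0 (hQ.few p hp)
    (by exact_mod_cast nuB_le Q p) (by exact_mod_cast hbig)
  have hx := one_sub_nonneg (QH Q B) p hp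
  by_cases h : ClB Q B G p
  · rw [if_pos h]
    have h1 : (nuB (QH Q B) p : ℝ) / p ≤ (nuB (QH Q (B ∪ G)) p : ℝ) / p := by
      apply div_le_div_of_nonneg_right _ hp0.le
      exact_mod_cast nuB_mono_union Q B G p
    calc 1 - (nuB (QH Q (B ∪ G)) p : ℝ) / p ≤ (1 - (nuB (QH Q B) p : ℝ) / p) * 1 := by linarith
      _ ≤ _ := mul_le_mul_of_nonneg_left f2 hx
  · rw [if_neg h, mul_one, nuB_union Q c hQ B G p hd h]
    have h1 := mul_le_mul_of_nonneg_left f1 hx
    refine le_trans ?_ h1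
    have h2 : 0 ≤ (nuB (QH Q B) p : ℝ) / p * (G.card * ((nuB Q p : ℝ) / p)) := by positivity
    have e : (((nuB (QH Q B) p + G.card * nuB Q p : ℕ)) : ℝ) / p =
        (nuB (QH Q B) p : ℝ) / p + G.card * ((nuB Q p : ℝ) / p) := by
      push_cast
      ring
    rw [e]
    nlinarith

lemma loB_aux (x v z A : ℝ) (hx : 0 ≤ x) (hv : 0 ≤ v) (hs : x + v ≤ 1) (hz0 : 0 ≤ z)
    (hz : z ≤ 1 - v + v ^ 2 / 2) (hA : (x + v) ^ 2 ≤ A) : (1 - x) * (z * (1 - A)) ≤ 1 - (x + v) := by
  obtain ⟨s, hs'⟩ : ∃ s, s = x + v := ⟨_, rfl⟩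
  have hs0 : 0 ≤ s := by rw [hs']; linarith
  have hs1 : s ≤ 1 := by rw [hs']; exact hs
  have hx1 : 0 ≤ 1 - x := by linarith
  have h1 : (1 - x) * z ≤ 1 - s + s ^ 2 / 2 := by
    have h2 : (1 - x) * z ≤ (1 - x) * (1 - v + v ^ 2 / 2) := mul_le_mul_of_nonneg_left hz hx1
    have h3 : (1 - x) * (1 - v + v ^ 2 / 2) ≤ 1 - s + s ^ 2 / 2 := by
      rw [hs']
      have h4 : 0 ≤ x * v ^ 2 := by positivity
      nlinarith [sq_nonneg x]
    linarith
  have h0 : 0 ≤ (1 - x) * z := mul_nonneg hx1 hz0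
  have hs2 : s ^ 2 ≤ 1 := by nlinarith
  calc (1 - x) * (z * (1 - A)) = ((1 - x) * z) * (1 - A) := by ring
    _ ≤ ((1 - x) * z) * (1 - s ^ 2) := by
      apply mul_le_mul_of_nonneg_left _ h0
      rw [hs']
      linarith
    _ ≤ (1 - s + s ^ 2 / 2) * (1 - s ^ 2) := mul_le_mul_of_nonneg_right h1 (by linarith)
    _ ≤ 1 - s := by nlinarith [mul_nonneg (sq_nonneg s) (sq_nonneg (1 - s))]
    _ = 1 - (x + v) := by rw [hs']

open Classical in
/-- lower bound for one factor -/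
lemma factor_loB (Q : ℕ → ℕ → Prop) (c : ℕ) (hQ : PerB Q c) (B G : Finset ℕ)
    (p : ℕ) (hp : p.Prime) (hbig : 2 * ((B.card + G.card) * c) ≤ p) :
    (1 - (nuB (QH Q B) p : ℝ) / p) * ((1 - (nuB Q p : ℝ) / p) ^ G.card *
      (1 - (((B.card + G.card) * c : ℕ) : ℝ) ^ 2 / (p : ℝ) ^ 2)) ≤
      1 - (nuB (QH Q (B ∪ G)) p : ℝ) / p := by
  have hp0 : (0 : ℝ) < p := by exact_mod_cast hp.pos
  have hfew := hQ.few p hp
  have hc : (nuB Q p : ℝ) ≤ c := by exact_mod_cast hfew
  have hB : (nuB (QH Q B) p : ℝ) ≤ B.card * c := by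
    exact_mod_cast (nuB_QH_le Q c hQ B p).trans (Nat.mul_le_mul_left _ hfew)
  have hk0 : (0 : ℝ) ≤ (G.card : ℝ) := Nat.cast_nonneg _
  have hs : (nuB (QH Q B) p : ℝ) / p + G.card * ((nuB Q p : ℝ) / p) ≤
      (((B.card + G.card) * c : ℕ) : ℝ) / p := by
    rw [← mul_div_assoc, ← add_div]
    apply div_le_div_of_nonneg_right _ hp0.le
    push_cast
    have : (G.card : ℝ) * nuB Q p ≤ G.card * c := mul_le_mul_of_nonneg_left hc hk0
    linarith
  have h1 : (((B.card + G.card) * c : ℕ) : ℝ) / p ≤ 1 := by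
    rw [div_le_one hp0]
    exact_mod_cast (by omega : (B.card + G.card) * c ≤ p)
  have hu1 : (nuB Q p : ℝ) / p ≤ 1 := by
    rw [div_le_one hp0]
    exact_mod_cast nuB_le Q p
  refine (loB_aux ((nuB (QH Q B) p : ℝ) / p) (G.card * ((nuB Q p : ℝ) / p)) _ _ (by positivity)
    (by positivity) (hs.trans h1) (pow_nonneg (by linarith) _)
    (pow_le_quad G.card _ (by positivity) hu1) ?_).trans ?_
  · rw [← div_pow]
    exact pow_le_pow_left₀ (by positivity) hs 2
  · have h2 : (nuB (QH Q (B ∪ G)) p : ℝ) / p ≤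
        (nuB (QH Q B) p : ℝ) / p + G.card * ((nuB Q p : ℝ) / p) := by
      rw [← mul_div_assoc, ← add_div]
      apply div_le_div_of_nonneg_right _ hp0.le
      exact_mod_cast nuB_union_le Q c hQ B G p
    linarith

/-! ### the tail -/

/-- pairs which involve `G` -/
def prsB (B G : Finset ℕ) : Finset (ℕ × ℕ) :=
  ((B ∪ G) ×ˢ (B ∪ G)).filter (fun x => x.1 < x.2 ∧ (x.1 ∈ G ∨ x.2 ∈ G))

lemma prsB_card (B G : Finset ℕ) : (prsB B G).card ≤ (B.card + G.card) ^ 2 := by
  unfold prsB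
  refine (card_filter_le _ _).trans ?_
  rw [card_product, ← sq]
  exact Nat.pow_le_pow_left (card_union_le _ _) 2

open Classical in
/-- upper bound for the tail -/
lemma tail_upB (Q : ℕ → ℕ → Prop) (c : ℕ) (hQ : PerB Q c) (B G : Finset ℕ) (hd : Disjoint B G)
    (β k : ℕ) (hβ : B.card ≤ β) (hk : G.card = k) (w y : ℕ) (hbig : 2 * ((β + k) * c) ≤ w) :
    Vt (QH Q (B ∪ G)) w y ≤ Vt (QH Q B) w y * (Vt Q w y ^ k *
      (1 + ∑ x ∈ prsB B G, (Fp Q ((1 + 2 * (k * c)) ^ ((β + k) ^ 2) - 1) w y (x.2 - x.1) - 1))) := by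
  subst hk
  obtain ⟨K, hK⟩ : ∃ K, K = 2 * (G.card * c) := ⟨_, rfl⟩
  have hbig' : 2 * (G.card * c) ≤ w := by
    have : G.card * c ≤ (β + G.card) * c := Nat.mul_le_mul_right c (by omega)
    omega
  have h1 : Vt (QH Q (B ∪ G)) w y ≤ ∏ p ∈ (pz y).filter (fun p => w < p),
      ((1 - (nuB (QH Q B) p : ℝ) / p) * ((1 - (nuB Q p : ℝ) / p) ^ G.card *
        (if ClB Q B G p then 1 + (K : ℝ) / p else 1))) := by
    unfold Vt
    apply Finset.prod_le_prod
    · intro p hp
      rw [mem_filter] at hp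
      exact one_sub_nonneg _ p (mem_pz.1 hp.1).2
    · intro p hp
      rw [mem_filter] at hp
      have h2 := factor_upB Q c hQ B G hd p (mem_pz.1 hp.1).2 (by omega)
      rw [hK]
      exact h2
  have h2 : ∏ p ∈ (pz y).filter (fun p => w < p), (if ClB Q B G p then 1 + (K : ℝ) / p else 1) ≤
      ∏ x ∈ prsB B G, Fp Q K w y (x.2 - x.1) := by
    have e : ∏ x ∈ prsB B G, Fp Q K w y (x.2 - x.1) = ∏ p ∈ (pz y).filter (fun p => w < p),
        ∏ x ∈ prsB B G, (if CoG Q p (x.2 - x.1) then 1 + (K : ℝ) / p else 1) := by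
      rw [Finset.prod_comm]
      apply Finset.prod_congr rfl
      intro x _
      unfold Fp
      rw [← Finset.filter_filter, Finset.prod_filter]
    rw [e]
    apply Finset.prod_le_prod
    · intro p _
      split_ifs <;> positivity
    · intro p _
      have hge : ∀ x ∈ prsB B G, (1 : ℝ) ≤ (if CoG Q p (x.2 - x.1) then 1 + (K : ℝ) / p else 1) := by
        intro x _
        have : 0 ≤ (K : ℝ) / p := by positivity
        split_ifs <;> linarith
      split_ifs with h
      · obtain ⟨a, ha, b, hb, hab, hor, hco⟩ := h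
        have hmem : (a, b) ∈ prsB B G := by
          unfold prsB
          rw [mem_filter, mem_product]
          exact ⟨⟨ha, hb⟩, hab, hor⟩
        have h3 := single_le_prod_one (prsB B G)
          (fun x => if CoG Q p (x.2 - x.1) then 1 + (K : ℝ) / p else 1) hge (a, b) hmem
        simp only [if_pos hco] at h3
        exact h3
      · exact Finset.one_le_prod hge
  have hcard : (prsB B G).card ≤ (β + G.card) ^ 2 :=
    (prsB_card B G).trans (Nat.pow_le_pow_left (by omega) 2)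
  have h3 : ∏ x ∈ prsB B G, Fp Q K w y (x.2 - x.1) - 1 ≤
      ∑ x ∈ prsB B G, (Fp Q ((1 + K) ^ ((β + G.card) ^ 2) - 1) w y (x.2 - x.1) - 1) := by
    refine (prod_sub_one_le (prsB B G) (fun x => Fp Q K w y (x.2 - x.1))
      (fun x _ => Fp_ge Q K w y _) ((β + G.card) ^ 2) hcard).trans ?_
    apply Finset.sum_le_sum
    intro x _
    have := Fp_pow Q K ((β + G.card) ^ 2) w y (x.2 - x.1)
    linarith
  rw [← hK]
  refine h1.trans ?_
  rw [Finset.prod_mul_distrib, Finset.prod_mul_distrib, Finset.prod_pow]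
  apply mul_le_mul_of_nonneg_left _ (Vt_nonneg (QH Q B) w y)
  apply mul_le_mul_of_nonneg_left _ (pow_nonneg (Vt_nonneg Q w y) _)
  linarith

open Classical in
/-- lower bound for the tail -/
lemma tail_loB (Q : ℕ → ℕ → Prop) (c : ℕ) (hQ : PerB Q c) (B G : Finset ℕ)
    (β k : ℕ) (hβ : B.card ≤ β) (hk : G.card = k) (w y : ℕ) (hw : 1 ≤ w)
    (hbig : 2 * ((β + k) * c) ≤ w) :
    Vt (QH Q B) w y * (Vt Q w y ^ k * (1 - (((β + k) * c : ℕ) : ℝ) ^ 2 / w)) ≤
      Vt (QH Q (B ∪ G)) w y := by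
  subst hk
  obtain ⟨A, hA⟩ : ∃ A : ℕ, A = (β + G.card) * c := ⟨_, rfl⟩
  have hA2 : (B.card + G.card) * c ≤ A := by
    rw [hA]
    exact Nat.mul_le_mul_right c (by omega)
  rw [← hA] at hbig ⊢
  have h1 : ∏ p ∈ (pz y).filter (fun p => w < p),
      ((1 - (nuB (QH Q B) p : ℝ) / p) * ((1 - (nuB Q p : ℝ) / p) ^ G.card *
        (1 - (A : ℝ) ^ 2 / (p : ℝ) ^ 2))) ≤ Vt (QH Q (B ∪ G)) w y := by
    unfold Vt
    apply Finset.prod_le_prod
    · intro p hp
      rw [mem_filter] at hp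
      have hpp := (mem_pz.1 hp.1).2
      have hp0 : (0 : ℝ) < p := by exact_mod_cast hpp.pos
      apply mul_nonneg (one_sub_nonneg _ p hpp)
      apply mul_nonneg (pow_nonneg (one_sub_nonneg Q p hpp) _)
      rw [sub_nonneg, div_le_one (by positivity)]
      apply pow_le_pow_left₀ (by positivity)
      exact_mod_cast (by omega : A ≤ p)
    · intro p hp
      rw [mem_filter] at hp
      have hpp := (mem_pz.1 hp.1).2
      refine le_trans ?_ (factor_loB Q c hQ B G p hpp (by omega))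
      apply mul_le_mul_of_nonneg_left _ (one_sub_nonneg _ p hpp)
      apply mul_le_mul_of_nonneg_left _ (pow_nonneg (one_sub_nonneg Q p hpp) _)
      have h3 : (((B.card + G.card) * c : ℕ) : ℝ) ^ 2 / (p : ℝ) ^ 2 ≤ (A : ℝ) ^ 2 / (p : ℝ) ^ 2 := by
        apply div_le_div_of_nonneg_right _ (by positivity)
        apply pow_le_pow_left₀ (by positivity)
        exact_mod_cast hA2
      linarith
  refine le_trans ?_ h1
  rw [Finset.prod_mul_distrib, Finset.prod_mul_distrib, Finset.prod_pow]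
  apply mul_le_mul_of_nonneg_left _ (Vt_nonneg (QH Q B) w y)
  apply mul_le_mul_of_nonneg_left _ (pow_nonneg (Vt_nonneg Q w y) _)
  refine le_trans ?_ (prod_one_sub_ge _ _ (fun p _ => by positivity) ?_)
  · have h2 := sum_inv_sq w y hw
    have h3 : ∑ p ∈ (pz y).filter (fun p => w < p), (A : ℝ) ^ 2 / (p : ℝ) ^ 2 ≤
        (A : ℝ) ^ 2 * (1 / w) := by
      calc ∑ p ∈ (pz y).filter (fun p => w < p), (A : ℝ) ^ 2 / (p : ℝ) ^ 2 ≤
          ∑ p ∈ (Icc 1 y).filter (fun n => w < n), (A : ℝ) ^ 2 / (p : ℝ) ^ 2 := by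
            apply Finset.sum_le_sum_of_subset_of_nonneg
            · intro p hp
              rw [mem_filter, mem_pz] at hp
              rw [mem_filter, mem_Icc]
              exact ⟨⟨hp.1.2.one_lt.le, hp.1.1⟩, hp.2⟩
            · intros; positivity
        _ = (A : ℝ) ^ 2 * ∑ p ∈ (Icc 1 y).filter (fun n => w < n), 1 / (p : ℝ) ^ 2 := by
            rw [Finset.mul_sum]
            apply Finset.sum_congr rfl
            intros
            ring
        _ ≤ _ := by gcongr
    have h4 : (A : ℝ) ^ 2 * (1 / w) = (A : ℝ) ^ 2 / w := by ring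
    linarith
  · intro p hp
    rw [mem_filter] at hp
    have hp0 : (0 : ℝ) < p := by exact_mod_cast (mem_pz.1 hp.1).2.pos
    rw [div_le_one (by positivity)]
    apply pow_le_pow_left₀ (by positivity)
    exact_mod_cast (by omega : A ≤ p)

/-! ### double counting -/

lemma card_one (k T a : ℕ) :
    ((powersetCard (k + 1) (Icc 1 T)).filter (fun H => a ∈ H)).card ≤ T ^ k := by
  have h1 : ((powersetCard (k + 1) (Icc 1 T)).filter (fun H => a ∈ H)).card ≤
      (powersetCard k (Icc 1 T)).card := by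
    apply Finset.card_le_card_of_injOn (fun H => H.erase a)
    · intro H hH
      rw [Finset.mem_coe, mem_filter, mem_powersetCard] at hH
      obtain ⟨⟨h1, h2⟩, h3⟩ := hH
      rw [Finset.mem_coe, mem_powersetCard]
      refine ⟨(erase_subset _ _).trans h1, ?_⟩
      beta_reduce
      rw [card_erase_of_mem h3, h2]
      omega
    · intro H hH H' hH' h
      rw [Finset.mem_coe, mem_filter] at hH hH'
      simp only at h
      rw [← insert_erase hH.2, ← insert_erase hH'.2, h]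
  refine h1.trans ?_
  rw [card_powersetCard, Nat.card_Icc, Nat.add_sub_cancel]
  exact Nat.choose_le_pow T k

open Classical in
lemma sum_one (k T : ℕ) (F : ℕ → ℝ) (hF : ∀ t, 0 ≤ F t) :
    ∑ H ∈ powersetCard (k + 1) (Icc 1 T), ∑ h ∈ H, F h ≤ (T : ℝ) ^ k * ∑ t ∈ Icc 1 T, F t := by
  have h1 : ∀ H ∈ powersetCard (k + 1) (Icc 1 T), ∑ h ∈ H, F h =
      ∑ h ∈ Icc 1 T, if h ∈ H then F h else 0 := by
    intro H hH
    rw [mem_powersetCard] at hH
    rw [← Finset.sum_filter]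
    apply Finset.sum_congr _ (fun _ _ => rfl)
    ext x
    rw [mem_filter]
    exact ⟨fun h => ⟨hH.1 h, h⟩, fun h => h.2⟩
  rw [Finset.sum_congr rfl h1, Finset.sum_comm, Finset.mul_sum]
  apply Finset.sum_le_sum
  intro h _
  rw [← Finset.sum_filter, Finset.sum_const, nsmul_eq_mul]
  apply mul_le_mul_of_nonneg_right _ (hF _)
  exact_mod_cast card_one k T h

open Classical in
lemma sum_prsB (B : Finset ℕ) (T : ℕ) (hB : ∀ x ∈ B, x ≤ T) (k : ℕ) (g : ℕ → ℝ) (hg : ∀ t, 0 ≤ g t) :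
    ∑ H ∈ powersetCard (k + 1) (Icc 1 T), ∑ x ∈ prsB B H, g (x.2 - x.1) ≤
      (1 + 2 * B.card) * ((T : ℝ) ^ k * ∑ t ∈ Icc 1 T, g t) := by
  obtain ⟨F, hF⟩ : ∃ F : ℕ → ℕ → ℝ, F = fun b h => (if b < h then g (h - b) else 0) +
      (if h < b then g (b - h) else 0) := ⟨_, rfl⟩
  have hF0 : ∀ b h, 0 ≤ F b h := by
    intro b h
    rw [hF]
    apply add_nonneg
    · split_ifs
      · exact hg _
      · exact le_rfl
    · split_ifs
      · exact hg _
      · exact le_rfl
  have h1 : ∀ H ∈ powersetCard (k + 1) (Icc 1 T), ∑ x ∈ prsB B H, g (x.2 - x.1) ≤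
      ∑ x ∈ prs H, g (x.2 - x.1) + ∑ b ∈ B, ∑ h ∈ H, F b h := by
    intro H _
    have hsub : prsB B H ⊆ prs H ∪ ((B ×ˢ H).filter (fun x => x.1 < x.2) ∪
        (H ×ˢ B).filter (fun x => x.1 < x.2)) := by
      intro x hx
      unfold prsB at hx
      rw [mem_filter, mem_product, mem_union, mem_union] at hx
      obtain ⟨⟨a1, a2⟩, a3, a4⟩ := hx
      unfold prs
      rw [mem_union, mem_union, mem_filter, mem_filter, mem_filter, mem_product, mem_product,
        mem_product]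
      rcases a4 with a4 | a4
      · rcases a2 with a2 | a2
        · exact Or.inr (Or.inr ⟨⟨a4, a2⟩, a3⟩)
        · exact Or.inl ⟨⟨a4, a2⟩, a3⟩
      · rcases a1 with a1 | a1
        · exact Or.inr (Or.inl ⟨⟨a1, a4⟩, a3⟩)
        · exact Or.inl ⟨⟨a1, a4⟩, a3⟩
    have hu : ∀ (A C : Finset (ℕ × ℕ)) (f : ℕ × ℕ → ℝ), (∀ x, 0 ≤ f x) →
        ∑ x ∈ A ∪ C, f x ≤ ∑ x ∈ A, f x + ∑ x ∈ C, f x := by
      intro A C f hf
      rw [← Finset.sum_union_inter]
      have := Finset.sum_nonneg (fun x (_ : x ∈ A ∩ C) => hf x)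
      linarith
    have hf0 : ∀ x : ℕ × ℕ, 0 ≤ g (x.2 - x.1) := fun x => hg _
    refine (Finset.sum_le_sum_of_subset_of_nonneg hsub (fun x _ _ => hf0 x)).trans ?_
    refine (hu _ _ _ hf0).trans ?_
    apply add_le_add le_rfl
    refine (hu _ _ _ hf0).trans ?_
    have e1 : ∑ x ∈ (B ×ˢ H).filter (fun x => x.1 < x.2), g (x.2 - x.1) =
        ∑ b ∈ B, ∑ h ∈ H, if b < h then g (h - b) else 0 := by
      rw [Finset.sum_filter, Finset.sum_product]
    have e2 : ∑ x ∈ (H ×ˢ B).filter (fun x => x.1 < x.2), g (x.2 - x.1) =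
        ∑ b ∈ B, ∑ h ∈ H, if h < b then g (b - h) else 0 := by
      rw [Finset.sum_filter, Finset.sum_product_right]
    rw [e1, e2, ← Finset.sum_add_distrib]
    apply Finset.sum_le_sum
    intro b _
    rw [← Finset.sum_add_distrib]
    apply Finset.sum_le_sum
    intro h _
    rw [hF]
  have h2 : ∀ b ∈ B, ∑ H ∈ powersetCard (k + 1) (Icc 1 T), ∑ h ∈ H, F b h ≤
      2 * ((T : ℝ) ^ k * ∑ t ∈ Icc 1 T, g t) := by
    intro b hb
    refine (sum_one k T (F b) (hF0 b)).trans ?_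
    have h3 : ∑ h ∈ Icc 1 T, F b h ≤ 2 * ∑ t ∈ Icc 1 T, g t := by
      rw [hF]
      simp only
      rw [Finset.sum_add_distrib, two_mul]
      apply add_le_add
      · rw [← Finset.sum_filter]
        have h5 : ∑ h ∈ (Icc 1 T).filter (fun h => b < h), g (h - b) =
            ∑ t ∈ ((Icc 1 T).filter (fun h => b < h)).image (fun h => h - b), g t := by
          rw [Finset.sum_image]
          intro x hx x' hx' h
          rw [Finset.mem_coe, mem_filter] at hx hx'
          simp only at h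
          omega
        rw [h5]
        apply Finset.sum_le_sum_of_subset_of_nonneg
        · intro t ht
          rw [mem_image] at ht
          obtain ⟨x, hx, rfl⟩ := ht
          rw [mem_filter, mem_Icc] at hx
          rw [mem_Icc]
          omega
        · intros
          exact hg _
      · rw [← Finset.sum_filter]
        have h5 : ∑ h ∈ (Icc 1 T).filter (fun h => h < b), g (b - h) =
            ∑ t ∈ ((Icc 1 T).filter (fun h => h < b)).image (fun h => b - h), g t := by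
          rw [Finset.sum_image]
          intro x hx x' hx' h
          rw [Finset.mem_coe, mem_filter] at hx hx'
          simp only at h
          omega
        rw [h5]
        have hbT := hB b hb
        apply Finset.sum_le_sum_of_subset_of_nonneg
        · intro t ht
          rw [mem_image] at ht
          obtain ⟨x, hx, rfl⟩ := ht
          rw [mem_filter, mem_Icc] at hx
          rw [mem_Icc]
          omega
        · intros
          exact hg _
    calc (T : ℝ) ^ k * ∑ h ∈ Icc 1 T, F b h ≤ (T : ℝ) ^ k * (2 * ∑ t ∈ Icc 1 T, g t) :=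
          mul_le_mul_of_nonneg_left h3 (by positivity)
      _ = _ := by ring
  refine (Finset.sum_le_sum h1).trans ?_
  rw [Finset.sum_add_distrib, Finset.sum_comm (s := powersetCard (k + 1) (Icc 1 T)) (t := B)]
  have h4 := sum_prs k T g hg
  have h5 := Finset.sum_le_sum h2
  rw [Finset.sum_const, nsmul_eq_mul] at h5
  linarith

end Pool.Agent.TH464.PO
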