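import Pool.Agent.TH464.PO.SingB

set_option autoImplicit false

/-!
# The average of the singular series with a fixed base set
-/

namespace Pool.Agent.TH464.PO

open Finset Pool.Agent.H373R2.T7 Pool.Agent.W123.RP Pool.Agent.W123.RU

variable {s : ℕ}

open Classical in
/-- the average over the families, as an average over a period -/
lemma sum_famB (Q : ℕ → ℕ → Prop) (c : ℕ) (hQ : PerB Q c) (B : Finset ℕ) (w : ℕ) (W : Fin s → Finset ℕ)
    (k : Fin s → ℕ) :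
    (Mw w : ℝ) * ∑ H ∈ Fam W k, Vq (QH Q (B ∪ Un H)) w =
      ∑ m ∈ (range (Mw w)).filter (fun m => Sf (QH Q B) w m), ∏ i, ((((W i).filter (fun h => Sf Q w (m + h))).card.choose (k i) : ℕ) : ℝ) := by
  rw [Finset.mul_sum]
  have h1 : ∀ H ∈ Fam W k, (Mw w : ℝ) * Vq (QH Q (B ∪ Un H)) w =
      ∑ m ∈ (range (Mw w)).filter (fun m => Sf (QH Q B) w m),
        ∏ i, if (∀ h ∈ H i, Sf Q w (m + h)) then (1 : ℝ) else 0 := by
    intro H _
    rw [← exact (QH Q (B ∪ Un H)) _ (perB_QH Q c hQ (B ∪ Un H)) w]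
    have e : ∀ m : ℕ, (∏ i, if (∀ h ∈ H i, Sf Q w (m + h)) then (1 : ℝ) else 0) =
        if Sf (QH Q (Un H)) w m then (1 : ℝ) else 0 := by
      intro m
      rw [Finset.prod_ite_zero, Finset.prod_const_one]
      congr 1
      apply propext
      rw [sf_QH]
      unfold Un
      simp only [mem_biUnion, mem_univ, true_and, forall_exists_index, forall_const]
      constructor
      · intro h x i hx
        exact h i x hx
      · intro h i x hx
        exact h x i hx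
    rw [Finset.sum_congr rfl fun m _ => e m, Finset.sum_ite, Finset.sum_const_zero, add_zero,
      Finset.sum_const, nsmul_eq_mul, mul_one, Finset.filter_filter]
    congr 2
    apply Finset.filter_congr
    intro m _
    rw [sf_QH, sf_QH, sf_QH]
    constructor
    · intro h
      exact ⟨fun x hx => h x (mem_union_left _ hx), fun x hx => h x (mem_union_right _ hx)⟩
    · rintro ⟨h2, h3⟩ x hx
      rcases mem_union.1 hx with hx | hx
      · exact h2 x hx
      · exact h3 x hx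
  rw [Finset.sum_congr rfl h1, Finset.sum_comm]
  apply Finset.sum_congr rfl
  intro m _
  have h2 := Finset.prod_univ_sum (fun i => powersetCard (k i) (W i))
    (fun i (H : Finset ℕ) => if (∀ h ∈ H, Sf Q w (m + h)) then (1 : ℝ) else 0)
  unfold Fam
  rw [← h2]
  apply Finset.prod_congr rfl
  intro i _
  rw [Finset.sum_ite, Finset.sum_const_zero, add_zero, Finset.sum_const, nsmul_eq_mul, mul_one,
    ← Finset.card_powersetCard]
  congr 2
  ext H
  rw [mem_filter, mem_powersetCard, mem_powersetCard]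
  constructor
  · rintro ⟨⟨a1, a2⟩, a3⟩
    exact ⟨fun h hh => mem_filter.2 ⟨a1 hh, a3 h hh⟩, a2⟩
  · rintro ⟨a1, a2⟩
    exact ⟨⟨fun h hh => (mem_filter.1 (a1 hh)).1, a2⟩, fun h hh => (mem_filter.1 (a1 hh)).2⟩

/-- **The small primes.** -/
theorem small_multiB (k : Fin s → ℕ) (w : ℕ) (η : ℝ) (hη : 0 < η) : ∃ T0 : ℕ, ∀ T : ℕ, T0 ≤ T →
    ∀ (Q : ℕ → ℕ → Prop) (c : ℕ), PerB Q c → (∀ p : ℕ, p.Prime → nuB Q p < p) →
    ∀ B : Finset ℕ, ∀ a b : Fin s → ℕ, (∀ i, a i ≤ b i) → (∀ i, b i ≤ T) →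
    |∑ H ∈ Fam (fun i => Ioc (a i) (b i)) k, Vq (QH Q (B ∪ Un H)) w -
      Vq (QH Q B) w * ∏ i, ((((b i : ℝ) - a i) * Vq Q w) ^ (k i) / (k i).factorial)| ≤
      Vq (QH Q B) w * (η * (T * Vq Q w) ^ (∑ i, k i)) := by
  classical
  obtain ⟨M, hM⟩ : ∃ M, M = Mw w := ⟨_, rfl⟩
  have hMpos : 0 < M := by rw [hM]; exact Mw_pos w
  have hMr : (0 : ℝ) < M := by exact_mod_cast hMpos
  obtain ⟨S, hS⟩ : ∃ S : ℕ, S = ∑ i, k i := ⟨_, rfl⟩
  obtain ⟨δ, hδ⟩ : ∃ δ : ℝ, δ = min 1 (η / ((s + 1) * 4 ^ S)) := ⟨_, rfl⟩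
  have hδ0 : 0 < δ := by rw [hδ]; positivity
  have hδ1 : δ ≤ 1 := by rw [hδ]; exact min_le_left _ _
  have hδη : δ * ((s + 1) * 4 ^ S) ≤ η := by
    have : δ ≤ η / ((s + 1) * 4 ^ S) := by rw [hδ]; exact min_le_right _ _
    rwa [le_div_iff₀ (by positivity)] at this
  obtain ⟨T0, hT0⟩ : ∃ T0 : ℕ, (M : ℝ) * (M + S) / δ ≤ T0 := exists_nat_ge _
  refine ⟨T0, ?_⟩
  intro T hT Q c hQ hadm B a b hab hbT
  have hTr : (M : ℝ) * (M + S) / δ ≤ T := hT0.trans (by exact_mod_cast hT)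
  have hW := Vq_pos Q hadm w
  have hex := exact Q c hQ w
  rw [← hM] at hex
  have hMW : 1 ≤ (M : ℝ) * Vq Q w := by
    rw [← hex]
    have h1 : (0 : ℝ) < (((range M).filter (fun m => Sf Q w m)).card : ℝ) := by
      rw [hex]
      positivity
    have h2 : 0 < ((range M).filter (fun m => Sf Q w m)).card := by exact_mod_cast h1
    exact_mod_cast h2
  obtain ⟨L, hL⟩ : ∃ L : ℝ, L = T * Vq Q w := ⟨_, rfl⟩
  rw [← hL]
  have hLM : (M : ℝ) + S ≤ δ * L := by
    rw [hL]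
    rw [div_le_iff₀ hδ0] at hTr
    have h1 : (M : ℝ) * (M + S) ≤ M * (δ * (T * Vq Q w)) := by
      calc (M : ℝ) * (M + S) ≤ T * δ := hTr
        _ = T * δ * 1 := (mul_one _).symm
        _ ≤ T * δ * (M * Vq Q w) := by gcongr
        _ = _ := by ring
    exact le_of_mul_le_mul_left h1 hMr
  have hMS : (0 : ℝ) < (M : ℝ) + S := by positivity
  have hL0 : 0 < L := by
    by_contra hcon
    rw [not_lt] at hcon
    have : δ * L ≤ 0 := mul_nonpos_of_nonneg_of_nonpos hδ0.le hcon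
    linarith
  have hkS : ∀ i, k i ≤ S := fun i => by
    rw [hS]
    exact Finset.single_le_sum (f := k) (fun _ _ => Nat.zero_le _) (mem_univ i)
  have hsum := sum_famB Q c hQ B w (fun i => Ioc (a i) (b i)) k
  rw [← hM] at hsum
  have hexB := exact (QH Q B) _ (perB_QH Q c hQ B) w
  rw [← hM] at hexB
  obtain ⟨R, hR⟩ : ∃ R, R = (range M).filter (fun m => Sf (QH Q B) w m) := ⟨_, rfl⟩
  rw [← hR] at hsum hexB
  have hRsub : R ⊆ range M := by
    rw [hR]
    exact filter_subset _ _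
  obtain ⟨P, hP⟩ : ∃ P : ℝ, P = ∏ i, ((((b i : ℝ) - a i) * Vq Q w) ^ (k i) / (k i).factorial) := ⟨_, rfl⟩
  rw [← hP, ← hS]
  have hx0 : ∀ i, 0 ≤ ((b i : ℝ) - a i) * Vq Q w := fun i => by
    have : (a i : ℝ) ≤ b i := by exact_mod_cast hab i
    exact mul_nonneg (by linarith) hW.le
  have hxL : ∀ i, ((b i : ℝ) - a i) * Vq Q w ≤ L := fun i => by
    rw [hL]
    apply mul_le_mul_of_nonneg_right _ hW.le
    have h1 : (b i : ℝ) ≤ T := by exact_mod_cast hbT i
    have h2 : (0 : ℝ) ≤ a i := Nat.cast_nonneg _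
    linarith
  have hδL : δ * L ≤ L := by nlinarith
  have hterm : ∀ m ∈ range M,
      |∏ i, ((((Ioc (a i) (b i)).filter (fun h => Sf Q w (m + h))).card.choose (k i) : ℕ) : ℝ) - P| ≤
        η * L ^ S := by
    intro m _
    rw [hP]
    have hwin : ∀ i, |((((Ioc (a i) (b i)).filter (fun h => Sf Q w (m + h))).card : ℕ) : ℝ) -
        ((b i : ℝ) - a i) * Vq Q w| ≤ M := fun i => by
      rw [hM]
      exact window' Q c hQ w m (a i) (b i) (hab i)
    have hclose : ∀ i ∈ (univ : Finset (Fin s)),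
        |((((Ioc (a i) (b i)).filter (fun h => Sf Q w (m + h))).card.choose (k i) : ℕ) : ℝ) -
          (((b i : ℝ) - a i) * Vq Q w) ^ (k i) / (k i).factorial| ≤ δ * (2 * (2 * L)) ^ (k i) := by
      intro i _
      apply choose_close _ (k i) _ M L δ (hwin i) (hx0 i) (hxL i) _ hδ0.le hδ1 hMr.le
      have : (k i : ℝ) ≤ S := by exact_mod_cast hkS i
      linarith
    have hb2 : ∀ i ∈ (univ : Finset (Fin s)),
        |(((b i : ℝ) - a i) * Vq Q w) ^ (k i) / (k i).factorial| ≤ (2 * (2 * L)) ^ (k i) := by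
      intro i _
      have hkf : (1 : ℝ) ≤ (k i).factorial := by exact_mod_cast Nat.factorial_pos (k i)
      rw [abs_of_nonneg (div_nonneg (pow_nonneg (hx0 i) _) (by linarith))]
      refine (div_le_self (pow_nonneg (hx0 i) _) hkf).trans ?_
      exact pow_le_pow_left₀ (hx0 i) (by linarith [hxL i]) _
    have hb1 : ∀ i ∈ (univ : Finset (Fin s)),
        |((((Ioc (a i) (b i)).filter (fun h => Sf Q w (m + h))).card.choose (k i) : ℕ) : ℝ)| ≤
          (2 * (2 * L)) ^ (k i) := by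
      intro i _
      rw [abs_of_nonneg (Nat.cast_nonneg _)]
      have hkf : (1 : ℝ) ≤ (k i).factorial := by exact_mod_cast Nat.factorial_pos (k i)
      refine (Nat.choose_le_pow_div _ _).trans ?_
      refine (div_le_self (by positivity) hkf).trans ?_
      apply pow_le_pow_left₀ (Nat.cast_nonneg _)
      have h3 := (abs_le.1 (hwin i)).2
      have h4 := hxL i
      have h5 : (0 : ℝ) ≤ S := Nat.cast_nonneg _
      linarith
    refine (prod_close univ _ _ (fun i => (2 * (2 * L)) ^ (k i)) δ hb1 hb2 hclose).trans ?_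
    rw [Finset.prod_pow_eq_pow_sum, ← hS, card_univ, Fintype.card_fin]
    have e4 : (2 * (2 * L)) ^ S = 4 ^ S * L ^ S := by
      rw [← mul_pow]
      congr 1
      ring
    rw [e4]
    have h6 : (0 : ℝ) ≤ L ^ S := by positivity
    calc (s : ℝ) * δ * (4 ^ S * L ^ S) = (s * δ * 4 ^ S) * L ^ S := by ring
      _ ≤ η * L ^ S := by
        apply mul_le_mul_of_nonneg_right _ h6
        have h7 : (0 : ℝ) < 4 ^ S := by positivity
        nlinarith
  have hM2 : |(M : ℝ) * (∑ H ∈ Fam (fun i => Ioc (a i) (b i)) k, Vq (QH Q (B ∪ Un H)) w -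
      Vq (QH Q B) w * P)| ≤ M * (Vq (QH Q B) w * (η * L ^ S)) := by
    rw [mul_sub, hsum, ← mul_assoc, ← hexB]
    have e : (R.card : ℝ) * P = ∑ m ∈ R, P := by
      rw [Finset.sum_const, nsmul_eq_mul]
    rw [e, ← Finset.sum_sub_distrib, ← mul_assoc, ← hexB]
    refine (Finset.abs_sum_le_sum_abs _ _).trans
      ((Finset.sum_le_sum (fun m hm => hterm m (hRsub hm))).trans (le_of_eq ?_))
    rw [Finset.sum_const, nsmul_eq_mul]
  rw [abs_mul, abs_of_pos hMr] at hM2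
  exact le_of_mul_le_mul_left hM2 hMr

open Classical in
/-- **The average of the singular series over the sets with given numbers of elements in the windows.** -/
theorem sing_B (c β : ℕ) (k : Fin s → ℕ) (hk : 1 ≤ ∑ i, k i) (η : ℝ) (hη : 0 < η) (hη1 : η ≤ 1) :
    ∃ (w : ℕ) (η' : ℝ) (T0 : ℕ), 0 < η' ∧ ∀ T : ℕ, T0 ≤ T → ∀ Q : ℕ → ℕ → Prop, PerB Q c →
      (∀ p : ℕ, p.Prime → nuB Q p < p) → ∀ y : ℕ, w ≤ y →
      (∀ t ∈ Icc 1 T, ((((pz y).filter (fun p : ℕ => T < p ∧ CoG Q p t)).card : ℕ) : ℝ) ≤ η' * T) →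
      ∀ B : Finset ℕ, B.card ≤ β → (∀ x ∈ B, x ≤ T) →
      ∀ a b : Fin s → ℕ, (∀ i, a i ≤ b i) → (∀ i, b i ≤ T) →
      (∀ i j, i ≠ j → Disjoint (Ioc (a i) (b i)) (Ioc (a j) (b j))) →
      (∀ i, Disjoint B (Ioc (a i) (b i))) →
      |∑ H ∈ Fam (fun i => Ioc (a i) (b i)) k, Vq (QH Q (B ∪ Un H)) y -
        Vq (QH Q B) y * ∏ i, ((((b i : ℝ) - a i) * Vq Q y) ^ (k i) / (k i).factorial)| ≤
        Vq (QH Q B) y * (η * (T * Vq Q y) ^ (∑ i, k i)) := by
  obtain ⟨j, hj⟩ : ∃ j, ∑ i, k i = j + 1 := ⟨∑ i, k i - 1, by omega⟩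
  obtain ⟨c1, B', w1, hc1, hw12, hW⟩ := W_low c
  obtain ⟨K, hK⟩ : ∃ K : ℕ, K = (1 + 2 * ((j + 1) * c)) ^ ((β + (j + 1)) ^ 2) - 1 := ⟨_, rfl⟩
  obtain ⟨A, hA⟩ : ∃ A : ℕ, A = 12 * (K * c ^ 2 + 1) * ((j + 1).factorial * (1 + 2 * β)) +
      ((β + (j + 1)) * c) ^ 2 := ⟨_, rfl⟩
  obtain ⟨w, hw0, hw2, hAw, hAw'⟩ := exists_w A B' (j + 1) c1 (η / 8) hc1 (by positivity)
    (max w1 (2 * ((β + (j + 1)) * c)))
  have hww1 : w1 ≤ w := (le_max_left _ _).trans hw0
  have hwc : 2 * ((β + (j + 1)) * c) ≤ w := (le_max_right _ _).trans hw0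
  have hwr : (0 : ℝ) < w := by exact_mod_cast (by omega : 0 < w)
  obtain ⟨η1, hη1def⟩ : ∃ η1 : ℝ, η1 = ((K * c ^ 2 + 1 : ℕ) : ℝ) / w := ⟨_, rfl⟩
  have hη10 : 0 < η1 := by rw [hη1def]; positivity
  have hfac : (1 : ℝ) ≤ (j + 1).factorial := by
    exact_mod_cast Nat.factorial_pos (j + 1)
  have hβ0 : (0 : ℝ) ≤ β := Nat.cast_nonneg β
  have hAge : 12 * η1 * ((j + 1).factorial * (1 + 2 * β)) ≤ (A : ℝ) / w := by
    rw [hη1def, le_div_iff₀ hwr]
    have : ((12 * (K * c ^ 2 + 1) * ((j + 1).factorial * (1 + 2 * β)) : ℕ) : ℝ) ≤ A := by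
      exact_mod_cast (by omega : 12 * (K * c ^ 2 + 1) * ((j + 1).factorial * (1 + 2 * β)) ≤ A)
    refine le_trans (le_of_eq ?_) this
    push_cast
    field_simp
  have hAge2 : (((β + (j + 1)) * c : ℕ) : ℝ) ^ 2 / w ≤ η / 8 := by
    refine le_trans ?_ hAw'
    apply div_le_div_of_nonneg_right _ hwr.le
    exact_mod_cast (by omega : ((β + (j + 1)) * c) ^ 2 ≤ A)
  have hη1le : η1 ≤ 1 := by
    have hβ1 : (1 : ℝ) ≤ (j + 1).factorial * (1 + 2 * β) := by nlinarith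
    have h1 : 12 * η1 * 1 ≤ 12 * η1 * ((j + 1).factorial * (1 + 2 * β)) :=
      mul_le_mul_of_nonneg_left hβ1 (by positivity)
    have h2 : (A : ℝ) / w ≤ η / 8 := hAw'
    linarith
  obtain ⟨T1, hT1, havg⟩ := avg_sharp K (c ^ 2) w (by omega) η1 hη10 (by
    rw [hη1def]
    apply div_le_div_of_nonneg_right _ hwr.le
    push_cast
    linarith)
  obtain ⟨T2, hsmall⟩ := small_multiB k w (η / 8) (by positivity)
  refine ⟨w, η1 / (K + 1), max T1 T2, by positivity, ?_⟩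
  intro T hT Q hQ hadm y hwy hlarge B hBβ hBT a b hab hbT hdis hBd
  have hT1' : T1 ≤ T := (le_max_left _ _).trans hT
  have hT2' : T2 ≤ T := (le_max_right _ _).trans hT
  have hs := hsmall T hT2' Q c hQ hadm B a b hab hbT
  have hWpos := Vq_pos Q hadm w
  obtain ⟨W, hWdef⟩ : ∃ W, W = Vq Q w := ⟨_, rfl⟩
  obtain ⟨V, hV⟩ : ∃ V, V = Vt Q w y := ⟨_, rfl⟩
  have hV0 : 0 ≤ V := by rw [hV]; exact Vt_nonneg Q w y
  have hwin : ∀ i, Ioc (a i) (b i) ⊆ Icc 1 T := by
    intro i x hx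
    rw [mem_Ioc] at hx
    rw [mem_Icc]
    have := hbT i
    omega
  obtain ⟨WB, hWB⟩ : ∃ WB, WB = Vq (QH Q B) w := ⟨_, rfl⟩
  obtain ⟨VB, hVB⟩ : ∃ VB, VB = Vt (QH Q B) w y := ⟨_, rfl⟩
  have hWB0 : 0 ≤ WB := by rw [hWB]; exact Vq_nonneg _ w
  have hVB0 : 0 ≤ VB := by rw [hVB]; exact Vt_nonneg _ w y
  rw [← hWdef, ← hWB] at hs
  rw [← hWdef] at hWpos
  rw [Vq_split Q w y hwy, Vq_split (QH Q B) w y hwy, ← hWdef, ← hV, ← hWB, ← hVB]
  have hT0 : (0 : ℝ) ≤ T := Nat.cast_nonneg T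
  have hVk : 0 ≤ V ^ (j + 1) := by positivity
  obtain ⟨L, hL⟩ : ∃ L : ℝ, L = T * W := ⟨_, rfl⟩
  have hL0 : 0 ≤ L := by rw [hL]; positivity
  rw [← hL, hj] at hs
  obtain ⟨P, hP⟩ : ∃ P : ℝ, P = ∏ i, ((((b i : ℝ) - a i) * W) ^ (k i) / (k i).factorial) := ⟨_, rfl⟩
  have hPV : ∏ i, ((((b i : ℝ) - a i) * (W * V)) ^ (k i) / (k i).factorial) = V ^ (j + 1) * P := by
    rw [hP, ← hj, prod_scale k (fun i => ((b i : ℝ) - a i) * W) V]
    apply Finset.prod_congr rfl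
    intro i _
    rw [mul_assoc]
  have hPle : P ≤ L ^ (j + 1) := by
    rw [hP, ← hj]
    apply prod_le_pow
    · intro i
      have : (a i : ℝ) ≤ b i := by exact_mod_cast hab i
      exact mul_nonneg (by linarith) hWpos.le
    · intro i
      rw [hL]
      apply mul_le_mul_of_nonneg_right _ hWpos.le
      have h1 : (b i : ℝ) ≤ T := by exact_mod_cast hbT i
      have h2 : (0 : ℝ) ≤ a i := Nat.cast_nonneg _
      linarith
  rw [← hP] at hs
  rw [hPV, hj]
  have e1 : ((T : ℝ) * (W * V)) ^ (j + 1) = V ^ (j + 1) * L ^ (j + 1) := by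
    rw [hL, ← mul_assoc, mul_pow ((T : ℝ) * W) V]
    ring
  rw [e1]
  obtain ⟨Sw, hSw⟩ : ∃ x : ℝ, x = ∑ H ∈ Fam (fun i => Ioc (a i) (b i)) k, Vq (QH Q (B ∪ Un H)) w := ⟨_, rfl⟩
  rw [← hSw] at hs
  have hL1 : 0 ≤ L ^ (j + 1) := by positivity
  have hSw2 : Sw ≤ 2 * (WB * L ^ (j + 1)) := by
    have h1 := (abs_le.1 hs).2
    have h2 : WB * P ≤ WB * L ^ (j + 1) := mul_le_mul_of_nonneg_left hPle hWB0
    have h3 : 0 ≤ WB * L ^ (j + 1) := mul_nonneg hWB0 hL1
    nlinarith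
  have hcardH : ∀ H ∈ Fam (fun i => Ioc (a i) (b i)) k, (Un H).card = j + 1 := by
    intro H hH
    rw [Un_card _ hdis k H hH, hj]
  have hdisH : ∀ H ∈ Fam (fun i => Ioc (a i) (b i)) k, Disjoint B (Un H) := by
    intro H hH
    rw [mem_Fam] at hH
    unfold Un
    rw [Finset.disjoint_biUnion_right]
    intro i _
    exact (hBd i).mono_right (hH i).1
  have hVV : 0 ≤ VB * V ^ (j + 1) := mul_nonneg hVB0 hVk
  have hterm : ∀ H ∈ Fam (fun i => Ioc (a i) (b i)) k,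
      |Vq (QH Q (B ∪ Un H)) y - VB * V ^ (j + 1) * Vq (QH Q (B ∪ Un H)) w| ≤
        VB * V ^ (j + 1) * (η / 8 * Vq (QH Q (B ∪ Un H)) w +
          WB * ∑ x ∈ prsB B (Un H), (Fp Q K w y (x.2 - x.1) - 1)) := by
    intro H hH
    have hc := hcardH H hH
    have hBG := hdisH H hH
    obtain ⟨G, hG⟩ : ∃ G, G = Un H := ⟨_, rfl⟩
    rw [← hG] at hc hBG ⊢
    have e0 : Vq (QH Q (B ∪ G)) y = Vq (QH Q (B ∪ G)) w * Vt (QH Q (B ∪ G)) w y :=
      Vq_split _ w y hwy
    have h3 : 0 ≤ ∑ x ∈ prsB B G, (Fp Q K w y (x.2 - x.1) - 1) := by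
      apply Finset.sum_nonneg
      intro x _
      have := Fp_ge Q K w y (x.2 - x.1)
      linarith
    have h4 := Vq_nonneg (QH Q (B ∪ G)) w
    have h5 : Vq (QH Q (B ∪ G)) w ≤ WB := by
      rw [hWB]
      unfold Vq
      apply Finset.prod_le_prod
      · intro p hp
        exact one_sub_nonneg _ p (mem_pz.1 hp).2
      · intro p hp
        have hp0 : (0 : ℝ) < p := by exact_mod_cast (mem_pz.1 hp).2.pos
        have h6 : (nuB (QH Q B) p : ℝ) / p ≤ (nuB (QH Q (B ∪ G)) p : ℝ) / p := by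
          apply div_le_div_of_nonneg_right _ hp0.le
          exact_mod_cast nuB_mono_union Q B G p
        linarith
    rw [abs_le]
    constructor
    · have h2 := tail_loB Q c hQ B G β (j + 1) hBβ hc w y (by omega) hwc
      rw [← hV, ← hVB] at h2
      have h6 : VB * V ^ (j + 1) * (1 - η / 8) ≤ Vt (QH Q (B ∪ G)) w y := by
        refine le_trans ?_ h2
        rw [← mul_assoc]
        apply mul_le_mul_of_nonneg_left _ hVV
        linarith
      have h7 : VB * V ^ (j + 1) * (1 - η / 8) * Vq (QH Q (B ∪ G)) w ≤ Vq (QH Q (B ∪ G)) y := by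
        rw [e0]
        calc VB * V ^ (j + 1) * (1 - η / 8) * Vq (QH Q (B ∪ G)) w ≤
              Vt (QH Q (B ∪ G)) w y * Vq (QH Q (B ∪ G)) w := mul_le_mul_of_nonneg_right h6 h4
          _ = _ := mul_comm _ _
      have h8 : 0 ≤ VB * V ^ (j + 1) * (WB * ∑ x ∈ prsB B G, (Fp Q K w y (x.2 - x.1) - 1)) :=
        mul_nonneg hVV (mul_nonneg hWB0 h3)
      have e9 : VB * V ^ (j + 1) * (1 - η / 8) * Vq (QH Q (B ∪ G)) w =
          VB * V ^ (j + 1) * Vq (QH Q (B ∪ G)) w -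
            VB * V ^ (j + 1) * (η / 8 * Vq (QH Q (B ∪ G)) w) := by ring
      rw [mul_add]
      linarith
    · have h2 := tail_upB Q c hQ B G hBG β (j + 1) hBβ hc w y hwc
      rw [← hV, ← hVB, ← hK] at h2
      have h6 : Vq (QH Q (B ∪ G)) y ≤ VB * V ^ (j + 1) * (Vq (QH Q (B ∪ G)) w +
          WB * ∑ x ∈ prsB B G, (Fp Q K w y (x.2 - x.1) - 1)) := by
        rw [e0]
        calc Vq (QH Q (B ∪ G)) w * Vt (QH Q (B ∪ G)) w y ≤ Vq (QH Q (B ∪ G)) w *
              (VB * (V ^ (j + 1) *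
              (1 + ∑ x ∈ prsB B G, (Fp Q K w y (x.2 - x.1) - 1)))) := mul_le_mul_of_nonneg_left h2 h4
          _ = VB * V ^ (j + 1) * (Vq (QH Q (B ∪ G)) w +
              Vq (QH Q (B ∪ G)) w * ∑ x ∈ prsB B G, (Fp Q K w y (x.2 - x.1) - 1)) := by ring
          _ ≤ _ := by
            apply mul_le_mul_of_nonneg_left _ hVV
            have := mul_le_mul_of_nonneg_right h5 h3
            linarith
      have h8 : 0 ≤ VB * V ^ (j + 1) * (η / 8 * Vq (QH Q (B ∪ G)) w) :=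
        mul_nonneg hVV (mul_nonneg (by positivity) h4)
      rw [mul_add] at h6 ⊢
      linarith
  have hFsum : ∑ H ∈ Fam (fun i => Ioc (a i) (b i)) k,
      ∑ x ∈ prsB B (Un H), (Fp Q K w y (x.2 - x.1) - 1) ≤ η / 8 * L ^ (j + 1) := by
    have h1 := sum_fam_le (fun i => Ioc (a i) (b i)) hdis T hwin k
      (fun G => ∑ x ∈ prsB B G, (Fp Q K w y (x.2 - x.1) - 1)) (fun G => by
        apply Finset.sum_nonneg
        intro x _
        have := Fp_ge Q K w y (x.2 - x.1)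
        linarith)
    rw [hj] at h1
    refine h1.trans ?_
    have h3 := sum_prsB B T hBT j (fun t => Fp Q K w y t - 1) (fun t => by
      have := Fp_ge Q K w y t
      linarith)
    have h4 := havg T hT1' (CoG Q) (coll_gen Q c hQ w) y (η1 / (K + 1)) (by positivity) (by
      rw [← mul_div_assoc, div_le_iff₀ (by positivity)]
      have : (0 : ℝ) ≤ K := Nat.cast_nonneg K
      nlinarith) hlarge
    have h5 : ∑ t ∈ Icc 1 T, (Fp Q K w y t - 1) ≤ 12 * η1 * T := by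
      rw [Finset.sum_sub_distrib, Finset.sum_const, Nat.card_Icc, Nat.add_sub_cancel, nsmul_eq_mul,
        mul_one]
      have h6 := exp_bound η1 hη10.le hη1le
      have h7 := mul_le_mul_of_nonneg_right h6 hT0
      unfold Fp
      linarith
    have h5' : 0 ≤ ∑ t ∈ Icc 1 T, (Fp Q K w y t - 1) := by
      apply Finset.sum_nonneg
      intro t _
      have := Fp_ge Q K w y t
      linarith
    have hBr : (B.card : ℝ) ≤ β := by exact_mod_cast hBβ
    calc _ ≤ (1 + 2 * B.card) * ((T : ℝ) ^ j * ∑ t ∈ Icc 1 T, (Fp Q K w y t - 1)) := h3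
      _ ≤ (1 + 2 * β) * ((T : ℝ) ^ j * (12 * η1 * T)) := by
        apply mul_le_mul
        · linarith
        · exact mul_le_mul_of_nonneg_left h5 (by positivity)
        · exact mul_nonneg (by positivity) h5'
        · positivity
      _ = 12 * η1 * (1 * (1 + 2 * β)) * T ^ (j + 1) := by
        rw [pow_succ]
        ring
      _ ≤ 12 * η1 * ((j + 1).factorial * (1 + 2 * β)) * T ^ (j + 1) := by gcongr
      _ ≤ (η / 8 * (c1 / Real.log w ^ B') ^ (j + 1)) * T ^ (j + 1) := by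
        apply mul_le_mul_of_nonneg_right (hAge.trans hAw) (by positivity)
      _ ≤ (η / 8 * W ^ (j + 1)) * T ^ (j + 1) := by
        apply mul_le_mul_of_nonneg_right _ (by positivity)
        apply mul_le_mul_of_nonneg_left _ (by positivity)
        have hlog : 0 < Real.log w := Real.log_pos (by exact_mod_cast (by omega : 1 < w))
        apply pow_le_pow_left₀ (by positivity)
        rw [hWdef]
        exact hW w hww1 Q hQ hadm
      _ = _ := by
        rw [hL, mul_pow]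
        ring
  have hsumdiff : |∑ H ∈ Fam (fun i => Ioc (a i) (b i)) k, Vq (QH Q (B ∪ Un H)) y -
      VB * V ^ (j + 1) * Sw| ≤ VB * V ^ (j + 1) * (η / 8 * Sw + WB * (η / 8 * L ^ (j + 1))) := by
    rw [hSw, Finset.mul_sum, ← Finset.sum_sub_distrib]
    refine (Finset.abs_sum_le_sum_abs _ _).trans ((Finset.sum_le_sum hterm).trans ?_)
    rw [← Finset.mul_sum, Finset.sum_add_distrib, ← Finset.mul_sum, ← Finset.mul_sum]
    apply mul_le_mul_of_nonneg_left _ hVV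
    have := mul_le_mul_of_nonneg_left hFsum hWB0
    linarith
  have h10 : |VB * V ^ (j + 1) * Sw - VB * V ^ (j + 1) * (WB * P)| ≤
      VB * V ^ (j + 1) * (WB * (η / 8 * L ^ (j + 1))) := by
    rw [← mul_sub, abs_mul, abs_of_nonneg hVV]
    exact mul_le_mul_of_nonneg_left hs hVV
  have e2 : WB * VB * (V ^ (j + 1) * P) = VB * V ^ (j + 1) * (WB * P) := by ring
  rw [e2]
  refine (abs_sub_le _ (VB * V ^ (j + 1) * Sw) _).trans ?_
  have h11 : η / 8 * Sw ≤ η / 8 * (2 * (WB * L ^ (j + 1))) :=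
    mul_le_mul_of_nonneg_left hSw2 (by positivity)
  calc _ ≤ VB * V ^ (j + 1) * (η / 8 * Sw + WB * (η / 8 * L ^ (j + 1))) +
        VB * V ^ (j + 1) * (WB * (η / 8 * L ^ (j + 1))) := add_le_add hsumdiff h10
    _ = VB * V ^ (j + 1) * (η / 8 * Sw + η / 4 * (WB * L ^ (j + 1))) := by ring
    _ ≤ VB * V ^ (j + 1) * (η * (WB * L ^ (j + 1))) := by
      apply mul_le_mul_of_nonneg_left _ hVV
      have h12 : 0 ≤ WB * L ^ (j + 1) := mul_nonneg hWB0 hL1
      nlinarith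
    _ = _ := by ring

end Pool.Agent.TH464.PO
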