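import Pool.Agent.TH464.PO.Sing2

set_option autoImplicit false

/-!
# The average of the singular series with exceptional differences
-/

namespace Pool.Agent.TH464.PO

open Finset Filter Pool.Agent.H373R2.T7 Pool.Agent.W123.RP Pool.Agent.W123.RU

/-- no two elements of `H` have a difference in `E` -/
def NE (E H : Finset ℕ) : Prop := ∀ a ∈ H, ∀ b ∈ H, a < b → b - a ∉ E

/-- the collisions without the exceptional ones -/
def CoE (Q : ℕ → ℕ → Prop) (E : Finset ℕ) (T p t : ℕ) : Prop := CoG Q p t ∧ (p ≤ T ∨ t % p ∉ E)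

lemma coll_CoE (Q : ℕ → ℕ → Prop) (c : ℕ) (hQ : PerB Q c) (E : Finset ℕ) (T p0 : ℕ) :
    Coll (CoE Q E T) p0 (c ^ 2) := by
  classical
  have h := coll_gen Q c hQ p0
  constructor
  · intro p n
    unfold CoE
    rw [← h.per p n, Nat.mod_mod]
  · intro p hp hp0
    have h1 := h.few p hp hp0
    refine le_trans ?_ h1
    apply card_le_card
    intro r hr
    rw [mem_filter] at hr ⊢
    exact ⟨hr.1, hr.2.1⟩

open Classical in
/-- the product over the collision primes -/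
noncomputable def Ge (Q : ℕ → ℕ → Prop) (E : Finset ℕ) (T K w y t : ℕ) : ℝ :=
  ∏ p ∈ (pz y).filter (fun p : ℕ => w < p ∧ CoE Q E T p t), (1 + (K : ℝ) / p)

open Classical in
lemma Ge_ge (Q : ℕ → ℕ → Prop) (E : Finset ℕ) (T K w y t : ℕ) : 1 ≤ Ge Q E T K w y t := by
  unfold Ge
  apply Finset.one_le_prod
  intro p _
  have : 0 ≤ (K : ℝ) / p := by positivity
  linarith

open Classical in
lemma Fp_eq_Ge (Q : ℕ → ℕ → Prop) (E : Finset ℕ) (T K w y t : ℕ) (ht : t ∈ Icc 1 T) (hE : t ∉ E) :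
    Fp Q K w y t = Ge Q E T K w y t := by
  unfold Fp Ge
  apply Finset.prod_congr _ (fun _ _ => rfl)
  apply Finset.filter_congr
  intro p _
  unfold CoE
  rw [mem_Icc] at ht
  constructor
  · rintro ⟨h1, h2⟩
    refine ⟨h1, h2, ?_⟩
    by_cases hp : p ≤ T
    · exact Or.inl hp
    · right
      rw [Nat.mod_eq_of_lt (by omega)]
      exact hE
  · rintro ⟨h1, h2, _⟩
    exact ⟨h1, h2⟩

open Classical in
/-- **The average of the singular series**, sets without exceptional differences. -/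
theorem sing_NE (c k : ℕ) (η : ℝ) (hη : 0 < η) (hη1 : η ≤ 1) :
    ∃ (w : ℕ) (η' : ℝ) (T0 : ℕ), 0 < η' ∧ ∀ T : ℕ, T0 ≤ T → ∀ Q : ℕ → ℕ → Prop, PerB Q c →
      (∀ p : ℕ, p.Prime → nuB Q p < p) → ∀ y : ℕ, w ≤ y → ∀ E : Finset ℕ,
      (∀ t ∈ Icc 1 T, t ∉ E →
        ((((pz y).filter (fun p : ℕ => T < p ∧ CoG Q p t)).card : ℕ) : ℝ) ≤ η' * T) →
      (1 - η) * ((T * Vq Q y) ^ (k + 1) / (k + 1).factorial) ≤
        ∑ H ∈ powersetCard (k + 1) (Icc 1 T), Vq (QH Q H) y ∧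
      ∑ H ∈ (powersetCard (k + 1) (Icc 1 T)).filter (NE E), Vq (QH Q H) y ≤
        (1 + η) * ((T * Vq Q y) ^ (k + 1) / (k + 1).factorial) := by
  obtain ⟨c1, B, w1, hc1, hw12, hW⟩ := W_low c
  obtain ⟨K, hK⟩ : ∃ K : ℕ, K = (1 + 2 * ((k + 1) * c)) ^ ((k + 1) ^ 2) - 1 := ⟨_, rfl⟩
  obtain ⟨A, hA⟩ : ∃ A : ℕ, A = 12 * (K * c ^ 2 + 1) * (k + 1).factorial + ((k + 1) * c) ^ 2 :=
    ⟨_, rfl⟩
  obtain ⟨w, hw0, hw2, hAw, hAw'⟩ := exists_w A B (k + 1) c1 (η / 4) hc1 (by positivity)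
    (max w1 (2 * ((k + 1) * c)))
  have hww1 : w1 ≤ w := (le_max_left _ _).trans hw0
  have hwc : 2 * ((k + 1) * c) ≤ w := (le_max_right _ _).trans hw0
  have hwr : (0 : ℝ) < w := by exact_mod_cast (by omega : 0 < w)
  obtain ⟨η1, hη1def⟩ : ∃ η1 : ℝ, η1 = ((K * c ^ 2 + 1 : ℕ) : ℝ) / w := ⟨_, rfl⟩
  have hη10 : 0 < η1 := by rw [hη1def]; positivity
  have hfac : (1 : ℝ) ≤ (k + 1).factorial := by
    exact_mod_cast Nat.factorial_pos (k + 1)
  have hAge : 12 * η1 * (k + 1).factorial ≤ (A : ℝ) / w := by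
    rw [hη1def, le_div_iff₀ hwr]
    have : ((12 * (K * c ^ 2 + 1) * (k + 1).factorial : ℕ) : ℝ) ≤ A := by
      exact_mod_cast (by omega : 12 * (K * c ^ 2 + 1) * (k + 1).factorial ≤ A)
    refine le_trans (le_of_eq ?_) this
    push_cast
    field_simp
  have hAge2 : (((k + 1) * c : ℕ) : ℝ) ^ 2 / w ≤ η / 4 := by
    refine le_trans ?_ hAw'
    apply div_le_div_of_nonneg_right _ hwr.le
    exact_mod_cast (by omega : ((k + 1) * c) ^ 2 ≤ A)
  have hη1le : η1 ≤ 1 := by nlinarith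
  obtain ⟨T1, hT1, havg⟩ := avg_sharp K (c ^ 2) w (by omega) η1 hη10 (by
    rw [hη1def]
    apply div_le_div_of_nonneg_right _ hwr.le
    push_cast
    linarith)
  obtain ⟨T2, hsmall⟩ := small_avg (k + 1) w (η / 4) (by positivity)
  refine ⟨w, η1 / (K + 1), max T1 T2, by positivity, ?_⟩
  intro T hT Q hQ hadm y hwy E hlarge
  have hT1' : T1 ≤ T := (le_max_left _ _).trans hT
  have hT2' : T2 ≤ T := (le_max_right _ _).trans hT
  obtain ⟨s1, s2⟩ := hsmall T hT2' Q c hQ hadm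
  have hWpos := Vq_pos Q hadm w
  obtain ⟨W, hWdef⟩ : ∃ W, W = Vq Q w := ⟨_, rfl⟩
  obtain ⟨V, hV⟩ : ∃ V, V = Vt Q w y := ⟨_, rfl⟩
  have hV0 : 0 ≤ V := by rw [hV]; exact Vt_nonneg Q w y
  rw [← hWdef] at s1 s2 hWpos
  rw [Vq_split Q w y hwy, ← hWdef, ← hV]
  have hT0 : (0 : ℝ) ≤ T := Nat.cast_nonneg T
  have e1 : ((T : ℝ) * (W * V)) ^ (k + 1) / (k + 1).factorial =
      V ^ (k + 1) * ((T * W) ^ (k + 1) / (k + 1).factorial) := by
    rw [← mul_assoc, mul_pow ((T : ℝ) * W) V]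
    ring
  rw [e1]
  have hterm : ∀ H : Finset ℕ, Vq (QH Q H) y = Vq (QH Q H) w * Vt (QH Q H) w y :=
    fun H => Vq_split _ w y hwy
  have hX0 : 0 ≤ (T * W) ^ (k + 1) / ((k + 1).factorial : ℝ) := by positivity
  have hVk : 0 ≤ V ^ (k + 1) := by positivity
  have hGe0 : ∀ H : Finset ℕ, 0 ≤ ∑ x ∈ prs H, (Ge Q E T K w y (x.2 - x.1) - 1) := by
    intro H
    apply Finset.sum_nonneg
    intro x _
    have := Ge_ge Q E T K w y (x.2 - x.1)
    linarith
  constructor
  · -- lower bound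
    have h1 : ∀ H ∈ powersetCard (k + 1) (Icc 1 T),
        V ^ (k + 1) * (1 - η / 4) * Vq (QH Q H) w ≤ Vq (QH Q H) y := by
      intro H hH
      rw [hterm H]
      rw [mem_powersetCard] at hH
      have h2 := tail_lo Q c hQ H w y (by omega) (by rw [hH.2]; exact hwc)
      rw [hH.2, ← hV] at h2
      have h3 : V ^ (k + 1) * (1 - η / 4) ≤ Vt (QH Q H) w y := by
        refine le_trans ?_ h2
        apply mul_le_mul_of_nonneg_left _ hVk
        linarith
      calc V ^ (k + 1) * (1 - η / 4) * Vq (QH Q H) w ≤ Vt (QH Q H) w y * Vq (QH Q H) w :=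
            mul_le_mul_of_nonneg_right h3 (Vq_nonneg _ w)
        _ = _ := mul_comm _ _
    have h2 := Finset.sum_le_sum h1
    rw [← Finset.mul_sum] at h2
    refine le_trans ?_ h2
    calc (1 - η) * (V ^ (k + 1) * ((T * W) ^ (k + 1) / (k + 1).factorial)) ≤
        V ^ (k + 1) * (1 - η / 4) * ((1 - η / 4) * ((T * W) ^ (k + 1) / (k + 1).factorial)) := by
          have h3 : 1 - η ≤ (1 - η / 4) * (1 - η / 4) := by nlinarith
          have h4 := mul_le_mul_of_nonneg_right h3 (mul_nonneg hVk hX0)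
          calc (1 - η) * (V ^ (k + 1) * ((T * W) ^ (k + 1) / (k + 1).factorial)) ≤ _ := h4
            _ = _ := by ring
      _ ≤ _ := mul_le_mul_of_nonneg_left s1 (mul_nonneg hVk (by linarith))
  · -- upper bound
    have h1 : ∀ H ∈ (powersetCard (k + 1) (Icc 1 T)).filter (NE E), Vq (QH Q H) y ≤
        V ^ (k + 1) * (Vq (QH Q H) w + ∑ x ∈ prs H, (Ge Q E T K w y (x.2 - x.1) - 1)) := by
      intro H hH
      rw [hterm H]
      rw [mem_filter, mem_powersetCard] at hH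
      obtain ⟨hH, hNE⟩ := hH
      have h2 := tail_up Q c hQ H w y (by rw [hH.2]; exact hwc)
      rw [hH.2, ← hV, ← hK] at h2
      have e3 : ∑ x ∈ prs H, (Fp Q K w y (x.2 - x.1) - 1) =
          ∑ x ∈ prs H, (Ge Q E T K w y (x.2 - x.1) - 1) := by
        apply Finset.sum_congr rfl
        intro x hx
        unfold prs at hx
        rw [mem_filter, mem_product] at hx
        have ha := mem_Icc.1 (hH.1 hx.1.1)
        have hb := mem_Icc.1 (hH.1 hx.1.2)
        rw [Fp_eq_Ge Q E T K w y (x.2 - x.1) (by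
          rw [mem_Icc]
          have := hx.2
          omega) (hNE x.1 hx.1.1 x.2 hx.1.2 hx.2)]
      rw [e3] at h2
      have h3 := hGe0 H
      have h4 := Vq_nonneg (QH Q H) w
      have h5 := Vq_le_one (QH Q H) w
      calc Vq (QH Q H) w * Vt (QH Q H) w y ≤ Vq (QH Q H) w * (V ^ (k + 1) *
            (1 + ∑ x ∈ prs H, (Ge Q E T K w y (x.2 - x.1) - 1))) := mul_le_mul_of_nonneg_left h2 h4
        _ = V ^ (k + 1) * (Vq (QH Q H) w +
            Vq (QH Q H) w * ∑ x ∈ prs H, (Ge Q E T K w y (x.2 - x.1) - 1)) := by ring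
        _ ≤ _ := by
          apply mul_le_mul_of_nonneg_left _ hVk
          have := mul_le_mul_of_nonneg_right h5 h3
          linarith
    have h2 : ∑ H ∈ (powersetCard (k + 1) (Icc 1 T)).filter (NE E), Vq (QH Q H) y ≤
        ∑ H ∈ powersetCard (k + 1) (Icc 1 T),
          V ^ (k + 1) * (Vq (QH Q H) w + ∑ x ∈ prs H, (Ge Q E T K w y (x.2 - x.1) - 1)) := by
      refine (Finset.sum_le_sum h1).trans ?_
      apply Finset.sum_le_sum_of_subset_of_nonneg (filter_subset _ _)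
      intro H _ _
      exact mul_nonneg hVk (add_nonneg (Vq_nonneg _ _) (hGe0 H))
    rw [← Finset.mul_sum, Finset.sum_add_distrib] at h2
    refine h2.trans ?_
    have h3 := sum_prs k T (fun t => Ge Q E T K w y t - 1) (fun t => by
      have := Ge_ge Q E T K w y t
      linarith)
    have h4 := havg T hT1' (CoE Q E T) (coll_CoE Q c hQ E T w) y (η1 / (K + 1)) (by positivity) (by
      rw [← mul_div_assoc, div_le_iff₀ (by positivity)]
      have : (0 : ℝ) ≤ K := Nat.cast_nonneg K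
      nlinarith) (by
        intro t ht
        by_cases htE : t ∈ E
        · have : (pz y).filter (fun p : ℕ => T < p ∧ CoE Q E T p t) = ∅ := by
            apply Finset.filter_eq_empty_iff.2
            rintro p _ ⟨h5, _, h6⟩
            rw [mem_Icc] at ht
            rcases h6 with h6 | h6
            · omega
            · rw [Nat.mod_eq_of_lt (by omega)] at h6
              exact h6 htE
          rw [this]
          simp
          positivity
        · refine le_trans ?_ (hlarge t ht htE)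
          have : ((pz y).filter (fun p : ℕ => T < p ∧ CoE Q E T p t)).card ≤
              ((pz y).filter (fun p : ℕ => T < p ∧ CoG Q p t)).card := by
            apply card_le_card
            intro p hp
            rw [mem_filter] at hp ⊢
            exact ⟨hp.1, hp.2.1, hp.2.2.1⟩
          exact_mod_cast this)
    have h5 : ∑ t ∈ Icc 1 T, (Ge Q E T K w y t - 1) ≤ 12 * η1 * T := by
      rw [Finset.sum_sub_distrib, Finset.sum_const, Nat.card_Icc, Nat.add_sub_cancel, nsmul_eq_mul,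
        mul_one]
      have h6 := exp_bound η1 hη10.le hη1le
      have h7 := mul_le_mul_of_nonneg_right h6 hT0
      unfold Ge
      linarith
    have h6 : ∑ H ∈ powersetCard (k + 1) (Icc 1 T), ∑ x ∈ prs H, (Ge Q E T K w y (x.2 - x.1) - 1) ≤
        η / 4 * ((T * W) ^ (k + 1) / (k + 1).factorial) := by
      calc _ ≤ (T : ℝ) ^ k * ∑ t ∈ Icc 1 T, (Ge Q E T K w y t - 1) := h3
        _ ≤ (T : ℝ) ^ k * (12 * η1 * T) := mul_le_mul_of_nonneg_left h5 (by positivity)
        _ = 12 * η1 * (k + 1).factorial * (T ^ (k + 1) / (k + 1).factorial) := by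
          rw [pow_succ]
          field_simp
        _ ≤ (η / 4 * (c1 / Real.log w ^ B) ^ (k + 1)) * (T ^ (k + 1) / (k + 1).factorial) := by
          apply mul_le_mul_of_nonneg_right (hAge.trans hAw) (by positivity)
        _ ≤ (η / 4 * W ^ (k + 1)) * (T ^ (k + 1) / (k + 1).factorial) := by
          apply mul_le_mul_of_nonneg_right _ (by positivity)
          apply mul_le_mul_of_nonneg_left _ (by positivity)
          have hlog : 0 < Real.log w := Real.log_pos (by exact_mod_cast (by omega : 1 < w))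
          apply pow_le_pow_left₀ (by positivity)
          rw [hWdef]
          exact hW w hww1 Q hQ hadm
        _ = _ := by
          rw [mul_pow]
          ring
    calc V ^ (k + 1) * (∑ H ∈ powersetCard (k + 1) (Icc 1 T), Vq (QH Q H) w +
        ∑ H ∈ powersetCard (k + 1) (Icc 1 T), ∑ x ∈ prs H, (Ge Q E T K w y (x.2 - x.1) - 1)) ≤
        V ^ (k + 1) * ((1 + η / 4) * ((T * W) ^ (k + 1) / (k + 1).factorial) +
          η / 4 * ((T * W) ^ (k + 1) / (k + 1).factorial)) := by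
          apply mul_le_mul_of_nonneg_left _ hVk
          linarith
      _ = (1 + η / 2) * (V ^ (k + 1) * ((T * W) ^ (k + 1) / (k + 1).factorial)) := by ring
      _ ≤ (1 + η) * (V ^ (k + 1) * ((T * W) ^ (k + 1) / (k + 1).factorial)) := by
        apply mul_le_mul_of_nonneg_right (by linarith) (mul_nonneg hVk hX0)

/-! ### The exceptional sets -/

lemma Vq_insert_le (Q : ℕ → ℕ → Prop) (H : Finset ℕ) (b y : ℕ) :
    Vq (QH Q (insert b H)) y ≤ Vq (QH Q H) y := by
  classical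
  unfold Vq
  apply Finset.prod_le_prod
  · intro p hp
    exact one_sub_nonneg _ p (mem_pz.1 hp).2
  · intro p _
    have : nuB (QH Q H) p ≤ nuB (QH Q (insert b H)) p := by
      unfold nuB
      apply card_le_card
      intro a ha
      rw [mem_filter] at ha ⊢
      obtain ⟨h1, h, hh, h2⟩ := ha
      exact ⟨h1, h, mem_insert_of_mem hh, h2⟩
    have h2 : (nuB (QH Q H) p : ℝ) ≤ nuB (QH Q (insert b H)) p := by exact_mod_cast this
    apply sub_le_sub_left
    gcongr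

lemma sum_image_le' {α β : Type*} [DecidableEq β] (S : Finset α) (ψ : α → β) (F : β → ℝ) (hF : ∀ x, 0 ≤ F x) :
    ∑ x ∈ S.image ψ, F x ≤ ∑ s ∈ S, F (ψ s) := by
  rw [Finset.sum_comp F ψ]
  apply Finset.sum_le_sum
  intro x hx
  rw [nsmul_eq_mul]
  have h1 : 1 ≤ (S.filter (fun a => ψ a = x)).card := by
    rw [Nat.one_le_iff_ne_zero, Finset.card_ne_zero]
    obtain ⟨s, hs, hsx⟩ := mem_image.1 hx
    exact ⟨s, mem_filter.2 ⟨hs, hsx⟩⟩
  have h2 : (1 : ℝ) ≤ ((S.filter (fun a => ψ a = x)).card : ℝ) := by exact_mod_cast h1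
  nlinarith [hF x]

open Classical in
/-- an exceptional set arises from a smaller set -/
lemma exc_step (Q : ℕ → ℕ → Prop) (E : Finset ℕ) (T y k e : ℕ) (hE : E.card ≤ e) (φ : ℝ)
    (hφ : 0 ≤ φ) (hfac : ∀ H ⊆ Icc 1 T, H.card = k + 1 → NE E H → ∀ b ∈ Icc 1 T, b ∉ H →
      Vq (QH Q (insert b H)) y ≤ φ * Vq (QH Q H) y) :
    ∑ H ∈ (powersetCard (k + 1 + 1) (Icc 1 T)).filter (fun H => ¬ NE E H), Vq (QH Q H) y ≤
      (k + 1) * e * (∑ H ∈ (powersetCard (k + 1) (Icc 1 T)).filter (fun H => ¬ NE E H), Vq (QH Q H) y +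
        φ * ∑ H ∈ (powersetCard (k + 1) (Icc 1 T)).filter (NE E), Vq (QH Q H) y) := by
  obtain ⟨S, hS⟩ : ∃ S : Finset (Finset ℕ × (ℕ × ℕ)), S =
    ((powersetCard (k + 1) (Icc 1 T)) ×ˢ ((Icc 1 T) ×ˢ E)).filter
      (fun x => x.2.1 ∈ x.1 ∧ x.2.1 + x.2.2 ∈ Icc 1 T ∧ x.2.1 + x.2.2 ∉ x.1) := ⟨_, rfl⟩
  obtain ⟨ψ, hψ⟩ : ∃ ψ : Finset ℕ × (ℕ × ℕ) → Finset ℕ, ψ = fun x => insert (x.2.1 + x.2.2) x.1 :=
    ⟨_, rfl⟩
  have hsub : (powersetCard (k + 1 + 1) (Icc 1 T)).filter (fun H => ¬ NE E H) ⊆ S.image ψ := by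
    intro H hH
    rw [mem_filter, mem_powersetCard] at hH
    obtain ⟨⟨h1, h2⟩, h3⟩ := hH
    unfold NE at h3
    push Not at h3
    obtain ⟨a, ha, b, hb, hab, hE'⟩ := h3
    rw [mem_image]
    have e1 : a + (b - a) = b := by omega
    refine ⟨(H.erase b, (a, b - a)), ?_, ?_⟩
    · rw [hS, mem_filter, mem_product, mem_product, mem_powersetCard]
      simp only [e1]
      refine ⟨⟨⟨(erase_subset _ _).trans h1, ?_⟩, h1 ha, hE'⟩, mem_erase.2 ⟨hab.ne, ha⟩, h1 hb,
        fun h => (mem_erase.1 h).1 rfl⟩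
      rw [card_erase_of_mem hb, h2]
      omega
    · rw [hψ]
      simp only [e1]
      exact insert_erase hb
  refine (Finset.sum_le_sum_of_subset_of_nonneg hsub (fun H _ _ => Vq_nonneg _ _)).trans ?_
  refine (sum_image_le' S ψ (fun H => Vq (QH Q H) y) (fun H => Vq_nonneg _ _)).trans ?_
  obtain ⟨m, hm⟩ : ∃ m : Finset ℕ → ℝ, m = fun H => if NE E H then φ * Vq (QH Q H) y else Vq (QH Q H) y :=
    ⟨_, rfl⟩
  have hm0 : ∀ H, 0 ≤ m H := by
    intro H
    rw [hm]
    simp only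
    split_ifs
    · exact mul_nonneg hφ (Vq_nonneg _ _)
    · exact Vq_nonneg _ _
  have h1 : ∀ s ∈ S, Vq (QH Q (ψ s)) y ≤ m s.1 := by
    intro s hs
    rw [hS, mem_filter, mem_product, mem_product, mem_powersetCard] at hs
    rw [hψ, hm]
    simp only
    split_ifs with h
    · exact hfac s.1 hs.1.1.1 hs.1.1.2 h _ hs.2.2.1 hs.2.2.2
    · exact Vq_insert_le Q s.1 _ y
  refine (Finset.sum_le_sum h1).trans ?_
  have h2 : ∑ s ∈ S, m s.1 ≤ ∑ H ∈ powersetCard (k + 1) (Icc 1 T), ∑ a ∈ Icc 1 T, ∑ t ∈ E,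
      if a ∈ H then m H else 0 := by
    rw [hS, Finset.sum_filter, Finset.sum_product]
    apply Finset.sum_le_sum
    intro H _
    rw [Finset.sum_product]
    apply Finset.sum_le_sum
    intro a _
    apply Finset.sum_le_sum
    intro t _
    simp only
    by_cases ha : a ∈ H
    · rw [if_pos ha]
      split_ifs
      · exact le_rfl
      · exact hm0 H
    · rw [if_neg ha, if_neg (fun h => ha h.1)]
  refine h2.trans ?_
  have h3 : ∀ H ∈ powersetCard (k + 1) (Icc 1 T), ∑ a ∈ Icc 1 T, ∑ t ∈ E,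
      (if a ∈ H then m H else 0) ≤ (k + 1) * e * m H := by
    intro H hH
    rw [mem_powersetCard] at hH
    have e1 : ∑ a ∈ Icc 1 T, ∑ t ∈ E, (if a ∈ H then m H else 0) =
        ((Icc 1 T).filter (fun a => a ∈ H)).card * (E.card * m H) := by
      rw [← nsmul_eq_mul, ← Finset.sum_const, Finset.sum_filter]
      apply Finset.sum_congr rfl
      intro a _
      rw [Finset.sum_const, nsmul_eq_mul]
      split_ifs
      · rfl
      · rw [mul_zero]
    rw [e1]
    have e2 : (Icc 1 T).filter (fun a => a ∈ H) = H := by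
      ext a
      rw [mem_filter]
      exact ⟨fun h => h.2, fun h => ⟨hH.1 h, h⟩⟩
    rw [e2, hH.2]
    push_cast
    have h4 : (E.card : ℝ) ≤ e := by exact_mod_cast hE
    have h5 := mul_le_mul_of_nonneg_right h4 (hm0 H)
    have h6 : (0 : ℝ) ≤ (k : ℝ) + 1 := by positivity
    calc ((k : ℝ) + 1) * (E.card * m H) ≤ (k + 1) * (e * m H) := mul_le_mul_of_nonneg_left h5 h6
      _ = _ := by ring
  refine (Finset.sum_le_sum h3).trans ?_
  rw [← Finset.mul_sum]
  apply le_of_eq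
  congr 1
  rw [← Finset.sum_filter_add_sum_filter_not (powersetCard (k + 1) (Icc 1 T)) (NE E), add_comm]
  congr 1
  · apply Finset.sum_congr rfl
    intro H hH
    rw [mem_filter] at hH
    rw [hm]
    simp only
    rw [if_neg hH.2]
  · rw [Finset.mul_sum]
    apply Finset.sum_congr rfl
    intro H hH
    rw [mem_filter] at hH
    rw [hm]
    simp only
    rw [if_pos hH.2]

open Classical in
/-- **The exceptional sets are rare.** -/
theorem exc_small (c e : ℕ) (x0 : ℝ) (hx0 : 0 ≤ x0) (k : ℕ) : ∀ δ : ℝ, 0 < δ →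
    ∃ (w : ℕ) (η' φ : ℝ) (T0 : ℕ), 0 < η' ∧ 0 < φ ∧ ∀ T : ℕ, T0 ≤ T → ∀ Q : ℕ → ℕ → Prop, PerB Q c →
      (∀ p : ℕ, p.Prime → nuB Q p < p) → ∀ y : ℕ, w ≤ y → T * Vq Q y ≤ x0 → ∀ E : Finset ℕ,
      E.card ≤ e → (∀ t ∈ Icc 1 T, t ∉ E →
        ((((pz y).filter (fun p : ℕ => T < p ∧ CoG Q p t)).card : ℕ) : ℝ) ≤ η' * T) →
      (∀ H ⊆ Icc 1 T, H.card ≤ k → NE E H → ∀ b ∈ Icc 1 T, b ∉ H →
        Vq (QH Q (insert b H)) y ≤ φ * Vq (QH Q H) y) →
      ∑ H ∈ (powersetCard (k + 1) (Icc 1 T)).filter (fun H => ¬ NE E H), Vq (QH Q H) y ≤ δ := by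
  induction k with
  | zero =>
    intro δ hδ
    refine ⟨0, 1, 1, 0, one_pos, one_pos, ?_⟩
    intro T _ Q _ _ y _ _ E _ _ _
    rw [Finset.filter_eq_empty_iff.2, Finset.sum_empty]
    · exact hδ.le
    · intro H hH hN
      rw [mem_powersetCard] at hH
      obtain ⟨a, ha⟩ := Finset.card_eq_one.1 hH.2
      apply hN
      intro x hx z hz hxz
      rw [ha, mem_singleton] at hx hz
      omega
  | succ k ih =>
    intro δ hδ
    obtain ⟨w1, η1, φ1, T1, hη1, hφ1, h1⟩ := ih (δ / (2 * ((k + 1) * e + 1))) (by positivity)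
    obtain ⟨w2, η2, T2, hη2, h2⟩ := sing_NE c k 1 one_pos le_rfl
    obtain ⟨φ2, hφ2⟩ : ∃ φ2 : ℝ, φ2 = δ / (2 * ((k + 1) * e + 1) * (2 * (x0 ^ (k + 1) + 1))) := ⟨_, rfl⟩
    have hφ20 : 0 < φ2 := by rw [hφ2]; positivity
    refine ⟨max w1 w2, min η1 η2, min φ1 φ2, max T1 T2, lt_min hη1 hη2, lt_min hφ1 hφ20, ?_⟩
    intro T hT Q hQ hadm y hy hx E hE hlarge hfac
    have hT0 : (0 : ℝ) ≤ T := Nat.cast_nonneg T
    have g1 := h1 T ((le_max_left _ _).trans hT) Q hQ hadm y ((le_max_left _ _).trans hy) hx E hE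
      (fun t ht htE => (hlarge t ht htE).trans (mul_le_mul_of_nonneg_right (min_le_left _ _) hT0))
      (fun H hH hHk hN b hb hbH => (hfac H hH (by omega) hN b hb hbH).trans
        (mul_le_mul_of_nonneg_right (min_le_left _ _) (Vq_nonneg _ _)))
    have g2 := (h2 T ((le_max_right _ _).trans hT) Q hQ hadm y ((le_max_right _ _).trans hy) E
      (fun t ht htE => (hlarge t ht htE).trans (mul_le_mul_of_nonneg_right (min_le_right _ _) hT0))).2
    have g3 := exc_step Q E T y k e hE φ2 hφ20.le (fun H hH hHk hN b hb hbH =>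
      (hfac H hH (by omega) hN b hb hbH).trans
        (mul_le_mul_of_nonneg_right (min_le_right _ _) (Vq_nonneg _ _)))
    refine g3.trans ?_
    obtain ⟨x, hxdef⟩ : ∃ x, x = T * Vq Q y := ⟨_, rfl⟩
    rw [← hxdef] at hx g2
    have hx00 : 0 ≤ x := by
      rw [hxdef]
      exact mul_nonneg hT0 (Vq_nonneg Q y)
    have g4 : ∑ H ∈ (powersetCard (k + 1) (Icc 1 T)).filter (NE E), Vq (QH Q H) y ≤
        2 * (x0 ^ (k + 1) + 1) := by
      refine g2.trans ?_
      have hf1 : (1 : ℝ) ≤ (k + 1).factorial := by exact_mod_cast Nat.factorial_pos (k + 1)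
      have h4 : x ^ (k + 1) / ((k + 1).factorial : ℝ) ≤ x0 ^ (k + 1) :=
        (div_le_self (by positivity) hf1).trans (pow_le_pow_left₀ hx00 hx _)
      linarith
    have g5 : φ2 * ∑ H ∈ (powersetCard (k + 1) (Icc 1 T)).filter (NE E), Vq (QH Q H) y ≤
        δ / (2 * ((k + 1) * e + 1)) := by
      calc _ ≤ φ2 * (2 * (x0 ^ (k + 1) + 1)) := mul_le_mul_of_nonneg_left g4 hφ20.le
        _ = _ := by
          rw [hφ2]
          field_simp
    have hke : (0 : ℝ) ≤ ((k : ℝ) + 1) * e := by positivity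
    calc _ ≤ ((k : ℝ) + 1) * e * (δ / (2 * ((k + 1) * e + 1)) + δ / (2 * ((k + 1) * e + 1))) := by
          apply mul_le_mul_of_nonneg_left _ hke
          linarith
      _ = δ * (((k : ℝ) + 1) * e / ((k + 1) * e + 1)) := by
          field_simp
          ring
      _ ≤ δ * 1 := by
          apply mul_le_mul_of_nonneg_left _ hδ.le
          rw [div_le_one (by positivity)]
          linarith
      _ = δ := mul_one δ

/-- the singular average is as expected -/
def SB (Q : ℕ → ℕ → Prop) (y T k : ℕ) (η : ℝ) : Prop :=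
  (1 - η) * ((T * Vq Q y) ^ (k + 1) / (k + 1).factorial) ≤
    ∑ H ∈ powersetCard (k + 1) (Icc 1 T), Vq (QH Q H) y ∧
  ∑ H ∈ powersetCard (k + 1) (Icc 1 T), Vq (QH Q H) y ≤
    (1 + η) * ((T * Vq Q y) ^ (k + 1) / (k + 1).factorial)

open Classical in
/-- **The average of the singular series with exceptional differences.** -/
theorem sing_E (c e k : ℕ) (κ x0 η : ℝ) (hκ : 0 < κ) (hx0 : 0 ≤ x0) (hη : 0 < η) (hη1 : η ≤ 1) :
    ∃ (w : ℕ) (η' φ : ℝ) (T0 : ℕ), 0 < η' ∧ 0 < φ ∧ ∀ T : ℕ, T0 ≤ T → ∀ Q : ℕ → ℕ → Prop, PerB Q c →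
      (∀ p : ℕ, p.Prime → nuB Q p < p) → ∀ y : ℕ, w ≤ y → κ ≤ T * Vq Q y → T * Vq Q y ≤ x0 →
      ∀ E : Finset ℕ, E.card ≤ e → (∀ t ∈ Icc 1 T, t ∉ E →
        ((((pz y).filter (fun p : ℕ => T < p ∧ CoG Q p t)).card : ℕ) : ℝ) ≤ η' * T) →
      (∀ H ⊆ Icc 1 T, H.card ≤ k → NE E H → ∀ b ∈ Icc 1 T, b ∉ H →
        Vq (QH Q (insert b H)) y ≤ φ * Vq (QH Q H) y) → SB Q y T k η := by
  obtain ⟨w1, η1, T1, hη1', h1⟩ := sing_NE c k (η / 2) (by positivity) (by linarith)
  obtain ⟨w2, η2, φ2, T2, hη2, hφ2, h2⟩ := exc_small c e x0 hx0 k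
    (η / 2 * (κ ^ (k + 1) / (k + 1).factorial)) (by positivity)
  refine ⟨max w1 w2, min η1 η2, φ2, max T1 T2, lt_min hη1' hη2, hφ2, ?_⟩
  intro T hT Q hQ hadm y hy hκT hx E hE hlarge hfac
  have hT0 : (0 : ℝ) ≤ T := Nat.cast_nonneg T
  have g1 := h1 T ((le_max_left _ _).trans hT) Q hQ hadm y ((le_max_left _ _).trans hy) E
      (fun t ht htE => (hlarge t ht htE).trans (mul_le_mul_of_nonneg_right (min_le_left _ _) hT0))
  have g2 := h2 T ((le_max_right _ _).trans hT) Q hQ hadm y ((le_max_right _ _).trans hy) hx E hE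
      (fun t ht htE => (hlarge t ht htE).trans (mul_le_mul_of_nonneg_right (min_le_right _ _) hT0))
      hfac
  have hZ : κ ^ (k + 1) / ((k + 1).factorial : ℝ) ≤ (T * Vq Q y) ^ (k + 1) / (k + 1).factorial := by
    gcongr
  constructor
  · refine le_trans ?_ g1.1
    apply mul_le_mul_of_nonneg_right (by linarith)
    have : 0 ≤ Vq Q y := Vq_nonneg Q y
    positivity
  · rw [← Finset.sum_filter_add_sum_filter_not (powersetCard (k + 1) (Icc 1 T)) (NE E)]
    have h3 := mul_le_mul_of_nonneg_left hZ (by positivity : 0 ≤ η / 2)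
    have h4 := g1.2
    linarith

end Pool.Agent.TH464.PO
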