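import Pool.Agent.TH464.PO.Multi

set_option autoImplicit false

/-!
# Several windows: the singular average
-/

namespace Pool.Agent.TH464.PO

open Finset Pool.Agent.H373R2.T7 Pool.Agent.W123.RP Pool.Agent.W123.RU

variable {s : ℕ}

lemma prod_scale (k : Fin s → ℕ) (x : Fin s → ℝ) (v : ℝ) :
    v ^ (∑ i, k i) * ∏ i, (x i ^ (k i) / (k i).factorial) = ∏ i, ((x i * v) ^ (k i) / (k i).factorial) := by
  rw [← Finset.prod_pow_eq_pow_sum, ← Finset.prod_mul_distrib]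
  apply Finset.prod_congr rfl
  intro i _
  rw [mul_pow]
  ring

lemma prod_le_pow (k : Fin s → ℕ) (x : Fin s → ℝ) (L : ℝ) (h0 : ∀ i, 0 ≤ x i) (h1 : ∀ i, x i ≤ L) :
    ∏ i, (x i ^ (k i) / (k i).factorial) ≤ L ^ (∑ i, k i) := by
  rw [← Finset.prod_pow_eq_pow_sum]
  apply Finset.prod_le_prod
  · intro i _
    have := h0 i
    positivity
  · intro i _
    have hkf : (1 : ℝ) ≤ (k i).factorial := by exact_mod_cast Nat.factorial_pos (k i)
    exact (div_le_self (pow_nonneg (h0 i) _) hkf).trans (pow_le_pow_left₀ (h0 i) (h1 i) _)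

lemma sum_fam_le (W : Fin s → Finset ℕ) (hW : ∀ i j, i ≠ j → Disjoint (W i) (W j)) (T : ℕ)
    (hWT : ∀ i, W i ⊆ Icc 1 T) (k : Fin s → ℕ) (f : Finset ℕ → ℝ) (hf : ∀ G, 0 ≤ f G) :
    ∑ H ∈ Fam W k, f (Un H) ≤ ∑ G ∈ powersetCard (∑ i, k i) (Icc 1 T), f G := by
  classical
  have h1 : ∑ H ∈ Fam W k, f (Un H) = ∑ G ∈ (Fam W k).image Un, f G := by
    rw [Finset.sum_image]
    intro H hH H' hH' h
    exact Un_inj W hW k H H' hH hH' h
  rw [h1]
  apply Finset.sum_le_sum_of_subset_of_nonneg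
  · intro G hG
    obtain ⟨H, hH, rfl⟩ := mem_image.1 hG
    rw [mem_powersetCard]
    exact ⟨Un_sub W T hWT k H hH, Un_card W hW k H hH⟩
  · intros
    exact hf _

open Classical in
/-- **The average of the singular series over the sets with given numbers of elements in the windows.** -/
theorem sing_multi (c : ℕ) (k : Fin s → ℕ) (hk : 1 ≤ ∑ i, k i) (η : ℝ) (hη : 0 < η) (hη1 : η ≤ 1) :
    ∃ (w : ℕ) (η' : ℝ) (T0 : ℕ), 0 < η' ∧ ∀ T : ℕ, T0 ≤ T → ∀ Q : ℕ → ℕ → Prop, PerB Q c →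
      (∀ p : ℕ, p.Prime → nuB Q p < p) → ∀ y : ℕ, w ≤ y →
      (∀ t ∈ Icc 1 T, ((((pz y).filter (fun p : ℕ => T < p ∧ CoG Q p t)).card : ℕ) : ℝ) ≤ η' * T) →
      ∀ a b : Fin s → ℕ, (∀ i, a i ≤ b i) → (∀ i, b i ≤ T) →
      (∀ i j, i ≠ j → Disjoint (Ioc (a i) (b i)) (Ioc (a j) (b j))) →
      |∑ H ∈ Fam (fun i => Ioc (a i) (b i)) k, Vq (QH Q (Un H)) y -
        ∏ i, ((((b i : ℝ) - a i) * Vq Q y) ^ (k i) / (k i).factorial)| ≤
        η * (T * Vq Q y) ^ (∑ i, k i) := by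
  obtain ⟨j, hj⟩ : ∃ j, ∑ i, k i = j + 1 := ⟨∑ i, k i - 1, by omega⟩
  obtain ⟨c1, B, w1, hc1, hw12, hW⟩ := W_low c
  obtain ⟨K, hK⟩ : ∃ K : ℕ, K = (1 + 2 * ((j + 1) * c)) ^ ((j + 1) ^ 2) - 1 := ⟨_, rfl⟩
  obtain ⟨A, hA⟩ : ∃ A : ℕ, A = 12 * (K * c ^ 2 + 1) * (j + 1).factorial + ((j + 1) * c) ^ 2 :=
    ⟨_, rfl⟩
  obtain ⟨w, hw0, hw2, hAw, hAw'⟩ := exists_w A B (j + 1) c1 (η / 8) hc1 (by positivity)
    (max w1 (2 * ((j + 1) * c)))
  have hww1 : w1 ≤ w := (le_max_left _ _).trans hw0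
  have hwc : 2 * ((j + 1) * c) ≤ w := (le_max_right _ _).trans hw0
  have hwr : (0 : ℝ) < w := by exact_mod_cast (by omega : 0 < w)
  obtain ⟨η1, hη1def⟩ : ∃ η1 : ℝ, η1 = ((K * c ^ 2 + 1 : ℕ) : ℝ) / w := ⟨_, rfl⟩
  have hη10 : 0 < η1 := by rw [hη1def]; positivity
  have hfac : (1 : ℝ) ≤ (j + 1).factorial := by
    exact_mod_cast Nat.factorial_pos (j + 1)
  have hAge : 12 * η1 * (j + 1).factorial ≤ (A : ℝ) / w := by
    rw [hη1def, le_div_iff₀ hwr]
    have : ((12 * (K * c ^ 2 + 1) * (j + 1).factorial : ℕ) : ℝ) ≤ A := by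
      exact_mod_cast (by omega : 12 * (K * c ^ 2 + 1) * (j + 1).factorial ≤ A)
    refine le_trans (le_of_eq ?_) this
    push_cast
    field_simp
  have hAge2 : (((j + 1) * c : ℕ) : ℝ) ^ 2 / w ≤ η / 8 := by
    refine le_trans ?_ hAw'
    apply div_le_div_of_nonneg_right _ hwr.le
    exact_mod_cast (by omega : ((j + 1) * c) ^ 2 ≤ A)
  have hη1le : η1 ≤ 1 := by nlinarith
  obtain ⟨T1, hT1, havg⟩ := avg_sharp K (c ^ 2) w (by omega) η1 hη10 (by
    rw [hη1def]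
    apply div_le_div_of_nonneg_right _ hwr.le
    push_cast
    linarith)
  obtain ⟨T2, hsmall⟩ := small_multi k w (η / 8) (by positivity)
  refine ⟨w, η1 / (K + 1), max T1 T2, by positivity, ?_⟩
  intro T hT Q hQ hadm y hwy hlarge a b hab hbT hdis
  have hT1' : T1 ≤ T := (le_max_left _ _).trans hT
  have hT2' : T2 ≤ T := (le_max_right _ _).trans hT
  have hs := hsmall T hT2' Q c hQ hadm a b hab hbT
  have hWpos := Vq_pos Q hadm w
  obtain ⟨W, hWdef⟩ : ∃ W, W = Vq Q w := ⟨_, rfl⟩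
  obtain ⟨V, hV⟩ : ∃ V, V = Vt Q w y := ⟨_, rfl⟩
  have hV0 : 0 ≤ V := by rw [hV]; exact Vt_nonneg Q w y
  have hwin : ∀ i, Ioc (a i) (b i) ⊆ Icc 1 T := by
    intro i x hx
    rw [mem_Ioc] at hx
    rw [mem_Icc]
    have := hbT i
    omega
  rw [← hWdef] at hs hWpos
  rw [Vq_split Q w y hwy, ← hWdef, ← hV]
  have hT0 : (0 : ℝ) ≤ T := Nat.cast_nonneg T
  have hVk : 0 ≤ V ^ (j + 1) := by positivity
  obtain ⟨L, hL⟩ : ∃ L : ℝ, L = T * W := ⟨_, rfl⟩
  have hL0 : 0 ≤ L := by rw [hL]; positivity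
  rw [← hL, hj] at hs
  obtain ⟨P, hP⟩ : ∃ P : ℝ, P = ∏ i, ((((b i : ℝ) - a i) * W) ^ (k i) / (k i).factorial) := ⟨_, rfl⟩
  have hPV : ∏ i, ((((b i : ℝ) - a i) * (W * V)) ^ (k i) / (k i).factorial) = V ^ (j + 1) * P := by
    rw [hP, ← hj, prod_scale k (fun i => ((b i : ℝ) - a i) * W) V]
    apply Finset.prod_congr rfl
    intro i _
    rw [mul_assoc]
  have hPle : P ≤ L ^ (j + 1) := by
    rw [hP, ← hj]
    apply prod_le_pow
    · intro i
      have : (a i : ℝ) ≤ b i := by exact_mod_cast hab i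
      exact mul_nonneg (by linarith) hWpos.le
    · intro i
      rw [hL]
      apply mul_le_mul_of_nonneg_right _ hWpos.le
      have h1 : (b i : ℝ) ≤ T := by exact_mod_cast hbT i
      have h2 : (0 : ℝ) ≤ a i := Nat.cast_nonneg _
      linarith
  rw [← hP] at hs
  rw [hPV, hj]
  have e1 : ((T : ℝ) * (W * V)) ^ (j + 1) = V ^ (j + 1) * L ^ (j + 1) := by
    rw [hL, ← mul_assoc, mul_pow ((T : ℝ) * W) V]
    ring
  rw [e1]
  obtain ⟨Sw, hSw⟩ : ∃ x : ℝ, x = ∑ H ∈ Fam (fun i => Ioc (a i) (b i)) k, Vq (QH Q (Un H)) w := ⟨_, rfl⟩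
  rw [← hSw] at hs
  have hSw2 : Sw ≤ 2 * L ^ (j + 1) := by
    have h1 := (abs_le.1 hs).2
    have h2 : 0 ≤ L ^ (j + 1) := by positivity
    nlinarith
  have hSw0 : 0 ≤ Sw := by
    rw [hSw]
    exact Finset.sum_nonneg fun _ _ => Vq_nonneg _ _
  have hcardH : ∀ H ∈ Fam (fun i => Ioc (a i) (b i)) k, (Un H).card = j + 1 := by
    intro H hH
    rw [Un_card _ hdis k H hH, hj]
  have hterm : ∀ H ∈ Fam (fun i => Ioc (a i) (b i)) k,
      |Vq (QH Q (Un H)) y - V ^ (j + 1) * Vq (QH Q (Un H)) w| ≤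
        V ^ (j + 1) * (η / 8 * Vq (QH Q (Un H)) w +
          ∑ x ∈ prs (Un H), (Fp Q K w y (x.2 - x.1) - 1)) := by
    intro H hH
    have hc := hcardH H hH
    obtain ⟨G, hG⟩ : ∃ G, G = Un H := ⟨_, rfl⟩
    rw [← hG] at hc ⊢
    have e0 : Vq (QH Q G) y = Vq (QH Q G) w * Vt (QH Q G) w y := Vq_split _ w y hwy
    have h3 : 0 ≤ ∑ x ∈ prs G, (Fp Q K w y (x.2 - x.1) - 1) := by
      apply Finset.sum_nonneg
      intro x _
      have := Fp_ge Q K w y (x.2 - x.1)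
      linarith
    have h4 := Vq_nonneg (QH Q G) w
    have h5 := Vq_le_one (QH Q G) w
    rw [abs_le]
    constructor
    · have h2 := tail_lo Q c hQ G w y (by omega) (by rw [hc]; exact hwc)
      rw [hc, ← hV] at h2
      have h6 : V ^ (j + 1) * (1 - η / 8) ≤ Vt (QH Q G) w y := by
        refine le_trans ?_ h2
        apply mul_le_mul_of_nonneg_left _ hVk
        linarith
      have h7 : V ^ (j + 1) * (1 - η / 8) * Vq (QH Q G) w ≤ Vq (QH Q G) y := by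
        rw [e0]
        calc V ^ (j + 1) * (1 - η / 8) * Vq (QH Q G) w ≤ Vt (QH Q G) w y * Vq (QH Q G) w :=
              mul_le_mul_of_nonneg_right h6 h4
          _ = _ := mul_comm _ _
      have h8 : 0 ≤ V ^ (j + 1) * ∑ x ∈ prs G, (Fp Q K w y (x.2 - x.1) - 1) := mul_nonneg hVk h3
      have e9 : V ^ (j + 1) * (1 - η / 8) * Vq (QH Q G) w =
          V ^ (j + 1) * Vq (QH Q G) w - V ^ (j + 1) * (η / 8 * Vq (QH Q G) w) := by ring
      rw [mul_add]
      linarith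
    · have h2 := tail_up Q c hQ G w y (by rw [hc]; exact hwc)
      rw [hc, ← hV, ← hK] at h2
      have h6 : Vq (QH Q G) y ≤ V ^ (j + 1) * (Vq (QH Q G) w +
          ∑ x ∈ prs G, (Fp Q K w y (x.2 - x.1) - 1)) := by
        rw [e0]
        calc Vq (QH Q G) w * Vt (QH Q G) w y ≤ Vq (QH Q G) w * (V ^ (j + 1) *
              (1 + ∑ x ∈ prs G, (Fp Q K w y (x.2 - x.1) - 1))) := mul_le_mul_of_nonneg_left h2 h4
          _ = V ^ (j + 1) * (Vq (QH Q G) w +
              Vq (QH Q G) w * ∑ x ∈ prs G, (Fp Q K w y (x.2 - x.1) - 1)) := by ring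
          _ ≤ _ := by
            apply mul_le_mul_of_nonneg_left _ hVk
            have := mul_le_mul_of_nonneg_right h5 h3
            linarith
      have h8 : 0 ≤ V ^ (j + 1) * (η / 8 * Vq (QH Q G) w) := by positivity
      rw [mul_add] at h6 ⊢
      linarith
  have hFsum : ∑ H ∈ Fam (fun i => Ioc (a i) (b i)) k, ∑ x ∈ prs (Un H), (Fp Q K w y (x.2 - x.1) - 1) ≤
      η / 8 * L ^ (j + 1) := by
    have h1 := sum_fam_le (fun i => Ioc (a i) (b i)) hdis T hwin k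
      (fun G => ∑ x ∈ prs G, (Fp Q K w y (x.2 - x.1) - 1)) (fun G => by
        apply Finset.sum_nonneg
        intro x _
        have := Fp_ge Q K w y (x.2 - x.1)
        linarith)
    rw [hj] at h1
    refine h1.trans ?_
    have h3 := sum_prs j T (fun t => Fp Q K w y t - 1) (fun t => by
      have := Fp_ge Q K w y t
      linarith)
    have h4 := havg T hT1' (CoG Q) (coll_gen Q c hQ w) y (η1 / (K + 1)) (by positivity) (by
      rw [← mul_div_assoc, div_le_iff₀ (by positivity)]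
      have : (0 : ℝ) ≤ K := Nat.cast_nonneg K
      nlinarith) hlarge
    have h5 : ∑ t ∈ Icc 1 T, (Fp Q K w y t - 1) ≤ 12 * η1 * T := by
      rw [Finset.sum_sub_distrib, Finset.sum_const, Nat.card_Icc, Nat.add_sub_cancel, nsmul_eq_mul,
        mul_one]
      have h6 := exp_bound η1 hη10.le hη1le
      have h7 := mul_le_mul_of_nonneg_right h6 hT0
      unfold Fp
      linarith
    calc _ ≤ (T : ℝ) ^ j * ∑ t ∈ Icc 1 T, (Fp Q K w y t - 1) := h3
      _ ≤ (T : ℝ) ^ j * (12 * η1 * T) := mul_le_mul_of_nonneg_left h5 (by positivity)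
      _ = 12 * η1 * 1 * T ^ (j + 1) := by
        rw [pow_succ]
        ring
      _ ≤ 12 * η1 * (j + 1).factorial * T ^ (j + 1) := by gcongr
      _ ≤ (η / 8 * (c1 / Real.log w ^ B) ^ (j + 1)) * T ^ (j + 1) := by
        apply mul_le_mul_of_nonneg_right (hAge.trans hAw) (by positivity)
      _ ≤ (η / 8 * W ^ (j + 1)) * T ^ (j + 1) := by
        apply mul_le_mul_of_nonneg_right _ (by positivity)
        apply mul_le_mul_of_nonneg_left _ (by positivity)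
        have hlog : 0 < Real.log w := Real.log_pos (by exact_mod_cast (by omega : 1 < w))
        apply pow_le_pow_left₀ (by positivity)
        rw [hWdef]
        exact hW w hww1 Q hQ hadm
      _ = _ := by
        rw [hL, mul_pow]
        ring
  have hsumdiff : |∑ H ∈ Fam (fun i => Ioc (a i) (b i)) k, Vq (QH Q (Un H)) y - V ^ (j + 1) * Sw| ≤
      V ^ (j + 1) * (η / 8 * Sw + η / 8 * L ^ (j + 1)) := by
    rw [hSw, Finset.mul_sum, ← Finset.sum_sub_distrib]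
    refine (Finset.abs_sum_le_sum_abs _ _).trans ((Finset.sum_le_sum hterm).trans ?_)
    rw [← Finset.mul_sum, Finset.sum_add_distrib, ← Finset.mul_sum]
    apply mul_le_mul_of_nonneg_left _ hVk
    linarith
  have h10 : |V ^ (j + 1) * Sw - V ^ (j + 1) * P| ≤ V ^ (j + 1) * (η / 8 * L ^ (j + 1)) := by
    rw [← mul_sub, abs_mul, abs_of_nonneg hVk]
    exact mul_le_mul_of_nonneg_left hs hVk
  refine (abs_sub_le _ (V ^ (j + 1) * Sw) _).trans ?_
  have h11 : η / 8 * Sw ≤ η / 8 * (2 * L ^ (j + 1)) := mul_le_mul_of_nonneg_left hSw2 (by positivity)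
  calc _ ≤ V ^ (j + 1) * (η / 8 * Sw + η / 8 * L ^ (j + 1)) + V ^ (j + 1) * (η / 8 * L ^ (j + 1)) :=
        add_le_add hsumdiff h10
    _ = V ^ (j + 1) * (η / 8 * Sw + η / 4 * L ^ (j + 1)) := by ring
    _ ≤ V ^ (j + 1) * (η * L ^ (j + 1)) := by
      apply mul_le_mul_of_nonneg_left _ hVk
      have h12 : 0 ≤ L ^ (j + 1) := by positivity
      nlinarith
    _ = _ := by ring

end Pool.Agent.TH464.PO
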