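import Pool.Agent.TH464.PO.JointPoly
import Pool.Agent.TH464.PO.LawE

set_option autoImplicit false

/-!
# Several windows: the singular average from the average over all sets
-/

namespace Pool.Agent.TH464.PO

open Finset Pool.Agent.H373R2.T7 Pool.Agent.W123.RP Pool.Agent.W123.RU

variable {s : ℕ}

open Classical in
/-- **The average of the singular series over the sets with given numbers of elements in the windows**,
from the average over all sets. -/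
theorem sing_multi_SB (c : ℕ) (k : Fin s → ℕ) (j : ℕ) (hj : ∑ i, k i = j + 1) (η : ℝ) (hη : 0 < η)
    (hη1 : η ≤ 1) :
    ∃ (w T0 : ℕ), ∀ T : ℕ, T0 ≤ T → ∀ Q : ℕ → ℕ → Prop, PerB Q c →
      (∀ p : ℕ, p.Prime → nuB Q p < p) → ∀ y : ℕ, w ≤ y → SB Q y T j (η / 16) →
      ∀ a b : Fin s → ℕ, (∀ i, a i ≤ b i) → (∀ i, b i ≤ T) →
      (∀ i j, i ≠ j → Disjoint (Ioc (a i) (b i)) (Ioc (a j) (b j))) →
      |∑ H ∈ Fam (fun i => Ioc (a i) (b i)) k, Vq (QH Q (Un H)) y -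
        ∏ i, ((((b i : ℝ) - a i) * Vq Q y) ^ (k i) / (k i).factorial)| ≤
        η * (T * Vq Q y) ^ (j + 1) := by
  obtain ⟨θ, hθ⟩ : ∃ θ : ℝ, θ = η / 16 := ⟨_, rfl⟩
  have hθ0 : 0 < θ := by rw [hθ]; positivity
  have hθ1 : θ ≤ 1 := by rw [hθ]; linarith
  obtain ⟨w0, hw0⟩ : ∃ w0 : ℕ, (((j + 1) * c : ℕ) : ℝ) ^ 2 / θ ≤ w0 := exists_nat_ge _
  obtain ⟨w, hw⟩ : ∃ w : ℕ, w = max w0 (2 * ((j + 1) * c)) + 1 := ⟨_, rfl⟩
  have hww0 : w0 ≤ w := by rw [hw]; exact (le_max_left _ _).trans (Nat.le_succ _)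
  have hwc : 2 * ((j + 1) * c) ≤ w := by rw [hw]; exact (le_max_right _ _).trans (Nat.le_succ _)
  have hw1 : 1 ≤ w := by rw [hw]; omega
  have hwr : (0 : ℝ) < w := by exact_mod_cast hw1
  have hwθ : (((j + 1) * c : ℕ) : ℝ) ^ 2 / w ≤ θ := by
    rw [div_le_iff₀ hθ0] at hw0
    rw [div_le_iff₀ hwr]
    have : (w0 : ℝ) ≤ w := by exact_mod_cast hww0
    nlinarith
  obtain ⟨T1, hsmall⟩ := small_avg (j + 1) w θ hθ0
  obtain ⟨T2, hmulti⟩ := small_multi k w θ hθ0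
  refine ⟨w, max T1 T2, ?_⟩
  intro T hT Q hQ hadm y hwy hSB a b hab hbT hdis
  rw [← hθ] at hSB
  have s1 := (hsmall T ((le_max_left _ _).trans hT) Q c hQ hadm).1
  have s2 := hmulti T ((le_max_right _ _).trans hT) Q c hQ hadm a b hab hbT
  have s3 := hSB.2
  have hWpos := Vq_pos Q hadm w
  obtain ⟨W, hWdef⟩ : ∃ W, W = Vq Q w := ⟨_, rfl⟩
  obtain ⟨V, hV⟩ : ∃ V, V = Vt Q w y := ⟨_, rfl⟩
  have hV0 : 0 ≤ V := by rw [hV]; exact Vt_nonneg Q w y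
  have hwin : ∀ i, Ioc (a i) (b i) ⊆ Icc 1 T := by
    intro i x hx
    rw [mem_Ioc] at hx
    rw [mem_Icc]
    have := hbT i
    omega
  rw [← hWdef] at s1 s2 hWpos
  rw [Vq_split Q w y hwy, ← hWdef, ← hV] at s3 ⊢
  have hT0 : (0 : ℝ) ≤ T := Nat.cast_nonneg T
  have hVk : 0 ≤ V ^ (j + 1) := by positivity
  obtain ⟨L, hL⟩ : ∃ L : ℝ, L = T * W := ⟨_, rfl⟩
  have hL0 : 0 ≤ L := by rw [hL]; positivity
  rw [← hL] at s1
  rw [← hL, hj] at s2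
  obtain ⟨P, hP⟩ : ∃ P : ℝ, P = ∏ i, ((((b i : ℝ) - a i) * W) ^ (k i) / (k i).factorial) := ⟨_, rfl⟩
  have hPV : ∏ i, ((((b i : ℝ) - a i) * (W * V)) ^ (k i) / (k i).factorial) = V ^ (j + 1) * P := by
    rw [hP, ← hj, prod_scale k (fun i => ((b i : ℝ) - a i) * W) V]
    apply Finset.prod_congr rfl
    intro i _
    rw [mul_assoc]
  have hP0 : 0 ≤ P := by
    rw [hP]
    apply Finset.prod_nonneg
    intro i _
    have : (a i : ℝ) ≤ b i := by exact_mod_cast hab i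
    have : 0 ≤ ((b i : ℝ) - a i) * W := mul_nonneg (by linarith) hWpos.le
    positivity
  have hPle : P ≤ L ^ (j + 1) := by
    rw [hP, ← hj]
    apply prod_le_pow
    · intro i
      have : (a i : ℝ) ≤ b i := by exact_mod_cast hab i
      exact mul_nonneg (by linarith) hWpos.le
    · intro i
      rw [hL]
      apply mul_le_mul_of_nonneg_right _ hWpos.le
      have h1 : (b i : ℝ) ≤ T := by exact_mod_cast hbT i
      have h2 : (0 : ℝ) ≤ a i := Nat.cast_nonneg _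
      linarith
  rw [← hP] at s2
  have e1 : ((T : ℝ) * (W * V)) ^ (j + 1) = V ^ (j + 1) * L ^ (j + 1) := by
    rw [hL, ← mul_assoc, mul_pow ((T : ℝ) * W) V]
    ring
  rw [hPV, e1]
  rw [e1] at s3
  obtain ⟨M, hM⟩ : ∃ M : ℝ, M = L ^ (j + 1) / (j + 1).factorial := ⟨_, rfl⟩
  have hLj0 : 0 ≤ L ^ (j + 1) := by positivity
  have hM0 : 0 ≤ M := by rw [hM]; positivity
  have hML : M ≤ L ^ (j + 1) := by
    rw [hM]
    apply div_le_self hLj0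
    exact_mod_cast Nat.factorial_pos (j + 1)
  rw [← hM] at s1
  have e2 : V ^ (j + 1) * L ^ (j + 1) / ((j + 1).factorial : ℝ) = V ^ (j + 1) * M := by
    rw [hM, mul_div_assoc]
  rw [e2] at s3
  -- the families as sets
  obtain ⟨F, hF⟩ : ∃ F, F = (Fam (fun i => Ioc (a i) (b i)) k).image Un := ⟨_, rfl⟩
  obtain ⟨AA, hAA⟩ : ∃ AA, AA = powersetCard (j + 1) (Icc 1 T) := ⟨_, rfl⟩
  have hFA : F ⊆ AA := by
    intro G hG
    rw [hF] at hG
    obtain ⟨H, hH, rfl⟩ := mem_image.1 hG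
    rw [hAA, mem_powersetCard]
    exact ⟨Un_sub _ T hwin k H hH, by rw [Un_card _ hdis k H hH, hj]⟩
  have hsumF : ∀ f : Finset ℕ → ℝ, ∑ H ∈ Fam (fun i => Ioc (a i) (b i)) k, f (Un H) = ∑ G ∈ F, f G := by
    intro f
    rw [hF, Finset.sum_image]
    intro H hH H' hH' h
    exact Un_inj _ hdis k H H' hH hH' h
  have hterm : ∀ G ∈ AA, V ^ (j + 1) * (1 - θ) * Vq (QH Q G) w ≤ Vq (QH Q G) y := by
    intro G hG
    rw [hAA, mem_powersetCard] at hG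
    have h2 := tail_lo Q c hQ G w y hw1 (by rw [hG.2]; exact hwc)
    rw [hG.2, ← hV] at h2
    have h3 : V ^ (j + 1) * (1 - θ) ≤ Vt (QH Q G) w y := by
      refine le_trans ?_ h2
      apply mul_le_mul_of_nonneg_left _ hVk
      linarith
    have e0 : Vq (QH Q G) y = Vq (QH Q G) w * Vt (QH Q G) w y := Vq_split _ w y hwy
    rw [e0]
    calc V ^ (j + 1) * (1 - θ) * Vq (QH Q G) w ≤ Vt (QH Q G) w y * Vq (QH Q G) w :=
          mul_le_mul_of_nonneg_right h3 (Vq_nonneg _ w)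
      _ = _ := mul_comm _ _
  rw [hsumF (fun G => Vq (QH Q G) w)] at s2
  rw [hsumF (fun G => Vq (QH Q G) y)]
  rw [← hAA] at s1 s3
  have t1 := Finset.sum_sdiff (f := fun G => Vq (QH Q G) y) hFA
  have t2 := Finset.sum_sdiff (f := fun G => Vq (QH Q G) w) hFA
  have t3 := Finset.sum_le_sum (s := AA \ F) (fun G hG => hterm G (Finset.mem_sdiff.1 hG).1)
  have t4 := Finset.sum_le_sum (s := F) (fun G hG => hterm G (hFA hG))
  rw [← Finset.mul_sum] at t3 t4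
  obtain ⟨Fy, hFy⟩ : ∃ x : ℝ, x = ∑ G ∈ F, Vq (QH Q G) y := ⟨_, rfl⟩
  obtain ⟨Fw, hFw⟩ : ∃ x : ℝ, x = ∑ G ∈ F, Vq (QH Q G) w := ⟨_, rfl⟩
  obtain ⟨Ry, hRy⟩ : ∃ x : ℝ, x = ∑ G ∈ AA \ F, Vq (QH Q G) y := ⟨_, rfl⟩
  obtain ⟨Rw, hRw⟩ : ∃ x : ℝ, x = ∑ G ∈ AA \ F, Vq (QH Q G) w := ⟨_, rfl⟩
  obtain ⟨Ty, hTy⟩ : ∃ x : ℝ, x = ∑ G ∈ AA, Vq (QH Q G) y := ⟨_, rfl⟩
  obtain ⟨Tw, hTw⟩ : ∃ x : ℝ, x = ∑ G ∈ AA, Vq (QH Q G) w := ⟨_, rfl⟩
  rw [← hFy, ← hRy, ← hTy] at t1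
  rw [← hFw, ← hRw, ← hTw] at t2
  rw [← hRw, ← hRy] at t3
  rw [← hFw, ← hFy] at t4
  rw [← hTw] at s1
  rw [← hTy] at s3
  rw [← hFw] at s2
  rw [← hFy]
  obtain ⟨s2a, s2b⟩ := abs_le.1 s2
  have hVθ : 0 ≤ V ^ (j + 1) * (1 - θ) := mul_nonneg hVk (by linarith)
  have u1 : V ^ (j + 1) * (1 - θ) * ((1 - θ) * M - P - θ * L ^ (j + 1)) ≤ Ry := by
    refine le_trans ?_ t3
    apply mul_le_mul_of_nonneg_left _ hVθ
    linarith
  have u2 : V ^ (j + 1) * (1 - θ) * (P - θ * L ^ (j + 1)) ≤ Fy := by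
    refine le_trans ?_ t4
    apply mul_le_mul_of_nonneg_left _ hVθ
    linarith
  have hη16 : η = 16 * θ := by rw [hθ]; ring
  rw [abs_le]
  constructor
  · have v1 : V ^ (j + 1) * (P - 2 * θ * L ^ (j + 1)) ≤
        V ^ (j + 1) * (1 - θ) * (P - θ * L ^ (j + 1)) := by
      have e3 : V ^ (j + 1) * (1 - θ) * (P - θ * L ^ (j + 1)) =
          V ^ (j + 1) * ((1 - θ) * (P - θ * L ^ (j + 1))) := by ring
      rw [e3]
      apply mul_le_mul_of_nonneg_left _ hVk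
      have w1 : 0 ≤ θ * (L ^ (j + 1) - P) := mul_nonneg hθ0.le (by linarith)
      have w2 : 0 ≤ θ * θ * L ^ (j + 1) := by positivity
      nlinarith
    have v2 : 0 ≤ V ^ (j + 1) * (θ * L ^ (j + 1)) := by positivity
    rw [hη16]
    linarith
  · have v1 : (1 + θ) * (V ^ (j + 1) * M) - V ^ (j + 1) * (1 - θ) * ((1 - θ) * M - P - θ * L ^ (j + 1)) ≤
        V ^ (j + 1) * (P + 4 * θ * L ^ (j + 1)) := by
      have e3 : (1 + θ) * (V ^ (j + 1) * M) -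
          V ^ (j + 1) * (1 - θ) * ((1 - θ) * M - P - θ * L ^ (j + 1)) =
          V ^ (j + 1) * ((1 + θ) * M - (1 - θ) * ((1 - θ) * M - P - θ * L ^ (j + 1))) := by ring
      rw [e3]
      apply mul_le_mul_of_nonneg_left _ hVk
      have w1 : 0 ≤ θ * (L ^ (j + 1) - M) := mul_nonneg hθ0.le (by linarith)
      have w2 : 0 ≤ θ * P := by positivity
      have w3 : 0 ≤ θ * θ * M := by positivity
      have w4 : 0 ≤ θ * θ * L ^ (j + 1) := by positivity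
      nlinarith
    have v2 : 0 ≤ V ^ (j + 1) * (θ * L ^ (j + 1)) := by positivity
    rw [hη16]
    linarith

end Pool.Agent.TH464.PO
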