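import Pool.Agent.W123.RU.Gen

set_option autoImplicit false

/-!
# The small primes: exact averages
-/

namespace Pool.Agent.TH464.PO

open Finset Pool.Agent.H373R2.T7 Pool.Agent.W123.RP Pool.Agent.W123.RU

/-- the sifted set -/
def Sf (Q : ℕ → ℕ → Prop) (y m : ℕ) : Prop := ∀ p ∈ pz y, ¬ Q p m

/-- the condition at the points of `H` -/
def QH (Q : ℕ → ℕ → Prop) (H : Finset ℕ) (p m : ℕ) : Prop := ∃ h ∈ H, Q p (m + h)

lemma sf_QH (Q : ℕ → ℕ → Prop) (H : Finset ℕ) (y m : ℕ) :
    Sf (QH Q H) y m ↔ ∀ h ∈ H, Sf Q y (m + h) := by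
  unfold Sf QH
  constructor
  · intro h1 h hh p hp hq
    exact h1 p hp ⟨h, hh, hq⟩
  · rintro h1 p hp ⟨h, hh, hq⟩
    exact h1 h hh p hp hq

open Classical in
lemma nuB_QH_le (Q : ℕ → ℕ → Prop) (c : ℕ) (hQ : PerB Q c) (H : Finset ℕ) (p : ℕ) :
    nuB (QH Q H) p ≤ H.card * nuB Q p := by
  have h1 : (range p).filter (fun r => QH Q H p r) ⊆
      H.biUnion (fun h => (range p).filter (fun r => Q p (r + h))) := by
    intro r hr
    rw [mem_filter] at hr
    obtain ⟨hr1, h, hh, hq⟩ := hr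
    rw [mem_biUnion]
    exact ⟨h, hh, mem_filter.2 ⟨hr1, hq⟩⟩
  have h2 := Finset.card_biUnion_le_card_mul H
    (fun h => (range p).filter (fun r => Q p (r + h))) (nuB Q p) (by
      intro a _
      exact (nuB_shift Q c hQ a p).le)
  unfold nuB at h2 ⊢
  refine le_trans ?_ h2
  convert card_le_card h1

lemma perB_QH (Q : ℕ → ℕ → Prop) (c : ℕ) (hQ : PerB Q c) (H : Finset ℕ) :
    PerB (QH Q H) (H.card * c) := by
  constructor
  · intro p n
    unfold QH
    apply exists_congr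
    intro h
    apply and_congr_right
    intro _
    exact per_add Q c hQ p n (n % p) h h (Nat.mod_mod n p).symm rfl
  · intro p hp
    exact (nuB_QH_le Q c hQ H p).trans (Nat.mul_le_mul_left _ (hQ.few p hp))

/-- the period -/
def Mw (w : ℕ) : ℕ := ∏ p ∈ pz w, p

lemma Mw_pos (w : ℕ) : 0 < Mw w := Finset.prod_pos fun p hp => (mem_pz.1 hp).2.pos

lemma sf_periodic (Q : ℕ → ℕ → Prop) (c : ℕ) (hQ : PerB Q c) (w : ℕ) :
    Function.Periodic (fun m => Sf Q w m) (Mw w) := by
  intro m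
  apply propext
  unfold Sf
  apply forall_congr'
  intro p
  apply forall_congr'
  intro hp
  have hd : p ∣ Mw w := Finset.dvd_prod_of_mem _ hp
  rw [hQ.per p (m + Mw w), hQ.per p m, Nat.add_mod, Nat.mod_eq_zero_of_dvd hd, add_zero,
    Nat.mod_mod]

open Classical in
/-- number of sifted integers in an interval consisting of full periods -/
lemma count_mul (P : ℕ → Prop) (M : ℕ) (hP : Function.Periodic P M) (n t : ℕ) :
    ((Ico n (n + M * t)).filter P).card = t * ((range M).filter P).card := by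
  induction t with
  | zero => simp
  | succ t ih =>
    have h1 : Ico n (n + M * (t + 1)) = Ico n (n + M * t) ∪ Ico (n + M * t) (n + M * t + M) := by
      rw [Ico_union_Ico_eq_Ico (by omega) (by omega)]
      congr 1
      ring
    rw [h1, Finset.filter_union, card_union_of_disjoint, ih]
    · have h2 := Nat.filter_Ico_card_eq_of_periodic (n + M * t) M P hP
      have h3 := Nat.filter_Ico_card_eq_of_periodic 0 M P hP
      rw [zero_add, Nat.Ico_zero_eq_range] at h3
      rw [h2, ← h3]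
      ring
    · apply Finset.disjoint_filter_filter
      rw [Finset.disjoint_left]
      intro x hx hx'
      rw [mem_Ico] at hx hx'
      omega

open Classical in
/-- exact density -/
lemma exact (Q : ℕ → ℕ → Prop) (c : ℕ) (hQ : PerB Q c) (w : ℕ) :
    (((range (Mw w)).filter (fun m => Sf Q w m)).card : ℝ) = Mw w * Vq Q w := by
  obtain ⟨M, hM⟩ : ∃ M, M = Mw w := ⟨_, rfl⟩
  have hMpos : 0 < M := by rw [hM]; exact Mw_pos w
  rw [← hM]
  obtain ⟨N, hN⟩ : ∃ N, N = ((range M).filter (fun m => Sf Q w m)).card := ⟨_, rfl⟩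
  rw [← hN]
  obtain ⟨C, hC⟩ : ∃ C : ℝ, C = ∏ p ∈ pz w, (((range p).filter (fun a => ¬ Q p a)).card : ℝ) :=
    ⟨_, rfl⟩
  have hV : ∏ p ∈ pz w, ((((range p).filter (fun a => ¬ Q p a)).card : ℝ) / p) = Vq Q w := by
    unfold Vq
    apply Finset.prod_congr rfl
    intro p hp
    have hp0 : (p : ℝ) ≠ 0 := by exact_mod_cast (mem_pz.1 hp).2.ne_zero
    have h1 : ((range p).filter (fun a => Q p a)).card + ((range p).filter (fun a => ¬ Q p a)).card =
        p := by
      have := Finset.card_filter_add_card_filter_not (s := range p) (fun a => Q p a)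
      rw [card_range] at this
      exact this
    have h2 : (nuB Q p : ℝ) + (((range p).filter (fun a => ¬ Q p a)).card : ℝ) = p := by
      unfold nuB
      exact_mod_cast h1
    field_simp
    linarith
  have key : ∀ t : ℕ, |(t : ℝ) * (N - M * Vq Q w)| ≤ C := by
    intro t
    have h1 := count_sys (fun p a => ¬ Q p a) (M * t) (pz w) (fun p hp => (mem_pz.1 hp).2) 1 le_rfl
      (fun p hp hd => (mem_pz.1 hp).2.one_lt.ne' (Nat.dvd_one.1 hd)) 0
    rw [hV, ← hC] at h1
    have h2 : ((Icc 1 (M * t)).filter (fun n => n ≡ 0 [MOD 1] ∧ ∀ p ∈ pz w, ¬ Q p (n % p))).card =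
        t * N := by
      have h3 := count_mul (fun m => Sf Q w m) M (by rw [hM]; exact sf_periodic Q c hQ w) 1 t
      rw [← hN] at h3
      rw [← h3]
      congr 1
      ext n
      rw [mem_filter, mem_filter, mem_Icc, mem_Ico]
      unfold Sf
      constructor
      · rintro ⟨a1, _, a3⟩
        exact ⟨by omega, fun p hp => by rw [hQ.per]; exact a3 p hp⟩
      · rintro ⟨a1, a2⟩
        exact ⟨by omega, Nat.modEq_one, fun p hp => by rw [← hQ.per]; exact a2 p hp⟩
    rw [h2] at h1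
    have e : (((t * N : ℕ) : ℝ)) - ((M * t : ℕ) : ℝ) / ((1 : ℕ) : ℝ) * Vq Q w =
        (t : ℝ) * (N - M * Vq Q w) := by
      push_cast
      ring
    rw [e] at h1
    exact h1
  by_contra hne
  have hpos : 0 < |(N : ℝ) - M * Vq Q w| := abs_pos.2 (sub_ne_zero.2 hne)
  obtain ⟨t, ht⟩ := exists_nat_gt (C / |(N : ℝ) - M * Vq Q w|)
  have h1 := key t
  rw [abs_mul, Nat.abs_cast] at h1
  rw [div_lt_iff₀ hpos] at ht
  linarith

open Classical in
/-- the number of sifted integers in a window -/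
lemma window (Q : ℕ → ℕ → Prop) (c : ℕ) (hQ : PerB Q c) (w m T : ℕ) :
    |((((Icc 1 T).filter (fun h => Sf Q w (m + h))).card : ℕ) : ℝ) - T * Vq Q w| ≤ Mw w := by
  obtain ⟨M, hM⟩ : ∃ M, M = Mw w := ⟨_, rfl⟩
  have hMpos : 0 < M := by rw [hM]; exact Mw_pos w
  have hex := exact Q c hQ w
  rw [← hM] at hex ⊢
  have hper : Function.Periodic (fun m => Sf Q w m) M := by rw [hM]; exact sf_periodic Q c hQ w
  have h0 : ((Icc 1 T).filter (fun h => Sf Q w (m + h))).card =
      ((Ico (m + 1) (m + 1 + T)).filter (fun n => Sf Q w n)).card := by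
    apply Finset.card_bij (fun h _ => m + h)
    · intro h hh
      rw [mem_filter, mem_Icc] at hh
      rw [mem_filter, mem_Ico]
      exact ⟨by omega, hh.2⟩
    · intro a _ b _ hab
      omega
    · intro n hn
      rw [mem_filter, mem_Ico] at hn
      have e : m + (n - m) = n := by omega
      exact ⟨n - m, by rw [mem_filter, mem_Icc, e]; exact ⟨by omega, hn.2⟩, e⟩
  rw [h0]
  obtain ⟨a, b, hab, hb⟩ : ∃ a b, T = M * a + b ∧ b < M :=
    ⟨T / M, T % M, (Nat.div_add_mod T M).symm, Nat.mod_lt _ hMpos⟩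
  have h1 := count_mul (fun m => Sf Q w m) M hper (m + 1) a
  have h2 := count_mul (fun m => Sf Q w m) M hper (m + 1) (a + 1)
  obtain ⟨N0, hN0⟩ : ∃ N, N = ((range M).filter (fun m => Sf Q w m)).card := ⟨_, rfl⟩
  rw [← hN0] at h1 h2 hex
  have h3 : a * N0 ≤ ((Ico (m + 1) (m + 1 + T)).filter (fun n => Sf Q w n)).card := by
    rw [← h1]
    apply card_le_card
    apply Finset.filter_subset_filter
    apply Ico_subset_Ico_right
    omega
  have h4 : ((Ico (m + 1) (m + 1 + T)).filter (fun n => Sf Q w n)).card ≤ (a + 1) * N0 := by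
    rw [← h2]
    apply card_le_card
    apply Finset.filter_subset_filter
    apply Ico_subset_Ico_right
    rw [hab]
    nlinarith
  have h3' : (a : ℝ) * N0 ≤ (((Ico (m + 1) (m + 1 + T)).filter (fun n => Sf Q w n)).card : ℝ) := by
    exact_mod_cast h3
  have h4' : (((Ico (m + 1) (m + 1 + T)).filter (fun n => Sf Q w n)).card : ℝ) ≤ (a + 1) * N0 := by
    exact_mod_cast h4
  rw [hex] at h3' h4'
  have hMr : (0 : ℝ) < M := by exact_mod_cast hMpos
  have hV0 : 0 ≤ Vq Q w := Finset.prod_nonneg fun p hp => one_sub_nonneg Q p (mem_pz.1 hp).2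
  have hV1 : Vq Q w ≤ 1 := by
    apply Finset.prod_le_one
    · intro p hp
      exact one_sub_nonneg Q p (mem_pz.1 hp).2
    · intro p hp
      have : 0 ≤ (nuB Q p : ℝ) / p := by positivity
      linarith
  have hbr : (b : ℝ) ≤ M := by exact_mod_cast hb.le
  have hb0 : (0 : ℝ) ≤ b := Nat.cast_nonneg b
  have hTr : (T : ℝ) = M * a + b := by rw [hab]; push_cast; ring
  rw [hTr, abs_le]
  have e1 : (b : ℝ) * Vq Q w ≤ M := by nlinarith
  have e2 : 0 ≤ (b : ℝ) * Vq Q w := by positivity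
  have e3 : (M : ℝ) * Vq Q w ≤ M := by nlinarith
  constructor
  · linarith
  · linarith

open Classical in
/-- the average over the sets of shifts, as an average over a period -/
lemma sum_sets (Q : ℕ → ℕ → Prop) (c : ℕ) (hQ : PerB Q c) (w k T : ℕ) :
    (Mw w : ℝ) * ∑ H ∈ powersetCard k (Icc 1 T), Vq (QH Q H) w =
      ∑ m ∈ range (Mw w), ((((Icc 1 T).filter (fun h => Sf Q w (m + h))).card.choose k : ℕ) : ℝ) := by
  rw [Finset.mul_sum]
  have h1 : ∀ H ∈ powersetCard k (Icc 1 T), (Mw w : ℝ) * Vq (QH Q H) w =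
      ∑ m ∈ range (Mw w), if (∀ h ∈ H, Sf Q w (m + h)) then (1 : ℝ) else 0 := by
    intro H _
    rw [← exact (QH Q H) _ (perB_QH Q c hQ H) w]
    rw [Finset.sum_ite, Finset.sum_const_zero, add_zero, Finset.sum_const, nsmul_eq_mul, mul_one]
    congr 2
    apply Finset.filter_congr
    intro m _
    exact sf_QH Q H w m
  rw [Finset.sum_congr rfl h1, Finset.sum_comm]
  apply Finset.sum_congr rfl
  intro m _
  rw [Finset.sum_ite, Finset.sum_const_zero, add_zero, Finset.sum_const, nsmul_eq_mul, mul_one,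
    ← Finset.card_powersetCard]
  congr 2
  ext H
  rw [mem_filter, mem_powersetCard, mem_powersetCard]
  constructor
  · rintro ⟨⟨a1, a2⟩, a3⟩
    exact ⟨fun h hh => mem_filter.2 ⟨a1 hh, a3 h hh⟩, a2⟩
  · rintro ⟨a1, a2⟩
    exact ⟨⟨fun h hh => (mem_filter.1 (a1 hh)).1, a2⟩, fun h hh => (mem_filter.1 (a1 hh)).2⟩

/-- bounds for `choose` -/
lemma choose_bounds (N k : ℕ) (x M : ℝ) (h : |(N : ℝ) - x| ≤ M) (hx : M + k ≤ x) :
    (x - M - k) ^ k / k.factorial ≤ (N.choose k : ℝ) ∧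
      (N.choose k : ℝ) ≤ (x + M) ^ k / k.factorial := by
  obtain ⟨h1, h2⟩ := abs_le.1 h
  have hkf : (0 : ℝ) < k.factorial := by exact_mod_cast Nat.factorial_pos k
  constructor
  · rw [div_le_iff₀ hkf]
    have h3 := Nat.pow_sub_le_descFactorial N k
    have h4 : (N.choose k : ℝ) * k.factorial = (N.descFactorial k : ℝ) := by
      rw [Nat.descFactorial_eq_factorial_mul_choose]
      push_cast
      ring
    rw [h4]
    have hkN : k ≤ N + 1 := by
      have : (k : ℝ) ≤ N := by linarith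
      have : k ≤ N := by exact_mod_cast this
      omega
    have h5 : (((N + 1 - k : ℕ) : ℝ)) ^ k ≤ (N.descFactorial k : ℝ) := by exact_mod_cast h3
    refine le_trans ?_ h5
    apply pow_le_pow_left₀ (by linarith)
    rw [Nat.cast_sub hkN]
    push_cast
    linarith
  · refine (Nat.choose_le_pow_div k N).trans ?_
    apply div_le_div_of_nonneg_right _ hkf.le
    apply pow_le_pow_left₀ (Nat.cast_nonneg _)
    linarith

/-- upper bound for a power -/
lemma one_add_pow_le (k : ℕ) (x : ℝ) (h0 : 0 ≤ x) (h1 : x ≤ 1) : (1 + x) ^ k ≤ 1 + (2 ^ k - 1) * x := by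
  induction k with
  | zero => simp
  | succ k ih =>
    have h3 : (1 : ℝ) ≤ 2 ^ k := one_le_pow₀ (by norm_num)
    have h4 : x * x ≤ x := by nlinarith
    have h5 : (2 ^ k - 1) * (x * x) ≤ (2 ^ k - 1) * x := mul_le_mul_of_nonneg_left h4 (by linarith)
    calc (1 + x) ^ (k + 1) = (1 + x) ^ k * (1 + x) := pow_succ _ _
      _ ≤ (1 + (2 ^ k - 1) * x) * (1 + x) := by gcongr
      _ = 1 + x + (2 ^ k - 1) * x + (2 ^ k - 1) * (x * x) := by ring
      _ ≤ 1 + (2 ^ (k + 1) - 1) * x := by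
        rw [pow_succ]
        linarith

lemma Vq_pos (Q : ℕ → ℕ → Prop) (hadm : ∀ p : ℕ, p.Prime → nuB Q p < p) (w : ℕ) : 0 < Vq Q w := by
  unfold Vq
  apply Finset.prod_pos
  intro p hp
  have hpp := (mem_pz.1 hp).2
  have hp0 : (0 : ℝ) < p := by exact_mod_cast hpp.pos
  have h1 : (nuB Q p : ℝ) < p := by exact_mod_cast hadm p hpp
  have h2 : (nuB Q p : ℝ) / p < 1 := by rwa [div_lt_one hp0]
  linarith

lemma Vq_le_one (Q : ℕ → ℕ → Prop) (w : ℕ) : Vq Q w ≤ 1 := by
  apply Finset.prod_le_one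
  · intro p hp
    exact one_sub_nonneg Q p (mem_pz.1 hp).2
  · intro p hp
    have : 0 ≤ (nuB Q p : ℝ) / p := by positivity
    linarith

lemma Vq_nonneg (Q : ℕ → ℕ → Prop) (w : ℕ) : 0 ≤ Vq Q w :=
  Finset.prod_nonneg fun p hp => one_sub_nonneg Q p (mem_pz.1 hp).2

open Classical in
/-- **The small primes.** -/
theorem small_avg (k w : ℕ) (η : ℝ) (hη : 0 < η) : ∃ T0 : ℕ, ∀ T : ℕ, T0 ≤ T →
    ∀ (Q : ℕ → ℕ → Prop) (c : ℕ), PerB Q c → (∀ p : ℕ, p.Prime → nuB Q p < p) →
    (1 - η) * ((T * Vq Q w) ^ k / k.factorial) ≤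
      ∑ H ∈ powersetCard k (Icc 1 T), Vq (QH Q H) w ∧
    ∑ H ∈ powersetCard k (Icc 1 T), Vq (QH Q H) w ≤
      (1 + η) * ((T * Vq Q w) ^ k / k.factorial) := by
  obtain ⟨M, hM⟩ : ∃ M, M = Mw w := ⟨_, rfl⟩
  have hMpos : 0 < M := by rw [hM]; exact Mw_pos w
  have hMr : (0 : ℝ) < M := by exact_mod_cast hMpos
  obtain ⟨δ, hδ⟩ : ∃ δ : ℝ, δ = min 1 (η / (2 ^ k + k)) := ⟨_, rfl⟩
  have hδ0 : 0 < δ := by rw [hδ]; positivity
  have hδ1 : δ ≤ 1 := by rw [hδ]; exact min_le_left _ _
  have hδη : δ * (2 ^ k + k) ≤ η := by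
    have : δ ≤ η / (2 ^ k + k) := by rw [hδ]; exact min_le_right _ _
    rwa [le_div_iff₀ (by positivity)] at this
  obtain ⟨T0, hT0⟩ : ∃ T0 : ℕ, (M : ℝ) * (M + k) / δ ≤ T0 := exists_nat_ge _
  refine ⟨T0, ?_⟩
  intro T hT Q c hQ hadm
  have hTr : (M : ℝ) * (M + k) / δ ≤ T := hT0.trans (by exact_mod_cast hT)
  have hW := Vq_pos Q hadm w
  have hex := exact Q c hQ w
  rw [← hM] at hex
  have hMW : 1 ≤ (M : ℝ) * Vq Q w := by
    rw [← hex]
    have h1 : (0 : ℝ) < (((range M).filter (fun m => Sf Q w m)).card : ℝ) := by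
      rw [hex]
      positivity
    have h2 : 0 < ((range M).filter (fun m => Sf Q w m)).card := by exact_mod_cast h1
    exact_mod_cast h2
  obtain ⟨x, hx⟩ : ∃ x : ℝ, x = T * Vq Q w := ⟨_, rfl⟩
  rw [← hx]
  have hxM : (M : ℝ) + k ≤ δ * x := by
    rw [hx]
    rw [div_le_iff₀ hδ0] at hTr
    have h1 : (M : ℝ) * (M + k) ≤ M * (δ * (T * Vq Q w)) := by
      calc (M : ℝ) * (M + k) ≤ T * δ := hTr
        _ = T * δ * 1 := (mul_one _).symm
        _ ≤ T * δ * (M * Vq Q w) := by gcongr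
        _ = _ := by ring
    exact le_of_mul_le_mul_left h1 hMr
  have hMk : (0 : ℝ) < (M : ℝ) + k := by positivity
  have hx0 : 0 < x := by
    by_contra hcon
    rw [not_lt] at hcon
    have : δ * x ≤ 0 := mul_nonpos_of_nonneg_of_nonpos hδ0.le hcon
    linarith
  have hxx : (M : ℝ) + k ≤ x := by nlinarith
  have hkf : (0 : ℝ) < k.factorial := by exact_mod_cast Nat.factorial_pos k
  have hsum := sum_sets Q c hQ w k T
  rw [← hM] at hsum
  have hb : ∀ m ∈ range M, (x - M - k) ^ k / k.factorial ≤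
      ((((Icc 1 T).filter (fun h => Sf Q w (m + h))).card.choose k : ℕ) : ℝ) ∧
      ((((Icc 1 T).filter (fun h => Sf Q w (m + h))).card.choose k : ℕ) : ℝ) ≤
        (x + M) ^ k / k.factorial := by
    intro m _
    apply choose_bounds
    · have := window Q c hQ w m T
      rw [← hM, ← hx] at this
      exact this
    · exact hxx
  have hlo : (M : ℝ) * ((x - M - k) ^ k / k.factorial) ≤ M *
      ∑ H ∈ powersetCard k (Icc 1 T), Vq (QH Q H) w := by
    rw [hsum]
    have := Finset.card_nsmul_le_sum (range M) (fun m =>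
      ((((Icc 1 T).filter (fun h => Sf Q w (m + h))).card.choose k : ℕ) : ℝ)) _
      (fun m hm => (hb m hm).1)
    rwa [card_range, nsmul_eq_mul] at this
  have hup : (M : ℝ) * ∑ H ∈ powersetCard k (Icc 1 T), Vq (QH Q H) w ≤
      M * ((x + M) ^ k / k.factorial) := by
    rw [hsum]
    have := Finset.sum_le_card_nsmul (range M) (fun m =>
      ((((Icc 1 T).filter (fun h => Sf Q w (m + h))).card.choose k : ℕ) : ℝ)) _
      (fun m hm => (hb m hm).2)
    rwa [card_range, nsmul_eq_mul] at this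
  have hlo' := le_of_mul_le_mul_left hlo hMr
  have hup' := le_of_mul_le_mul_left hup hMr
  have hk0 : (0 : ℝ) ≤ k := Nat.cast_nonneg k
  have hMδ : (M : ℝ) / x ≤ δ := by
    rw [div_le_iff₀ hx0]
    linarith
  have hMkδ : ((M : ℝ) + k) / x ≤ δ := by
    rw [div_le_iff₀ hx0]
    linarith
  constructor
  · refine le_trans ?_ hlo'
    rw [← mul_div_assoc]
    apply div_le_div_of_nonneg_right _ hkf.le
    have h1 : x - M - k = x * (1 + -(((M : ℝ) + k) / x)) := by
      field_simp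
      ring
    rw [h1, mul_pow, mul_comm (1 - η)]
    apply mul_le_mul_of_nonneg_left _ (by positivity)
    have h2 := one_add_mul_le_pow (a := -(((M : ℝ) + k) / x)) (by linarith) k
    refine le_trans ?_ h2
    have h3 : (k : ℝ) * (((M : ℝ) + k) / x) ≤ k * δ := by gcongr
    have h4 : (0 : ℝ) < 2 ^ k := by positivity
    have h5 : k * δ ≤ δ * (2 ^ k + k) := by nlinarith
    linarith
  · refine le_trans hup' ?_
    rw [← mul_div_assoc]
    apply div_le_div_of_nonneg_right _ hkf.le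
    have h1 : x + M = x * (1 + (M : ℝ) / x) := by
      field_simp
    rw [h1, mul_pow, mul_comm (1 + η)]
    apply mul_le_mul_of_nonneg_left _ (by positivity)
    have h2 := one_add_pow_le k ((M : ℝ) / x) (by positivity) (by linarith)
    refine h2.trans ?_
    have h6 : (1 : ℝ) ≤ 2 ^ k := one_le_pow₀ (by norm_num)
    have h3 : (2 ^ k - 1) * ((M : ℝ) / x) ≤ (2 ^ k - 1) * δ :=
      mul_le_mul_of_nonneg_left hMδ (by linarith)
    have h5 : (2 ^ k - 1) * δ ≤ δ * (2 ^ k + k) := by nlinarith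
    linarith

end Pool.Agent.TH464.PO
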